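import Pool.Agent.Work.MP_a1f430_wb.Interface4

/-! # Block C6A: at most one solution up to multiples (helper1) -/

set_option autoImplicit false

namespace Pool.TIW

open Pool.TIA
open MeasureTheory Set Filter Topology
open scoped ContDiff ENNReal

/-- A frame is a basis. -/
theorem C6A_basis {h : Bil E6} {Ω : Frm 2 E6} {f : Fin 6 → E6} {a b c : ℝ}
    (hN : NF6 h Ω f a b c) : ∃ B : Module.Basis (Fin 6) ℝ E6, ∀ i, B i = f i := by
  have h1 : 0 < (stb (2 + 4)).det f := by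
    have h2 := hN.fr.pos
    simpa only [Equiv.apply_symm_apply] using h2
  have h3 := (Module.Basis.is_basis_iff_det (stb (2 + 4)) (v := f)).2 (isUnit_iff_ne_zero.2 h1.ne')
  exact ⟨Module.Basis.mk h3.1 h3.2.ge, fun i => Module.Basis.mk_apply _ _ i⟩

theorem C6A_swap (w : Frm 2 E6) (x y : E6) : w ![y, x] = -w ![x, y] := by
  have h1 := w.toAlternatingMap.map_swap ![x, y] (i := 0) (j := 1) (by decide)
  have h2 : (![x, y] : Fin 2 → E6) ∘ (Equiv.swap (0 : Fin 2) 1) = ![y, x] := by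
    funext i
    fin_cases i <;> simp
  rw [h2] at h1
  exact h1

theorem C6A_self (w : Frm 2 E6) (x : E6) : w ![x, x] = 0 := by
  have h1 := C6A_swap w x x
  linarith

theorem C6A_ext {f : Fin 6 → E6} (B : Module.Basis (Fin 6) ℝ E6) (hB : ∀ i, B i = f i)
    (w w' : Frm 2 E6) (hw : ∀ i j : Fin 6, i < j → w ![f i, f j] = w' ![f i, f j]) : w = w' := by
  have key : ∀ i j : Fin 6, w ![f i, f j] = w' ![f i, f j] := by
    intro i j
    rcases lt_trichotomy i j with hij | hij | hij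
    · exact hw i j hij
    · subst hij
      rw [C6A_self, C6A_self]
    · rw [C6A_swap w (f j) (f i), C6A_swap w' (f j) (f i), hw j i hij]
  apply ContinuousAlternatingMap.toAlternatingMap_injective
  refine Module.Basis.ext_alternating B (fun v _ => ?_)
  have h1 : (fun i => B (v i)) = ![f (v 0), f (v 1)] := by
    funext i
    fin_cases i <;> simp [hB]
  rw [h1]
  exact key (v 0) (v 1)

/-- The components of a solution. -/
structure C6A_Comp (f : Fin 6 → E6) (κ μ : ℝ) (w : Frm 2 E6) : Prop where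
  p01 : w ![f 0, f 1] = κ * w ![f 4, f 5]
  p23 : w ![f 2, f 3] = μ * w ![f 4, f 5]
  p02 : w ![f 0, f 2] = 0
  p03 : w ![f 0, f 3] = 0
  p12 : w ![f 1, f 2] = 0
  p13 : w ![f 1, f 3] = 0
  p04 : w ![f 0, f 4] = 0
  p05 : w ![f 0, f 5] = 0
  p14 : w ![f 1, f 4] = 0
  p15 : w ![f 1, f 5] = 0
  p24 : w ![f 2, f 4] = 0
  p25 : w ![f 2, f 5] = 0
  p34 : w ![f 3, f 4] = 0
  p35 : w ![f 3, f 5] = 0

theorem C6A_zero {c x y : ℝ} (hc : c ^ 2 ≠ 1) (h1 : x = c * y) (h2 : y = c * x) :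
    x = 0 ∧ y = 0 := by
  have h3 : (1 - c ^ 2) * x = 0 := by
    have : x = c * (c * x) := by rw [← h2]; exact h1
    linear_combination this
  have h4 : x = 0 := by
    rcases mul_eq_zero.1 h3 with h5 | h5
    · exact absurd (by linarith) hc
    · exact h5
  exact ⟨h4, by rw [h2, h4, mul_zero]⟩

theorem C6A_zero' {c x y : ℝ} (hc : c ^ 2 ≠ 1) (h1 : x = -(c * y)) (h2 : y = -(c * x)) :
    x = 0 ∧ y = 0 := by
  refine C6A_zero (c := -c) (by rwa [neg_sq]) ?_ ?_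
  · rw [h1]; ring
  · rw [h2]; ring

theorem C6A_comp (hE : Stmt_EQ6) {h : Bil E6} {Ω : Frm 2 E6} {f : Fin 6 → E6} {a b c : ℝ}
    (hN : NF6 h Ω f a b c) (ha : a ^ 2 ≠ 1) (hb : b ^ 2 ≠ 1) (hc : c ^ 2 ≠ 1) (w : Frm 2 E6)
    (hw : StEq (stb (2 + 4)) h Ω w) :
    C6A_Comp f ((b + c * a) / (1 - c ^ 2)) ((a + b * c) / (1 - c ^ 2)) w := by
  obtain ⟨⟨h01, h23, h45⟩, ⟨h02, h03, h12, h13⟩, ⟨h04, h05, h14, h15⟩, ⟨h24, h25, h34, h35⟩⟩ :=
    hE h Ω f a b c hN w hw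
  have hc' : (1 : ℝ) - c ^ 2 ≠ 0 := by
    intro h0
    exact hc (by linarith)
  have q1 := C6A_zero' hc h02 h13
  have q2 := C6A_zero hc h03 h12
  have q3 := C6A_zero' hb h04 h15
  have q4 := C6A_zero hb h05 h14
  have q5 := C6A_zero' ha h24 h35
  have q6 := C6A_zero ha h25 h34
  refine ⟨?_, ?_, q1.1, q2.1, q2.2, q1.2, q3.1, q4.1, q4.2, q3.2, q5.1, q6.1, q6.2, q5.2⟩
  · rw [div_mul_eq_mul_div, eq_div_iff hc']
    linear_combination h01 + c * h23
  · rw [div_mul_eq_mul_div, eq_div_iff hc']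
    linear_combination h23 + c * h01

theorem p_C6A (hE : Stmt_EQ6) : Stmt_C6A := by
  intro h Ω f a b c hN ha hb hc
  obtain ⟨B, hB⟩ := C6A_basis hN
  by_cases hex : ∃ w₀ : Frm 2 E6, StEq (stb (2 + 4)) h Ω w₀ ∧ w₀ ![f 4, f 5] ≠ 0
  · obtain ⟨w₀, hw₀, hne⟩ := hex
    refine ⟨w₀, fun w hw => ⟨w ![f 4, f 5] / w₀ ![f 4, f 5], ?_⟩⟩
    have C := C6A_comp hE hN ha hb hc w hw
    have C₀ := C6A_comp hE hN ha hb hc w₀ hw₀
    refine C6A_ext B hB _ _ (fun i j hij => ?_)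
    show w ![f i, f j] = w ![f 4, f 5] / w₀ ![f 4, f 5] * w₀ ![f i, f j]
    have hsc : w ![f 4, f 5] / w₀ ![f 4, f 5] * w₀ ![f 4, f 5] = w ![f 4, f 5] :=
      div_mul_cancel₀ _ hne
    fin_cases i <;> fin_cases j <;> first
      | exact absurd hij (by decide)
      | (show w ![f 0, f 1] = w ![f 4, f 5] / w₀ ![f 4, f 5] * w₀ ![f 0, f 1]
         rw [C.p01, C₀.p01]; linear_combination (-(b + c * a) / (1 - c ^ 2)) * hsc)
      | (show w ![f 2, f 3] = w ![f 4, f 5] / w₀ ![f 4, f 5] * w₀ ![f 2, f 3]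
         rw [C.p23, C₀.p23]; linear_combination (-(a + b * c) / (1 - c ^ 2)) * hsc)
      | (show w ![f 4, f 5] = w ![f 4, f 5] / w₀ ![f 4, f 5] * w₀ ![f 4, f 5]
         exact hsc.symm)
      | (show w ![f 0, f 2] = w ![f 4, f 5] / w₀ ![f 4, f 5] * w₀ ![f 0, f 2]
         rw [C.p02, C₀.p02, mul_zero])
      | (show w ![f 0, f 3] = w ![f 4, f 5] / w₀ ![f 4, f 5] * w₀ ![f 0, f 3]
         rw [C.p03, C₀.p03, mul_zero])
      | (show w ![f 0, f 4] = w ![f 4, f 5] / w₀ ![f 4, f 5] * w₀ ![f 0, f 4]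
         rw [C.p04, C₀.p04, mul_zero])
      | (show w ![f 0, f 5] = w ![f 4, f 5] / w₀ ![f 4, f 5] * w₀ ![f 0, f 5]
         rw [C.p05, C₀.p05, mul_zero])
      | (show w ![f 1, f 2] = w ![f 4, f 5] / w₀ ![f 4, f 5] * w₀ ![f 1, f 2]
         rw [C.p12, C₀.p12, mul_zero])
      | (show w ![f 1, f 3] = w ![f 4, f 5] / w₀ ![f 4, f 5] * w₀ ![f 1, f 3]
         rw [C.p13, C₀.p13, mul_zero])
      | (show w ![f 1, f 4] = w ![f 4, f 5] / w₀ ![f 4, f 5] * w₀ ![f 1, f 4]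
         rw [C.p14, C₀.p14, mul_zero])
      | (show w ![f 1, f 5] = w ![f 4, f 5] / w₀ ![f 4, f 5] * w₀ ![f 1, f 5]
         rw [C.p15, C₀.p15, mul_zero])
      | (show w ![f 2, f 4] = w ![f 4, f 5] / w₀ ![f 4, f 5] * w₀ ![f 2, f 4]
         rw [C.p24, C₀.p24, mul_zero])
      | (show w ![f 2, f 5] = w ![f 4, f 5] / w₀ ![f 4, f 5] * w₀ ![f 2, f 5]
         rw [C.p25, C₀.p25, mul_zero])
      | (show w ![f 3, f 4] = w ![f 4, f 5] / w₀ ![f 4, f 5] * w₀ ![f 3, f 4]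
         rw [C.p34, C₀.p34, mul_zero])
      | (show w ![f 3, f 5] = w ![f 4, f 5] / w₀ ![f 4, f 5] * w₀ ![f 3, f 5]
         rw [C.p35, C₀.p35, mul_zero])
  · refine ⟨0, fun w hw => ⟨0, ?_⟩⟩
    have C := C6A_comp hE hN ha hb hc w hw
    have h45 : w ![f 4, f 5] = 0 := by
      by_contra hne
      exact hex ⟨w, hw, hne⟩
    rw [smul_zero]
    refine C6A_ext B hB _ _ (fun i j hij => ?_)
    show w ![f i, f j] = 0
    fin_cases i <;> fin_cases j <;> first
      | exact absurd hij (by decide)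
      | (show w ![f 0, f 1] = 0; rw [C.p01, h45, mul_zero])
      | (show w ![f 2, f 3] = 0; rw [C.p23, h45, mul_zero])
      | exact h45
      | exact C.p02
      | exact C.p03
      | exact C.p04
      | exact C.p05
      | exact C.p12
      | exact C.p13
      | exact C.p14
      | exact C.p15
      | exact C.p24
      | exact C.p25
      | exact C.p34
      | exact C.p35

end Pool.TIW
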