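import Pool.Agent.Work.MP_a1f430_wb.B_C6A

/-! # Block C6B: exactly one coefficient of modulus one (helper1) -/

set_option autoImplicit false

namespace Pool.TIW

open Pool.TIA
open MeasureTheory Set Filter Topology
open scoped ContDiff ENNReal

/-- The linear map `v ↦ w(x, v)`. -/
noncomputable def C6B_lin (w : Frm 2 E6) (x : E6) : E6 →ₗ[ℝ] ℝ :=
  w.toMultilinearMap.toLinearMap ![x, 0] 1

theorem C6B_lin_apply (w : Frm 2 E6) (x v : E6) : C6B_lin w x v = w ![x, v] := by
  show w (Function.update ![x, 0] 1 v) = w ![x, v]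
  congr 1
  funext i
  fin_cases i <;> simp

theorem p_C6B (hE : Stmt_EQ6) : Stmt_C6B := by
  intro h Ω f a b c hN ha hb hc w hw v
  obtain ⟨B, hB⟩ := C6A_basis hN
  obtain ⟨⟨h01, h23, h45⟩, -, ⟨h04, h05, h14, h15⟩, ⟨h24, h25, h34, h35⟩⟩ :=
    hE h Ω f a b c hN w hw
  have q3 := C6A_zero' hb h04 h15
  have q4 := C6A_zero hb h05 h14
  have q5 := C6A_zero' ha h24 h35
  have q6 := C6A_zero ha h25 h34
  have h0 : (b + c * a) * w ![f 4, f 5] = 0 := by
    linear_combination -h01 - c * h23 - (w ![f 0, f 1]) * hc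
  have z45 : w ![f 4, f 5] = 0 := by
    rcases mul_eq_zero.1 h0 with h1 | h1
    · have hb' : b = -(c * a) := by linarith
      have h2 : (1 - a ^ 2) * w ![f 4, f 5] = 0 := by
        rw [hb'] at h45
        linear_combination h45 + a * h23
      rcases mul_eq_zero.1 h2 with h3 | h3
      · exact absurd (by linarith) ha
      · exact h3
    · exact h1
  have hz : C6B_lin w (f 4) = 0 := by
    refine B.ext (fun j => ?_)
    rw [C6B_lin_apply, hB, LinearMap.zero_apply]
    fin_cases j
    · show w ![f 4, f 0] = 0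
      rw [C6A_swap w (f 0) (f 4), q3.1, neg_zero]
    · show w ![f 4, f 1] = 0
      rw [C6A_swap w (f 1) (f 4), q4.2, neg_zero]
    · show w ![f 4, f 2] = 0
      rw [C6A_swap w (f 2) (f 4), q5.1, neg_zero]
    · show w ![f 4, f 3] = 0
      rw [C6A_swap w (f 3) (f 4), q6.2, neg_zero]
    · exact C6A_self w (f 4)
    · exact z45
  rw [← C6B_lin_apply, hz, LinearMap.zero_apply]

end Pool.TIW
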