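import Pool.Agent.Work.MP_a1f430_wb.Interface4

/-! # Block C6C: two coefficients of modulus one (MP_a1f430, THEOREM D6, helper90) -/

set_option autoImplicit false

namespace Pool.TIW

open Pool.TIA
open MeasureTheory Set Filter Topology
open scoped ContDiff ENNReal

section forms

theorem C6C_u0 {V : Type} (a b c : V) : Function.update ![a, b] 0 c = ![c, b] := by
  funext i
  fin_cases i <;> rfl

theorem C6C_u1 {V : Type} (a b c : V) : Function.update ![a, b] 1 c = ![a, c] := by
  funext i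
  fin_cases i <;> rfl

variable {V : Type} [NormedAddCommGroup V] [NormedSpace ℝ V] (F : Frm 2 V)

theorem C6C_add0 (a a' b : V) : F ![a + a', b] = F ![a, b] + F ![a', b] := by
  have h := F.map_update_add ![0, b] 0 a a'
  rwa [C6C_u0, C6C_u0, C6C_u0] at h

theorem C6C_smul0 (c : ℝ) (a b : V) : F ![c • a, b] = c * F ![a, b] := by
  have h := F.map_update_smul ![0, b] 0 c a
  rwa [C6C_u0, C6C_u0] at h

theorem C6C_add1 (a b b' : V) : F ![a, b + b'] = F ![a, b] + F ![a, b'] := by
  have h := F.map_update_add ![a, 0] 1 b b'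
  rwa [C6C_u1, C6C_u1, C6C_u1] at h

theorem C6C_smul1 (c : ℝ) (a b : V) : F ![a, c • b] = c * F ![a, b] := by
  have h := F.map_update_smul ![a, 0] 1 c b
  rwa [C6C_u1, C6C_u1] at h

theorem C6C_neg0 (a b : V) : F ![-a, b] = -F ![a, b] := by
  have h := C6C_smul0 F (-1) a b
  rwa [neg_one_smul, neg_one_mul] at h

theorem C6C_neg1 (a b : V) : F ![a, -b] = -F ![a, b] := by
  have h := C6C_smul1 F (-1) a b
  rwa [neg_one_smul, neg_one_mul] at h

theorem C6C_self (a : V) : F ![a, a] = 0 :=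
  F.map_eq_zero_of_eq ![a, a] (i := 0) (j := 1) rfl (by decide)

theorem C6C_swap (a b : V) : F ![b, a] = -F ![a, b] := by
  have h := C6C_self F (a + b)
  rw [C6C_add0, C6C_add1, C6C_add1, C6C_self, C6C_self] at h
  linarith

/-- `(u, v) ↦ F(L u, L v)` as a bilinear map. -/
noncomputable def C6C_bil (L : V →ₗ[ℝ] V) : V →ₗ[ℝ] V →ₗ[ℝ] ℝ :=
  LinearMap.mk₂ ℝ (fun u v => F ![L u, L v])
    (fun a a' b => by rw [map_add, C6C_add0])
    (fun c a b => by rw [map_smul, C6C_smul0]; rfl)
    (fun a b b' => by rw [map_add, C6C_add1])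
    (fun c a b => by rw [map_smul, C6C_smul1]; rfl)

theorem C6C_bil_apply (L : V →ₗ[ℝ] V) (u v : V) : C6C_bil F L u v = F ![L u, L v] := rfl

end forms

/-- The frame is a basis. -/
theorem C6C_basis {h : Bil E6} {Ω : Frm 2 E6} {f : Fin 6 → E6} {a b c : ℝ}
    (hf : NF6 h Ω f a b c) : ∃ B : Module.Basis (Fin 6) ℝ E6, ∀ i, B i = f i := by
  have h1 : 0 < (stb (2 + 4)).det f := by
    have h2 := hf.fr.pos
    have h3 : (fun i : Fin (2 + 4) => (fun j => f (ix 2 j)) ((ix 2).symm i)) = f := by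
      funext i
      show f (ix 2 ((ix 2).symm i)) = f i
      rw [Equiv.apply_symm_apply]
    rw [h3] at h2
    exact h2
  obtain ⟨h2, h3⟩ := ((stb (2 + 4)).is_basis_iff_det (v := f)).2 (isUnit_iff_ne_zero.2 h1.ne')
  exact ⟨Module.Basis.mk h2 h3.ge, fun i => by rw [Module.Basis.mk_apply]⟩

theorem p_C6C (hEQ6 : Stmt_EQ6) : Stmt_C6C := by
  intro h Ω f a b c hf hb hc ha
  obtain ⟨B, hB⟩ := C6C_basis hf
  let g : Fin 6 → E6 := ![f 1, -f 0, c • f 3, -(c • f 2), b • f 5, -(b • f 4)]
  let L : E6 →ₗ[ℝ] E6 := B.constr ℝ g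
  have hL : ∀ i, L (f i) = g i := fun i => by
    rw [← hB i]
    exact B.constr_basis ℝ g i
  have g0 : L (f 0) = f 1 := hL 0
  have g1 : L (f 1) = -f 0 := hL 1
  have g2 : L (f 2) = c • f 3 := hL 2
  have g3 : L (f 3) = -(c • f 2) := hL 3
  have g4 : L (f 4) = b • f 5 := hL 4
  have g5 : L (f 5) = -(b • f 4) := hL 5
  have hc' : c * c = 1 := by rw [← hc]; ring
  have hb' : b * b = 1 := by rw [← hb]; ring
  have hLL : L.comp L = -LinearMap.id := by
    refine B.ext (fun i => ?_)
    rw [LinearMap.comp_apply, hB i]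
    show L (L (f i)) = -f i
    fin_cases i
    · show L (L (f 0)) = -f 0
      rw [g0, g1]
    · show L (L (f 1)) = -f 1
      rw [g1, map_neg, g0]
    · show L (L (f 2)) = -f 2
      rw [g2, map_smul, g3, smul_neg, smul_smul, hc', one_smul]
    · show L (L (f 3)) = -f 3
      rw [g3, map_neg, map_smul, g2, smul_smul, hc', one_smul]
    · show L (L (f 4)) = -f 4
      rw [g4, map_smul, g5, smul_neg, smul_smul, hb', one_smul]
    · show L (L (f 5)) = -f 5
      rw [g5, map_neg, map_smul, g4, smul_smul, hb', one_smul]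
  refine ⟨LinearMap.toContinuousLinearMap L, ?_, ?_⟩
  · intro v
    have h1 := LinearMap.congr_fun hLL v
    exact h1
  intro w hw
  obtain ⟨⟨e1, e2, e3⟩, ⟨p1, p2, p3, p4⟩, ⟨q1, q2, q3, q4⟩, ⟨r1, r2, r3, r4⟩⟩ :=
    hEQ6 h Ω f a b c hf w hw
  have hne : b + c * a ≠ 0 := by
    intro h1
    apply ha
    have h2 : c * (b + c * a) = 0 := by rw [h1, mul_zero]
    have h3 : c * b + c * c * a = 0 := by rw [← h2]; ring
    rw [hc', one_mul] at h3
    linarith
  have w45 : w ![f 4, f 5] = 0 := by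
    have h1 : (b + c * a) * w ![f 4, f 5] = 0 := by
      have h2 : c * w ![f 2, f 3] = c * c * w ![f 0, f 1] + c * a * w ![f 4, f 5] := by
        rw [e2]; ring
      rw [hc', one_mul] at h2
      linarith
    exact (mul_eq_zero.1 h1).resolve_left hne
  have w01 : w ![f 0, f 1] = 0 := by
    have h1 : (b + c * a) * w ![f 0, f 1] = 0 := by
      have h2 : w ![f 2, f 3] = c * w ![f 0, f 1] := by rw [e2, w45]; ring
      have h3 := e3
      rw [w45, h2] at h3
      linarith
    exact (mul_eq_zero.1 h1).resolve_left hne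
  have w23 : w ![f 2, f 3] = 0 := by rw [e2, w45, w01]; ring
  have hcases : (a = b * c) ∨ (w ![f 2, f 4] = 0 ∧ w ![f 2, f 5] = 0 ∧ w ![f 3, f 4] = 0 ∧
      w ![f 3, f 5] = 0) := by
    by_cases h1 : a ^ 2 = 1
    · left
      have h2 : (a - b * c) * (a + b * c) = 0 := by
        have h3 : (a - b * c) * (a + b * c) = a ^ 2 - b ^ 2 * c ^ 2 := by ring
        rw [h3, h1, hb, hc]; ring
      rcases mul_eq_zero.1 h2 with h3 | h3
      · linarith
      · exact absurd (by linarith) ha
    · right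
      have h2 : 1 - a ^ 2 ≠ 0 := fun h3 => h1 (by linarith)
      have z1 : (1 - a ^ 2) * w ![f 2, f 4] = 0 := by
        have h3 : w ![f 2, f 4] = a ^ 2 * w ![f 2, f 4] := by
          conv_lhs => rw [r1, r4]
          ring
        linarith
      have z2 : (1 - a ^ 2) * w ![f 2, f 5] = 0 := by
        have h3 : w ![f 2, f 5] = a ^ 2 * w ![f 2, f 5] := by
          conv_lhs => rw [r2, r3]
          ring
        linarith
      have z3 := (mul_eq_zero.1 z1).resolve_left h2
      have z4 := (mul_eq_zero.1 z2).resolve_left h2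
      exact ⟨z3, z4, by rw [r3, z4, mul_zero], by rw [r4, z3, mul_zero, neg_zero]⟩
  have k01 : w ![L (f 0), L (f 1)] = -w ![f 0, f 1] := by
    rw [g0, g1, C6C_neg1, C6C_swap, w01]; ring
  have k02 : w ![L (f 0), L (f 2)] = -w ![f 0, f 2] := by
    rw [g0, g2, C6C_smul1, p1]; ring
  have k03 : w ![L (f 0), L (f 3)] = -w ![f 0, f 3] := by
    rw [g0, g3, C6C_neg1, C6C_smul1, p2]
  have k04 : w ![L (f 0), L (f 4)] = -w ![f 0, f 4] := by
    rw [g0, g4, C6C_smul1, q1]; ring
  have k05 : w ![L (f 0), L (f 5)] = -w ![f 0, f 5] := by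
    rw [g0, g5, C6C_neg1, C6C_smul1, q2]
  have k12 : w ![L (f 1), L (f 2)] = -w ![f 1, f 2] := by
    rw [g1, g2, C6C_neg0, C6C_smul1, p3]
  have k13 : w ![L (f 1), L (f 3)] = -w ![f 1, f 3] := by
    rw [g1, g3, C6C_neg0, C6C_neg1, C6C_smul1, p4]
  have k14 : w ![L (f 1), L (f 4)] = -w ![f 1, f 4] := by
    rw [g1, g4, C6C_neg0, C6C_smul1, q3]
  have k15 : w ![L (f 1), L (f 5)] = -w ![f 1, f 5] := by
    rw [g1, g5, C6C_neg0, C6C_neg1, C6C_smul1, q4]
  have k23 : w ![L (f 2), L (f 3)] = -w ![f 2, f 3] := by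
    rw [g2, g3, C6C_neg1, C6C_smul0, C6C_smul1, C6C_swap, w23]; ring
  have k24 : w ![L (f 2), L (f 4)] = -w ![f 2, f 4] := by
    rw [g2, g4, C6C_smul0, C6C_smul1]
    rcases hcases with h1 | ⟨h1, h2, h3, h4⟩
    · rw [r1, h1]; ring
    · rw [h1, h4]; ring
  have k25 : w ![L (f 2), L (f 5)] = -w ![f 2, f 5] := by
    rw [g2, g5, C6C_neg1, C6C_smul0, C6C_smul1]
    rcases hcases with h1 | ⟨h1, h2, h3, h4⟩
    · rw [r2, h1]; ring
    · rw [h2, h3]; ring
  have k34 : w ![L (f 3), L (f 4)] = -w ![f 3, f 4] := by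
    rw [g3, g4, C6C_neg0, C6C_smul0, C6C_smul1]
    rcases hcases with h1 | ⟨h1, h2, h3, h4⟩
    · rw [r3, h1]; ring
    · rw [h2, h3]; ring
  have k35 : w ![L (f 3), L (f 5)] = -w ![f 3, f 5] := by
    rw [g3, g5, C6C_neg0, C6C_neg1, C6C_smul0, C6C_smul1]
    rcases hcases with h1 | ⟨h1, h2, h3, h4⟩
    · rw [r4, h1]; ring
    · rw [h1, h4]; ring
  have k45 : w ![L (f 4), L (f 5)] = -w ![f 4, f 5] := by
    rw [g4, g5, C6C_neg1, C6C_smul0, C6C_smul1, C6C_swap, w45]; ring
  have hlt : ∀ i j : Fin 6, i < j → w ![L (f i), L (f j)] = -w ![f i, f j] := by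
    intro i j hij
    fin_cases i <;> fin_cases j <;>
      first
        | exact absurd hij (by decide)
        | exact k01
        | exact k02
        | exact k03
        | exact k04
        | exact k05
        | exact k12
        | exact k13
        | exact k14
        | exact k15
        | exact k23
        | exact k24
        | exact k25
        | exact k34
        | exact k35
        | exact k45
  have hall : ∀ i j : Fin 6, w ![L (f i), L (f j)] = -w ![f i, f j] := by
    intro i j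
    rcases lt_trichotomy i j with hij | hij | hij
    · exact hlt i j hij
    · subst hij
      rw [C6C_self, C6C_self, neg_zero]
    · rw [C6C_swap w (L (f j)) (L (f i)), C6C_swap w (f j) (f i), hlt j i hij]
  have hbil : C6C_bil w L = -C6C_bil w LinearMap.id := by
    refine B.ext (fun i => B.ext (fun j => ?_))
    rw [C6C_bil_apply, hB i, hB j]
    exact hall i j
  intro u v
  have h1 := LinearMap.congr_fun (LinearMap.congr_fun hbil u) v
  exact h1

end Pool.TIW
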