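import Pool.Agent.Work.MP_a1f430_wb.Interface4

/-! # Block D6F: the assembly in dimension six (MP_a1f430, THEOREM D6) -/

set_option autoImplicit false

namespace Pool.TIW

open Pool.TIA
open MeasureTheory Set Filter Topology
open scoped ContDiff ENNReal

theorem D6F_sq {x : ℝ} (h : x ^ 2 = 1) : x = 1 ∨ x = -1 := by
  have h1 : (x - 1) * (x + 1) = 0 := by
    linarith [h, sq x, show (x - 1) * (x + 1) = x ^ 2 - 1 by ring]
  rcases mul_eq_zero.1 h1 with h2 | h2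
  · exact Or.inl (by linarith)
  · exact Or.inr (by linarith)

/-- the exceptional case -/
theorem D6F_exc (hNFP : Stmt_NFP) (h : Bil E6) (Ω : Frm 2 E6) (f : Fin 6 → E6) (a b c : ℝ)
    (hf : NF6 h Ω f a b c) (hb : b ^ 2 = 1) (hc : c ^ 2 = 1) (ha : a = -(b * c)) :
    ∃ f, NF6 h Ω f (-1) (-1) (-1) := by
  rcases D6F_sq hb with rfl | rfl <;> rcases D6F_sq hc with rfl | rfl
  · -- b = c = 1, a = -1
    have h1 : a = -1 := by rw [ha]; norm_num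
    subst h1
    exact (hNFP h Ω f _ _ _ hf).2.2
  · -- b = 1, c = -1, a = 1
    have h1 : a = 1 := by rw [ha]; norm_num
    subst h1
    obtain ⟨f1, hf1⟩ := (hNFP h Ω f _ _ _ hf).1
    obtain ⟨f2, hf2⟩ := (hNFP h Ω f1 _ _ _ hf1).1
    exact (hNFP h Ω f2 _ _ _ hf2).2.2
  · -- b = -1, c = 1, a = 1
    have h1 : a = 1 := by rw [ha]; norm_num
    subst h1
    obtain ⟨f1, hf1⟩ := (hNFP h Ω f _ _ _ hf).1
    exact (hNFP h Ω f1 _ _ _ hf1).2.2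
  · -- b = c = -1, a = -1
    have h1 : a = -1 := by rw [ha]; norm_num
    subst h1
    exact ⟨f, hf⟩

/-- exactly one eigenvalue of modulus one -/
theorem D6F_one (hC6B : Stmt_C6B) (𝔐 : Type) [NormedRing 𝔐] [NormedAlgebra ℝ 𝔐] [StarRing 𝔐]
    [CStarRing 𝔐] [StarModule ℝ 𝔐] [FiniteDimensional ℝ 𝔐] (𝒢 : LieG 𝔐) (U : Set E6)
    (h : E6 → Bil E6) (Ω : E6 → Frm 2 E6) (A : OneF E6 𝔐) (F : TwoF E6 𝔐)
    (hW : WInst (stb (2 + 4)) 𝒢 U h Ω A F) (h₀ : Bil E6) (Ω₀ : Frm 2 E6)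
    (hh : ∀ x ∈ U, h x = h₀) (hΩ : ∀ x ∈ U, Ω x = Ω₀) (f : Fin 6 → E6) (a b c : ℝ)
    (hf : NF6 h₀ Ω₀ f a b c) (ha : a ^ 2 ≠ 1) (hb : b ^ 2 ≠ 1) (hc : c ^ 2 = 1) :
    Sing 𝒢 U A = ∅ ∨ 0 < Measure.hausdorffMeasure (2 : ℝ) (Sing 𝒢 U A) := by
  have h1 := hC6B h₀ Ω₀ f a b c hf ha hb hc
  have h4 : f 4 ≠ 0 := by
    intro h0
    have h2 := hf.fr.orth ((ix 2).symm 4) ((ix 2).symm 4)
    rw [if_pos rfl] at h2
    have h3 : f (ix 2 ((ix 2).symm 4)) = 0 := by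
      rw [Equiv.apply_symm_apply]
      exact h0
    beta_reduce at h2
    rw [h3, map_zero] at h2
    exact zero_ne_one h2
  have hA : ∀ x ∈ U, AFl (stb (2 + 4)) 1 h Ω x := by
    intro x hx
    refine ⟨U, fun _ _ => f 4, hW.op, hx, fun _ => contDiffOn_const, ?_, ?_⟩
    · rw [linearIndependent_unique_iff]
      exact h4
    · intro y hy w hw j v
      rw [hh y hy, hΩ y hy] at hw
      exact h1 w hw v
  have h5 := (Fin_up (k := 1) (𝒢 := 𝒢) (U := U) (h := h) (Ω := Ω) (A := A) (F := F) hW).2 hA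
  rcases h5 with h5 | h5
  · exact Or.inl h5
  · right
    have e : ((1 + 1 : ℕ) : ℝ) = 2 := by norm_num
    rw [e] at h5
    exact h5

theorem p_D6F (hFTR : Stmt_FTR) (hDM1 : Stmt_DM1) (hFJR : Stmt_FJR) (hNFE : Stmt_NFE)
    (hNFP : Stmt_NFP) (hC6A : Stmt_C6A) (hC6B : Stmt_C6B) (hC6C : Stmt_C6C) : Stmt_D6F := by
  intro 𝔐 _ _ _ _ _ _ 𝒢 U h Ω A F hW
  have part1 : ∀ x ∈ U, ∀ (f : Fin 6 → E6) (a b c : ℝ), NF6 (h x) (Ω x) f a b c → a ^ 2 ≠ 1 →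
      b ^ 2 ≠ 1 → c ^ 2 ≠ 1 → x ∉ Sing 𝒢 U A := by
    intro x hx f a b c hf ha hb hc hS
    obtain ⟨w₀, hw₀⟩ := hC6A (h x) (Ω x) f a b c hf ha hb hc
    have h1 : FTy (stb (2 + 4)) (h x) (Ω x) :=
      hDM1 2 (h x) (Ω x) w₀ (hW.metric.symm x hx) (hW.metric.pos x hx) hw₀
    exact hS.2 (hFTR 𝔐 𝒢 2 U h Ω A F hW x hx h1)
  refine ⟨part1, ?_⟩
  intro h₀ Ω₀ hh hΩ
  rcases U.eq_empty_or_nonempty with hU | ⟨x₀, hx₀⟩
  · right; left
    exact Set.eq_empty_of_forall_notMem fun x hx => by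
      have := hx.1
      rw [hU] at this
      exact this
  have hsym : ∀ v w, h₀ v w = h₀ w v := by
    intro v w
    rw [← hh x₀ hx₀]
    exact hW.metric.symm x₀ hx₀ v w
  have hpos : ∀ v, v ≠ 0 → 0 < h₀ v v := by
    intro v hv
    rw [← hh x₀ hx₀]
    exact hW.metric.pos x₀ hx₀ v hv
  obtain ⟨f, a, b, c, hf⟩ := hNFE h₀ Ω₀ hsym hpos
  -- no eigenvalue of modulus one
  have case0 : ∀ (f : Fin 6 → E6) (a b c : ℝ), NF6 h₀ Ω₀ f a b c → a ^ 2 ≠ 1 → b ^ 2 ≠ 1 →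
      c ^ 2 ≠ 1 → Sing 𝒢 U A = ∅ := by
    intro f a b c hf ha hb hc
    refine Set.eq_empty_of_forall_notMem fun x hx => ?_
    refine part1 x hx.1 f a b c ?_ ha hb hc hx
    rw [hh x hx.1, hΩ x hx.1]
    exact hf
  -- two eigenvalues of modulus one
  have case2 : ∀ (f : Fin 6 → E6) (a b c : ℝ), NF6 h₀ Ω₀ f a b c → b ^ 2 = 1 → c ^ 2 = 1 →
      (∃ f, NF6 h₀ Ω₀ f (-1) (-1) (-1)) ∨ Sing 𝒢 U A = ∅ := by
    intro f a b c hf hb hc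
    by_cases ha : a = -(b * c)
    · exact Or.inl (D6F_exc hNFP h₀ Ω₀ f a b c hf hb hc ha)
    · right
      obtain ⟨J, hJ, hJw⟩ := hC6C h₀ Ω₀ f a b c hf hb hc ha
      refine Set.eq_empty_of_forall_notMem fun x hx => ?_
      refine hx.2 (hFJR 𝔐 𝒢 2 U h Ω A F J hW hJ ?_ x hx.1)
      intro y hy w hw
      rw [hh y hy, hΩ y hy] at hw
      exact hJw w hw
  have case1 := D6F_one hC6B 𝔐 𝒢 U h Ω A F hW h₀ Ω₀ hh hΩ
  obtain ⟨f1, hf1⟩ := (hNFP h₀ Ω₀ f _ _ _ hf).1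
  obtain ⟨f2, hf2⟩ := (hNFP h₀ Ω₀ f1 _ _ _ hf1).1
  obtain ⟨f3, hf3⟩ := (hNFP h₀ Ω₀ f _ _ _ hf).2.1
  by_cases ha : a ^ 2 = 1 <;> by_cases hb : b ^ 2 = 1 <;> by_cases hc : c ^ 2 = 1
  · rcases case2 f a b c hf hb hc with h1 | h1
    · exact Or.inl h1
    · exact Or.inr (Or.inl h1)
  · rcases case2 f2 c a b hf2 ha hb with h1 | h1
    · exact Or.inl h1
    · exact Or.inr (Or.inl h1)
  · rcases case2 f3 b a c hf3 ha hc with h1 | h1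
    · exact Or.inl h1
    · exact Or.inr (Or.inl h1)
  · exact Or.inr (case1 f1 b c a hf1 hb hc ha)
  · rcases case2 f a b c hf hb hc with h1 | h1
    · exact Or.inl h1
    · exact Or.inr (Or.inl h1)
  · exact Or.inr (case1 f2 c a b hf2 hc ha hb)
  · exact Or.inr (case1 f a b c hf ha hb hc)
  · exact Or.inr (Or.inl (case0 f a b c hf ha hb hc))

end Pool.TIW
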