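import Pool.Agent.Work.MP_a1f430_wb.Interface4

set_option autoImplicit false

namespace Pool.TIW

open Pool.TIA
open MeasureTheory Set Filter Topology
open scoped ContDiff ENNReal

/-- The frame in an even order. -/
theorem EQ6_frame {h : Bil E6} {Ω : Frm 2 E6} {f : Fin 6 → E6} {a b c : ℝ}
    (hf : NF6 h Ω f a b c) (σ : Equiv.Perm (Fin 6)) (hσ : Equiv.Perm.sign σ = 1) :
    OFr (stb (2 + 4)) h (fun i => f (σ (ix 2 i))) := by
  refine ⟨fun i j => ?_, ?_⟩
  · have h1 := hf.fr.orth ((ix 2).symm (σ (ix 2 i))) ((ix 2).symm (σ (ix 2 j)))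
    simp only [Equiv.apply_symm_apply] at h1
    rw [h1]
    refine if_congr ?_ rfl rfl
    constructor
    · intro h2
      exact (ix 2).injective (σ.injective ((ix 2).symm.injective h2))
    · rintro rfl
      rfl
  · have h1 := hf.fr.pos
    simp only [Equiv.apply_symm_apply] at h1 ⊢
    have h2 := (stb (2 + 4)).det.map_perm (fun i => f i) σ
    rw [hσ, one_smul] at h2
    have h3 : (fun i : Fin (2 + 4) => f (σ i)) = (fun i => f i) ∘ σ := rfl
    rw [h3, h2]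
    exact h1

/-- The equation for the frame in an even order. -/
theorem EQ6_key (hW : Stmt_WD2) {h : Bil E6} {Ω : Frm 2 E6} {f : Fin 6 → E6} {a b c : ℝ}
    (hf : NF6 h Ω f a b c) {w : Frm 2 E6} (hw : StEq (stb (2 + 4)) h Ω w)
    (p q : Fin 6 → Fin 6) (h1 : ∀ i, q (p i) = i) (h2 : ∀ i, p (q i) = i)
    (hσ : Equiv.Perm.sign (⟨p, q, h1, h2⟩ : Equiv.Perm (Fin 6)) = 1) :
    Ω ![f (p 0), f (p 1)] * w ![f (p 2), f (p 3)] - Ω ![f (p 0), f (p 2)] * w ![f (p 1), f (p 3)] +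
      Ω ![f (p 0), f (p 3)] * w ![f (p 1), f (p 2)] + Ω ![f (p 1), f (p 2)] * w ![f (p 0), f (p 3)] -
      Ω ![f (p 1), f (p 3)] * w ![f (p 0), f (p 2)] + Ω ![f (p 2), f (p 3)] * w ![f (p 0), f (p 1)] =
      w ![f (p 4), f (p 5)] := by
  have h3 := hw _ (EQ6_frame hf ⟨p, q, h1, h2⟩ hσ)
  have h4 := hW ℝ E6 Ω w (fun i => f (p (ix 2 (Sum.inl i)))) (f (p 0)) (f (p 1)) (f (p 2))
    (f (p 3)) rfl rfl rfl rfl
  simp only [smul_eq_mul] at h4
  rw [← h4]
  exact h3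

theorem EQ6_swap (w : Frm 2 E6) (x y : E6) : w ![x, y] = -w ![y, x] := by
  have h1 := w.toAlternatingMap.map_swap ![y, x] (i := 0) (j := 1) (by decide)
  have h2 : (![y, x] ∘ (Equiv.swap (0 : Fin 2) 1)) = ![x, y] := by
    funext i
    fin_cases i <;> rfl
  rw [h2] at h1
  exact h1

theorem p_EQ6 (hW : Stmt_WD2) : Stmt_EQ6 := by
  intro h Ω f a b c hf w hw
  have K := fun (p q : Fin 6 → Fin 6) h1 h2 hσ => EQ6_key hW hf hw p q h1 h2 hσ
  have o01 := hf.o01
  have o23 := hf.o23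
  have o45 := hf.o45
  have off := hf.off
  have o02 := off 0 2 (by decide)
  have o03 := off 0 3 (by decide)
  have o04 := off 0 4 (by decide)
  have o05 := off 0 5 (by decide)
  have o12 := off 1 2 (by decide)
  have o13 := off 1 3 (by decide)
  have o14 := off 1 4 (by decide)
  have o15 := off 1 5 (by decide)
  have o20 := off 2 0 (by decide)
  have o21 := off 2 1 (by decide)
  have o24 := off 2 4 (by decide)
  have o25 := off 2 5 (by decide)
  have o30 := off 3 0 (by decide)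
  have o31 := off 3 1 (by decide)
  have o34 := off 3 4 (by decide)
  have o35 := off 3 5 (by decide)
  have o40 := off 4 0 (by decide)
  have o42 := off 4 2 (by decide)
  have o43 := off 4 3 (by decide)
  have o51 := off 5 1 (by decide)
  have o52 := off 5 2 (by decide)
  have o53 := off 5 3 (by decide)
  have A1 := K ![2, 3, 4, 5, 0, 1] ![4, 5, 0, 1, 2, 3] (by decide) (by decide) (by decide +kernel)
  have A2 := K ![0, 1, 4, 5, 2, 3] ![0, 1, 4, 5, 2, 3] (by decide) (by decide) (by decide +kernel)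
  have A3 := K ![0, 1, 2, 3, 4, 5] ![0, 1, 2, 3, 4, 5] (by decide) (by decide) (by decide +kernel)
  have B1 := K ![3, 1, 4, 5, 0, 2] ![4, 1, 5, 0, 2, 3] (by decide) (by decide) (by decide +kernel)
  have B2 := K ![1, 2, 4, 5, 0, 3] ![4, 0, 1, 5, 2, 3] (by decide) (by decide) (by decide +kernel)
  have B3 := K ![0, 3, 4, 5, 1, 2] ![0, 4, 5, 1, 2, 3] (by decide) (by decide) (by decide +kernel)
  have B4 := K ![2, 0, 4, 5, 1, 3] ![1, 4, 0, 5, 2, 3] (by decide) (by decide) (by decide +kernel)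
  have C1 := K ![5, 2, 3, 1, 0, 4] ![4, 3, 1, 2, 5, 0] (by decide) (by decide) (by decide +kernel)
  have C2 := K ![1, 2, 3, 4, 0, 5] ![4, 0, 1, 2, 3, 5] (by decide) (by decide) (by decide +kernel)
  have C3 := K ![0, 2, 3, 5, 1, 4] ![0, 4, 1, 2, 5, 3] (by decide) (by decide) (by decide +kernel)
  have C4 := K ![4, 2, 3, 0, 1, 5] ![3, 4, 1, 2, 0, 5] (by decide) (by decide) (by decide +kernel)
  have D1 := K ![0, 1, 5, 3, 2, 4] ![0, 1, 4, 3, 5, 2] (by decide) (by decide) (by decide +kernel)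
  have D2 := K ![0, 1, 3, 4, 2, 5] ![0, 1, 4, 2, 3, 5] (by decide) (by decide) (by decide +kernel)
  have D3 := K ![0, 1, 2, 5, 3, 4] ![0, 1, 2, 4, 5, 3] (by decide) (by decide) (by decide +kernel)
  have D4 := K ![0, 1, 4, 2, 3, 5] ![0, 1, 3, 4, 2, 5] (by decide) (by decide) (by decide +kernel)
  simp only [Matrix.cons_val] at A1 A2 A3 B1 B2 B3 B4 C1 C2 C3 C4 D1 D2 D3 D4
  simp only [o01, o23, o45, o02, o03, o04, o05, o12, o13, o14, o15, o20, o21, o24,
    o25, o30, o31, o34, o35, o40, o42, o43, o51, o52, o53, zero_mul, sub_zero, add_zero,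
    zero_add] at A1 A2 A3 B1 B2 B3 B4 C1 C2 C3 C4 D1 D2 D3 D4
  have s31 := EQ6_swap w (f 3) (f 1)
  have s20 := EQ6_swap w (f 2) (f 0)
  have s51 := EQ6_swap w (f 5) (f 1)
  have s40 := EQ6_swap w (f 4) (f 0)
  have s53 := EQ6_swap w (f 5) (f 3)
  have s42 := EQ6_swap w (f 4) (f 2)
  rw [s31] at B1
  rw [s20] at B4
  rw [s51] at C1
  rw [s40] at C4
  rw [s53] at D1
  rw [s42] at D4
  refine ⟨⟨?_, ?_, ?_⟩, ⟨?_, ?_, ?_, ?_⟩, ⟨?_, ?_, ?_, ?_⟩, ⟨?_, ?_, ?_, ?_⟩⟩ <;> linarith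

end Pool.TIW
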