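import Pool.Agent.Work.MP_a1f430_wb.Interface4

/-! # Block NFE: the normal form of a two-form in dimension six -/

set_option autoImplicit false

namespace Pool.TIW

open Pool.TIA
open MeasureTheory Set Filter Topology
open scoped ContDiff ENNReal
open Module (finrank)

theorem NFE_step (V : Type) [NormedAddCommGroup V] [InnerProductSpace ℝ V] [FiniteDimensional ℝ V]
    (hd : 2 ≤ finrank ℝ V) (B : V → V → ℝ) (ha : ∀ x y z, B x (y + z) = B x y + B x z)
    (hs : ∀ x (c : ℝ) y, B x (c • y) = c * B x y) (hn : ∀ x y, B x y = -B y x) :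
    ∃ u v : V, ‖u‖ = 1 ∧ ‖v‖ = 1 ∧ inner ℝ u v = 0 ∧
      ∀ x, inner ℝ u x = 0 → inner ℝ v x = 0 → B u x = 0 ∧ B v x = 0 := by
  have ha' : ∀ x y z, B (x + y) z = B x z + B y z := by
    intro x y z
    rw [hn (x + y) z, ha, hn x z, hn y z]; ring
  have hs' : ∀ (c : ℝ) x y, B (c • x) y = c * B x y := by
    intro c x y
    rw [hn (c • x) y, hs, hn x y]; ring
  have hself : ∀ x, B x x = 0 := by
    intro x
    have := hn x x
    linarith
  let L : V → (V →L[ℝ] ℝ) := fun x =>
    LinearMap.toContinuousLinearMap { toFun := B x, map_add' := ha x, map_smul' := fun c y => by simp [hs] }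
  let A : V →ₗ[ℝ] V :=
    { toFun := fun x => (InnerProductSpace.toDual ℝ V).symm (L x)
      map_add' := fun x y => by
        have : L (x + y) = L x + L y := by
          ext z
          exact ha' x y z
        rw [this, map_add]
      map_smul' := fun c x => by
        have : L (c • x) = c • L x := by
          ext z
          exact hs' c x z
        rw [this]
        simp }
  have hA : ∀ x y, inner ℝ (A x) y = B x y := fun x y => by
    change inner ℝ ((InnerProductSpace.toDual ℝ V).symm (L x)) y = _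
    rw [InnerProductSpace.toDual_symm_apply]
    rfl
  have hT : (A.comp A).IsSymmetric := by
    intro x y
    have h1 : inner ℝ (A (A x)) y = -inner ℝ (A y) (A x) := by rw [hA, hn, ← hA]
    have h2 : inner ℝ x (A (A y)) = -inner ℝ (A x) (A y) := by
      rw [real_inner_comm, hA, hn, ← hA]
    change inner ℝ (A (A x)) y = inner ℝ x (A (A y))
    rw [h1, h2, real_inner_comm]
  let e := hT.eigenvectorBasis (n := finrank ℝ V) rfl
  have he1 : ∀ i, ‖e i‖ = 1 := fun i => e.orthonormal.1 i
  by_cases hall : ∀ i, A (e i) = 0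
  · have hA0 : A = 0 := by
      apply e.toBasis.ext
      intro i
      simpa using hall i
    have hB : ∀ x y, B x y = 0 := fun x y => by rw [← hA, hA0]; simp
    let i0 : Fin (finrank ℝ V) := ⟨0, by omega⟩
    let i1 : Fin (finrank ℝ V) := ⟨1, by omega⟩
    refine ⟨e i0, e i1, he1 _, he1 _, e.orthonormal.2 ?_, fun x _ _ => ⟨hB _ _, hB _ _⟩⟩
    simp [i0, i1]
  · push Not at hall
    obtain ⟨i, hi⟩ := hall
    have hni : ‖A (e i)‖ ≠ 0 := norm_ne_zero_iff.mpr hi
    refine ⟨e i, ‖A (e i)‖⁻¹ • A (e i), he1 i, ?_, ?_, ?_⟩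
    · rw [norm_smul, norm_inv, norm_norm]
      exact inv_mul_cancel₀ hni
    · rw [inner_smul_right, real_inner_comm, hA, hself, mul_zero]
    · intro x hx1 hx2
      rw [inner_smul_left] at hx2
      have h3 : inner ℝ (A (e i)) x = 0 := by
        rcases mul_eq_zero.mp hx2 with h | h
        · exfalso
          have : ‖A (e i)‖⁻¹ ≠ 0 := inv_ne_zero hni
          exact this (by simpa using h)
        · exact h
      refine ⟨by rw [← hA]; exact h3, ?_⟩
      rw [hs', ← hA]
      have h4 : A (A (e i)) = (hT.eigenvalues rfl i : ℝ) • e i :=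
        hT.apply_eigenvectorBasis rfl i
      rw [h4, inner_smul_left, hx1]
      simp

theorem NFE_three (V : Type) [NormedAddCommGroup V] [InnerProductSpace ℝ V]
    [FiniteDimensional ℝ V] (hd : finrank ℝ V = 6) (B : V → V → ℝ)
    (ha : ∀ x y z, B x (y + z) = B x y + B x z)
    (hs : ∀ x (c : ℝ) y, B x (c • y) = c * B x y) (hn : ∀ x y, B x y = -B y x) :
    ∃ f : Fin 6 → V, (∀ i j, inner ℝ (f i) (f j) = if i = j then (1 : ℝ) else 0) ∧
      ∀ i j : Fin 6, i.val / 2 ≠ j.val / 2 → B (f i) (f j) = 0 := by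
  classical
  obtain ⟨u1, v1, a1, b1, c1, d1⟩ := NFE_step V (by omega) B ha hs hn
  -- second step
  let S2 : Submodule ℝ V := Submodule.span ℝ (({u1, v1} : Finset V) : Set V)
  have k2 : finrank ℝ S2 ≤ 2 := (finrank_span_finset_le_card _).trans Finset.card_le_two
  have e2 : finrank ℝ S2 + finrank ℝ S2ᗮ = finrank ℝ V := S2.finrank_add_finrank_orthogonal
  have mem2 : ∀ x : V, x ∈ S2ᗮ → inner ℝ u1 x = 0 ∧ inner ℝ v1 x = 0 := by
    intro x hx
    rw [Submodule.mem_orthogonal] at hx
    exact ⟨hx u1 (Submodule.subset_span (by simp)), hx v1 (Submodule.subset_span (by simp))⟩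
  obtain ⟨u2, v2, a2, b2, c2, d2⟩ := NFE_step S2ᗮ (by omega) (fun x y => B x y)
    (fun x y z => ha x y z) (fun x c y => hs x c y) (fun x y => hn x y)
  obtain ⟨g1, g2⟩ := mem2 u2 u2.2
  obtain ⟨g3, g4⟩ := mem2 v2 v2.2
  -- third step
  let S3 : Submodule ℝ V := Submodule.span ℝ (({u1, v1, (u2 : V), (v2 : V)} : Finset V) : Set V)
  have k3 : finrank ℝ S3 ≤ 4 := (finrank_span_finset_le_card _).trans Finset.card_le_four
  have e3 : finrank ℝ S3 + finrank ℝ S3ᗮ = finrank ℝ V := S3.finrank_add_finrank_orthogonal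
  have mem3 : ∀ x : V, x ∈ S3ᗮ → inner ℝ u1 x = 0 ∧ inner ℝ v1 x = 0 ∧
      inner ℝ (u2 : V) x = 0 ∧ inner ℝ (v2 : V) x = 0 := by
    intro x hx
    rw [Submodule.mem_orthogonal] at hx
    exact ⟨hx u1 (Submodule.subset_span (by simp)), hx v1 (Submodule.subset_span (by simp)),
      hx u2 (Submodule.subset_span (by simp)), hx v2 (Submodule.subset_span (by simp))⟩
  obtain ⟨u3, v3, a3, b3, c3, d3⟩ := NFE_step S3ᗮ (by omega) (fun x y => B x y)
    (fun x y z => ha x y z) (fun x c y => hs x c y) (fun x y => hn x y)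
  obtain ⟨p1, p2, p3, p4⟩ := mem3 u3 u3.2
  obtain ⟨q1, q2, q3, q4⟩ := mem3 v3 v3.2
  have in2 : ∀ x : V, inner ℝ u1 x = 0 → inner ℝ v1 x = 0 → x ∈ S2ᗮ := by
    intro x h1 h2
    rw [Submodule.mem_orthogonal]
    intro y hy
    induction hy using Submodule.span_induction with
    | mem y hy =>
      simp only [Finset.coe_insert, Finset.coe_singleton, Set.mem_insert_iff,
        Set.mem_singleton_iff] at hy
      rcases hy with rfl | rfl
      · exact h1
      · exact h2
    | zero => simp
    | add y z _ _ hy hz => rw [inner_add_left, hy, hz, add_zero]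
    | smul c y _ hy => rw [inner_smul_left, hy, mul_zero]
  have D1 : ∀ x : V, inner ℝ u1 x = 0 → inner ℝ v1 x = 0 → B u1 x = 0 ∧ B v1 x = 0 := d1
  have D2 : ∀ x : V, inner ℝ u1 x = 0 → inner ℝ v1 x = 0 → inner ℝ (u2 : V) x = 0 →
      inner ℝ (v2 : V) x = 0 → B u2 x = 0 ∧ B v2 x = 0 := fun x h1 h2 h3 h4 =>
    d2 ⟨x, in2 x h1 h2⟩ h3 h4
  have W1 := D1 u2 g1 g2
  have W2 := D1 v2 g3 g4
  have W3 := D1 u3 p1 p2
  have W4 := D1 v3 q1 q2
  have W5 := D2 u3 p1 p2 p3 p4
  have W6 := D2 v3 q1 q2 q3 q4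
  have n2 : ‖(u2 : V)‖ = 1 := a2
  have n2' : ‖(v2 : V)‖ = 1 := b2
  have n3 : ‖(u3 : V)‖ = 1 := a3
  have n3' : ‖(v3 : V)‖ = 1 := b3
  have c2' : inner ℝ (u2 : V) (v2 : V) = 0 := c2
  have c3' : inner ℝ (u3 : V) (v3 : V) = 0 := c3
  have I1 : ∀ x : V, ‖x‖ = 1 → inner ℝ x x = (1 : ℝ) := fun x hx => by
    rw [real_inner_self_eq_norm_sq, hx]; norm_num
  have rc : ∀ x y : V, inner ℝ x y = (0 : ℝ) → inner ℝ y x = (0 : ℝ) := fun x y h => by
    rw [real_inner_comm]; exact h
  have rw' : ∀ x y : V, B x y = 0 → B y x = 0 := fun x y h => by rw [hn, h, neg_zero]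
  refine ⟨![u1, v1, u2, v2, u3, v3], ?_, ?_⟩
  · intro i j
    fin_cases i <;> fin_cases j <;> simp [I1, a1, b1, n2, n2', n3, n3', c1, rc _ _ c1, g1, g2, g3,
      g4, rc _ _ g1, rc _ _ g2, rc _ _ g3, rc _ _ g4, c2', rc _ _ c2', p1, p2, p3, p4, q1, q2, q3,
      q4, rc _ _ p1, rc _ _ p2, rc _ _ p3, rc _ _ p4, rc _ _ q1, rc _ _ q2, rc _ _ q3, rc _ _ q4,
      c3', rc _ _ c3']
  · intro i j hij
    fin_cases i <;> fin_cases j <;> simp [W1.1, W1.2, W2.1, W2.2, W3.1, W3.2, W4.1, W4.2, W5.1,
      W5.2, W6.1, W6.2, rw' _ _ W1.1, rw' _ _ W1.2, rw' _ _ W2.1, rw' _ _ W2.2, rw' _ _ W3.1,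
      rw' _ _ W3.2, rw' _ _ W4.1, rw' _ _ W4.2, rw' _ _ W5.1, rw' _ _ W5.2, rw' _ _ W6.1,
      rw' _ _ W6.2] at hij ⊢

theorem NFE_gen (V : Type) [AddCommGroup V] [Module ℝ V] [FiniteDimensional ℝ V]
    (hd : finrank ℝ V = 6) (h : V →ₗ[ℝ] V →ₗ[ℝ] ℝ) (hsym : ∀ v w, h v w = h w v)
    (hp : ∀ v, v ≠ 0 → 0 < h v v) (B : V → V → ℝ) (ha : ∀ x y z, B x (y + z) = B x y + B x z)
    (hs : ∀ x (c : ℝ) y, B x (c • y) = c * B x y) (hn : ∀ x y, B x y = -B y x) :
    ∃ f : Fin 6 → V, LinearIndependent ℝ f ∧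
      (∀ i j, h (f i) (f j) = if i = j then (1 : ℝ) else 0) ∧
      ∀ i j : Fin 6, i.val / 2 ≠ j.val / 2 → B (f i) (f j) = 0 := by
  let core : InnerProductSpace.Core ℝ V :=
    { inner := fun x y => h x y
      conj_inner_symm := fun x y => by simpa using hsym y x
      re_inner_nonneg := fun x => by
        by_cases hx : x = 0
        · subst hx; simp
        · simpa using (hp x hx).le
      add_left := fun x y z => by simp
      smul_left := fun x y r => by simp
      definite := fun x hx => by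
        by_contra hne
        exact (hp x hne).ne' hx }
  letI : NormedAddCommGroup V := core.toNormedAddCommGroup
  letI : InnerProductSpace ℝ V := InnerProductSpace.ofCore core.toCore
  have hin : ∀ x y : V, inner ℝ x y = h x y := fun x y => rfl
  obtain ⟨f, hf1, hf2⟩ := NFE_three V hd B ha hs hn
  refine ⟨f, ?_, fun i j => by rw [← hin]; exact hf1 i j, hf2⟩
  have ho : Orthonormal ℝ f := by
    rw [orthonormal_iff_ite]
    exact hf1
  exact ho.linearIndependent

theorem p_NFE : Stmt_NFE := by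
  intro h Ω hsym hp
  classical
  let h' : E6 →ₗ[ℝ] E6 →ₗ[ℝ] ℝ :=
    LinearMap.mk₂ ℝ (fun x y => h x y) (by intros; simp) (by intros; simp) (by intros; simp)
      (by intros; simp)
  have hh' : ∀ x y, h' x y = h x y := fun x y => rfl
  have hadd : ∀ x y z : E6, Ω ![x, y + z] = Ω ![x, y] + Ω ![x, z] := by
    intro x y z
    have e : ∀ v : E6, Function.update ![x, 0] 1 v = ![x, v] := by
      intro v
      funext i
      fin_cases i <;> simp
    have := Ω.map_update_add ![x, 0] 1 y z
    rw [e, e, e] at this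
    exact this
  have hsm : ∀ (x : E6) (c : ℝ) (y : E6), Ω ![x, c • y] = c * Ω ![x, y] := by
    intro x c y
    have e : ∀ v : E6, Function.update ![x, 0] 1 v = ![x, v] := by
      intro v
      funext i
      fin_cases i <;> simp
    have := Ω.map_update_smul ![x, 0] 1 c y
    rw [e, e] at this
    exact this
  have hneg : ∀ x y : E6, Ω ![x, y] = -Ω ![y, x] := by
    intro x y
    have := Ω.toAlternatingMap.map_swap ![x, y] (i := 0) (j := 1) (by decide)
    have e : (![x, y] ∘ (Equiv.swap (0 : Fin 2) 1)) = ![y, x] := by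
      funext i
      fin_cases i <;> simp
    rw [e] at this
    have h2 : Ω ![y, x] = -Ω ![x, y] := this
    rw [h2, neg_neg]
  obtain ⟨f, hli, hf, hoff⟩ := NFE_gen E6 (by simp) h'
    (fun x y => hsym x y) (fun x hx => hp x hx) (fun x y => Ω ![x, y]) hadd hsm hneg
  have hdet : (stb (2 + 4)).det f ≠ 0 := by
    have hspan : Submodule.span ℝ (Set.range f) = ⊤ := by
      apply hli.span_eq_top_of_card_eq_finrank'
      simp
    have := (Module.Basis.is_basis_iff_det (stb (2 + 4))).mp ⟨hli, hspan⟩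
    exact this.ne_zero
  have key : ∀ g : Fin 6 → E6, (∀ i j, h (g i) (g j) = if i = j then (1 : ℝ) else 0) →
      (∀ i j : Fin 6, i.val / 2 ≠ j.val / 2 → Ω ![g i, g j] = 0) → 0 < (stb (2 + 4)).det g →
      ∃ (f : Fin 6 → E6) (a b c : ℝ), NF6 h Ω f a b c := by
    intro g h1 h2 h3
    refine ⟨g, Ω ![g 0, g 1], Ω ![g 2, g 3], Ω ![g 4, g 5], ⟨⟨fun i j => ?_, ?_⟩, rfl, rfl, rfl, h2⟩⟩
    · rw [h1]
      by_cases hij : i = j
      · simp [hij]
      · rw [if_neg hij, if_neg (fun hc => hij ((ix 2).injective hc))]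
    · simpa using h3
  rcases lt_or_gt_of_ne hdet with hlt | hgt
  · refine key (Function.update f 5 (-f 5)) ?_ ?_ ?_
    · intro i j
      by_cases hi : i = 5
      · subst hi
        by_cases hj : j = 5
        · subst hj
          simpa [hh'] using hf 5 5
        · have h0 := hf 5 j
          rw [hh', if_neg (Ne.symm hj)] at h0
          rw [Function.update_self, Function.update_of_ne hj, if_neg (Ne.symm hj)]
          simp [h0]
      · by_cases hj : j = 5
        · subst hj
          have h0 := hf i 5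
          rw [hh', if_neg hi] at h0
          rw [Function.update_self, Function.update_of_ne hi, if_neg hi]
          simp [h0]
        · rw [Function.update_of_ne hi, Function.update_of_ne hj]
          exact hf i j
    · intro i j hij
      have hneg1 : ∀ x y : E6, Ω ![x, -y] = -Ω ![x, y] := by
        intro x y
        have := hsm x (-1) y
        simpa using this
      by_cases hi : i = 5
      · subst hi
        have hj : j ≠ 5 := by
          rintro rfl
          exact hij rfl
        have h0 : Ω ![f j, f 5] = 0 := hoff j 5 (fun h => hij h.symm)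
        rw [Function.update_self, Function.update_of_ne hj, hneg (-f 5) (f j), hneg1, h0]
        simp
      · by_cases hj : j = 5
        · subst hj
          rw [Function.update_self, Function.update_of_ne hi, hneg1]
          have := hoff i 5 hij
          rw [this, neg_zero]
        · rw [Function.update_of_ne hi, Function.update_of_ne hj]
          exact hoff i j hij
    · have e1 : (stb (2 + 4)).det (Function.update f 5 (-f 5)) = -(stb (2 + 4)).det f := by
        have := (stb (2 + 4)).det.map_update_neg f 5 (f 5)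
        rw [Function.update_eq_self] at this
        exact this
      rw [e1]
      linarith
  · exact key f (fun i j => by rw [← hh']; exact hf i j) hoff hgt

end Pool.TIW
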