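import Pool.Agent.Work.MP_a1f430_wb.Interface4

/-! Row MP_a1f430, THEOREM D6: block NFP (even permutations of the frame). -/

set_option autoImplicit false

namespace Pool.TIW

open Pool.TIA
open MeasureTheory Set Filter Topology
open scoped ContDiff ENNReal

theorem NFP_orth {h : Bil E6} {Ω : Frm 2 E6} {f : Fin 6 → E6} {a b c : ℝ} (hf : NF6 h Ω f a b c)
    (i j : Fin 6) : h (f i) (f j) = if i = j then 1 else 0 := by
  have h1 := hf.fr.orth ((ix 2).symm i) ((ix 2).symm j)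
  simp only [Equiv.apply_symm_apply, EmbeddingLike.apply_eq_iff_eq] at h1
  exact h1

theorem NFP_det {h : Bil E6} {Ω : Frm 2 E6} {f : Fin 6 → E6} {a b c : ℝ} (hf : NF6 h Ω f a b c) :
    0 < (stb (2 + 4)).det f := by
  have h1 := hf.fr.pos
  simp only [Equiv.apply_symm_apply] at h1
  exact h1

theorem NFP_gen {h : Bil E6} {Ω : Frm 2 E6} {f : Fin 6 → E6} {a b c : ℝ} (hf : NF6 h Ω f a b c)
    (σ : Equiv.Perm (Fin 6)) (hs : Equiv.Perm.sign σ = 1)
    (hσ : ∀ i j : Fin 6, i.val / 2 ≠ j.val / 2 → (σ i).val / 2 ≠ (σ j).val / 2) {a' b' c' : ℝ}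
    (h1 : Ω ![f (σ 0), f (σ 1)] = a') (h2 : Ω ![f (σ 2), f (σ 3)] = b')
    (h3 : Ω ![f (σ 4), f (σ 5)] = c') : NF6 h Ω (fun i => f (σ i)) a' b' c' where
  fr := by
    refine ⟨fun i j => ?_, ?_⟩
    · rw [NFP_orth hf]
      simp only [EmbeddingLike.apply_eq_iff_eq]
    · have h4 : (stb (2 + 4)).det (fun i => f (σ i)) = (stb (2 + 4)).det f := by
        have h5 := (stb (2 + 4)).det.map_perm f σ
        rw [hs, one_smul] at h5
        exact h5
      simp only [Equiv.apply_symm_apply]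
      exact h4 ▸ NFP_det hf
  o01 := h1
  o23 := h2
  o45 := h3
  off := fun i j hij => hf.off _ _ (hσ i j hij)

theorem NFP_swap (Ω : Frm 2 E6) (u v : E6) : Ω ![u, v] = -Ω ![v, u] := by
  have h1 := Ω.toAlternatingMap.map_swap ![v, u] (i := 0) (j := 1) (by decide)
  have h2 : (![v, u] ∘ (Equiv.swap (0 : Fin 2) 1)) = ![u, v] := by
    funext i
    fin_cases i <;> simp
  rw [h2] at h1
  exact h1

theorem p_NFP : Stmt_NFP := by
  intro h Ω f a b c hf
  refine ⟨⟨_, NFP_gen hf ⟨![2, 3, 4, 5, 0, 1], ![4, 5, 0, 1, 2, 3], by decide, by decide⟩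
      (by decide) (by decide) hf.o23 hf.o45 hf.o01⟩,
    ⟨_, NFP_gen hf ⟨![2, 3, 0, 1, 4, 5], ![2, 3, 0, 1, 4, 5], by decide, by decide⟩
      (by decide) (by decide) hf.o23 hf.o01 hf.o45⟩,
    ⟨_, NFP_gen hf ⟨![0, 1, 3, 2, 5, 4], ![0, 1, 3, 2, 5, 4], by decide, by decide⟩
      (by decide) (by decide) hf.o01 ?_ ?_⟩⟩
  · exact (NFP_swap Ω (f 3) (f 2)).trans (by rw [hf.o23])
  · exact (NFP_swap Ω (f 5) (f 4)).trans (by rw [hf.o45])

end Pool.TIW
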