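import Pool.Agent.Work.MP_a1f430_wb.Interface4

set_option autoImplicit false

namespace Pool.TIW

open Pool.TIA
open MeasureTheory Set Filter Topology
open scoped ContDiff ENNReal

/-- representatives of the six classes -/
def WD2_rep : Fin 6 → Equiv.Perm (Fin 2 ⊕ Fin 2) :=
  ![1, Equiv.swap (Sum.inl 1) (Sum.inr 0), Equiv.swap (Sum.inl 1) (Sum.inr 1),
    Equiv.swap (Sum.inl 0) (Sum.inr 0), Equiv.swap (Sum.inl 0) (Sum.inr 1),
    Equiv.swap (Sum.inl 0) (Sum.inr 0) * Equiv.swap (Sum.inl 1) (Sum.inr 1)]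

theorem WD2_dec1 : ∀ i j : Fin 6,
    (∀ x : Fin 2, (((WD2_rep i)⁻¹ * WD2_rep j) (Sum.inl x)).isLeft = true) → i = j := by
  decide

theorem WD2_dec2 : ∀ a b : Fin 2 ⊕ Fin 2, a ≠ b →
    ∃ i : Fin 6, ((WD2_rep i)⁻¹ a).isLeft = true ∧ ((WD2_rep i)⁻¹ b).isLeft = true := by
  decide

theorem WD2_bij : Function.Bijective
    (fun i : Fin 6 => (Quotient.mk'' (WD2_rep i) : Equiv.Perm.ModSumCongr (Fin 2) (Fin 2))) := by
  constructor
  · intro i j hij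
    have h1 : (WD2_rep i)⁻¹ * WD2_rep j ∈ (Equiv.Perm.sumCongrHom (Fin 2) (Fin 2)).range :=
      QuotientGroup.eq.mp hij
    obtain ⟨⟨a, b⟩, hab⟩ := h1
    apply WD2_dec1
    intro x
    rw [← hab]
    simp
  · intro q
    induction q using Quotient.inductionOn' with | _ σ
    obtain ⟨i, h0, h1⟩ := WD2_dec2 (σ (Sum.inl 0)) (σ (Sum.inl 1)) (by
      intro h
      have := σ.injective h
      simp at this)
    refine ⟨i, QuotientGroup.eq.mpr ?_⟩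
    apply Equiv.Perm.mem_sumCongrHom_range_of_perm_mapsTo_inl
    rintro _ ⟨x, rfl⟩
    have hx : (((WD2_rep i)⁻¹ * σ) (Sum.inl x)).isLeft = true := by
      fin_cases x
      · exact h0
      · exact h1
    obtain ⟨y, hy⟩ := Sum.isLeft_iff.mp hx
    exact ⟨y, hy.symm⟩

theorem WD2_summand {𝔐 : Type} [NormedRing 𝔐] [NormedAlgebra ℝ 𝔐] {E : Type}
    [NormedAddCommGroup E] [NormedSpace ℝ E] (Ω : E [⋀^Fin 2]→L[ℝ] ℝ) (F : E [⋀^Fin 2]→L[ℝ] 𝔐)
    (v : Fin 2 ⊕ Fin 2 → E) (σ : Equiv.Perm (Fin 2 ⊕ Fin 2)) :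
    TensorProduct.lid ℝ 𝔐 (AlternatingMap.domCoprod.summand Ω.toAlternatingMap F.toAlternatingMap
      (Quotient.mk'' σ) v) = (Equiv.Perm.sign σ : ℤˣ) •
        (Ω ![v (σ (Sum.inl 0)), v (σ (Sum.inl 1))] •
          F ![v (σ (Sum.inr 0)), v (σ (Sum.inr 1))]) := by
  rw [AlternatingMap.domCoprod.summand_mk'', _root_.smul_apply,
    MultilinearMap.domDomCongr_apply, MultilinearMap.domCoprod_apply]
  have h1 : (fun i : Fin 2 => v (σ (Sum.inl i))) = ![v (σ (Sum.inl 0)), v (σ (Sum.inl 1))] := by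
    funext i; fin_cases i <;> rfl
  have h2 : (fun i : Fin 2 => v (σ (Sum.inr i))) = ![v (σ (Sum.inr 0)), v (σ (Sum.inr 1))] := by
    funext i; fin_cases i <;> rfl
  have h3 : (Ω.toAlternatingMap : MultilinearMap ℝ (fun _ : Fin 2 => E) ℝ)
      (fun i => v (σ (Sum.inl i))) = Ω ![v (σ (Sum.inl 0)), v (σ (Sum.inl 1))] := by
    rw [h1]; rfl
  have h4 : (F.toAlternatingMap : MultilinearMap ℝ (fun _ : Fin 2 => E) 𝔐)
      (fun i => v (σ (Sum.inr i))) = F ![v (σ (Sum.inr 0)), v (σ (Sum.inr 1))] := by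
    rw [h2]; rfl
  rw [h3, h4]
  rcases Int.units_eq_one_or (Equiv.Perm.sign σ) with h | h
  · rw [h, one_smul, one_smul, TensorProduct.lid_tmul]
  · rw [h]
    simp [TensorProduct.lid_tmul]

theorem WD2_neg {𝔐 : Type} [NormedRing 𝔐] [NormedAlgebra ℝ 𝔐] {E : Type}
    [NormedAddCommGroup E] [NormedSpace ℝ E] (F : E [⋀^Fin 2]→L[ℝ] 𝔐) (a b : E) :
    F ![b, a] = - F ![a, b] := by
  have h := F.toAlternatingMap.map_swap ![a, b] (i := 0) (j := 1) (by decide)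
  have h1 : (![a, b] ∘ Equiv.swap (0 : Fin 2) 1) = ![b, a] := by
    funext i; fin_cases i <;> simp
  rw [h1] at h
  exact h

theorem WD2_main {𝔐 : Type} [NormedRing 𝔐] [NormedAlgebra ℝ 𝔐] {E : Type} [NormedAddCommGroup E]
    [NormedSpace ℝ E] (Ω : E [⋀^Fin 2]→L[ℝ] ℝ) (F : E [⋀^Fin 2]→L[ℝ] 𝔐) (v : Fin 2 ⊕ Fin 2 → E)
    (v₁ v₂ v₃ v₄ : E) (e1 : v (Sum.inl 0) = v₁) (e2 : v (Sum.inl 1) = v₂)
    (e3 : v (Sum.inr 0) = v₃) (e4 : v (Sum.inr 1) = v₄) :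
    wdg Ω F v = Ω ![v₁, v₂] • F ![v₃, v₄] - Ω ![v₁, v₃] • F ![v₂, v₄] +
      Ω ![v₁, v₄] • F ![v₂, v₃] + Ω ![v₂, v₃] • F ![v₁, v₄] - Ω ![v₂, v₄] • F ![v₁, v₃] +
      Ω ![v₃, v₄] • F ![v₁, v₂] := by
  unfold wdg
  have h1 : Ω.toAlternatingMap.domCoprod F.toAlternatingMap v =
      ∑ σ : Equiv.Perm.ModSumCongr (Fin 2) (Fin 2),
        AlternatingMap.domCoprod.summand Ω.toAlternatingMap F.toAlternatingMap σ v := by
    show (⇑(∑ σ : Equiv.Perm.ModSumCongr (Fin 2) (Fin 2),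
      AlternatingMap.domCoprod.summand Ω.toAlternatingMap F.toAlternatingMap σ)) v = _
    rw [_root_.sum_apply]
  rw [h1, map_sum]
  have h2 : ∑ σ : Equiv.Perm.ModSumCongr (Fin 2) (Fin 2), TensorProduct.lid ℝ 𝔐
      (AlternatingMap.domCoprod.summand Ω.toAlternatingMap F.toAlternatingMap σ v) =
      ∑ i : Fin 6, TensorProduct.lid ℝ 𝔐
        (AlternatingMap.domCoprod.summand Ω.toAlternatingMap F.toAlternatingMap
          (Quotient.mk'' (WD2_rep i)) v) := by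
    convert (WD2_bij.sum_comp (fun σ => TensorProduct.lid ℝ 𝔐
      (AlternatingMap.domCoprod.summand Ω.toAlternatingMap F.toAlternatingMap σ v))).symm
  rw [h2, Fin.sum_univ_six]
  simp only [WD2_summand]
  have s0 : Equiv.Perm.sign (WD2_rep 0) = 1 := by simp [WD2_rep]
  have s1 : Equiv.Perm.sign (WD2_rep 1) = -1 := by
    simp only [WD2_rep]; exact Equiv.Perm.sign_swap (by decide)
  have s2 : Equiv.Perm.sign (WD2_rep 2) = -1 := by
    simp only [WD2_rep]; exact Equiv.Perm.sign_swap (by decide)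
  have s3 : Equiv.Perm.sign (WD2_rep 3) = -1 := by
    simp only [WD2_rep]; exact Equiv.Perm.sign_swap (by decide)
  have s4 : Equiv.Perm.sign (WD2_rep 4) = -1 := by
    simp only [WD2_rep]; exact Equiv.Perm.sign_swap (by decide)
  have s5 : Equiv.Perm.sign (WD2_rep 5) = 1 := by
    show Equiv.Perm.sign (Equiv.swap (Sum.inl 0) (Sum.inr 0) *
      Equiv.swap (Sum.inl 1) (Sum.inr 1) : Equiv.Perm (Fin 2 ⊕ Fin 2)) = 1
    rw [Equiv.Perm.sign_mul, Equiv.Perm.sign_swap (by decide), Equiv.Perm.sign_swap (by decide)]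
    rfl
  rw [s0, s1, s2, s3, s4, s5]
  have d0 : ∀ x, WD2_rep 0 x = x := by decide
  have d10 : WD2_rep 1 (Sum.inl 0) = Sum.inl 0 := by decide
  have d11 : WD2_rep 1 (Sum.inl 1) = Sum.inr 0 := by decide
  have d12 : WD2_rep 1 (Sum.inr 0) = Sum.inl 1 := by decide
  have d13 : WD2_rep 1 (Sum.inr 1) = Sum.inr 1 := by decide
  have d20 : WD2_rep 2 (Sum.inl 0) = Sum.inl 0 := by decide
  have d21 : WD2_rep 2 (Sum.inl 1) = Sum.inr 1 := by decide
  have d22 : WD2_rep 2 (Sum.inr 0) = Sum.inr 0 := by decide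
  have d23 : WD2_rep 2 (Sum.inr 1) = Sum.inl 1 := by decide
  have d30 : WD2_rep 3 (Sum.inl 0) = Sum.inr 0 := by decide
  have d31 : WD2_rep 3 (Sum.inl 1) = Sum.inl 1 := by decide
  have d32 : WD2_rep 3 (Sum.inr 0) = Sum.inl 0 := by decide
  have d33 : WD2_rep 3 (Sum.inr 1) = Sum.inr 1 := by decide
  have d40 : WD2_rep 4 (Sum.inl 0) = Sum.inr 1 := by decide
  have d41 : WD2_rep 4 (Sum.inl 1) = Sum.inl 1 := by decide
  have d42 : WD2_rep 4 (Sum.inr 0) = Sum.inr 0 := by decide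
  have d43 : WD2_rep 4 (Sum.inr 1) = Sum.inl 0 := by decide
  have d50 : WD2_rep 5 (Sum.inl 0) = Sum.inr 0 := by decide
  have d51 : WD2_rep 5 (Sum.inl 1) = Sum.inr 1 := by decide
  have d52 : WD2_rep 5 (Sum.inr 0) = Sum.inl 0 := by decide
  have d53 : WD2_rep 5 (Sum.inr 1) = Sum.inl 1 := by decide
  rw [d0, d0, d0, d0, d10, d11, d12, d13, d20, d21, d22, d23, d30, d31, d32, d33, d40, d41, d42,
    d43, d50, d51, d52, d53, e1, e2, e3, e4]
  rw [WD2_neg F v₂ v₃, WD2_neg Ω v₂ v₃, WD2_neg Ω v₂ v₄, WD2_neg F v₁ v₃]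
  simp only [one_smul, Units.neg_smul, smul_neg, neg_smul, neg_neg]
  abel

theorem p_WD2 : Stmt_WD2 := by
  intro 𝔐 _ _ E _ _ Ω F v v₁ v₂ v₃ v₄ e1 e2 e3 e4
  exact WD2_main Ω F v v₁ v₂ v₃ v₄ e1 e2 e3 e4

end Pool.TIW
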