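import Pool.Agent.Work.MP_a1f430_wb.All3
import Pool.Agent.Work.MP_a1f430_wb.B_WD2
import Pool.Agent.Work.MP_a1f430_wb.B_EQ6
import Pool.Agent.Work.MP_a1f430_wb.B_NFE
import Pool.Agent.Work.MP_a1f430_wb.B_NFP
import Pool.Agent.Work.MP_a1f430_wb.B_C6A
import Pool.Agent.Work.MP_a1f430_wb.B_C6B
import Pool.Agent.Work.MP_a1f430_wb.B_C6C
import Pool.Agent.Work.MP_a1f430_wb.B_D6F

/-! # Two-forms in dimension six: assembly (MP_a1f430, THEOREM D6) -/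

set_option autoImplicit false

namespace Pool.TIW

theorem a_WD2 : Stmt_WD2 := p_WD2
theorem a_EQ6 : Stmt_EQ6 := p_EQ6 a_WD2
theorem a_NFE : Stmt_NFE := p_NFE
theorem a_NFP : Stmt_NFP := p_NFP
theorem a_C6A : Stmt_C6A := p_C6A a_EQ6
theorem a_C6B : Stmt_C6B := p_C6B a_EQ6
theorem a_C6C : Stmt_C6C := p_C6C a_EQ6
theorem a_D6F : Stmt_D6F := p_D6F a_FTR a_DM1 a_FJR a_NFE a_NFP a_C6A a_C6B a_C6C

end Pool.TIW
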