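import Pool.Agent.Work.MP_a1f430_wb.Interface

/-! # Block BIT: the Bianchi identity in the temporal gauge (MP_a1f430, THEOREM WB) -/

set_option autoImplicit false

namespace Pool.TIW

open Pool.TIA
open MeasureTheory Set Filter Topology
open scoped ContDiff ENNReal

section

variable {E : Type} [NormedAddCommGroup E] [NormedSpace ℝ E] [FiniteDimensional ℝ E]
  [MeasureSpace E] [BorelSpace E] [(volume : Measure E).IsAddHaarMeasure]

omit [FiniteDimensional ℝ E] [MeasureSpace E] [BorelSpace E]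
  [(volume : Measure E).IsAddHaarMeasure] in
theorem BIT_test {W : Set E} {φ : E → ℝ} (hφ : Test W φ) (v : E) :
    Test W (fun x => fderiv ℝ φ x v) where
  smooth := (hφ.smooth.fderiv_right (m := ∞) (by simp)).clm_apply contDiff_const
  cpt := hφ.cpt.fderiv_apply (𝕜 := ℝ) v
  sub := (tsupport_fderiv_apply_subset ℝ v).trans hφ.sub

omit [FiniteDimensional ℝ E] [MeasureSpace E] [BorelSpace E]
  [(volume : Measure E).IsAddHaarMeasure] in
theorem BIT_second {φ : E → ℝ} (hφ : ContDiff ℝ ∞ φ) (x u e : E) :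
    fderiv ℝ (fun y => fderiv ℝ φ y e) x u = fderiv ℝ (fun y => fderiv ℝ φ y u) x e := by
  have h1 : ContDiff ℝ ∞ (fderiv ℝ φ) := hφ.fderiv_right (m := ∞) (by simp)
  have h2 : ∀ a b : E, fderiv ℝ (fun y => fderiv ℝ φ y a) x b = fderiv ℝ (fderiv ℝ φ) x b a := by
    intro a b
    have h3 : HasFDerivAt (fderiv ℝ φ) (fderiv ℝ (fderiv ℝ φ) x) x :=
      ((h1.differentiable (by simp)) x).hasFDerivAt
    have h4 := (h3.clm_apply (hasFDerivAt_const a x)).fderiv
    rw [h4]
    simp
  rw [h2, h2]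
  have h5 : IsSymmSndFDerivAt ℝ φ x :=
    (hφ.contDiffAt (x := x)).isSymmSndFDerivAt (by
      rw [minSmoothness_of_isRCLikeNormedField]
      show ((2 : ℕ∞) : WithTop ℕ∞) ≤ ((⊤ : ℕ∞) : WithTop ℕ∞)
      exact WithTop.coe_le_coe.2 le_top)
  exact h5.eq u e

omit [FiniteDimensional ℝ E] [(volume : Measure E).IsAddHaarMeasure] in
theorem BIT_congr {X : Type} [NormedAddCommGroup X] [NormedSpace ℝ X] {W : Set E}
    (hW : IsOpen W) {ψ : E → ℝ} (hψ : Test W ψ) {P Q : E → X}
    (h : ∀ᵐ x ∂(volume.restrict W), P x = Q x) :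
    ∫ x, ψ x • P x = ∫ x, ψ x • Q x := by
  have h1 := (ae_restrict_iff' hW.measurableSet).1 h
  refine integral_congr_ae ?_
  filter_upwards [h1] with x hx
  by_cases hxW : x ∈ W
  · rw [hx hxW]
  · have : ψ x = 0 := by
      by_contra h0
      exact hxW (hψ.sub (subset_tsupport _ h0))
    rw [this, zero_smul, zero_smul]

omit [FiniteDimensional ℝ E] [(volume : Measure E).IsAddHaarMeasure] in
theorem BIT_int {X : Type} [NormedAddCommGroup X] [NormedSpace ℝ X] {W : Set E}
    {ψ : E → ℝ} (hψ : Test W ψ) {f : E → X}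
    (hf : ∀ K : Set E, IsCompact K → K ⊆ W → IntegrableOn f K volume) :
    Integrable (fun x => ψ x • f x) := by
  have h1 : IntegrableOn (fun x => ψ x • f x) (tsupport ψ) volume :=
    (hf _ hψ.cpt hψ.sub).continuousOn_smul hψ.smooth.continuous.continuousOn hψ.cpt
  rwa [integrableOn_iff_integrable_of_support_subset] at h1
  intro x hx
  refine subset_tsupport _ fun h0 => hx ?_
  show ψ x • f x = 0
  rw [h0, zero_smul]

omit [NormedSpace ℝ E] [FiniteDimensional ℝ E] [BorelSpace E] in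
theorem BIT_L1 {X : Type} [NormedAddCommGroup X] {W : Set E} {f : E → X}
    (hf : L2loc W f) : ∀ K : Set E, IsCompact K → K ⊆ W → IntegrableOn f K volume := by
  intro K hK hKW
  have : IsFiniteMeasure (volume.restrict K) := ⟨by
    rw [Measure.restrict_apply_univ]
    exact hK.measure_lt_top⟩
  exact (hf K hK hKW).integrable (by norm_num)

omit [NormedSpace ℝ E] [FiniteDimensional ℝ E] [BorelSpace E]
  [(volume : Measure E).IsAddHaarMeasure] in
theorem BIT_mul {𝔐 : Type} [NormedRing 𝔐] {W : Set E} {f h : E → 𝔐}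
    (hf : L2loc W f) (hh : L2loc W h) :
    ∀ K : Set E, IsCompact K → K ⊆ W → IntegrableOn (fun x => f x * h x) K volume := by
  intro K hK hKW
  have := (hh K hK hKW).mul (r := 1) (hf K hK hKW)
  exact memLp_one_iff_integrable.1 this

omit [FiniteDimensional ℝ E] [BorelSpace E] [(volume : Measure E).IsAddHaarMeasure] in
theorem BIT_evA {𝔐 : Type} [NormedRing 𝔐] [NormedAlgebra ℝ 𝔐] {W : Set E}
    {A : E → E →L[ℝ] 𝔐} (hA : L2loc W A) (v : E) : L2loc W (fun x => A x v) := by
  intro K hK hKW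
  exact (ContinuousLinearMap.apply ℝ 𝔐 v).comp_memLp' (hA K hK hKW)

omit [FiniteDimensional ℝ E] [BorelSpace E] [(volume : Measure E).IsAddHaarMeasure] in
theorem BIT_evF {𝔐 : Type} [NormedRing 𝔐] [NormedAlgebra ℝ 𝔐] {W : Set E}
    {F : E → E [⋀^Fin 2]→L[ℝ] 𝔐} (hF : L2loc W F) (v : Fin 2 → E) :
    L2loc W (fun x => F x v) := by
  intro K hK hKW
  exact (ContinuousAlternatingMap.apply ℝ E 𝔐 v).comp_memLp' (hF K hK hKW)

end

theorem BIT_swap {E 𝔐 : Type} [NormedAddCommGroup E] [NormedSpace ℝ E] [NormedRing 𝔐]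
    [NormedAlgebra ℝ 𝔐] (F : E [⋀^Fin 2]→L[ℝ] 𝔐) (e v : E) : F ![v, e] = -F ![e, v] := by
  have h := F.toAlternatingMap.map_swap ![e, v] (i := 0) (j := 1) (by decide)
  have h2 : (![e, v] : Fin 2 → E) ∘ (Equiv.swap (0 : Fin 2) 1) = ![v, e] := by
    funext i
    fin_cases i <;> simp
  rw [h2] at h
  exact h

theorem p_BIT (hDPR : Stmt_DPR) : Stmt_BIT := by
  intro 𝔐 _ _ _ _ _ _ 𝒢 E _ _ _ _ _ _ W A F e hW hC hA u v φ hφ
  -- the weak derivative of `A_w` in the direction `e`
  have H1 : ∀ w : E, ∀ ψ : E → ℝ, Test W ψ →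
      ∫ x, fderiv ℝ ψ x e • A x w = -∫ x, ψ x • F x ![e, w] := by
    intro w ψ hψ
    have h1 := hC.curv ψ hψ e w
    have h2 : ∫ x, ψ x • (A x e * A x w - A x w * A x e) = 0 := by
      rw [BIT_congr hW hψ (Q := fun _ => 0) (by
        filter_upwards [hA] with x hx
        rw [hx, zero_mul, mul_zero, sub_zero])]
      simp
    have h3 : ∫ x, fderiv ℝ ψ x w • A x e = 0 := by
      rw [BIT_congr hW (BIT_test hψ w) (Q := fun _ => 0) (by
        filter_upwards [hA] with x hx
        rw [hx])]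
      simp
    have h4 : ∫ x, (fderiv ℝ ψ x e • A x w - fderiv ℝ ψ x w • A x e) =
        ∫ x, fderiv ℝ ψ x e • A x w := by
      rw [integral_sub (BIT_int (BIT_test hψ e) (BIT_L1 (BIT_evA hC.A2 w)))
        (BIT_int (BIT_test hψ w) (BIT_L1 (BIT_evA hC.A2 e))), h3, sub_zero]
    rw [h1, h2, h4]
    abel
  have hAw : ∀ w : E, L2loc W (fun x => A x w) := fun w => BIT_evA hC.A2 w
  have hFw : ∀ w w' : E, L2loc W (fun x => F x ![w, w']) := fun w w' => BIT_evF hC.F2 _
  -- the product rule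
  have H2 : ∀ w w' : E, ∫ x, fderiv ℝ φ x e • (A x w * A x w') =
      -∫ x, φ x • (F x ![e, w] * A x w' + A x w * F x ![e, w']) := fun w w' =>
    hDPR 𝔐 E W e (fun x => A x w) (fun x => F x ![e, w]) (fun x => A x w')
      (fun x => F x ![e, w']) hW (hAw w) (hFw e w) (hAw w') (hFw e w') (H1 w) (H1 w') φ hφ
  have hψe := BIT_test hφ e
  -- the curvature equation for the derivative of the test function
  have h1 := hC.curv _ hψe u v
  have e1 : ∫ x, (fderiv ℝ (fun x => fderiv ℝ φ x e) x u • A x v -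
      fderiv ℝ (fun x => fderiv ℝ φ x e) x v • A x u) =
      -(∫ x, fderiv ℝ φ x u • F x ![e, v]) + ∫ x, fderiv ℝ φ x v • F x ![e, u] := by
    rw [integral_sub (BIT_int (BIT_test hψe u) (BIT_L1 (hAw v)))
        (BIT_int (BIT_test hψe v) (BIT_L1 (hAw u)))]
    have a1 : ∫ x, fderiv ℝ (fun x => fderiv ℝ φ x e) x u • A x v =
        -∫ x, fderiv ℝ φ x u • F x ![e, v] := by
      rw [← H1 v _ (BIT_test hφ u)]
      exact integral_congr_ae (Eventually.of_forall fun x => by
        beta_reduce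
        rw [BIT_second hφ.smooth x u e])
    have a2 : ∫ x, fderiv ℝ (fun x => fderiv ℝ φ x e) x v • A x u =
        -∫ x, fderiv ℝ φ x v • F x ![e, u] := by
      rw [← H1 u _ (BIT_test hφ v)]
      exact integral_congr_ae (Eventually.of_forall fun x => by
        beta_reduce
        rw [BIT_second hφ.smooth x v e])
    rw [a1, a2]
    abel
  have e2 : ∫ x, fderiv ℝ φ x e • (A x u * A x v - A x v * A x u) =
      -(∫ x, φ x • (F x ![e, u] * A x v + A x u * F x ![e, v])) +
        ∫ x, φ x • (F x ![e, v] * A x u + A x v * F x ![e, u]) := by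
    have a1 : ∀ x, fderiv ℝ φ x e • (A x u * A x v - A x v * A x u) =
        fderiv ℝ φ x e • (A x u * A x v) - fderiv ℝ φ x e • (A x v * A x u) := fun x =>
      smul_sub _ _ _
    simp only [a1]
    rw [integral_sub (BIT_int hψe (BIT_mul (hAw u) (hAw v)))
      (BIT_int hψe (BIT_mul (hAw v) (hAw u))), H2, H2]
    abel
  rw [e1, e2] at h1
  -- the left side
  have hL : ∫ x, ∑ k, fderiv ℝ φ x ((![e, u, v] : Fin 3 → E) k) • cyc F e u v k x =
      (∫ x, fderiv ℝ φ x e • F x ![u, v]) - (∫ x, fderiv ℝ φ x u • F x ![e, v]) +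
        ∫ x, fderiv ℝ φ x v • F x ![e, u] := by
    have i0 : Integrable (fun x => fderiv ℝ φ x e • F x ![u, v] -
        fderiv ℝ φ x u • F x ![e, v]) := (BIT_int hψe (BIT_L1 (hFw u v))).sub
      (BIT_int (BIT_test hφ u) (BIT_L1 (hFw e v)))
    rw [← integral_sub (BIT_int hψe (BIT_L1 (hFw u v)))
      (BIT_int (BIT_test hφ u) (BIT_L1 (hFw e v))),
      ← integral_add i0 (BIT_int (BIT_test hφ v) (BIT_L1 (hFw e u)))]
    refine integral_congr_ae (Eventually.of_forall fun x => ?_)
    show ∑ k, fderiv ℝ φ x ((![e, u, v] : Fin 3 → E) k) • cyc F e u v k x = _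
    rw [Fin.sum_univ_three]
    simp only [cyc, Matrix.cons_val_zero, Matrix.cons_val_one, Matrix.cons_val]
    rw [BIT_swap (F x) e v, smul_neg, sub_eq_add_neg]
  -- the right side
  have hR : ∫ x, φ x • ((∑ k, (A x ((![e, u, v] : Fin 3 → E) k) * cyc F e u v k x -
      cyc F e u v k x * A x ((![e, u, v] : Fin 3 → E) k))) - 0) =
      -(∫ x, φ x • (F x ![e, u] * A x v + A x u * F x ![e, v])) +
        ∫ x, φ x • (F x ![e, v] * A x u + A x v * F x ![e, u]) := by
    have i1 : Integrable (fun x => φ x • (F x ![e, u] * A x v + A x u * F x ![e, v])) :=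
      BIT_int hφ fun K hK hKW => (BIT_mul (hFw e u) (hAw v) K hK hKW).add
        (BIT_mul (hAw u) (hFw e v) K hK hKW)
    have i2 : Integrable (fun x => φ x • (F x ![e, v] * A x u + A x v * F x ![e, u])) :=
      BIT_int hφ fun K hK hKW => (BIT_mul (hFw e v) (hAw u) K hK hKW).add
        (BIT_mul (hAw v) (hFw e u) K hK hKW)
    have i3 : Integrable (fun x => -(φ x • (F x ![e, u] * A x v + A x u * F x ![e, v]))) :=
      i1.neg
    rw [← integral_neg, ← integral_add i3 i2]
    have a1 : ∀ x, (-(φ x • (F x ![e, u] * A x v + A x u * F x ![e, v]))) +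
        φ x • (F x ![e, v] * A x u + A x v * F x ![e, u]) =
        φ x • (-(F x ![e, u] * A x v + A x u * F x ![e, v]) +
          (F x ![e, v] * A x u + A x v * F x ![e, u])) := fun x => by
      rw [← smul_neg, ← smul_add]
    simp only [a1]
    refine BIT_congr hW hφ ?_
    filter_upwards [hA] with x hx
    rw [Fin.sum_univ_three]
    simp only [cyc, Matrix.cons_val_zero, Matrix.cons_val_one, Matrix.cons_val]
    rw [BIT_swap (F x) e v, hx]
    simp only [zero_mul, mul_zero, sub_zero, zero_add, mul_neg, neg_mul]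
    abel
  rw [hL, hR, h1]
  abel

end Pool.TIW
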