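import Pool.Agent.Work.MP_a1f430_wb.Interface3
import Pool.Agent.Work.MP_a1f430_wb.B_BIT

/-! # Block BHO: components of a curvature of type (2,0)+(0,2) are holomorphic -/

set_option autoImplicit false

namespace Pool.TIW

open Pool.TIA
open MeasureTheory Set Filter Topology
open scoped ContDiff ENNReal

section

variable {E : Type} [NormedAddCommGroup E] [NormedSpace ℝ E] [MeasureSpace E]
variable {𝔐 : Type} [NormedRing 𝔐] [NormedAlgebra ℝ 𝔐]

/-- `∫ (∂_d φ Z - φ [A_d, Z])` -/
noncomputable def BHO_T (A : E → E →L[ℝ] 𝔐) (φ : E → ℝ) (d : E) (Z : E → 𝔐) : 𝔐 :=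
  (∫ x, fderiv ℝ φ x d • Z x) - ∫ x, φ x • (A x d * Z x - Z x * A x d)

end

section

variable {E : Type} [NormedAddCommGroup E] [NormedSpace ℝ E] [FiniteDimensional ℝ E]
  [MeasureSpace E] [BorelSpace E] [(volume : Measure E).IsAddHaarMeasure]
variable {𝔐 : Type} [NormedRing 𝔐] [NormedAlgebra ℝ 𝔐] [StarRing 𝔐]

theorem BHO_i1 {W : Set E} {φ : E → ℝ} (hφ : Test W φ) {Z : E → 𝔐} (hZ : L2loc W Z) (d : E) :
    Integrable (fun x => fderiv ℝ φ x d • Z x) :=
  BIT_int (BIT_test hφ d) (BIT_L1 hZ)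

theorem BHO_i2 {W : Set E} {φ : E → ℝ} (hφ : Test W φ) {A : E → E →L[ℝ] 𝔐} (hA : L2loc W A)
    {Z : E → 𝔐} (hZ : L2loc W Z) (d : E) :
    Integrable (fun x => φ x • (A x d * Z x - Z x * A x d)) := by
  refine BIT_int hφ fun K hK hKW => ?_
  exact Integrable.sub (BIT_mul (BIT_evA hA d) hZ K hK hKW) (BIT_mul hZ (BIT_evA hA d) K hK hKW)

/-- the divergence as a sum -/
theorem BHO_sum {W : Set E} {φ : E → ℝ} (hφ : Test W φ) {A : E → E →L[ℝ] 𝔐} (hA : L2loc W A)
    {m : ℕ} (v : Fin m → E) (Z : Fin m → E → 𝔐) (hZ : ∀ k, L2loc W (Z k)) :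
    (∫ x, ∑ k, fderiv ℝ φ x (v k) • Z k x =
      ∫ x, φ x • ((∑ k, (A x (v k) * Z k x - Z k x * A x (v k))) - (0 : 𝔐))) ↔
    ∑ k, BHO_T A φ (v k) (Z k) = 0 := by
  rw [integral_finset_sum _ fun k _ => BHO_i1 hφ (hZ k) (v k)]
  have e : (fun x => φ x • ((∑ k, (A x (v k) * Z k x - Z k x * A x (v k))) - (0 : 𝔐))) =
      fun x => ∑ k, φ x • (A x (v k) * Z k x - Z k x * A x (v k)) := by
    funext x
    rw [sub_zero, Finset.smul_sum]
  rw [e, integral_finset_sum _ fun k _ => BHO_i2 hφ hA (hZ k) (v k), ← sub_eq_zero,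
    ← Finset.sum_sub_distrib]
  rfl

theorem BHO_congr {W : Set E} (hW : IsOpen W) {φ : E → ℝ} (hφ : Test W φ) (A : E → E →L[ℝ] 𝔐)
    (d : E) {Z Z' : E → 𝔐} (h : ∀ᵐ x ∂(volume.restrict W), Z x = Z' x) :
    BHO_T A φ d Z = BHO_T A φ d Z' := by
  unfold BHO_T
  rw [BIT_congr hW (BIT_test hφ d) h]
  congr 1
  refine BIT_congr hW hφ ?_
  filter_upwards [h] with x hx
  rw [hx]

theorem BHO_neg (A : E → E →L[ℝ] 𝔐) (φ : E → ℝ) (d : E) (Z : E → 𝔐) :
    BHO_T A φ d (fun x => -Z x) = -BHO_T A φ d Z := by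
  unfold BHO_T
  have e1 : (fun x => fderiv ℝ φ x d • -Z x) = fun x => -(fderiv ℝ φ x d • Z x) := by
    funext x
    rw [smul_neg]
  have e2 : (fun x => φ x • (A x d * -Z x - -Z x * A x d)) =
      fun x => -(φ x • (A x d * Z x - Z x * A x d)) := by
    funext x
    rw [← smul_neg]
    congr 1
    noncomm_ring
  rw [e1, e2, integral_neg, integral_neg]
  abel

end

theorem p_BHO (hBIG : Stmt_BIG) : Stmt_BHO := by
  intro 𝔐 _ _ _ _ _ _ 𝒢 E _ _ _ _ _ _ J W A F hJ hW hC h20 u v
  have hF : ∀ a b : E, L2loc W (fun x => F x ![a, b]) := fun a b => BIT_evF hC.F2 _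
  refine ⟨hF u v, ?_, ?_⟩
  · intro K hK hKW
    exact (hF u (J v) K hK hKW).neg
  intro w φ hφ
  -- reduction to the sum
  have hZ : ∀ k, L2loc W ((![fun x => F x ![u, v], fun x => -(-F x ![u, J v])] :
      Fin 2 → E → 𝔐) k) := by
    intro k
    fin_cases k
    · exact hF u v
    · have : (fun x => -(-F x ![u, J v])) = fun x => F x ![u, J v] := by
        funext x
        rw [neg_neg]
      show L2loc W (fun x => -(-F x ![u, J v]))
      rw [this]
      exact hF u (J v)
  rw [BHO_sum hφ hC.A2 _ _ hZ, Fin.sum_univ_two]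
  set T : E → E → E → 𝔐 := fun d a b => BHO_T A φ d (fun x => F x ![a, b]) with hT
  have hgoal : BHO_T A φ ((![w, J w] : Fin 2 → E) 0)
        ((![fun x => F x ![u, v], fun x => -(-F x ![u, J v])] : Fin 2 → E → 𝔐) 0) +
      BHO_T A φ ((![w, J w] : Fin 2 → E) 1)
        ((![fun x => F x ![u, v], fun x => -(-F x ![u, J v])] : Fin 2 → E → 𝔐) 1) =
      T w u v + T (J w) u (J v) := by
    have : (fun x => -(-F x ![u, J v])) = fun x => F x ![u, J v] := by
      funext x
      rw [neg_neg]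
    show BHO_T A φ w (fun x => F x ![u, v]) + BHO_T A φ (J w) (fun x => -(-F x ![u, J v])) = _
    rw [this]
  rw [hgoal]
  -- the rules
  have hsw : ∀ d a b, T d b a = -T d a b := by
    intro d a b
    have e : (fun x => F x ![b, a]) = fun x => -F x ![a, b] := by
      funext x
      exact BIT_swap (F x) a b
    show BHO_T A φ d (fun x => F x ![b, a]) = -BHO_T A φ d (fun x => F x ![a, b])
    rw [e, BHO_neg]
  have hJJ : ∀ d a b, T d (J a) (J b) = -T d a b := by
    intro d a b
    show BHO_T A φ d (fun x => F x ![J a, J b]) = -BHO_T A φ d (fun x => F x ![a, b])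
    rw [← BHO_neg]
    refine BHO_congr hW hφ A d ?_
    filter_upwards [h20] with x hx
    exact hx a b
  have hJ1 : ∀ d a b, T d (J a) b = T d a (J b) := by
    intro d a b
    have h1 := hJJ d a (J b)
    have e : (fun x => F x ![J a, J (J b)]) = fun x => -F x ![J a, b] := by
      funext x
      rw [hJ b]
      have h2 := (F x).toMultilinearMap.map_update_smul ![J a, b] 1 (-1 : ℝ) b
      have e3 : Function.update ![J a, b] 1 ((-1 : ℝ) • b) = ![J a, -b] := by
        funext i
        fin_cases i <;> simp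
      have e4 : Function.update ![J a, b] 1 b = ![J a, b] := by
        funext i
        fin_cases i <;> simp
      rw [e3, e4, neg_one_smul] at h2
      exact h2
    have h3 : T d (J a) (J (J b)) = -T d (J a) b := by
      show BHO_T A φ d (fun x => F x ![J a, J (J b)]) = -BHO_T A φ d (fun x => F x ![J a, b])
      rw [e, BHO_neg]
    rw [h3] at h1
    exact neg_injective h1
  have hB : ∀ a b c, T a b c + T b c a + T c a b = 0 := by
    intro a b c
    have h1 := hBIG 𝔐 𝒢 E W A F hW hC a b c φ hφ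
    have hZ3 : ∀ k, L2loc W (cyc F a b c k) := by
      intro k
      fin_cases k
      · exact hF b c
      · exact hF c a
      · exact hF a b
    rw [BHO_sum hφ hC.A2 _ _ hZ3, Fin.sum_univ_three] at h1
    exact h1
  -- the symmetries of `τ`
  set τ : E → E → E → 𝔐 := fun d a b => T d a b + T (J d) a (J b) with hτ
  have hanti : ∀ d a b, τ d b a = -τ d a b := by
    intro d a b
    show T d b a + T (J d) b (J a) = -(T d a b + T (J d) a (J b))
    rw [hsw d a b, ← hJ1 (J d) b a, hsw (J d) a (J b)]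
    abel
  have hcyc : ∀ d a b, τ d a b + τ b d a = 0 := by
    intro d a b
    have h1 := hB d a b
    have h2 := hB (J d) a (J b)
    have h3 : T a (J b) (J d) = -T a b d := hJJ a b d
    have h4 : T (J b) (J d) a = T (J b) d (J a) := hJ1 (J b) d a
    rw [h3, h4] at h2
    show T d a b + T (J d) a (J b) + (T b d a + T (J b) d (J a)) = 0
    calc T d a b + T (J d) a (J b) + (T b d a + T (J b) d (J a))
        = (T d a b + T a b d + T b d a) + (T (J d) a (J b) + -T a b d + T (J b) d (J a)) := by abel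
      _ = 0 := by rw [h1, h2, add_zero]
  have hsym : ∀ d a b, τ d a b = τ b a d := by
    intro d a b
    have h1 := hcyc d a b
    have h2 := hanti b a d
    rw [h2] at h1
    exact add_neg_eq_zero.1 h1
  show τ w u v = 0
  have h1 : τ w u v = -τ w u v := by
    calc τ w u v = τ v u w := hsym w u v
      _ = -τ v w u := hanti v w u
      _ = -τ u w v := by rw [hsym v w u]
      _ = τ u v w := by rw [hanti u v w, neg_neg]
      _ = τ w v u := hsym u v w
      _ = -τ w u v := hanti w u v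
  have h2 : (2 : ℝ) • τ w u v = 0 := by
    rw [two_smul]
    nth_rewrite 2 [h1]
    exact add_neg_cancel _
  exact (smul_eq_zero.1 h2).resolve_left (by norm_num)

end Pool.TIW
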