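import Pool.Agent.Work.MP_a1f430_wb.Interface3
import Pool.Agent.Work.MP_a1f430_wb.B_BIT

/-! # Block CRA: the Cauchy-Riemann equations in the flat gauge (MP_a1f430, THEOREM J) -/

set_option autoImplicit false

namespace Pool.TIW

open Pool.TIA
open MeasureTheory Set Filter Topology
open scoped ContDiff ENNReal

theorem p_CRA : Stmt_CRA := by
  intro 𝔐 _ _ _ _ _ _ 𝒢 V _ _ _ _ _ _ J W₁ z₀ r A F hF
  set W : Set (V × ℂ) := W₁ ×ˢ Metric.ball z₀ r with hWdef
  have hW : IsOpen W := hF.op.prod Metric.isOpen_ball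
  have hA : ∀ᵐ p ∂(volume.restrict W), ∀ ζ : ℂ, A p (0, ζ) = 0 := hF.flat
  have hC : Conn 𝒢 W A F := hF.conn
  have hT : J20 W (JC J) F := hF.typ
  -- the weak derivative of `A(v, 0)` in the direction `(0, ζ)`
  have H1 : ∀ φ : V × ℂ → ℝ, Test W φ → ∀ (v : V) (ζ : ℂ),
      ∫ p, fderiv ℝ φ p (0, ζ) • A p (v, 0) = -∫ p, φ p • F p ![(0, ζ), (v, 0)] := by
    intro ψ hψ v ζ
    have h1 := hC.curv ψ hψ (0, ζ) (v, 0)
    have h2 : ∫ x, ψ x • (A x (0, ζ) * A x (v, 0) - A x (v, 0) * A x (0, ζ)) = 0 := by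
      rw [BIT_congr hW hψ (Q := fun _ => 0) (by
        filter_upwards [hA] with x hx
        rw [hx, zero_mul, mul_zero, sub_zero])]
      simp
    have h3 : ∫ x, fderiv ℝ ψ x (v, 0) • A x (0, ζ) = 0 := by
      rw [BIT_congr hW (BIT_test hψ (v, 0)) (Q := fun _ => 0) (by
        filter_upwards [hA] with x hx
        rw [hx])]
      simp
    have h4 : ∫ x, (fderiv ℝ ψ x (0, ζ) • A x (v, 0) - fderiv ℝ ψ x (v, 0) • A x (0, ζ)) =
        ∫ x, fderiv ℝ ψ x (0, ζ) • A x (v, 0) := by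
      rw [integral_sub (BIT_int (BIT_test hψ (0, ζ)) (BIT_L1 (BIT_evA hC.A2 (v, 0))))
        (BIT_int (BIT_test hψ (v, 0)) (BIT_L1 (BIT_evA hC.A2 (0, ζ)))), h3, sub_zero]
    rw [h1, h2, h4]
    abel
  refine ⟨H1, ?_, ?_⟩
  · intro v
    refine ⟨BIT_evA hC.A2 _, ?_, ?_⟩
    · intro K hK hKW
      exact (BIT_evA hC.A2 (J v, (0 : ℂ)) K hK hKW).neg
    · intro φ hφ ζ
      have e1 := H1 φ hφ v ζ
      have e2 := H1 φ hφ (J v) (Complex.I * ζ)
      have e3 : ∫ p, φ p • F p ![(0, Complex.I * ζ), (J v, 0)] =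
          ∫ p, φ p • (-F p ![(0, ζ), (v, 0)]) := by
        refine BIT_congr hW hφ ?_
        filter_upwards [hT] with p hp
        have h5 := hp (0, ζ) (v, 0)
        rw [JC_apply, JC_apply, map_zero, mul_zero] at h5
        exact h5
      have e4 : ∫ p, φ p • (-F p ![(0, ζ), (v, 0)]) = -∫ p, φ p • F p ![(0, ζ), (v, 0)] := by
        rw [← integral_neg]
        refine integral_congr_ae (Filter.Eventually.of_forall fun p => ?_)
        show φ p • (-F p ![(0, ζ), (v, 0)]) = -(φ p • F p ![(0, ζ), (v, 0)])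
        rw [smul_neg]
      have e5 : ∫ p, (fderiv ℝ φ p (0, ζ) • A p (v, 0) -
          fderiv ℝ φ p (0, Complex.I * ζ) • (-A p (J v, 0))) =
          (∫ p, fderiv ℝ φ p (0, ζ) • A p (v, 0)) +
            ∫ p, fderiv ℝ φ p (0, Complex.I * ζ) • A p (J v, 0) := by
        rw [← integral_add (BIT_int (BIT_test hφ (0, ζ)) (BIT_L1 (BIT_evA hC.A2 (v, 0))))
          (BIT_int (BIT_test hφ (0, Complex.I * ζ)) (BIT_L1 (BIT_evA hC.A2 (J v, 0))))]
        refine integral_congr_ae (Filter.Eventually.of_forall fun p => ?_)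
        show fderiv ℝ φ p (0, ζ) • A p (v, 0) -
          fderiv ℝ φ p (0, Complex.I * ζ) • (-A p (J v, 0)) = fderiv ℝ φ p (0, ζ) • A p (v, 0) +
            fderiv ℝ φ p (0, Complex.I * ζ) • A p (J v, 0)
        rw [smul_neg, sub_neg_eq_add]
      show ∫ p, (fderiv ℝ φ p (0, ζ) • A p (v, 0) -
          fderiv ℝ φ p (0, Complex.I * ζ) • (-A p (J v, 0))) = 0
      rw [e5, e1, e2, e3, e4]
      abel
  · intro P Q hPQ
    refine ⟨hPQ.P2, hPQ.Q2, ?_⟩
    intro φ hφ ζ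
    have h1 := hPQ.eq (0, ζ) φ hφ
    have h2 : ∀ᵐ p ∂(volume.restrict W),
        ((∑ k, (A p ((![(0, ζ), JC J (0, ζ)] : Fin 2 → V × ℂ) k) *
          (![P, fun x => -Q x] : Fin 2 → V × ℂ → 𝔐) k p -
          (![P, fun x => -Q x] : Fin 2 → V × ℂ → 𝔐) k p *
            A p ((![(0, ζ), JC J (0, ζ)] : Fin 2 → V × ℂ) k))) - (fun _ => (0 : 𝔐)) p) = 0 := by
      filter_upwards [hA] with p hp
      rw [Fin.sum_univ_two]
      simp only [Matrix.cons_val_zero, Matrix.cons_val_one, JC_apply, map_zero, hp, zero_mul,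
        mul_zero, sub_zero, add_zero]
    rw [BIT_congr hW hφ (Q := fun _ => 0) h2] at h1
    simp only [smul_zero, integral_zero] at h1
    rw [← h1]
    refine integral_congr_ae (Filter.Eventually.of_forall fun p => ?_)
    show fderiv ℝ φ p (0, ζ) • P p - fderiv ℝ φ p (0, Complex.I * ζ) • Q p =
      ∑ k, fderiv ℝ φ p ((![(0, ζ), JC J (0, ζ)] : Fin 2 → V × ℂ) k) •
        (![P, fun x => -Q x] : Fin 2 → V × ℂ → 𝔐) k p
    rw [Fin.sum_univ_two]
    simp only [Matrix.cons_val_zero, Matrix.cons_val_one, JC_apply, map_zero, smul_neg,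
      sub_eq_add_neg]

end Pool.TIW
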