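import Pool.Agent.Work.MP_a1f430_wb.Interface3

/-! # Block SL2: slices of `L²_loc` functions (MP_a1f430, helper71) -/

set_option autoImplicit false

namespace Pool.TIW

open Pool.TIA
open MeasureTheory Set Filter Topology
open scoped ContDiff ENNReal

section slices2

variable {V : Type} [NormedAddCommGroup V] [NormedSpace ℝ V] [FiniteDimensional ℝ V]
  [MeasureSpace V] [BorelSpace V] [(volume : Measure V).IsAddHaarMeasure]
  {T : Type} [NormedAddCommGroup T] [NormedSpace ℝ T] [FiniteDimensional ℝ T]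
  [MeasureSpace T] [BorelSpace T] [(volume : Measure T).IsAddHaarMeasure]

theorem SL2_prod (K : Set V) (I : Set T) :
    (volume : Measure (V × T)).restrict (K ×ˢ I) =
      (volume.restrict K).prod (volume.restrict I) := by
  rw [Measure.volume_eq_prod, Measure.prod_restrict]

theorem SL2_ae0 (K : Set V) (I : Set T) {P : V × T → Prop}
    (h : ∀ᵐ p ∂(volume.restrict (K ×ˢ I)), P p) :
    ∀ᵐ t ∂(volume.restrict I), ∀ᵐ y ∂(volume.restrict K), P (y, t) := by
  rw [SL2_prod] at h
  have h1 : ∀ᵐ q ∂((volume.restrict I : Measure T).prod (volume.restrict K : Measure V)),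
      P q.swap :=
    (Measure.measurePreserving_swap (μ := (volume.restrict I : Measure T))
      (ν := (volume.restrict K : Measure V))).quasiMeasurePreserving.ae h
  exact Measure.ae_ae_of_ae_prod h1

theorem SL2_memLp {X : Type} [NormedAddCommGroup X] (K : Set V) (I : Set T) {f : V × T → X}
    (h : MemLp f 2 (volume.restrict (K ×ˢ I))) :
    ∀ᵐ t ∂(volume.restrict I), MemLp (fun y => f (y, t)) 2 (volume.restrict K) := by
  rw [SL2_prod] at h
  have h1 : AEStronglyMeasurable (fun q : T × V => f q.swap)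
      ((volume.restrict I : Measure T).prod (volume.restrict K : Measure V)) :=
    h.aestronglyMeasurable.prod_swap
  have h2 := h1.prodMk_left
  have h3 := (memLp_two_iff_integrable_sq_norm h.aestronglyMeasurable).1 h
  have h4 := h3.prod_left_ae
  filter_upwards [h2, h4] with t ht ht'
  exact (memLp_two_iff_integrable_sq_norm ht).2 ht'

theorem SL2_memLp' {X : Type} [NormedAddCommGroup X] (K : Set V) (I : Set T) {f : V × T → X}
    (h : MemLp f 2 (volume.restrict (K ×ˢ I))) :
    ∀ᵐ y ∂(volume.restrict K), MemLp (fun t => f (y, t)) 2 (volume.restrict I) := by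
  rw [SL2_prod] at h
  have h2 := h.aestronglyMeasurable.prodMk_left
  have h3 := (memLp_two_iff_integrable_sq_norm h.aestronglyMeasurable).1 h
  have h4 := h3.prod_right_ae
  filter_upwards [h2, h4] with y hy hy'
  exact (memLp_two_iff_integrable_sq_norm hy).2 hy'

/-- Exhaustion by compact sets. -/
theorem SL2_exh {W₁ : Set V} (hW : IsOpen W₁) : ∃ e : ℕ → Set V, (∀ n, IsCompact (e n)) ∧
    (∀ n, e n ⊆ W₁) ∧ Monotone e ∧ ∀ K : Set V, IsCompact K → K ⊆ W₁ → ∃ n, K ⊆ e n := by
  have hlc : LocallyCompactSpace W₁ := hW.locallyCompactSpace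
  let e : CompactExhaustion W₁ := CompactExhaustion.choice W₁
  refine ⟨fun n => (Subtype.val : W₁ → V) '' e n, fun n =>
    (e.isCompact n).image continuous_subtype_val, ?_, ?_, ?_⟩
  · rintro n _ ⟨y, -, rfl⟩
    exact y.2
  · intro m n hmn
    exact image_mono (e.subset hmn)
  · intro K hKc hKs
    have hc : IsCompact ((Subtype.val : W₁ → V) ⁻¹' K) := by
      rw [Subtype.isCompact_iff, Subtype.image_preimage_coe, inter_eq_right.2 hKs]
      exact hKc
    obtain ⟨m, hm⟩ := e.exists_superset_of_isCompact hc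
    exact ⟨m, fun y hy => ⟨⟨y, hKs hy⟩, hm hy, rfl⟩⟩

/-- The general form. -/
theorem SL2_gen {X : Type} [NormedAddCommGroup X] {W₁ : Set V} {T₁ : Set T} (hW : IsOpen W₁)
    (hT : IsOpen T₁) {g : T → V → X}
    (h : ∀ (K : Set V) (I : Set T), IsCompact K → IsCompact I → K ⊆ W₁ → I ⊆ T₁ →
      ∀ᵐ t ∂(volume.restrict I), MemLp (g t) 2 (volume.restrict K)) :
    ∀ᵐ t ∂(volume.restrict T₁), L2loc W₁ (g t) := by
  obtain ⟨e, e1, e2, e3, e4⟩ := SL2_exh hW
  obtain ⟨d, d1, d2, d3, d4⟩ := SL2_exh hT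
  have h1 : ∀ n : ℕ, ∀ᵐ t : T, t ∈ d n → MemLp (g t) 2 (volume.restrict (e n)) := by
    intro n
    rw [← ae_restrict_iff' (d1 n).measurableSet]
    exact h _ _ (e1 n) (d1 n) (e2 n) (d2 n)
  rw [ae_restrict_iff' hT.measurableSet]
  filter_upwards [ae_all_iff.2 h1] with t ht htI
  intro K hKc hKs
  obtain ⟨m, hm⟩ := e4 K hKc hKs
  obtain ⟨n, hn⟩ := d4 {t} isCompact_singleton (by
    intro s hs
    rw [mem_singleton_iff.1 hs]
    exact htI)
  have h2 := ht (max m n) (d3 (le_max_right m n) (hn (mem_singleton t)))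
  exact h2.mono_measure (Measure.restrict_mono (hm.trans (e3 (le_max_left m n))) le_rfl)

end slices2

theorem p_SL2 : Stmt_SL2 := by
  intro V T X _ _ _ _ _ _ _ _ _ _ _ _ _ _ _ W₁ T₁ f hW hT hf
  refine ⟨?_, ?_⟩
  · exact SL2_gen hW hT fun K I hK hI hKW hIT =>
      SL2_memLp K I (hf _ (hK.prod hI) (prod_mono hKW hIT))
  · exact SL2_gen hT hW fun I K hI hK hIT hKW =>
      SL2_memLp' K I (hf _ (hK.prod hI) (prod_mono hKW hIT))

end Pool.TIW
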