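import Pool.Agent.Work.MP_a1f430_wb.Interface2
import Pool.Agent.Work.MP_a1f430_wb.B_BIT

/-! # Block SSL: slices of a system (MP_a1f430, THEOREM FT) -/

set_option autoImplicit false

namespace Pool.TIW

open Pool.TIA
open MeasureTheory Set Filter Topology
open scoped ContDiff ENNReal

/-! ## Slices -/

section slices

variable {V : Type} [NormedAddCommGroup V] [NormedSpace ℝ V] [FiniteDimensional ℝ V]
  [MeasureSpace V] [BorelSpace V] [(volume : Measure V).IsAddHaarMeasure]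

/-- Slices of a product measure. -/
theorem SSL_prod (K : Set V) (I : Set ℝ) :
    (volume : Measure (V × ℝ)).restrict (K ×ˢ I) =
      (volume.restrict K).prod (volume.restrict I) := by
  rw [Measure.volume_eq_prod, Measure.prod_restrict]

theorem SSL_ae0 (K : Set V) (I : Set ℝ) {P : V × ℝ → Prop}
    (h : ∀ᵐ p ∂(volume.restrict (K ×ˢ I)), P p) :
    ∀ᵐ t ∂(volume.restrict I), ∀ᵐ y ∂(volume.restrict K), P (y, t) := by
  rw [SSL_prod] at h
  have h1 : ∀ᵐ q ∂((volume.restrict I : Measure ℝ).prod (volume.restrict K : Measure V)),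
      P q.swap :=
    (Measure.measurePreserving_swap (μ := (volume.restrict I : Measure ℝ))
      (ν := (volume.restrict K : Measure V))).quasiMeasurePreserving.ae h
  exact Measure.ae_ae_of_ae_prod h1

theorem SSL_memLp {X : Type} [NormedAddCommGroup X] (K : Set V) (I : Set ℝ) {f : V × ℝ → X}
    (h : MemLp f 2 (volume.restrict (K ×ˢ I))) :
    ∀ᵐ t ∂(volume.restrict I), MemLp (fun y => f (y, t)) 2 (volume.restrict K) := by
  rw [SSL_prod] at h
  have h1 : AEStronglyMeasurable (fun q : ℝ × V => f q.swap)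
      ((volume.restrict I : Measure ℝ).prod (volume.restrict K : Measure V)) :=
    h.aestronglyMeasurable.prod_swap
  have h2 := h1.prodMk_left
  have h3 := (memLp_two_iff_integrable_sq_norm h.aestronglyMeasurable).1 h
  have h4 := h3.prod_left_ae
  filter_upwards [h2, h4] with t ht ht'
  exact (memLp_two_iff_integrable_sq_norm ht).2 ht'

/-- Almost all slices of a function in `L²_loc` are in `L²_loc`. -/
theorem SSL_L2 {X : Type} [NormedAddCommGroup X] {W₁ : Set V} {a b : ℝ} (hW : IsOpen W₁)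
    {f : V × ℝ → X} (h : L2loc (W₁ ×ˢ Ioo a b) f) :
    ∀ᵐ t ∂(volume.restrict (Ioo a b)), L2loc W₁ (fun y => f (y, t)) := by
  have hlc : LocallyCompactSpace W₁ := hW.locallyCompactSpace
  let e : CompactExhaustion W₁ := CompactExhaustion.choice W₁
  have hK : ∀ n : ℕ, IsCompact ((Subtype.val : W₁ → V) '' e n) := fun n =>
    (e.isCompact n).image continuous_subtype_val
  have hKW : ∀ n : ℕ, (Subtype.val : W₁ → V) '' e n ⊆ W₁ := by
    rintro n _ ⟨y, -, rfl⟩
    exact y.2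
  have hI : ∀ n : ℕ, Icc (a + 1 / ((n : ℝ) + 1)) (b - 1 / ((n : ℝ) + 1)) ⊆ Ioo a b := by
    intro n t ht
    have : (0 : ℝ) < 1 / ((n : ℝ) + 1) := by positivity
    exact ⟨by linarith [ht.1], by linarith [ht.2]⟩
  have h1 : ∀ n : ℕ, ∀ᵐ t : ℝ, t ∈ Icc (a + 1 / ((n : ℝ) + 1)) (b - 1 / ((n : ℝ) + 1)) →
      MemLp (fun y => f (y, t)) 2 (volume.restrict ((Subtype.val : W₁ → V) '' e n)) := by
    intro n
    rw [← ae_restrict_iff' measurableSet_Icc]
    exact SSL_memLp _ _ (h _ ((hK n).prod isCompact_Icc) (prod_mono (hKW n) (hI n)))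
  rw [ae_restrict_iff' measurableSet_Ioo]
  filter_upwards [ae_all_iff.2 h1] with t ht htI
  intro K hKc hKs
  obtain ⟨m, hm⟩ : ∃ m, K ⊆ (Subtype.val : W₁ → V) '' e m := by
    have hc : IsCompact ((Subtype.val : W₁ → V) ⁻¹' K) := by
      rw [Subtype.isCompact_iff, Subtype.image_preimage_coe, inter_eq_right.2 hKs]
      exact hKc
    obtain ⟨m, hm⟩ := e.exists_superset_of_isCompact hc
    exact ⟨m, fun y hy => ⟨⟨y, hKs hy⟩, hm hy, rfl⟩⟩
  obtain ⟨n, hn⟩ : ∃ n : ℕ, t ∈ Icc (a + 1 / ((n : ℝ) + 1)) (b - 1 / ((n : ℝ) + 1)) ∧ m ≤ n := by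
    obtain ⟨n₁, hn₁⟩ := exists_nat_one_div_lt (show 0 < t - a by linarith [htI.1])
    obtain ⟨n₂, hn₂⟩ := exists_nat_one_div_lt (show 0 < b - t by linarith [htI.2])
    refine ⟨max m (max n₁ n₂), ⟨?_, ?_⟩, le_max_left _ _⟩
    · have h3 : (1 : ℝ) / (((max m (max n₁ n₂) : ℕ) : ℝ) + 1) ≤ 1 / ((n₁ : ℝ) + 1) := by
        refine one_div_le_one_div_of_le (by positivity) ?_
        have : (n₁ : ℝ) ≤ ((max m (max n₁ n₂) : ℕ) : ℝ) := by
          exact_mod_cast (le_max_left n₁ n₂).trans (le_max_right m _)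
        linarith
      linarith
    · have h3 : (1 : ℝ) / (((max m (max n₁ n₂) : ℕ) : ℝ) + 1) ≤ 1 / ((n₂ : ℝ) + 1) := by
        refine one_div_le_one_div_of_le (by positivity) ?_
        have : (n₂ : ℝ) ≤ ((max m (max n₁ n₂) : ℕ) : ℝ) := by
          exact_mod_cast (le_max_right n₁ n₂).trans (le_max_right m _)
        linarith
      linarith
  refine (ht n hn.1).mono_measure (Measure.restrict_mono (hm.trans (image_mono ?_)) le_rfl)
  exact e.subset hn.2

end slices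

/-! ## Sums -/

theorem SSL_sum {α X κ : Type} [MeasureSpace α] [NormedAddCommGroup X] [NormedSpace ℝ X]
    [Fintype κ] (c : κ → ℝ) (g : κ → α → X) (hg : ∀ k, Integrable (g k)) (G : α → X)
    (hG : ∀ y, G y = ∑ k, c k • g k y) : ∫ y, G y = ∑ k, c k • ∫ y, g k y := by
  have h1 : ∫ y, G y = ∫ y, ∑ k, c k • g k y := integral_congr_ae (Eventually.of_forall hG)
  rw [h1, integral_finset_sum Finset.univ (f := fun k y => c k • g k y)
    fun k _ => (hg k).smul (c k)]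
  refine Finset.sum_congr rfl fun k _ => ?_
  rw [integral_smul]

section algebra

variable {V X : Type} [NormedAddCommGroup V] [NormedSpace ℝ V] [NormedAddCommGroup X]
  [NormedSpace ℝ X] {κ : Type} [Fintype κ] (b : Module.Basis κ ℝ V)

theorem SSL_lin (G : V →ₗ[ℝ] X) (v : V) : G v = ∑ k, b.coord k v • G (b k) := by
  conv_lhs => rw [← b.sum_repr v]
  rw [map_sum]
  exact Finset.sum_congr rfl fun k _ => by rw [map_smul]; rfl

theorem SSL_bil (G : V →ₗ[ℝ] V →ₗ[ℝ] X) (u v : V) :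
    G u v = ∑ k : κ × κ, (b.coord k.1 u * b.coord k.2 v) • G (b k.1) (b k.2) := by
  rw [Fintype.sum_prod_type]
  conv_lhs => rw [← b.sum_repr u, ← b.sum_repr v]
  rw [map_sum G, LinearMap.sum_apply]
  refine Finset.sum_congr rfl fun i _ => ?_
  rw [map_sum]
  refine Finset.sum_congr rfl fun k _ => ?_
  rw [map_smul, map_smul, LinearMap.smul_apply, smul_smul, mul_comm]
  rfl

end algebra

section forms

variable {V 𝔐 : Type} [NormedAddCommGroup V] [NormedSpace ℝ V] [NormedRing 𝔐]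
  [NormedAlgebra ℝ 𝔐]

omit [NormedAddCommGroup V] [NormedSpace ℝ V] in
theorem SSL_u0 (a b c : V) : Function.update ![a, b] 0 c = ![c, b] := by
  funext i
  fin_cases i <;> rfl

omit [NormedAddCommGroup V] [NormedSpace ℝ V] in
theorem SSL_u1 (a b c : V) : Function.update ![a, b] 1 c = ![a, c] := by
  funext i
  fin_cases i <;> rfl

theorem SSL_add0 (F : V [⋀^Fin 2]→L[ℝ] 𝔐) (a a' b : V) :
    F ![a + a', b] = F ![a, b] + F ![a', b] := by
  have h := F.map_update_add ![0, b] 0 a a'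
  rwa [SSL_u0, SSL_u0, SSL_u0] at h

theorem SSL_smul0 (F : V [⋀^Fin 2]→L[ℝ] 𝔐) (c : ℝ) (a b : V) :
    F ![c • a, b] = c • F ![a, b] := by
  have h := F.map_update_smul ![0, b] 0 c a
  rwa [SSL_u0, SSL_u0] at h

theorem SSL_add1 (F : V [⋀^Fin 2]→L[ℝ] 𝔐) (a b b' : V) :
    F ![a, b + b'] = F ![a, b] + F ![a, b'] := by
  have h := F.map_update_add ![a, 0] 1 b b'
  rwa [SSL_u1, SSL_u1, SSL_u1] at h

theorem SSL_smul1 (F : V [⋀^Fin 2]→L[ℝ] 𝔐) (c : ℝ) (a b : V) :
    F ![a, c • b] = c • F ![a, b] := by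
  have h := F.map_update_smul ![a, 0] 1 c b
  rwa [SSL_u1, SSL_u1] at h

/-- `F u v` as a bilinear map -/
noncomputable def SSL_G1 (F : V [⋀^Fin 2]→L[ℝ] 𝔐) : V →ₗ[ℝ] V →ₗ[ℝ] 𝔐 :=
  LinearMap.mk₂ ℝ (fun u v => F ![u, v]) (SSL_add0 F) (SSL_smul0 F) (SSL_add1 F)
    (SSL_smul1 F)

/-- `A u A v - A v A u` as a bilinear map -/
noncomputable def SSL_G2 (A : V →L[ℝ] 𝔐) : V →ₗ[ℝ] V →ₗ[ℝ] 𝔐 :=
  LinearMap.mk₂ ℝ (fun u v => A u * A v - A v * A u)
    (fun m m' n => by simp only [map_add, add_mul, mul_add]; abel)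
    (fun c m n => by simp only [map_smul, smul_mul_assoc, mul_smul_comm, smul_sub])
    (fun m n n' => by simp only [map_add, add_mul, mul_add]; abel)
    (fun c m n => by simp only [map_smul, smul_mul_assoc, mul_smul_comm, smul_sub])

/-- `l u A v - l v A u` as a bilinear map -/
noncomputable def SSL_G3 (l : V →L[ℝ] ℝ) (A : V →L[ℝ] 𝔐) : V →ₗ[ℝ] V →ₗ[ℝ] 𝔐 :=
  LinearMap.mk₂ ℝ (fun u v => l u • A v - l v • A u)
    (fun m m' n => by simp only [map_add, add_smul, smul_add]; abel)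
    (fun c m n => by
      simp only [map_smul, smul_sub, smul_eq_mul, mul_smul]
      rw [smul_comm (l n) c])
    (fun m n n' => by simp only [map_add, add_smul, smul_add]; abel)
    (fun c m n => by
      simp only [map_smul, smul_sub, smul_eq_mul, mul_smul]
      rw [smul_comm (l m) c])

theorem SSL_inl (u v : V) :
    (fun i => ContinuousLinearMap.inl ℝ V ℝ ((![u, v] : Fin 2 → V) i)) =
      ![((u, 0) : V × ℝ), (v, 0)] := by
  funext i
  fin_cases i <;> simp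

theorem SSL_rs2 (F : V × ℝ → (V × ℝ) [⋀^Fin 2]→L[ℝ] 𝔐) (t : ℝ) (y u v : V) :
    rs2 F t y ![u, v] = F (y, t) ![(u, 0), (v, 0)] := by
  rw [rs2, ContinuousAlternatingMap.compContinuousLinearMap_apply]
  exact congrArg (F (y, t)) (SSL_inl u v)

/-- `v ↦ [A v, z] - ∑ Γ v Z` as a linear map -/
noncomputable def SSL_G4 {ι : Type} [Fintype ι] (A : V →L[ℝ] 𝔐) (z : 𝔐) (Γ : ι → V →L[ℝ] ℝ)
    (Z : ι → 𝔐) : V →ₗ[ℝ] 𝔐 where
  toFun v := (A v * z - z * A v) - ∑ j, Γ j v • Z j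
  map_add' u v := by
    simp only [map_add, add_mul, mul_add, add_smul, Finset.sum_add_distrib]
    abel
  map_smul' c v := by
    simp only [map_smul, smul_mul_assoc, mul_smul_comm, smul_eq_mul, mul_smul, RingHom.id_apply,
      smul_sub, Finset.smul_sum]

end forms

section main

variable {𝔐 : Type} [NormedRing 𝔐] [NormedAlgebra ℝ 𝔐] [StarRing 𝔐] [CStarRing 𝔐]
  [StarModule ℝ 𝔐] [FiniteDimensional ℝ 𝔐] {𝒢 : LieG 𝔐} {V : Type} [NormedAddCommGroup V]
  [NormedSpace ℝ V] [FiniteDimensional ℝ V] [MeasureSpace V] [BorelSpace V]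
  [(volume : Measure V).IsAddHaarMeasure] {W₁ : Set V} {a b : ℝ} {A : V × ℝ → V × ℝ →L[ℝ] 𝔐}
  {F : V × ℝ → (V × ℝ) [⋀^Fin 2]→L[ℝ] 𝔐} {ι : Type} [Fintype ι] {Z : ι → V × ℝ → 𝔐}
  {Γ : ι → ι → V × ℝ → V × ℝ →L[ℝ] ℝ} {ρ : ι → V × ℝ → (V × ℝ) [⋀^Fin 2]→L[ℝ] ℝ}

/-- The slices of the equations. -/
theorem SSL_eq (hGSL : Stmt_GSL) (hW : IsOpen W₁) (hab : a < b)
    (S : Sys 𝒢 (W₁ ×ˢ Ioo a b) A F Z Γ ρ) (i : ι) (w : V) :
    ∀ᵐ t ∂(volume.restrict (Ioo a b)), (L1loc W₁ fun y =>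
      (A (y, t) (w, 0) * Z i (y, t) - Z i (y, t) * A (y, t) (w, 0)) -
        ∑ j, Γ i j (y, t) (w, 0) • Z j (y, t)) ∧
      ∀ φ : V → ℝ, Test W₁ φ → ∫ y, fderiv ℝ φ y w • Z i (y, t) =
        ∫ y, φ y • ((A (y, t) (w, 0) * Z i (y, t) - Z i (y, t) * A (y, t) (w, 0)) -
          ∑ j, Γ i j (y, t) (w, 0) • Z j (y, t)) := by
  have hR : L1loc (W₁ ×ˢ Ioo a b) (fun p => (A p (w, 0) * Z i p - Z i p * A p (w, 0)) -
      ∑ j, Γ i j p (w, 0) • Z j p) := by
    intro K hK hKW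
    have h1 := BIT_mul (BIT_evA S.conn.A2 (w, 0)) (S.Z2 i) K hK hKW
    have h2 := BIT_mul (S.Z2 i) (BIT_evA S.conn.A2 (w, 0)) K hK hKW
    have h3 : IntegrableOn (fun p => ∑ j, Γ i j p (w, 0) • Z j p) K volume := by
      refine integrable_finset_sum _ fun j _ => ?_
      exact (BIT_L1 (S.Z2 j) K hK hKW).continuousOn_smul
        (((S.sΓ i j).continuousOn.mono hKW).clm_apply continuousOn_const) hK
    exact (h1.sub h2).sub h3
  have h := hGSL V 𝔐 W₁ a b 1 ![w] ![Z i] _ hW hab (fun k => by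
    fin_cases k
    exact BIT_L1 (S.Z2 i)) hR (fun φ hφ => by
      have h1 := S.eq i (w, 0) φ hφ
      simp only [Fin.sum_univ_one] at h1 ⊢
      exact h1)
  filter_upwards [h] with t ht
  refine ⟨ht.2.1, fun φ hφ => ?_⟩
  have h2 := ht.2.2 φ hφ
  simp only [Fin.sum_univ_one] at h2
  exact h2

/-- The slices of the curvature equation. -/
theorem SSL_curv (hGSL : Stmt_GSL) (hW : IsOpen W₁) (hab : a < b)
    (S : Sys 𝒢 (W₁ ×ˢ Ioo a b) A F Z Γ ρ) (u w : V) :
    ∀ᵐ t ∂(volume.restrict (Ioo a b)), ∀ φ : V → ℝ, Test W₁ φ →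
      ∫ y, (fderiv ℝ φ y u • A (y, t) (w, 0) - fderiv ℝ φ y w • A (y, t) (u, 0)) =
        ∫ y, φ y • ((A (y, t) (u, 0) * A (y, t) (w, 0) - A (y, t) (w, 0) * A (y, t) (u, 0)) -
          F (y, t) ![(u, 0), (w, 0)]) := by
  have hAu := BIT_evA S.conn.A2 (u, 0)
  have hAw := BIT_evA S.conn.A2 (w, 0)
  have hFw := BIT_evF S.conn.F2 ![((u, 0) : V × ℝ), (w, 0)]
  have hR : L1loc (W₁ ×ˢ Ioo a b) (fun p => (A p (u, 0) * A p (w, 0) - A p (w, 0) * A p (u, 0)) -
      F p ![(u, 0), (w, 0)]) := by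
    intro K hK hKW
    exact ((BIT_mul hAu hAw K hK hKW).sub (BIT_mul hAw hAu K hK hKW)).sub
      (BIT_L1 hFw K hK hKW)
  have h := hGSL V 𝔐 W₁ a b 2 ![u, w] ![fun p => A p (w, 0), fun p => -A p (u, 0)] _ hW hab
    (fun k => by
      fin_cases k
      · exact BIT_L1 hAw
      · exact fun K hK hKW => (BIT_L1 hAu K hK hKW).neg) hR (fun φ hφ => by
      have h1 := S.conn.curv φ hφ (u, 0) (w, 0)
      have i1 : Integrable (fun p => φ p • (A p (u, 0) * A p (w, 0) - A p (w, 0) * A p (u, 0))) :=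
        BIT_int hφ fun K hK hKW => (BIT_mul hAu hAw K hK hKW).sub (BIT_mul hAw hAu K hK hKW)
      have i2 : Integrable (fun p => φ p • F p ![(u, 0), (w, 0)]) := BIT_int hφ (BIT_L1 hFw)
      have e1 : ∫ p, φ p • ((A p (u, 0) * A p (w, 0) - A p (w, 0) * A p (u, 0)) -
          F p ![(u, 0), (w, 0)]) =
          (∫ p, φ p • (A p (u, 0) * A p (w, 0) - A p (w, 0) * A p (u, 0))) -
            ∫ p, φ p • F p ![(u, 0), (w, 0)] := by
        rw [← integral_sub i1 i2]
        exact integral_congr_ae (Eventually.of_forall fun p => by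
          beta_reduce
          rw [smul_sub (φ p) (A p (u, 0) * A p (w, 0) - A p (w, 0) * A p (u, 0))])
      have e2 : ∫ p, ∑ k : Fin 2, fderiv ℝ φ p ((![u, w] : Fin 2 → V) k, 0) •
          (![fun p => A p (w, 0), fun p => -A p (u, 0)] : Fin 2 → V × ℝ → 𝔐) k p =
          ∫ p, (fderiv ℝ φ p (u, 0) • A p (w, 0) - fderiv ℝ φ p (w, 0) • A p (u, 0)) := by
        refine integral_congr_ae (Eventually.of_forall fun p => ?_)
        beta_reduce
        rw [Fin.sum_univ_two, sub_eq_add_neg, ← smul_neg]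
        rfl
      rw [e2, e1, h1]
      abel)
  filter_upwards [h] with t ht φ hφ
  have h2 := ht.2.2 φ hφ
  rw [← h2]
  refine integral_congr_ae (Eventually.of_forall fun p => ?_)
  beta_reduce
  rw [Fin.sum_univ_two, sub_eq_add_neg, ← smul_neg]
  rfl

end main

theorem p_SSL (hGSL : Stmt_GSL) : Stmt_SSL := by
  intro 𝔐 _ _ _ _ _ _ 𝒢 V _ _ _ _ _ _ W₁ a b A F ι _ Z Γ ρ hW hab S
  let B := Module.finBasis ℝ V
  have h1 := SSL_L2 hW S.conn.A2
  have h2 := SSL_L2 hW S.conn.F2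
  have h3 : ∀ᵐ t ∂(volume.restrict (Ioo a b)), ∀ i, L2loc W₁ (fun y => Z i (y, t)) :=
    ae_all_iff.2 fun i => SSL_L2 hW (S.Z2 i)
  have h4 := SSL_ae0 W₁ (Ioo a b) S.conn.lie
  have h5 := SSL_ae0 W₁ (Ioo a b) S.cur
  have h6 := ae_all_iff.2 fun i => ae_all_iff.2 fun k => SSL_eq hGSL hW hab S i (B k)
  have h7 := ae_all_iff.2 fun k => ae_all_iff.2 fun l => SSL_curv hGSL hW hab S (B k) (B l)
  filter_upwards [h1, h2, h3, h4, h5, h6, h7, ae_restrict_mem measurableSet_Ioo] with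
    t hA hF hZ hlie hcur heq hcurv htI
  -- the slices of `A` and `F`
  have hA' : L2loc W₁ (rs1 A t) := fun K hK hKW =>
    ((ContinuousLinearMap.compL ℝ V (V × ℝ) 𝔐).flip
      (ContinuousLinearMap.inl ℝ V ℝ)).comp_memLp' (hA K hK hKW)
  have hF' : L2loc W₁ (rs2 F t) := fun K hK hKW =>
    (ContinuousAlternatingMap.compContinuousLinearMapCLM (F := 𝔐) (ι := Fin 2)
      (ContinuousLinearMap.inl ℝ V ℝ)).comp_memLp' (hF K hK hKW)
  have hev : ∀ w : V, L2loc W₁ (fun y => rs1 A t y w) := fun w => BIT_evA hA' w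
  have hmap : MapsTo (fun y : V => (y, t)) W₁ (W₁ ×ˢ Ioo a b) := fun y hy => ⟨hy, htI⟩
  have hsm : ContDiffOn ℝ ∞ (fun y : V => (y, t)) W₁ :=
    (contDiff_id.prodMk contDiff_const).contDiffOn
  refine ⟨hW, ⟨hA', hF', ?_, ?_⟩, hZ, fun i j => ?_, fun j => ?_, fun i v φ hφ => ?_, ?_⟩
  · filter_upwards [hlie] with y hy v
    exact hy (v, 0)
  · intro φ hφ u v
    have j1 : ∀ k : Fin (Module.finrank ℝ V) × Fin (Module.finrank ℝ V),
        Integrable (fun y => φ y • SSL_G1 (rs2 F t y) (B k.1) (B k.2)) := fun k =>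
      BIT_int hφ (BIT_L1 (BIT_evF hF' ![B k.1, B k.2]))
    have j2 : ∀ k : Fin (Module.finrank ℝ V) × Fin (Module.finrank ℝ V),
        Integrable (fun y => φ y • SSL_G2 (rs1 A t y) (B k.1) (B k.2)) := fun k =>
      BIT_int hφ fun K hK hKW => (BIT_mul (hev (B k.1)) (hev (B k.2)) K hK hKW).sub
        (BIT_mul (hev (B k.2)) (hev (B k.1)) K hK hKW)
    have j3 : ∀ k : Fin (Module.finrank ℝ V) × Fin (Module.finrank ℝ V),
        Integrable (fun y => SSL_G3 (fderiv ℝ φ y) (rs1 A t y) (B k.1) (B k.2)) := fun k =>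
      (BIT_int (BIT_test hφ (B k.1)) (BIT_L1 (hev (B k.2)))).sub
        (BIT_int (BIT_test hφ (B k.2)) (BIT_L1 (hev (B k.1))))
    have s1 : ∫ y, φ y • rs2 F t y ![u, v] = _ :=
      SSL_sum (fun k : Fin (Module.finrank ℝ V) × Fin (Module.finrank ℝ V) =>
        B.coord k.1 u * B.coord k.2 v) _ j1 _ fun y => by
          have := SSL_bil B (SSL_G1 (rs2 F t y)) u v
          show φ y • SSL_G1 (rs2 F t y) u v = _
          rw [this, Finset.smul_sum]
          exact Finset.sum_congr rfl fun k _ => smul_comm _ _ _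
    have s2 : ∫ y, φ y • (rs1 A t y u * rs1 A t y v - rs1 A t y v * rs1 A t y u) = _ :=
      SSL_sum (fun k : Fin (Module.finrank ℝ V) × Fin (Module.finrank ℝ V) =>
        B.coord k.1 u * B.coord k.2 v) _ j2 _ fun y => by
          have := SSL_bil B (SSL_G2 (rs1 A t y)) u v
          show φ y • SSL_G2 (rs1 A t y) u v = _
          rw [this, Finset.smul_sum]
          exact Finset.sum_congr rfl fun k _ => smul_comm _ _ _
    have s3 : ∫ y, (fderiv ℝ φ y u • rs1 A t y v - fderiv ℝ φ y v • rs1 A t y u) = _ :=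
      SSL_sum (fun k : Fin (Module.finrank ℝ V) × Fin (Module.finrank ℝ V) =>
        B.coord k.1 u * B.coord k.2 v) _ j3 _ fun y =>
          SSL_bil B (SSL_G3 (fderiv ℝ φ y) (rs1 A t y)) u v
    rw [s1, s2, s3, ← Finset.sum_neg_distrib, ← Finset.sum_add_distrib]
    refine Finset.sum_congr rfl fun k _ => ?_
    have e1 : ∫ y, SSL_G3 (fderiv ℝ φ y) (rs1 A t y) (B k.1) (B k.2) =
        (∫ y, φ y • SSL_G2 (rs1 A t y) (B k.1) (B k.2)) -
          ∫ y, φ y • SSL_G1 (rs2 F t y) (B k.1) (B k.2) := by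
      rw [← integral_sub (j2 k) (j1 k)]
      refine (hcurv k.1 k.2 φ hφ).trans ?_
      refine integral_congr_ae (Eventually.of_forall fun y => ?_)
      beta_reduce
      rw [← smul_sub, ← SSL_rs2 F t y (B k.1) (B k.2)]
      rfl
    rw [e1, smul_sub]
    abel
  · exact ((ContinuousLinearMap.compL ℝ V (V × ℝ) ℝ).flip
      (ContinuousLinearMap.inl ℝ V ℝ)).contDiff.comp_contDiffOn ((S.sΓ i j).comp hsm hmap)
  · exact (ContinuousAlternatingMap.compContinuousLinearMapCLM (F := ℝ) (ι := Fin 2)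
      (ContinuousLinearMap.inl ℝ V ℝ)).contDiff.comp_contDiffOn ((S.sρ j).comp hsm hmap)
  · simp only [Fin.sum_univ_one]
    show ∫ y, fderiv ℝ φ y v • Z i (y, t) = ∫ y, φ y • SSL_G4 (rs1 A t y) (Z i (y, t))
      (fun j => (Γ i j (y, t)).comp (ContinuousLinearMap.inl ℝ V ℝ)) (fun j => Z j (y, t)) v
    have j1 : ∀ k : Fin (Module.finrank ℝ V),
        Integrable (fun y => fderiv ℝ φ y (B k) • Z i (y, t)) := fun k =>
      BIT_int (BIT_test hφ (B k)) (BIT_L1 (hZ i))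
    have j2 : ∀ k : Fin (Module.finrank ℝ V),
        Integrable (fun y => φ y • SSL_G4 (rs1 A t y) (Z i (y, t))
          (fun j => (Γ i j (y, t)).comp (ContinuousLinearMap.inl ℝ V ℝ))
          (fun j => Z j (y, t)) (B k)) := fun k => BIT_int hφ (heq i k).1
    have s1 : ∫ y, fderiv ℝ φ y v • Z i (y, t) = _ :=
      SSL_sum (fun k : Fin (Module.finrank ℝ V) => B.coord k v) _ j1 _ fun y => by
        have h := SSL_lin B (fderiv ℝ φ y : V →ₗ[ℝ] ℝ) v
        show (fderiv ℝ φ y : V →ₗ[ℝ] ℝ) v • Z i (y, t) = _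
        rw [h, Finset.sum_smul]
        exact Finset.sum_congr rfl fun k _ => by rw [smul_assoc]; rfl
    have s2 := SSL_sum (fun k : Fin (Module.finrank ℝ V) => B.coord k v) _ j2
      (fun y => φ y • SSL_G4 (rs1 A t y) (Z i (y, t))
          (fun j => (Γ i j (y, t)).comp (ContinuousLinearMap.inl ℝ V ℝ))
          (fun j => Z j (y, t)) v) fun y => by
        rw [SSL_lin B, Finset.smul_sum]
        exact Finset.sum_congr rfl fun k _ => smul_comm _ _ _
    rw [s1, s2]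
    exact Finset.sum_congr rfl fun k _ => congrArg _ ((heq i k).2 φ hφ)
  · filter_upwards [hcur] with y hy u v
    rw [SSL_rs2, hy]
    refine Finset.sum_congr rfl fun j _ => ?_
    rw [ContinuousAlternatingMap.compContinuousLinearMap_apply]
    exact congrArg (fun z => z • Z j (y, t)) (congrArg (ρ j (y, t)) (SSL_inl u v)).symm

end Pool.TIW
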