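import Pool.Agent.Work.MP_a1f430_wb.Interface3
import Pool.Agent.Work.MP_a1f430_wb.B_SSL
import Pool.Agent.Work.MP_a1f430_wb.B_SL2

/-! # Block CSL: slices of connections (MP_a1f430, helper71; adapted from `B_SSL`) -/

set_option autoImplicit false

namespace Pool.TIW

open Pool.TIA
open MeasureTheory Set Filter Topology
open scoped ContDiff ENNReal

section main

variable {𝔐 : Type} [NormedRing 𝔐] [NormedAlgebra ℝ 𝔐] [StarRing 𝔐] [CStarRing 𝔐]
  [StarModule ℝ 𝔐] [FiniteDimensional ℝ 𝔐] {𝒢 : LieG 𝔐} {V : Type} [NormedAddCommGroup V]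
  [NormedSpace ℝ V] [FiniteDimensional ℝ V] [MeasureSpace V] [BorelSpace V]
  [(volume : Measure V).IsAddHaarMeasure] {T : Type} [NormedAddCommGroup T]
  [NormedSpace ℝ T] [FiniteDimensional ℝ T] [MeasureSpace T] [BorelSpace T]
  [(volume : Measure T).IsAddHaarMeasure] {W₁ : Set V} {T₁ : Set T} {A : V × T → V × T →L[ℝ] 𝔐}
  {F : V × T → (V × T) [⋀^Fin 2]→L[ℝ] 𝔐}

/-- The slices of the curvature equation. -/
theorem CSL_curv (hGST : Stmt_GST) (hW : IsOpen W₁) (hT : IsOpen T₁)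
    (S : Conn 𝒢 (W₁ ×ˢ T₁) A F) (u w : V) :
    ∀ᵐ t ∂(volume.restrict T₁), ∀ φ : V → ℝ, Test W₁ φ →
      ∫ y, (fderiv ℝ φ y u • A (y, t) (w, 0) - fderiv ℝ φ y w • A (y, t) (u, 0)) =
        ∫ y, φ y • ((A (y, t) (u, 0) * A (y, t) (w, 0) - A (y, t) (w, 0) * A (y, t) (u, 0)) -
          F (y, t) ![(u, 0), (w, 0)]) := by
  have hAu := BIT_evA S.A2 (u, 0)
  have hAw := BIT_evA S.A2 (w, 0)
  have hFw := BIT_evF S.F2 ![((u, 0) : V × T), (w, 0)]
  have hR : L1loc (W₁ ×ˢ T₁) (fun p => (A p (u, 0) * A p (w, 0) - A p (w, 0) * A p (u, 0)) -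
      F p ![(u, 0), (w, 0)]) := by
    intro K hK hKW
    exact ((BIT_mul hAu hAw K hK hKW).sub (BIT_mul hAw hAu K hK hKW)).sub
      (BIT_L1 hFw K hK hKW)
  have h := hGST V T 𝔐 W₁ T₁ 2 ![u, w] ![fun p => A p (w, 0), fun p => -A p (u, 0)] _ hW hT
    (fun k => by
      fin_cases k
      · exact BIT_L1 hAw
      · exact fun K hK hKW => (BIT_L1 hAu K hK hKW).neg) hR (fun φ hφ => by
      have h1 := S.curv φ hφ (u, 0) (w, 0)
      have i1 : Integrable (fun p => φ p • (A p (u, 0) * A p (w, 0) - A p (w, 0) * A p (u, 0))) :=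
        BIT_int hφ fun K hK hKW => (BIT_mul hAu hAw K hK hKW).sub (BIT_mul hAw hAu K hK hKW)
      have i2 : Integrable (fun p => φ p • F p ![(u, 0), (w, 0)]) := BIT_int hφ (BIT_L1 hFw)
      have e1 : ∫ p, φ p • ((A p (u, 0) * A p (w, 0) - A p (w, 0) * A p (u, 0)) -
          F p ![(u, 0), (w, 0)]) =
          (∫ p, φ p • (A p (u, 0) * A p (w, 0) - A p (w, 0) * A p (u, 0))) -
            ∫ p, φ p • F p ![(u, 0), (w, 0)] := by
        rw [← integral_sub i1 i2]
        exact integral_congr_ae (Eventually.of_forall fun p => by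
          beta_reduce
          rw [smul_sub (φ p) (A p (u, 0) * A p (w, 0) - A p (w, 0) * A p (u, 0))])
      have e2 : ∫ p, ∑ k : Fin 2, fderiv ℝ φ p ((![u, w] : Fin 2 → V) k, 0) •
          (![fun p => A p (w, 0), fun p => -A p (u, 0)] : Fin 2 → V × T → 𝔐) k p =
          ∫ p, (fderiv ℝ φ p (u, 0) • A p (w, 0) - fderiv ℝ φ p (w, 0) • A p (u, 0)) := by
        refine integral_congr_ae (Eventually.of_forall fun p => ?_)
        beta_reduce
        rw [Fin.sum_univ_two, sub_eq_add_neg, ← smul_neg]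
        rfl
      rw [e2, e1, h1]
      abel)
  filter_upwards [h] with t ht φ hφ
  have h2 := ht.2.2 φ hφ
  rw [← h2]
  refine integral_congr_ae (Eventually.of_forall fun p => ?_)
  beta_reduce
  rw [Fin.sum_univ_two, sub_eq_add_neg, ← smul_neg]
  rfl

end main

theorem p_CSL (hSL2 : Stmt_SL2) (hGST : Stmt_GST) : Stmt_CSL := by
  intro 𝔐 _ _ _ _ _ _ 𝒢 V T _ _ _ _ _ _ _ _ _ _ _ _ W₁ T₁ A F hW hT S
  let B := Module.finBasis ℝ V
  have h1 := (hSL2 V T _ W₁ T₁ A hW hT S.A2).1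
  have h2 : ∀ᵐ t ∂(volume.restrict T₁), L2loc W₁ (fun y => F (y, t)) :=
    SL2_gen hW hT fun K I hK hI hKW hIT =>
      SL2_memLp K I (S.F2 _ (hK.prod hI) (prod_mono hKW hIT))
  have h4 := SL2_ae0 W₁ T₁ S.lie
  have h7 := ae_all_iff.2 fun k => ae_all_iff.2 fun l => CSL_curv hGST hW hT S (B k) (B l)
  filter_upwards [h1, h2, h4, h7] with t hA hF hlie hcurv
  -- the slices of `A` and `F`
  have hA' : L2loc W₁ (rc1 A t) := fun K hK hKW =>
    ((ContinuousLinearMap.compL ℝ V (V × T) 𝔐).flip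
      (ContinuousLinearMap.inl ℝ V T)).comp_memLp' (hA K hK hKW)
  have hF' : L2loc W₁ (rc2 F t) := fun K hK hKW =>
    (ContinuousAlternatingMap.compContinuousLinearMapCLM (F := 𝔐) (ι := Fin 2)
      (ContinuousLinearMap.inl ℝ V T)).comp_memLp' (hF K hK hKW)
  have hev : ∀ w : V, L2loc W₁ (fun y => rc1 A t y w) := fun w => BIT_evA hA' w
  refine ⟨hA', hF', ?_, ?_⟩
  · filter_upwards [hlie] with y hy v
    exact hy (v, 0)
  · intro φ hφ u v
    have j1 : ∀ k : Fin (Module.finrank ℝ V) × Fin (Module.finrank ℝ V),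
        Integrable (fun y => φ y • SSL_G1 (rc2 F t y) (B k.1) (B k.2)) := fun k =>
      BIT_int hφ (BIT_L1 (BIT_evF hF' ![B k.1, B k.2]))
    have j2 : ∀ k : Fin (Module.finrank ℝ V) × Fin (Module.finrank ℝ V),
        Integrable (fun y => φ y • SSL_G2 (rc1 A t y) (B k.1) (B k.2)) := fun k =>
      BIT_int hφ fun K hK hKW => (BIT_mul (hev (B k.1)) (hev (B k.2)) K hK hKW).sub
        (BIT_mul (hev (B k.2)) (hev (B k.1)) K hK hKW)
    have j3 : ∀ k : Fin (Module.finrank ℝ V) × Fin (Module.finrank ℝ V),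
        Integrable (fun y => SSL_G3 (fderiv ℝ φ y) (rc1 A t y) (B k.1) (B k.2)) := fun k =>
      (BIT_int (BIT_test hφ (B k.1)) (BIT_L1 (hev (B k.2)))).sub
        (BIT_int (BIT_test hφ (B k.2)) (BIT_L1 (hev (B k.1))))
    have s1 : ∫ y, φ y • rc2 F t y ![u, v] = _ :=
      SSL_sum (fun k : Fin (Module.finrank ℝ V) × Fin (Module.finrank ℝ V) =>
        B.coord k.1 u * B.coord k.2 v) _ j1 _ fun y => by
          have := SSL_bil B (SSL_G1 (rc2 F t y)) u v
          show φ y • SSL_G1 (rc2 F t y) u v = _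
          rw [this, Finset.smul_sum]
          exact Finset.sum_congr rfl fun k _ => smul_comm _ _ _
    have s2 : ∫ y, φ y • (rc1 A t y u * rc1 A t y v - rc1 A t y v * rc1 A t y u) = _ :=
      SSL_sum (fun k : Fin (Module.finrank ℝ V) × Fin (Module.finrank ℝ V) =>
        B.coord k.1 u * B.coord k.2 v) _ j2 _ fun y => by
          have := SSL_bil B (SSL_G2 (rc1 A t y)) u v
          show φ y • SSL_G2 (rc1 A t y) u v = _
          rw [this, Finset.smul_sum]
          exact Finset.sum_congr rfl fun k _ => smul_comm _ _ _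
    have s3 : ∫ y, (fderiv ℝ φ y u • rc1 A t y v - fderiv ℝ φ y v • rc1 A t y u) = _ :=
      SSL_sum (fun k : Fin (Module.finrank ℝ V) × Fin (Module.finrank ℝ V) =>
        B.coord k.1 u * B.coord k.2 v) _ j3 _ fun y =>
          SSL_bil B (SSL_G3 (fderiv ℝ φ y) (rc1 A t y)) u v
    rw [s1, s2, s3, ← Finset.sum_neg_distrib, ← Finset.sum_add_distrib]
    refine Finset.sum_congr rfl fun k _ => ?_
    have e1 : ∫ y, SSL_G3 (fderiv ℝ φ y) (rc1 A t y) (B k.1) (B k.2) =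
        (∫ y, φ y • SSL_G2 (rc1 A t y) (B k.1) (B k.2)) -
          ∫ y, φ y • SSL_G1 (rc2 F t y) (B k.1) (B k.2) := by
      rw [← integral_sub (j2 k) (j1 k)]
      refine (hcurv k.1 k.2 φ hφ).trans ?_
      refine integral_congr_ae (Eventually.of_forall fun y => ?_)
      beta_reduce
      rw [← smul_sub, ← rc2_apply F t y (B k.1) (B k.2)]
      rfl
    rw [e1, smul_sub]
    abel

end Pool.TIW
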