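import Pool.Agent.Work.MP_a1f430_wb.Interface3
import Pool.Agent.Work.MP_a1f430_ti.B_LFN

/-! # Block FJR: equations whose solutions are of type (2,0)+(0,2) (MP_a1f430, THEOREM J) -/

set_option autoImplicit false

namespace Pool.TIW

open Pool.TIA
open MeasureTheory Set Filter Topology
open scoped ContDiff ENNReal

theorem p_FJR (hINJ : Stmt_INJ) : Stmt_FJR := by
  intro 𝔐 _ _ _ _ _ _ 𝒢 m U h Ω A F J hW hJ hst x hx
  have h20 : J20 U J F := by
    filter_upwards [hW.star, ae_restrict_mem hW.op.measurableSet] with y hy hyU u v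
    rw [SeparatingDual.eq_iff_forall_dual_eq (R := ℝ)]
    intro l
    have h1 : StEq (stb (m + 4)) (h y) (Ω y) (l.compContinuousAlternatingMap (F y)) := by
      intro e he
      rw [LFN_wdg, hy e he]
      rfl
    have h2 := hst y hyU _ h1 u v
    rw [map_neg]
    exact h2
  obtain ⟨W₁, S, g, dg, hW₁, hxW₁, -, hGau, hS, hSl, -⟩ :=
    hINJ 𝔐 𝒢 (m + 4) J hJ U A F hW.op hW.conn h20 x hx
  refine ⟨W₁, S, hW₁, hxW₁, hS, hSl, g, dg, hGau.g2, hGau.dg2, hGau.wd, hGau.inG, ?_⟩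
  filter_upwards [hGau.inG, hGau.eq] with y hy1 hy2 v
  have h3 := (𝒢.unitary _ hy1).1
  rw [hy2 v, mul_sub, ← mul_assoc, h3, one_mul, ← mul_assoc, sub_add_cancel]

end Pool.TIW
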