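import Pool.Agent.Work.MP_a1f430_wb.Interface3

set_option autoImplicit false

namespace Pool.TIW

open Pool.TIA
open MeasureTheory Set Filter Topology

theorem FUB_gen {α β X : Type} [MeasurableSpace α] [MeasurableSpace β] [NormedAddCommGroup X]
    (μ : Measure α) (ν : Measure β) [SFinite μ] [SFinite ν] (f : α × β → X)
    (hf : AEStronglyMeasurable f (μ.prod ν)) :
    (∀ᵐ p ∂(μ.prod ν), f p = 0) ↔ ∀ᵐ x ∂μ, ∀ᵐ y ∂ν, f (x, y) = 0 := by
  have hg := hf.stronglyMeasurable_mk
  have hfg := hf.ae_eq_mk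
  have hms : MeasurableSet {p : α × β | hf.mk f p = 0} := by
    have h1 : Measurable fun p => ‖hf.mk f p‖ := hg.norm.measurable
    have h2 : {p : α × β | hf.mk f p = 0} = (fun p => ‖hf.mk f p‖) ⁻¹' {0} := by
      ext p
      simp
    rw [h2]
    exact h1 (measurableSet_singleton 0)
  have h3 := Measure.ae_ae_of_ae_prod hfg
  constructor
  · intro h
    exact Measure.ae_ae_of_ae_prod h
  · intro h
    have h4 : ∀ᵐ x ∂μ, ∀ᵐ y ∂ν, hf.mk f (x, y) = 0 := by
      filter_upwards [h, h3] with x hx hx'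
      filter_upwards [hx, hx'] with y hy hy'
      rw [← hy', hy]
    have h5 : ∀ᵐ p ∂(μ.prod ν), hf.mk f p = 0 := (Measure.ae_prod_iff_ae_ae hms).2 h4
    filter_upwards [h5, hfg] with p hp hp'
    rw [hp', hp]

theorem FUB_swap {α β X : Type} [MeasurableSpace α] [MeasurableSpace β] [NormedAddCommGroup X]
    (μ : Measure α) (ν : Measure β) [SFinite μ] [SFinite ν] (f : α × β → X)
    (hf : AEStronglyMeasurable f (μ.prod ν)) :
    (∀ᵐ p ∂(μ.prod ν), f p = 0) ↔ ∀ᵐ y ∂ν, ∀ᵐ x ∂μ, f (x, y) = 0 := by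
  have hmp : MeasurePreserving (Prod.swap : β × α → α × β) (ν.prod μ) (μ.prod ν) :=
    Measure.measurePreserving_swap
  have hmp' : MeasurePreserving (Prod.swap : α × β → β × α) (μ.prod ν) (ν.prod μ) :=
    Measure.measurePreserving_swap
  have hf' : AEStronglyMeasurable (fun q : β × α => f q.swap) (ν.prod μ) :=
    hf.comp_measurePreserving hmp
  have h1 := FUB_gen ν μ (fun q : β × α => f q.swap) hf'
  have h2 : (∀ᵐ p ∂(μ.prod ν), f p = 0) ↔ ∀ᵐ q ∂(ν.prod μ), f q.swap = 0 := by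
    constructor
    · intro h
      exact hmp.quasiMeasurePreserving.ae h
    · intro h
      have := hmp'.quasiMeasurePreserving.ae h
      simpa using this
  rw [h2, h1]
  rfl

theorem p_FUB : Stmt_FUB := by
  intro V T X _ _ _ _ _ _ _ _ _ _ _ _ _ _ _ W₁ T₁ f _ _ hf
  have e : (volume : Measure (V × T)).restrict (W₁ ×ˢ T₁) =
      (volume.restrict W₁).prod (volume.restrict T₁) := by
    rw [Measure.prod_restrict]
    rfl
  rw [e] at hf ⊢
  exact ⟨FUB_gen _ _ f hf, FUB_swap _ _ f hf⟩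

end Pool.TIW
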