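import Pool.Agent.Work.MP_a1f430_wb.Interface3
import Pool.Agent.Work.MP_a1f430_wb.B_BIT

/-! # Block GID: the bracket `[A_v + i A_{Jv}, P + i Q]` is weakly holomorphic in `z` -/

set_option autoImplicit false

namespace Pool.TIW

open Pool.TIA
open MeasureTheory Set Filter Topology
open scoped ContDiff ENNReal

theorem GID_brk_neg_left {𝔐 : Type} [NormedRing 𝔐] (X Y : 𝔐) : brk (-X) Y = -brk X Y := by
  unfold brk
  noncomm_ring

theorem p_GID (hCRA : Stmt_CRA) : Stmt_GID := by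
  intro 𝔐 _ _ _ _ _ _ 𝒢 V _ _ _ _ _ _ J W₁ z₀ r A F P Q hFl hH
  set W : Set (V × ℂ) := W₁ ×ˢ Metric.ball z₀ r with hWdef
  have hZ : ZHol W P Q := (hCRA 𝔐 𝒢 V J W₁ z₀ r A F hFl).2.2 P Q hH
  have hA2 : L2loc W A := hFl.conn.A2
  have hJJ : ∀ v : V, J (J v) = -v := hFl.cpx
  have hAv : ∀ v : V, L2loc W (fun p => A p (v, 0)) := fun v => BIT_evA hA2 (v, 0)
  have hAneg : ∀ (p : V × ℂ) (v : V), A p (J (J v), 0) = -A p (v, 0) := by
    intro p v
    rw [hJJ v, ← map_neg]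
    congr 1
    ext <;> simp
  have hfneg : ∀ (ψ : V × ℂ → ℝ) (p : V × ℂ) (v : V),
      fderiv ℝ ψ p (J (J v), 0) = -fderiv ℝ ψ p (v, 0) := by
    intro ψ p v
    rw [hJJ v, ← map_neg]
    congr 1
    ext <;> simp
  -- products are locally integrable
  have hbrk : ∀ (v : V) (Z : V × ℂ → 𝔐), L2loc W Z →
      ∀ K : Set (V × ℂ), IsCompact K → K ⊆ W →
        IntegrableOn (fun p => brk (A p (v, 0)) (Z p)) K volume := by
    intro v Z hZ2 K hK hKW
    exact Integrable.sub (BIT_mul (hAv v) hZ2 K hK hKW) (BIT_mul hZ2 (hAv v) K hK hKW)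
  -- the equation of the pair in the direction `(v, 0)`
  have E : ∀ (v : V) (ψ : V × ℂ → ℝ), Test W ψ →
      (∫ p, fderiv ℝ ψ p (v, 0) • P p) - (∫ p, fderiv ℝ ψ p (J v, 0) • Q p) =
        ∫ p, ψ p • (brk (A p (v, 0)) (P p) - brk (A p (J v, 0)) (Q p)) := by
    intro v ψ hψ
    have h1 := hH.eq (v, 0) ψ hψ
    have hJv : JC J (v, (0 : ℂ)) = (J v, 0) := by rw [JC_apply, mul_zero]
    have e1 : ∫ x, ∑ k, fderiv ℝ ψ x ((![(v, 0), JC J (v, 0)] : Fin 2 → V × ℂ) k) •
        (![P, fun x => -Q x] : Fin 2 → V × ℂ → 𝔐) k x =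
        (∫ p, fderiv ℝ ψ p (v, 0) • P p) - (∫ p, fderiv ℝ ψ p (J v, 0) • Q p) := by
      rw [← integral_sub (BIT_int (BIT_test hψ (v, 0)) (BIT_L1 hH.P2))
        (BIT_int (BIT_test hψ (J v, 0)) (BIT_L1 hH.Q2))]
      refine integral_congr_ae (Eventually.of_forall fun x => ?_)
      show ∑ k, fderiv ℝ ψ x ((![(v, 0), JC J (v, 0)] : Fin 2 → V × ℂ) k) •
        (![P, fun x => -Q x] : Fin 2 → V × ℂ → 𝔐) k x = _
      rw [Fin.sum_univ_two]
      simp only [Matrix.cons_val_zero, Matrix.cons_val_one]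
      rw [hJv, smul_neg, sub_eq_add_neg]
    have e2 : ∫ x, ψ x • ((∑ k, (A x ((![(v, 0), JC J (v, 0)] : Fin 2 → V × ℂ) k) *
          (![P, fun x => -Q x] : Fin 2 → V × ℂ → 𝔐) k x -
          (![P, fun x => -Q x] : Fin 2 → V × ℂ → 𝔐) k x *
            A x ((![(v, 0), JC J (v, 0)] : Fin 2 → V × ℂ) k))) - 0) =
        ∫ p, ψ p • (brk (A p (v, 0)) (P p) - brk (A p (J v, 0)) (Q p)) := by
      refine integral_congr_ae (Eventually.of_forall fun x => ?_)
      show ψ x • ((∑ k, (A x ((![(v, 0), JC J (v, 0)] : Fin 2 → V × ℂ) k) *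
          (![P, fun x => -Q x] : Fin 2 → V × ℂ → 𝔐) k x -
          (![P, fun x => -Q x] : Fin 2 → V × ℂ → 𝔐) k x *
            A x ((![(v, 0), JC J (v, 0)] : Fin 2 → V × ℂ) k))) - 0) = _
      rw [Fin.sum_univ_two]
      simp only [Matrix.cons_val_zero, Matrix.cons_val_one]
      rw [hJv]
      congr 1
      unfold brk
      noncomm_ring
    rw [← e1, ← e2]
    exact h1
  -- (1)
  have key : ∀ (v : V) (φ : V × ℂ → ℝ), Test W φ →
      ∫ p, (fderiv ℝ φ p (0, 1) • (brk (A p (v, 0)) (P p) - brk (A p (J v, 0)) (Q p)) -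
        fderiv ℝ φ p (0, Complex.I) •
          (brk (A p (J v, 0)) (P p) + brk (A p (v, 0)) (Q p))) = 0 := by
    intro v φ hφ
    have t1 := BIT_test hφ ((0 : V), (1 : ℂ))
    have tI := BIT_test hφ ((0 : V), Complex.I)
    have tv := BIT_test hφ (v, (0 : ℂ))
    have tJ := BIT_test hφ (J v, (0 : ℂ))
    have i1 : Integrable (fun p => fderiv ℝ φ p (0, 1) •
        (brk (A p (v, 0)) (P p) - brk (A p (J v, 0)) (Q p))) :=
      BIT_int t1 fun K hK hKW => Integrable.sub (hbrk v P hH.P2 K hK hKW)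
        (hbrk (J v) Q hH.Q2 K hK hKW)
    have i2 : Integrable (fun p => fderiv ℝ φ p (0, Complex.I) •
        (brk (A p (J v, 0)) (P p) + brk (A p (v, 0)) (Q p))) :=
      BIT_int tI fun K hK hKW => Integrable.add (hbrk (J v) P hH.P2 K hK hKW)
        (hbrk v Q hH.Q2 K hK hKW)
    rw [integral_sub i1 i2]
    have a1 := E v _ t1
    have a2 := E (J v) _ tI
    have a3 : ∫ p, fderiv ℝ φ p (0, Complex.I) •
        (brk (A p (J v, 0)) (P p) - brk (A p (J (J v), 0)) (Q p)) =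
        ∫ p, fderiv ℝ φ p (0, Complex.I) •
        (brk (A p (J v, 0)) (P p) + brk (A p (v, 0)) (Q p)) := by
      refine integral_congr_ae (Eventually.of_forall fun p => ?_)
      beta_reduce
      rw [hAneg, GID_brk_neg_left, sub_neg_eq_add]
    rw [a3] at a2
    rw [← a1, ← a2]
    -- second derivatives
    have s1 : ∀ (a b : V × ℂ) (Z : V × ℂ → 𝔐),
        ∫ p, fderiv ℝ (fun x => fderiv ℝ φ x a) p b • Z p =
          ∫ p, fderiv ℝ (fun x => fderiv ℝ φ x b) p a • Z p := by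
      intro a b Z
      refine integral_congr_ae (Eventually.of_forall fun p => ?_)
      beta_reduce
      rw [BIT_second hφ.smooth p b a]
    have s2 : ∫ p, fderiv ℝ (fun x => fderiv ℝ φ x ((0 : V), Complex.I)) p (J (J v), 0) • Q p =
        -∫ p, fderiv ℝ (fun x => fderiv ℝ φ x ((0 : V), Complex.I)) p (v, 0) • Q p := by
      rw [← integral_neg]
      refine integral_congr_ae (Eventually.of_forall fun p => ?_)
      beta_reduce
      rw [hfneg, neg_smul]
    rw [s2, s1 (0, 1) (v, 0) P, s1 (0, 1) (J v, 0) Q, s1 (0, Complex.I) (J v, 0) P,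
      s1 (0, Complex.I) (v, 0) Q]
    -- the pair is weakly holomorphic in `z`
    have z1 := hZ.eq _ tv 1
    have z2 := hZ.eq _ tJ Complex.I
    rw [integral_sub (BIT_int (BIT_test tv _) (BIT_L1 hH.P2))
      (BIT_int (BIT_test tv _) (BIT_L1 hH.Q2))] at z1
    rw [integral_sub (BIT_int (BIT_test tJ _) (BIT_L1 hH.P2))
      (BIT_int (BIT_test tJ _) (BIT_L1 hH.Q2))] at z2
    rw [mul_one] at z1
    have z3 : ∫ p, fderiv ℝ (fun x => fderiv ℝ φ x (J v, (0 : ℂ))) p
        ((0 : V), Complex.I * Complex.I) • Q p =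
        -∫ p, fderiv ℝ (fun x => fderiv ℝ φ x (J v, (0 : ℂ))) p ((0 : V), (1 : ℂ)) • Q p := by
      rw [← integral_neg]
      refine integral_congr_ae (Eventually.of_forall fun p => ?_)
      beta_reduce
      rw [Complex.I_mul_I, ← neg_smul, ← map_neg]
      congr 2
      ext <;> simp
    rw [z3] at z2
    have z1' := sub_eq_zero.1 z1
    have z2' := sub_eq_zero.1 z2
    rw [z1', z2']
    abel
  intro v
  refine ⟨key v, ?_⟩
  intro φ hφ
  rw [← key (J v) φ hφ]
  refine integral_congr_ae (Eventually.of_forall fun p => ?_)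
  beta_reduce
  rw [hAneg, GID_brk_neg_left, GID_brk_neg_left, sub_neg_eq_add, ← sub_neg_eq_add, ← smul_neg]
  congr 2
  abel

end Pool.TIW
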