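import Pool.Agent.Work.MP_a1f430_wb.Interface3

set_option autoImplicit false

namespace Pool.TIW

open Pool.TIA
open MeasureTheory Set Filter Topology
open scoped ContDiff ENNReal

theorem GJ0_sub : Subsingleton (Eu 0) := ⟨fun a b => by
  ext i
  exact i.elim0⟩

theorem p_GJ0 : Stmt_GJ0 := by
  intro 𝔐 _ _ _ _ _ _ 𝒢 J W A F hW hC _ x hx
  have : Subsingleton (Eu 0) := GJ0_sub
  have hv : ∀ v : Eu 0, v = 0 := fun v => Subsingleton.elim v 0
  refine ⟨W, A, fun _ => 1, fun _ => 0, hW, hx, subset_rfl, ?_, ?_, ?_, ?_⟩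
  · refine ⟨?_, ?_, ?_, ?_, hC.A2, hC.lie, ?_⟩
    · intro K hK _
      have : IsFiniteMeasure (volume.restrict K) := ⟨by
        rw [Measure.restrict_apply_univ]
        exact hK.measure_lt_top⟩
      exact memLp_const _
    · intro K _ _
      exact MemLp.zero'
    · intro φ _ v
      rw [hv v]
      simp
    · exact Eventually.of_forall fun _ => 𝒢.one_mem
    · exact Eventually.of_forall fun y v => by simp
  · exact contDiff_of_subsingleton.contDiffOn
  · intro y _ v
    rw [hv v, map_zero]
    exact 𝒢.lie.zero_mem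
  · intro P Q hPQ
    refine ⟨?_, ?_, ?_⟩
    · simpa using hPQ.P2
    · simpa using hPQ.Q2
    · intro φ _ v
      rw [hv v, map_zero]
      simp

end Pool.TIW
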