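import Pool.Agent.Work.MP_a1f430_wb.Interface3

/-! # Block GNZ: almost every slice is good (MP_a1f430, helper90) -/

set_option autoImplicit false

namespace Pool.TIW

open Pool.TIA
open MeasureTheory Set Filter Topology
open scoped ContDiff ENNReal

theorem GNZ_swap {V : Type} [NormedAddCommGroup V] [NormedSpace ℝ V] [FiniteDimensional ℝ V]
    [MeasureSpace V] [BorelSpace V] [(volume : Measure V).IsAddHaarMeasure] (W₁ : Set V) (D : Set ℂ)
    (P : V × ℂ → Prop) (h : ∀ᵐ p ∂(volume.restrict (W₁ ×ˢ D)), P p) :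
    ∀ᵐ z ∂(volume.restrict D), ∀ᵐ w ∂(volume.restrict W₁), P (w, z) := by
  have : ProperSpace V := FiniteDimensional.proper ℝ V
  rw [Measure.volume_eq_prod, ← Measure.prod_restrict] at h
  have h1 : ∀ᵐ q ∂((volume.restrict D).prod (volume.restrict W₁)), P q.swap :=
    (Measure.measurePreserving_swap (μ := (volume : Measure ℂ).restrict D)
      (ν := (volume : Measure V).restrict W₁)).quasiMeasurePreserving.ae h
  exact Measure.ae_ae_of_ae_prod h1

theorem GNZ_sum {X : Type} [NormedAddCommGroup X] [NormedSpace ℝ X] {ι : Type} [Fintype ι]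
    (D : Set ℂ) (f : ι → ℂ → X) (z₁ : ℂ) (h : ∀ i, Rp D (f i) z₁) (a : ι → ℝ) :
    Rp D (fun z => ∑ i, a i • f i z) z₁ := by
  choose c hc h1 h2 using h
  refine ⟨fun z => ∑ i, a i • c i z, ?_, ?_, ?_⟩
  · exact continuousOn_finset_sum _ (fun i _ => (hc i).const_smul (a i))
  · have h3 : ∀ᵐ z ∂(volume.restrict D), ∀ i, f i z = c i z := ae_all_iff.2 h1
    filter_upwards [h3] with z hz
    exact Finset.sum_congr rfl (fun i _ => by rw [hz i])
  · exact Finset.sum_congr rfl (fun i _ => by rw [h2 i])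

theorem p_GNZ (_hFUB : Stmt_FUB) (hCRA : Stmt_CRA) (hZSL : Stmt_ZSL) (hWHS : Stmt_WHS)
    (hRPG : Stmt_RPG) (hCSL : Stmt_CSL) : Stmt_GNZ := by
  intro 𝔐 _ _ _ _ _ _ 𝒢 V _ _ _ _ _ _ J W₁ z₀ r A F hF
  obtain ⟨-, hC2, -⟩ := hCRA 𝔐 𝒢 V J W₁ z₀ r A F hF
  have hop : IsOpen (Metric.ball z₀ r) := Metric.isOpen_ball
  -- the connection
  have k1 : ∀ᵐ z ∂(volume.restrict (Metric.ball z₀ r)), Conn 𝒢 W₁ (rc1 A z) (rc2 F z) :=
    hCSL 𝔐 𝒢 V ℂ W₁ (Metric.ball z₀ r) A F hF.op hop hF.conn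
  -- the type
  have k2 : ∀ᵐ z ∂(volume.restrict (Metric.ball z₀ r)), J20 W₁ J (rc2 F z) := by
    have h1 := GNZ_swap W₁ (Metric.ball z₀ r) _ hF.typ
    filter_upwards [h1] with z hz
    unfold J20
    filter_upwards [hz] with w hw u v
    rw [rc2_apply, rc2_apply]
    have h2 := hw (u, 0) (v, 0)
    rw [JC_apply, JC_apply, mul_zero] at h2
    exact h2
  -- the representatives
  have k3 : ∀ v : V, ∀ᵐ z₁ ∂(volume.restrict (Metric.ball z₀ r)), ∀ᵐ w ∂(volume.restrict W₁),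
      Rp (Metric.ball z₀ r) (fun z => A (w, z) (v, 0)) z₁ := by
    intro v
    refine hRPG V 𝔐 W₁ z₀ r (fun p => A p (v, 0)) hF.op (hC2 v).P2 ?_
    filter_upwards [hZSL V 𝔐 W₁ z₀ r _ _ hF.op (hC2 v)] with w hw
    obtain ⟨P', Q', hP', -, hPQ, -⟩ := hWHS ℂ 𝔐 mulI (Metric.ball z₀ r) _ _ Cpx_mulI hop hw
    refine ⟨P', hP'.continuousOn, ?_⟩
    filter_upwards [hPQ] with z hz
    exact hz.1
  have k4 : ∀ᵐ z₁ ∂(volume.restrict (Metric.ball z₀ r)), ∀ᵐ w ∂(volume.restrict W₁), ∀ v : V,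
      Rp (Metric.ball z₀ r) (fun z => A (w, z) (v, 0)) z₁ := by
    have h1 : ∀ᵐ z₁ ∂(volume.restrict (Metric.ball z₀ r)),
        ∀ i : Fin (Module.finrank ℝ V), ∀ᵐ w ∂(volume.restrict W₁),
        Rp (Metric.ball z₀ r) (fun z => A (w, z) (Module.finBasis ℝ V i, 0)) z₁ :=
      ae_all_iff.2 (fun i => k3 _)
    filter_upwards [h1] with z₁ hz
    have h2 : ∀ᵐ w ∂(volume.restrict W₁), ∀ i : Fin (Module.finrank ℝ V),
        Rp (Metric.ball z₀ r) (fun z => A (w, z) (Module.finBasis ℝ V i, 0)) z₁ :=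
      ae_all_iff.2 hz
    filter_upwards [h2] with w hw v
    have h3 := GNZ_sum (Metric.ball z₀ r) _ z₁ hw (fun i => (Module.finBasis ℝ V).repr v i)
    have h4 : (fun z => ∑ i, (Module.finBasis ℝ V).repr v i •
        A (w, z) (Module.finBasis ℝ V i, 0)) = fun z => A (w, z) (v, 0) := by
      funext z
      have h5 : ((v, 0) : V × ℂ) = ∑ i, (Module.finBasis ℝ V).repr v i •
          ((Module.finBasis ℝ V i, 0) : V × ℂ) := by
        have h6 := congrArg (LinearMap.inl ℝ V ℂ) ((Module.finBasis ℝ V).sum_repr v)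
        rw [map_sum] at h6
        simp only [map_smul, LinearMap.inl_apply] at h6
        exact h6.symm
      rw [h5, map_sum]
      simp only [map_smul]
    rw [h4] at h3
    exact h3
  have k5 : ∀ᵐ z ∂(volume.restrict (Metric.ball z₀ r)), z ∈ Metric.ball z₀ r :=
    ae_restrict_mem hop.measurableSet
  have k6 : (volume : Measure ℂ).restrict (Metric.ball z₀ r) ≠ 0 := by
    rw [Ne, Measure.restrict_eq_zero]
    exact (Metric.measure_ball_pos volume z₀ hF.pos).ne'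
  have : NeBot (ae ((volume : Measure ℂ).restrict (Metric.ball z₀ r))) := ae_neBot.2 k6
  obtain ⟨z₁, h1, h2, h3, h4⟩ := (k1.and (k2.and (k4.and k5))).exists
  exact ⟨z₁, h4, h1, h2, h3⟩

end Pool.TIW
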