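import Pool.Agent.Work.MP_a1f430_wb.Interface3

/-!
# Block GPC: the pullback of a gauge change along a projection `V × T → V`
-/

set_option autoImplicit false

namespace Pool.TIW

open Pool.TIA
open MeasureTheory Set Filter Topology
open scoped ContDiff ENNReal

section

variable {V T X : Type} [NormedAddCommGroup V] [NormedSpace ℝ V] [FiniteDimensional ℝ V]
  [MeasureSpace V] [BorelSpace V] [(volume : Measure V).IsAddHaarMeasure]
  [NormedAddCommGroup T] [NormedSpace ℝ T] [FiniteDimensional ℝ T]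
  [MeasureSpace T] [BorelSpace T] [(volume : Measure T).IsAddHaarMeasure]
  [NormedAddCommGroup X]

omit [BorelSpace V] [BorelSpace T] in
theorem GPC_L2 (W : Set V) (I : Set T) (k : V → X) (hk : L2loc W k) :
    L2loc (W ×ˢ I) (fun p : V × T => k p.1) := by
  intro K hK hKW
  have hK1 : IsCompact (Prod.fst '' K) := hK.image continuous_fst
  have hK2 : IsCompact (Prod.snd '' K) := hK.image continuous_snd
  have hs : Prod.fst '' K ⊆ W := by
    rintro _ ⟨p, hp, rfl⟩
    exact (hKW hp).1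
  have h1 := hk _ hK1 hs
  have : IsFiniteMeasure ((volume : Measure T).restrict (Prod.snd '' K)) :=
    ⟨by rw [Measure.restrict_apply_univ]; exact hK2.measure_lt_top⟩
  have h2 := h1.comp_fst ((volume : Measure T).restrict (Prod.snd '' K))
  rw [Measure.prod_restrict, ← Measure.volume_eq_prod] at h2
  refine h2.mono_measure (Measure.restrict_mono ?_ le_rfl)
  intro p hp
  exact ⟨⟨p, hp, rfl⟩, ⟨p, hp, rfl⟩⟩

theorem GPC_int {E X : Type} [NormedAddCommGroup E] [NormedSpace ℝ E] [MeasureSpace E]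
    [BorelSpace E] [IsFiniteMeasureOnCompacts (volume : Measure E)] [SecondCountableTopology E]
    [NormedAddCommGroup X] [NormedSpace ℝ X]
    (U : Set E) (g : E → X) (hg : L2loc U g) (ψ : E → ℝ) (hψ : Continuous ψ)
    (K : Set E) (hK : IsCompact K) (hKU : K ⊆ U) (hz : ∀ x, x ∉ K → ψ x = 0) :
    Integrable (fun x => ψ x • g x) := by
  have h1 := hg K hK hKU
  have : IsFiniteMeasure ((volume : Measure E).restrict K) :=
    ⟨by rw [Measure.restrict_apply_univ]; exact hK.measure_lt_top⟩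
  have h2 : Integrable g (volume.restrict K) := h1.integrable (by norm_num)
  obtain ⟨C, hC⟩ := hK.exists_bound_of_continuousOn hψ.continuousOn
  have h3 : Integrable (fun x => ψ x • g x) (volume.restrict K) := by
    refine h2.bdd_smul C ?_ ?_
    · exact hψ.aestronglyMeasurable
    · refine (ae_restrict_mem hK.measurableSet).mono fun x hx => hC x hx
  rw [← integrableOn_iff_integrable_of_support_subset (s := K)]
  · exact h3
  · intro x hx
    by_contra hc
    apply hx
    simp only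
    rw [hz x hc, zero_smul]

/-- The integral of a derivative of a compactly supported function is zero. -/
theorem GPC_der (f : T → ℝ) (hf : ContDiff ℝ ∞ f) (hc : HasCompactSupport f) (w : T) :
    ∫ t, fderiv ℝ f t w = 0 := by
  have hf1 : ContDiff ℝ 1 f := hf.of_le (by exact_mod_cast le_top)
  have hd : Differentiable ℝ f := hf1.differentiable (by norm_num)
  have hcd : Continuous fun t => fderiv ℝ f t w :=
    (hf1.continuous_fderiv (by norm_num)).clm_apply continuous_const
  have hcs : HasCompactSupport fun t => fderiv ℝ f t w := by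
    refine HasCompactSupport.intro hc ?_
    intro t ht
    have : t ∉ tsupport (fderiv ℝ f) := fun h => ht (tsupport_fderiv_subset ℝ h)
    rw [image_eq_zero_of_notMem_tsupport this]
    rfl
  have h := integral_bilinear_hasFDerivAt_right_eq_neg_left_of_integrable
    (μ := (volume : Measure T)) (f := fun _ : T => (1 : ℝ)) (f' := fun _ => 0) (g := f)
    (g' := fderiv ℝ f) (v := w) (B := ContinuousLinearMap.mul ℝ ℝ)
    (by simp) (by simpa using hcd.integrable_of_hasCompactSupport hcs)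
    (by simpa using hf.continuous.integrable_of_hasCompactSupport hc)
    (fun x _ => hasFDerivAt_const 1 x) (fun x _ => (hd x).hasFDerivAt)
  simpa using h

end

/-- Weak derivatives of functions which do not depend on `t`. -/
theorem GPC_EXT (V T X : Type) [NormedAddCommGroup V] [NormedSpace ℝ V] [FiniteDimensional ℝ V]
    [MeasureSpace V] [BorelSpace V] [(volume : Measure V).IsAddHaarMeasure]
    [NormedAddCommGroup T] [NormedSpace ℝ T] [FiniteDimensional ℝ T]
    [MeasureSpace T] [BorelSpace T] [(volume : Measure T).IsAddHaarMeasure]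
    [NormedAddCommGroup X] [NormedSpace ℝ X] [CompleteSpace X] (W : Set V) (I : Set T) (k : V → X)
    (dk : V → V →L[ℝ] X) (hk : L2loc W k) (hdk : L2loc W dk) (hwd : WD W k dk) :
    L2loc (W ×ˢ I) (fun p : V × T => k p.1) ∧
      L2loc (W ×ˢ I) (fun p : V × T => (dk p.1).comp (ContinuousLinearMap.fst ℝ V T)) ∧
      WD (W ×ˢ I) (fun p : V × T => k p.1)
        (fun p : V × T => (dk p.1).comp (ContinuousLinearMap.fst ℝ V T)) := by
  have hL1 : L2loc (W ×ˢ I) (fun p : V × T => k p.1) := GPC_L2 W I k hk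
  have hL2 : L2loc (W ×ˢ I) (fun p : V × T =>
      (dk p.1).comp (ContinuousLinearMap.fst ℝ V T)) := by
    intro K hK hKW
    have h1 := GPC_L2 W I dk hdk K hK hKW
    let L : (V →L[ℝ] X) →L[ℝ] ((V × T) →L[ℝ] X) :=
      (ContinuousLinearMap.compL ℝ (V × T) V X).flip (ContinuousLinearMap.fst ℝ V T)
    exact L.comp_memLp' h1
  refine ⟨hL1, hL2, ?_⟩
  intro φ hφ v
  have hφ1 : ContDiff ℝ 1 φ := hφ.smooth.of_le (by exact_mod_cast le_top)
  have hdiff : Differentiable ℝ φ := hφ1.differentiable (by norm_num)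
  have hcd : Continuous (fderiv ℝ φ) := hφ1.continuous_fderiv (by norm_num)
  have hKc : IsCompact (tsupport φ) := hφ.cpt
  have hz : ∀ p, p ∉ tsupport φ → ∀ u, fderiv ℝ φ p u = 0 := by
    intro p hp u
    have : p ∉ tsupport (fderiv ℝ φ) := fun h => hp (tsupport_fderiv_subset ℝ h)
    rw [image_eq_zero_of_notMem_tsupport this]
    rfl
  have hcu : ∀ u, Continuous fun p => fderiv ℝ φ p u := fun u => hcd.clm_apply continuous_const
  have hint : ∀ u, Integrable (fun p : V × T => fderiv ℝ φ p u • k p.1) := fun u =>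
    GPC_int (W ×ˢ I) (fun p => k p.1) hL1 _ (hcu u) _ hKc hφ.sub (fun p hp => hz p hp u)
  have hLv : L2loc (W ×ˢ I) (fun p : V × T => dk p.1 v.1) := by
    intro K hK hKW
    have h1 := GPC_L2 W I dk hdk K hK hKW
    exact (ContinuousLinearMap.apply ℝ X v.1).comp_memLp' h1
  have hint2 : Integrable (fun p : V × T => φ p • dk p.1 v.1) :=
    GPC_int (W ×ˢ I) (fun p => dk p.1 v.1) hLv φ hφ1.continuous _ hKc hφ.sub
      (fun p hp => image_eq_zero_of_notMem_tsupport hp)
  -- splitting
  have hsplit : ∀ p : V × T, fderiv ℝ φ p v • k p.1 =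
      fderiv ℝ φ p (v.1, 0) • k p.1 + fderiv ℝ φ p (0, v.2) • k p.1 := by
    intro p
    rw [← add_smul, ← map_add]
    simp
  have hI : ∫ p : V × T, fderiv ℝ φ p v • k p.1 =
      (∫ p : V × T, fderiv ℝ φ p (v.1, 0) • k p.1) +
        ∫ p : V × T, fderiv ℝ φ p (0, v.2) • k p.1 := by
    rw [← integral_add (hint _) (hint _)]
    exact integral_congr_ae (Eventually.of_forall hsplit)
  -- the second term vanishes
  have hII : ∫ p : V × T, fderiv ℝ φ p (0, v.2) • k p.1 = 0 := by
    have hi := hint (0, v.2)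
    rw [Measure.volume_eq_prod] at hi ⊢
    rw [integral_prod _ hi]
    have h0 : ∀ x : V, ∫ t : T, fderiv ℝ φ (x, t) (0, v.2) • k x = 0 := by
      intro x
      rw [integral_smul_const]
      have hcomp : ContDiff ℝ ∞ (fun t : T => φ (x, t)) :=
        hφ.smooth.comp (contDiff_const.prodMk contDiff_id)
      have hcs : HasCompactSupport fun t : T => φ (x, t) := by
        refine HasCompactSupport.intro (hKc.image continuous_snd) ?_
        intro t ht
        have : (x, t) ∉ tsupport φ := fun h => ht ⟨(x, t), h, rfl⟩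
        exact image_eq_zero_of_notMem_tsupport this
      have h2 : ∀ t : T, fderiv ℝ (fun t : T => φ (x, t)) t v.2 =
          fderiv ℝ φ (x, t) (0, v.2) := by
        intro t
        have h3 : HasFDerivAt φ (fderiv ℝ φ (x, t)) (x, t) := (hdiff (x, t)).hasFDerivAt
        have h4 : HasFDerivAt (fun t : T => ((x, t) : V × T))
            ((0 : T →L[ℝ] V).prod (ContinuousLinearMap.id ℝ T)) t :=
          (hasFDerivAt_const x t).prodMk (hasFDerivAt_id t)
        have h5 := h3.comp t h4
        have h6 : fderiv ℝ (fun t : T => φ (x, t)) t =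
            (fderiv ℝ φ (x, t)).comp ((0 : T →L[ℝ] V).prod (ContinuousLinearMap.id ℝ T)) :=
          h5.fderiv
        rw [h6]
        simp
      have h7 := GPC_der _ hcomp hcs v.2
      simp only [h2] at h7
      rw [h7, zero_smul]
    simp only [h0, integral_zero]
  -- the first term
  have hIII : ∫ p : V × T, fderiv ℝ φ p (v.1, 0) • k p.1 = -∫ p : V × T, φ p • dk p.1 v.1 := by
    have hi := hint (v.1, 0)
    have hi2 := hint2
    rw [Measure.volume_eq_prod] at hi hi2 ⊢
    rw [integral_prod_symm _ hi, integral_prod_symm _ hi2, ← integral_neg]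
    refine integral_congr_ae (Eventually.of_forall fun t => ?_)
    have hcomp : ContDiff ℝ ∞ (fun x : V => φ (x, t)) :=
      hφ.smooth.comp (contDiff_id.prodMk contDiff_const)
    have hsub : tsupport (fun x : V => φ (x, t)) ⊆ (fun x : V => (x, t)) ⁻¹' tsupport φ := by
      refine closure_minimal ?_ ((isClosed_tsupport φ).preimage (by fun_prop))
      intro x hx
      exact subset_tsupport φ hx
    have htest : Test W (fun x : V => φ (x, t)) := by
      refine ⟨hcomp, ?_, ?_⟩
      · refine HasCompactSupport.intro (hKc.image continuous_fst) ?_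
        intro x hx
        have : (x, t) ∉ tsupport φ := fun h => hx ⟨(x, t), h, rfl⟩
        exact image_eq_zero_of_notMem_tsupport this
      · intro x hx
        exact (hφ.sub (hsub hx)).1
    have h1 := hwd _ htest v.1
    have h2 : ∀ x : V, fderiv ℝ (fun x : V => φ (x, t)) x v.1 = fderiv ℝ φ (x, t) (v.1, 0) := by
      intro x
      have h3 : HasFDerivAt φ (fderiv ℝ φ (x, t)) (x, t) := (hdiff (x, t)).hasFDerivAt
      have h4 : HasFDerivAt (fun x : V => ((x, t) : V × T))
          ((ContinuousLinearMap.id ℝ V).prod 0) x :=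
        (hasFDerivAt_id x).prodMk (hasFDerivAt_const t x)
      have h5 := h3.comp x h4
      have h6 : fderiv ℝ (fun x : V => φ (x, t)) x =
          (fderiv ℝ φ (x, t)).comp ((ContinuousLinearMap.id ℝ V).prod 0) := h5.fderiv
      rw [h6]
      simp
    simp only [h2] at h1
    exact h1
  rw [hI, hII, hIII, add_zero]
  rfl

theorem GPC_cont {𝔐 E : Type} [NormedRing 𝔐] [NormedAlgebra ℝ 𝔐] [StarRing 𝔐] [CStarRing 𝔐]
    [StarModule ℝ 𝔐] [NormedAddCommGroup E] [NormedSpace ℝ E] :
    Continuous fun q : 𝔐 × (E →L[ℝ] 𝔐) => (adL q.1).comp q.2 := by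
  have h1 : Continuous fun x : 𝔐 => adL x := by
    unfold adL
    fun_prop
  exact (h1.comp continuous_fst).clm_comp continuous_snd

theorem GPC_add {Ω F : Type} [MeasurableSpace Ω] [NormedAddCommGroup F] {μ : Measure Ω}
    {f g h : Ω → F} (hf : MemLp f 2 μ) (hg : MemLp g 2 μ) (hh : ∀ᵐ x ∂μ, f x + g x = h x) :
    MemLp h 2 μ := (memLp_congr_ae hh).1 (hf.add hg)

theorem GPC_sub {Ω F : Type} [MeasurableSpace Ω] [NormedAddCommGroup F] {μ : Measure Ω}
    {f g : Ω → F} (hf : MemLp f 2 μ) (hg : MemLp g 2 μ) : MemLp (fun x => f x - g x) 2 μ :=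
  hf.sub hg

theorem GPC_fst {Ω V T X : Type} [MeasurableSpace Ω] [NormedAddCommGroup V] [NormedSpace ℝ V]
    [NormedAddCommGroup T] [NormedSpace ℝ T] [NormedAddCommGroup X] [NormedSpace ℝ X]
    {μ : Measure Ω} {f : Ω → V →L[ℝ] X} (hf : MemLp f 2 μ) :
    MemLp (fun p => (f p).comp (ContinuousLinearMap.fst ℝ V T)) 2 μ := by
  let L : (V →L[ℝ] X) →L[ℝ] ((V × T) →L[ℝ] X) :=
    (ContinuousLinearMap.compL ℝ (V × T) V X).flip (ContinuousLinearMap.fst ℝ V T)
  exact L.comp_memLp' hf

theorem GPC_adL {Ω E 𝔐 : Type} [MeasurableSpace Ω] [NormedRing 𝔐] [NormedAlgebra ℝ 𝔐] [StarRing 𝔐]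
    [CStarRing 𝔐] [StarModule ℝ 𝔐] [NormedAddCommGroup E] [NormedSpace ℝ E] {μ : Measure Ω}
    {f : Ω → E →L[ℝ] 𝔐} {g : Ω → 𝔐} (hf : MemLp f 2 μ) (hg : AEStronglyMeasurable g μ)
    (h : ∀ᵐ p ∂μ, ∀ a : 𝔐, ‖star (g p) * (a * g p)‖ = ‖a‖) :
    MemLp (fun p => (adL (g p)).comp (f p)) 2 μ := by
  refine hf.of_le (GPC_cont.comp_aestronglyMeasurable (hg.prodMk hf.1)) ?_
  filter_upwards [h] with p hp
  refine ContinuousLinearMap.opNorm_le_bound _ (norm_nonneg _) fun v => ?_
  rw [ContinuousLinearMap.comp_apply, adL_apply, hp]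
  exact (f p).le_opNorm v

theorem p_GPC (hLIE : Pool.TIA.Stmt_LIE) (hLBR : Stmt_LBR) : Stmt_GPC := by
  intro 𝔐 _ _ _ _ _ _ 𝒢 V T _ _ _ _ _ _ _ _ _ _ _ _ W₁ T₁ B S k dk A S' hW₁ hT₁ hG hB2 hB hA2 hA
    hS'
  have hcs : CompleteSpace 𝔐 := FiniteDimensional.complete ℝ 𝔐
  obtain ⟨h1, h2, h3⟩ := GPC_EXT V T 𝔐 W₁ T₁ k dk hG.g2 hG.dg2 hG.wd
  have hae : ∀ P : V → Prop, (∀ᵐ x ∂(volume.restrict W₁), P x) →
      ∀ᵐ p ∂((volume : Measure (V × T)).restrict (W₁ ×ˢ T₁)), P p.1 := by
    intro P hP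
    rw [Measure.volume_eq_prod, ← Measure.prod_restrict]
    exact Measure.quasiMeasurePreserving_fst.ae hP
  refine ⟨h1, h2, h3, hae _ hG.inG, ?_, ?_, ?_⟩
  · intro K hK hKW
    have hSL := GPC_fst (T := T) (GPC_L2 W₁ T₁ S hG.A2' K hK hKW)
    have hBL := GPC_fst (T := T) (GPC_L2 W₁ T₁ B hB2 K hK hKW)
    have hZ := GPC_sub (hA2 K hK hKW) hBL
    have hGK : ∀ᵐ p ∂((volume : Measure (V × T)).restrict K), k p.1 ∈ 𝒢.G :=
      ae_restrict_of_ae_restrict_of_subset hKW (hae _ hG.inG)
    have hGK' : ∀ᵐ p ∂((volume : Measure (V × T)).restrict K), ∀ a : 𝔐,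
        ‖star (k p.1) * (a * k p.1)‖ = ‖a‖ := by
      filter_upwards [hGK] with p hp
      intro a
      have h5 := (hLIE 𝔐 𝒢).2.2
      rw [(h5 _ (𝒢.star_mem _ hp) _).1, (h5 _ hp _).2]
    have hC := GPC_adL hZ (h1 K hK hKW).1 hGK'
    refine GPC_add hSL hC ?_
    have hS'K := ae_restrict_of_ae_restrict_of_subset hKW hS'
    filter_upwards [hS'K] with p hp
    apply ContinuousLinearMap.ext
    rintro ⟨v, t⟩
    rw [hp v t]
    show S p.1 v + adL (k p.1) (A p (v, t) - B p.1 v) = _
    rw [adL_apply, mul_assoc]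
  · filter_upwards [hae _ hG.inG, hae _ hB, hA, hae _ hG.lie', hS'] with p hpG hpB hpA hpS hpE
    rintro ⟨v, s⟩
    rw [hpE v s]
    exact 𝒢.lie.add_mem (hpS v)
      ((hLBR 𝔐 𝒢).1 _ hpG _ (𝒢.lie.sub_mem (hpA (v, s)) (hpB v)))
  · filter_upwards [hae _ hG.inG, hae _ hG.eq, hS'] with p hpG hpe hpE
    rintro ⟨v, s⟩
    show dk p.1 v = _
    have h5 := (𝒢.unitary _ hpG).2
    rw [hpe v, hpE v s, mul_add, ← mul_assoc, ← mul_assoc, h5, one_mul, sub_mul]
    abel

end Pool.TIW
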