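import Pool.Agent.Work.MP_a1f430_wb.Interface3

set_option autoImplicit false

namespace Pool.TIW

open Pool.TIA
open MeasureTheory Set Filter Topology
open scoped ContDiff ENNReal

lemma GSS_emb {V T : Type} [MeasurableSpace V] [MeasurableSpace T] :
    MeasurableEmbedding (Prod.swap : V × T → T × V) :=
  (MeasurableEquiv.prodComm : V × T ≃ᵐ T × V).measurableEmbedding

lemma GSS_mp (V T : Type) [NormedAddCommGroup V] [NormedSpace ℝ V] [FiniteDimensional ℝ V]
    [MeasureSpace V] [BorelSpace V] [(volume : Measure V).IsAddHaarMeasure]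
    [NormedAddCommGroup T] [NormedSpace ℝ T] [FiniteDimensional ℝ T]
    [MeasureSpace T] [BorelSpace T] [(volume : Measure T).IsAddHaarMeasure] :
    MeasurePreserving (Prod.swap : V × T → T × V) volume volume := by
  have : ProperSpace V := FiniteDimensional.proper_real V
  have : ProperSpace T := FiniteDimensional.proper_real T
  exact Measure.measurePreserving_swap

lemma GSS_L1 {V T X : Type} [NormedAddCommGroup V] [NormedSpace ℝ V] [FiniteDimensional ℝ V]
    [MeasureSpace V] [BorelSpace V] [(volume : Measure V).IsAddHaarMeasure]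
    [NormedAddCommGroup T] [NormedSpace ℝ T] [FiniteDimensional ℝ T]
    [MeasureSpace T] [BorelSpace T] [(volume : Measure T).IsAddHaarMeasure]
    [NormedAddCommGroup X] [NormedSpace ℝ X] (W₁ : Set V) (T₁ : Set T) (f : V × T → X)
    (h : L1loc (W₁ ×ˢ T₁) f) : L1loc (T₁ ×ˢ W₁) (fun p : T × V => f p.swap) := by
  intro K hK hKs
  have h1 : IntegrableOn f (Prod.swap ⁻¹' K : Set (V × T)) volume := by
    refine h _ ?_ ?_
    · have : (Prod.swap ⁻¹' K : Set (V × T)) = Prod.swap '' K := by
        ext p
        constructor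
        · intro hp
          exact ⟨p.swap, hp, Prod.swap_swap p⟩
        · rintro ⟨q, hq, rfl⟩
          simpa using hq
      rw [this]
      exact hK.image continuous_swap
    · intro p hp
      have := hKs hp
      exact ⟨this.2, this.1⟩
  have h2 := ((GSS_mp T V).integrableOn_comp_preimage GSS_emb (f := f)
    (s := (Prod.swap ⁻¹' K : Set (V × T)))).2 h1
  have h3 : (Prod.swap ⁻¹' (Prod.swap ⁻¹' K : Set (V × T)) : Set (T × V)) = K := by
    ext p; simp
  rw [h3] at h2
  exact h2

theorem p_GSS (hGST : Stmt_GST) : Stmt_GSS := by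
  intro V T X _ _ _ _ _ _ _ _ _ _ _ _ _ _ _ W₁ T₁ m v f R hW hT hf hR heq
  have key := hGST T V X T₁ W₁ m v (fun k p => f k p.swap) (fun p => R p.swap) hT hW
    (fun k => GSS_L1 W₁ T₁ (f k) (hf k)) (GSS_L1 W₁ T₁ R hR) ?_
  · exact key
  · intro φ hφ
    let e : (V × T) ≃L[ℝ] (T × V) := ContinuousLinearEquiv.prodComm ℝ V T
    have he : ∀ p, e p = p.swap := fun p => rfl
    have hψ : Test (W₁ ×ˢ T₁) (fun q : V × T => φ q.swap) := by
      refine ⟨?_, ?_, ?_⟩
      · exact hφ.smooth.comp e.contDiff
      · exact hφ.cpt.comp_homeomorph e.toHomeomorph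
      · have h1 : tsupport (fun q : V × T => φ q.swap) = Prod.swap ⁻¹' tsupport φ :=
          tsupport_comp_eq_preimage φ e.toHomeomorph
        rw [h1]
        intro p hp
        have := hφ.sub hp
        exact ⟨this.2, this.1⟩
    have h1 := heq _ hψ
    have hder : ∀ q : V × T, ∀ w : T, fderiv ℝ (fun q : V × T => φ q.swap) q (0, w) =
        fderiv ℝ φ q.swap (w, 0) := by
      intro q w
      have := e.comp_right_fderiv (f := φ) (x := q)
      have h2 : (φ ∘ e) = (fun q : V × T => φ q.swap) := rfl
      rw [h2] at this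
      rw [this]
      rfl
    have hL := (GSS_mp V T).integral_comp GSS_emb
      (fun p : T × V => ∑ k, fderiv ℝ φ p (v k, 0) • f k p.swap)
    have hR' := (GSS_mp V T).integral_comp GSS_emb (fun p : T × V => φ p • R p.swap)
    rw [← hL, ← hR']
    simp only [Prod.swap_swap]
    simp only [hder] at h1
    exact h1

end Pool.TIW
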