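import Pool.Agent.Work.MP_a1f430_wb.Interface3
import Pool.Agent.Work.MP_a1f430_wb.B_GSL

/-! # Block GST: slices of a first order equation, parameter in an open set (helper38) -/

set_option autoImplicit false

namespace Pool.TIW

open Pool.TIA
open MeasureTheory Set Filter Topology
open scoped ContDiff ENNReal

section GSTsec

variable {X : Type} [NormedAddCommGroup X] [NormedSpace ℝ X] [FiniteDimensional ℝ X]
variable {V : Type} [NormedAddCommGroup V] [NormedSpace ℝ V] [FiniteDimensional ℝ V]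
variable {T : Type} [NormedAddCommGroup T] [NormedSpace ℝ T] [FiniteDimensional ℝ T]

/-- The difference of the two integrands. -/
noncomputable def GST_H {m : ℕ} (v : Fin m → V) (f : Fin m → V × T → X) (R : V × T → X)
    (φ : V → ℝ) (p : V × T) : X :=
  (∑ k, fderiv ℝ φ p.1 (v k) • f k p) - φ p.1 • R p


variable [MeasureSpace V] [BorelSpace V] [(volume : Measure V).IsAddHaarMeasure]
variable [MeasureSpace T] [BorelSpace T] [(volume : Measure T).IsAddHaarMeasure]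

theorem GST_H_int {m : ℕ} (W₁ : Set V) (T₁ : Set T) (hT : IsOpen T₁) (v : Fin m → V) (f : Fin m → V × T → X)
    (R : V × T → X) (hf : ∀ k, L1loc (W₁ ×ˢ T₁) (f k)) (hR : L1loc (W₁ ×ˢ T₁) R)
    (φ : V → ℝ) (hφ : Test W₁ φ) (C : Set T) (hC : IsCompact C) (hCab : C ⊆ T₁) :
    IntegrableOn (GST_H v f R φ) (univ ×ˢ C) volume := by
  have hK : IsCompact (tsupport φ ×ˢ C) := IsCompact.prod hφ.cpt hC
  have hsub : tsupport φ ×ˢ C ⊆ W₁ ×ˢ T₁ := Set.prod_mono hφ.sub hCab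
  have h1 : IntegrableOn (GST_H v f R φ) (tsupport φ ×ˢ C) volume := by
    have hs : IntegrableOn (fun p : V × T => ∑ k, fderiv ℝ φ p.1 (v k) • f k p)
        (tsupport φ ×ˢ C) volume :=
      integrable_finset_sum _ (fun k _ => GSL_sm (f k) (fun p => fderiv ℝ φ p.1 (v k))
        ((GSL_fd hφ (v k)).comp continuous_fst) _ hK (hf k _ hK hsub))
    have hr : IntegrableOn (fun p : V × T => φ p.1 • R p) (tsupport φ ×ˢ C) volume :=
      GSL_sm R (fun p => φ p.1) (hφ.smooth.continuous.comp continuous_fst) _ hK (hR _ hK hsub)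
    exact hs.sub hr
  refine h1.of_forall_diff_eq_zero (MeasurableSet.univ.prod hC.measurableSet) ?_
  rintro ⟨y, t⟩ ⟨⟨-, ht⟩, hn⟩
  have hy : y ∉ tsupport φ := fun hy => hn ⟨hy, ht⟩
  have e1 : φ y = 0 := image_eq_zero_of_notMem_tsupport hy
  have e2 : fderiv ℝ φ y = 0 := by
    by_contra h
    exact hy (tsupport_fderiv_subset ℝ (subset_tsupport _ h))
  simp [GST_H, e1, e2]

theorem GST_chi {m : ℕ} (W₁ : Set V) (T₁ : Set T) (hT : IsOpen T₁) (v : Fin m → V) (f : Fin m → V × T → X)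
    (R : V × T → X) (hf : ∀ k, L1loc (W₁ ×ˢ T₁) (f k)) (hR : L1loc (W₁ ×ˢ T₁) R)
    (heq : ∀ φ : V × T → ℝ, Test (W₁ ×ˢ T₁) φ →
      ∫ p, ∑ k, fderiv ℝ φ p (v k, 0) • f k p = ∫ p, φ p • R p)
    (φ : V → ℝ) (hφ : Test W₁ φ) (χ : T → ℝ) (hχ : ContDiff ℝ ∞ χ) (hχc : HasCompactSupport χ)
    (hχs : tsupport χ ⊆ T₁) : ∫ t, χ t • (∫ y, GST_H v f R φ (y, t)) = 0 := by
  have hK : IsCompact (tsupport φ ×ˢ tsupport χ) := IsCompact.prod hφ.cpt hχc
  have hsub : tsupport φ ×ˢ tsupport χ ⊆ W₁ ×ˢ T₁ := Set.prod_mono hφ.sub hχs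
  have hT : Test (W₁ ×ˢ T₁) (fun p : V × T => φ p.1 * χ p.2) := by
    have hz : ∀ p ∉ tsupport φ ×ˢ tsupport χ, φ p.1 * χ p.2 = 0 := by
      intro p hp
      by_cases h1 : p.1 ∈ tsupport φ
      · have h2 : p.2 ∉ tsupport χ := fun h2 => hp ⟨h1, h2⟩
        rw [image_eq_zero_of_notMem_tsupport h2, mul_zero]
      · rw [image_eq_zero_of_notMem_tsupport h1, zero_mul]
    refine ⟨(hφ.smooth.comp contDiff_fst).mul (hχ.comp contDiff_snd),
      HasCompactSupport.intro hK hz, ?_⟩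
    refine (closure_minimal ?_ hK.isClosed).trans hsub
    intro p hp
    by_contra h
    exact hp (hz p h)
  have hfd : ∀ (p : V × T) (u : V), fderiv ℝ (fun p : V × T => φ p.1 * χ p.2) p (u, 0)
      = χ p.2 * fderiv ℝ φ p.1 u := by
    intro p u
    have h1 : HasFDerivAt (fun p : V × T => φ p.1)
        ((fderiv ℝ φ p.1).comp (ContinuousLinearMap.fst ℝ V T)) p :=
      (((hφ.smooth.differentiable (by simp)) p.1).hasFDerivAt).comp p hasFDerivAt_fst
    have h2 : HasFDerivAt (fun p : V × T => χ p.2)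
        ((fderiv ℝ χ p.2).comp (ContinuousLinearMap.snd ℝ V T)) p :=
      (((hχ.differentiable (by simp)) p.2).hasFDerivAt).comp p hasFDerivAt_snd
    have h3 := (h1.mul h2).fderiv
    have h4 : fderiv ℝ (fun p : V × T => φ p.1 * χ p.2) p = φ p.1 •
        ((fderiv ℝ χ p.2).comp (ContinuousLinearMap.snd ℝ V T)) + χ p.2 •
        ((fderiv ℝ φ p.1).comp (ContinuousLinearMap.fst ℝ V T)) := h3
    rw [h4]
    simp
  have hk1 : ∀ k, IntegrableOn (fun p : V × T => (χ p.2 * fderiv ℝ φ p.1 (v k)) • f k p)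
      (tsupport φ ×ˢ tsupport χ) volume := fun k =>
    GSL_sm (f k) (fun p => χ p.2 * fderiv ℝ φ p.1 (v k))
      ((hχ.continuous.comp continuous_snd).mul ((GSL_fd hφ (v k)).comp continuous_fst)) _ hK
      (hf k _ hK hsub)
  have hk2 : IntegrableOn (fun p : V × T => (φ p.1 * χ p.2) • R p)
      (tsupport φ ×ˢ tsupport χ) volume :=
    GSL_sm R (fun p => φ p.1 * χ p.2)
      ((hφ.smooth.continuous.comp continuous_fst).mul (hχ.continuous.comp continuous_snd)) _ hK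
      (hR _ hK hsub)
  have hoff : ∀ p ∉ tsupport φ ×ˢ tsupport χ, χ p.2 = 0 ∨ (φ p.1 = 0 ∧ fderiv ℝ φ p.1 = 0) := by
    intro p hp
    by_cases h1 : p.1 ∈ tsupport φ
    · have h2 : p.2 ∉ tsupport χ := fun h2 => hp ⟨h1, h2⟩
      exact Or.inl (image_eq_zero_of_notMem_tsupport h2)
    · refine Or.inr ⟨image_eq_zero_of_notMem_tsupport h1, ?_⟩
      by_contra h
      exact h1 (tsupport_fderiv_subset ℝ (subset_tsupport _ h))
  have hi1 : Integrable (fun p : V × T => ∑ k, (χ p.2 * fderiv ℝ φ p.1 (v k)) • f k p)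
      volume := by
    refine (integrableOn_iff_integrable_of_support_subset (s := tsupport φ ×ˢ tsupport χ) ?_).1
      (integrable_finset_sum _ (fun k _ => hk1 k))
    intro p hp
    by_contra h
    apply hp
    rcases hoff p h with h0 | ⟨_, h0⟩ <;> simp [h0]
  have hi2 : Integrable (fun p : V × T => (φ p.1 * χ p.2) • R p) volume := by
    refine (integrableOn_iff_integrable_of_support_subset (s := tsupport φ ×ˢ tsupport χ) ?_).1
      hk2
    intro p hp
    by_contra h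
    apply hp
    rcases hoff p h with h0 | ⟨h0, _⟩ <;> simp [h0]
  have hH : (fun p : V × T => χ p.2 • GST_H v f R φ p) = fun p =>
      (∑ k, (χ p.2 * fderiv ℝ φ p.1 (v k)) • f k p) - (φ p.1 * χ p.2) • R p := by
    funext p
    rw [GST_H, smul_sub, Finset.smul_sum]
    congr 1
    · refine Finset.sum_congr rfl (fun k _ => ?_)
      rw [smul_smul]
    · rw [smul_smul, mul_comm]
  have hint : Integrable (fun p : V × T => χ p.2 • GST_H v f R φ p) volume := by
    rw [hH]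
    exact hi1.sub hi2
  have hzero : ∫ p : V × T, χ p.2 • GST_H v f R φ p = 0 := by
    rw [hH, integral_sub hi1 hi2, sub_eq_zero]
    have h1 := heq _ hT
    rw [← h1]
    congr 1
    funext p
    refine Finset.sum_congr rfl (fun k _ => ?_)
    rw [hfd]
  have hint' : Integrable (fun p : V × T => χ p.2 • GST_H v f R φ p)
      ((volume : Measure V).prod (volume : Measure T)) := hint
  have hF := integral_prod_symm (fun p : V × T => χ p.2 • GST_H v f R φ p) hint'
  have hF2 : ∫ p : V × T, χ p.2 • GST_H v f R φ p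
      = ∫ t : T, ∫ y : V, χ t • GST_H v f R φ (y, t) := hF
  rw [hzero] at hF2
  rw [hF2]
  congr 1
  funext t
  rw [integral_smul]

theorem GST_fix {m : ℕ} (W₁ : Set V) (T₁ : Set T) (hT : IsOpen T₁) (v : Fin m → V) (f : Fin m → V × T → X)
    (R : V × T → X) (hf : ∀ k, L1loc (W₁ ×ˢ T₁) (f k)) (hR : L1loc (W₁ ×ˢ T₁) R)
    (heq : ∀ φ : V × T → ℝ, Test (W₁ ×ˢ T₁) φ →
      ∫ p, ∑ k, fderiv ℝ φ p (v k, 0) • f k p = ∫ p, φ p • R p)
    (φ : V → ℝ) (hφ : Test W₁ φ) :
    ∀ᵐ t ∂((volume : Measure T).restrict (T₁)), ∫ y, GST_H v f R φ (y, t) = 0 := by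
  rw [ae_restrict_iff' hT.measurableSet]
  refine hT.ae_eq_zero_of_integral_contDiff_smul_eq_zero ?_
    (fun χ h1 h2 h3 => GST_chi W₁ T₁ hT v f R hf hR heq φ hφ χ h1 h2 h3)
  rw [locallyIntegrableOn_iff hT.isLocallyClosed]
  intro C hCab hC
  have h := GST_H_int W₁ T₁ hT v f R hf hR φ hφ C hC hCab
  rw [IntegrableOn, Measure.volume_eq_prod, ← Measure.prod_restrict, Measure.restrict_univ] at h
  exact h.integral_prod_right

theorem GST_slice (W₁ : Set V) (T₁ : Set T) (hT : IsOpen T₁) (F : V × T → X) (hW : IsOpen W₁)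
    (hF : L1loc (W₁ ×ˢ T₁) F) :
    ∀ᵐ t ∂((volume : Measure T).restrict (T₁)), L1loc W₁ fun y => F (y, t) := by
  obtain ⟨K, hK, hKW, hKe⟩ := GSL_exh W₁ hW
  obtain ⟨C, hC, hCW, hCe⟩ := GSL_exh (T₁) hT
  have hU : T₁ = ⋃ n, C n := by
    refine Subset.antisymm (fun t ht => ?_) (iUnion_subset hCW)
    obtain ⟨n, hn⟩ := hCe {t} isCompact_singleton (singleton_subset_iff.2 ht)
    exact mem_iUnion.2 ⟨n, hn rfl⟩
  have h1 : ∀ j, ∀ᵐ t ∂((volume : Measure T).restrict (T₁)),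
      IntegrableOn (fun y => F (y, t)) (K j) volume := by
    intro j
    rw [hU, ae_restrict_iUnion_iff]
    intro n
    have h2 := hF (K j ×ˢ C n) ((hK j).prod (hC n)) (Set.prod_mono (hKW j) (hCW n))
    rw [IntegrableOn, Measure.volume_eq_prod, ← Measure.prod_restrict] at h2
    exact h2.prod_left_ae
  filter_upwards [ae_all_iff.2 h1] with t ht
  intro S hS hSW
  obtain ⟨j, hj⟩ := hKe S hS hSW
  exact (ht j).mono_set hj

end GSTsec

theorem p_GST (_hMOA : Pool.TIA.Stmt_MOA) : Stmt_GST := by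
  intro V T X _ _ _ _ _ _ _ _ _ _ _ _ _ _ _ W₁ T₁ m v f R hW hT hf hR heq
  have : ProperSpace V := FiniteDimensional.proper ℝ V
  have : SecondCountableTopology (V →L[ℝ] ℝ) := by
    have : ProperSpace (V →L[ℝ] ℝ) := FiniteDimensional.proper ℝ _
    infer_instance
  obtain ⟨K, hK, hKW, hKe⟩ := GSL_exh W₁ hW
  let S : ℕ → Set C(V, ℝ × (V →L[ℝ] ℝ)) := fun j =>
    {g | ∃ φ : V → ℝ, Test W₁ φ ∧ tsupport φ ⊆ K j ∧ ∀ y, g y = (φ y, fderiv ℝ φ y)}
  have hD : ∀ j, ∃ D : Set C(V, ℝ × (V →L[ℝ] ℝ)), D.Countable ∧ D ⊆ S j ∧ S j ⊆ closure D := by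
    intro j
    obtain ⟨t, htc, htd⟩ := TopologicalSpace.exists_countable_dense (S j)
    refine ⟨Subtype.val '' t, htc.image _, ?_, Subtype.dense_iff.1 htd⟩
    rintro _ ⟨x, _, rfl⟩
    exact x.2
  choose D hDc hDS hDd using hD
  have h1 : ∀ᵐ t ∂((volume : Measure T).restrict (T₁)), ∀ k,
      L1loc W₁ fun y => f k (y, t) := ae_all_iff.2 (fun k => GST_slice W₁ T₁ hT (f k) hW (hf k))
  have h2 := GST_slice W₁ T₁ hT R hW hR
  have h3 : ∀ᵐ t ∂((volume : Measure T).restrict (T₁)), ∀ j, ∀ g ∈ D j,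
      ∫ y in K j, ((∑ k, (g y).2 (v k) • f k (y, t)) - (g y).1 • R (y, t)) = 0 := by
    rw [ae_all_iff]
    intro j
    rw [ae_ball_iff (hDc j)]
    intro g hg
    obtain ⟨φ, hφ, hφK, hgφ⟩ := hDS j hg
    filter_upwards [GST_fix W₁ T₁ hT v f R hf hR heq φ hφ] with t ht
    have e1 : ∀ y, ((∑ k, (g y).2 (v k) • f k (y, t)) - (g y).1 • R (y, t))
        = GST_H v f R φ (y, t) := by
      intro y
      rw [hgφ y]
      rfl
    simp only [e1]
    rw [setIntegral_eq_integral_of_forall_compl_eq_zero, ht]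
    intro y hy
    have hy' : y ∉ tsupport φ := fun h => hy (hφK h)
    have e2 : φ y = 0 := image_eq_zero_of_notMem_tsupport hy'
    have e3 : fderiv ℝ φ y = 0 := by
      by_contra h
      exact hy' (tsupport_fderiv_subset ℝ (subset_tsupport _ h))
    simp [GST_H, e2, e3]
  filter_upwards [h1, h2, h3] with t h1 h2 h3
  refine ⟨h1, h2, fun φ hφ => ?_⟩
  obtain ⟨j, hj⟩ := hKe (tsupport φ) hφ.cpt hφ.sub
  let g : C(V, ℝ × (V →L[ℝ] ℝ)) := ⟨fun y => (φ y, fderiv ℝ φ y),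
    hφ.smooth.continuous.prodMk (hφ.smooth.continuous_fderiv (by simp))⟩
  have hg : g ∈ S j := ⟨φ, hφ, hj, fun y => rfl⟩
  have hcl : IsClosed {g : C(V, ℝ × (V →L[ℝ] ℝ)) |
      ∫ y in K j, ((∑ k, (g y).2 (v k) • f k (y, t)) - (g y).1 • R (y, t)) = 0} :=
    isClosed_eq (GSL_cont v (K j) (hK j) (fun k y => f k (y, t)) (fun y => R (y, t))
      (fun k => h1 k (K j) (hK j) (hKW j)) (h2 (K j) (hK j) (hKW j))) continuous_const
  have hg0 : ∫ y in K j, ((∑ k, (g y).2 (v k) • f k (y, t)) - (g y).1 • R (y, t)) = 0 :=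
    closure_minimal (h3 j) hcl (hDd j hg)
  have hg1 : ∫ y in K j, ((∑ k, fderiv ℝ φ y (v k) • f k (y, t)) - φ y • R (y, t)) = 0 := hg0
  have hi1 : IntegrableOn (fun y => ∑ k, fderiv ℝ φ y (v k) • f k (y, t)) (K j) volume :=
    integrable_finset_sum _ (fun k _ => GSL_sm (fun y => f k (y, t))
      (fun y => fderiv ℝ φ y (v k)) (GSL_fd hφ (v k)) (K j) (hK j) (h1 k (K j) (hK j) (hKW j)))
  have hi2 : IntegrableOn (fun y => φ y • R (y, t)) (K j) volume :=
    GSL_sm (fun y => R (y, t)) φ hφ.smooth.continuous (K j) (hK j) (h2 (K j) (hK j) (hKW j))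
  rw [integral_sub hi1 hi2, sub_eq_zero] at hg1
  rw [setIntegral_eq_integral_of_forall_compl_eq_zero,
    setIntegral_eq_integral_of_forall_compl_eq_zero] at hg1
  · exact hg1
  · intro y hy
    rw [image_eq_zero_of_notMem_tsupport (fun h => hy (hj h)), zero_smul]
  · intro y hy
    have e3 : fderiv ℝ φ y = 0 := by
      by_contra h
      exact hy (hj (tsupport_fderiv_subset ℝ (subset_tsupport _ h)))
    simp [e3]

end Pool.TIW
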