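import Pool.Agent.Work.MP_a1f430_wb.Interface3

set_option autoImplicit false

namespace Pool.TIW

open Pool.TIA
open MeasureTheory Set Filter Topology
open scoped ContDiff ENNReal

/-- the real linear map `v ↦ A v + B conj v` -/
noncomputable def HOZ_L (A B : ℂ) : ℂ →L[ℝ] ℂ :=
  A • ContinuousLinearMap.id ℝ ℂ + B • (Complex.conjCLE : ℂ →L[ℝ] ℂ)

theorem HOZ_L_apply (A B v : ℂ) : HOZ_L A B v = A * v + B * (starRingEnd ℂ) v := by
  simp [HOZ_L]

theorem HOZ_fd1 {f g : ℂ → ℂ} {f' g' z : ℂ} (hf : HasDerivAt f f' z) (hg : HasDerivAt g g' z)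
    (b : ℂ) :
    HasFDerivAt (𝕜 := ℝ) (fun w => b * (starRingEnd ℂ) (f w) * g w)
      (HOZ_L (b * (starRingEnd ℂ) (f z) * g') (b * (starRingEnd ℂ) f' * g z)) z := by
  have h1 : HasFDerivAt (𝕜 := ℝ) f _ z := hf.hasFDerivAt.restrictScalars ℝ
  have h2 : HasFDerivAt (𝕜 := ℝ) g _ z := hg.hasFDerivAt.restrictScalars ℝ
  have h3 : HasFDerivAt (𝕜 := ℝ) (fun w => (starRingEnd ℂ) (f w)) _ z :=
    (Complex.conjCLE : ℂ →L[ℝ] ℂ).hasFDerivAt.comp z h1
  have h4 := (h3.const_mul b).mul h2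
  refine h4.congr_fderiv ?_
  refine ContinuousLinearMap.ext fun v => ?_
  rw [HOZ_L_apply]
  simp
  ring

variable {ι : Type} [Fintype ι]

theorem HOZ_fd {f g : ι → ℂ → ℂ} {f' g' : ι → ℂ} {z : ℂ} (hf : ∀ j, HasDerivAt (f j) (f' j) z)
    (hg : ∀ j, HasDerivAt (g j) (g' j) z) (β : ι → ι → ℂ) :
    HasFDerivAt (𝕜 := ℝ) (fun w => ∑ j, ∑ k, β j k * (starRingEnd ℂ) (f j w) * g k w)
      (HOZ_L (∑ j, ∑ k, β j k * (starRingEnd ℂ) (f j z) * g' k)
        (∑ j, ∑ k, β j k * (starRingEnd ℂ) (f' j) * g k z)) z := by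
  have h : HasFDerivAt (𝕜 := ℝ) (fun w => ∑ j, ∑ k, β j k * (starRingEnd ℂ) (f j w) * g k w)
      (∑ j, ∑ k, HOZ_L (β j k * (starRingEnd ℂ) (f j z) * g' k)
        (β j k * (starRingEnd ℂ) (f' j) * g k z)) z :=
    HasFDerivAt.fun_sum fun j _ => HasFDerivAt.fun_sum fun k _ => HOZ_fd1 (hf j) (hg k) (β j k)
  refine h.congr_fderiv ?_
  refine ContinuousLinearMap.ext fun v => ?_
  simp only [ContinuousLinearMap.sum_apply, HOZ_L_apply, Finset.sum_mul, Finset.sum_add_distrib]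

theorem HOZ_L_zero {A B : ℂ} (h : HOZ_L A B = 0) : A = 0 ∧ B = 0 := by
  have h1 : A * 1 + B * (starRingEnd ℂ) 1 = 0 := by rw [← HOZ_L_apply, h]; rfl
  have h2 : A * Complex.I + B * (starRingEnd ℂ) Complex.I = 0 := by rw [← HOZ_L_apply, h]; rfl
  rw [map_one] at h1
  rw [Complex.conj_I] at h2
  have h3 : (A - B) * Complex.I = 0 := by linear_combination h2
  have h4 : A - B = 0 := (mul_eq_zero.mp h3).resolve_right Complex.I_ne_zero
  constructor
  · linear_combination (h1 + h4) / 2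
  · linear_combination (h1 - h4) / 2

theorem HOZ_next {U : Set ℂ} (hU : IsOpen U) {f g : ι → ℂ → ℂ} (β : ι → ι → ℂ)
    (hf : ∀ j, DifferentiableOn ℂ (f j) U) (hg : ∀ j, DifferentiableOn ℂ (g j) U)
    (h0 : ∀ z ∈ U, ∑ j, ∑ k, β j k * (starRingEnd ℂ) (f j z) * g k z = 0) :
    ∀ z ∈ U, ∑ j, ∑ k, β j k * (starRingEnd ℂ) (f j z) * deriv (g k) z = 0 := by
  intro z hz
  have h1 := HOZ_fd (fun j => ((hf j).differentiableAt (hU.mem_nhds hz)).hasDerivAt)
    (fun j => ((hg j).differentiableAt (hU.mem_nhds hz)).hasDerivAt) β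
  have h2 : HasFDerivAt (𝕜 := ℝ) (fun w => ∑ j, ∑ k, β j k * (starRingEnd ℂ) (f j w) * g k w)
      (0 : ℂ →L[ℝ] ℂ) z := by
    refine (hasFDerivAt_const (0 : ℂ) z).congr_of_eventuallyEq ?_
    filter_upwards [hU.mem_nhds hz] with w hw using h0 w hw
  exact (HOZ_L_zero (h1.unique h2)).1

theorem HOZ_iter {U : Set ℂ} (hU : IsOpen U) {g : ℂ → ℂ} (hg : DifferentiableOn ℂ g U) (n : ℕ) :
    DifferentiableOn ℂ (iteratedDeriv n g) U := by
  induction n with
  | zero => simpa [iteratedDeriv_zero] using hg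
  | succ n ih => rw [iteratedDeriv_succ]; exact ih.deriv hU

theorem p_HOZ : Stmt_HOZ := by
  intro ι _ z₀ z₁ r c h β hz₁ hc hh hc0 h0
  set U := Metric.ball z₀ r with hUdef
  have hU : IsOpen U := Metric.isOpen_ball
  have hT : ∀ n, ∀ z ∈ U,
      ∑ j, ∑ k, β j k * (starRingEnd ℂ) (deriv (c j) z) * iteratedDeriv n (h k) z = 0 := by
    intro n
    induction n with
    | zero => simpa [iteratedDeriv_zero] using h0
    | succ n ih =>
      have := HOZ_next hU β (fun j => (hc j).deriv hU) (fun j => HOZ_iter hU (hh j) n) ih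
      simpa [iteratedDeriv_succ] using this
  set S : ℕ → ℂ → ℂ := fun n z =>
    ∑ j, ∑ k, β j k * (starRingEnd ℂ) (c j z) * iteratedDeriv n (h k) z with hS
  have hSd : ∀ n, ∀ z ∈ U, HasDerivAt (S n) (S (n + 1) z) z := by
    intro n z hz
    have h1 := HOZ_fd (fun j => ((hc j).differentiableAt (hU.mem_nhds hz)).hasDerivAt)
      (fun j => ((HOZ_iter hU (hh j) n).differentiableAt (hU.mem_nhds hz)).hasDerivAt) β
    rw [hT n z hz] at h1
    refine hasDerivAt_iff_hasFDerivAt.mpr (hasFDerivAt_of_restrictScalars ℝ h1 ?_)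
    refine ContinuousLinearMap.ext fun v => ?_
    rw [HOZ_L_apply]
    simp [hS, iteratedDeriv_succ, mul_comm]
  have hSi : ∀ n, ∀ z ∈ U, iteratedDeriv n (S 0) z = S n z := by
    intro n
    induction n with
    | zero => intro z _; rw [iteratedDeriv_zero]
    | succ n ih =>
      intro z hz
      rw [iteratedDeriv_succ]
      have : iteratedDeriv n (S 0) =ᶠ[𝓝 z] S n := by
        filter_upwards [hU.mem_nhds hz] with w hw using ih w hw
      rw [this.deriv_eq, (hSd n z hz).deriv]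
  have hSD : DifferentiableOn ℂ (S 0) U := fun z hz =>
    (hSd 0 z hz).differentiableAt.differentiableWithinAt
  have hS0 : ∀ n, S n z₁ = 0 := by
    intro n
    simp [hS, hc0]
  obtain ⟨ε, hε, hεU⟩ := Metric.isOpen_iff.mp hU z₁ hz₁
  have hev : S 0 =ᶠ[𝓝 z₁] 0 := by
    filter_upwards [Metric.ball_mem_nhds z₁ hε] with w hw
    have h1 := Complex.hasSum_taylorSeries_on_ball (hSD.mono hεU) hw
    have h2 : (fun n : ℕ => (n.factorial : ℂ)⁻¹ • (w - z₁) ^ n • iteratedDeriv n (S 0) z₁) =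
        fun _ => 0 := by
      funext n
      rw [hSi n z₁ hz₁, hS0]; simp
    rw [h2] at h1
    exact h1.unique hasSum_zero
  have hfin := (hSD.analyticOnNhd hU).eqOn_zero_of_preconnected_of_eventuallyEq_zero
    (convex_ball z₀ r).isPreconnected hz₁ hev
  intro z hz
  have := hfin hz
  simpa [hS, iteratedDeriv_zero] using this

end Pool.TIW
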