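import Pool.Agent.Work.MP_a1f430_wb.Interface3
import Pool.Agent.Work.MP_a1f430_wb.B_SSL

/-! # Block HPB: holomorphic pairs for one connection (MP_a1f430, THEOREM J) -/

set_option autoImplicit false

namespace Pool.TIW

open Pool.TIA
open MeasureTheory Set Filter Topology
open scoped ContDiff ENNReal

section

variable {V : Type} [NormedAddCommGroup V] [NormedSpace ℝ V]

/-- `v ↦ l v p - l (J v) q` as a linear map -/
noncomputable def HPB_G5 {𝔐 : Type} [NormedRing 𝔐] [NormedAlgebra ℝ 𝔐] (l : V →L[ℝ] ℝ)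
    (J : V →L[ℝ] V) (p q : 𝔐) : V →ₗ[ℝ] 𝔐 where
  toFun v := l v • p - l (J v) • q
  map_add' u v := by
    simp only [map_add, add_smul]
    abel
  map_smul' c v := by
    simp only [map_smul, smul_eq_mul, mul_smul, RingHom.id_apply, smul_sub]

/-- `v ↦ [B v, p] - [B (J v), q]` as a linear map -/
noncomputable def HPB_G6 {𝔐 : Type} [NormedRing 𝔐] [NormedAlgebra ℝ 𝔐] (B : V →L[ℝ] 𝔐)
    (J : V →L[ℝ] V) (p q : 𝔐) : V →ₗ[ℝ] 𝔐 where
  toFun v := brk (B v) p - brk (B (J v)) q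
  map_add' u v := by
    simp only [brk, map_add, add_mul, mul_add]
    abel
  map_smul' c v := by
    simp only [brk, map_smul, smul_mul_assoc, mul_smul_comm, RingHom.id_apply, smul_sub]

variable [FiniteDimensional ℝ V] [MeasureSpace V] [BorelSpace V]
  [(volume : Measure V).IsAddHaarMeasure]

omit [BorelSpace V] in
/-- The slices of a set of full measure. -/
theorem HPB_ae (K : Set V) (I : Set ℂ) {P : V × ℂ → Prop}
    (h : ∀ᵐ p ∂(volume.restrict (K ×ˢ I)), P p) :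
    ∀ᵐ t ∂(volume.restrict I), ∀ᵐ y ∂(volume.restrict K), P (y, t) := by
  rw [Measure.volume_eq_prod, ← Measure.prod_restrict] at h
  have h1 : ∀ᵐ q ∂((volume.restrict I : Measure ℂ).prod (volume.restrict K : Measure V)),
      P q.swap :=
    (Measure.measurePreserving_swap (μ := (volume.restrict I : Measure ℂ))
      (ν := (volume.restrict K : Measure V))).quasiMeasurePreserving.ae h
  exact Measure.ae_ae_of_ae_prod h1

end

section main

variable {𝔐 : Type} [NormedRing 𝔐] [NormedAlgebra ℝ 𝔐] [StarRing 𝔐]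
  [FiniteDimensional ℝ 𝔐] {V : Type} [NormedAddCommGroup V]
  [NormedSpace ℝ V] [FiniteDimensional ℝ V] [MeasureSpace V] [BorelSpace V]
  [(volume : Measure V).IsAddHaarMeasure] {J : V →L[ℝ] V} {W₁ : Set V} {D : Set ℂ}
  {A : V × ℂ → V × ℂ →L[ℝ] 𝔐} {P Q : V × ℂ → 𝔐}

omit [StarRing 𝔐] in
/-- The slices of the equation for one vector. -/
theorem HPB_slice (hGST : Stmt_GST) (hW : IsOpen W₁) (hD : IsOpen D)
    (hA : L2loc (W₁ ×ˢ D) A) (hH : HolP (W₁ ×ˢ D) A (JC J) P Q) (v : V) :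
    ∀ᵐ z ∂(volume.restrict D), ∀ φ : V → ℝ, Test W₁ φ →
      ∫ y, (fderiv ℝ φ y v • P (y, z) - fderiv ℝ φ y (J v) • Q (y, z)) =
        ∫ y, φ y • (brk (A (y, z) (v, 0)) (P (y, z)) - brk (A (y, z) (J v, 0)) (Q (y, z))) := by
  have hA1 := BIT_evA hA (v, 0)
  have hA2 := BIT_evA hA (J v, 0)
  have hR : L1loc (W₁ ×ˢ D) (fun p => brk (A p (v, 0)) (P p) - brk (A p (J v, 0)) (Q p)) := by
    intro K hK hKW
    exact ((BIT_mul hA1 hH.P2 K hK hKW).sub (BIT_mul hH.P2 hA1 K hK hKW)).sub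
      ((BIT_mul hA2 hH.Q2 K hK hKW).sub (BIT_mul hH.Q2 hA2 K hK hKW))
  have h := hGST V ℂ 𝔐 W₁ D 2 ![v, J v] ![P, fun p => -Q p] _ hW hD
    (fun k => by
      fin_cases k
      · exact BIT_L1 hH.P2
      · exact fun K hK hKW => (BIT_L1 hH.Q2 K hK hKW).neg) hR (fun φ hφ => by
      have h1 := hH.eq (v, 0) φ hφ
      have hJ : JC J (v, 0) = (J v, 0) := by rw [JC_apply, mul_zero]
      rw [hJ] at h1
      refine Eq.trans ?_ (h1.trans ?_)
      · refine integral_congr_ae (Eventually.of_forall fun p => ?_)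
        beta_reduce
        rw [Fin.sum_univ_two, Fin.sum_univ_two]
        rfl
      · refine integral_congr_ae (Eventually.of_forall fun p => ?_)
        beta_reduce
        rw [Fin.sum_univ_two]
        show φ p • ((A p (v, 0) * P p - P p * A p (v, 0)) +
          (A p (J v, 0) * (-Q p) - (-Q p) * A p (J v, 0)) - 0) = _
        simp only [brk, mul_neg, neg_mul]
        congr 1
        abel)
  filter_upwards [h] with z hz φ hφ
  have h2 := hz.2.2 φ hφ
  rw [← h2]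
  refine integral_congr_ae (Eventually.of_forall fun p => ?_)
  beta_reduce
  rw [Fin.sum_univ_two, sub_eq_add_neg, ← smul_neg]
  rfl

end main

theorem p_HPB (_hFUB : Stmt_FUB) (hSL2 : Stmt_SL2) (hGST : Stmt_GST) (hKEY : Stmt_KEY) :
    Stmt_HPB := by
  intro 𝔐 _ _ _ _ _ _ 𝒢 V _ _ _ _ _ _ J W₁ z₀ r A F z₁ P Q hF hG hH
  let B := Module.finBasis ℝ V
  have hW : IsOpen W₁ := hF.op
  have hD : IsOpen (Metric.ball z₀ r) := Metric.isOpen_ball
  have h1 := (hSL2 V ℂ 𝔐 W₁ (Metric.ball z₀ r) P hW hD hH.P2).1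
  have h2 := (hSL2 V ℂ 𝔐 W₁ (Metric.ball z₀ r) Q hW hD hH.Q2).1
  have h3 := HPB_ae W₁ (Metric.ball z₀ r)
    (hKEY 𝔐 𝒢 V J W₁ z₀ r A F z₁ P Q hF hG hH)
  have h4 := ae_all_iff.2 fun k => HPB_slice hGST hW hD hF.conn.A2 hH (B k)
  filter_upwards [h1, h2, h3, h4] with z hP hQ hkey hsl
  have hev : ∀ w : V, L2loc W₁ (fun y => rc1 A z₁ y w) := fun w => BIT_evA hG.conn.A2 w
  refine ⟨hP, hQ, fun v φ hφ => ?_⟩
  have j1 : ∀ k : Fin (Module.finrank ℝ V), Integrable (fun y =>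
      HPB_G5 (fderiv ℝ φ y) J (P (y, z)) (Q (y, z)) (B k)) := fun k =>
    (BIT_int (BIT_test hφ (B k)) (BIT_L1 hP)).sub
      (BIT_int (BIT_test hφ (J (B k))) (BIT_L1 hQ))
  have j2 : ∀ k : Fin (Module.finrank ℝ V), Integrable (fun y =>
      φ y • HPB_G6 (rc1 A z₁ y) J (P (y, z)) (Q (y, z)) (B k)) := fun k =>
    BIT_int hφ fun K hK hKW =>
      ((BIT_mul (hev (B k)) hP K hK hKW).sub (BIT_mul hP (hev (B k)) K hK hKW)).sub
        ((BIT_mul (hev (J (B k))) hQ K hK hKW).sub (BIT_mul hQ (hev (J (B k))) K hK hKW))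
  have s1 := SSL_sum (fun k : Fin (Module.finrank ℝ V) => B.coord k v) _ j1
    (fun y => HPB_G5 (fderiv ℝ φ y) J (P (y, z)) (Q (y, z)) v) fun y => SSL_lin B _ v
  have s2 := SSL_sum (fun k : Fin (Module.finrank ℝ V) => B.coord k v) _ j2
    (fun y => φ y • HPB_G6 (rc1 A z₁ y) J (P (y, z)) (Q (y, z)) v) fun y => by
      rw [SSL_lin B, Finset.smul_sum]
      exact Finset.sum_congr rfl fun k _ => smul_comm _ _ _
  have e1 : ∫ y, ∑ k : Fin 2, fderiv ℝ φ y ((![v, J v] : Fin 2 → V) k) •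
      (![fun w => P (w, z), fun x => -Q (x, z)] : Fin 2 → V → 𝔐) k y =
      ∫ y, HPB_G5 (fderiv ℝ φ y) J (P (y, z)) (Q (y, z)) v := by
    refine integral_congr_ae (Eventually.of_forall fun y => ?_)
    beta_reduce
    rw [Fin.sum_univ_two]
    show fderiv ℝ φ y v • P (y, z) + fderiv ℝ φ y (J v) • (-Q (y, z)) =
      fderiv ℝ φ y v • P (y, z) - fderiv ℝ φ y (J v) • Q (y, z)
    rw [smul_neg, sub_eq_add_neg]
  have e2 : ∫ y, φ y • ((∑ k : Fin 2, (rc1 A z₁ y ((![v, J v] : Fin 2 → V) k) *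
      (![fun w => P (w, z), fun x => -Q (x, z)] : Fin 2 → V → 𝔐) k y -
      (![fun w => P (w, z), fun x => -Q (x, z)] : Fin 2 → V → 𝔐) k y *
        rc1 A z₁ y ((![v, J v] : Fin 2 → V) k))) - 0) =
      ∫ y, φ y • HPB_G6 (rc1 A z₁ y) J (P (y, z)) (Q (y, z)) v := by
    refine integral_congr_ae (Eventually.of_forall fun y => ?_)
    beta_reduce
    rw [Fin.sum_univ_two]
    show φ y • ((rc1 A z₁ y v * P (y, z) - P (y, z) * rc1 A z₁ y v) +
      (rc1 A z₁ y (J v) * (-Q (y, z)) - (-Q (y, z)) * rc1 A z₁ y (J v)) - 0) =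
      φ y • (brk (rc1 A z₁ y v) (P (y, z)) - brk (rc1 A z₁ y (J v)) (Q (y, z)))
    simp only [brk, mul_neg, neg_mul]
    congr 1
    abel
  refine e1.trans (Eq.trans ?_ e2.symm)
  rw [s1, s2]
  refine Finset.sum_congr rfl fun k _ => congrArg _ ?_
  refine (hsl k φ hφ).trans (BIT_congr hW hφ ?_)
  filter_upwards [hkey] with y hy
  refine sub_eq_zero.1 (Eq.trans ?_ (hy (B k)))
  show brk (A (y, z) (B k, 0)) (P (y, z)) - brk (A (y, z) (J (B k), 0)) (Q (y, z)) -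
    (brk (A (y, z₁) (B k, 0)) (P (y, z)) - brk (A (y, z₁) (J (B k), 0)) (Q (y, z))) =
    brk (A (y, z) (B k, 0) - A (y, z₁) (B k, 0)) (P (y, z)) -
      brk (A (y, z) (J (B k), 0) - A (y, z₁) (J (B k), 0)) (Q (y, z))
  simp only [brk, sub_mul, mul_sub]
  abel

end Pool.TIW
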