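import Pool.Agent.Work.MP_a1f430_wb.Interface3

set_option autoImplicit false

namespace Pool.TIW

open Pool.TIA
open MeasureTheory Set Filter Topology
open scoped ContDiff ENNReal

theorem p_INJ (hSTJ : Stmt_STJ) (hTRJ : Stmt_TRJ) (hGJ0 : Stmt_GJ0) (hDCJ : Stmt_DCJ) :
    Stmt_INJ := by
  intro 𝔐 _ _ _ _ _ _ 𝒢 n
  induction n using Nat.twoStepInduction with
  | zero => intro J _; exact hGJ0 𝔐 𝒢 J
  | one => intro J hJ; exact absurd hJ (hDCJ.1 J)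
  | more n ih _ =>
    intro J hJ
    obtain ⟨J', L, hJ', hL⟩ := hDCJ.2 n J hJ
    exact hTRJ 𝔐 𝒢 (Eu n × ℂ) (Eu (n + 2)) L (JC J') J hL
      (hSTJ 𝔐 𝒢 (Eu n) J' hJ' (ih J' hJ'))

end Pool.TIW
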