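import Pool.Agent.Work.MP_a1f430_wb.Interface3
import Pool.Agent.Work.MP_a1f430_wb.B_BIT

/-! # Block JWH: conjugation of a weakly holomorphic pair by a gauge change of the slices
(MP_a1f430, THEOREM J, helper90) -/

set_option autoImplicit false

namespace Pool.TIW

open Pool.TIA
open MeasureTheory Set Filter Topology
open scoped ContDiff ENNReal

section

variable {V : Type} [NormedAddCommGroup V] [NormedSpace ℝ V]

theorem JWH_off {φ : V × ℂ → ℝ} {p : V × ℂ} (hp : p ∉ tsupport φ) : fderiv ℝ φ p = 0 := by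
  by_contra h
  exact hp (tsupport_fderiv_subset ℝ (subset_tsupport _ h))

theorem JWH_slice1 {W₂ : Set V} {D : Set ℂ} {φ : V × ℂ → ℝ} (hφ : Test (W₂ ×ˢ D) φ) (z : ℂ) :
    Test W₂ (fun w => φ (w, z)) := by
  have hc : Continuous (fun w : V => (w, z)) := continuous_id.prodMk continuous_const
  have hcl : IsClosed {w : V | (w, z) ∈ tsupport φ} := (isClosed_tsupport φ).preimage hc
  have hsub : tsupport (fun w => φ (w, z)) ⊆ {w : V | (w, z) ∈ tsupport φ} := by
    refine closure_minimal ?_ hcl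
    intro w hw
    exact subset_tsupport φ hw
  refine ⟨hφ.smooth.comp (contDiff_id.prodMk contDiff_const), ?_, ?_⟩
  · have hK : IsCompact (Prod.fst '' tsupport φ) := hφ.cpt.image continuous_fst
    exact hK.of_isClosed_subset (isClosed_tsupport _) (fun w hw => ⟨(w, z), hsub hw, rfl⟩)
  · intro w hw
    exact (hφ.sub (hsub hw)).1

theorem JWH_slice2 {W₂ : Set V} {D : Set ℂ} {φ : V × ℂ → ℝ} (hφ : Test (W₂ ×ˢ D) φ) (w : V) :
    Test D (fun z => φ (w, z)) := by
  have hc : Continuous (fun z : ℂ => (w, z)) := continuous_const.prodMk continuous_id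
  have hcl : IsClosed {z : ℂ | (w, z) ∈ tsupport φ} := (isClosed_tsupport φ).preimage hc
  have hsub : tsupport (fun z => φ (w, z)) ⊆ {z : ℂ | (w, z) ∈ tsupport φ} := by
    refine closure_minimal ?_ hcl
    intro z hz
    exact subset_tsupport φ hz
  refine ⟨hφ.smooth.comp (contDiff_const.prodMk contDiff_id), ?_, ?_⟩
  · have hK : IsCompact (Prod.snd '' tsupport φ) := hφ.cpt.image continuous_snd
    exact hK.of_isClosed_subset (isClosed_tsupport _) (fun z hz => ⟨(w, z), hsub hz, rfl⟩)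
  · intro z hz
    exact (hφ.sub (hsub hz)).2

theorem JWH_fd1 {φ : V × ℂ → ℝ} (hφ : ContDiff ℝ ∞ φ) (w : V) (z : ℂ) (v : V) :
    fderiv ℝ (fun w => φ (w, z)) w v = fderiv ℝ φ (w, z) (v, 0) := by
  have h1 : HasFDerivAt φ (fderiv ℝ φ (w, z)) (w, z) :=
    ((hφ.differentiable (by simp)) (w, z)).hasFDerivAt
  have h2 : HasFDerivAt (fun w : V => (w, z)) (ContinuousLinearMap.inl ℝ V ℂ) w :=
    hasFDerivAt_prodMk_left w z
  have h3 := (h1.comp w h2).fderiv
  have h4 : fderiv ℝ (fun w => φ (w, z)) w =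
      (fderiv ℝ φ (w, z)).comp (ContinuousLinearMap.inl ℝ V ℂ) := h3
  rw [h4, ContinuousLinearMap.comp_apply, ContinuousLinearMap.inl_apply]

theorem JWH_fd2 {φ : V × ℂ → ℝ} (hφ : ContDiff ℝ ∞ φ) (w : V) (z : ℂ) (ζ : ℂ) :
    fderiv ℝ (fun z => φ (w, z)) z ζ = fderiv ℝ φ (w, z) (0, ζ) := by
  have h1 : HasFDerivAt φ (fderiv ℝ φ (w, z)) (w, z) :=
    ((hφ.differentiable (by simp)) (w, z)).hasFDerivAt
  have h2 : HasFDerivAt (fun z : ℂ => (w, z)) (ContinuousLinearMap.inr ℝ V ℂ) z :=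
    hasFDerivAt_prodMk_right w z
  have h3 := (h1.comp z h2).fderiv
  have h4 : fderiv ℝ (fun z => φ (w, z)) z =
      (fderiv ℝ φ (w, z)).comp (ContinuousLinearMap.inr ℝ V ℂ) := h3
  rw [h4, ContinuousLinearMap.comp_apply, ContinuousLinearMap.inr_apply]

variable [FiniteDimensional ℝ V] [MeasureSpace V] [BorelSpace V]
  [(volume : Measure V).IsAddHaarMeasure]

variable {𝔐 : Type} [NormedRing 𝔐] [NormedAlgebra ℝ 𝔐] [StarRing 𝔐] [CStarRing 𝔐]
  [StarModule ℝ 𝔐] [FiniteDimensional ℝ 𝔐]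

theorem JWH_ae {W₂ : Set V} {D : Set ℂ} (P : V → Prop) (hP : ∀ᵐ x ∂(volume.restrict W₂), P x) :
    ∀ᵐ p ∂((volume : Measure (V × ℂ)).restrict (W₂ ×ˢ D)), P p.1 := by
  rw [Measure.volume_eq_prod, ← Measure.prod_restrict]
  exact Measure.quasiMeasurePreserving_fst.ae hP

theorem JWH_L2 (hLIE : Pool.TIA.Stmt_LIE) {𝒢 : LieG 𝔐} {W₂ : Set V} {D : Set ℂ} {k : V → 𝔐}
    (hk : L2loc W₂ k) (hkG : ∀ᵐ x ∂(volume.restrict W₂), k x ∈ 𝒢.G) {P : V × ℂ → 𝔐}
    (hP : L2loc (W₂ ×ˢ D) P) :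
    L2loc (W₂ ×ˢ D) (fun p => star (k p.1) * P p * k p.1) := by
  intro K hK hKW
  have : ProperSpace V := FiniteDimensional.proper ℝ V
  have hK1 : IsCompact (Prod.fst '' K) := hK.image continuous_fst
  have hK2 : Prod.fst '' K ⊆ W₂ := by
    rintro _ ⟨p, hp, rfl⟩
    exact (hKW hp).1
  have h1 : AEStronglyMeasurable k (volume.restrict (Prod.fst '' K)) := (hk _ hK1 hK2).1
  have h2 : AEStronglyMeasurable (fun p : V × ℂ => k p.1)
      ((volume.restrict (Prod.fst '' K)).prod ((volume : Measure ℂ).restrict univ)) :=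
    h1.comp_fst
  rw [Measure.prod_restrict, ← Measure.volume_eq_prod] at h2
  have hs : K ⊆ (Prod.fst '' K) ×ˢ (univ : Set ℂ) := fun p hp => ⟨⟨p, hp, rfl⟩, mem_univ _⟩
  have h3 : AEStronglyMeasurable (fun p : V × ℂ => k p.1) (volume.restrict K) :=
    h2.mono_set hs
  have h4 : AEStronglyMeasurable (fun p : V × ℂ => star (k p.1)) (volume.restrict K) :=
    continuous_star.comp_aestronglyMeasurable h3
  refine (hP K hK hKW).of_le ((h4.mul (hP K hK hKW).1).mul h3) ?_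
  have h5 := ae_restrict_of_ae_restrict_of_subset hKW (JWH_ae (D := D) _ hkG)
  filter_upwards [h5] with p hp
  have h6 := (hLIE 𝔐 𝒢).2.2
  have h7 : ‖star (k p.1) * P p * k p.1‖ = ‖P p‖ := by
    rw [(h6 _ hp _).2, (h6 _ (𝒢.star_mem _ hp) _).1]
  exact h7.le

/-- Conjugation by a fixed element. -/
noncomputable def JWH_cj (g : 𝔐) : 𝔐 →L[ℝ] 𝔐 :=
  (ContinuousLinearMap.mul ℝ 𝔐 (star g)).comp ((ContinuousLinearMap.mul ℝ 𝔐).flip g)

theorem JWH_cj_apply (g X : 𝔐) : JWH_cj g X = star g * X * g := by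
  show star g * (X * g) = _
  rw [mul_assoc]

end

theorem p_JWH (hLIE : Pool.TIA.Stmt_LIE) (hZSL : Stmt_ZSL) : Stmt_JWH := by
  intro 𝔐 _ _ _ _ _ _ 𝒢 V _ _ _ _ _ _ J W₂ z₀ r B S k dk P Q hW₂ hG hZ hH
  have : ProperSpace V := FiniteDimensional.proper ℝ V
  have hP' := JWH_L2 hLIE (D := Metric.ball z₀ r) hG.g2 hG.inG hZ.P2
  have hQ' := JWH_L2 hLIE (D := Metric.ball z₀ r) hG.g2 hG.inG hZ.Q2
  refine ⟨hP', hQ', ?_⟩
  rintro φ hφ ⟨v, ζ⟩
  have hi : ∀ u : V × ℂ, Integrable (fun p => fderiv ℝ φ p u • (star (k p.1) * P p * k p.1)) :=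
    fun u => BIT_int (BIT_test hφ u) (BIT_L1 hP')
  have hj : ∀ u : V × ℂ, Integrable (fun p => fderiv ℝ φ p u • (star (k p.1) * Q p * k p.1)) :=
    fun u => BIT_int (BIT_test hφ u) (BIT_L1 hQ')
  have s1 : Integrable (fun p : V × ℂ =>
      fderiv ℝ φ p (v, 0) • (star (k p.1) * P p * k p.1) -
        fderiv ℝ φ p (J v, 0) • (star (k p.1) * Q p * k p.1)) := (hi _).sub (hj _)
  have s2 : Integrable (fun p : V × ℂ =>
      fderiv ℝ φ p (0, ζ) • (star (k p.1) * P p * k p.1) -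
        fderiv ℝ φ p (0, Complex.I * ζ) • (star (k p.1) * Q p * k p.1)) := (hi _).sub (hj _)
  -- the horizontal part
  have e1 : ∫ p : V × ℂ, (fderiv ℝ φ p (v, 0) • (star (k p.1) * P p * k p.1) -
        fderiv ℝ φ p (J v, 0) • (star (k p.1) * Q p * k p.1)) = 0 := by
    rw [Measure.volume_eq_prod] at s1 ⊢
    rw [integral_prod_symm _ s1]
    refine integral_eq_zero_of_ae ?_
    filter_upwards [(ae_restrict_iff' measurableSet_ball).1 hH] with z hz
    by_cases hzD : z ∈ Metric.ball z₀ r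
    · have h1 := (hz hzD).eq (fun w => φ (w, z)) (JWH_slice1 hφ z) v
      simp only [JWH_fd1 hφ.smooth] at h1
      exact h1
    · have h1 : ∀ w, fderiv ℝ φ (w, z) = 0 := fun w => JWH_off fun h2 => hzD (hφ.sub h2).2
      simp only [h1, _root_.zero_apply, zero_smul, sub_zero, integral_zero, Pi.zero_apply]
  -- the vertical part
  have e2 : ∫ p : V × ℂ, (fderiv ℝ φ p (0, ζ) • (star (k p.1) * P p * k p.1) -
        fderiv ℝ φ p (0, Complex.I * ζ) • (star (k p.1) * Q p * k p.1)) = 0 := by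
    rw [Measure.volume_eq_prod] at s2 ⊢
    rw [integral_prod _ s2]
    refine integral_eq_zero_of_ae ?_
    filter_upwards [(ae_restrict_iff' hW₂.measurableSet).1 (hZSL V 𝔐 W₂ z₀ r P Q hW₂ hZ)]
      with w hw
    by_cases hwW : w ∈ W₂
    · have h1 := hw hwW
      have hT := JWH_slice2 hφ w
      have h2 := h1.eq (fun z => φ (w, z)) hT ζ
      have h3 : Integrable (fun z => fderiv ℝ (fun z => φ (w, z)) z ζ • P (w, z) -
          fderiv ℝ (fun z => φ (w, z)) z (mulI ζ) • Q (w, z)) :=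
        (BIT_int (BIT_test hT ζ) (BIT_L1 h1.P2)).sub
          (BIT_int (BIT_test hT (mulI ζ)) (BIT_L1 h1.Q2))
      have h4 := (JWH_cj (k w)).integral_comp_comm h3
      rw [h2, map_zero] at h4
      show ∫ z, (fderiv ℝ φ (w, z) (0, ζ) • (star (k w) * P (w, z) * k w) -
        fderiv ℝ φ (w, z) (0, Complex.I * ζ) • (star (k w) * Q (w, z) * k w)) = 0
      rw [← h4]
      refine integral_congr_ae (Eventually.of_forall fun z => ?_)
      beta_reduce
      rw [map_sub, map_smul, map_smul, JWH_cj_apply, JWH_cj_apply, JWH_fd2 hφ.smooth,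
        JWH_fd2 hφ.smooth, mulI_apply]
    · have h1 : ∀ z, fderiv ℝ φ (w, z) = 0 := fun z => JWH_off fun h2 => hwW (hφ.sub h2).1
      simp only [h1, _root_.zero_apply, zero_smul, sub_zero, integral_zero, Pi.zero_apply]
  have e3 := integral_add s1 s2
  rw [e1, e2, add_zero] at e3
  rw [← e3]
  refine integral_congr_ae (Eventually.of_forall fun p => ?_)
  beta_reduce
  have a1 : ((v, ζ) : V × ℂ) = (v, 0) + (0, ζ) := by simp
  have a2 : JC J (v, ζ) = (J v, 0) + (0, Complex.I * ζ) := by rw [JC_apply]; simp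
  rw [a2, a1, map_add, map_add, add_smul, add_smul]
  abel

end Pool.TIW
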