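import Pool.Agent.Work.MP_a1f430_wb.Interface3

/-! # Block KER (MP_a1f430, THEOREM J): a mean value kernel for holomorphic pairs (helper74) -/

set_option autoImplicit false

namespace Pool.TIW

open Pool.TIA
open MeasureTheory Set Filter Topology
open scoped ContDiff ENNReal

section KER

variable {E : Type} [NormedAddCommGroup E] [NormedSpace ℝ E]

/-- the rotation `cos θ + sin θ J` -/
noncomputable def KER_R (J : E →L[ℝ] E) (θ : ℝ) : E →L[ℝ] E :=
  Real.cos θ • ContinuousLinearMap.id ℝ E + Real.sin θ • J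

theorem KER_R_apply (J : E →L[ℝ] E) (θ : ℝ) (u : E) :
    KER_R J θ u = Real.cos θ • u + Real.sin θ • J u := by
  simp [KER_R]

variable [FiniteDimensional ℝ E]

/-- an invariant quadratic form -/
noncomputable def KER_N (J : E →L[ℝ] E) (u : E) : ℝ :=
  ‖toEuclidean u‖ ^ 2 + ‖toEuclidean (J u)‖ ^ 2

theorem KER_N_nonneg (J : E →L[ℝ] E) (u : E) : 0 ≤ KER_N J u := by
  unfold KER_N; positivity

theorem KER_N_smooth (J : E →L[ℝ] E) : ContDiff ℝ ∞ (KER_N J) := by
  unfold KER_N
  have h1 : ContDiff ℝ ∞ (fun u : E => toEuclidean u) :=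
    (toEuclidean (E := E)).contDiff
  exact (h1.norm_sq ℝ).add ((h1.comp J.contDiff).norm_sq ℝ)

theorem KER_N_comb (J : E →L[ℝ] E) (hJ : Cpx J) (a b : ℝ) (u : E) :
    KER_N J (a • u + b • J u) = (a ^ 2 + b ^ 2) * KER_N J u := by
  have e1 : toEuclidean (a • u + b • J u) = a • toEuclidean u + b • toEuclidean (J u) := by
    rw [map_add, map_smul, map_smul]
  have e2 : toEuclidean (J (a • u + b • J u)) = a • toEuclidean (J u) - b • toEuclidean u := by
    rw [map_add, map_smul, map_smul, hJ u, smul_neg, map_add, map_neg, map_smul, map_smul,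
      sub_eq_add_neg]
  unfold KER_N
  rw [e1, e2]
  set v := toEuclidean u
  set w := toEuclidean (J u)
  rw [norm_add_sq_real, norm_sub_sq_real, norm_smul, norm_smul, norm_smul, norm_smul,
    real_inner_smul_left, real_inner_smul_right, real_inner_smul_left, real_inner_smul_right,
    real_inner_comm v w]
  simp only [mul_pow, Real.norm_eq_abs, sq_abs]
  ring

theorem KER_N_R (J : E →L[ℝ] E) (hJ : Cpx J) (θ : ℝ) (u : E) :
    KER_N J (KER_R J θ u) = KER_N J u := by
  rw [KER_R_apply, KER_N_comb J hJ, Real.cos_sq_add_sin_sq, one_mul]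

theorem KER_bound (J : E →L[ℝ] E) : ∃ c : ℝ, 0 < c ∧ ∀ u : E, ‖u‖ ^ 2 ≤ c ^ 2 * KER_N J u := by
  obtain ⟨L, hL⟩ : ∃ L : EuclideanSpace ℝ (Fin (Module.finrank ℝ E)) →L[ℝ] E,
      L = ((toEuclidean (E := E)).symm : EuclideanSpace ℝ (Fin (Module.finrank ℝ E)) →L[ℝ] E) :=
    ⟨_, rfl⟩
  refine ⟨‖L‖ + 1, by positivity, fun u => ?_⟩
  have h1 : ‖u‖ ≤ ‖L‖ * ‖toEuclidean u‖ := by
    have h2 : L (toEuclidean u) = u := by simp [hL]
    calc ‖u‖ = ‖L (toEuclidean u)‖ := by rw [h2]
      _ ≤ _ := L.le_opNorm _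
  have h3 : ‖u‖ ≤ (‖L‖ + 1) * ‖toEuclidean u‖ := by
    refine h1.trans ?_
    exact mul_le_mul_of_nonneg_right (by linarith) (norm_nonneg _)
  calc ‖u‖ ^ 2 ≤ ((‖L‖ + 1) * ‖toEuclidean u‖) ^ 2 := pow_le_pow_left₀ (norm_nonneg _) h3 2
    _ = (‖L‖ + 1) ^ 2 * ‖toEuclidean u‖ ^ 2 := by ring
    _ ≤ (‖L‖ + 1) ^ 2 * KER_N J u := by
        refine mul_le_mul_of_nonneg_left ?_ (by positivity)
        unfold KER_N
        have : 0 ≤ ‖toEuclidean (J u)‖ ^ 2 := by positivity
        linarith

theorem KER_compact (J : E →L[ℝ] E) (d : ℝ) : IsCompact {u : E | KER_N J u ≤ d} := by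
  obtain ⟨c, hc, hb⟩ := KER_bound J
  refine Metric.isCompact_of_isClosed_isBounded
    (isClosed_le (KER_N_smooth J).continuous continuous_const) ?_
  refine (Metric.isBounded_closedBall (x := (0 : E)) (r := c * Real.sqrt d)).subset ?_
  intro u hu
  rw [mem_closedBall_zero_iff]
  have h1 : KER_N J u ≤ d := hu
  have hd : 0 ≤ d := (KER_N_nonneg J u).trans h1
  have h2 : ‖u‖ ^ 2 ≤ (c * Real.sqrt d) ^ 2 := by
    rw [mul_pow, Real.sq_sqrt hd]
    exact (hb u).trans (mul_le_mul_of_nonneg_left h1 (by positivity))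
  exact le_of_sq_le_sq h2 (by positivity)

variable [MeasureSpace E] [BorelSpace E] [(volume : Measure E).IsAddHaarMeasure]

theorem KER_vol (J : E →L[ℝ] E) (hJ : Cpx J) (θ : ℝ) :
    MeasurePreserving (KER_R J θ) (volume : Measure E) volume := by
  set f : E →ₗ[ℝ] E := (KER_R J θ : E →ₗ[ℝ] E) with hf
  set g : E →ₗ[ℝ] E := (KER_R J (-θ) : E →ₗ[ℝ] E) with hg
  have hfg : f * g = 1 := by
    ext u
    change KER_R J θ (KER_R J (-θ) u) = u
    rw [KER_R_apply, KER_R_apply, map_add, map_smul, map_smul, hJ u, Real.cos_neg, Real.sin_neg]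
    have h1 : (Real.cos θ * Real.cos θ + Real.sin θ * Real.sin θ) = 1 := by
      have := Real.cos_sq_add_sin_sq θ
      nlinarith
    calc Real.cos θ • (Real.cos θ • u + -Real.sin θ • J u) +
          Real.sin θ • (Real.cos θ • J u + -Real.sin θ • -u)
        = (Real.cos θ * Real.cos θ + Real.sin θ * Real.sin θ) • u := by module
      _ = u := by rw [h1, one_smul]
  have hdet : LinearMap.det f ≠ 0 := by
    have h1 : LinearMap.det f * LinearMap.det g = 1 := by
      rw [← map_mul, hfg, map_one]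
    exact left_ne_zero_of_mul_eq_one h1
  set S : Set E := {u : E | KER_N J u ≤ 1} with hS
  have hpre : f ⁻¹' S = S := by
    ext u
    change KER_N J (KER_R J θ u) ≤ 1 ↔ KER_N J u ≤ 1
    rw [KER_N_R J hJ]
  have hfin : (volume : Measure E) S ≠ ⊤ := (KER_compact J 1).measure_lt_top.ne
  have hpos : (volume : Measure E) S ≠ 0 := by
    have ho : IsOpen {u : E | KER_N J u < 1} :=
      isOpen_lt (KER_N_smooth J).continuous continuous_const
    have hne : ({u : E | KER_N J u < 1}).Nonempty := ⟨0, by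
      change KER_N J 0 < 1
      simp [KER_N]⟩
    have h1 : 0 < (volume : Measure E) {u : E | KER_N J u < 1} := ho.measure_pos _ hne
    refine (h1.trans_le (measure_mono fun u hu => ?_)).ne'
    have hu' : KER_N J u < 1 := hu
    exact hu'.le
  have h1 := Measure.addHaar_preimage_linearMap (volume : Measure E) hdet S
  rw [hpre] at h1
  have h2 : ENNReal.ofReal |(LinearMap.det f)⁻¹| = 1 := by
    have h3 : (1 : ℝ≥0∞) * volume S = ENNReal.ofReal |(LinearMap.det f)⁻¹| * volume S := by
      rw [one_mul]; exact h1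
    exact ((ENNReal.mul_left_inj hpos hfin).1 h3).symm
  refine ⟨(KER_R J θ).continuous.measurable, ?_⟩
  have h4 := Measure.map_linearMap_addHaar_eq_smul_addHaar (volume : Measure E) hdet
  rw [h2, one_smul] at h4
  exact h4

/-- the kernel -/
theorem KER_kernel (J : E →L[ℝ] E) (hJ : Cpx J) (ε : ℝ) (hε : 0 < ε) :
    ∃ (ρ : E → ℝ) (d : ℝ), 0 < d ∧ ContDiff ℝ ∞ ρ ∧ (∀ u, d < KER_N J u → ρ u = 0) ∧
      (∀ u, KER_N J u ≤ d → ‖u‖ < ε) ∧ ∫ u, ρ u = 1 ∧ ∀ θ u, ρ (KER_R J θ u) = ρ u := by
  obtain ⟨c, hc, hb⟩ := KER_bound J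
  set d : ℝ := (ε / (2 * c)) ^ 2 with hd
  have hd0 : 0 < d := by positivity
  let φ : ContDiffBump (0 : ℝ) := ⟨d / 2, d, by positivity, by linarith⟩
  have hsm : ContDiff ℝ ∞ (fun u : E => φ (KER_N J u)) := φ.contDiff.comp (KER_N_smooth J)
  have hz : ∀ u, d < KER_N J u → φ (KER_N J u) = 0 := by
    intro u hu
    refine φ.zero_of_le_dist ?_
    rw [Real.dist_eq, sub_zero, abs_of_nonneg (KER_N_nonneg J u)]
    exact hu.le
  have hcs : HasCompactSupport (fun u : E => φ (KER_N J u)) := by
    refine HasCompactSupport.intro (KER_compact J d) fun u hu => hz u ?_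
    exact not_le.1 hu
  have hpos : 0 < ∫ u, φ (KER_N J u) := by
    refine hsm.continuous.integral_pos_of_hasCompactSupport_nonneg_nonzero hcs
      (fun u => φ.nonneg) (x := 0) ?_
    have h1 : φ (KER_N J 0) = 1 := by
      refine φ.one_of_mem_closedBall ?_
      simp [KER_N, φ]
      positivity
    change φ (KER_N J 0) ≠ 0
    rw [h1]
    exact one_ne_zero
  refine ⟨fun u => (∫ u, φ (KER_N J u))⁻¹ * φ (KER_N J u), d, hd0, contDiff_const.mul hsm,
    fun u hu => by simp only [hz u hu, mul_zero], fun u hu => ?_, ?_, fun θ u => by simp only [KER_N_R J hJ]⟩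
  · have h1 : ‖u‖ ^ 2 ≤ (ε / 2) ^ 2 := by
      refine (hb u).trans ((mul_le_mul_of_nonneg_left hu (by positivity)).trans (le_of_eq ?_))
      rw [hd]
      field_simp
    have h2 : ‖u‖ ≤ ε / 2 := le_of_sq_le_sq h1 (by positivity)
    linarith
  · rw [integral_const_mul, inv_mul_cancel₀ hpos.ne']

omit [MeasureSpace E] [BorelSpace E] [(volume : Measure E).IsAddHaarMeasure] in
/-- the mean value property on the circles -/
theorem KER_circle (J : E →L[ℝ] E) (hJ : Cpx J) (ε d : ℝ) (_hε : 0 < ε) (_hd : 0 < d)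
    (hdε : ∀ u, KER_N J u ≤ d → ‖u‖ < ε) (p q : E → ℝ) (x : E)
    (hp : ContDiffOn ℝ ∞ p (Metric.ball x ε)) (hq : ContDiffOn ℝ ∞ q (Metric.ball x ε))
    (hpq : ∀ y ∈ Metric.ball x ε, ∀ v, fderiv ℝ p y v = fderiv ℝ q y (J v))
    (u : E) (hu : KER_N J u ≤ d) :
    ∫ θ in (0 : ℝ)..2 * Real.pi, p (x + KER_R J θ u) = 2 * Real.pi * p x := by
  let A : ℂ →L[ℝ] E := Complex.reCLM.smulRight u + Complex.imCLM.smulRight (J u)
  have hA : ∀ z : ℂ, A z = z.re • u + z.im • J u := fun z => by simp [A]
  let f : ℂ → ℂ := fun z => (p (x + A z) : ℂ) + Complex.I * (q (x + A z) : ℂ)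
  have hin : ∀ z : ℂ, ‖z‖ ≤ 1 → x + A z ∈ Metric.ball x ε := by
    intro z hz
    rw [mem_ball_iff_norm, add_sub_cancel_left]
    refine hdε _ ?_
    rw [hA, KER_N_comb J hJ]
    have h1 : z.re ^ 2 + z.im ^ 2 ≤ 1 := by
      have h2 : ‖z‖ ^ 2 ≤ 1 := by
        have := norm_nonneg z
        nlinarith
      rw [Complex.sq_norm, Complex.normSq_apply] at h2
      nlinarith
    calc (z.re ^ 2 + z.im ^ 2) * KER_N J u ≤ 1 * KER_N J u :=
          mul_le_mul_of_nonneg_right h1 (KER_N_nonneg J u)
      _ ≤ d := by rw [one_mul]; exact hu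
  have hdf : ∀ z : ℂ, ‖z‖ ≤ 1 → DifferentiableAt ℂ f z := by
    intro z hz
    have hy := hin z hz
    have hnb : Metric.ball x ε ∈ 𝓝 (x + A z) := Metric.isOpen_ball.mem_nhds hy
    have hpd : HasFDerivAt p (fderiv ℝ p (x + A z)) (x + A z) :=
      ((hp.contDiffAt hnb).differentiableAt (by simp)).hasFDerivAt
    have hqd : HasFDerivAt q (fderiv ℝ q (x + A z)) (x + A z) :=
      ((hq.contDiffAt hnb).differentiableAt (by simp)).hasFDerivAt
    have hAd : HasFDerivAt (fun z => x + A z) A z := (A.hasFDerivAt).const_add x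
    have h1 : HasFDerivAt (fun z => p (x + A z)) ((fderiv ℝ p (x + A z)).comp A) z :=
      hpd.comp z hAd
    have h2 : HasFDerivAt (fun z => q (x + A z)) ((fderiv ℝ q (x + A z)).comp A) z :=
      hqd.comp z hAd
    have h1' : HasFDerivAt (fun z => (p (x + A z) : ℂ))
        (Complex.ofRealCLM.comp ((fderiv ℝ p (x + A z)).comp A)) z :=
      Complex.ofRealCLM.hasFDerivAt.comp z h1
    have h2' : HasFDerivAt (fun z => (q (x + A z) : ℂ))
        (Complex.ofRealCLM.comp ((fderiv ℝ q (x + A z)).comp A)) z :=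
      Complex.ofRealCLM.hasFDerivAt.comp z h2
    have h3 : HasFDerivAt f (Complex.ofRealCLM.comp ((fderiv ℝ p (x + A z)).comp A) +
        Complex.I • (Complex.ofRealCLM.comp ((fderiv ℝ q (x + A z)).comp A))) z := by
      have := h1'.add (h2'.const_smul Complex.I)
      exact this
    set a : ℝ := fderiv ℝ p (x + A z) u with ha
    set b : ℝ := fderiv ℝ q (x + A z) u with hb
    have hpJ : fderiv ℝ p (x + A z) (J u) = - b := by
      rw [hpq _ hy, hJ u, map_neg]
    have hqJ : fderiv ℝ q (x + A z) (J u) = a := by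
      rw [← hpq _ hy]
    refine (hasFDerivAt_of_restrictScalars ℝ
      (f' := (ContinuousLinearMap.toSpanSingleton ℂ ((a : ℂ) + Complex.I * (b : ℂ)))) h3 ?_).differentiableAt
    refine ContinuousLinearMap.ext fun v => ?_
    have hAv : A v = v.re • u + v.im • J u := hA v
    simp only [ContinuousLinearMap.coe_restrictScalars', ContinuousLinearMap.toSpanSingleton_apply,
      add_apply, ContinuousLinearMap.comp_apply, smul_apply,
      hAv, map_add, map_smul, ← ha, ← hb, hpJ, hqJ, smul_eq_mul, Complex.ofRealCLM_apply]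
    push_cast
    have hv : v = (v.re : ℂ) + (v.im : ℂ) * Complex.I := (Complex.re_add_im v).symm
    have hI : Complex.I * Complex.I = -1 := Complex.I_mul_I
    conv_lhs => rw [hv]
    linear_combination ((v.im : ℂ) * (b : ℂ)) * hI
  have hmean : Real.circleAverage f 0 1 = f 0 := by
    refine circleAverage_of_differentiable_on_off_countable (s := ∅) Set.countable_empty ?_ ?_
    · intro z hz
      rw [abs_one, mem_closedBall_zero_iff] at hz
      exact (hdf z hz).continuousAt.continuousWithinAt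
    · intro z hz
      have h1 := hz.1
      rw [abs_one, mem_ball_zero_iff] at h1
      exact hdf z h1.le
  rw [Real.circleAverage_def] at hmean
  have hcm : ∀ θ : ℝ, x + A (circleMap 0 1 θ) = x + KER_R J θ u := by
    intro θ
    rw [hA, KER_R_apply]
    have h1 : (circleMap 0 1 θ).re = Real.cos θ := by
      rw [circleMap]; simp [Complex.exp_ofReal_mul_I_re]
    have h2 : (circleMap 0 1 θ).im = Real.sin θ := by
      rw [circleMap]; simp [Complex.exp_ofReal_mul_I_im]
    rw [h1, h2]
  have hfc : Continuous fun θ : ℝ => f (circleMap 0 1 θ) := by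
    rw [continuous_iff_continuousAt]
    intro θ
    refine ContinuousAt.comp (f := circleMap 0 1) (g := f) ?_ (continuous_circleMap 0 1).continuousAt
    refine (hdf _ ?_).continuousAt
    simp
  have hre := congrArg Complex.re hmean
  have h5 : ((2 * Real.pi)⁻¹ • ∫ θ in (0 : ℝ)..2 * Real.pi, f (circleMap 0 1 θ)).re
      = (2 * Real.pi)⁻¹ * ∫ θ in (0 : ℝ)..2 * Real.pi, (f (circleMap 0 1 θ)).re := by
    rw [Complex.smul_re, smul_eq_mul]
    congr 1
    have := Complex.reCLM.intervalIntegral_comp_comm (a := 0) (b := 2 * Real.pi)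
      (hfc.intervalIntegrable (μ := volume) 0 (2 * Real.pi))
    exact this.symm
  rw [h5] at hre
  have h6 : ∀ θ : ℝ, (f (circleMap 0 1 θ)).re = p (x + KER_R J θ u) := by
    intro θ
    simp only [f, hcm]
    simp
  simp only [h6] at hre
  have h7 : (f 0).re = p x := by
    simp only [f, map_zero, add_zero]
    simp
  rw [h7] at hre
  have h8 : (2 * Real.pi) ≠ 0 := by positivity
  field_simp at hre
  linarith

/-- the scalar case -/
theorem KER_scalar (J : E →L[ℝ] E) (hJ : Cpx J) (ε d : ℝ) (hε : 0 < ε) (hd : 0 < d)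
    (hdε : ∀ u, KER_N J u ≤ d → ‖u‖ < ε) (ρ : E → ℝ) (hρ : ContDiff ℝ ∞ ρ)
    (hρ0 : ∀ u, d < KER_N J u → ρ u = 0) (hρ1 : ∫ u, ρ u = 1)
    (hρR : ∀ θ u, ρ (KER_R J θ u) = ρ u) (p q : E → ℝ) (x : E)
    (hp : ContDiffOn ℝ ∞ p (Metric.ball x ε)) (hq : ContDiffOn ℝ ∞ q (Metric.ball x ε))
    (hpq : ∀ y ∈ Metric.ball x ε, ∀ v, fderiv ℝ p y v = fderiv ℝ q y (J v)) :
    ∫ u, ρ u * p (x + u) = p x := by
  let F : E → ℝ → ℝ := fun u θ => ρ u * p (x + KER_R J θ u)
  have hRc : Continuous fun z : E × ℝ => KER_R J z.2 z.1 := by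
    simp only [KER_R_apply]
    fun_prop
  have hFc : Continuous (Function.uncurry F) := by
    rw [continuous_iff_continuousAt]
    rintro ⟨u, θ⟩
    by_cases hu : KER_N J u ≤ d
    · have hin : x + KER_R J θ u ∈ Metric.ball x ε := by
        rw [mem_ball_iff_norm, add_sub_cancel_left]
        refine hdε _ ?_
        rw [KER_N_R J hJ]
        exact hu
      have h1 : ContinuousAt p (x + KER_R J θ u) :=
        (hp.contDiffAt (Metric.isOpen_ball.mem_nhds hin)).continuousAt
      have h2 : ContinuousAt (fun z : E × ℝ => p (x + KER_R J z.2 z.1)) (u, θ) :=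
        ContinuousAt.comp (f := fun z : E × ℝ => x + KER_R J z.2 z.1) (g := p) (x := (u, θ)) h1
          (continuous_const.add hRc).continuousAt
      exact ((hρ.continuous.comp continuous_fst).continuousAt).mul h2
    · have ho : {z : E × ℝ | d < KER_N J z.1} ∈ 𝓝 (u, θ) := by
        refine IsOpen.mem_nhds (isOpen_lt continuous_const
          ((KER_N_smooth J).continuous.comp continuous_fst)) ?_
        exact not_le.1 hu
      have h1 : Function.uncurry F =ᶠ[𝓝 (u, θ)] fun _ => 0 := by
        filter_upwards [ho] with z hz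
        have hz' : d < KER_N J z.1 := hz
        change ρ z.1 * _ = 0
        rw [hρ0 _ hz', zero_mul]
      exact (continuousAt_const.congr h1.symm)
  have hint : Integrable (Function.uncurry F)
      ((volume : Measure E).prod ((volume : Measure ℝ).restrict (Ioc 0 (2 * Real.pi)))) := by
    have h1 : IntegrableOn (Function.uncurry F) ({u : E | KER_N J u ≤ d} ×ˢ Icc 0 (2 * Real.pi))
        ((volume : Measure E).prod (volume : Measure ℝ)) :=
      hFc.continuousOn.integrableOn_compact ((KER_compact J d).prod isCompact_Icc)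
    have h2 : IntegrableOn (Function.uncurry F) ((univ : Set E) ×ˢ Ioc 0 (2 * Real.pi))
        ((volume : Measure E).prod (volume : Measure ℝ)) := by
      refine h1.of_forall_sdiff_eq_zero (MeasurableSet.univ.prod measurableSet_Ioc) ?_
      rintro ⟨u, θ⟩ ⟨h3, h4⟩
      have h5 : d < KER_N J u := by
        by_contra h6
        exact h4 ⟨not_lt.1 h6, Ioc_subset_Icc_self h3.2⟩
      change ρ u * _ = 0
      rw [hρ0 _ h5, zero_mul]
    have h3 : (volume : Measure E).prod ((volume : Measure ℝ).restrict (Ioc 0 (2 * Real.pi))) =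
        ((volume : Measure E).prod (volume : Measure ℝ)).restrict
          ((univ : Set E) ×ˢ Ioc 0 (2 * Real.pi)) := by
      rw [← Measure.prod_restrict, Measure.restrict_univ]
    rw [h3]
    exact h2
  have hswap := integral_integral_swap hint
  have hpi : (0 : ℝ) ≤ 2 * Real.pi := by positivity
  -- left side
  have hL : ∀ u, ∫ θ in Ioc 0 (2 * Real.pi), F u θ = ρ u * (2 * Real.pi * p x) := by
    intro u
    rw [← intervalIntegral.integral_of_le hpi]
    by_cases hu : KER_N J u ≤ d
    · simp only [F]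
      rw [intervalIntegral.integral_const_mul,
        KER_circle J hJ ε d hε hd hdε p q x hp hq hpq u hu]
    · simp only [F, hρ0 u (not_le.1 hu), zero_mul, intervalIntegral.integral_zero]
  -- right side
  have hRt : ∀ θ, ∫ u, F u θ = ∫ u, ρ u * p (x + u) := by
    intro θ
    have h1 : ∀ u, F u θ = (fun w => ρ w * p (x + w)) (KER_R J θ u) := by
      intro u
      simp only [F, hρR]
    simp only [h1]
    have hinj : Function.Injective (KER_R J θ) := by
      intro u v huv
      have h2 : KER_N J (u - v) = 0 := by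
        rw [← KER_N_R J hJ θ, map_sub, huv, sub_self]
        simp [KER_N]
      obtain ⟨c, hc, hb⟩ := KER_bound J
      have h3 := hb (u - v)
      rw [h2, mul_zero] at h3
      have h4 : ‖u - v‖ = 0 := by
        have := sq_nonneg ‖u - v‖
        exact pow_eq_zero_iff (two_ne_zero) |>.1 (le_antisymm h3 this)
      exact sub_eq_zero.1 (norm_eq_zero.1 h4)
    have hemb : MeasurableEmbedding (KER_R J θ) :=
      (KER_R J θ).continuous.measurableEmbedding hinj
    exact (KER_vol J hJ θ).integral_comp hemb (fun w => ρ w * p (x + w))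
  simp only [hL, hRt] at hswap
  rw [integral_mul_const, hρ1, one_mul, integral_const, smul_eq_mul] at hswap
  have h9 : ((volume : Measure ℝ).restrict (Ioc 0 (2 * Real.pi))).real univ = 2 * Real.pi := by
    rw [measureReal_restrict_apply_univ, Real.volume_real_Ioc_of_le hpi, sub_zero]
  rw [h9] at hswap
  have h10 : (2 * Real.pi) ≠ 0 := by positivity
  exact (mul_left_cancel₀ h10 hswap).symm

end KER

theorem p_KER : Stmt_KER := by
  intro E _ _ _ _ _ _ J ε hJ hε
  obtain ⟨ρ, d, hd, hρ, hρ0, hdε, hρ1, hρR⟩ := KER_kernel J hJ ε hε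
  have hcs : HasCompactSupport ρ := by
    refine HasCompactSupport.intro (KER_compact J d) fun u hu => hρ0 u ?_
    exact not_le.1 hu
  have hts : tsupport ρ ⊆ {u : E | KER_N J u ≤ d} := by
    refine closure_minimal ?_ (isClosed_le (KER_N_smooth J).continuous continuous_const)
    intro u hu
    by_contra h
    exact hu (hρ0 u (not_le.1 h))
  refine ⟨ρ, hρ, hcs, ?_, ?_⟩
  · intro u hu
    rw [mem_ball_zero_iff]
    exact hdε u (hts hu)
  · intro X _ _ _ P Q x hP hQ hPQ
    have hPc : Continuous fun u => ρ u • P (x + u) := by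
      rw [continuous_iff_continuousAt]
      intro u
      by_cases hu : KER_N J u ≤ d
      · have hin : x + u ∈ Metric.ball x ε := by
          rw [mem_ball_iff_norm, add_sub_cancel_left]
          exact hdε u hu
        have h1 : ContinuousAt P (x + u) :=
          (hP.contDiffAt (Metric.isOpen_ball.mem_nhds hin)).continuousAt
        have h2 : ContinuousAt (fun u => P (x + u)) u :=
          ContinuousAt.comp (f := fun u => x + u) (g := P) (x := u) h1
            (continuous_const.add continuous_id).continuousAt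
        exact hρ.continuous.continuousAt.smul h2
      · have ho : {z : E | d < KER_N J z} ∈ 𝓝 u :=
          IsOpen.mem_nhds (isOpen_lt continuous_const (KER_N_smooth J).continuous) (not_le.1 hu)
        have h1 : (fun u => ρ u • P (x + u)) =ᶠ[𝓝 u] fun _ => 0 := by
          filter_upwards [ho] with z hz
          have hz' : d < KER_N J z := hz
          rw [hρ0 _ hz', zero_smul]
        exact continuousAt_const.congr h1.symm
    have hint : Integrable (fun u => ρ u • P (x + u)) (volume : Measure E) := by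
      refine hPc.integrable_of_hasCompactSupport ?_
      exact HasCompactSupport.intro (KER_compact J d) fun u hu => by
        rw [hρ0 u (not_le.1 hu), zero_smul]
    refine (SeparatingDual.eq_iff_forall_dual_eq (R := ℝ)).2 fun l => ?_
    have h1 : l (∫ u, ρ u • P (x + u)) = ∫ u, l (ρ u • P (x + u)) :=
      (ContinuousLinearMap.integral_comp_comm l hint).symm
    rw [h1]
    simp only [map_smul, smul_eq_mul]
    refine KER_scalar J hJ ε d hε hd hdε ρ hρ hρ0 hρ1 hρR (fun y => l (P y)) (fun y => l (Q y)) x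
      (l.contDiff.comp_contDiffOn hP) (l.contDiff.comp_contDiffOn hQ) ?_
    intro y hy v
    have hnb : Metric.ball x ε ∈ 𝓝 y := Metric.isOpen_ball.mem_nhds hy
    have hPd : DifferentiableAt ℝ P y := (hP.contDiffAt hnb).differentiableAt (by simp)
    have hQd : DifferentiableAt ℝ Q y := (hQ.contDiffAt hnb).differentiableAt (by simp)
    have e1 : fderiv ℝ (fun y => l (P y)) y = l.comp (fderiv ℝ P y) :=
      (l.hasFDerivAt.comp y hPd.hasFDerivAt).fderiv
    have e2 : fderiv ℝ (fun y => l (Q y)) y = l.comp (fderiv ℝ Q y) :=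
      (l.hasFDerivAt.comp y hQd.hasFDerivAt).fderiv
    rw [e1, e2, ContinuousLinearMap.comp_apply, ContinuousLinearMap.comp_apply, hPQ y hy]

end Pool.TIW
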