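import Pool.Agent.Work.MP_a1f430_wb.B_ZSL
import Pool.Agent.Work.MP_a1f430_wb.B_SSL

/-! # Block KEY: the commutation identity (MP_a1f430, THEOREM J) -/

set_option autoImplicit false

namespace Pool.TIW

open Pool.TIA
open MeasureTheory Set Filter Topology
open scoped ContDiff ENNReal

/-- Locally square integrable functions are measurable. -/
theorem KEY_ae {E X : Type} [NormedAddCommGroup E] [NormedSpace ℝ E] [FiniteDimensional ℝ E]
    [MeasureSpace E] [BorelSpace E] [(volume : Measure E).IsAddHaarMeasure]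
    [NormedAddCommGroup X] {W : Set E} (hW : IsOpen W) {f : E → X}
    (hf : L2loc W f) : AEStronglyMeasurable f (volume.restrict W) := by
  have h1 : LocallyIntegrableOn f W volume :=
    (locallyIntegrableOn_iff hW.isLocallyClosed).2 fun K hK hKc => BIT_L1 hf K hKc hK
  exact h1.aestronglyMeasurable

/-- `brk` is measurable. -/
theorem KEY_brk {α 𝔐 : Type} [MeasurableSpace α] [NormedRing 𝔐] {μ : Measure α} {f g : α → 𝔐}
    (hf : AEStronglyMeasurable f μ) (hg : AEStronglyMeasurable g μ) :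
    AEStronglyMeasurable (fun x => brk (f x) (g x)) μ :=
  (hf.mul hg).sub (hg.mul hf)

theorem KEY_L1 {E 𝔐 : Type} [NormedAddCommGroup E] [NormedSpace ℝ E] [FiniteDimensional ℝ E]
    [MeasureSpace E] [BorelSpace E] [(volume : Measure E).IsAddHaarMeasure] [NormedRing 𝔐]
    [NormedAlgebra ℝ 𝔐] {W : Set E} {f g : E → 𝔐}
    (hf : L2loc W f) (hg : L2loc W g) : L1loc W (fun x => brk (f x) (g x)) := fun K hK hKW =>
  (BIT_mul hf hg K hK hKW).sub (BIT_mul hg hf K hK hKW)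

theorem KEY_neg {𝔐 : Type} [NormedRing 𝔐] (X Y Z T U : 𝔐) :
    brk (X - Y) U + brk (-Z - -T) U = brk (X - Y) U - brk (Z - T) U := by
  unfold brk
  noncomm_ring

theorem KEY_neg' {𝔐 : Type} [NormedRing 𝔐] (Z U : 𝔐) : brk (-Z) U = -brk Z U := by
  unfold brk
  noncomm_ring

theorem KEY_rp {X : Type} [NormedAddCommGroup X] {D : Set ℂ} {f : ℂ → X} {z₁ : ℂ}
    (h : Rp D f z₁) : Rp D (fun z => -f z) z₁ := by
  obtain ⟨c, hc, he, h1⟩ := h
  refine ⟨fun z => -c z, hc.neg, ?_, ?_⟩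
  · filter_upwards [he] with z hz
    rw [hz]
  · beta_reduce
    rw [h1]

/-- The linear map of the claim. -/
noncomputable def KEY_G {V 𝔐 : Type} [NormedAddCommGroup V] [NormedSpace ℝ V] [NormedRing 𝔐]
    [NormedAlgebra ℝ 𝔐] (J : V →L[ℝ] V) (A B : V × ℂ →L[ℝ] 𝔐) (P Q : 𝔐) : V →ₗ[ℝ] 𝔐 where
  toFun v := brk (A (v, 0) - B (v, 0)) P - brk (A (J v, 0) - B (J v, 0)) Q
  map_add' u v := by
    have e : ∀ a b : V, ((a + b, 0) : V × ℂ) = (a, 0) + (b, 0) := fun a b => by simp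
    unfold brk
    simp only [map_add, e]
    noncomm_ring
  map_smul' c v := by
    have e : ∀ a : V, ((c • a, 0) : V × ℂ) = c • (a, 0) := fun a => by simp
    unfold brk
    simp only [map_smul, e, RingHom.id_apply, ← smul_sub, smul_mul_assoc, mul_smul_comm]

theorem p_KEY (hFUB : Stmt_FUB) (hGSS : Stmt_GSS) (hCRA : Stmt_CRA) (hZSL : Stmt_ZSL)
    (hGID : Stmt_GID) (hKW1 : Stmt_KW1) : Stmt_KEY := by
  intro 𝔐 _ _ _ _ _ _ 𝒢 V _ _ _ _ _ _ J W₁ z₀ r A F z₁ P Q H G HP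
  let B := Module.finBasis ℝ V
  have hop : IsOpen (W₁ ×ˢ Metric.ball z₀ r) := H.op.prod Metric.isOpen_ball
  obtain ⟨-, hC2, hC3⟩ := hCRA 𝔐 𝒢 V J W₁ z₀ r A F H
  have hPQ := hC3 P Q HP
  have hA : ∀ v : V, L2loc (W₁ ×ˢ Metric.ball z₀ r) (fun p => A p (v, 0)) := fun v =>
    (hC2 v).P2
  -- the statement for one vector
  have key : ∀ v : V, ∀ᵐ p ∂(volume.restrict (W₁ ×ˢ Metric.ball z₀ r)),
      brk (A p (v, 0) - A (p.1, z₁) (v, 0)) (P p) -
        brk (A p (J v, 0) - A (p.1, z₁) (J v, 0)) (Q p) = 0 := by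
    intro v
    have hm1 : ∀ v : V, AEStronglyMeasurable (fun p => A p (v, 0) - A (p.1, z₁) (v, 0))
        ((volume : Measure (V × ℂ)).restrict (W₁ ×ˢ Metric.ball z₀ r)) := by
      intro v
      refine (KEY_ae hop (hA v)).sub ?_
      have h2 : AEStronglyMeasurable (fun w => rc1 A z₁ w v) (volume.restrict W₁) :=
        KEY_ae H.op (BIT_evA G.conn.A2 v)
      have h3 : AEStronglyMeasurable (fun p : V × ℂ => rc1 A z₁ p.1 v)
          ((volume.restrict W₁).prod (volume.restrict (Metric.ball z₀ r))) := h2.comp_fst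
      rw [Measure.volume_eq_prod, ← Measure.prod_restrict]
      exact h3
    have hm : AEStronglyMeasurable (fun p => brk (A p (v, 0) - A (p.1, z₁) (v, 0)) (P p) -
        brk (A p (J v, 0) - A (p.1, z₁) (J v, 0)) (Q p))
        ((volume : Measure (V × ℂ)).restrict (W₁ ×ˢ Metric.ball z₀ r)) :=
      (KEY_brk (hm1 v) (KEY_ae hop hPQ.P2)).sub (KEY_brk (hm1 (J v)) (KEY_ae hop hPQ.Q2))
    refine (hFUB V ℂ 𝔐 W₁ (Metric.ball z₀ r) _ H.op Metric.isOpen_ball hm).1.2 ?_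
    have l1 : L1loc (W₁ ×ˢ Metric.ball z₀ r)
        (fun p => brk (A p (v, 0)) (P p) - brk (A p (J v, 0)) (Q p)) := fun K hK hKW =>
      (KEY_L1 (hA v) hPQ.P2 K hK hKW).sub (KEY_L1 (hA (J v)) hPQ.Q2 K hK hKW)
    have l2 : L1loc (W₁ ×ˢ Metric.ball z₀ r)
        (fun p => brk (A p (J v, 0)) (P p) + brk (A p (v, 0)) (Q p)) := fun K hK hKW =>
      (KEY_L1 (hA (J v)) hPQ.P2 K hK hKW).add (KEY_L1 (hA v) hPQ.Q2 K hK hKW)
    obtain ⟨g1, g2⟩ := hGID 𝔐 𝒢 V J W₁ z₀ r A F P Q H HP v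
    have s1 := ZSL_dir hGSS H.op l1 l2 1 Complex.I g1
    have s2 := ZSL_dir hGSS H.op l2 (fun K hK hKW => (l1 K hK hKW).neg) 1 Complex.I
      fun φ hφ => by
        rw [← g2 φ hφ]
        refine integral_congr_ae (Eventually.of_forall fun p => ?_)
        beta_reduce
        rw [Pi.neg_apply, smul_neg, sub_neg_eq_add]
    have s3 := hZSL V 𝔐 W₁ z₀ r _ _ H.op (hC2 v)
    have s4 := hZSL V 𝔐 W₁ z₀ r P Q H.op hPQ
    filter_upwards [s1, s2, s3, s4, G.rp] with w h1 h2 h3 h4 h5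
    have h6 := hKW1 𝔐 z₀ z₁ r (fun z => A (w, z) (v, 0)) (fun z => -A (w, z) (J v, 0))
      (fun z => P (w, z)) (fun z => Q (w, z)) G.mem h3 h4 (fun φ hφ => by
        rw [← h1 φ hφ]
        refine integral_congr_ae (Eventually.of_forall fun z => ?_)
        beta_reduce
        rw [KEY_neg', KEY_neg', ← sub_eq_add_neg, sub_neg_eq_add,
          add_comm (brk (A (w, z) (v, 0)) (Q (w, z)))]) (fun φ hφ => by
        rw [← h2 φ hφ]
        refine integral_congr_ae (Eventually.of_forall fun z => ?_)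
        beta_reduce
        rw [KEY_neg', KEY_neg', ← sub_eq_add_neg, sub_neg_eq_add, Pi.neg_apply, smul_neg,
          sub_neg_eq_add, add_comm (brk (A (w, z) (v, 0)) (Q (w, z)))])
      (h5 v) (KEY_rp (h5 (J v)))
    filter_upwards [h6] with z hz
    rw [← hz]
    beta_reduce
    unfold brk
    noncomm_ring
  filter_upwards [ae_all_iff.2 fun k => key (B k)] with p hp v
  have h1 := SSL_lin B (KEY_G J (A p) (A (p.1, z₁)) (P p) (Q p)) v
  have h2 : KEY_G J (A p) (A (p.1, z₁)) (P p) (Q p) v = 0 := by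
    rw [h1]
    refine Finset.sum_eq_zero fun k _ => ?_
    have h3 : KEY_G J (A p) (A (p.1, z₁)) (P p) (Q p) (B k) = 0 := hp k
    rw [h3, smul_zero]
  exact h2

end Pool.TIW
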