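import Pool.Agent.Work.MP_a1f430_wb.Interface2

/-! Block ST4 (helper98): the induction step. -/

set_option autoImplicit false

namespace Pool.TIW

open Pool.TIA
open MeasureTheory Set Filter Topology
open scoped ContDiff ENNReal

section mono

variable {E : Type} [NormedAddCommGroup E] [NormedSpace ℝ E] [MeasureSpace E]
variable {𝔐 : Type} [NormedRing 𝔐] [NormedAlgebra ℝ 𝔐] [StarRing 𝔐]

omit [NormedSpace ℝ E] in
theorem ST4_L2 {X : Type} [NormedAddCommGroup X] {U W : Set E} {f : E → X} (h : W ⊆ U)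
    (hf : L2loc U f) : L2loc W f := fun K hK hKW => hf K hK (hKW.trans h)

omit [MeasureSpace E] in
theorem ST4_test {U W : Set E} {φ : E → ℝ} (h : W ⊆ U) (hφ : Test W φ) : Test U φ :=
  ⟨hφ.smooth, hφ.cpt, hφ.sub.trans h⟩

theorem ST4_sys {𝒢 : LieG 𝔐} {U W : Set E} {A : E → E →L[ℝ] 𝔐} {F : E → E [⋀^Fin 2]→L[ℝ] 𝔐}
    {ι : Type} [Fintype ι] {Z : ι → E → 𝔐} {Γ : ι → ι → E → E →L[ℝ] ℝ}
    {ρ : ι → E → E [⋀^Fin 2]→L[ℝ] ℝ} (hW : IsOpen W) (h : W ⊆ U) (hS : Sys 𝒢 U A F Z Γ ρ) :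
    Sys 𝒢 W A F Z Γ ρ where
  op := hW
  conn := ⟨ST4_L2 h hS.conn.A2, ST4_L2 h hS.conn.F2,
    ae_restrict_of_ae_restrict_of_subset h hS.conn.lie,
    fun φ hφ => hS.conn.curv φ (ST4_test h hφ)⟩
  Z2 := fun i => ST4_L2 h (hS.Z2 i)
  sΓ := fun i j => (hS.sΓ i j).mono h
  sρ := fun j => (hS.sρ j).mono h
  eq := fun i v φ hφ => hS.eq i v φ (ST4_test h hφ)
  cur := ae_restrict_of_ae_restrict_of_subset h hS.cur

theorem ST4_gau {𝒢 : LieG 𝔐} {U W : Set E} {A A' : E → E →L[ℝ] 𝔐} {g : E → 𝔐}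
    {dg : E → E →L[ℝ] 𝔐} (h : W ⊆ U) (hS : Gau 𝒢 U A A' g dg) : Gau 𝒢 W A A' g dg where
  g2 := ST4_L2 h hS.g2
  dg2 := ST4_L2 h hS.dg2
  wd := fun φ hφ => hS.wd φ (ST4_test h hφ)
  inG := ae_restrict_of_ae_restrict_of_subset h hS.inG
  A2' := ST4_L2 h hS.A2'
  lie' := ae_restrict_of_ae_restrict_of_subset h hS.lie'
  eq := ae_restrict_of_ae_restrict_of_subset h hS.eq

end mono

theorem ST4_mat {𝔐 : Type} [NormedRing 𝔐] [NormedAlgebra ℝ 𝔐] {ι : Type} [Fintype ι]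
    (M M' : ι → ι → ℝ) (h : ∀ z : ι → ℝ, ∀ i, ∑ j, M' i j * ∑ k, M j k * z k = z i)
    (X : ι → 𝔐) (i : ι) : ∑ j, M' i j • ∑ k, M j k • X k = X i := by
  classical
  have h1 : ∀ k, ∑ j, M' i j * M j k = if k = i then 1 else 0 := by
    intro k
    have := h (fun l => if k = l then 1 else 0) i
    simpa using this
  have h2 : ∑ j, M' i j • ∑ k, M j k • X k = ∑ k, (∑ j, M' i j * M j k) • X k := by
    simp only [Finset.smul_sum, smul_smul, Finset.sum_smul]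
    exact Finset.sum_comm
  rw [h2]
  simp [h1]

section prod

variable {V : Type} [NormedAddCommGroup V] [NormedSpace ℝ V] [FiniteDimensional ℝ V]
    [MeasureSpace V] [BorelSpace V] [(volume : Measure V).IsAddHaarMeasure]

omit [BorelSpace V] in
theorem ST4_rest (W₁ : Set V) (I : Set ℝ) : (volume : Measure (V × ℝ)).restrict (W₁ ×ˢ I) =
    (volume.restrict W₁).prod (volume.restrict I) := by
  rw [Measure.prod_restrict, ← Measure.volume_eq_prod]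

omit [BorelSpace V] in
/-- Fubini for null sets, in the order used here. -/
theorem ST4_fub (W₁ : Set V) (I : Set ℝ) (P : V × ℝ → Prop)
    (h : ∀ᵐ p ∂(volume.restrict (W₁ ×ˢ I)), P p) :
    ∀ᵐ t ∂(volume.restrict I), ∀ᵐ y ∂(volume.restrict W₁), P (y, t) := by
  rw [ST4_rest] at h
  have h2 : ∀ᵐ q ∂((volume.restrict I).prod (volume.restrict W₁)), P q.swap :=
    Measure.measurePreserving_swap.quasiMeasurePreserving.ae h
  exact Measure.ae_ae_of_ae_prod h2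

omit [BorelSpace V] in
theorem ST4_fst (W₁ : Set V) (I : Set ℝ) (P : V → Prop)
    (h : ∀ᵐ y ∂(volume.restrict W₁), P y) :
    ∀ᵐ p ∂(volume.restrict (W₁ ×ˢ I)), P p.1 := by
  rw [ST4_rest]
  exact Measure.quasiMeasurePreserving_fst.ae h

/-- A continuous function which is in a closed set almost everywhere is in it everywhere. -/
theorem ST4_cl {E X : Type} [NormedAddCommGroup E] [NormedSpace ℝ E] [FiniteDimensional ℝ E]
    [MeasureSpace E] [BorelSpace E] [(volume : Measure E).IsAddHaarMeasure]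
    [TopologicalSpace X] (W : Set E) (hW : IsOpen W) (f : E → X) (hf : ContinuousOn f W)
    (S : Set X) (hS : IsClosed S) (h : ∀ᵐ x ∂(volume.restrict W), f x ∈ S) :
    ∀ x ∈ W, f x ∈ S := by
  intro x hx
  by_contra hc
  have ho : IsOpen (W ∩ f ⁻¹' Sᶜ) := hf.isOpen_inter_preimage hW hS.isOpen_compl
  have hpos : 0 < volume (W ∩ f ⁻¹' Sᶜ) := ho.measure_pos _ ⟨x, hx, hc⟩
  rw [ae_restrict_iff' hW.measurableSet, ae_iff] at h
  refine hpos.ne' (measure_mono_null ?_ h)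
  rintro y ⟨hy1, hy2⟩
  simp only [mem_ofPred_eq, Classical.not_imp]
  exact ⟨hy1, hy2⟩

end prod

theorem p_ST4 (_hLBR : Stmt_LBR) (hST1 : Stmt_ST1) (hST2 : Stmt_ST2) (hSSL : Stmt_SSL)
    (hGCO : Stmt_GCO) (hGPB : Stmt_GPB) : Stmt_ST4 := by
  intro 𝔐 _ _ _ _ _ _ 𝒢 V _ _ _ _ _ _ hGood W A F ι _ Z Γ ρ hS x hx
  obtain ⟨y₀, t₀⟩ := x
  obtain ⟨r, A', g, dg, hr, hrW, hg, hA0, hS1⟩ :=
    hST1 𝔐 𝒢 V W A F ι Z Γ ρ y₀ t₀ hS hx
  obtain ⟨r', M, M', ν, Z₀, B, hr', hr'r, hM, hν, hinv, hZ₀, hB, hae⟩ :=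
    hST2 𝔐 𝒢 V A' (adF g F) ι _ Γ ρ y₀ t₀ r hr hS1 hA0
  have hbox : Bx y₀ t₀ r' ⊆ Bx y₀ t₀ r := by
    unfold Bx
    exact prod_mono (Metric.ball_subset_ball hr'r) (Ioo_subset_Ioo (by linarith) (by linarith))
  have hob : IsOpen (Bx y₀ t₀ r') := Metric.isOpen_ball.prod isOpen_Ioo
  have hS2 := ST4_sys hob hbox hS1
  have hlt : t₀ - r' < t₀ + r' := by linarith
  have hsl := hSSL 𝔐 𝒢 V (Metric.ball y₀ r') (t₀ - r') (t₀ + r') A' (adF g F) ι _ Γ ρ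
    Metric.isOpen_ball hlt hS2
  have hfb := ST4_fub (Metric.ball y₀ r') (Ioo (t₀ - r') (t₀ + r')) _ hae
  have hne : (ae (volume.restrict (Ioo (t₀ - r') (t₀ + r')))).NeBot := by
    rw [ae_neBot]
    intro h
    have h2 := Measure.restrict_eq_zero.1 h
    rw [Real.volume_Ioo, ENNReal.ofReal_eq_zero] at h2
    linarith
  obtain ⟨t₁, ⟨hsys, hfor⟩, ht₁⟩ := ((hsl.and hfb).and (ae_restrict_mem measurableSet_Ioo)).exists
  obtain ⟨W₂, S, k, dk, Y, hW₂, hy₂, hW₂b, hk, hSs, hSl, hYs, hYk⟩ :=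
    hGood (Metric.ball y₀ r') (rs1 A' t₁) (rs2 (adF g F) t₁) ι _ _ _ hsys y₀
      (Metric.mem_ball_self hr')
  set I : Set ℝ := Ioo (t₀ - r') (t₀ + r') with hI
  have hW₃b : W₂ ×ˢ I ⊆ Bx y₀ t₀ r' := prod_mono hW₂b subset_rfl
  have hW₃o : IsOpen (W₂ ×ˢ I) := hW₂.prod isOpen_Ioo
  -- the functions `Y⁰`
  obtain ⟨Y0, hY0⟩ : ∃ Y0 : ι → V → 𝔐, Y0 = fun j y => ∑ i, M' j i (y, t₁) • Y i y := ⟨_, rfl⟩
  obtain ⟨c, hc⟩ : ∃ c : ι → V × ℝ → V →L[ℝ] ℝ, c = fun j p => ν j p - ν j (p.1, t₁) := ⟨_, rfl⟩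
  obtain ⟨S', hS'⟩ : ∃ S' : V × ℝ → V × ℝ →L[ℝ] 𝔐, S' = fun p =>
      (S p.1 + ∑ j, (c j p).smulRight (Y0 j p.1)).comp (ContinuousLinearMap.fst ℝ V ℝ) :=
    ⟨_, rfl⟩
  have mt₁ : ∀ y ∈ W₂, (y, t₁) ∈ Bx y₀ t₀ r' := fun y hy => ⟨hW₂b hy, ht₁⟩
  have hsl1 : ContDiffOn ℝ ∞ (fun y : V => (y, t₁)) W₂ :=
    (contDiff_id.prodMk contDiff_const).contDiffOn
  have hsl2 : ContDiffOn ℝ ∞ (fun p : V × ℝ => (p.1, t₁)) (W₂ ×ˢ I) :=
    (contDiff_fst.prodMk contDiff_const).contDiffOn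
  have hfst : ContDiffOn ℝ ∞ (fun p : V × ℝ => p.1) (W₂ ×ˢ I) := contDiff_fst.contDiffOn
  have hY0s : ∀ j, ContDiffOn ℝ ∞ (Y0 j) W₂ := by
    intro j
    rw [hY0]
    refine ContDiffOn.sum fun i _ => ?_
    have h1 : ContDiffOn ℝ ∞ (fun y => M' j i (y, t₁)) W₂ :=
      (hM j i).2.comp hsl1 fun y hy => mt₁ y hy
    exact h1.smul (hYs i)
  have hcs : ∀ j, ContDiffOn ℝ ∞ (c j) (W₂ ×ˢ I) := by
    intro j
    rw [hc]
    refine ((hν j).mono hW₃b).sub ?_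
    exact (hν j).comp hsl2 fun p hp => mt₁ p.1 hp.1
  have hstar : ∀ j, ∀ᵐ y ∂(volume.restrict W₂), star (k y) * Z₀ j y * k y = Y0 j y := by
    intro j
    have h1 := ae_all_iff.2 hYk
    have h2 := ae_restrict_of_ae_restrict_of_subset hW₂b hfor
    filter_upwards [h1, h2, ae_restrict_mem hW₂.measurableSet] with y hy1 hy2 hyW
    have h3 : ∀ i, Y i y = ∑ l, M i l (y, t₁) • (star (k y) * Z₀ l y * k y) := by
      intro i
      rw [← hy1 i, hy2.1 i, Finset.mul_sum, Finset.sum_mul]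
      refine Finset.sum_congr rfl fun l _ => ?_
      rw [mul_smul_comm, smul_mul_assoc]
    rw [hY0]
    simp only [h3]
    exact (ST4_mat (fun i j => M i j (y, t₁)) (fun i j => M' i j (y, t₁))
      (hinv (y, t₁) (mt₁ y hyW)) (fun l => star (k y) * Z₀ l y * k y) j).symm
  have hform : ∀ᵐ p ∂(volume.restrict (W₂ ×ˢ I)), ∀ (v : V) (s : ℝ),
      A' p (v, s) = rs1 A' t₁ p.1 v + ∑ j, c j p v • Z₀ j p.1 := by
    have h1 := ae_restrict_of_ae_restrict_of_subset hW₃b hae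
    have h2 := ST4_fst W₂ I _ (ae_restrict_of_ae_restrict_of_subset hW₂b hfor)
    filter_upwards [h1, h2] with p hp1 hp2 v s
    have e1 : rs1 A' t₁ p.1 v = A' (p.1, t₁) (v, 0) := by
      unfold rs1
      rfl
    rw [hp1.2 v s, e1, hp2.2 v 0, hc, add_assoc, ← Finset.sum_add_distrib]
    congr 1
    refine Finset.sum_congr rfl fun j _ => ?_
    rw [sub_apply, sub_smul]
    abel
  have hSp : ∀ p (v : V) (s : ℝ), S' p (v, s) = S p.1 v + ∑ j, c j p v • Y0 j p.1 := by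
    intro p v s
    rw [hS']
    simp
  have hlie1 : ∀ᵐ y ∂(volume.restrict W₂), ∀ v, rs1 A' t₁ y v ∈ 𝒢.lie :=
    ae_restrict_of_ae_restrict_of_subset hW₂b hsys.conn.lie
  have hlie2 : ∀ᵐ p ∂(volume.restrict (W₂ ×ˢ I)), ∀ v, A' p v ∈ 𝒢.lie :=
    ae_restrict_of_ae_restrict_of_subset hW₃b hS2.conn.lie
  have hG1 := hGPB 𝔐 𝒢 V W₂ (t₀ - r') (t₀ + r') (rs1 A' t₁) S k dk ι c Z₀ Y0 A' hW₂ hlt hk hlie1
    hlie2 hSs hcs hY0s hstar hform S' hSp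
  have hG0 : Gau 𝒢 (W₂ ×ˢ I) A A' g dg := ST4_gau (hW₃b.trans hbox) hg
  obtain ⟨dk', hG2⟩ := hGCO 𝔐 𝒢 (V × ℝ) (W₂ ×ˢ I) A A' S' g (fun p => k p.1) dg _ hW₃o hG0 hG1
  have hS's : ContDiffOn ℝ ∞ S' (W₂ ×ˢ I) := by
    rw [hS']
    have h1 : ContDiffOn ℝ ∞ (fun p : V × ℝ => S p.1 + ∑ j, (c j p).smulRight (Y0 j p.1))
        (W₂ ×ˢ I) := by
      refine ContDiffOn.add (hSs.comp hfst fun p hp => hp.1) ?_
      refine ContDiffOn.sum fun j _ => ?_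
      exact ContDiffOn.smulRight (hcs j) ((hY0s j).comp hfst fun p hp => hp.1)
    exact h1.clm_comp contDiffOn_const
  refine ⟨W₂ ×ˢ I, S', fun p => g p * k p.1, dk', fun i p => ∑ j, M i j p • Y0 j p.1, hW₃o,
    ⟨hy₂, ⟨by linarith, by linarith⟩⟩, (hW₃b.trans hbox).trans hrW, hG2, hS's, ?_, ?_, ?_⟩
  · intro p hp v
    have hcl : IsClosed (𝒢.lie : Set 𝔐) := 𝒢.lie.closed_of_finiteDimensional
    refine ST4_cl (W₂ ×ˢ I) hW₃o (fun q => S' q v)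
      (hS's.continuousOn.clm_apply continuousOn_const) (𝒢.lie : Set 𝔐) hcl ?_ p hp
    filter_upwards [hG2.lie'] with q hq
    exact hq v
  · intro i
    refine ContDiffOn.sum fun j _ => ?_
    have h1 : ContDiffOn ℝ ∞ (M i j) (W₂ ×ˢ I) := (hM i j).1.mono hW₃b
    have h2 : ContDiffOn ℝ ∞ (fun p : V × ℝ => Y0 j p.1) (W₂ ×ˢ I) :=
      (hY0s j).comp hfst fun p hp => hp.1
    exact h1.smul h2
  · intro i
    have h1 := ae_restrict_of_ae_restrict_of_subset hW₃b hae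
    have h2 := ST4_fst W₂ I _ (ae_all_iff.2 hstar)
    filter_upwards [h1, h2] with p hp1 hp2
    have e1 : star (g p * k p.1) * Z i p * (g p * k p.1) =
        star (k p.1) * (star (g p) * Z i p * g p) * k p.1 := by
      rw [star_mul]
      noncomm_ring
    rw [e1, hp1.1 i, Finset.mul_sum, Finset.sum_mul]
    refine Finset.sum_congr rfl fun j _ => ?_
    rw [mul_smul_comm, smul_mul_assoc, hp2 j]

end Pool.TIW
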