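import Pool.Agent.Work.MP_a1f430_wb.Interface3
import Pool.Agent.Work.MP_a1f430_wb.B_ST4

/-! Block KFR (helper98): a gauge in which two components vanish. -/

set_option autoImplicit false

namespace Pool.TIW

open Pool.TIA
open MeasureTheory Set Filter Topology
open scoped ContDiff ENNReal

section gen

variable {𝔐 : Type} [NormedRing 𝔐] [NormedAlgebra ℝ 𝔐] [StarRing 𝔐]

theorem KFR_conn {E : Type} [NormedAddCommGroup E] [NormedSpace ℝ E] [MeasureSpace E]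
    {𝒢 : LieG 𝔐} {U W : Set E} {A : E → E →L[ℝ] 𝔐} {F : E → E [⋀^Fin 2]→L[ℝ] 𝔐} (h : W ⊆ U)
    (hC : Conn 𝒢 U A F) : Conn 𝒢 W A F :=
  ⟨ST4_L2 h hC.A2, ST4_L2 h hC.F2, ae_restrict_of_ae_restrict_of_subset h hC.lie,
    fun φ hφ => hC.curv φ (ST4_test h hφ)⟩

/-- The connection form in the pulled back gauge. -/
theorem KFR_S {V T : Type} [NormedAddCommGroup V] [NormedSpace ℝ V] [NormedAddCommGroup T]
    [NormedSpace ℝ T] (B S : V → V →L[ℝ] 𝔐) (k : V → 𝔐) (A : V × T → V × T →L[ℝ] 𝔐) :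
    ∃ S' : V × T → V × T →L[ℝ] 𝔐, ∀ p (v : V) (t : T),
      S' p (v, t) = S p.1 v + star (k p.1) * (A p (v, t) - B p.1 v) * k p.1 := by
  refine ⟨fun p => (S p.1).comp (ContinuousLinearMap.fst ℝ V T) +
    (adL (k p.1)).comp (A p - (B p.1).comp (ContinuousLinearMap.fst ℝ V T)), ?_⟩
  intro p v t
  have e1 : (adL (k p.1)) (A p (v, t) - B p.1 v) =
      star (k p.1) * (A p (v, t) - B p.1 v) * k p.1 := by
    rw [adL_apply, mul_assoc]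
  rw [← e1]
  rfl

end gen

/-- The temporal gauge on a box. -/
theorem KFR_box (hKT4 : Stmt_KT4) (𝔐 : Type) [NormedRing 𝔐] [NormedAlgebra ℝ 𝔐] [StarRing 𝔐]
    [CStarRing 𝔐] [StarModule ℝ 𝔐] [FiniteDimensional ℝ 𝔐] (𝒢 : LieG 𝔐) (V : Type)
    [NormedAddCommGroup V] [NormedSpace ℝ V] [FiniteDimensional ℝ V] [MeasureSpace V]
    [BorelSpace V] [(volume : Measure V).IsAddHaarMeasure] (W : Set (V × ℝ))
    (A : V × ℝ → V × ℝ →L[ℝ] 𝔐) (F : V × ℝ → (V × ℝ) [⋀^Fin 2]→L[ℝ] 𝔐) (y₀ : V) (t₀ : ℝ)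
    (hW : IsOpen W) (hC : Conn 𝒢 W A F) (hx : (y₀, t₀) ∈ W) :
    ∃ (r : ℝ) (A' : V × ℝ → V × ℝ →L[ℝ] 𝔐) (g : V × ℝ → 𝔐) (dg : V × ℝ → V × ℝ →L[ℝ] 𝔐),
      0 < r ∧ Metric.ball y₀ r ×ˢ Ioo (t₀ - r) (t₀ + r) ⊆ W ∧
      Gau 𝒢 (Metric.ball y₀ r ×ˢ Ioo (t₀ - r) (t₀ + r)) A A' g dg ∧
      ∀ᵐ p ∂(volume.restrict (Metric.ball y₀ r ×ˢ Ioo (t₀ - r) (t₀ + r))), A' p (0, 1) = 0 := by
  have : ProperSpace V := FiniteDimensional.proper ℝ V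
  obtain ⟨r, hr, hrW⟩ := Metric.nhds_basis_closedBall.mem_iff.1 (hW.mem_nhds hx)
  have hbox : Metric.closedBall y₀ r ×ˢ Icc (t₀ - r) (t₀ + r) ⊆ W := by
    refine subset_trans ?_ hrW
    rw [← Real.closedBall_eq_Icc, closedBall_prod_same]
  obtain ⟨A', g, dg, hG, hA'⟩ := hKT4 𝔐 𝒢 V W A F (Metric.closedBall y₀ r) (t₀ - r) (t₀ + r) hW
    hC (isCompact_closedBall y₀ r) (by linarith) hbox
  rcases subsingleton_or_nontrivial V with hV | hV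
  · have e1 : interior (Metric.closedBall y₀ r) = Metric.ball y₀ r := by
      have h1 : Metric.closedBall y₀ r = univ := by
        ext y
        simp [Subsingleton.elim y y₀, hr.le]
      have h2 : Metric.ball y₀ r = univ := by
        ext y
        simp [Subsingleton.elim y y₀, hr]
      rw [h1, h2, interior_univ]
    rw [e1] at hG hA'
    exact ⟨r, A', g, dg, hr, (Set.prod_mono Metric.ball_subset_closedBall
      Ioo_subset_Icc_self).trans hbox, hG, hA'⟩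
  · rw [interior_closedBall y₀ hr.ne'] at hG hA'
    exact ⟨r, A', g, dg, hr, (Set.prod_mono Metric.ball_subset_closedBall
      Ioo_subset_Icc_self).trans hbox, hG, hA'⟩

/-- The weak derivative in the flat direction vanishes. -/
theorem KFR_der {𝔐 : Type} [NormedRing 𝔐] [NormedAlgebra ℝ 𝔐] [StarRing 𝔐] {E : Type}
    [NormedAddCommGroup E] [NormedSpace ℝ E] [MeasureSpace E] [BorelSpace E] {𝒢 : LieG 𝔐}
    {W : Set E} {A : E → E →L[ℝ] 𝔐} {F : E → E [⋀^Fin 2]→L[ℝ] 𝔐} (hW : IsOpen W)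
    (hC : Conn 𝒢 W A F) (e₁ e₂ : E) (h0 : ∀ᵐ p ∂(volume.restrict W), A p e₂ = 0)
    (hF : ∀ᵐ p ∂(volume.restrict W), F p ![e₁, e₂] = 0) (φ : E → ℝ) (hφ : Test W φ) :
    ∫ p, fderiv ℝ φ p e₂ • A p e₁ = 0 := by
  have hoff : ∀ p, p ∉ W → φ p = 0 ∧ fderiv ℝ φ p = 0 := by
    intro x hx
    have hx' : x ∉ tsupport φ := fun hx' => hx (hφ.sub hx')
    refine ⟨image_eq_zero_of_notMem_tsupport hx', ?_⟩
    have h4 : x ∉ tsupport (fderiv ℝ φ) := fun h5 => hx' (tsupport_fderiv_subset ℝ h5)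
    exact image_eq_zero_of_notMem_tsupport h4
  have h := hC.curv φ hφ e₁ e₂
  rw [ae_restrict_iff' hW.measurableSet] at h0 hF
  have h1 : ∫ x, φ x • F x ![e₁, e₂] = 0 := by
    rw [integral_eq_zero_of_ae]
    filter_upwards [hF] with x hx
    by_cases hxW : x ∈ W
    · rw [hx hxW, smul_zero]; rfl
    · rw [(hoff x hxW).1, zero_smul]; rfl
  have h2 : ∫ x, φ x • (A x e₁ * A x e₂ - A x e₂ * A x e₁) = 0 := by
    rw [integral_eq_zero_of_ae]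
    filter_upwards [h0] with x hx
    by_cases hxW : x ∈ W
    · rw [hx hxW, mul_zero, zero_mul, sub_zero, smul_zero]; rfl
    · rw [(hoff x hxW).1, zero_smul]; rfl
  have h3 : ∫ x, (fderiv ℝ φ x e₁ • A x e₂ - fderiv ℝ φ x e₂ • A x e₁) =
      -∫ x, fderiv ℝ φ x e₂ • A x e₁ := by
    rw [← integral_neg]
    refine integral_congr_ae ?_
    filter_upwards [h0] with x hx
    by_cases hxW : x ∈ W
    · rw [hx hxW, smul_zero, zero_sub]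
    · rw [(hoff x hxW).2]
      simp
  rw [h1, h2, h3, neg_neg, add_zero] at h
  exact h.symm

theorem p_KFR (hKT4 : Stmt_KT4) (hCG2 : Stmt_CG2) (hGCO : Stmt_GCO) (hDBR : Stmt_DBR)
    (hCSL : Stmt_CSL) (hGPC : Stmt_GPC) : Stmt_KFR := by
  intro 𝔐 _ _ _ _ _ _ 𝒢 V _ _ _ _ _ _ W A F p₀ hW hC hF hp
  obtain ⟨⟨w₀, x₀⟩, y₀⟩ := p₀
  obtain ⟨r, A₁, g, dg, hr, hrW, hg, hA0⟩ :=
    KFR_box hKT4 𝔐 𝒢 (V × ℝ) W A F (w₀, x₀) y₀ hW hC hp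
  obtain ⟨W₁, hW₁⟩ : ∃ W₁ : Set (V × ℝ), W₁ = Metric.ball (w₀, x₀) r := ⟨_, rfl⟩
  obtain ⟨I, hI⟩ : ∃ I : Set ℝ, I = Ioo (y₀ - r) (y₀ + r) := ⟨_, rfl⟩
  have hW₁o : IsOpen W₁ := by rw [hW₁]; exact Metric.isOpen_ball
  have hIo : IsOpen I := by rw [hI]; exact isOpen_Ioo
  rw [← hW₁, ← hI] at hrW hg hA0
  have hop : IsOpen (W₁ ×ˢ I) := hW₁o.prod hIo
  have hC' : Conn 𝒢 (W₁ ×ˢ I) A F := KFR_conn hrW hC
  have hC1 : Conn 𝒢 (W₁ ×ˢ I) A₁ (adF g F) :=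
    hCG2 𝔐 𝒢 ((V × ℝ) × ℝ) (W₁ ×ˢ I) A A₁ F g dg hop hC' hg
  have hA0' : ∀ᵐ p ∂(volume.restrict (W₁ ×ˢ I)), A₁ p ((0, 0), 1) = 0 := hA0
  have hF1 : ∀ᵐ p ∂(volume.restrict (W₁ ×ˢ I)), adF g F p ![((0, 1), 0), ((0, 0), 1)] = 0 := by
    filter_upwards [ae_restrict_of_ae_restrict_of_subset hrW hF] with p hp1
    rw [adF_apply, hp1, zero_mul, mul_zero]
  have hw : ∀ φ : (V × ℝ) × ℝ → ℝ, Test (W₁ ×ˢ I) φ →
      ∫ p, fderiv ℝ φ p (0, 1) • A₁ p ((0, 1), 0) = 0 := fun φ hφ =>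
    KFR_der hop hC1 ((0, 1), 0) ((0, 0), 1) hA0' hF1 φ hφ
  have hx2 : L2loc (W₁ ×ˢ I) (fun p => A₁ p ((0, 1), 0)) := by
    intro K hK hKW
    exact (hC1.A2 K hK hKW).continuousLinearMap_comp
      (ContinuousLinearMap.apply ℝ 𝔐 (((0, 1), 0) : (V × ℝ) × ℝ))
  have hlt : y₀ - r < y₀ + r := by linarith
  obtain ⟨f₀, -, hf₀⟩ := hDBR (V × ℝ) 𝔐 W₁ (y₀ - r) (y₀ + r) (fun p => A₁ p ((0, 1), 0)) hW₁o
    hlt (by rw [← hI]; exact hx2) (by rw [← hI]; exact hw)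
  rw [← hI] at hf₀
  have hsl := hCSL 𝔐 𝒢 (V × ℝ) ℝ W₁ I A₁ (adF g F) hW₁o hIo hC1
  have hfb := ST4_fub W₁ I _ hf₀
  have hne : (ae (volume.restrict I)).NeBot := by
    rw [ae_neBot]
    intro h
    have h2 := Measure.restrict_eq_zero.1 h
    rw [hI, Real.volume_Ioo, ENNReal.ofReal_eq_zero] at h2
    linarith
  obtain ⟨y₁, hB, hy₁⟩ := (hsl.and hfb).exists
  obtain ⟨r', S, k, dk, hr', hr'W, hk, hS0⟩ :=
    KFR_box hKT4 𝔐 𝒢 V W₁ (rc1 A₁ y₁) (rc2 (adF g F) y₁) w₀ x₀ hW₁o hB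
      (by rw [hW₁]; exact Metric.mem_ball_self hr)
  obtain ⟨W₂, hW₂⟩ : ∃ W₂ : Set (V × ℝ), W₂ = Metric.ball w₀ r' ×ˢ Ioo (x₀ - r') (x₀ + r') :=
    ⟨_, rfl⟩
  have hW₂o : IsOpen W₂ := by rw [hW₂]; exact Metric.isOpen_ball.prod isOpen_Ioo
  have hq : (w₀, x₀) ∈ W₂ := by
    rw [hW₂]
    exact ⟨Metric.mem_ball_self hr', by linarith, by linarith⟩
  rw [← hW₂] at hr'W hk hS0
  have h21 : W₂ ×ˢ I ⊆ W₁ ×ˢ I := Set.prod_mono hr'W subset_rfl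
  have hop2 : IsOpen (W₂ ×ˢ I) := hW₂o.prod hIo
  obtain ⟨S', hS'⟩ := KFR_S (rc1 A₁ y₁) S k A₁
  have hG1 := hGPC 𝔐 𝒢 (V × ℝ) ℝ W₂ I (rc1 A₁ y₁) S k dk A₁ S' hW₂o hIo hk
    (ST4_L2 hr'W hB.A2) (ae_restrict_of_ae_restrict_of_subset hr'W hB.lie)
    (ST4_L2 h21 hC1.A2) (ae_restrict_of_ae_restrict_of_subset h21 hC1.lie)
    (Eventually.of_forall fun p v t => hS' p v t)
  obtain ⟨dk', hG2⟩ := hGCO 𝔐 𝒢 ((V × ℝ) × ℝ) (W₂ ×ˢ I) A A₁ S' g (fun p => k p.1) dg _ hop2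
    (ST4_gau h21 hg) hG1
  have hmem : ((w₀, x₀), y₀) ∈ W₂ ×ˢ I := by
    refine ⟨hq, ?_⟩
    rw [hI]
    exact ⟨by linarith, by linarith⟩
  obtain ⟨ρ, hρ, hρW⟩ := Metric.isOpen_iff.1 hop2 _ hmem
  refine ⟨ρ, S', fun p => g p * k p.1, dk', hρ, (hρW.trans h21).trans hrW, ST4_gau hρW hG2, ?_⟩
  refine ae_restrict_of_ae_restrict_of_subset hρW ?_
  have a1 := ST4_fst W₂ I _ hS0
  have a2 := ST4_fst W₂ I _ (ae_restrict_of_ae_restrict_of_subset hr'W hy₁)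
  have a3 := ae_restrict_of_ae_restrict_of_subset h21 hf₀
  have a4 := ae_restrict_of_ae_restrict_of_subset h21 hA0'
  filter_upwards [a1, a2, a3, a4] with p b1 b2 b3 b4
  constructor
  · have c1 : rc1 A₁ y₁ p.1 (0, 1) = f₀ p.1 := b2
    rw [hS' p (0, 1) 0, b1, c1, b3, sub_self, mul_zero, zero_mul, add_zero]
  · have c2 : rc1 A₁ y₁ p.1 (0, 0) = 0 := by
      have : ((0, 0) : V × ℝ) = 0 := rfl
      rw [this, map_zero]
    have c3 : S p.1 (0, 0) = 0 := by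
      have : ((0, 0) : V × ℝ) = 0 := rfl
      rw [this, map_zero]
    rw [hS' p (0, 0) 1, c2, c3, b4, sub_self, mul_zero, zero_mul, add_zero]

end Pool.TIW
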