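import Pool.Agent.Work.MP_a1f430_wb.Interface

set_option autoImplicit false

namespace Pool.TIW

open Pool.TIA
open MeasureTheory Set Filter Topology
open scoped ContDiff ENNReal

theorem DLI_int {X E' E : Type} [NormedAddCommGroup X] [NormedSpace ℝ X]
    [NormedAddCommGroup E'] [NormedSpace ℝ E'] [FiniteDimensional ℝ E']
    [MeasureSpace E'] [BorelSpace E'] [(volume : Measure E').IsAddHaarMeasure]
    [NormedAddCommGroup E] [NormedSpace ℝ E] [FiniteDimensional ℝ E]
    [MeasureSpace E] [BorelSpace E] [(volume : Measure E).IsAddHaarMeasure] (L : E' ≃L[ℝ] E) :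
    ∃ c : ℝ, c ≠ 0 ∧ ∀ f : E → X, ∫ x : E', f (L x) = c • ∫ y : E, f y := by
  have h1 : (Measure.map L (volume : Measure E')).IsAddHaarMeasure := L.isAddHaarMeasure_map _
  have : ProperSpace E := FiniteDimensional.proper ℝ E
  have : SecondCountableTopology E := inferInstance
  obtain ⟨c, hc0, hc⟩ : ∃ c : NNReal, 0 < c ∧
      Measure.map L (volume : Measure E') = c • (volume : Measure E) :=
    ⟨_, Measure.addHaarScalarFactor_pos_of_isAddHaarMeasure _ _,
      Measure.isAddLeftInvariant_eq_smul (Measure.map L (volume : Measure E'))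
        (volume : Measure E)⟩
  refine ⟨(c : ℝ), NNReal.coe_ne_zero.2 hc0.ne', fun f => ?_⟩
  have h2 : ∫ x : E', f (L x) = ∫ y, f y ∂(Measure.map L (volume : Measure E')) :=
    (L.toHomeomorph.measurableEmbedding.integral_map f).symm
  rw [h2, hc, integral_smul_nnreal_measure]
  rfl

theorem DLI_test {E' E : Type} [NormedAddCommGroup E'] [NormedSpace ℝ E']
    [NormedAddCommGroup E] [NormedSpace ℝ E] (L : E' ≃L[ℝ] E) (W : Set E) (φ : E → ℝ)
    (h : Test W φ) : Test (L ⁻¹' W) (fun x => φ (L x)) where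
  smooth := h.smooth.comp L.contDiff
  cpt := h.cpt.comp_homeomorph L.toHomeomorph
  sub := by
    have h1 : tsupport (fun x => φ (L x)) ⊆ L ⁻¹' tsupport φ := by
      refine closure_minimal ?_ ((isClosed_tsupport φ).preimage L.continuous)
      intro x hx
      exact subset_tsupport φ hx
    exact h1.trans (preimage_mono h.sub)

theorem DLI_key {𝔐 : Type} [NormedRing 𝔐] [NormedAlgebra ℝ 𝔐] [StarRing 𝔐] [FiniteDimensional ℝ 𝔐]
    {E' E : Type} [NormedAddCommGroup E'] [NormedSpace ℝ E'] [FiniteDimensional ℝ E']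
    [MeasureSpace E'] [BorelSpace E'] [(volume : Measure E').IsAddHaarMeasure]
    [NormedAddCommGroup E] [NormedSpace ℝ E] [FiniteDimensional ℝ E]
    [MeasureSpace E] [BorelSpace E] [(volume : Measure E).IsAddHaarMeasure] (L : E' ≃L[ℝ] E)
    (A : E → E →L[ℝ] 𝔐) (m : ℕ) (v : Fin m → E') (Z : Fin m → E → 𝔐) (R : E → 𝔐)
    (φ : E → ℝ) (hφ : ContDiff ℝ ∞ φ) :
    (∫ x : E', ∑ k, fderiv ℝ (fun x => φ (L x)) x (v k) • Z k (L x) =
      ∫ x : E', φ (L x) • ((∑ k, (pb1 L A x (v k) * Z k (L x) - Z k (L x) * pb1 L A x (v k)))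
        - R (L x))) ↔
    (∫ x : E, ∑ k, fderiv ℝ φ x (L (v k)) • Z k x =
      ∫ x : E, φ x • ((∑ k, (A x (L (v k)) * Z k x - Z k x * A x (L (v k)))) - R x)) := by
  have hfd : ∀ (x : E') (u : E'), fderiv ℝ (fun x => φ (L x)) x u = fderiv ℝ φ (L x) (L u) := by
    intro x u
    have h1 : HasFDerivAt φ (fderiv ℝ φ (L x)) (L x) :=
      ((hφ.differentiable (by simp)) (L x)).hasFDerivAt
    have h2 := h1.comp x L.hasFDerivAt
    have h3 : fderiv ℝ (fun x => φ (L x)) x = (fderiv ℝ φ (L x)).comp (L : E' →L[ℝ] E) :=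
      h2.fderiv
    rw [h3]
    rfl
  have hpb : ∀ (x u : E'), pb1 L A x u = A (L x) (L u) := by
    intro x u
    unfold pb1
    rw [ContinuousLinearMap.comp_apply, L.fderiv]
    rfl
  obtain ⟨c, hc0, hc⟩ := DLI_int (X := 𝔐) L
  have e1 := hc (fun y => ∑ k, fderiv ℝ φ y (L (v k)) • Z k y)
  have e2 := hc (fun y => φ y • ((∑ k, (A y (L (v k)) * Z k y - Z k y * A y (L (v k)))) - R y))
  have f1 : (∫ x : E', ∑ k, fderiv ℝ (fun x => φ (L x)) x (v k) • Z k (L x))
      = ∫ x : E', (fun y => ∑ k, fderiv ℝ φ y (L (v k)) • Z k y) (L x) := by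
    congr 1
    funext x
    simp only [hfd]
  have f2 : (∫ x : E', φ (L x) • ((∑ k, (pb1 L A x (v k) * Z k (L x)
        - Z k (L x) * pb1 L A x (v k))) - R (L x)))
      = ∫ x : E', (fun y => φ y • ((∑ k, (A y (L (v k)) * Z k y - Z k y * A y (L (v k))))
        - R y)) (L x) := by
    congr 1
    funext x
    simp only [hpb]
  rw [f1, f2, e1, e2]
  constructor
  · intro h
    exact smul_right_injective 𝔐 hc0 h
  · intro h
    rw [h]

theorem p_DLI : Stmt_DLI := by
  intro 𝔐 _ _ _ _ E' E _ _ _ _ _ _ _ _ _ _ _ _ L W A m v Z R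
  constructor
  · intro h φ hφ
    exact (DLI_key L A m v Z R φ hφ.smooth).1 (h _ (DLI_test L W φ hφ))
  · intro h φ hφ
    have h1 : Test W (fun y => φ (L.symm y)) := by
      have h2 := DLI_test L.symm (L ⁻¹' W) φ hφ
      have h3 : L.symm ⁻¹' (L ⁻¹' W) = W := by
        ext y
        simp
      rw [h3] at h2
      exact h2
    have h4 := (DLI_key L A m v Z R (fun y => φ (L.symm y)) h1.smooth).2 (h _ h1)
    simpa using h4

end Pool.TIW
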