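import Pool.Agent.Work.MP_a1f430_wb.Interface2
import Pool.Agent.Work.MP_a1f430_wb.B_DLI

/-! # Block TRP: transport of systems by a linear isomorphism (helper38) -/

set_option autoImplicit false

namespace Pool.TIW

open Pool.TIA
open MeasureTheory Set Filter Topology
open scoped ContDiff ENNReal

section meas

variable {E' E : Type} [NormedAddCommGroup E'] [NormedSpace ℝ E'] [FiniteDimensional ℝ E']
  [MeasureSpace E'] [BorelSpace E'] [(volume : Measure E').IsAddHaarMeasure]
  [NormedAddCommGroup E] [NormedSpace ℝ E] [FiniteDimensional ℝ E]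
  [MeasureSpace E] [BorelSpace E] [(volume : Measure E).IsAddHaarMeasure]

theorem TRP_map (L : E' ≃L[ℝ] E) : ∃ c : NNReal, 0 < c ∧
    Measure.map L (volume : Measure E') = (c : ℝ≥0∞) • (volume : Measure E) := by
  have h1 : (Measure.map L (volume : Measure E')).IsAddHaarMeasure := L.isAddHaarMeasure_map _
  have : ProperSpace E := FiniteDimensional.proper ℝ E
  have : SecondCountableTopology E := inferInstance
  exact ⟨_, Measure.addHaarScalarFactor_pos_of_isAddHaarMeasure _ _,
      Measure.isAddLeftInvariant_eq_smul (Measure.map L (volume : Measure E'))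
        (volume : Measure E)⟩

theorem TRP_ae (L : E' ≃L[ℝ] E) (W : Set E) (P : E → Prop)
    (h : ∀ᵐ y ∂(volume.restrict W), P y) : ∀ᵐ x ∂(volume.restrict (L ⁻¹' W)), P (L x) := by
  obtain ⟨c, -, hc⟩ := TRP_map L
  have hL : MeasurableEmbedding L := L.toHomeomorph.measurableEmbedding
  rw [← hL.ae_map_iff, ← hL.restrict_map, hc, Measure.restrict_smul]
  exact Measure.ae_smul_measure h _

theorem TRP_L2 {X : Type} [NormedAddCommGroup X] (L : E' ≃L[ℝ] E) (W : Set E) (f : E → X)
    (h : L2loc W f) : L2loc (L ⁻¹' W) (fun x => f (L x)) := by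
  intro K hK hKW
  obtain ⟨c, -, hc⟩ := TRP_map L
  have hL : MeasurableEmbedding L := L.toHomeomorph.measurableEmbedding
  have h1 : MemLp f 2 (volume.restrict (L '' K)) :=
    h (L '' K) (hK.image L.continuous) (by rintro _ ⟨x, hx, rfl⟩; exact hKW hx)
  have h2 : Measure.map L (volume.restrict K) = (c : ℝ≥0∞) • volume.restrict (L '' K) := by
    have h3 := hL.restrict_map (volume : Measure E') (L '' K)
    rw [preimage_image_eq _ L.injective, hc, Measure.restrict_smul] at h3
    exact h3.symm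
  have h4 : MemLp f 2 (Measure.map L (volume.restrict K)) := by
    rw [h2]
    exact h1.smul_measure ENNReal.coe_ne_top
  exact hL.memLp_map_measure_iff.1 h4

theorem TRP_L2comp {X Y : Type} [NormedAddCommGroup X] [NormedSpace ℝ X] [NormedAddCommGroup Y]
    [NormedSpace ℝ Y] (T : X →L[ℝ] Y) (W : Set E) (f : E → X) (h : L2loc W f) :
    L2loc W (fun x => T (f x)) := fun K hK hKW => T.comp_memLp' (h K hK hKW)

/-- composition of one-forms with a linear isomorphism -/
noncomputable def TRP_cl (X : Type) [NormedAddCommGroup X] [NormedSpace ℝ X] (L : E' →L[ℝ] E) :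
    (E →L[ℝ] X) →L[ℝ] (E' →L[ℝ] X) := (ContinuousLinearMap.compL ℝ E' E X).flip L

omit [FiniteDimensional ℝ E'] [MeasureSpace E'] [BorelSpace E']
  [(volume : Measure E').IsAddHaarMeasure] [FiniteDimensional ℝ E] [MeasureSpace E]
  [BorelSpace E] [(volume : Measure E).IsAddHaarMeasure] in
theorem TRP_cl_apply (X : Type) [NormedAddCommGroup X] [NormedSpace ℝ X] (L : E' →L[ℝ] E)
    (T : E →L[ℝ] X) : TRP_cl X L T = T.comp L := rfl

theorem TRP_WD {X : Type} [NormedAddCommGroup X] [NormedSpace ℝ X] (L : E' ≃L[ℝ] E) (W : Set E)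
    (g : E' → X) (dg : E' → E' →L[ℝ] X) (h : WD (L ⁻¹' W) g dg) :
    WD W (fun y => g (L.symm y)) (fun y => (dg (L.symm y)).comp (L.symm : E →L[ℝ] E')) := by
  intro φ hφ v
  obtain ⟨c, hc0, hc⟩ := DLI_int (X := X) L
  have h1 := h (fun x => φ (L x)) (DLI_test L W φ hφ) (L.symm v)
  have hfd : ∀ (x : E'), fderiv ℝ (fun x => φ (L x)) x (L.symm v) = fderiv ℝ φ (L x) v := by
    intro x
    have h1 : HasFDerivAt φ (fderiv ℝ φ (L x)) (L x) :=
      ((hφ.smooth.differentiable (by simp)) (L x)).hasFDerivAt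
    have h2 := h1.comp x L.hasFDerivAt
    have h3 : fderiv ℝ (fun x => φ (L x)) x = (fderiv ℝ φ (L x)).comp (L : E' →L[ℝ] E) :=
      h2.fderiv
    rw [h3, ContinuousLinearMap.comp_apply]
    show fderiv ℝ φ (L x) (L (L.symm v)) = _
    rw [L.apply_symm_apply]
  have e1 := hc (fun y => fderiv ℝ φ y v • g (L.symm y))
  have e2 := hc (fun y => φ y • (dg (L.symm y)).comp (L.symm : E →L[ℝ] E') v)
  simp only [L.symm_apply_apply] at e1 e2
  have e3 : (∫ x, fderiv ℝ (fun x => φ (L x)) x (L.symm v) • g x)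
      = ∫ x, fderiv ℝ φ (L x) v • g x := by
    congr 1
    funext x
    rw [hfd]
  have e4 : (∫ x, φ (L x) • dg x (L.symm v))
      = ∫ x, φ (L x) • (dg x).comp (L.symm : E →L[ℝ] E') v := rfl
  rw [e3, e4, e1, e2, ← smul_neg] at h1
  exact smul_right_injective X hc0 h1

end meas

theorem TRP_pb1 {E' E 𝔐 : Type} [NormedAddCommGroup E'] [NormedSpace ℝ E']
    [NormedAddCommGroup E] [NormedSpace ℝ E] [NormedRing 𝔐] [NormedAlgebra ℝ 𝔐]
    (L : E' ≃L[ℝ] E) (A : E → E →L[ℝ] 𝔐) (x u : E') : pb1 L A x u = A (L x) (L u) := by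
  unfold pb1
  rw [ContinuousLinearMap.comp_apply, L.fderiv]
  rfl

theorem TRP_pb2 {E' E 𝔐 : Type} [NormedAddCommGroup E'] [NormedSpace ℝ E']
    [NormedAddCommGroup E] [NormedSpace ℝ E] [NormedRing 𝔐] [NormedAlgebra ℝ 𝔐]
    (L : E' ≃L[ℝ] E) (F : E → E [⋀^Fin 2]→L[ℝ] 𝔐) (x a b : E') :
    pb2 L F x ![a, b] = F (L x) ![L a, L b] := by
  unfold pb2
  rw [ContinuousAlternatingMap.compContinuousLinearMap_apply, L.fderiv]
  congr 1
  funext i
  fin_cases i <;> rfl

theorem p_TRP (hPBC : Pool.TIA.Stmt_PBC) (_hPBW : Pool.TIA.Stmt_PBW) (hDLI : Stmt_DLI) :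
    Stmt_TRP := by
  intro 𝔐 _ _ _ _ _ _ 𝒢 E' E _ _ _ _ _ _ _ _ _ _ _ _ L hGood W A F ι _ Z Γ ρ hS x hx
  have hd : Module.finrank ℝ E' = Module.finrank ℝ E := L.toLinearEquiv.finrank_eq
  have hDif : Dif (L : E' → E) (L.symm : E → E') (L ⁻¹' W) W :=
    { open' := hS.op.preimage L.continuous
      open_ := hS.op
      maps := fun x hx => hx
      maps' := fun y hy => by
        show L (L.symm y) ∈ W
        rwa [L.apply_symm_apply]
      left := fun x _ => L.symm_apply_apply x
      right := fun y _ => L.apply_symm_apply y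
      smooth := L.contDiff.contDiffOn
      smooth' := L.symm.contDiff.contDiffOn }
  have hmaps : MapsTo L (L ⁻¹' W) W := fun x hx => hx
  have hsys : Sys 𝒢 (L ⁻¹' W) (pb1 L A) (pb2 L F) (fun i x => Z i (L x))
      (fun i j x => (Γ i j (L x)).comp (L : E' →L[ℝ] E))
      (fun j x => (ρ j (L x)).compContinuousLinearMap (L : E' →L[ℝ] E)) :=
    { op := hDif.open'
      conn := hPBC 𝔐 𝒢 E' E L L.symm (L ⁻¹' W) W A F hd hDif hS.conn
      Z2 := fun i => TRP_L2 L W (Z i) (hS.Z2 i)
      sΓ := fun i j => by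
        have h1 : ContDiffOn ℝ ∞ (fun x => Γ i j (L x)) (L ⁻¹' W) :=
          (hS.sΓ i j).comp L.contDiff.contDiffOn hmaps
        exact (TRP_cl ℝ (L : E' →L[ℝ] E)).contDiff.comp_contDiffOn h1
      sρ := fun j => by
        have h1 : ContDiffOn ℝ ∞ (fun x => ρ j (L x)) (L ⁻¹' W) :=
          (hS.sρ j).comp L.contDiff.contDiffOn hmaps
        exact (ContinuousAlternatingMap.compContinuousLinearMapCLM
          (L : E' →L[ℝ] E)).contDiff.comp_contDiffOn h1
      eq := fun i v => by
        have h1 := hS.eq i (L v)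
        have h2 := (hDLI 𝔐 E' E L W A 1 ![v] ![Z i] (fun y => ∑ j, Γ i j y (L v) • Z j y)).2 (by
          have e : (fun k => L ((![v] : Fin 1 → E') k)) = ![L v] := by
            funext k
            fin_cases k
            rfl
          rw [e]
          exact h1)
        have e2 : (fun (k : Fin 1) (x : E') => (![Z i] : Fin 1 → E → 𝔐) k (L x))
            = ![fun x => Z i (L x)] := by
          funext k
          fin_cases k
          rfl
        rw [e2] at h2
        exact h2
      cur := by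
        have h1 := TRP_ae L W _ hS.cur
        filter_upwards [h1] with x hx u v
        rw [TRP_pb2, hx (L u) (L v)]
        refine Finset.sum_congr rfl (fun j _ => ?_)
        congr 1
        rw [ContinuousAlternatingMap.compContinuousLinearMap_apply]
        congr 1
        funext k
        fin_cases k <;> rfl }
  obtain ⟨W₁, S, g, dg, Y, hW₁, hxW₁, hsub, hG, hSs, hSl, hYs, hYe⟩ :=
    hGood _ _ _ ι _ _ _ hsys (L.symm x) (by
      show L (L.symm x) ∈ W
      rwa [L.apply_symm_apply])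
  have hpre : L ⁻¹' (L.symm ⁻¹' W₁) = W₁ := by
    ext y
    simp
  have hmaps' : MapsTo L.symm (L.symm ⁻¹' W₁) W₁ := fun x hx => hx
  refine ⟨L.symm ⁻¹' W₁, fun y => (S (L.symm y)).comp (L.symm : E →L[ℝ] E'),
    fun y => g (L.symm y), fun y => (dg (L.symm y)).comp (L.symm : E →L[ℝ] E'),
    fun i y => Y i (L.symm y), hW₁.preimage L.symm.continuous, hxW₁, ?_, ?_, ?_, ?_, ?_, ?_⟩
  · intro y hy
    have h1 : L (L.symm y) ∈ W := hsub hy
    rwa [L.apply_symm_apply] at h1
  · exact
      { g2 := TRP_L2 L.symm W₁ g hG.g2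
        dg2 := TRP_L2comp (TRP_cl 𝔐 (L.symm : E →L[ℝ] E')) _ _ (TRP_L2 L.symm W₁ dg hG.dg2)
        wd := TRP_WD L _ g dg (by rw [hpre]; exact hG.wd)
        inG := TRP_ae L.symm W₁ _ hG.inG
        A2' := TRP_L2comp (TRP_cl 𝔐 (L.symm : E →L[ℝ] E')) _ _ (TRP_L2 L.symm W₁ S hG.A2')
        lie' := by
          have h1 := TRP_ae L.symm W₁ _ hG.lie'
          filter_upwards [h1] with y hy v
          exact hy (L.symm v)
        eq := by
          have h1 := TRP_ae L.symm W₁ _ hG.eq
          filter_upwards [h1] with y hy v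
          have h2 := hy (L.symm v)
          rw [TRP_pb1, L.apply_symm_apply, L.apply_symm_apply] at h2
          exact h2 }
  · have h1 : ContDiffOn ℝ ∞ (fun y => S (L.symm y)) (L.symm ⁻¹' W₁) :=
      hSs.comp L.symm.contDiff.contDiffOn hmaps'
    exact (TRP_cl 𝔐 (L.symm : E →L[ℝ] E')).contDiff.comp_contDiffOn h1
  · intro y hy v
    exact hSl _ hy (L.symm v)
  · intro i
    exact (hYs i).comp L.symm.contDiff.contDiffOn hmaps'
  · intro i
    have h1 := TRP_ae L.symm W₁ _ (hYe i)
    filter_upwards [h1] with y hy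
    rw [L.apply_symm_apply] at hy
    exact hy

end Pool.TIW
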