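import Pool.Agent.Work.MP_a1f430_wb.Interface3
import Pool.Agent.Work.MP_a1f430_wb.B_TRP

/-! # Block KFT: the flat gauge on `V × ℂ` (helper1) -/

set_option autoImplicit false

namespace Pool.TIW

open Pool.TIA
open MeasureTheory Set Filter Topology
open scoped ContDiff ENNReal

theorem KFT_dif {E' E : Type} [NormedAddCommGroup E'] [NormedSpace ℝ E']
    [NormedAddCommGroup E] [NormedSpace ℝ E] (L : E' ≃L[ℝ] E) (W : Set E) (hW : IsOpen W) :
    Dif (L : E' → E) (L.symm : E → E') (L ⁻¹' W) W where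
  open' := hW.preimage L.continuous
  open_ := hW
  maps := fun x hx => hx
  maps' := fun y hy => by
    show L (L.symm y) ∈ W
    rwa [L.apply_symm_apply]
  left := fun x _ => L.symm_apply_apply x
  right := fun y _ => L.apply_symm_apply y
  smooth := L.contDiff.contDiffOn
  smooth' := L.symm.contDiff.contDiffOn

theorem KFT_gau {E' E 𝔐 : Type} [NormedAddCommGroup E'] [NormedSpace ℝ E'] [FiniteDimensional ℝ E']
    [MeasureSpace E'] [BorelSpace E'] [(volume : Measure E').IsAddHaarMeasure]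
    [NormedAddCommGroup E] [NormedSpace ℝ E] [FiniteDimensional ℝ E]
    [MeasureSpace E] [BorelSpace E] [(volume : Measure E).IsAddHaarMeasure]
    [NormedRing 𝔐] [NormedAlgebra ℝ 𝔐] [StarRing 𝔐] (𝒢 : LieG 𝔐)
    (L : E' ≃L[ℝ] E) (B : Set E') (A : E → E →L[ℝ] 𝔐) (S : E' → E' →L[ℝ] 𝔐) (g : E' → 𝔐)
    (dg : E' → E' →L[ℝ] 𝔐) (hG : Gau 𝒢 B (pb1 L A) S g dg) :
    Gau 𝒢 (L.symm ⁻¹' B) A (fun y => (S (L.symm y)).comp (L.symm : E →L[ℝ] E'))
      (fun y => g (L.symm y)) (fun y => (dg (L.symm y)).comp (L.symm : E →L[ℝ] E')) := by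
  have hpre : L ⁻¹' (L.symm ⁻¹' B) = B := by
    ext y
    simp
  exact
      { g2 := TRP_L2 L.symm B g hG.g2
        dg2 := TRP_L2comp (TRP_cl 𝔐 (L.symm : E →L[ℝ] E')) _ _ (TRP_L2 L.symm B dg hG.dg2)
        wd := TRP_WD L _ g dg (by rw [hpre]; exact hG.wd)
        inG := TRP_ae L.symm B _ hG.inG
        A2' := TRP_L2comp (TRP_cl 𝔐 (L.symm : E →L[ℝ] E')) _ _ (TRP_L2 L.symm B S hG.A2')
        lie' := by
          have h1 := TRP_ae L.symm B _ hG.lie'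
          filter_upwards [h1] with y hy v
          exact hy (L.symm v)
        eq := by
          have h1 := TRP_ae L.symm B _ hG.eq
          filter_upwards [h1] with y hy v
          have h2 := hy (L.symm v)
          rw [TRP_pb1, L.apply_symm_apply, L.apply_symm_apply] at h2
          exact h2 }

theorem KFT_mono {E 𝔐 : Type} [NormedAddCommGroup E] [NormedSpace ℝ E] [MeasureSpace E]
    [NormedRing 𝔐] [NormedAlgebra ℝ 𝔐] [StarRing 𝔐] (𝒢 : LieG 𝔐) {W W' : Set E} (h : W' ⊆ W)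
    {A A' : E → E →L[ℝ] 𝔐} {g : E → 𝔐} {dg : E → E →L[ℝ] 𝔐} (hG : Gau 𝒢 W A A' g dg) :
    Gau 𝒢 W' A A' g dg where
  g2 := fun K hK hKW => hG.g2 K hK (hKW.trans h)
  dg2 := fun K hK hKW => hG.dg2 K hK (hKW.trans h)
  wd := fun φ hφ v => hG.wd φ ⟨hφ.smooth, hφ.cpt, hφ.sub.trans h⟩ v
  inG := ae_restrict_of_ae_restrict_of_subset h hG.inG
  A2' := fun K hK hKW => hG.A2' K hK (hKW.trans h)
  lie' := ae_restrict_of_ae_restrict_of_subset h hG.lie'
  eq := ae_restrict_of_ae_restrict_of_subset h hG.eq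

/-- The isomorphism `((w, x), y) ↦ (w, x + i y)`. -/
noncomputable def KFT_L (V : Type) [NormedAddCommGroup V] [NormedSpace ℝ V] :
    ((V × ℝ) × ℝ) ≃L[ℝ] (V × ℂ) :=
  (ContinuousLinearEquiv.prodAssoc ℝ V ℝ ℝ).trans
    ((ContinuousLinearEquiv.refl ℝ V).prodCongr Complex.equivRealProdCLM.symm)

theorem KFT_L_apply (V : Type) [NormedAddCommGroup V] [NormedSpace ℝ V] (w : V) (x y : ℝ) :
    KFT_L V ((w, x), y) = (w, (x : ℂ) + y * Complex.I) := by
  simp [KFT_L, Complex.equivRealProdCLM_symm_apply]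

theorem p_KFT (hPBC : Pool.TIA.Stmt_PBC) (hKFR : Stmt_KFR) : Stmt_KFT := by
  intro 𝔐 _ _ _ _ _ _ 𝒢 V _ _ _ _ _ _ W A F p₀ hW hC hF hp
  set L := KFT_L V with hL
  have hd : Module.finrank ℝ ((V × ℝ) × ℝ) = Module.finrank ℝ (V × ℂ) :=
    L.toLinearEquiv.finrank_eq
  have hDif := KFT_dif L W hW
  have hC' : Conn 𝒢 (L ⁻¹' W) (pb1 L A) (pb2 L F) :=
    hPBC 𝔐 𝒢 _ _ L L.symm (L ⁻¹' W) W A F hd hDif hC
  have hF' : ∀ᵐ p ∂(volume.restrict (L ⁻¹' W)),
      pb2 L F p ![((0, 1), 0), ((0, 0), 1)] = 0 := by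
    have h1 := TRP_ae L W _ hF
    filter_upwards [h1] with p hp
    rw [TRP_pb2]
    have e1 : L (((0 : V), (1 : ℝ)), (0 : ℝ)) = ((0 : V), (1 : ℂ)) := by
      rw [hL, KFT_L_apply]; simp
    have e2 : L (((0 : V), (0 : ℝ)), (1 : ℝ)) = ((0 : V), Complex.I) := by
      rw [hL, KFT_L_apply]; simp
    rw [e1, e2]
    exact hp
  have hp' : L.symm p₀ ∈ L ⁻¹' W := by
    show L (L.symm p₀) ∈ W
    rwa [L.apply_symm_apply]
  obtain ⟨r, A₁, g, dg, hr, hsub, hG, hz⟩ := hKFR 𝔐 𝒢 V (L ⁻¹' W) (pb1 L A) (pb2 L F)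
    (L.symm p₀) (hW.preimage L.continuous) hC' hF' hp'
  have hopen : IsOpen (L.symm ⁻¹' Metric.ball (L.symm p₀) r) :=
    Metric.isOpen_ball.preimage L.symm.continuous
  obtain ⟨r₂, hr₂, hb⟩ := Metric.isOpen_iff.1 hopen p₀ (by
    show L.symm p₀ ∈ Metric.ball (L.symm p₀) r
    exact Metric.mem_ball_self hr)
  refine ⟨r₂, _, _, _, hr₂, ?_, KFT_mono 𝒢 hb (KFT_gau 𝒢 L _ A A₁ g dg hG), ?_⟩
  · intro y hy
    have h1 : L (L.symm y) ∈ W := hsub (hb hy)
    rwa [L.apply_symm_apply] at h1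
  · have h1 := TRP_ae L.symm (Metric.ball (L.symm p₀) r) _ hz
    have h2 := ae_restrict_of_ae_restrict_of_subset hb h1
    filter_upwards [h2] with p hp ζ
    have e3 : L.symm ((0 : V), ζ) = ζ.re • (((0 : V), (1 : ℝ)), (0 : ℝ))
        + ζ.im • (((0 : V), (0 : ℝ)), (1 : ℝ)) := by
      rw [L.symm_apply_eq]
      have e4 : ζ.re • (((0 : V), (1 : ℝ)), (0 : ℝ))
        + ζ.im • (((0 : V), (0 : ℝ)), (1 : ℝ)) = ((0, ζ.re), ζ.im) := by
        simp [Prod.smul_mk]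
      rw [e4, hL, KFT_L_apply]
      simp
    show A₁ (L.symm p) (L.symm (0, ζ)) = 0
    rw [e3, map_add, map_smul, map_smul, hp.1, hp.2]
    simp

end Pool.TIW
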