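import Pool.Agent.Work.MP_a1f430_wb.Interface3

/-! # Block KW0 (MP_a1f430, THEOREM J, helper95): a function with vanishing weak derivative -/

set_option autoImplicit false

namespace Pool.TIW

open Pool.TIA
open MeasureTheory Set Filter Topology
open scoped ContDiff ENNReal

theorem p_KW0 (hW : Stmt_WHS) : Stmt_KW0 := by
  intro X _ _ _ z₀ z₁ r f hz₁ hf heq hRp hfz
  have hH : WHol (Metric.ball z₀ r) mulI f (fun _ => (0 : X)) := by
    refine ⟨hf, ?_, ?_⟩
    · intro K _ _
      exact MemLp.zero'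
    · intro φ hφ v
      have := heq φ hφ v
      simpa using this
  obtain ⟨P', Q', hP', hQ', hae, hder⟩ :=
    hW ℂ X mulI (Metric.ball z₀ r) f (fun _ => (0 : X)) Cpx_mulI Metric.isOpen_ball hH
  have hQ0 : EqOn Q' (fun _ => (0 : X)) (Metric.ball z₀ r) := by
    apply Measure.eqOn_open_of_ae_eq (μ := (volume : Measure ℂ)) _ Metric.isOpen_ball
      hQ'.continuousOn continuousOn_const
    filter_upwards [hae] with x hx
    exact hx.2.symm
  have hd : EqOn (fderiv ℝ P') 0 (Metric.ball z₀ r) := by
    intro x hx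
    ext v
    rw [hder x hx v]
    have he : Q' =ᶠ[𝓝 x] fun _ => (0 : X) := by
      filter_upwards [Metric.isOpen_ball.mem_nhds hx] with y hy
      exact hQ0 hy
    rw [he.fderiv_eq]
    simp
  have hconst : ∀ x ∈ Metric.ball z₀ r, P' x = P' z₁ := by
    intro x hx
    exact Metric.isOpen_ball.is_const_of_fderiv_eq_zero
      (convex_ball z₀ r).isPreconnected (hP'.differentiableOn (by simp)) hd hx hz₁
  obtain ⟨c, hc, hca, hcz⟩ := hRp
  have hPc : EqOn P' c (Metric.ball z₀ r) := by
    apply Measure.eqOn_open_of_ae_eq (μ := (volume : Measure ℂ)) _ Metric.isOpen_ball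
      hP'.continuousOn hc
    filter_upwards [hae, hca] with x hx hx'
    rw [← hx.1, hx']
  have hz : P' z₁ = 0 := by rw [hPc hz₁, ← hcz, hfz]
  rw [ae_restrict_iff' Metric.isOpen_ball.measurableSet] at hae ⊢
  filter_upwards [hae] with x hx hxb
  rw [(hx hxb).1, hconst x hxb, hz]

end Pool.TIW
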