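import Pool.Agent.Work.MP_a1f430_wb.Interface3
import Pool.Agent.Work.MP_a1f430_wb.B_BIT

/-! # Block KW1 (MP_a1f430, THEOREM J, helper2): one complex variable -/

set_option autoImplicit false

namespace Pool.TIW

open Pool.TIA
open MeasureTheory Set Filter Topology
open scoped ContDiff ENNReal

section

variable {X : Type} [NormedAddCommGroup X] [NormedSpace ℝ X] [FiniteDimensional ℝ X]

omit [FiniteDimensional ℝ X] in
theorem KW1_int {D : Set ℂ} {ψ : ℂ → ℝ} (hψ : Test D ψ) {f : ℂ → X} (hf : ContinuousOn f D) :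
    Integrable (fun z => ψ z • f z) :=
  BIT_int hψ fun _ hK hKD => (hf.mono hKD).integrableOn_compact hK

omit [FiniteDimensional ℝ X] in
theorem KW1_dcont {D : Set ℂ} (hD : IsOpen D) {c : ℂ → X} (hc : ContDiffOn ℝ ∞ c D) (e : ℂ) :
    ContinuousOn (fun z => fderiv ℝ c z e) D :=
  (hc.continuousOn_fderiv_of_isOpen hD (by simp)).clm_apply continuousOn_const

omit [FiniteDimensional ℝ X] in
theorem KW1_ibp {D : Set ℂ} (hD : IsOpen D)
    {φ : ℂ → ℝ} (hφ : Test D φ) {c : ℂ → X} (hc : ContDiffOn ℝ ∞ c D) (e : ℂ) :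
    ∫ z, fderiv ℝ φ z e • c z = -∫ z, φ z • fderiv ℝ c z e := by
  have h3 := integral_smul_fderiv_eq_neg_fderiv_smul_of_integrable (μ := (volume : Measure ℂ))
    (f := φ) (g := c) (v := e)
    (KW1_int (BIT_test hφ e) hc.continuousOn)
    (KW1_int hφ (KW1_dcont hD hc e))
    (KW1_int hφ hc.continuousOn)
    (fun x _ => hφ.smooth.differentiable (by simp) x)
    (fun x hx => (hc.contDiffAt (hD.mem_nhds (hφ.sub hx))).differentiableAt (by simp))
  rw [h3, neg_neg]

theorem KW1_fund {D : Set ℂ} (hD : IsOpen D) {f : ℂ → X} (hf : ContinuousOn f D)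
    (h : ∀ φ : ℂ → ℝ, Test D φ → ∫ z, φ z • f z = 0) : ∀ z ∈ D, f z = 0 := by
  have h1 : LocallyIntegrableOn f D volume := hf.locallyIntegrableOn hD.measurableSet
  have h2 := hD.ae_eq_zero_of_integral_contDiff_smul_eq_zero h1 fun g hg hg' hg'' => h g ⟨hg, hg', hg''⟩
  have h3 : EqOn f (fun _ => (0 : X)) D := by
    apply Measure.eqOn_open_of_ae_eq (μ := (volume : Measure ℂ)) _ hD hf continuousOn_const
    exact (ae_restrict_iff' hD.measurableSet).2 h2
  exact h3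

/-- one weak identity -/
theorem KW1_weak {D : Set ℂ} (hD : IsOpen D) {U T : ℂ → X} (hU : ContDiffOn ℝ ∞ U D) (hT : ContDiffOn ℝ ∞ T D)
    (u v : ℂ) (h : ∀ φ : ℂ → ℝ, Test D φ → ∫ z, (fderiv ℝ φ z u • U z + fderiv ℝ φ z v • T z) = 0) :
    ∀ z ∈ D, fderiv ℝ U z u + fderiv ℝ T z v = 0 := by
  refine KW1_fund hD ((KW1_dcont hD hU u).add (KW1_dcont hD hT v)) fun φ hφ => ?_
  have h1 := h φ hφ
  rw [integral_add (KW1_int (BIT_test hφ u) hU.continuousOn) (KW1_int (BIT_test hφ v) hT.continuousOn),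
    KW1_ibp hD hφ hU u, KW1_ibp hD hφ hT v] at h1
  have h2 : (fun z => φ z • (fderiv ℝ U z u + fderiv ℝ T z v)) =
      fun z => φ z • fderiv ℝ U z u + φ z • fderiv ℝ T z v := by
    funext z; rw [smul_add]
  rw [h2, integral_add (KW1_int hφ (KW1_dcont hD hU u)) (KW1_int hφ (KW1_dcont hD hT v))]
  linear_combination (norm := module) (-1 : ℝ) • h1

/-- a holomorphic pair gives a holomorphic function -/
theorem KW1_hol (p q : ℂ → X) (z : ℂ) (hp : DifferentiableAt ℝ p z) (hq : DifferentiableAt ℝ q z)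
    (h : ∀ v, fderiv ℝ p z v = fderiv ℝ q z (mulI v)) (l : X →L[ℝ] ℝ) :
    HasDerivAt (fun z => (l (p z) : ℂ) + Complex.I * (l (q z) : ℂ))
      ((l (fderiv ℝ p z 1) : ℂ) + Complex.I * (l (fderiv ℝ q z 1) : ℂ)) z := by
  let Λ : X →L[ℝ] ℂ := Complex.ofRealCLM.comp l
  have hΛ : ∀ x, Λ x = (l x : ℂ) := fun _ => rfl
  have h1 : HasFDerivAt (fun z => Λ (p z) + Complex.I * Λ (q z))
      (Λ.comp (fderiv ℝ p z) + Complex.I • (Λ.comp (fderiv ℝ q z))) z := by
    refine (Λ.hasFDerivAt.comp z hp.hasFDerivAt).add ?_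
    exact (Λ.hasFDerivAt.comp z hq.hasFDerivAt).const_mul Complex.I
  have h2 : fderiv ℝ p z Complex.I = -fderiv ℝ q z 1 := by
    rw [h, mulI_apply, Complex.I_mul_I, map_neg]
  have h3 : fderiv ℝ q z Complex.I = fderiv ℝ p z 1 := by
    rw [h, mulI_apply, mul_one]
  have h4 : DifferentiableAt ℂ (fun z => Λ (p z) + Complex.I * Λ (q z)) z := by
    rw [differentiableAt_complex_iff_differentiableAt_real]
    refine ⟨h1.differentiableAt, ?_⟩
    rw [h1.fderiv]
    simp only [ContinuousLinearMap.add_apply, ContinuousLinearMap.smul_apply, ContinuousLinearMap.comp_apply, h2, h3,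
      map_neg, smul_eq_mul]
    linear_combination (-Λ (fderiv ℝ q z 1)) * Complex.I_mul_I
  have h5 := h4.hasDerivAt
  have h6 : deriv (fun z => Λ (p z) + Complex.I * Λ (q z)) z = Λ (fderiv ℝ p z 1) + Complex.I * Λ (fderiv ℝ q z 1) := by
    have h7 := congrArg (fun L : ℂ →L[ℝ] ℂ => L 1) (h4.fderiv_restrictScalars ℝ)
    rw [h1.fderiv] at h7
    simpa using h7.symm
  rw [h6] at h5
  exact h5

/-- the coordinates of a bilinear map -/
theorem KW1_sum {n : ℕ} (bas : Module.Basis (Fin n) ℝ X) (l : Fin n → X →L[ℝ] ℝ) (hl : ∀ j x, l j x = bas.repr x j)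
    (B : X →L[ℝ] X →L[ℝ] X) (i : Fin n) (x y p q : X) :
    ∑ j, ∑ k, ((l i (B (bas j) (bas k)) : ℝ) : ℂ) *
      (starRingEnd ℂ) ((l j x : ℂ) + Complex.I * (l j y : ℂ)) * ((l k p : ℂ) + Complex.I * (l k q : ℂ)) =
    ((l i (B x p + B y q) : ℝ) : ℂ) + Complex.I * ((l i (B x q - B y p) : ℝ) : ℂ) := by
  have hB : ∀ u v : X, l i (B u v) = ∑ j, ∑ k, l i (B (bas j) (bas k)) * l j u * l k v := by
    intro u v
    have e1 : B u v = ∑ j, (bas.repr u j) • B (bas j) v := by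
      conv_lhs => rw [← bas.sum_repr u]
      rw [map_sum, ContinuousLinearMap.sum_apply]
      refine Finset.sum_congr rfl fun j _ => ?_
      rw [map_smul, ContinuousLinearMap.smul_apply]
    have e2 : ∀ w : X, B w v = ∑ k, (bas.repr v k) • B w (bas k) := by
      intro w
      conv_lhs => rw [← bas.sum_repr v]
      rw [map_sum]
      refine Finset.sum_congr rfl fun j _ => ?_
      rw [map_smul]
    rw [e1, map_sum]
    refine Finset.sum_congr rfl fun j _ => ?_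
    rw [map_smul, e2, map_sum, Finset.smul_sum]
    refine Finset.sum_congr rfl fun k _ => ?_
    rw [map_smul, hl j u, hl k v]
    simp only [smul_eq_mul]
    ring
  rw [map_add, map_sub, hB x p, hB y q, hB x q, hB y p]
  push_cast
  rw [← Finset.sum_add_distrib, ← Finset.sum_sub_distrib, Finset.mul_sum, ← Finset.sum_add_distrib]
  refine Finset.sum_congr rfl fun j _ => ?_
  rw [← Finset.sum_add_distrib, ← Finset.sum_sub_distrib, Finset.mul_sum, ← Finset.sum_add_distrib]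
  refine Finset.sum_congr rfl fun k _ => ?_
  simp only [map_add, map_mul, Complex.conj_ofReal, Complex.conj_I]
  linear_combination (-((l i (B (bas j) (bas k)) : ℝ) : ℂ) * (l j y : ℂ) * (l k q : ℂ)) * Complex.I_mul_I

/-- the derivative of a bilinear expression -/
theorem KW1_bil (B : X →L[ℝ] X →L[ℝ] X) (f g : ℂ → X) (z : ℂ) (hf : DifferentiableAt ℝ f z)
    (hg : DifferentiableAt ℝ g z) (v : ℂ) :
    fderiv ℝ (fun z => B (f z) (g z)) z v = B (f z) (fderiv ℝ g z v) + B (fderiv ℝ f z v) (g z) := by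
  rw [B.fderiv_of_bilinear hf hg]
  rfl

theorem KW1_bils {D : Set ℂ} (B : X →L[ℝ] X →L[ℝ] X) (f g : ℂ → X) (hf : ContDiffOn ℝ ∞ f D)
    (hg : ContDiffOn ℝ ∞ g D) : ContDiffOn ℝ ∞ (fun z => B (f z) (g z)) D :=
  (B.contDiff.comp_contDiffOn hf).clm_apply hg

/-- the main computation -/
theorem KW1_main (hH : Stmt_HOZ) (z₀ z₁ : ℂ) (r : ℝ) (a b P Q : ℂ → X) (B : X →L[ℝ] X →L[ℝ] X)
    (hz : z₁ ∈ Metric.ball z₀ r)
    (ha : ContDiffOn ℝ ∞ a (Metric.ball z₀ r)) (hb : ContDiffOn ℝ ∞ b (Metric.ball z₀ r))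
    (hP : ContDiffOn ℝ ∞ P (Metric.ball z₀ r)) (hQ : ContDiffOn ℝ ∞ Q (Metric.ball z₀ r))
    (hab : ∀ x ∈ Metric.ball z₀ r, ∀ v, fderiv ℝ a x v = fderiv ℝ b x (mulI v))
    (hPQ : ∀ x ∈ Metric.ball z₀ r, ∀ v, fderiv ℝ P x v = fderiv ℝ Q x (mulI v))
    (h1 : ∀ z ∈ Metric.ball z₀ r, fderiv ℝ (fun z => B (a z) (P z) + B (b z) (Q z)) z 1 +
      fderiv ℝ (fun z => -(B (a z) (Q z) - B (b z) (P z))) z Complex.I = 0)
    (h2 : ∀ z ∈ Metric.ball z₀ r, fderiv ℝ (fun z => B (a z) (Q z) - B (b z) (P z)) z 1 +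
      fderiv ℝ (fun z => B (a z) (P z) + B (b z) (Q z)) z Complex.I = 0) :
    ∀ z ∈ Metric.ball z₀ r, B (a z - a z₁) (P z) + B (b z - b z₁) (Q z) = 0 := by
  have hD : IsOpen (Metric.ball z₀ r) := Metric.isOpen_ball
  have hd : ∀ {f : ℂ → X}, ContDiffOn ℝ ∞ f (Metric.ball z₀ r) → ∀ z ∈ Metric.ball z₀ r, DifferentiableAt ℝ f z :=
    fun hf z hz => (hf.contDiffAt (hD.mem_nhds hz)).differentiableAt (by simp)
  have hI : ∀ {p q : ℂ → X} {z : ℂ}, (∀ v, fderiv ℝ p z v = fderiv ℝ q z (mulI v)) →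
      fderiv ℝ p z Complex.I = -fderiv ℝ q z 1 ∧ fderiv ℝ q z Complex.I = fderiv ℝ p z 1 := by
    intro p q z h
    refine ⟨by rw [h, mulI_apply, Complex.I_mul_I, map_neg], by rw [h, mulI_apply, mul_one]⟩
  -- `S = 0`
  have hS : ∀ z ∈ Metric.ball z₀ r,
      B (fderiv ℝ a z 1) (P z) + B (fderiv ℝ b z 1) (Q z) = 0 ∧
      B (fderiv ℝ a z 1) (Q z) - B (fderiv ℝ b z 1) (P z) = 0 := by
    intro z hz
    have e1 := h1 z hz
    have e2 := h2 z hz
    obtain ⟨ia, ib⟩ := hI (hab z hz)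
    obtain ⟨iP, iQ⟩ := hI (hPQ z hz)
    have da := hd ha z hz
    have db := hd hb z hz
    have dP := hd hP z hz
    have dQ := hd hQ z hz
    have daP : DifferentiableAt ℝ (fun z => B (a z) (P z)) z := hd (KW1_bils B a P ha hP) z hz
    have dbQ : DifferentiableAt ℝ (fun z => B (b z) (Q z)) z := hd (KW1_bils B b Q hb hQ) z hz
    have daQ : DifferentiableAt ℝ (fun z => B (a z) (Q z)) z := hd (KW1_bils B a Q ha hQ) z hz
    have dbP : DifferentiableAt ℝ (fun z => B (b z) (P z)) z := hd (KW1_bils B b P hb hP) z hz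
    rw [fderiv_fun_add daP dbQ, fderiv_fun_neg, fderiv_fun_sub daQ dbP] at e1
    rw [fderiv_fun_sub daQ dbP, fderiv_fun_add daP dbQ] at e2
    simp only [ContinuousLinearMap.add_apply, ContinuousLinearMap.sub_apply, ContinuousLinearMap.neg_apply,
      KW1_bil B a P z da dP, KW1_bil B b Q z db dQ, KW1_bil B a Q z da dQ, KW1_bil B b P z db dP, ia, ib, iP, iQ,
      map_neg] at e1 e2
    constructor
    · have : (2 : ℝ) • (B (fderiv ℝ a z 1) (P z) + B (fderiv ℝ b z 1) (Q z)) = 0 := by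
        linear_combination (norm := module) e1
      exact (smul_eq_zero.1 this).resolve_left two_ne_zero
    · have : (2 : ℝ) • (B (fderiv ℝ a z 1) (Q z) - B (fderiv ℝ b z 1) (P z)) = 0 := by
        linear_combination (norm := module) e2
      exact (smul_eq_zero.1 this).resolve_left two_ne_zero
  -- coordinates
  let bas := Module.finBasis ℝ X
  let l : Fin (Module.finrank ℝ X) → X →L[ℝ] ℝ := fun j => LinearMap.toContinuousLinearMap (bas.coord j)
  have hl : ∀ j x, l j x = bas.repr x j := fun _ _ => rfl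
  intro z hzD
  apply bas.repr.injective
  ext i
  rw [map_zero, Finsupp.zero_apply, ← hl]
  have hc : ∀ (j) (z : ℂ), z ∈ Metric.ball z₀ r →
      HasDerivAt (fun z => (l j (a z - a z₁) : ℂ) + Complex.I * (l j (b z - b z₁) : ℂ))
        ((l j (fderiv ℝ a z 1) : ℂ) + Complex.I * (l j (fderiv ℝ b z 1) : ℂ)) z := by
    intro j z hz
    have e3 := KW1_hol (fun z => a z - a z₁) (fun z => b z - b z₁) z ((hd ha z hz).sub_const _)
      ((hd hb z hz).sub_const _) (by
        intro v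
        rw [fderiv_sub_const, fderiv_sub_const]
        exact hab z hz v) (l j)
    rw [fderiv_sub_const, fderiv_sub_const] at e3
    exact e3
  have hh : ∀ (j) (z : ℂ), z ∈ Metric.ball z₀ r →
      DifferentiableAt ℂ (fun z => (l j (P z) : ℂ) + Complex.I * (l j (Q z) : ℂ)) z := fun j z hz =>
    (KW1_hol P Q z (hd hP z hz) (hd hQ z hz) (hPQ z hz) (l j)).differentiableAt
  have key := hH (Fin (Module.finrank ℝ X)) z₀ z₁ r
    (fun j z => (l j (a z - a z₁) : ℂ) + Complex.I * (l j (b z - b z₁) : ℂ))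
    (fun k z => (l k (P z) : ℂ) + Complex.I * (l k (Q z) : ℂ))
    (fun j k => ((l i (B (bas j) (bas k)) : ℝ) : ℂ)) hz
    (fun j z hz => (hc j z hz).differentiableAt.differentiableWithinAt)
    (fun j z hz => (hh j z hz).differentiableWithinAt)
    (fun j => by simp)
    (fun z hz => by
      simp only [(hc _ z hz).deriv]
      rw [KW1_sum bas l hl B i, (hS z hz).1, (hS z hz).2]
      simp) z hzD
  rw [KW1_sum bas l hl B i] at key
  have key' := congrArg Complex.re key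
  simpa using key'

end

theorem p_KW1 (hW : Stmt_WHS) (hH : Stmt_HOZ) : Stmt_KW1 := by
  intro 𝔐 _ _ _ z₀ z₁ r a b P Q hz hab hPQ h1 h2 hra hrb
  have hD : IsOpen (Metric.ball z₀ r) := Metric.isOpen_ball
  obtain ⟨a', b', ha', hb', haeab, hdab⟩ := hW ℂ 𝔐 mulI (Metric.ball z₀ r) a b Cpx_mulI hD hab
  obtain ⟨P', Q', hP', hQ', haePQ, hdPQ⟩ := hW ℂ 𝔐 mulI (Metric.ball z₀ r) P Q Cpx_mulI hD hPQ
  let B : 𝔐 →L[ℝ] 𝔐 →L[ℝ] 𝔐 := ContinuousLinearMap.mul ℝ 𝔐 - (ContinuousLinearMap.mul ℝ 𝔐).flip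
  have hB : ∀ x y : 𝔐, B x y = brk x y := fun _ _ => rfl
  have hae : ∀ᵐ z ∂(volume : Measure ℂ), z ∈ Metric.ball z₀ r →
      a z = a' z ∧ b z = b' z ∧ P z = P' z ∧ Q z = Q' z := by
    rw [ae_restrict_iff' hD.measurableSet] at haeab haePQ
    filter_upwards [haeab, haePQ] with z hz1 hz2 hz
    exact ⟨(hz1 hz).1, (hz1 hz).2, (hz2 hz).1, (hz2 hz).2⟩
  have hout : ∀ {φ : ℂ → ℝ}, Test (Metric.ball z₀ r) φ → ∀ z ∉ Metric.ball z₀ r, ∀ v, fderiv ℝ φ z v = 0 := by
    intro φ hφ z hz v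
    have h3 : z ∉ tsupport φ := fun h => hz (hφ.sub h)
    have h4 : fderiv ℝ φ z = 0 := by
      have := support_fderiv_subset ℝ (f := φ)
      by_contra h
      exact h3 (this h)
    rw [h4]; rfl
  have hUs : ContDiffOn ℝ ∞ (fun z => B (a' z) (P' z) + B (b' z) (Q' z)) (Metric.ball z₀ r) :=
    (KW1_bils B a' P' ha' hP').add (KW1_bils B b' Q' hb' hQ')
  have hTs : ContDiffOn ℝ ∞ (fun z => B (a' z) (Q' z) - B (b' z) (P' z)) (Metric.ball z₀ r) :=
    (KW1_bils B a' Q' ha' hQ').sub (KW1_bils B b' P' hb' hP')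
  have w1 := KW1_weak hD hUs hTs.neg 1 Complex.I (by
    intro φ hφ
    rw [← h1 φ hφ]
    refine integral_congr_ae ?_
    filter_upwards [hae] with z hz
    by_cases hzD : z ∈ Metric.ball z₀ r
    · obtain ⟨e1, e2, e3, e4⟩ := hz hzD
      rw [e1, e2, e3, e4]
      simp only [hB]
      module
    · simp only [hout hφ z hzD, zero_smul, add_zero, sub_zero])
  have w2 := KW1_weak hD hTs hUs 1 Complex.I (by
    intro φ hφ
    rw [← h2 φ hφ]
    refine integral_congr_ae ?_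
    filter_upwards [hae] with z hz
    by_cases hzD : z ∈ Metric.ball z₀ r
    · obtain ⟨e1, e2, e3, e4⟩ := hz hzD
      rw [e1, e2, e3, e4]
      simp only [hB]
    · simp only [hout hφ z hzD, zero_smul, add_zero])
  have main := KW1_main hH z₀ z₁ r a' b' P' Q' B hz ha' hb' hP' hQ' hdab hdPQ w1 w2
  have hrep : ∀ {f f' : ℂ → 𝔐}, Rp (Metric.ball z₀ r) f z₁ → ContDiffOn ℝ ∞ f' (Metric.ball z₀ r) →
      (∀ᵐ z ∂(volume : Measure ℂ), z ∈ Metric.ball z₀ r → f z = f' z) → f z₁ = f' z₁ := by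
    rintro f f' ⟨c, hc, hca, hcz⟩ hf' hff
    have h5 : EqOn f' c (Metric.ball z₀ r) := by
      apply Measure.eqOn_open_of_ae_eq (μ := (volume : Measure ℂ)) _ hD hf'.continuousOn hc
      filter_upwards [(ae_restrict_iff' hD.measurableSet).2 hff, hca] with x hx hx'
      rw [← hx, hx']
    rw [hcz, h5 hz]
  have ea := hrep hra ha' (by filter_upwards [hae] with z hz hzD using (hz hzD).1)
  have eb := hrep hrb hb' (by filter_upwards [hae] with z hz hzD using (hz hzD).2.1)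
  rw [ae_restrict_iff' hD.measurableSet]
  filter_upwards [hae] with z hz hzD
  obtain ⟨e1, e2, e3, e4⟩ := hz hzD
  have := main z hzD
  rw [← e1, ← e2, ← e3, ← e4, ← ea, ← eb] at this
  exact this

end Pool.TIW
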