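import Pool.Agent.Work.MP_a1f430_wb.Interface3

/-! # Block PRC: a smooth primitive in one complex variable (helper2) -/

set_option autoImplicit false

namespace Pool.TIW

open Pool.TIA
open MeasureTheory Set Filter Topology
open scoped ContDiff ENNReal Convolution

/-- the derivative of the smooth transition -/
noncomputable def PRC_h' : ℝ → ℝ := deriv Real.smoothTransition

theorem PRC_h_hasDerivAt (s : ℝ) : HasDerivAt Real.smoothTransition (PRC_h' s) s := by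
  have h : ContDiff ℝ ∞ Real.smoothTransition := Real.smoothTransition.contDiff
  exact ((contDiff_infty_iff_deriv.1 h).1 s).hasDerivAt

theorem PRC_h'_contDiff : ContDiff ℝ ∞ PRC_h' := by
  have h : ContDiff ℝ ∞ Real.smoothTransition := Real.smoothTransition.contDiff
  exact (contDiff_infty_iff_deriv.1 h).2

theorem PRC_h'_zero (s : ℝ) (hs : s ∉ Icc (0 : ℝ) 1) : PRC_h' s = 0 := by
  have h1 : s < 0 ∨ 1 < s := by
    by_contra h
    push Not at h
    exact hs ⟨h.1, h.2⟩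
  rcases h1 with h1 | h1
  · have : Real.smoothTransition =ᶠ[𝓝 s] fun _ => 0 := by
      filter_upwards [Iio_mem_nhds h1] with u hu
      exact Real.smoothTransition.zero_of_nonpos (le_of_lt hu)
    rw [PRC_h', this.deriv_eq, deriv_const]
  · have : Real.smoothTransition =ᶠ[𝓝 s] fun _ => 1 := by
      filter_upwards [Ioi_mem_nhds h1] with u hu
      exact Real.smoothTransition.one_of_one_le (le_of_lt hu)
    rw [PRC_h', this.deriv_eq, deriv_const]

section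

variable {V X : Type} [NormedAddCommGroup V] [NormedSpace ℝ V] [NormedAddCommGroup X] [NormedSpace ℝ X]

/-- the path -/
noncomputable def PRC_γ (z₁ : ℂ) (p : V × ℂ) (s : ℝ) : V × ℂ :=
  (p.1, z₁ + Real.smoothTransition s • (p.2 - z₁))

/-- the integrand -/
noncomputable def PRC_g (z₁ : ℂ) (P Q : V × ℂ → X) (p : V × ℂ) (s : ℝ) : X :=
  PRC_h' s • ((p.2 - z₁).re • P (PRC_γ z₁ p s) - (p.2 - z₁).im • Q (PRC_γ z₁ p s))

theorem PRC_γ_mem (W : Set V) (z₀ z₁ : ℂ) (r : ℝ) (hz : z₁ ∈ Metric.ball z₀ r) (p : V × ℂ)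
    (hp : p ∈ W ×ˢ Metric.ball z₀ r) (s : ℝ) : PRC_γ z₁ p s ∈ W ×ˢ Metric.ball z₀ r :=
  ⟨hp.1, (convex_ball z₀ r).add_smul_sub_mem hz hp.2
    ⟨Real.smoothTransition.nonneg s, Real.smoothTransition.le_one s⟩⟩

theorem PRC_γ_contDiff (z₁ : ℂ) : ContDiff ℝ ∞ (fun q : (V × ℂ) × ℝ => PRC_γ z₁ q.1 q.2) := by
  have h : ContDiff ℝ ∞ Real.smoothTransition := Real.smoothTransition.contDiff
  unfold PRC_γ
  refine (contDiff_fst.comp contDiff_fst).prodMk ?_
  exact contDiff_const.add ((h.comp contDiff_snd).smul ((contDiff_snd.comp contDiff_fst).sub contDiff_const))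

theorem PRC_g_contDiffOn (W : Set V) (z₀ z₁ : ℂ) (r : ℝ) (P Q : V × ℂ → X)
    (hz : z₁ ∈ Metric.ball z₀ r)
    (hP : ContDiffOn ℝ ∞ P (W ×ˢ Metric.ball z₀ r)) (hQ : ContDiffOn ℝ ∞ Q (W ×ˢ Metric.ball z₀ r)) :
    ContDiffOn ℝ ∞ (↿(PRC_g z₁ P Q)) ((W ×ˢ Metric.ball z₀ r) ×ˢ univ) := by
  have hm : MapsTo (fun q : (V × ℂ) × ℝ => PRC_γ z₁ q.1 q.2) ((W ×ˢ Metric.ball z₀ r) ×ˢ univ)
      (W ×ˢ Metric.ball z₀ r) := fun q hq => PRC_γ_mem W z₀ z₁ r hz q.1 hq.1 q.2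
  have h1 := hP.comp (PRC_γ_contDiff (V := V) z₁).contDiffOn hm
  have h2 := hQ.comp (PRC_γ_contDiff (V := V) z₁).contDiffOn hm
  have hre : ContDiff ℝ ∞ (fun q : (V × ℂ) × ℝ => (q.1.2 - z₁).re) :=
    Complex.reCLM.contDiff.comp ((contDiff_snd.comp contDiff_fst).sub contDiff_const)
  have him : ContDiff ℝ ∞ (fun q : (V × ℂ) × ℝ => (q.1.2 - z₁).im) :=
    Complex.imCLM.contDiff.comp ((contDiff_snd.comp contDiff_fst).sub contDiff_const)
  have hh : ContDiff ℝ ∞ (fun q : (V × ℂ) × ℝ => PRC_h' q.2) := PRC_h'_contDiff.comp contDiff_snd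
  exact hh.contDiffOn.smul ((hre.contDiffOn.smul h1).sub (him.contDiffOn.smul h2))

/-- the composition with a path -/
theorem PRC_line (U : Set (V × ℂ)) (hU : IsOpen U) (R : V × ℂ → X) (hR : ContDiffOn ℝ ∞ R U) (c : ℝ → V × ℂ)
    (c' : V × ℂ) (t₀ : ℝ) (hc : HasDerivAt c c' t₀) (hm : c t₀ ∈ U) :
    HasDerivAt (fun t => R (c t)) (fderiv ℝ R (c t₀) c') t₀ := by
  have h1 : HasFDerivAt R (fderiv ℝ R (c t₀)) (c t₀) :=
    ((hR.contDiffAt (hU.mem_nhds hm)).differentiableAt (by simp)).hasFDerivAt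
  exact h1.comp_hasDerivAt t₀ hc

/-- the closedness -/
theorem PRC_closed (LP LQ : V × ℂ →L[ℝ] X) (h : LP (0, Complex.I) = -LQ (0, 1)) (ζ w : ℂ) :
    w.re • LP (0, ζ) - w.im • LQ (0, ζ) = ζ.re • LP (0, w) - ζ.im • LQ (0, w) := by
  have e : ∀ (L : V × ℂ →L[ℝ] X) (u : ℂ), L (0, u) = u.re • L (0, 1) + u.im • L (0, Complex.I) := by
    intro L u
    rw [← map_smul, ← map_smul, ← map_add]
    congr 1
    refine Prod.ext (by simp) ?_
    show u = u.re • (1 : ℂ) + u.im • Complex.I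
    simp
  rw [e LP ζ, e LQ ζ, e LP w, e LQ w, h]
  module

end

theorem p_PRC : Stmt_PRC := by
  intro V X _ _ _ _ _ _ W z₀ z₁ r P Q hW hz hP hQ hPQ
  have _ : CompleteSpace X := FiniteDimensional.complete ℝ X
  set U : Set (V × ℂ) := W ×ˢ Metric.ball z₀ r with hU
  have hUo : IsOpen U := hW.prod Metric.isOpen_ball
  have hg := PRC_g_contDiffOn W z₀ z₁ r P Q hz hP hQ
  have hg0 : ∀ p : V × ℂ, ∀ x : ℝ, p ∈ U → x ∉ Icc (0 : ℝ) 1 → PRC_g z₁ P Q p x = 0 := by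
    intro p x _ hx
    rw [PRC_g, PRC_h'_zero x hx, zero_smul]
  have hf : LocallyIntegrable (fun _ : ℝ => (1 : ℝ)) volume := locallyIntegrable_const 1
  let L : ℝ →L[ℝ] X →L[ℝ] X := ContinuousLinearMap.lsmul ℝ ℝ
  let Φ : (V × ℂ) × ℝ → X := fun q => ((fun _ : ℝ => (1 : ℝ)) ⋆[L, volume] PRC_g z₁ P Q q.1) q.2
  have hΦ : ContDiffOn ℝ ∞ Φ (U ×ˢ univ) :=
    contDiffOn_convolution_right_with_param (n := ⊤) L hUo isCompact_Icc hg0 hf hg
  have hΦe : ∀ q, Φ q = ∫ s, PRC_g z₁ P Q q.1 s := by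
    intro q
    show ((fun _ : ℝ => (1 : ℝ)) ⋆[L, volume] PRC_g z₁ P Q q.1) q.2 = _
    rw [convolution_eq_swap]
    refine integral_congr_ae (Eventually.of_forall fun s => ?_)
    exact one_smul _ _
  have hg1 : ContDiffOn ℝ 1 (↿(PRC_g z₁ P Q)) (U ×ˢ univ) := hg.of_le (by simp)
  have hcs : ∀ p : V × ℂ, HasCompactSupport (fun x : ℝ => fderiv ℝ (↿(PRC_g z₁ P Q)) (p, x)) := by
    intro p
    refine HasCompactSupport.intro (isCompact_Icc (a := (0 : ℝ)) (b := 1)) fun x hx => ?_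
    have h2 : (↿(PRC_g z₁ P Q)) =ᶠ[𝓝 (p, x)] fun _ => 0 := by
      have h3 : {y : (V × ℂ) × ℝ | y.2 ∉ Icc (0 : ℝ) 1} ∈ 𝓝 (p, x) := by
        have h4 : IsOpen {y : (V × ℂ) × ℝ | y.2 ∉ Icc (0 : ℝ) 1} :=
          (isClosed_Icc.isOpen_compl).preimage continuous_snd
        exact h4.mem_nhds hx
      filter_upwards [h3] with y hy
      show PRC_g z₁ P Q y.1 y.2 = 0
      rw [PRC_g, PRC_h'_zero y.2 hy, zero_smul]
    rw [h2.fderiv_eq, fderiv_fun_const]
    rfl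
  have hcont : ∀ p ∈ U, Continuous (fun x : ℝ => fderiv ℝ (↿(PRC_g z₁ P Q)) (p, x)) := by
    intro p hp
    have h5 : ContinuousOn (fderiv ℝ (↿(PRC_g z₁ P Q))) (U ×ˢ univ) :=
      hg1.continuousOn_fderiv_of_isOpen (hUo.prod isOpen_univ) le_rfl
    exact h5.comp_continuous (by fun_prop) fun x => ⟨hp, mem_univ _⟩
  have hΦd : ∀ q : (V × ℂ) × ℝ, q.1 ∈ U → ∀ v : V × ℂ, fderiv ℝ Φ q (v, 0) =
      ∫ s, fderiv ℝ (↿(PRC_g z₁ P Q)) (q.1, s) (v, 0) := by
    intro q hq v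
    have h1 := hasFDerivAt_convolution_right_with_param (μ := volume) L hUo isCompact_Icc hg0 hf hg1 q hq
    rw [h1.fderiv, convolution_precompR_apply L hf (hcs q.1) (hcont q.1 hq), convolution_eq_swap]
    refine integral_congr_ae (Eventually.of_forall fun s => ?_)
    exact one_smul _ _
  -- the derivative of the integrand
  have hgd : ∀ p ∈ U, ∀ (ζ : ℂ) (s : ℝ), HasDerivAt
      (fun s => Real.smoothTransition s • (ζ.re • P (PRC_γ z₁ p s) - ζ.im • Q (PRC_γ z₁ p s)))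
      (fderiv ℝ (↿(PRC_g z₁ P Q)) (p, s) ((0, ζ), 0)) s := by
    intro p hp ζ s
    have hm := PRC_γ_mem W z₀ z₁ r hz p hp s
    -- derivative of `g` in the direction `ζ`
    have hc1 : HasDerivAt (fun u : ℝ => ((p.1, p.2 + u • ζ), s)) (((0 : V), ζ), (0 : ℝ)) 0 := by
      have h1 : HasDerivAt (fun u : ℝ => p.2 + u • ζ) ζ 0 := by
        have := (hasDerivAt_id (0 : ℝ)).smul_const ζ
        simpa using this.const_add p.2
      exact ((hasDerivAt_const (0 : ℝ) p.1).prodMk h1).prodMk (hasDerivAt_const (0 : ℝ) s)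
    have hd1 : HasFDerivAt (↿(PRC_g z₁ P Q)) (fderiv ℝ (↿(PRC_g z₁ P Q)) (p, s)) (p, s) :=
      ((hg.contDiffAt ((hUo.prod isOpen_univ).mem_nhds ⟨hp, mem_univ _⟩)).differentiableAt (by simp)).hasFDerivAt
    have e0 : (fun u : ℝ => ((p.1, p.2 + u • ζ), s)) 0 = (p, s) := by simp
    have hA : HasDerivAt (fun u : ℝ => PRC_g z₁ P Q (p.1, p.2 + u • ζ) s)
        (fderiv ℝ (↿(PRC_g z₁ P Q)) (p, s) ((0, ζ), 0)) 0 := by
      rw [← e0] at hd1 ⊢
      exact hd1.comp_hasDerivAt (0 : ℝ) hc1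
    have hc2 : HasDerivAt (fun u : ℝ => PRC_γ z₁ (p.1, p.2 + u • ζ) s)
        ((0 : V), Real.smoothTransition s • ζ) 0 := by
      have h1 : HasDerivAt (fun u : ℝ => z₁ + Real.smoothTransition s • (p.2 + u • ζ - z₁))
          (Real.smoothTransition s • ζ) 0 := by
        have h2 : HasDerivAt (fun u : ℝ => p.2 + u • ζ) ζ 0 := by
          have := (hasDerivAt_id (0 : ℝ)).smul_const ζ
          simpa using this.const_add p.2
        have h3 := ((h2.sub_const z₁).const_smul (Real.smoothTransition s)).const_add z₁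
        exact h3
      exact (hasDerivAt_const (0 : ℝ) p.1).prodMk h1
    have e1 : PRC_γ z₁ (p.1, p.2 + (0 : ℝ) • ζ) s = PRC_γ z₁ p s := by simp [PRC_γ]
    have hPd := PRC_line U hUo P hP (fun u : ℝ => PRC_γ z₁ (p.1, p.2 + u • ζ) s) _ 0 hc2 (by rw [e1]; exact hm)
    have hQd := PRC_line U hUo Q hQ (fun u : ℝ => PRC_γ z₁ (p.1, p.2 + u • ζ) s) _ 0 hc2 (by rw [e1]; exact hm)
    have hre : HasDerivAt (fun u : ℝ => (p.2 + u • ζ - z₁).re) ζ.re 0 := by
      have h1 : (fun u : ℝ => (p.2 + u • ζ - z₁).re) = fun u : ℝ => u * ζ.re + (p.2 - z₁).re := by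
        funext u; simp; ring
      rw [h1]
      simpa using ((hasDerivAt_id (0 : ℝ)).mul_const ζ.re).add_const (p.2 - z₁).re
    have him : HasDerivAt (fun u : ℝ => (p.2 + u • ζ - z₁).im) ζ.im 0 := by
      have h1 : (fun u : ℝ => (p.2 + u • ζ - z₁).im) = fun u : ℝ => u * ζ.im + (p.2 - z₁).im := by
        funext u; simp; ring
      rw [h1]
      simpa using ((hasDerivAt_id (0 : ℝ)).mul_const ζ.im).add_const (p.2 - z₁).im
    have hB := ((hre.smul hPd).sub (him.smul hQd)).const_smul (PRC_h' s)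
    have hBe := hA.unique hB
    simp only [e1, zero_smul, add_zero] at hBe
    rw [hBe]
    -- derivative in `s`
    have hc3 : HasDerivAt (fun s : ℝ => PRC_γ z₁ p s) ((0 : V), PRC_h' s • (p.2 - z₁)) s := by
      have h1 := ((PRC_h_hasDerivAt s).smul_const (p.2 - z₁)).const_add z₁
      exact (hasDerivAt_const s p.1).prodMk h1
    have hPs := PRC_line U hUo P hP (fun s : ℝ => PRC_γ z₁ p s) _ s hc3 hm
    have hQs := PRC_line U hUo Q hQ (fun s : ℝ => PRC_γ z₁ p s) _ s hc3 hm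
    have hC := (PRC_h_hasDerivAt s).smul ((hPs.const_smul ζ.re).sub (hQs.const_smul ζ.im))
    refine HasDerivAt.congr_deriv (f := fun s => Real.smoothTransition s •
      (ζ.re • P (PRC_γ z₁ p s) - ζ.im • Q (PRC_γ z₁ p s))) hC ?_
    have hcl := PRC_closed (fderiv ℝ P (PRC_γ z₁ p s)) (fderiv ℝ Q (PRC_γ z₁ p s)) (hPQ _ hm) ζ (p.2 - z₁)
    have hsm : ∀ (T : V × ℂ →L[ℝ] X) (c : ℝ) (u : ℂ), T ((0 : V), c • u) = c • T (0, u) := by
      intro T c u
      rw [← map_smul]; congr 1; simp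
    have e2 : PRC_γ z₁ (p.1, p.2) s = PRC_γ z₁ p s := rfl
    rw [e2]
    simp only [hsm, Pi.sub_apply, Pi.smul_apply]
    linear_combination (norm := module) (-(PRC_h' s * Real.smoothTransition s)) • hcl
  have hint : ∀ p ∈ U, ∀ ζ : ℂ, ∫ s, fderiv ℝ (↿(PRC_g z₁ P Q)) (p, s) ((0, ζ), 0) =
      ζ.re • P p - ζ.im • Q p := by
    intro p hp ζ
    have h1 : Integrable (fun s => fderiv ℝ (↿(PRC_g z₁ P Q)) (p, s) ((0, ζ), 0)) volume := by
      refine Continuous.integrable_of_hasCompactSupport ?_ ?_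
      · exact (hcont p hp).clm_apply continuous_const
      · refine HasCompactSupport.intro (hcs p) fun x hx => ?_
        have h6 : fderiv ℝ (↿(PRC_g z₁ P Q)) (p, x) = 0 :=
          image_eq_zero_of_notMem_tsupport (f := fun x : ℝ => fderiv ℝ (↿(PRC_g z₁ P Q)) (p, x)) hx
        rw [h6]; rfl
    rw [integral_of_hasDerivAt_of_tendsto (hgd p hp ζ) h1 (m := 0) (n := ζ.re • P p - ζ.im • Q p), sub_zero]
    · refine tendsto_const_nhds.congr' ?_
      filter_upwards [Iic_mem_atBot (0 : ℝ)] with s hs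
      rw [Real.smoothTransition.zero_of_nonpos hs, zero_smul]
    · refine tendsto_const_nhds.congr' ?_
      filter_upwards [Ici_mem_atTop (1 : ℝ)] with s hs
      rw [PRC_γ, Real.smoothTransition.one_of_one_le hs, one_smul, one_smul]
      simp
  refine ⟨fun p => Φ (p, 0), ?_, ?_, ?_⟩
  · exact hΦ.comp (by fun_prop) fun p hp => ⟨hp, mem_univ _⟩
  · intro w _
    show Φ ((w, z₁), 0) = 0
    rw [hΦe]
    refine integral_eq_zero_of_ae (Eventually.of_forall fun s => ?_)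
    simp [PRC_g]
  · intro p hp
    have h1 : ∀ ζ : ℂ, fderiv ℝ (fun p : V × ℂ => Φ (p, 0)) p (0, ζ) = ζ.re • P p - ζ.im • Q p := by
      intro ζ
      have h2 : HasFDerivAt Φ (fderiv ℝ Φ (p, 0)) (p, 0) :=
        ((hΦ.contDiffAt ((hUo.prod isOpen_univ).mem_nhds ⟨hp, mem_univ _⟩)).differentiableAt (by simp)).hasFDerivAt
      have h3 : HasFDerivAt (fun p : V × ℂ => (p, (0 : ℝ))) (ContinuousLinearMap.inl ℝ (V × ℂ) ℝ) p :=
        hasFDerivAt_prodMk_left p 0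
      have h4 := h2.comp p h3
      have h5 : fderiv ℝ (fun p : V × ℂ => Φ (p, 0)) p = (fderiv ℝ Φ (p, 0)).comp (ContinuousLinearMap.inl ℝ (V × ℂ) ℝ) :=
        h4.fderiv
      rw [h5, ContinuousLinearMap.comp_apply, ContinuousLinearMap.inl_apply, hΦd (p, 0) hp, hint p hp]
    refine ⟨?_, ?_⟩
    · rw [h1]; simp
    · rw [h1]; simp

end Pool.TIW
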