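import Pool.Agent.Work.MP_a1f430_wb.Interface

/-! # Block DLO: localization of an identity in divergence form -/

set_option autoImplicit false

namespace Pool.TIW

open Pool.TIA
open MeasureTheory Set Filter Topology
open scoped ContDiff ENNReal Manifold

section

variable {E : Type} [NormedAddCommGroup E] [NormedSpace ℝ E] [FiniteDimensional ℝ E]
  [MeasureSpace E] [BorelSpace E] [(volume : Measure E).IsAddHaarMeasure]
  {X : Type} [NormedAddCommGroup X] [NormedSpace ℝ X]

omit [FiniteDimensional ℝ E] [NormedSpace ℝ E] in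
theorem DLO_finite [NormedSpace ℝ E] [FiniteDimensional ℝ E] {K : Set E} (hK : IsCompact K) :
    IsFiniteMeasure ((volume : Measure E).restrict K) :=
  ⟨by rw [Measure.restrict_apply_univ]; exact hK.measure_lt_top⟩

theorem DLO_L1 {W : Set E} {f : E → X} (hf : L2loc W f) : L1loc W f := by
  intro K hK hKW
  have := DLO_finite (E := E) hK
  exact (hf K hK hKW).integrable one_le_two

/-- A compactly supported continuous multiple of a locally integrable function is integrable. -/
theorem DLO_int {W : Set E} {f : E → X} (hf : L1loc W f) {φ : E → ℝ} (hφ : Continuous φ)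
    (hc : HasCompactSupport φ) (hs : tsupport φ ⊆ W) : Integrable (fun x => φ x • f x) := by
  have h1 : IntegrableOn (fun x => φ x • f x) (tsupport φ) volume :=
    (hf _ hc hs).continuousOn_smul hφ.continuousOn hc
  refine (integrableOn_iff_integrable_of_support_subset ?_).1 h1
  intro x hx
  apply subset_tsupport
  intro h0
  apply hx
  simp only
  rw [h0, zero_smul]

end

theorem p_DLO : Stmt_DLO := by
  classical
  intro 𝔐 _ _ _ _ E _ _ _ _ _ _ W A m v Z R hW hA hZ hR hloc φ hφ
  have hprop : ProperSpace E := FiniteDimensional.proper ℝ E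
  -- the right-hand side
  set H : E → 𝔐 := fun x => (∑ k, (A x (v k) * Z k x - Z k x * A x (v k))) - R x with hH
  have hAv : ∀ u : E, L2loc W (fun x => A x u) := by
    intro u K hK hKW
    exact (ContinuousLinearMap.apply ℝ 𝔐 u).comp_memLp' (hA K hK hKW)
  have hH1 : L1loc W H := by
    intro K hK hKW
    rw [hH]
    refine Integrable.sub ?_ (hR K hK hKW)
    refine integrable_finsetSum _ fun k _ => ?_
    refine Integrable.sub ?_ ?_
    · exact memLp_one_iff_integrable.1
        (MemLp.mul' (p := 2) (q := 2) (r := 1) (hZ k K hK hKW) (hAv (v k) K hK hKW))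
    · exact memLp_one_iff_integrable.1
        (MemLp.mul' (p := 2) (q := 2) (r := 1) (hAv (v k) K hK hKW) (hZ k K hK hKW))
  -- integrability for test functions
  have hint1 : ∀ ψ : E → ℝ, Test W ψ → Integrable (fun x => ψ x • H x) := fun ψ hψ =>
    DLO_int hH1 hψ.smooth.continuous hψ.cpt hψ.sub
  have hint2 : ∀ ψ : E → ℝ, Test W ψ →
      Integrable (fun x => ∑ k, fderiv ℝ ψ x (v k) • Z k x) := by
    intro ψ hψ
    refine integrable_finsetSum _ fun k _ => ?_
    have h1 : Continuous fun x => fderiv ℝ ψ x (v k) :=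
      (hψ.smooth.continuous_fderiv (by simp)).clm_apply continuous_const
    have h2 : tsupport (fun x => fderiv ℝ ψ x (v k)) ⊆ tsupport ψ :=
      tsupport_fderiv_apply_subset ℝ (v k)
    refine DLO_int (DLO_L1 (hZ k)) h1 ?_ (h2.trans hψ.sub)
    exact hψ.cpt.of_isClosed_subset (isClosed_tsupport _) h2
  -- the cover
  choose N hNo hxN hNW hN using hloc
  have hcov : tsupport φ ⊆ ⋃ x : W, N x x.2 := by
    intro x hx
    exact mem_iUnion.2 ⟨⟨x, hφ.sub hx⟩, hxN x _⟩
  obtain ⟨t, ht⟩ := hφ.cpt.isCompact.elim_finite_subcover (fun x : W => N x x.2)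
    (fun x => hNo x x.2) hcov
  obtain ⟨f, hf⟩ := SmoothPartitionOfUnity.exists_isSubordinate 𝓘(ℝ, E)
    (isClosed_tsupport φ) (fun i : t => N i.1 i.1.2) (fun i => hNo i.1 i.1.2) (by
      intro x hx
      have h1 := ht hx
      simp only [mem_iUnion] at h1 ⊢
      obtain ⟨i, hi, hxi⟩ := h1
      exact ⟨⟨i, hi⟩, hxi⟩)
  have hsm : ∀ i, ContDiff ℝ ∞ (f i) := fun i => contMDiff_iff_contDiff.1 (f i).contMDiff
  set ψ : t → E → ℝ := fun i x => f i x * φ x with hψ
  have hψN : ∀ i : t, Test (N i.1 i.1.2) (ψ i) := by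
    intro i
    refine ⟨(hsm i).mul hφ.smooth, ?_, ?_⟩
    · exact hφ.cpt.mul_left
    · exact (tsupport_mul_subset_left).trans (hf i)
  have hψW : ∀ i : t, Test W (ψ i) := fun i =>
    ⟨(hψN i).smooth, (hψN i).cpt, (hψN i).sub.trans (hNW _ _)⟩
  have hsum : φ = fun x => ∑ i, ψ i x := by
    funext x
    rw [hψ]
    simp only
    rw [← Finset.sum_mul]
    by_cases hx : x ∈ tsupport φ
    · have h1 := f.sum_eq_one hx
      rw [finsum_eq_sum_of_fintype] at h1
      rw [h1, one_mul]
    · have h1 : φ x = 0 := image_eq_zero_of_notMem_tsupport hx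
      rw [h1, mul_zero]
  have hder : ∀ x u, fderiv ℝ φ x u = ∑ i, fderiv ℝ (ψ i) x u := by
    intro x u
    have h1 : fderiv ℝ φ x = ∑ i, fderiv ℝ (ψ i) x := by
      conv_lhs => rw [hsum]
      exact fderiv_fun_sum fun i _ => ((hψW i).smooth.differentiable (by simp)).differentiableAt
    rw [h1, ContinuousLinearMap.sum_apply]
  show ∫ x, ∑ k, fderiv ℝ φ x (v k) • Z k x = ∫ x, φ x • H x
  have hL : ∀ x, ∑ k, fderiv ℝ φ x (v k) • Z k x =
      ∑ i, ∑ k, fderiv ℝ (ψ i) x (v k) • Z k x := by
    intro x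
    rw [Finset.sum_comm]
    refine Finset.sum_congr rfl fun k _ => ?_
    rw [hder, Finset.sum_smul]
  have hRr : ∀ x, φ x • H x = ∑ i, ψ i x • H x := by
    intro x
    rw [← Finset.sum_smul]
    congr 1
    exact congrFun hsum x
  simp_rw [hL, hRr]
  rw [integral_finsetSum _ fun i _ => hint2 _ (hψW i),
    integral_finsetSum _ fun i _ => hint1 _ (hψW i)]
  exact Finset.sum_congr rfl fun i _ => hN i.1 i.1.2 (ψ i) (hψN i)

end Pool.TIW
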