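import Pool.Agent.Work.MP_a1f430_wb.Interface3
import Pool.Agent.Work.MP_a1f430_wb.B_BIT
import Pool.Agent.Work.MP_a1f430_wb.B_DLO
import Pool.Agent.Work.MP_a1f430_wb.B_SSL

/-! # Block SMA: the connection in the flat gauge is smooth (MP_a1f430, THEOREM J, helper94) -/

set_option autoImplicit false

namespace Pool.TIW

open Pool.TIA
open MeasureTheory Set Filter Topology
open scoped ContDiff ENNReal

section

variable {E X : Type} [NormedAddCommGroup E] [NormedSpace ℝ E] [FiniteDimensional ℝ E]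
  [MeasureSpace E] [BorelSpace E] [(volume : Measure E).IsAddHaarMeasure]
  [NormedAddCommGroup X] [NormedSpace ℝ X]

theorem SMA_aesm {W : Set E} (hW : IsOpen W) {f : E → X} (hf : L2loc W f) :
    AEStronglyMeasurable f (volume.restrict W) := by
  have : ProperSpace E := FiniteDimensional.proper ℝ E
  have h1 : LocallyIntegrableOn f W volume :=
    (locallyIntegrableOn_iff hW.isLocallyClosed).2 fun K hKW hK => DLO_L1 hf K hK hKW
  exact h1.aestronglyMeasurable

theorem SMA_cont {W : Set E} {f : E → X} (hf : ContinuousOn f W) : L2loc W f := by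
  intro K hK hKW
  have := DLO_finite (E := E) hK
  obtain ⟨C, hC⟩ := hK.exists_bound_of_continuousOn (hf.mono hKW)
  refine MemLp.of_bound ((hf.mono hKW).aestronglyMeasurable_of_isCompact hK hK.measurableSet) C ?_
  filter_upwards [ae_restrict_mem hK.measurableSet] with x hx using hC x hx

theorem SMA_ibp {D : Set E} (hD : IsOpen D)
    {φ : E → ℝ} (hφ : Test D φ) {c : E → X} (hc : ContDiffOn ℝ ∞ c D) (e : E) :
    ∫ z, fderiv ℝ φ z e • c z = -∫ z, φ z • fderiv ℝ c z e := by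
  have h1 : ContinuousOn c D := hc.continuousOn
  have h2 : ContinuousOn (fun z => fderiv ℝ c z e) D :=
    (hc.continuousOn_fderiv_of_isOpen hD (by simp)).clm_apply continuousOn_const
  have h3 := integral_smul_fderiv_eq_neg_fderiv_smul_of_integrable (μ := (volume : Measure E))
    (f := φ) (g := c) (v := e)
    (BIT_int (BIT_test hφ e) (BIT_L1 (SMA_cont h1)))
    (BIT_int hφ (BIT_L1 (SMA_cont h2)))
    (BIT_int hφ (BIT_L1 (SMA_cont h1)))
    (fun x _ => hφ.smooth.differentiable (by simp) x)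
    (fun x hx => (hc.contDiffAt (hD.mem_nhds (hφ.sub hx))).differentiableAt (by simp))
  rw [h3, neg_neg]

end

section slice

variable {𝔐 : Type} [NormedRing 𝔐] [NormedAlgebra ℝ 𝔐] [StarRing 𝔐] [FiniteDimensional ℝ 𝔐]

/-- One direction. -/
theorem SMA_dir {D : Set ℂ} (hD : IsOpen D) (L : 𝔐 →L[ℝ] 𝔐) {a G c : ℂ → 𝔐} {e : ℂ}
    (ha : L2loc D a) (hG : L1loc D G) (hc : ContDiffOn ℝ ∞ c D)
    (hw : ∀ φ : ℂ → ℝ, Test D φ → ∫ z, fderiv ℝ φ z e • a z = -∫ z, φ z • G z)
    (he : ∀ᵐ z ∂(volume.restrict D), L (G z) = fderiv ℝ c z e) :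
    ∀ φ : ℂ → ℝ, Test D φ → ∫ z, fderiv ℝ φ z e • (L (a z) - c z) = 0 := by
  intro φ hφ
  have : CompleteSpace 𝔐 := FiniteDimensional.complete ℝ 𝔐
  have i1 : Integrable (fun z => fderiv ℝ φ z e • a z) := BIT_int (BIT_test hφ e) (BIT_L1 ha)
  have i2 : Integrable (fun z => φ z • G z) := BIT_int hφ hG
  have i3 : Integrable (fun z => fderiv ℝ φ z e • c z) :=
    BIT_int (BIT_test hφ e) (BIT_L1 (SMA_cont hc.continuousOn))
  have i4 : Integrable (fun z => fderiv ℝ φ z e • L (a z)) := by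
    have := L.integrable_comp i1
    simpa only [map_smul] using this
  have e1 : ∫ z, fderiv ℝ φ z e • L (a z) = L (∫ z, fderiv ℝ φ z e • a z) := by
    rw [← L.integral_comp_comm i1]
    simp only [map_smul]
  have e2 : L (∫ z, φ z • G z) = ∫ z, φ z • L (G z) := by
    rw [← L.integral_comp_comm i2]
    simp only [map_smul]
  have e3 : ∫ z, φ z • L (G z) = ∫ z, φ z • fderiv ℝ c z e := BIT_congr hD hφ he
  calc ∫ z, fderiv ℝ φ z e • (L (a z) - c z)
      = ∫ z, (fderiv ℝ φ z e • L (a z) - fderiv ℝ φ z e • c z) := by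
        simp only [smul_sub]
    _ = (∫ z, fderiv ℝ φ z e • L (a z)) - ∫ z, fderiv ℝ φ z e • c z := integral_sub i4 i3
    _ = 0 := by
        rw [e1, hw φ hφ, map_neg, e2, e3, SMA_ibp hD hφ hc e, sub_self]

/-- One slice. -/
theorem SMA_slice (hKW0 : Stmt_KW0) {z₀ z₁ : ℂ} {r : ℝ} (hz : z₁ ∈ Metric.ball z₀ r) (g : 𝔐)
    {a G₁ G₂ C P Q : ℂ → 𝔐} (ha : L2loc (Metric.ball z₀ r) a)
    (hG₁ : L1loc (Metric.ball z₀ r) G₁) (hG₂ : L1loc (Metric.ball z₀ r) G₂)
    (hC : ContDiffOn ℝ ∞ C (Metric.ball z₀ r)) (hC1 : C z₁ = 0)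
    (hd1 : ∀ z ∈ Metric.ball z₀ r, fderiv ℝ C z 1 = P z)
    (hd2 : ∀ z ∈ Metric.ball z₀ r, fderiv ℝ C z Complex.I = -Q z)
    (h1 : ∀ φ : ℂ → ℝ, Test (Metric.ball z₀ r) φ →
      ∫ z, fderiv ℝ φ z 1 • a z = -∫ z, φ z • G₁ z)
    (h2 : ∀ φ : ℂ → ℝ, Test (Metric.ball z₀ r) φ →
      ∫ z, fderiv ℝ φ z Complex.I • a z = -∫ z, φ z • G₂ z)
    (hP : ∀ᵐ z ∂(volume.restrict (Metric.ball z₀ r)), star g * G₁ z * g = P z)
    (hQ : ∀ᵐ z ∂(volume.restrict (Metric.ball z₀ r)), star g * G₂ z * g = -Q z)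
    (hr : Rp (Metric.ball z₀ r) a z₁) :
    ∀ᵐ z ∂(volume.restrict (Metric.ball z₀ r)), star g * (a z - a z₁) * g - C z = 0 := by
  set D := Metric.ball z₀ r with hDdef
  have hD : IsOpen D := Metric.isOpen_ball
  have hDm : MeasurableSet D := hD.measurableSet
  set L : 𝔐 →L[ℝ] 𝔐 := adL g with hL
  have hLa : ∀ X, L X = star g * X * g := fun X => by
    rw [hL, adL_apply, mul_assoc]
  set c : ℂ → 𝔐 := fun z => C z + L (a z₁) with hc
  have hcs : ContDiffOn ℝ ∞ c D := hC.add contDiffOn_const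
  have hcd : ∀ z ∈ D, ∀ e, fderiv ℝ c z e = fderiv ℝ C z e := by
    intro z _ e
    rw [hc, fderiv_add_const]
  have hf : ∀ z, star g * (a z - a z₁) * g - C z = L (a z) - c z := by
    intro z
    rw [← hLa, map_sub, hc]
    simp only
    abel
  have d1 := SMA_dir hD L ha hG₁ hcs h1 (by
    filter_upwards [hP, ae_restrict_mem hDm] with z hz' hzD
    rw [hLa, hz', hcd z hzD, hd1 z hzD])
  have d2 := SMA_dir hD L ha hG₂ hcs h2 (by
    filter_upwards [hQ, ae_restrict_mem hDm] with z hz' hzD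
    rw [hLa, hz', hcd z hzD, hd2 z hzD])
  have hf2 : L2loc D (fun z => L (a z) - c z) := by
    intro K hK hKD
    exact (L.comp_memLp' (ha K hK hKD)).sub (SMA_cont hcs.continuousOn K hK hKD)
  have hk := hKW0 𝔐 z₀ z₁ r (fun z => star g * (a z - a z₁) * g - C z) hz
  refine hk ?_ ?_ ?_ ?_
  · simp only [hf]
    exact hf2
  · intro φ hφ ζ
    simp only [hf]
    have i1 : Integrable (fun z => fderiv ℝ φ z 1 • (L (a z) - c z)) :=
      BIT_int (BIT_test hφ 1) (BIT_L1 hf2)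
    have i2 : Integrable (fun z => fderiv ℝ φ z Complex.I • (L (a z) - c z)) :=
      BIT_int (BIT_test hφ Complex.I) (BIT_L1 hf2)
    have e1 : ∀ z, fderiv ℝ φ z ζ • (L (a z) - c z) =
        ζ.re • (fderiv ℝ φ z 1 • (L (a z) - c z)) +
          ζ.im • (fderiv ℝ φ z Complex.I • (L (a z) - c z)) := by
      intro z
      have e2 : fderiv ℝ φ z ζ = ζ.re * fderiv ℝ φ z 1 + ζ.im * fderiv ℝ φ z Complex.I := by
        have e3 : ζ = ζ.re • (1 : ℂ) + ζ.im • Complex.I := by
          rw [Complex.real_smul, Complex.real_smul, mul_one]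
          exact (Complex.re_add_im ζ).symm
        conv_lhs => rw [e3]
        rw [map_add, map_smul, map_smul, smul_eq_mul, smul_eq_mul]
      rw [e2, add_smul, mul_smul, mul_smul]
    simp only [e1]
    have e5 := integral_add (i1.smul ζ.re) (i2.smul ζ.im)
    simp only [Pi.smul_apply] at e5
    rw [e5, integral_smul, integral_smul, d1 φ hφ, d2 φ hφ, smul_zero, smul_zero, add_zero]
  · obtain ⟨b, hb, hab, hb1⟩ := hr
    refine ⟨fun z => star g * (b z - a z₁) * g - C z, ?_, ?_, ?_⟩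
    · exact ((continuousOn_const.mul (hb.sub continuousOn_const)).mul continuousOn_const).sub
        hC.continuousOn
    · filter_upwards [hab] with z hz'
      rw [hz']
    · simp only
      rw [hb1]
  · rw [hC1, sub_self, mul_zero, zero_mul, sub_zero]

end slice

theorem SMA_prod {V : Type} [NormedAddCommGroup V] [NormedSpace ℝ V] [FiniteDimensional ℝ V]
    [MeasureSpace V] [BorelSpace V] [(volume : Measure V).IsAddHaarMeasure] (W : Set V)
    (D : Set ℂ) : (volume : Measure (V × ℂ)).restrict (W ×ˢ D) =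
      (volume.restrict W).prod (volume.restrict D) := by
  rw [Measure.volume_eq_prod, Measure.prod_restrict]

theorem SMA_ae {V : Type} [NormedAddCommGroup V] [NormedSpace ℝ V] [FiniteDimensional ℝ V]
    [MeasureSpace V] [BorelSpace V] [(volume : Measure V).IsAddHaarMeasure] {W : Set V}
    {D : Set ℂ} {p : V × ℂ → Prop} (h : ∀ᵐ q ∂(volume.restrict (W ×ˢ D)), p q) :
    ∀ᵐ w ∂(volume.restrict W), ∀ᵐ z ∂(volume.restrict D), p (w, z) := by
  rw [SMA_prod] at h
  exact Measure.ae_ae_of_ae_prod h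

theorem SMA_fst {V X : Type} [NormedAddCommGroup V] [NormedSpace ℝ V] [FiniteDimensional ℝ V]
    [MeasureSpace V] [BorelSpace V] [(volume : Measure V).IsAddHaarMeasure]
    [NormedAddCommGroup X] {W : Set V} {D : Set ℂ} {f : V → X}
    (h : AEStronglyMeasurable f (volume.restrict W)) :
    AEStronglyMeasurable (fun p : V × ℂ => f p.1) (volume.restrict (W ×ˢ D)) := by
  rw [SMA_prod]
  exact h.comp_fst

theorem p_SMA (hFUB : Stmt_FUB) (hSL2 : Stmt_SL2) (hGSS : Stmt_GSS) (hCRA : Stmt_CRA)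
    (hWHS : Stmt_WHS) (hKW0 : Stmt_KW0) (hPRC : Stmt_PRC) : Stmt_SMA := by
  classical
  intro 𝔐 _ _ _ _ _ _ 𝒢 V _ _ _ _ _ _ J W₂ z₀ r A F z₁ S k dk Fl Gz Gk hS hW
  have hD : IsOpen (Metric.ball z₀ r) := Metric.isOpen_ball
  have hN : IsOpen (W₂ ×ˢ Metric.ball z₀ r) := Fl.op.prod hD
  obtain ⟨hcr, -, -⟩ := hCRA 𝔐 𝒢 V J W₂ z₀ r A F Fl
  have key : ∀ v : V, ∃ C : V × ℂ → 𝔐, ContDiffOn ℝ ∞ C (W₂ ×ˢ Metric.ball z₀ r) ∧
      ∀ᵐ p ∂(volume.restrict (W₂ ×ˢ Metric.ball z₀ r)),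
        star (k p.1) * (A p (v, 0) - A (p.1, z₁) (v, 0)) * k p.1 = C p := by
    intro v
    obtain ⟨P, Q, hP, hQ, hPQ, hcr'⟩ := hWHS (V × ℂ) 𝔐 (JC J) (W₂ ×ˢ Metric.ball z₀ r) _ _
      (Cpx_JC Fl.cpx) hN (hW v)
    obtain ⟨C, hC, hC1, hCd⟩ := hPRC V 𝔐 W₂ z₀ z₁ r P Q Fl.op Gz.mem hP hQ (by
      intro p hp
      have h1 := hcr' p hp (0, Complex.I)
      rw [JC_apply, map_zero, Complex.I_mul_I] at h1
      rw [h1, ← map_neg]
      congr 1
      ext <;> simp)
    refine ⟨C, hC, ?_⟩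
    have hm : AEStronglyMeasurable (fun p : V × ℂ =>
        star (k p.1) * (A p (v, 0) - A (p.1, z₁) (v, 0)) * k p.1 - C p)
        (volume.restrict (W₂ ×ˢ Metric.ball z₀ r)) := by
      have m1 : AEStronglyMeasurable (fun p : V × ℂ => k p.1)
          (volume.restrict (W₂ ×ˢ Metric.ball z₀ r)) := SMA_fst (SMA_aesm Fl.op Gk.g2)
      have m2 : AEStronglyMeasurable (fun p : V × ℂ => star (k p.1))
          (volume.restrict (W₂ ×ˢ Metric.ball z₀ r)) :=
        continuous_star.comp_aestronglyMeasurable m1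
      have m3 : AEStronglyMeasurable (fun p : V × ℂ => A p (v, 0))
          (volume.restrict (W₂ ×ˢ Metric.ball z₀ r)) :=
        SMA_aesm hN (BIT_evA Fl.conn.A2 (v, 0))
      have m4 : AEStronglyMeasurable (fun w : V => rc1 A z₁ w v) (volume.restrict W₂) :=
        SMA_aesm Fl.op (BIT_evA Gz.conn.A2 v)
      have m5 : AEStronglyMeasurable (fun p : V × ℂ => A (p.1, z₁) (v, 0))
          (volume.restrict (W₂ ×ˢ Metric.ball z₀ r)) := SMA_fst m4
      have m6 : AEStronglyMeasurable C (volume.restrict (W₂ ×ˢ Metric.ball z₀ r)) :=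
        SMA_aesm hN (SMA_cont hC.continuousOn)
      exact ((m2.mul (m3.sub m5)).mul m1).sub m6
    have h0 := (hFUB V ℂ 𝔐 W₂ (Metric.ball z₀ r) _ Fl.op hD hm).1.2 ?_
    · filter_upwards [h0] with p hp
      exact sub_eq_zero.1 hp
    have s1 := (hSL2 V ℂ 𝔐 W₂ (Metric.ball z₀ r) (fun p => A p (v, 0)) Fl.op hD
      (BIT_evA Fl.conn.A2 (v, 0))).2
    have s2 : ∀ ζ : ℂ, ∀ᵐ w ∂(volume.restrict W₂),
        (L1loc (Metric.ball z₀ r) fun t => F (w, t) ![(0, ζ), (v, 0)]) ∧
        ∀ φ : ℂ → ℝ, Test (Metric.ball z₀ r) φ →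
          ∫ t, fderiv ℝ φ t ζ • A (w, t) (v, 0) = -∫ t, φ t • F (w, t) ![(0, ζ), (v, 0)] := by
      intro ζ
      have h1 := hGSS V ℂ 𝔐 W₂ (Metric.ball z₀ r) 1 (fun _ => ζ) (fun _ p => A p (v, 0))
        (fun p => -F p ![(0, ζ), (v, 0)]) Fl.op hD
        (fun _ => DLO_L1 (BIT_evA Fl.conn.A2 (v, 0)))
        (fun K hK hKW => (DLO_L1 (BIT_evF Fl.conn.F2 ![(0, ζ), (v, 0)]) K hK hKW).neg)
        (by
          intro φ hφ
          simp only [Finset.univ_unique, Finset.sum_singleton, smul_neg, integral_neg]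
          exact hcr φ hφ v ζ)
      filter_upwards [h1] with w hw
      obtain ⟨-, h2, h3⟩ := hw
      refine ⟨fun K hK hKW => ?_, fun φ hφ => ?_⟩
      · have := (h2 K hK hKW).neg
        simpa using this
      · have h4 := h3 φ hφ
        simpa only [Finset.univ_unique, Finset.sum_singleton, smul_neg, integral_neg] using h4
    have s3 := SMA_ae hPQ
    have s4 := SMA_ae Fl.typ
    filter_upwards [s1, s2 1, s2 Complex.I, s3, s4, Gz.rp, ae_restrict_mem Fl.op.measurableSet]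
      with w h1 h2 h3 h4 h5 h6 h7
    have hmaps : ∀ z ∈ Metric.ball z₀ r, (w, z) ∈ W₂ ×ˢ Metric.ball z₀ r := fun z hz =>
      mk_mem_prod h7 hz
    have hfd : ∀ z ∈ Metric.ball z₀ r, ∀ e : ℂ,
        fderiv ℝ (fun t => C (w, t)) z e = fderiv ℝ C (w, z) (0, e) := by
      intro z hz e
      have h8 : DifferentiableAt ℝ C (w, z) :=
        (hC.contDiffAt (hN.mem_nhds (hmaps z hz))).differentiableAt (by simp)
      have h9 : HasFDerivAt (fun t : ℂ => ((w, t) : V × ℂ)) (ContinuousLinearMap.inr ℝ V ℂ) z :=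
        hasFDerivAt_prodMk_right w z
      have h10 : HasFDerivAt (fun t => C (w, t))
          ((fderiv ℝ C (w, z)).comp (ContinuousLinearMap.inr ℝ V ℂ)) z :=
        HasFDerivAt.comp (f := fun t : ℂ => ((w, t) : V × ℂ)) z h8.hasFDerivAt h9
      rw [h10.fderiv]
      rfl
    refine SMA_slice hKW0 Gz.mem (k w) (G₁ := fun z => F (w, z) ![(0, 1), (v, 0)])
      (G₂ := fun z => F (w, z) ![(0, Complex.I), (v, 0)]) (P := fun z => P (w, z))
      (Q := fun z => Q (w, z)) h1 h2.1 h3.1 ?_ (hC1 w h7) ?_ ?_ h2.2 h3.2 ?_ ?_ (h6 v)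
    · exact hC.comp (contDiff_prodMk_right w).contDiffOn hmaps
    · intro z hz
      rw [hfd z hz]
      exact (hCd _ (hmaps z hz)).1
    · intro z hz
      rw [hfd z hz]
      exact (hCd _ (hmaps z hz)).2
    · filter_upwards [h4] with z hz
      exact hz.1
    · filter_upwards [h4, h5] with z hz hz'
      have h8 := hz' (0, 1) (J v, 0)
      have h9 : JC J ((0 : V), (1 : ℂ)) = (0, Complex.I) := by
        rw [JC_apply, map_zero, mul_one]
      have h10 : JC J (J v, (0 : ℂ)) = -(v, 0) := by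
        rw [JC_apply, Fl.cpx v, mul_zero]
        simp
      rw [h9, h10] at h8
      have h11 : F (w, z) ![((0 : V), Complex.I), -(v, 0)] =
          -F (w, z) ![((0 : V), Complex.I), (v, 0)] := by
        have h12 := SSL_smul1 (F (w, z)) (-1) ((0 : V), Complex.I) (v, 0)
        simpa using h12
      rw [h11] at h8
      rw [← hz.2, neg_inj.1 h8]
      simp only [mul_neg, neg_mul, neg_neg]
  choose C hC hCae using key
  let b := Module.finBasis ℝ V
  refine ⟨fun p => (S p.1).comp (ContinuousLinearMap.fst ℝ V ℂ) +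
    ∑ i, ((LinearMap.toContinuousLinearMap (b.coord i)).comp
      (ContinuousLinearMap.fst ℝ V ℂ)).smulRight (C (b i) p), ?_, ?_⟩
  · refine ContDiffOn.add ?_ (ContDiffOn.sum fun i _ => ?_)
    · have h1 : ContDiffOn ℝ ∞ (fun p : V × ℂ => S p.1) (W₂ ×ˢ Metric.ball z₀ r) :=
        hS.comp contDiff_fst.contDiffOn fun p hp => hp.1
      exact h1.clm_comp contDiffOn_const
    · exact contDiffOn_const.smulRight (hC (b i))
  · have h1 : ∀ᵐ p ∂(volume.restrict (W₂ ×ˢ Metric.ball z₀ r)), ∀ i,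
        star (k p.1) * (A p (b i, 0) - A (p.1, z₁) (b i, 0)) * k p.1 = C (b i) p :=
      ae_all_iff.2 fun i => hCae (b i)
    filter_upwards [h1, Fl.flat] with p hp hpf v ζ
    have h2 : A p (v, ζ) = A p (v, 0) := by
      have h3 : ((v, ζ) : V × ℂ) = (v, 0) + (0, ζ) := by simp
      rw [h3, map_add, hpf ζ, add_zero]
    rw [h2]
    let G : V →ₗ[ℝ] 𝔐 :=
      { toFun := fun u => star (k p.1) * (A p (u, 0) - A (p.1, z₁) (u, 0)) * k p.1
        map_add' := by
          intro u u'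
          have h3 : ((u + u', 0) : V × ℂ) = (u, 0) + (u', 0) := by simp
          rw [h3, map_add, map_add]
          noncomm_ring
        map_smul' := by
          intro c u
          have h3 : ((c • u, 0) : V × ℂ) = c • (u, 0) := by simp
          rw [h3, map_smul, map_smul, ← smul_sub, mul_smul_comm, smul_mul_assoc]
          rfl }
    have h4 := SSL_lin b G v
    show S p.1 v + (∑ i, ((LinearMap.toContinuousLinearMap (b.coord i)).comp
      (ContinuousLinearMap.fst ℝ V ℂ)).smulRight (C (b i) p)) (v, ζ) = S p.1 v + G v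
    rw [h4, _root_.sum_apply]
    congr 1
    refine Finset.sum_congr rfl fun i _ => ?_
    rw [← hp i]
    rfl

end Pool.TIW
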