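import Pool.Agent.Work.MP_a1f430_wb.Interface3

/-! # Block STJ: the induction step for curvatures of type (2,0)+(0,2) -/

set_option autoImplicit false

namespace Pool.TIW

open Pool.TIA
open MeasureTheory Set Filter Topology
open scoped ContDiff ENNReal

section mono

variable {E : Type} [NormedAddCommGroup E] [NormedSpace ℝ E] [MeasureSpace E]
variable {𝔐 : Type} [NormedRing 𝔐] [NormedAlgebra ℝ 𝔐] [StarRing 𝔐]

omit [NormedSpace ℝ E] in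
theorem STJ_L2 {X : Type} [NormedAddCommGroup X] {U W : Set E} {f : E → X} (h : W ⊆ U)
    (hf : L2loc U f) : L2loc W f := fun K hK hKW => hf K hK (hKW.trans h)

omit [MeasureSpace E] in
theorem STJ_test {U W : Set E} {φ : E → ℝ} (h : W ⊆ U) (hφ : Test W φ) : Test U φ :=
  ⟨hφ.smooth, hφ.cpt, hφ.sub.trans h⟩

theorem STJ_conn {𝒢 : LieG 𝔐} {U W : Set E} {A : E → E →L[ℝ] 𝔐} {F : E → E [⋀^Fin 2]→L[ℝ] 𝔐}
    (h : W ⊆ U) (hC : Conn 𝒢 U A F) : Conn 𝒢 W A F :=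
  ⟨STJ_L2 h hC.A2, STJ_L2 h hC.F2, ae_restrict_of_ae_restrict_of_subset h hC.lie,
    fun φ hφ u v => hC.curv φ (STJ_test h hφ) u v⟩

theorem STJ_gau {𝒢 : LieG 𝔐} {U W : Set E} {A A' : E → E →L[ℝ] 𝔐} {g : E → 𝔐}
    {dg : E → E →L[ℝ] 𝔐} (h : W ⊆ U) (hS : Gau 𝒢 U A A' g dg) : Gau 𝒢 W A A' g dg where
  g2 := STJ_L2 h hS.g2
  dg2 := STJ_L2 h hS.dg2
  wd := fun φ hφ => hS.wd φ (STJ_test h hφ)
  inG := ae_restrict_of_ae_restrict_of_subset h hS.inG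
  A2' := STJ_L2 h hS.A2'
  lie' := ae_restrict_of_ae_restrict_of_subset h hS.lie'
  eq := ae_restrict_of_ae_restrict_of_subset h hS.eq

omit [NormedAlgebra ℝ 𝔐] in
/-- Unitaries do not increase the norm. -/
theorem STJ_norm [CStarRing 𝔐] (g : 𝔐) (hg : star g * g = 1) (hg' : g * star g = 1) (z : 𝔐) :
    ‖star g * z * g‖ ≤ ‖z‖ := by
  rcases subsingleton_or_nontrivial 𝔐 with h | h
  · have : star g * z * g = z := Subsingleton.elim _ _
    rw [this]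
  · have h1 : ‖g‖ = 1 := CStarRing.norm_of_mem_unitary (Unitary.mem_iff.2 ⟨hg, hg'⟩)
    have h2 : ‖star g‖ = 1 := by rw [norm_star, h1]
    calc ‖star g * z * g‖ ≤ ‖star g * z‖ * ‖g‖ := norm_mul_le _ _
      _ ≤ ‖star g‖ * ‖z‖ * ‖g‖ := mul_le_mul_of_nonneg_right (norm_mul_le _ _) (norm_nonneg _)
      _ = ‖z‖ := by rw [h1, h2]; ring

theorem STJ_ad [CStarRing 𝔐] {𝒢 : LieG 𝔐} {W : Set E} {A A' : E → E →L[ℝ] 𝔐} {g : E → 𝔐}
    {dg : E → E →L[ℝ] 𝔐} (hG : Gau 𝒢 W A A' g dg) {P : E → 𝔐} (hP : L2loc W P) :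
    L2loc W (fun p => star (g p) * P p * g p) := by
  intro K hK hKW
  have hz := hP K hK hKW
  have hg := hG.g2 K hK hKW
  have hae := ae_restrict_of_ae_restrict_of_subset hKW hG.inG
  refine hz.mono ?_ ?_
  · exact ((continuous_star.comp_aestronglyMeasurable hg.1).mul hz.1).mul hg.1
  · filter_upwards [hae] with x hx
    exact STJ_norm (g x) (𝒢.unitary _ hx).1 (𝒢.unitary _ hx).2 _

end mono

theorem STJ_swap {E 𝔐 : Type} [NormedAddCommGroup E] [NormedSpace ℝ E] [NormedRing 𝔐]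
    [NormedAlgebra ℝ 𝔐] (F : E [⋀^Fin 2]→L[ℝ] 𝔐) (e v : E) : F ![v, e] = -F ![e, v] := by
  have h := F.toAlternatingMap.map_swap ![e, v] (i := 0) (j := 1) (by decide)
  have h2 : (![e, v] : Fin 2 → E) ∘ (Equiv.swap (0 : Fin 2) 1) = ![v, e] := by
    funext i
    fin_cases i <;> simp
  rw [h2] at h
  exact h

theorem STJ_neg {E 𝔐 : Type} [NormedAddCommGroup E] [NormedSpace ℝ E] [NormedRing 𝔐]
    [NormedAlgebra ℝ 𝔐] (F : E [⋀^Fin 2]→L[ℝ] 𝔐) (a b : E) : F ![a, -b] = -F ![a, b] := by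
  have h2 := F.toMultilinearMap.map_update_smul ![a, b] 1 (-1 : ℝ) b
  have e3 : Function.update ![a, b] 1 ((-1 : ℝ) • b) = ![a, -b] := by
    funext i
    fin_cases i <;> simp
  have e4 : Function.update ![a, b] 1 b = ![a, b] := by
    funext i
    fin_cases i <;> simp
  rw [e3, e4, neg_one_smul] at h2
  exact h2

/-- A form of type (2,0)+(0,2) vanishes on complex lines. -/
theorem STJ_line {E 𝔐 : Type} [NormedAddCommGroup E] [NormedSpace ℝ E] [NormedRing 𝔐]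
    [NormedAlgebra ℝ 𝔐] (J : E →L[ℝ] E) (hJ : Cpx J) (F : E [⋀^Fin 2]→L[ℝ] 𝔐)
    (h : ∀ u v, F ![J u, J v] = -F ![u, v]) (u : E) : F ![u, J u] = 0 := by
  have h1 := h u (J u)
  rw [hJ u, STJ_neg, STJ_swap F u (J u), neg_neg] at h1
  have h2 : (2 : ℝ) • F ![u, J u] = 0 := by
    rw [two_smul]
    nth_rewrite 1 [h1]
    exact neg_add_cancel _
  exact (smul_eq_zero.1 h2).resolve_left two_ne_zero

theorem STJ_fst {V T : Type} [NormedAddCommGroup V] [NormedSpace ℝ V] [FiniteDimensional ℝ V]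
    [MeasureSpace V] [BorelSpace V] [(volume : Measure V).IsAddHaarMeasure]
    [NormedAddCommGroup T] [NormedSpace ℝ T] [FiniteDimensional ℝ T]
    [MeasureSpace T] [BorelSpace T] [(volume : Measure T).IsAddHaarMeasure] (W₁ : Set V)
    (I : Set T) (P : V → Prop)
    (h : ∀ᵐ y ∂(volume.restrict W₁), P y) :
    ∀ᵐ p ∂((volume : Measure (V × T)).restrict (W₁ ×ˢ I)), P p.1 := by
  rw [Measure.volume_eq_prod, ← Measure.prod_restrict]
  exact Measure.quasiMeasurePreserving_fst.ae h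

/-- A continuous function which is in a closed set almost everywhere is in it everywhere. -/
theorem STJ_cl {E X : Type} [NormedAddCommGroup E] [NormedSpace ℝ E] [FiniteDimensional ℝ E]
    [MeasureSpace E] [BorelSpace E] [(volume : Measure E).IsAddHaarMeasure]
    [TopologicalSpace X] (W : Set E) (hW : IsOpen W) (f : E → X) (hf : ContinuousOn f W)
    (S : Set X) (hS : IsClosed S) (h : ∀ᵐ x ∂(volume.restrict W), f x ∈ S) :
    ∀ x ∈ W, f x ∈ S := by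
  intro x hx
  by_contra hc
  have ho : IsOpen (W ∩ f ⁻¹' Sᶜ) := hf.isOpen_inter_preimage hW hS.isOpen_compl
  have hpos : 0 < volume (W ∩ f ⁻¹' Sᶜ) := ho.measure_pos _ ⟨x, hx, hc⟩
  rw [ae_restrict_iff' hW.measurableSet, ae_iff] at h
  refine hpos.ne' (measure_mono_null ?_ h)
  rintro y ⟨hy1, hy2⟩
  simp only [mem_ofPred_eq, Classical.not_imp]
  exact ⟨hy1, hy2⟩

theorem p_STJ (_hLIE : Pool.TIA.Stmt_LIE) (_hLBR : Stmt_LBR) (hCG2 : Stmt_CG2) (hDCV : Stmt_DCV)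
    (hGCO : Stmt_GCO) (hGPC : Stmt_GPC) (hKFT : Stmt_KFT) (hBHO : Stmt_BHO) (hCRA : Stmt_CRA)
    (hGNZ : Stmt_GNZ) (hHPB : Stmt_HPB) (hJWH : Stmt_JWH) (hSMA : Stmt_SMA) : Stmt_STJ := by
  intro 𝔐 _ _ _ _ _ _ 𝒢 V _ _ _ _ _ _ J hJ hGood W A F hW hA hF x hx
  obtain ⟨w₀, z₀⟩ := x
  -- the curvature vanishes on the complex line
  have hF0 : ∀ᵐ p ∂(volume.restrict W), F p ![(0, 1), (0, Complex.I)] = 0 := by
    filter_upwards [hF] with p hp
    have h1 := STJ_line (JC J) (Cpx_JC hJ) (F p) hp (0, 1)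
    rw [JC_apply, map_zero, mul_one] at h1
    exact h1
  obtain ⟨r, A', g, dg, hr, hrW, hg, hA0⟩ := hKFT 𝔐 𝒢 V W A F (w₀, z₀) hW hA hF0 hx
  rw [← ball_prod_same] at hrW hg hA0
  have hN₁ : IsOpen (Metric.ball w₀ r ×ˢ Metric.ball z₀ r) :=
    Metric.isOpen_ball.prod Metric.isOpen_ball
  have hA1 : Conn 𝒢 (Metric.ball w₀ r ×ˢ Metric.ball z₀ r) A F := STJ_conn hrW hA
  have hA' : Conn 𝒢 (Metric.ball w₀ r ×ˢ Metric.ball z₀ r) A' (adF g F) :=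
    hCG2 𝔐 𝒢 (V × ℂ) _ A A' F g dg hN₁ hA1 hg
  have hF' : J20 (Metric.ball w₀ r ×ˢ Metric.ball z₀ r) (JC J) (adF g F) := by
    have h1 : J20 (Metric.ball w₀ r ×ˢ Metric.ball z₀ r) (JC J) F :=
      ae_restrict_of_ae_restrict_of_subset hrW hF
    unfold J20 at h1 ⊢
    filter_upwards [h1] with p hp u v
    rw [adF_apply, adF_apply, hp u v, neg_mul, mul_neg]
  have hflat : Flat 𝒢 J (Metric.ball w₀ r) z₀ r A' (adF g F) :=
    ⟨Metric.isOpen_ball, hr, hJ, hA', hF', hA0⟩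
  obtain ⟨z₁, hz⟩ := hGNZ 𝔐 𝒢 V J (Metric.ball w₀ r) z₀ r A' (adF g F) hflat
  obtain ⟨W₂, S, k, dk, hW₂, hw₂, hW₂b, hk, hSs, -, hHol⟩ :=
    hGood (Metric.ball w₀ r) (rc1 A' z₁) (rc2 (adF g F) z₁) Metric.isOpen_ball hz.conn hz.typ w₀
      (Metric.mem_ball_self hr)
  have hN₂ : IsOpen (W₂ ×ˢ Metric.ball z₀ r) := hW₂.prod Metric.isOpen_ball
  have hN₂₁ : W₂ ×ˢ Metric.ball z₀ r ⊆ Metric.ball w₀ r ×ˢ Metric.ball z₀ r :=
    prod_mono hW₂b subset_rfl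
  -- (a)
  have hstar : ∀ P Q : V × ℂ → 𝔐,
      HolP (Metric.ball w₀ r ×ˢ Metric.ball z₀ r) A' (JC J) P Q →
      WHol (W₂ ×ˢ Metric.ball z₀ r) (JC J) (fun p => star (k p.1) * P p * k p.1)
        (fun p => star (k p.1) * Q p * k p.1) := by
    intro P Q hPQ
    have h1 := hHPB 𝔐 𝒢 V J (Metric.ball w₀ r) z₀ r A' (adF g F) z₁ P Q hflat hz hPQ
    have h2 := (hCRA 𝔐 𝒢 V J (Metric.ball w₀ r) z₀ r A' (adF g F) hflat).2.2 P Q hPQ
    have h3 : ZHol (W₂ ×ˢ Metric.ball z₀ r) P Q :=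
      ⟨STJ_L2 hN₂₁ h2.P2, STJ_L2 hN₂₁ h2.Q2, fun φ hφ ζ => h2.eq φ (STJ_test hN₂₁ hφ) ζ⟩
    refine hJWH 𝔐 𝒢 V J W₂ z₀ r (rc1 A' z₁) S k dk P Q hW₂ hk h3 ?_
    filter_upwards [h1] with z hz'
    exact hHol _ _ hz'
  -- (b)
  have hSM : ∀ v : V, WHol (W₂ ×ˢ Metric.ball z₀ r) (JC J)
      (fun p => star (k p.1) * adF g F p ![(0, 1), (v, 0)] * k p.1)
      (fun p => star (k p.1) * (-adF g F p ![(0, 1), (J v, 0)]) * k p.1) := by
    intro v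
    have h1 := hBHO 𝔐 𝒢 (V × ℂ) (JC J) _ A' (adF g F) (Cpx_JC hJ) hN₁ hA' hF' (0, 1) (v, 0)
    rw [JC_apply, mul_zero] at h1
    exact hstar _ _ h1
  have hflat₂ : Flat 𝒢 J W₂ z₀ r A' (adF g F) :=
    ⟨hW₂, hr, hJ, STJ_conn hN₂₁ hA', ae_restrict_of_ae_restrict_of_subset hN₂₁ hF',
      ae_restrict_of_ae_restrict_of_subset hN₂₁ hA0⟩
  have hz₂ : GoodZ 𝒢 J W₂ z₀ r A' (adF g F) z₁ :=
    ⟨hz.mem, STJ_conn hW₂b hz.conn, ae_restrict_of_ae_restrict_of_subset hW₂b hz.typ,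
      ae_restrict_of_ae_restrict_of_subset hW₂b hz.rp⟩
  obtain ⟨S'', hS''s, hS''⟩ :=
    hSMA 𝔐 𝒢 V J W₂ z₀ r A' (adF g F) z₁ S k dk hflat₂ hz₂ hk hSs hSM
  -- (c)
  have hG1 : Gau 𝒢 (W₂ ×ˢ Metric.ball z₀ r) A' S'' (fun p => k p.1)
      (fun p => (dk p.1).comp (ContinuousLinearMap.fst ℝ V ℂ)) :=
    hGPC 𝔐 𝒢 V ℂ W₂ (Metric.ball z₀ r) (rc1 A' z₁) S k dk A' S'' hW₂ Metric.isOpen_ball hk
      hz₂.conn.A2 hz₂.conn.lie (STJ_L2 hN₂₁ hA'.A2)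
      (ae_restrict_of_ae_restrict_of_subset hN₂₁ hA'.lie) hS''
  have hG0 : Gau 𝒢 (W₂ ×ˢ Metric.ball z₀ r) A A' g dg := STJ_gau hN₂₁ hg
  obtain ⟨dk', hG2⟩ := hGCO 𝔐 𝒢 (V × ℂ) (W₂ ×ˢ Metric.ball z₀ r) A A' S'' g (fun p => k p.1)
    dg _ hN₂ hG0 hG1
  refine ⟨W₂ ×ˢ Metric.ball z₀ r, S'', fun p => g p * k p.1, dk', hN₂,
    ⟨hw₂, Metric.mem_ball_self hr⟩, hN₂₁.trans hrW, hG2, hS''s, ?_, ?_⟩
  · intro p hp v
    have hcl : IsClosed (𝒢.lie : Set 𝔐) := 𝒢.lie.closed_of_finiteDimensional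
    refine STJ_cl (W₂ ×ˢ Metric.ball z₀ r) hN₂ (fun q => S'' q v)
      (hS''s.continuousOn.clm_apply continuousOn_const) (𝒢.lie : Set 𝔐) hcl ?_ p hp
    filter_upwards [hG2.lie'] with q hq
    exact hq v
  · intro P Q hPQ
    have hP1 : L2loc (Metric.ball w₀ r ×ˢ Metric.ball z₀ r) P := STJ_L2 hrW hPQ.P2
    have hQ1 : L2loc (Metric.ball w₀ r ×ˢ Metric.ball z₀ r) Q := STJ_L2 hrW hPQ.Q2
    have hZ : ∀ k, L2loc (Metric.ball w₀ r ×ˢ Metric.ball z₀ r)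
        ((![P, fun x => -Q x] : Fin 2 → V × ℂ → 𝔐) k) := by
      intro k
      fin_cases k
      · exact hP1
      · intro K hK hKW
        exact (hQ1 K hK hKW).neg
    have hR : L1loc (Metric.ball w₀ r ×ˢ Metric.ball z₀ r) (fun _ : V × ℂ => (0 : 𝔐)) :=
      fun K _ _ => integrableOn_zero
    have hH : HolP (Metric.ball w₀ r ×ˢ Metric.ball z₀ r) A' (JC J)
        (fun p => star (g p) * P p * g p) (fun p => star (g p) * Q p * g p) := by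
      refine ⟨STJ_ad hg hP1, STJ_ad hg hQ1, fun v => ?_⟩
      have h1 : Div (Metric.ball w₀ r ×ˢ Metric.ball z₀ r) A ![v, JC J v] ![P, fun x => -Q x]
          (fun _ => 0) := fun φ hφ => hPQ.eq v φ (STJ_test hrW hφ)
      have h2 := hDCV 𝔐 𝒢 (V × ℂ) _ A A' g dg 2 ![v, JC J v] ![P, fun x => -Q x] (fun _ => 0)
        hN₁ hA1.A2 hA1.lie hg hZ hR h1
      have e1 : (fun k x => star (g x) * (![P, fun x => -Q x] : Fin 2 → V × ℂ → 𝔐) k x * g x) =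
          ![fun p => star (g p) * P p * g p, fun x => -(star (g x) * Q x * g x)] := by
        funext k x
        fin_cases k
        · rfl
        · show star (g x) * (-Q x) * g x = -(star (g x) * Q x * g x)
          rw [mul_neg, neg_mul]
      have e2 : (fun x => star (g x) * (0 : 𝔐) * g x) = fun _ => 0 := by
        funext x
        rw [mul_zero, zero_mul]
      rw [e1, e2] at h2
      exact h2
    have h3 := hstar _ _ hH
    have e3 : ∀ R : V × ℂ → 𝔐, (fun p : V × ℂ => star (g p * k p.1) * R p * (g p * k p.1)) =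
        fun p => star (k p.1) * (star (g p) * R p * g p) * k p.1 := by
      intro R
      funext p
      rw [star_mul]
      noncomm_ring
    show WHol (W₂ ×ˢ Metric.ball z₀ r) (JC J)
      (fun p : V × ℂ => star (g p * k p.1) * P p * (g p * k p.1))
      (fun p : V × ℂ => star (g p * k p.1) * Q p * (g p * k p.1))
    rw [e3 P, e3 Q]
    exact h3

end Pool.TIW
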