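import Pool.Agent.Work.MP_a1f430_wb.B_KFT

/-! # Block TRJ: transport of `GoodJ` by a linear isomorphism (helper1) -/

set_option autoImplicit false

namespace Pool.TIW

open Pool.TIA
open MeasureTheory Set Filter Topology
open scoped ContDiff ENNReal

theorem TRJ_fderiv {E' E : Type} [NormedAddCommGroup E'] [NormedSpace ℝ E']
    [NormedAddCommGroup E] [NormedSpace ℝ E] (L : E' ≃L[ℝ] E) (φ : E → ℝ)
    (hφ : ContDiff ℝ ∞ φ) (x u : E') :
    fderiv ℝ (fun x => φ (L x)) x u = fderiv ℝ φ (L x) (L u) := by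
  have h1 : HasFDerivAt φ (fderiv ℝ φ (L x)) (L x) :=
    ((hφ.differentiable (by simp)) (L x)).hasFDerivAt
  have h2 := h1.comp x L.hasFDerivAt
  have h3 : fderiv ℝ (fun x => φ (L x)) x = (fderiv ℝ φ (L x)).comp (L : E' →L[ℝ] E) :=
    h2.fderiv
  rw [h3]
  rfl

theorem TRJ_whol {E' E X : Type} [NormedAddCommGroup E'] [NormedSpace ℝ E']
    [FiniteDimensional ℝ E'] [MeasureSpace E'] [BorelSpace E']
    [(volume : Measure E').IsAddHaarMeasure]
    [NormedAddCommGroup E] [NormedSpace ℝ E] [FiniteDimensional ℝ E]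
    [MeasureSpace E] [BorelSpace E] [(volume : Measure E).IsAddHaarMeasure]
    [NormedAddCommGroup X] [NormedSpace ℝ X]
    (L : E' ≃L[ℝ] E) (J' : E' →L[ℝ] E') (J : E →L[ℝ] E) (hJJ : ∀ v, L (J' v) = J (L v))
    (B : Set E') (P Q : E' → X) (h : WHol B J' P Q) :
    WHol (L.symm ⁻¹' B) J (fun y => P (L.symm y)) (fun y => Q (L.symm y)) where
  P2 := TRP_L2 L.symm B P h.P2
  Q2 := TRP_L2 L.symm B Q h.Q2
  eq := by
    intro φ hφ v
    have hpre : L ⁻¹' (L.symm ⁻¹' B) = B := by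
      ext y
      simp
    have hT := DLI_test L _ φ hφ
    rw [hpre] at hT
    have h1 := h.eq _ hT (L.symm v)
    obtain ⟨c, hc0, hc⟩ := DLI_int (X := X) L
    have e1 := hc (fun y => fderiv ℝ φ y v • P (L.symm y) - fderiv ℝ φ y (J v) • Q (L.symm y))
    have e2 : (∫ x, (fderiv ℝ (fun x => φ (L x)) x (L.symm v) • P x
        - fderiv ℝ (fun x => φ (L x)) x (J' (L.symm v)) • Q x))
        = ∫ x, (fderiv ℝ φ (L x) v • P (L.symm (L x))
          - fderiv ℝ φ (L x) (J v) • Q (L.symm (L x))) := by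
      congr 1
      funext x
      rw [TRJ_fderiv L φ hφ.smooth, TRJ_fderiv L φ hφ.smooth, hJJ, L.apply_symm_apply,
        L.symm_apply_apply]
    rw [e2, e1] at h1
    exact (smul_eq_zero.1 h1).resolve_left hc0

theorem TRJ_holp (hDLI : Stmt_DLI) {𝔐 : Type} [NormedRing 𝔐] [NormedAlgebra ℝ 𝔐] [StarRing 𝔐]
    [FiniteDimensional ℝ 𝔐] {E' E : Type} [NormedAddCommGroup E'] [NormedSpace ℝ E']
    [FiniteDimensional ℝ E'] [MeasureSpace E'] [BorelSpace E']
    [(volume : Measure E').IsAddHaarMeasure]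
    [NormedAddCommGroup E] [NormedSpace ℝ E] [FiniteDimensional ℝ E]
    [MeasureSpace E] [BorelSpace E] [(volume : Measure E).IsAddHaarMeasure]
    (L : E' ≃L[ℝ] E) (J' : E' →L[ℝ] E') (J : E →L[ℝ] E) (hJJ : ∀ v, L (J' v) = J (L v))
    (W : Set E) (A : E → E →L[ℝ] 𝔐) (P Q : E → 𝔐) (h : HolP W A J P Q) :
    HolP (L ⁻¹' W) (pb1 L A) J' (fun x => P (L x)) (fun x => Q (L x)) where
  P2 := TRP_L2 L W P h.P2
  Q2 := TRP_L2 L W Q h.Q2
  eq := by
    intro v
    have h1 := h.eq (L v)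
    have h2 := (hDLI 𝔐 E' E L W A 2 ![v, J' v] ![P, fun x => -Q x] (fun _ => 0)).2 (by
      have e : (fun k => L ((![v, J' v] : Fin 2 → E') k)) = ![L v, J (L v)] := by
        funext k
        fin_cases k
        · rfl
        · exact hJJ v
      rw [e]
      exact h1)
    have e2 : (fun (k : Fin 2) (x : E') => (![P, fun x => -Q x] : Fin 2 → E → 𝔐) k (L x))
        = ![fun x => P (L x), fun x => -Q (L x)] := by
      funext k
      fin_cases k <;> rfl
    rw [e2] at h2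
    exact h2

theorem p_TRJ (hPBC : Pool.TIA.Stmt_PBC) (hDLI : Stmt_DLI) : Stmt_TRJ := by
  intro 𝔐 _ _ _ _ _ _ 𝒢 E' E _ _ _ _ _ _ _ _ _ _ _ _ L J' J hJJ hGood W A F hW hC hJ x hx
  have hd : Module.finrank ℝ E' = Module.finrank ℝ E := L.toLinearEquiv.finrank_eq
  have hC' : Conn 𝒢 (L ⁻¹' W) (pb1 L A) (pb2 L F) :=
    hPBC 𝔐 𝒢 _ _ L L.symm (L ⁻¹' W) W A F hd (KFT_dif L W hW) hC
  have hJ' : J20 (L ⁻¹' W) J' (pb2 L F) := by
    have h1 := TRP_ae L W _ hJ
    filter_upwards [h1] with y hy u v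
    rw [TRP_pb2, TRP_pb2, hJJ, hJJ]
    exact hy (L u) (L v)
  obtain ⟨W₁, S, g, dg, hW₁, hxW₁, hsub, hG, hSs, hSl, hH⟩ :=
    hGood _ _ _ (hW.preimage L.continuous) hC' hJ' (L.symm x) (by
      show L (L.symm x) ∈ W
      rwa [L.apply_symm_apply])
  have hmaps' : MapsTo L.symm (L.symm ⁻¹' W₁) W₁ := fun x hx => hx
  refine ⟨L.symm ⁻¹' W₁, fun y => (S (L.symm y)).comp (L.symm : E →L[ℝ] E'),
    fun y => g (L.symm y), fun y => (dg (L.symm y)).comp (L.symm : E →L[ℝ] E'),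
    hW₁.preimage L.symm.continuous, hxW₁, ?_, KFT_gau 𝒢 L W₁ A S g dg hG, ?_, ?_, ?_⟩
  · intro y hy
    have h1 : L (L.symm y) ∈ W := hsub hy
    rwa [L.apply_symm_apply] at h1
  · have h1 : ContDiffOn ℝ ∞ (fun y => S (L.symm y)) (L.symm ⁻¹' W₁) :=
      hSs.comp L.symm.contDiff.contDiffOn hmaps'
    exact (TRP_cl 𝔐 (L.symm : E →L[ℝ] E')).contDiff.comp_contDiffOn h1
  · intro y hy v
    exact hSl _ hy (L.symm v)
  · intro P Q hPQ
    have h1 := hH _ _ (TRJ_holp hDLI L J' J hJJ W A P Q hPQ)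
    have h2 := TRJ_whol L J' J hJJ W₁ _ _ h1
    simpa only [L.apply_symm_apply] using h2

end Pool.TIW
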