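import Pool.Agent.Work.MP_a1f430_wb.Interface3
import Pool.Agent.Work.MP_a1f430_ti.B_MOA

/-! # Block WHS (MP_a1f430, THEOREM J, helper4): Weyl's lemma -/

set_option autoImplicit false

namespace Pool.TIW

open Pool.TIA
open MeasureTheory Set Filter Topology
open scoped ContDiff ENNReal

section WHS

variable {E X : Type} [NormedAddCommGroup E] [NormedSpace ℝ E] [FiniteDimensional ℝ E]
    [MeasureSpace E] [BorelSpace E] [(volume : Measure E).IsAddHaarMeasure]
    [NormedAddCommGroup X] [NormedSpace ℝ X] [FiniteDimensional ℝ X]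

omit [FiniteDimensional ℝ X] in
theorem WHS_conv_eq (ρ : E → ℝ) (f : E → X) :
    (fun x => ∫ u, ρ u • f (x + u)) =
      convolution f (fun y => ρ (-y)) (moaL X) volume := by
  funext x
  rw [convolution]
  rw [← integral_add_left_eq_self (μ := (volume : Measure E))
    (fun t => (moaL X (f t)) (ρ (-(x - t)))) x]
  apply integral_congr_ae
  filter_upwards with u
  have : -(x - (x + u)) = u := by abel
  rw [this]
  rfl

theorem WHS_smooth (ρ : E → ℝ) (hρ : ContDiff ℝ ∞ ρ) (hc : HasCompactSupport ρ) (f : E → X)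
    (hf : LocallyIntegrable f) : ContDiff ℝ ∞ (fun x => ∫ u, ρ u • f (x + u)) := by
  rw [WHS_conv_eq]
  have hc' : HasCompactSupport (fun y => ρ (-y)) := hc.comp_homeomorph (Homeomorph.neg E)
  exact hc'.contDiff_convolution_right (moaL X) hf (hρ.comp contDiff_neg)

theorem WHS_fderiv (ρ : E → ℝ) (hρ : ContDiff ℝ ∞ ρ) (hc : HasCompactSupport ρ) (f : E → X)
    (hf : LocallyIntegrable f) (x v : E) :
    fderiv ℝ (fun x => ∫ u, ρ u • f (x + u)) x v = -∫ u, fderiv ℝ ρ u v • f (x + u) := by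
  have hc' : HasCompactSupport (fun y => ρ (-y)) := hc.comp_homeomorph (Homeomorph.neg E)
  have hg : ContDiff ℝ ∞ (fun y : E => ρ (-y)) := hρ.comp contDiff_neg
  have hg1 : ContDiff ℝ 1 (fun y : E => ρ (-y)) := hg.of_le (by exact_mod_cast le_top)
  have h1 := hc'.hasFDerivAt_convolution_right (moaL X) hf hg1 x
  rw [WHS_conv_eq, h1.fderiv]
  have hd : Continuous (fderiv ℝ (fun y : E => ρ (-y))) := hg1.continuous_fderiv one_ne_zero
  have hex := (hc'.fderiv ℝ).convolutionExists_right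
      (ContinuousLinearMap.precompR E (moaL X)) hf hd x
  have hap : (convolution f (fderiv ℝ (fun y : E => ρ (-y)))
        (ContinuousLinearMap.precompR E (moaL X)) volume x) v =
        ∫ y, ((ContinuousLinearMap.precompR E (moaL X)) (f y)
          (fderiv ℝ (fun y : E => ρ (-y)) (x - y))) v := by
    rw [convolution, ContinuousLinearMap.integral_apply hex]
  rw [hap, ← integral_neg, ← integral_add_left_eq_self (μ := (volume : Measure E))
    (fun y => ((ContinuousLinearMap.precompR E (moaL X)) (f y)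
          (fderiv ℝ (fun y : E => ρ (-y)) (x - y))) v) x]
  apply integral_congr_ae
  filter_upwards with u
  have e1 : x - (x + u) = -u := by abel
  have hdif : HasFDerivAt ρ (fderiv ℝ ρ u) u :=
    ((hρ.differentiable (by simp)) u).hasFDerivAt
  have hdif' : HasFDerivAt ρ (fderiv ℝ ρ u) (-(-u)) := by rwa [neg_neg]
  have hn : HasFDerivAt (fun y : E => -y) (-(ContinuousLinearMap.id ℝ E)) (-u) :=
    (hasFDerivAt_id (-u)).neg
  have h2 := hdif'.comp (-u) hn
  have h3 : fderiv ℝ (fun y : E => ρ (-y)) (-u) =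
      (fderiv ℝ ρ u).comp (-(ContinuousLinearMap.id ℝ E)) := h2.fderiv
  rw [e1, h3]
  simp [ContinuousLinearMap.precompR, moaL]

/-- mollifications converge in the mean -/
theorem WHS_lim (hMOA : Pool.TIA.Stmt_MOA) (hMOT : Pool.TIA.Stmt_MOT) (σ : E → ℝ)
    (hσ : Continuous σ) (hc : HasCompactSupport σ) (f : E → X) (hf : Integrable f)
    (hfc : HasCompactSupport f) (x : E) :
    Tendsto (fun j => ∫ u, σ u • mol j f (x + u)) atTop (𝓝 (∫ u, σ u • f (x + u))) := by
  obtain ⟨C, hC⟩ := hσ.bounded_above_of_compact_support hc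
  have hC0 : 0 ≤ C := (norm_nonneg _).trans (hC 0)
  have hmi : ∀ j, Integrable (mol j f) := by
    intro j
    obtain ⟨_, h2⟩ := hMOA E X j
    obtain ⟨h3, _, h4, _⟩ := h2 f hf.locallyIntegrable
    exact h3.continuous.integrable_of_hasCompactSupport (h4 hfc)
  have hT : Tendsto (fun j => ∫ u, ‖mol j f u - f u‖) atTop (𝓝 0) := by
    have h1 := hMOT E X 1 (Or.inl rfl) f (memLp_one_iff_integrable.2 hf)
    have h2 := (ENNReal.tendsto_toReal ENNReal.zero_ne_top).comp h1
    simp only [ENNReal.toReal_zero] at h2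
    refine h2.congr fun j => ?_
    simp only [Function.comp]
    rw [eLpNorm_one_eq_lintegral_enorm, ← integral_norm_eq_lintegral_enorm]
    exact ((hmi j).sub hf).1
  have hb : ∀ g : E → X, Integrable g → Integrable (fun u => σ u • g (x + u)) := by
    intro g hg
    have h1 : Integrable (fun u => g (x + u)) := hg.comp_add_left x
    exact h1.locallyIntegrable.integrable_smul_left_of_hasCompactSupport hσ hc
  rw [tendsto_iff_norm_sub_tendsto_zero]
  refine squeeze_zero (fun _ => norm_nonneg _) (g := fun j => C * ∫ u, ‖mol j f u - f u‖) ?_ ?_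
  · intro j
    rw [← integral_sub (hb _ (hmi j)) (hb _ hf), ← integral_const_mul,
      ← integral_add_left_eq_self (μ := (volume : Measure E))
        (fun u => C * ‖mol j f u - f u‖) x]
    refine norm_integral_le_of_norm_le ?_ ?_
    · exact (((hmi j).sub hf).norm.const_mul C).comp_add_left x
    · filter_upwards with u
      rw [← smul_sub, norm_smul]
      exact mul_le_mul_of_nonneg_right (hC u) (norm_nonneg _)
  · simpa using hT.const_mul C

theorem WHS_one (hMOA : Pool.TIA.Stmt_MOA) (hMOT : Pool.TIA.Stmt_MOT) (ρ : E → ℝ)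
    (hρ : ContDiff ℝ ∞ ρ) (hc : HasCompactSupport ρ) (f : E → X) (hf : Integrable f)
    (hfc : HasCompactSupport f) (D : Set E) (hD : IsOpen D) (N : ℕ)
    (hm : ∀ j, N ≤ j → ∀ x ∈ D, ∫ u, ρ u • mol j f (x + u) = mol j f x) :
    (∀ᵐ x ∂(volume.restrict D), f x = ∫ u, ρ u • f (x + u)) ∧
    ∀ x ∈ D, ∀ v, Tendsto (fun j => fderiv ℝ (mol j f) x v) atTop
      (𝓝 (fderiv ℝ (fun x => ∫ u, ρ u • f (x + u)) x v)) := by
  have hms : ∀ j, ContDiff ℝ ∞ (mol j f) ∧ HasCompactSupport (mol j f) := by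
    intro j
    obtain ⟨_, h2⟩ := hMOA E X j
    obtain ⟨h3, _, h4, _⟩ := h2 f hf.locallyIntegrable
    exact ⟨h3, h4 hfc⟩
  have hmi : ∀ j, Integrable (mol j f) := fun j =>
    (hms j).1.continuous.integrable_of_hasCompactSupport (hms j).2
  constructor
  · have h1 := hMOT E X 1 (Or.inl rfl) f (memLp_one_iff_integrable.2 hf)
    have h2 : TendstoInMeasure volume (fun j => mol j f) atTop f :=
      tendstoInMeasure_of_tendsto_eLpNorm_of_ne_top one_ne_zero ENNReal.one_ne_top
        (fun j => (hmi j).1) hf.1 h1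
    obtain ⟨ns, hns, hae⟩ := h2.exists_seq_tendsto_ae
    rw [ae_restrict_iff' hD.measurableSet]
    filter_upwards [hae] with x hx hxD
    have h3 := WHS_lim hMOA hMOT ρ hρ.continuous hc f hf hfc x
    have h4 : Tendsto (fun j => mol j f x) atTop (𝓝 (∫ u, ρ u • f (x + u))) := by
      refine h3.congr' ?_
      filter_upwards [eventually_ge_atTop N] with j hj
      exact hm j hj x hxD
    exact tendsto_nhds_unique hx (h4.comp hns.tendsto_atTop)
  · intro x hx v
    have hd : Continuous fun u => fderiv ℝ ρ u v :=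
      (hρ.continuous_fderiv (by simp)).clm_apply continuous_const
    have h3 := (WHS_lim hMOA hMOT (fun u => fderiv ℝ ρ u v) hd (hc.fderiv_apply ℝ v) f hf hfc
      x).neg
    rw [← WHS_fderiv ρ hρ hc f hf.locallyIntegrable x v] at h3
    refine h3.congr' ?_
    filter_upwards [eventually_ge_atTop N] with j hj
    rw [← WHS_fderiv ρ hρ hc (mol j f) (hmi j).locallyIntegrable x v]
    have he : (fun x => ∫ u, ρ u • mol j f (x + u)) =ᶠ[𝓝 x] mol j f := by
      filter_upwards [hD.mem_nhds hx] with y hy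
      exact hm j hj y hy
    rw [he.fderiv_eq]

theorem WHS_cr (hMOA : Pool.TIA.Stmt_MOA) (J : E →L[ℝ] E) (W : Set E) (P Q : E → X)
    (h : WHol W J P Q) (x₀ : E) (R : ℝ) (hK : Metric.closedBall x₀ R ⊆ W)
    (hP : Integrable ((Metric.closedBall x₀ R).indicator P))
    (hQ : Integrable ((Metric.closedBall x₀ R).indicator Q)) (j : ℕ) (y : E)
    (hy : Metric.closedBall y (1 / ((j : ℝ) + 2)) ⊆ Metric.ball x₀ R) (v : E) :
    fderiv ℝ (mol j ((Metric.closedBall x₀ R).indicator P)) y v =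
      fderiv ℝ (mol j ((Metric.closedBall x₀ R).indicator Q)) y (J v) := by
  set φ : E → ℝ := fun z => (bmp E j).normed volume (y - z) with hφd
  have hφ : Test (Metric.ball x₀ R) φ := moa_test j y _ hy
  have hφW : Test W φ := ⟨hφ.smooth, hφ.cpt,
    hφ.sub.trans (Metric.ball_subset_closedBall.trans hK)⟩
  have e : ∀ (f : E → X) (w : E), (fun z => fderiv ℝ φ z w •
      (Metric.closedBall x₀ R).indicator f z) = fun z => fderiv ℝ φ z w • f z := by
    intro f w
    funext z
    by_cases hz : z ∈ Metric.closedBall x₀ R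
    · rw [indicator_of_mem hz]
    · have hz' : z ∉ tsupport φ := fun hz2 => hz (Metric.ball_subset_closedBall (hφ.sub hz2))
      rw [fderiv_of_notMem_tsupport (𝕜 := ℝ) hz']
      simp
  have hint : ∀ (f : E → X) (w : E), Integrable ((Metric.closedBall x₀ R).indicator f) →
      Integrable (fun z => fderiv ℝ φ z w • f z) := by
    intro f w hf
    rw [← e f w]
    have hd : Continuous fun u => fderiv ℝ φ u w :=
      (hφ.smooth.continuous_fderiv (by simp)).clm_apply continuous_const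
    exact hf.locallyIntegrable.integrable_smul_left_of_hasCompactSupport hd
      (hφ.cpt.fderiv_apply ℝ w)
  obtain ⟨_, h2⟩ := hMOA E X j
  obtain ⟨_, d1, _⟩ := h2 _ hP.locallyIntegrable
  obtain ⟨_, d2, _⟩ := h2 _ hQ.locallyIntegrable
  rw [d1 y v, d2 y (J v)]
  have h3 := h.eq φ hφW v
  rw [integral_sub (hint P v hP) (hint Q (J v) hQ), sub_eq_zero] at h3
  have e1 := e P v
  have e2 := e Q (J v)
  simp only [hφd] at e1 e2 h3
  rw [e1, e2, h3]

theorem WHS_loc (hMOA : Pool.TIA.Stmt_MOA) (hMOT : Pool.TIA.Stmt_MOT) (hKER : Stmt_KER)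
    (J : E →L[ℝ] E) (W : Set E) (P Q : E → X) (hJ : Cpx J) (hW : IsOpen W) (h : WHol W J P Q)
    (x₀ : E) (hx : x₀ ∈ W) : ∃ ε : ℝ, 0 < ε ∧ Metric.ball x₀ ε ⊆ W ∧ ∃ g k : E → X,
      ContDiff ℝ ∞ g ∧ ContDiff ℝ ∞ k ∧
      (∀ᵐ x ∂(volume.restrict (Metric.ball x₀ ε)), P x = g x ∧ Q x = k x) ∧
      ∀ x ∈ Metric.ball x₀ ε, ∀ v, fderiv ℝ g x v = fderiv ℝ k x (J v) := by
  obtain ⟨R, hR, hRW⟩ := Metric.nhds_basis_closedBall.mem_iff.1 (hW.mem_nhds hx)
  have hε : 0 < R / 3 := by positivity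
  obtain ⟨ρ, hρ1, hρ2, hρ3, hρ4⟩ := hKER E J (R / 3) hJ hε
  have hPi : ∀ f : E → X, L2loc W f → Integrable ((Metric.closedBall x₀ R).indicator f) := by
    intro f hf
    have h1 := hf _ (isCompact_closedBall x₀ R) hRW
    rw [integrable_indicator_iff Metric.isClosed_closedBall.measurableSet]
    have : IsFiniteMeasure (volume.restrict (Metric.closedBall x₀ R)) :=
      ⟨by rw [Measure.restrict_apply_univ]; exact (isCompact_closedBall x₀ R).measure_lt_top⟩
    exact h1.integrable (by norm_num)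
  have hPc : ∀ f : E → X, HasCompactSupport ((Metric.closedBall x₀ R).indicator f) := by
    intro f
    refine HasCompactSupport.of_support_subset_isCompact (isCompact_closedBall x₀ R) ?_
    exact support_indicator_subset
  set P₁ := (Metric.closedBall x₀ R).indicator P with hP₁
  set Q₁ := (Metric.closedBall x₀ R).indicator Q with hQ₁
  have iP : Integrable P₁ := hPi P h.P2
  have iQ : Integrable Q₁ := hPi Q h.Q2
  obtain ⟨N, hN⟩ := exists_nat_gt (1 / (R / 3))
  have hNj : ∀ j, N ≤ j → 1 / ((j : ℝ) + 2) ≤ R / 3 := by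
    intro j hj
    have h1 : (N : ℝ) ≤ j := by exact_mod_cast hj
    rw [div_lt_iff₀ hε] at hN
    rw [div_le_iff₀ (by positivity)]
    nlinarith
  have hcr : ∀ j, N ≤ j → ∀ y ∈ Metric.ball x₀ (2 * (R / 3)), ∀ v,
      fderiv ℝ (mol j P₁) y v = fderiv ℝ (mol j Q₁) y (J v) := by
    intro j hj y hy v
    refine WHS_cr hMOA J W P Q h x₀ R hRW iP iQ j y ?_ v
    intro z hz
    have h1 := hNj j hj
    rw [Metric.mem_closedBall] at hz
    rw [Metric.mem_ball] at hy ⊢
    have := dist_triangle z y x₀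
    linarith
  have hsm : ∀ (f : E → X), Integrable f → ∀ j, ContDiff ℝ ∞ (mol j f) := by
    intro f hf j
    obtain ⟨_, h2⟩ := hMOA E X j
    exact (h2 f hf.locallyIntegrable).1
  have hbb : ∀ x ∈ Metric.ball x₀ (R / 3), ∀ y ∈ Metric.ball x (R / 3),
      y ∈ Metric.ball x₀ (2 * (R / 3)) := by
    intro x hx y hy
    rw [Metric.mem_ball] at hx hy ⊢
    have := dist_triangle y x x₀
    linarith
  have mP : ∀ j, N ≤ j → ∀ x ∈ Metric.ball x₀ (R / 3),
      ∫ u, ρ u • mol j P₁ (x + u) = mol j P₁ x := by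
    intro j hj x hx
    exact hρ4 X (mol j P₁) (mol j Q₁) x (hsm P₁ iP j).contDiffOn (hsm Q₁ iQ j).contDiffOn
      fun y hy v => hcr j hj y (hbb x hx y hy) v
  have mQ : ∀ j, N ≤ j → ∀ x ∈ Metric.ball x₀ (R / 3),
      ∫ u, ρ u • mol j Q₁ (x + u) = mol j Q₁ x := by
    intro j hj x hx
    refine hρ4 X (mol j Q₁) (fun y => -mol j P₁ y) x (hsm Q₁ iQ j).contDiffOn
      (hsm P₁ iP j).neg.contDiffOn fun y hy v => ?_
    rw [fderiv_fun_neg]
    rw [_root_.neg_apply, hcr j hj y (hbb x hx y hy) (J v), hJ v, map_neg, neg_neg]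
  obtain ⟨a1, a2⟩ := WHS_one hMOA hMOT ρ hρ1 hρ2 P₁ iP (hPc P) (Metric.ball x₀ (R / 3))
    Metric.isOpen_ball N mP
  obtain ⟨b1, b2⟩ := WHS_one hMOA hMOT ρ hρ1 hρ2 Q₁ iQ (hPc Q) (Metric.ball x₀ (R / 3))
    Metric.isOpen_ball N mQ
  have hsub : Metric.ball x₀ (R / 3) ⊆ Metric.closedBall x₀ R :=
    (Metric.ball_subset_ball (by linarith)).trans Metric.ball_subset_closedBall
  refine ⟨R / 3, hε, hsub.trans hRW, fun x => ∫ u, ρ u • P₁ (x + u),
    fun x => ∫ u, ρ u • Q₁ (x + u), WHS_smooth ρ hρ1 hρ2 P₁ iP.locallyIntegrable,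
    WHS_smooth ρ hρ1 hρ2 Q₁ iQ.locallyIntegrable, ?_, ?_⟩
  · filter_upwards [a1, b1, ae_restrict_mem Metric.isOpen_ball.measurableSet] with x h1 h2 h3
    rw [← h1, ← h2, hP₁, hQ₁, indicator_of_mem (hsub h3), indicator_of_mem (hsub h3)]
    exact ⟨rfl, rfl⟩
  · intro x hx v
    refine tendsto_nhds_unique (a2 x hx v) ((b2 x hx (J v)).congr' ?_)
    filter_upwards [eventually_ge_atTop N] with j hj
    refine (hcr j hj x ?_ v).symm
    exact Metric.ball_subset_ball (by linarith) hx

end WHS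

theorem p_WHS (hMOA : Pool.TIA.Stmt_MOA) (hMOT : Pool.TIA.Stmt_MOT) (hKER : Stmt_KER) :
    Stmt_WHS := by
  classical
  intro E X _ _ _ _ _ _ _ _ _ J W P Q hJ hW h
  have hloc := fun (x : E) (hx : x ∈ W) => WHS_loc hMOA hMOT hKER J W P Q hJ hW h x hx
  choose! ε hε hεW g k hg hk hae hcr using hloc
  -- compatibility
  have comp : ∀ x ∈ W, ∀ y ∈ W, ∀ z ∈ Metric.ball x (ε x) ∩ Metric.ball y (ε y),
      g x z = g y z ∧ k x z = k y z := by
    intro x hx y hy z hz
    have hopen : IsOpen (Metric.ball x (ε x) ∩ Metric.ball y (ε y)) :=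
      Metric.isOpen_ball.inter Metric.isOpen_ball
    have h1 := ae_restrict_of_ae_restrict_of_subset
      (inter_subset_left (s := Metric.ball x (ε x)) (t := Metric.ball y (ε y))) (hae x hx)
    have h2 := ae_restrict_of_ae_restrict_of_subset
      (inter_subset_right (s := Metric.ball x (ε x)) (t := Metric.ball y (ε y))) (hae y hy)
    constructor
    · refine Measure.eqOn_open_of_ae_eq (μ := volume) ?_ hopen (hg x hx).continuous.continuousOn
        (hg y hy).continuous.continuousOn hz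
      filter_upwards [h1, h2] with w e1 e2
      rw [← e1.1, ← e2.1]
    · refine Measure.eqOn_open_of_ae_eq (μ := volume) ?_ hopen (hk x hx).continuous.continuousOn
        (hk y hy).continuous.continuousOn hz
      filter_upwards [h1, h2] with w e1 e2
      rw [← e1.2, ← e2.2]
  have eqg : ∀ x ∈ W, ∀ y ∈ Metric.ball x (ε x), g y y = g x y ∧ k y y = k x y := by
    intro x hx y hy
    have hyW := hεW x hx hy
    exact comp y hyW x hx y ⟨Metric.mem_ball_self (hε y hyW), hy⟩
  have eg : ∀ x ∈ W, (fun y => g y y) =ᶠ[𝓝 x] g x := by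
    intro x hx
    filter_upwards [Metric.ball_mem_nhds x (hε x hx)] with y hy
    exact (eqg x hx y hy).1
  have ek : ∀ x ∈ W, (fun y => k y y) =ᶠ[𝓝 x] k x := by
    intro x hx
    filter_upwards [Metric.ball_mem_nhds x (hε x hx)] with y hy
    exact (eqg x hx y hy).2
  refine ⟨fun x => g x x, fun x => k x x, ?_, ?_, ?_, ?_⟩
  · intro x hx
    exact ((hg x hx).contDiffAt.congr_of_eventuallyEq (eg x hx)).contDiffWithinAt
  · intro x hx
    exact ((hk x hx).contDiffAt.congr_of_eventuallyEq (ek x hx)).contDiffWithinAt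
  · rw [ae_restrict_iff' hW.measurableSet, ae_iff]
    refine measure_null_of_locally_null _ fun x hx => ?_
    have hxW : x ∈ W := by
      by_contra hcon
      exact hx fun h1 => absurd h1 hcon
    refine ⟨Metric.ball x (ε x) ∩ {a | ¬(a ∈ W → P a = g a a ∧ Q a = k a a)}, ?_, ?_⟩
    · rw [inter_comm]
      exact inter_mem_nhdsWithin _ (Metric.ball_mem_nhds x (hε x hxW))
    · have h1 := (ae_restrict_iff' Metric.isOpen_ball.measurableSet).1 (hae x hxW)
      rw [ae_iff] at h1
      refine measure_mono_null ?_ h1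
      rintro a ⟨ha1, ha2⟩
      intro hcon
      apply ha2
      intro _
      obtain ⟨e1, e2⟩ := hcon ha1
      obtain ⟨e3, e4⟩ := eqg x hxW a ha1
      rw [e1, e2, e3, e4]
      exact ⟨rfl, rfl⟩
  · intro x hx v
    rw [(eg x hx).fderiv_eq, (ek x hx).fderiv_eq]
    exact hcr x hx x (Metric.mem_ball_self (hε x hx)) v

end Pool.TIW
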