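import Pool.Agent.Work.MP_a1f430_wb.Interface3
import Pool.Agent.Work.MP_a1f430_wb.B_BIT

/-! # Block ZSL: slices of a function which is weakly holomorphic in `z` (MP_a1f430, THEOREM J) -/

set_option autoImplicit false

namespace Pool.TIW

open Pool.TIA
open MeasureTheory Set Filter Topology
open scoped ContDiff ENNReal

/-- One real direction. -/
theorem ZSL_dir (hGSS : Stmt_GSS) {V X : Type} [NormedAddCommGroup V] [NormedSpace ℝ V]
    [FiniteDimensional ℝ V] [MeasureSpace V] [BorelSpace V]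
    [(volume : Measure V).IsAddHaarMeasure]
    [NormedAddCommGroup X] [NormedSpace ℝ X] [FiniteDimensional ℝ X] {W₁ : Set V} {z₀ : ℂ}
    {r : ℝ} {P Q : V × ℂ → X} (hW : IsOpen W₁) (hP : L1loc (W₁ ×ˢ Metric.ball z₀ r) P)
    (hQ : L1loc (W₁ ×ˢ Metric.ball z₀ r) Q) (ζ ξ : ℂ)
    (h : ∀ φ : V × ℂ → ℝ, Test (W₁ ×ˢ Metric.ball z₀ r) φ →
      ∫ p, (fderiv ℝ φ p (0, ζ) • P p - fderiv ℝ φ p (0, ξ) • Q p) = 0) :
    ∀ᵐ w ∂(volume.restrict W₁), ∀ φ : ℂ → ℝ, Test (Metric.ball z₀ r) φ →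
      ∫ z, (fderiv ℝ φ z ζ • P (w, z) - fderiv ℝ φ z ξ • Q (w, z)) = 0 := by
  have h0 : L1loc (W₁ ×ˢ Metric.ball z₀ r) (fun _ => (0 : X)) := fun K _ _ =>
    integrableOn_zero
  have h1 := hGSS V ℂ X W₁ (Metric.ball z₀ r) 2 ![ζ, ξ] ![P, fun p => -Q p] (fun _ => 0) hW
    Metric.isOpen_ball (fun k => by
      fin_cases k
      · exact hP
      · exact fun K hK hKW => (hQ K hK hKW).neg) h0 (fun φ hφ => by
      have e1 : ∫ p, φ p • (0 : X) = 0 := by simp only [smul_zero, integral_zero]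
      rw [e1, ← h φ hφ]
      refine integral_congr_ae (Eventually.of_forall fun p => ?_)
      beta_reduce
      rw [Fin.sum_univ_two, sub_eq_add_neg, ← smul_neg]
      rfl)
  filter_upwards [h1] with w hw φ hφ
  have h2 := hw.2.2 φ hφ
  have e1 : ∫ z, φ z • (0 : X) = 0 := by simp only [smul_zero, integral_zero]
  rw [e1] at h2
  rw [← h2]
  refine integral_congr_ae (Eventually.of_forall fun p => ?_)
  beta_reduce
  rw [Fin.sum_univ_two, sub_eq_add_neg, ← smul_neg]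
  rfl

theorem p_ZSL (hSL2 : Stmt_SL2) (hGSS : Stmt_GSS) : Stmt_ZSL := by
  intro V X _ _ _ _ _ _ _ _ _ W₁ z₀ r P Q hW H
  have hP := (hSL2 V ℂ X W₁ (Metric.ball z₀ r) P hW Metric.isOpen_ball H.P2).2
  have hQ := (hSL2 V ℂ X W₁ (Metric.ball z₀ r) Q hW Metric.isOpen_ball H.Q2).2
  have h1 := ZSL_dir hGSS hW (BIT_L1 H.P2) (BIT_L1 H.Q2) 1 (Complex.I * 1) fun φ hφ =>
    H.eq φ hφ 1
  have h2 := ZSL_dir hGSS hW (BIT_L1 H.P2) (BIT_L1 H.Q2) Complex.I (Complex.I * Complex.I)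
    fun φ hφ => H.eq φ hφ Complex.I
  filter_upwards [hP, hQ, h1, h2] with w hPw hQw h1w h2w
  refine ⟨hPw, hQw, fun φ hφ v => ?_⟩
  have j : ∀ ζ ξ : ℂ, Integrable (fun z => fderiv ℝ φ z ζ • P (w, z) -
      fderiv ℝ φ z ξ • Q (w, z)) := fun ζ ξ =>
    (BIT_int (BIT_test hφ ζ) (BIT_L1 hPw)).sub (BIT_int (BIT_test hφ ξ) (BIT_L1 hQw))
  have hv : v = v.re • (1 : ℂ) + v.im • Complex.I := by
    rw [Complex.real_smul, Complex.real_smul, mul_one, Complex.re_add_im]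
  have hIv : mulI v = v.re • (Complex.I * 1) + v.im • (Complex.I * Complex.I) := by
    rw [mulI_apply]
    conv_lhs => rw [hv]
    rw [mul_add, mul_smul_comm, mul_smul_comm]
  have e1 : ∫ z, (fderiv ℝ φ z v • P (w, z) - fderiv ℝ φ z (mulI v) • Q (w, z)) =
      ∫ z, (v.re • (fderiv ℝ φ z 1 • P (w, z) - fderiv ℝ φ z (Complex.I * 1) • Q (w, z)) +
        v.im • (fderiv ℝ φ z Complex.I • P (w, z) -
          fderiv ℝ φ z (Complex.I * Complex.I) • Q (w, z))) := by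
    refine integral_congr_ae (Eventually.of_forall fun z => ?_)
    beta_reduce
    have a1 : fderiv ℝ φ z v = v.re * fderiv ℝ φ z 1 + v.im * fderiv ℝ φ z Complex.I := by
      conv_lhs => rw [hv]
      rw [map_add, map_smul, map_smul, smul_eq_mul, smul_eq_mul]
    rw [hIv, a1, map_add, map_smul, map_smul, smul_eq_mul, smul_eq_mul]
    simp only [add_smul, mul_smul, smul_sub]
    abel
  rw [e1, integral_add (f := fun z => v.re • (fderiv ℝ φ z 1 • P (w, z) -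
      fderiv ℝ φ z (Complex.I * 1) • Q (w, z))) (g := fun z => v.im • (fderiv ℝ φ z Complex.I •
        P (w, z) - fderiv ℝ φ z (Complex.I * Complex.I) • Q (w, z)))
    ((j _ _).smul _) ((j _ _).smul _), integral_smul, integral_smul,
    h1w φ hφ, h2w φ hφ, smul_zero, smul_zero, add_zero]

end Pool.TIW
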