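import Pool.Agent.Work.MP_a1f430_wb.All2
import Pool.Agent.Work.MP_a1f430_wb.B_FUB
import Pool.Agent.Work.MP_a1f430_wb.B_SL2
import Pool.Agent.Work.MP_a1f430_wb.B_GST
import Pool.Agent.Work.MP_a1f430_wb.B_GSS
import Pool.Agent.Work.MP_a1f430_wb.B_CSL
import Pool.Agent.Work.MP_a1f430_wb.B_GPC
import Pool.Agent.Work.MP_a1f430_wb.B_KFR
import Pool.Agent.Work.MP_a1f430_wb.B_KFT
import Pool.Agent.Work.MP_a1f430_wb.B_BIG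
import Pool.Agent.Work.MP_a1f430_wb.B_BHO
import Pool.Agent.Work.MP_a1f430_wb.B_KER
import Pool.Agent.Work.MP_a1f430_wb.B_WHS
import Pool.Agent.Work.MP_a1f430_wb.B_HOZ
import Pool.Agent.Work.MP_a1f430_wb.B_KW1
import Pool.Agent.Work.MP_a1f430_wb.B_KW0
import Pool.Agent.Work.MP_a1f430_wb.B_PRC
import Pool.Agent.Work.MP_a1f430_wb.B_CRA
import Pool.Agent.Work.MP_a1f430_wb.B_ZSL
import Pool.Agent.Work.MP_a1f430_wb.B_RPG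
import Pool.Agent.Work.MP_a1f430_wb.B_GNZ
import Pool.Agent.Work.MP_a1f430_wb.B_GID
import Pool.Agent.Work.MP_a1f430_wb.B_KEY
import Pool.Agent.Work.MP_a1f430_wb.B_HPB
import Pool.Agent.Work.MP_a1f430_wb.B_JWH
import Pool.Agent.Work.MP_a1f430_wb.B_SMA
import Pool.Agent.Work.MP_a1f430_wb.B_STJ
import Pool.Agent.Work.MP_a1f430_wb.B_TRJ
import Pool.Agent.Work.MP_a1f430_wb.B_GJ0
import Pool.Agent.Work.MP_a1f430_wb.B_DCJ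
import Pool.Agent.Work.MP_a1f430_wb.B_INJ
import Pool.Agent.Work.MP_a1f430_wb.B_FJR

/-! # Curvatures of type (2,0)+(0,2): assembly (MP_a1f430, THEOREM J) -/

set_option autoImplicit false

namespace Pool.TIW

open Pool.TIA (a_LIE a_MOA a_MOT a_PBC)

theorem a_FUB : Stmt_FUB := p_FUB
theorem a_SL2 : Stmt_SL2 := p_SL2
theorem a_GST : Stmt_GST := p_GST a_MOA
theorem a_GSS : Stmt_GSS := p_GSS a_GST
theorem a_CSL : Stmt_CSL := p_CSL a_SL2 a_GST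
theorem a_GPC : Stmt_GPC := p_GPC a_LIE a_LBR
theorem a_KFR : Stmt_KFR := p_KFR a_KT4 a_CG2 a_GCO a_DBR a_CSL a_GPC
theorem a_KFT : Stmt_KFT := p_KFT a_PBC a_KFR
theorem a_BIG : Stmt_BIG := p_BIG a_PBC a_BIA a_DLI
theorem a_BHO : Stmt_BHO := p_BHO a_BIG
theorem a_KER : Stmt_KER := p_KER
theorem a_WHS : Stmt_WHS := p_WHS a_MOA a_MOT a_KER
theorem a_HOZ : Stmt_HOZ := p_HOZ
theorem a_KW1 : Stmt_KW1 := p_KW1 a_WHS a_HOZ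
theorem a_KW0 : Stmt_KW0 := p_KW0 a_WHS
theorem a_PRC : Stmt_PRC := p_PRC
theorem a_CRA : Stmt_CRA := p_CRA
theorem a_ZSL : Stmt_ZSL := p_ZSL a_SL2 a_GSS
theorem a_RPG : Stmt_RPG := p_RPG a_FUB a_SL2
theorem a_GNZ : Stmt_GNZ := p_GNZ a_FUB a_CRA a_ZSL a_WHS a_RPG a_CSL
theorem a_GID : Stmt_GID := p_GID a_CRA
theorem a_KEY : Stmt_KEY := p_KEY a_FUB a_GSS a_CRA a_ZSL a_GID a_KW1
theorem a_HPB : Stmt_HPB := p_HPB a_FUB a_SL2 a_GST a_KEY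
theorem a_JWH : Stmt_JWH := p_JWH a_LIE a_ZSL
theorem a_SMA : Stmt_SMA := p_SMA a_FUB a_SL2 a_GSS a_CRA a_WHS a_KW0 a_PRC
theorem a_STJ : Stmt_STJ :=
  p_STJ a_LIE a_LBR a_CG2 a_DCV a_GCO a_GPC a_KFT a_BHO a_CRA a_GNZ a_HPB a_JWH a_SMA
theorem a_TRJ : Stmt_TRJ := p_TRJ a_PBC a_DLI
theorem a_GJ0 : Stmt_GJ0 := p_GJ0
theorem a_DCJ : Stmt_DCJ := p_DCJ
theorem a_INJ : Stmt_INJ := p_INJ a_STJ a_TRJ a_GJ0 a_DCJ
theorem a_FJR : Stmt_FJR := p_FJR a_INJ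

end Pool.TIW
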