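import Pool.Agent.Work.MP_a1f430_wb.Interface
import Pool.Agent.Work.MP_a1f430_ti.B_MOA

/-! # Block APD (MP_a1f430, THEOREM WB): approximation in one direction (helper41) -/

set_option autoImplicit false

namespace Pool.TIW

open Pool.TIA
open MeasureTheory Set Filter Topology
open scoped ContDiff ENNReal

theorem p_APD (hA : Pool.TIA.Stmt_MOA) (hT : Pool.TIA.Stmt_MOT) : Stmt_APD := by
  intro E X _ _ _ _ _ _ _ _ _ W e f f1 hW hg hdg hwd K hK hKW
  obtain ⟨δ, hδ, hδW⟩ := hK.exists_cthickening_subset_open hW hKW
  have hK' : IsCompact (Metric.cthickening δ K) := hK.cthickening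
  have hKm : MeasurableSet (Metric.cthickening δ K) := hK'.isClosed.measurableSet
  set K' := Metric.cthickening δ K with hK'def
  have hKK' : K ⊆ K' := Metric.self_subset_cthickening K
  set g₁ : E → X := K'.indicator f with hg₁
  set dg₁ : E → X := K'.indicator f1 with hdg₁
  have hg2 : MemLp g₁ 2 volume := (memLp_indicator_iff_restrict hKm).2 (hg K' hK' hδW)
  have hdg2 : MemLp dg₁ 2 volume := (memLp_indicator_iff_restrict hKm).2 (hdg K' hK' hδW)
  have hgl : LocallyIntegrable g₁ := hg2.locallyIntegrable ENNReal.one_lt_two.le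
  have hdgl : LocallyIntegrable dg₁ := hdg2.locallyIntegrable ENNReal.one_lt_two.le
  have hder : ∀ j : ℕ, 1 / ((j : ℝ) + 2) ≤ δ → ∀ x ∈ K,
      fderiv ℝ (mol j g₁) x e = mol j dg₁ x := by
    intro j hj x hx
    have hball : Metric.closedBall x (1 / ((j : ℝ) + 2)) ⊆ K' :=
      (Metric.closedBall_subset_closedBall hj).trans
        (Metric.closedBall_subset_cthickening hx δ)
    have htest := (hA E X j).1 x W hW (hball.trans hδW)
    have hts : tsupport (fun y : E => (bmp E j).normed volume (x - y)) ⊆ K' := by
      refine Subset.trans ?_ hball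
      apply closure_minimal _ Metric.isClosed_closedBall
      intro y hy
      have hy' : x - y ∈ Function.support ((bmp E j).normed (volume : Measure E)) := hy
      rw [ContDiffBump.support_normed_eq, Metric.mem_ball, dist_zero_right] at hy'
      rw [Metric.mem_closedBall, dist_eq_norm, ← norm_neg, neg_sub]
      exact hy'.le
    rw [((hA E X j).2 g₁ hgl).2.1 x e]
    have h1 := hwd _ htest
    have h2 : ∫ y, fderiv ℝ (fun z => (bmp E j).normed volume (x - z)) y e • g₁ y =
        ∫ y, fderiv ℝ (fun z => (bmp E j).normed volume (x - z)) y e • f y := by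
      apply integral_congr_ae
      filter_upwards with y
      by_cases hy : y ∈ K'
      · rw [hg₁, indicator_of_mem hy]
      · have h3 : fderiv ℝ (fun z => (bmp E j).normed (volume : Measure E) (x - z)) y = 0 := by
          by_contra h4
          exact hy (hts (support_fderiv_subset ℝ h4))
        rw [h3]
        simp
    have h5 : mol j dg₁ x = ∫ y, (bmp E j).normed volume (x - y) • f1 y := by
      rw [mol]
      apply integral_congr_ae
      filter_upwards with y
      by_cases hy : y ∈ K'
      · rw [hdg₁, indicator_of_mem hy]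
      · have h3 : (bmp E j).normed (volume : Measure E) (x - y) = 0 := by
          by_contra h4
          exact hy (hts (subset_tsupport _ h4))
        rw [h3]
        simp
    rw [h2, h1, neg_neg, h5]
  refine ⟨fun j => mol j g₁, fun j => ((hA E X j).2 g₁ hgl).1, ?_, ?_⟩
  · have h1 := hT E X 2 (Or.inr rfl) g₁ hg2
    refine tendsto_of_tendsto_of_tendsto_of_le_of_le tendsto_const_nhds h1
      (fun _ => zero_le) (fun j => ?_)
    refine le_trans (le_of_eq ?_) (eLpNorm_mono_measure _ (Measure.restrict_le_self (s := K)))
    apply eLpNorm_congr_ae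
    filter_upwards [ae_restrict_mem hK.isClosed.measurableSet] with x hx
    rw [hg₁, indicator_of_mem (hKK' hx)]
  · have h1 := hT E X 2 (Or.inr rfl) dg₁ hdg2
    refine tendsto_of_tendsto_of_tendsto_of_le_of_le' tendsto_const_nhds h1
      (Eventually.of_forall fun _ => zero_le) ?_
    obtain ⟨N, hN⟩ := exists_nat_one_div_lt hδ
    filter_upwards [eventually_ge_atTop N] with j hj
    have hj' : 1 / ((j : ℝ) + 2) ≤ δ := by
      refine le_trans ?_ hN.le
      apply one_div_le_one_div_of_le (by positivity)
      have : (N : ℝ) ≤ j := Nat.cast_le.2 hj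
      linarith
    refine le_trans (le_of_eq ?_) (eLpNorm_mono_measure _ (Measure.restrict_le_self (s := K)))
    apply eLpNorm_congr_ae
    filter_upwards [ae_restrict_mem hK.isClosed.measurableSet] with x hx
    rw [hder j hj' x hx, hdg₁, indicator_of_mem (hKK' hx)]

end Pool.TIW
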