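import Pool.Agent.Work.MP_a1f430_wb.Interface

set_option autoImplicit false

namespace Pool.TIW

open Pool.TIA
open MeasureTheory Set Filter Topology
open scoped ContDiff ENNReal

/-- The case `u = 0`. -/
theorem BIA_zero {E 𝔐 : Type} [NormedAddCommGroup E] [NormedSpace ℝ E] [MeasureSpace E]
    [NormedRing 𝔐] [NormedAlgebra ℝ 𝔐] [StarRing 𝔐] (U : Set E) (A : E → E →L[ℝ] 𝔐)
    (F : E → E [⋀^Fin 2]→L[ℝ] 𝔐) (v w : E) :
    Div U A ![0, v, w] (cyc F 0 v w) (fun _ => 0) := by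
  intro φ _
  have h1 : ∀ x, F x ![w, 0] = 0 := fun x => (F x).map_coord_zero 1 rfl
  have h2 : ∀ x, F x ![0, v] = 0 := fun x => (F x).map_coord_zero 0 rfl
  have e1 : (fun x => ∑ k, fderiv ℝ φ x ((![0, v, w] : Fin 3 → E) k) • cyc F 0 v w k x)
      = fun _ => (0 : 𝔐) := by
    funext x
    simp [Fin.sum_univ_three, cyc, h1, h2]
  have e2 : (fun x => φ x • ((∑ k, (A x ((![0, v, w] : Fin 3 → E) k) * cyc F 0 v w k x
        - cyc F 0 v w k x * A x ((![0, v, w] : Fin 3 → E) k))) - 0))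
      = fun _ => (0 : 𝔐) := by
    funext x
    simp [Fin.sum_univ_three, cyc, h1, h2]
  rw [e1, e2]

/-- A linear isomorphism with `L (0, 1) = u`. -/
theorem BIA_iso (n : ℕ) (u : Eu (n + 1)) (hu : u ≠ 0) :
    ∃ L : (Eu n × ℝ) ≃L[ℝ] Eu (n + 1), L (0, 1) = u := by
  have hd : Module.finrank ℝ (Eu n × ℝ) = Module.finrank ℝ (Eu (n + 1)) := by
    simp
  let L₀ : (Eu n × ℝ) ≃L[ℝ] Eu (n + 1) := ContinuousLinearEquiv.ofFinrankEq hd
  have h0 : L₀ (0, 1) ≠ 0 := by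
    intro h
    have h1 := L₀.map_eq_zero_iff.1 h
    have h2 := congrArg Prod.snd h1
    simp at h2
  obtain ⟨B, hB⟩ := SeparatingDual.exists_continuousLinearEquiv_apply_eq (R := ℝ) h0 hu
  exact ⟨L₀.trans B, hB⟩

/-- A box around a point. -/
theorem BIA_box {V : Type} [NormedAddCommGroup V] [NormedSpace ℝ V] [FiniteDimensional ℝ V]
    (W : Set (V × ℝ)) (hW : IsOpen W) (x : V × ℝ) (hx : x ∈ W) :
    ∃ (K : Set V) (a b : ℝ), IsCompact K ∧ a < b ∧ K ×ˢ Icc a b ⊆ W ∧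
      x ∈ interior K ×ˢ Ioo a b := by
  obtain ⟨ε, hε, h⟩ := Metric.isOpen_iff.1 hW x hx
  refine ⟨Metric.closedBall x.1 (ε / 2), x.2 - ε / 2, x.2 + ε / 2,
    ?_, by linarith, ?_, ?_⟩
  · have : ProperSpace V := FiniteDimensional.proper ℝ V
    exact isCompact_closedBall _ _
  · rintro ⟨y, s⟩ ⟨hy, hs⟩
    refine h ?_
    rw [Metric.mem_ball, Prod.dist_eq]
    refine max_lt ?_ ?_
    · exact lt_of_le_of_lt (Metric.mem_closedBall.1 hy) (by linarith)
    · show dist s x.2 < ε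
      rw [Real.dist_eq, abs_lt]
      have h1 : x.2 - ε / 2 ≤ s := hs.1
      have h2 : s ≤ x.2 + ε / 2 := hs.2
      constructor <;> linarith
  · refine ⟨?_, ?_, ?_⟩
    · exact Metric.ball_subset_interior_closedBall (Metric.mem_ball_self (by linarith))
    · show x.2 - ε / 2 < x.2
      linarith
    · show x.2 < x.2 + ε / 2
      linarith

theorem p_BIA (hPBC : Pool.TIA.Stmt_PBC) (hBLB : Stmt_BLB) (hDLO : Stmt_DLO) (hDLI : Stmt_DLI) :
    Stmt_BIA := by
  intro 𝔐 _ _ _ _ _ _ 𝒢 n U A F hU hA u v w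
  by_cases hu : u = 0
  · subst hu
    exact BIA_zero U A F v w
  obtain ⟨n', rfl⟩ : ∃ n', n = n' + 1 := by
    cases n with
    | zero => exact absurd (Subsingleton.elim u 0) hu
    | succ n' => exact ⟨n', rfl⟩
  obtain ⟨L, hL⟩ := BIA_iso n' u hu
  have hd : Module.finrank ℝ (Eu n' × ℝ) = Module.finrank ℝ (Eu (n' + 1)) := L.toLinearEquiv.finrank_eq
  have hDif : Dif (L : Eu n' × ℝ → Eu (n' + 1)) (L.symm : Eu (n' + 1) → Eu n' × ℝ) (L ⁻¹' U) U :=
    { open' := hU.preimage L.continuous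
      open_ := hU
      maps := fun x hx => hx
      maps' := fun y hy => by
        show L (L.symm y) ∈ U
        rwa [L.apply_symm_apply]
      left := fun x _ => L.symm_apply_apply x
      right := fun y _ => L.apply_symm_apply y
      smooth := L.contDiff.contDiffOn
      smooth' := L.symm.contDiff.contDiffOn }
  have hA' : Conn 𝒢 (L ⁻¹' U) (pb1 L A) (pb2 L F) :=
    hPBC 𝔐 𝒢 (Eu n' × ℝ) (Eu (n' + 1)) L L.symm (L ⁻¹' U) U A F hd hDif hA
  have hpb : ∀ (x a b : Eu n' × ℝ), pb2 L F x ![a, b] = F (L x) ![L a, L b] := by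
    intro x a b
    unfold pb2
    rw [ContinuousAlternatingMap.compContinuousLinearMap_apply, L.fderiv]
    congr 1
    funext i
    fin_cases i <;> rfl
  have hZ2 : ∀ k, L2loc (L ⁻¹' U) (cyc (pb2 L F) (0, 1) (L.symm v) (L.symm w) k) := by
    have hev : ∀ a b : Eu n' × ℝ, L2loc (L ⁻¹' U) (fun x => pb2 L F x ![a, b]) := by
      intro a b K hK hKU
      exact (ContinuousAlternatingMap.apply ℝ (Eu n' × ℝ) 𝔐 ![a, b]).comp_memLp' (hA'.F2 K hK hKU)
    intro k
    fin_cases k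
    · exact hev _ _
    · exact hev _ _
    · exact hev _ _
  have hbox : Div (L ⁻¹' U) (pb1 L A) ![(0, 1), L.symm v, L.symm w]
      (cyc (pb2 L F) (0, 1) (L.symm v) (L.symm w)) (fun _ => 0) := by
    refine hDLO 𝔐 (Eu n' × ℝ) (L ⁻¹' U) (pb1 L A) 3 _ _ _ hDif.open' hA'.A2 hZ2
      (fun K _ _ => integrableOn_zero) (fun x hx => ?_)
    obtain ⟨K, a, b, hK, hab, hKW, hxK⟩ := BIA_box (L ⁻¹' U) hDif.open' x hx
    refine ⟨interior K ×ˢ Ioo a b, isOpen_interior.prod isOpen_Ioo, hxK,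
      (Set.prod_mono interior_subset Ioo_subset_Icc_self).trans hKW, ?_⟩
    exact hBLB 𝔐 𝒢 (Eu n') (L ⁻¹' U) (pb1 L A) (pb2 L F) K a b hDif.open' hA' hK hab hKW _ _
  have e1 : cyc (pb2 L F) (0, 1) (L.symm v) (L.symm w) = fun k x => cyc F u v w k (L x) := by
    funext k x
    fin_cases k
    · show pb2 L F x ![L.symm v, L.symm w] = F (L x) ![v, w]
      rw [hpb, L.apply_symm_apply, L.apply_symm_apply]
    · show pb2 L F x ![L.symm w, (0, 1)] = F (L x) ![w, u]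
      rw [hpb, L.apply_symm_apply, hL]
    · show pb2 L F x ![(0, 1), L.symm v] = F (L x) ![u, v]
      rw [hpb, L.apply_symm_apply, hL]
  have e2 : (fun k => L ((![(0, 1), L.symm v, L.symm w] : Fin 3 → Eu n' × ℝ) k)) = ![u, v, w] := by
    funext k
    fin_cases k
    · exact hL
    · exact L.apply_symm_apply v
    · exact L.apply_symm_apply w
  rw [e1] at hbox
  have h := (hDLI 𝔐 (Eu n' × ℝ) (Eu (n' + 1)) L U A 3 ![(0, 1), L.symm v, L.symm w]
    (cyc F u v w) (fun _ => 0)).1 hbox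
  rw [e2] at h
  exact h

end Pool.TIW
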