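import Pool.Agent.Work.MP_a1f430_wb.Interface

/-! # Block BLB (helper71) -/

set_option autoImplicit false

namespace Pool.TIW

open Pool.TIA
open MeasureTheory Set Filter Topology
open scoped ContDiff ENNReal

section
variable {E : Type} [NormedAddCommGroup E] [NormedSpace ℝ E] [MeasureSpace E]
variable {𝔐 : Type} [NormedRing 𝔐] [NormedAlgebra ℝ 𝔐] [StarRing 𝔐]

theorem BLB_L2loc_mono {X : Type} [NormedAddCommGroup X] {U W : Set E} {f : E → X} (h : W ⊆ U)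
    (hf : L2loc U f) : L2loc W f := fun K hK hKW => hf K hK (hKW.trans h)

theorem BLB_test_mono {U W : Set E} {φ : E → ℝ} (h : W ⊆ U) (hφ : Test W φ) : Test U φ :=
  ⟨hφ.smooth, hφ.cpt, hφ.sub.trans h⟩

theorem BLB_conn_mono {𝒢 : LieG 𝔐} {U W : Set E} {A : E → E →L[ℝ] 𝔐}
    {F : E → E [⋀^Fin 2]→L[ℝ] 𝔐} (h : W ⊆ U) (hc : Conn 𝒢 U A F) : Conn 𝒢 W A F :=
  ⟨BLB_L2loc_mono h hc.A2, BLB_L2loc_mono h hc.F2,
    ae_mono (Measure.restrict_mono h le_rfl) hc.lie,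
    fun φ hφ u v => hc.curv φ (BLB_test_mono h hφ) u v⟩

/-- `Div` depends only on the values almost everywhere on `W` -/
theorem BLB_congr [BorelSpace E] {W : Set E} (hW : IsOpen W) {A : E → E →L[ℝ] 𝔐} {m : ℕ}
    {v : Fin m → E}
    {Z Z' : Fin m → E → 𝔐} {R R' : E → 𝔐}
    (h : ∀ᵐ x ∂(volume.restrict W), (∀ k, Z k x = Z' k x) ∧ R x = R' x)
    (hd : Div W A v Z R) : Div W A v Z' R' := by
  intro φ hφ
  have h1 := hd φ hφ
  have h2 : ∀ᵐ x, x ∈ W → (∀ k, Z k x = Z' k x) ∧ R x = R' x :=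
    (ae_restrict_iff' hW.measurableSet).1 h
  have h3 : ∀ x, x ∉ W → φ x = 0 ∧ fderiv ℝ φ x = 0 := by
    intro x hx
    have hx' : x ∉ tsupport φ := fun hx' => hx (hφ.sub hx')
    refine ⟨image_eq_zero_of_notMem_tsupport hx', ?_⟩
    have h4 : x ∉ tsupport (fderiv ℝ φ) := fun h5 => hx' (tsupport_fderiv_subset ℝ h5)
    exact image_eq_zero_of_notMem_tsupport h4
  have h5 : ∫ x, ∑ k, fderiv ℝ φ x (v k) • Z' k x = ∫ x, ∑ k, fderiv ℝ φ x (v k) • Z k x := by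
    refine integral_congr_ae ?_
    filter_upwards [h2] with x hx
    by_cases hxW : x ∈ W
    · refine Finset.sum_congr rfl fun k _ => ?_
      rw [(hx hxW).1 k]
    · refine Finset.sum_congr rfl fun k _ => ?_
      rw [(h3 x hxW).2]
      simp
  have h6 : ∫ x, φ x • ((∑ k, (A x (v k) * Z' k x - Z' k x * A x (v k))) - R' x) =
      ∫ x, φ x • ((∑ k, (A x (v k) * Z k x - Z k x * A x (v k))) - R x) := by
    refine integral_congr_ae ?_
    filter_upwards [h2] with x hx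
    by_cases hxW : x ∈ W
    · obtain ⟨h7, h8⟩ := hx hxW
      simp only [h7, h8]
    · rw [(h3 x hxW).1]
      simp
  rw [h5, h6]
  exact h1

end

theorem p_BLB (hKT : Stmt_KT4) (hCG : Stmt_CG2) (hGIN : Stmt_GIN) (hDCV : Stmt_DCV)
    (hBIT : Stmt_BIT) : Stmt_BLB := by
  intro 𝔐 _ _ _ _ _ _ 𝒢 V _ _ _ _ _ _ W A F K a b hW hc hK hab hKW u v
  set W' : Set (V × ℝ) := interior K ×ˢ Ioo a b with hW'
  have hop : IsOpen W' := isOpen_interior.prod isOpen_Ioo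
  have hsub : W' ⊆ W := (Set.prod_mono interior_subset Ioo_subset_Icc_self).trans hKW
  have hc' : Conn 𝒢 W' A F := BLB_conn_mono hsub hc
  obtain ⟨A', g, dg, hgau, hA0⟩ := hKT 𝔐 𝒢 V W A F K a b hW hc hK hab hKW
  have hc2 : Conn 𝒢 W' A' (adF g F) := hCG 𝔐 𝒢 (V × ℝ) W' A A' F g dg hop hc' hgau
  have hd := hBIT 𝔐 𝒢 (V × ℝ) W' A' (adF g F) (0, 1) hop hc2 hA0 u v
  obtain ⟨dg', hgau'⟩ := hGIN 𝔐 𝒢 (V × ℝ) W' A A' g dg hop hc'.A2 hc'.lie hgau
  have hZ : ∀ k, L2loc W' (cyc (adF g F) (0, 1) u v k) := by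
    intro k K' hK' hK'W
    have h1 := hc2.F2 K' hK' hK'W
    fin_cases k
    · exact (ContinuousAlternatingMap.apply ℝ (V × ℝ) 𝔐 ![u, v]).comp_memLp' h1
    · exact (ContinuousAlternatingMap.apply ℝ (V × ℝ) 𝔐 ![v, (0, 1)]).comp_memLp' h1
    · exact (ContinuousAlternatingMap.apply ℝ (V × ℝ) 𝔐 ![(0, 1), u]).comp_memLp' h1
  have h0 : L1loc W' (fun _ : V × ℝ => (0 : 𝔐)) := fun _ _ _ => integrableOn_zero
  have h3 := hDCV 𝔐 𝒢 (V × ℝ) W' A' A (fun x => star (g x)) dg' 3 ![(0, 1), u, v]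
    (cyc (adF g F) (0, 1) u v) (fun _ => 0) hop hc2.A2 hc2.lie hgau' hZ h0 hd
  refine BLB_congr hop ?_ h3
  filter_upwards [hgau.inG] with x hx
  obtain ⟨hu1, hu2⟩ := 𝒢.unitary _ hx
  have key : ∀ X : 𝔐, star (star (g x)) * (star (g x) * (X * g x)) * star (g x) = X := by
    intro X
    rw [star_star]
    calc g x * (star (g x) * (X * g x)) * star (g x)
        = (g x * star (g x)) * X * (g x * star (g x)) := by noncomm_ring
      _ = X := by rw [hu2, one_mul, mul_one]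
  refine ⟨?_, by simp⟩
  intro k
  fin_cases k
  · exact key (F x ![u, v])
  · exact key (F x ![v, (0, 1)])
  · exact key (F x ![(0, 1), u])

end Pool.TIW
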