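import Pool.Agent.Work.MP_a1f430_wb.Interface
import Pool.Agent.Work.MP_a1f430_ti.B_CLC

/-! Block CG1 (helper98): the curvature of a gauge transform in the sense of distributions. -/

set_option autoImplicit false

namespace Pool.TIW

open Pool.TIA
open MeasureTheory Set Filter Topology
open scoped ContDiff ENNReal

section conv

variable {α 𝔐 : Type} [MeasurableSpace α] [NormedRing 𝔐]

/-- `f j → f0` in `L¹`. -/
structure CG1_v (μ : Measure α) (f : ℕ → α → 𝔐) (f0 : α → 𝔐) : Prop where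
  i : ∀ j, Integrable (f j) μ
  i0 : Integrable f0 μ
  t : Tendsto (fun j => eLpNorm (fun x => f j x - f0 x) 1 μ) atTop (𝓝 0)

/-- `f j → f0` in `L²`. -/
structure CG1_w (μ : Measure α) (f : ℕ → α → 𝔐) (f0 : α → 𝔐) : Prop where
  i : ∀ j, MemLp (f j) 2 μ
  i0 : MemLp f0 2 μ
  t : Tendsto (fun j => eLpNorm (fun x => f j x - f0 x) 2 μ) atTop (𝓝 0)

/-- bounded, and convergent almost everywhere -/
structure CG1_b (μ : Measure α) (a : ℕ → α → 𝔐) (a0 : α → 𝔐) : Prop where
  m : ∀ j, AEStronglyMeasurable (a j) μ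
  m0 : AEStronglyMeasurable a0 μ
  b : ∀ j x, ‖a j x‖ ≤ 1
  b0 : ∀ᵐ x ∂μ, ‖a0 x‖ ≤ 1
  t : ∀ᵐ x ∂μ, Tendsto (fun j => a j x) atTop (𝓝 (a0 x))

theorem CG1_add {μ : Measure α} {f g : ℕ → α → 𝔐} {f0 g0 : α → 𝔐} (hf : CG1_v μ f f0)
    (hg : CG1_v μ g g0) : CG1_v μ (fun j x => f j x + g j x) (fun x => f0 x + g0 x) := by
  refine ⟨fun j => (hf.i j).add (hg.i j), hf.i0.add hg.i0, ?_⟩
  have h := hf.t.add hg.t
  rw [add_zero] at h
  refine tendsto_of_tendsto_of_tendsto_of_le_of_le tendsto_const_nhds h (fun _ => zero_le)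
    fun j => ?_
  have e : (fun x => f j x + g j x - (f0 x + g0 x)) =
      (fun x => f j x - f0 x) + fun x => g j x - g0 x := by
    funext x
    simp only [Pi.add_apply]
    abel
  rw [e]
  exact eLpNorm_add_le ((hf.i j).sub hf.i0).1 ((hg.i j).sub hg.i0).1 le_rfl

theorem CG1_sub {μ : Measure α} {f g : ℕ → α → 𝔐} {f0 g0 : α → 𝔐} (hf : CG1_v μ f f0)
    (hg : CG1_v μ g g0) : CG1_v μ (fun j x => f j x - g j x) (fun x => f0 x - g0 x) := by
  refine ⟨fun j => (hf.i j).sub (hg.i j), hf.i0.sub hg.i0, ?_⟩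
  have h := hf.t.add hg.t
  rw [add_zero] at h
  refine tendsto_of_tendsto_of_tendsto_of_le_of_le tendsto_const_nhds h (fun _ => zero_le)
    fun j => ?_
  have e : (fun x => f j x - g j x - (f0 x - g0 x)) =
      (fun x => f j x - f0 x) - fun x => g j x - g0 x := by
    funext x
    simp only [Pi.sub_apply]
    abel
  rw [e]
  exact eLpNorm_sub_le ((hf.i j).sub hf.i0).1 ((hg.i j).sub hg.i0).1 le_rfl

theorem CG1_mul {μ : Measure α} {f g : ℕ → α → 𝔐} {f0 g0 : α → 𝔐} (hf : CG1_w μ f f0)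
    (hg : CG1_w μ g g0) : CG1_v μ (fun j x => f j x * g j x) (fun x => f0 x * g0 x) :=
  ⟨fun j => (hf.i j).integrable_mul (hg.i j), hf.i0.integrable_mul hg.i0,
    CLC_prod μ f g f0 g0 hf.i hg.i hf.i0 hg.i0 hf.t hg.t⟩

theorem CG1_one {μ : Measure α} [IsFiniteMeasure μ] {f : ℕ → α → 𝔐} {f0 : α → 𝔐}
    (hf : CG1_w μ f f0) : CG1_v μ f f0 := by
  refine ⟨fun j => (hf.i j).integrable (by norm_num), hf.i0.integrable (by norm_num), ?_⟩
  have h1 : ∀ j, eLpNorm (fun x => f j x - f0 x) 1 μ ≤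
      eLpNorm (fun x => f j x - f0 x) 2 μ * (μ univ) ^ (1 / (1 : ℝ≥0∞).toReal -
      1 / (2 : ℝ≥0∞).toReal) := fun j =>
    eLpNorm_le_eLpNorm_mul_rpow_measure_univ (by norm_num) ((hf.i j).sub hf.i0).1
  have h2 := ENNReal.Tendsto.mul_const hf.t (b := (μ univ) ^ (1 / (1 : ℝ≥0∞).toReal -
      1 / (2 : ℝ≥0∞).toReal)) (Or.inr (ENNReal.rpow_ne_top_of_nonneg (by norm_num)
        (measure_ne_top μ univ)))
  rw [zero_mul] at h2
  exact tendsto_of_tendsto_of_tendsto_of_le_of_le tendsto_const_nhds h2 (fun _ => zero_le) h1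

theorem CG1_dom {μ : Measure α} {F : ℕ → α → 𝔐} {F0 f0 : α → 𝔐} (hf0 : Integrable f0 μ)
    (hF : ∀ j, AEStronglyMeasurable (F j) μ) (hb : ∀ j, ∀ᵐ x ∂μ, ‖F j x‖ ≤ ‖f0 x‖)
    (ht : ∀ᵐ x ∂μ, Tendsto (fun j => F j x) atTop (𝓝 (F0 x))) :
    Tendsto (fun j => eLpNorm (fun x => F j x - F0 x) 1 μ) atTop (𝓝 0) := by
  have h := tendsto_lintegral_norm_of_dominated_convergence (F := F) (f := F0)
    (bound := fun x => ‖f0 x‖) hF hf0.norm.2 hb ht
  refine h.congr fun j => ?_
  rw [eLpNorm_one_eq_lintegral_enorm]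
  refine lintegral_congr fun x => ?_
  rw [ofReal_norm]

theorem CG1_left {μ : Measure α} {a f : ℕ → α → 𝔐} {a0 f0 : α → 𝔐} (ha : CG1_b μ a a0)
    (hf : CG1_v μ f f0) : CG1_v μ (fun j x => a j x * f j x) (fun x => a0 x * f0 x) := by
  have hi0 : Integrable (fun x => a0 x * f0 x) μ := by
    refine Integrable.mono hf.i0 (ha.m0.mul hf.i0.1) ?_
    filter_upwards [ha.b0] with x hx
    exact (norm_mul_le _ _).trans (mul_le_of_le_one_left (norm_nonneg _) hx)
  have hi : ∀ j, Integrable (fun x => a j x * f j x) μ := fun j => by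
    refine Integrable.mono (hf.i j) ((ha.m j).mul (hf.i j).1) (Eventually.of_forall fun x => ?_)
    exact (norm_mul_le _ _).trans (mul_le_of_le_one_left (norm_nonneg _) (ha.b j x))
  have hi' : ∀ j, AEStronglyMeasurable (fun x => a j x * f0 x) μ := fun j =>
    (ha.m j).mul hf.i0.1
  refine ⟨hi, hi0, ?_⟩
  have h1 : Tendsto (fun j => eLpNorm (fun x => a j x * f0 x - a0 x * f0 x) 1 μ) atTop (𝓝 0) := by
    refine CG1_dom (F := fun j x => a j x * f0 x) (F0 := fun x => a0 x * f0 x) hf.i0 hi'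
      (fun j => Eventually.of_forall fun x =>
      (norm_mul_le _ _).trans (mul_le_of_le_one_left (norm_nonneg _) (ha.b j x))) ?_
    filter_upwards [ha.t] with x hx
    exact hx.mul_const _
  have h := hf.t.add h1
  rw [add_zero] at h
  refine tendsto_of_tendsto_of_tendsto_of_le_of_le tendsto_const_nhds h (fun _ => zero_le)
    fun j => ?_
  have e : (fun x => a j x * f j x - a0 x * f0 x) =
      (fun x => a j x * (f j x - f0 x)) + fun x => a j x * f0 x - a0 x * f0 x := by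
    funext x
    simp only [Pi.add_apply]
    noncomm_ring
  rw [e]
  refine (eLpNorm_add_le ((ha.m j).mul ((hf.i j).sub hf.i0).1) ((hi' j).sub hi0.1)
    le_rfl).trans (add_le_add ?_ le_rfl)
  refine eLpNorm_mono fun x => ?_
  exact (norm_mul_le _ _).trans (mul_le_of_le_one_left (norm_nonneg _) (ha.b j x))

theorem CG1_right {μ : Measure α} {a f : ℕ → α → 𝔐} {a0 f0 : α → 𝔐} (ha : CG1_b μ a a0)
    (hf : CG1_v μ f f0) : CG1_v μ (fun j x => f j x * a j x) (fun x => f0 x * a0 x) := by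
  have hi0 : Integrable (fun x => f0 x * a0 x) μ := by
    refine Integrable.mono hf.i0 (hf.i0.1.mul ha.m0) ?_
    filter_upwards [ha.b0] with x hx
    exact (norm_mul_le _ _).trans (mul_le_of_le_one_right (norm_nonneg _) hx)
  have hi : ∀ j, Integrable (fun x => f j x * a j x) μ := fun j => by
    refine Integrable.mono (hf.i j) ((hf.i j).1.mul (ha.m j)) (Eventually.of_forall fun x => ?_)
    exact (norm_mul_le _ _).trans (mul_le_of_le_one_right (norm_nonneg _) (ha.b j x))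
  have hi' : ∀ j, AEStronglyMeasurable (fun x => f0 x * a j x) μ := fun j =>
    hf.i0.1.mul (ha.m j)
  refine ⟨hi, hi0, ?_⟩
  have h1 : Tendsto (fun j => eLpNorm (fun x => f0 x * a j x - f0 x * a0 x) 1 μ) atTop (𝓝 0) := by
    refine CG1_dom (F := fun j x => f0 x * a j x) (F0 := fun x => f0 x * a0 x) hf.i0 hi'
      (fun j => Eventually.of_forall fun x =>
      (norm_mul_le _ _).trans (mul_le_of_le_one_right (norm_nonneg _) (ha.b j x))) ?_
    filter_upwards [ha.t] with x hx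
    exact hx.const_mul _
  have h := hf.t.add h1
  rw [add_zero] at h
  refine tendsto_of_tendsto_of_tendsto_of_le_of_le tendsto_const_nhds h (fun _ => zero_le)
    fun j => ?_
  have e : (fun x => f j x * a j x - f0 x * a0 x) =
      (fun x => (f j x - f0 x) * a j x) + fun x => f0 x * a j x - f0 x * a0 x := by
    funext x
    simp only [Pi.add_apply]
    noncomm_ring
  rw [e]
  refine (eLpNorm_add_le (((hf.i j).sub hf.i0).1.mul (ha.m j)) ((hi' j).sub hi0.1)
    le_rfl).trans (add_le_add ?_ le_rfl)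
  refine eLpNorm_mono fun x => ?_
  exact (norm_mul_le _ _).trans (mul_le_of_le_one_right (norm_nonneg _) (ha.b j x))

theorem CG1_bstar [StarRing 𝔐] [CStarRing 𝔐] {μ : Measure α} {a : ℕ → α → 𝔐} {a0 : α → 𝔐}
    (ha : CG1_b μ a a0) : CG1_b μ (fun j x => star (a j x)) (fun x => star (a0 x)) := by
  refine ⟨fun j => continuous_star.comp_aestronglyMeasurable (ha.m j),
    continuous_star.comp_aestronglyMeasurable ha.m0, fun j x => ?_, ?_, ?_⟩
  · rw [norm_star]
    exact ha.b j x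
  · filter_upwards [ha.b0] with x hx
    rw [norm_star]
    exact hx
  · filter_upwards [ha.t] with x hx
    exact hx.star

theorem CG1_wstar [StarRing 𝔐] [CStarRing 𝔐] {μ : Measure α} {a : ℕ → α → 𝔐} {a0 : α → 𝔐}
    (ha : CG1_w μ a a0) : CG1_w μ (fun j x => star (a j x)) (fun x => star (a0 x)) := by
  refine ⟨fun j => ?_, ?_, ?_⟩
  · refine MemLp.of_le (ha.i j) (continuous_star.comp_aestronglyMeasurable (ha.i j).1)
      (Eventually.of_forall fun x => ?_)
    rw [norm_star]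
  · refine MemLp.of_le ha.i0 (continuous_star.comp_aestronglyMeasurable ha.i0.1)
      (Eventually.of_forall fun x => ?_)
    rw [norm_star]
  · refine ha.t.congr fun j => ?_
    refine eLpNorm_congr_norm_ae (Eventually.of_forall fun x => ?_)
    rw [← star_sub, norm_star]

end conv

section smooth

variable {E 𝔐 : Type} [NormedAddCommGroup E] [NormedSpace ℝ E] [NormedRing 𝔐] [NormedAlgebra ℝ 𝔐]
  [StarRing 𝔐] [CStarRing 𝔐] [StarModule ℝ 𝔐]

/-- The gauge transform of a smooth form, in the direction `v`. -/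
noncomputable def CG1_C (G : E → 𝔐) (B : E → E →L[ℝ] 𝔐) (v x : E) : 𝔐 :=
  star (G x) * fderiv ℝ G x v + star (G x) * B x v * G x

theorem CG1_Cs (G : E → 𝔐) (B : E → E →L[ℝ] 𝔐) (hG : ContDiff ℝ ∞ G) (hB : ContDiff ℝ ∞ B)
    (v : E) : ContDiff ℝ ∞ (CG1_C G B v) := by
  have hs : ContDiff ℝ ∞ (fun x => star (G x)) := (starL' ℝ : 𝔐 ≃L[ℝ] 𝔐).contDiff.comp hG
  have hd : ContDiff ℝ ∞ (fun x => fderiv ℝ G x v) :=
    (hG.fderiv_right (by simp)).clm_apply contDiff_const
  exact (hs.mul hd).add ((hs.mul (hB.clm_apply contDiff_const)).mul hG)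

theorem CG1_fd (G : E → 𝔐) (B : E → E →L[ℝ] 𝔐) (hG : ContDiff ℝ ∞ G) (hB : ContDiff ℝ ∞ B)
    (v u x : E) : fderiv ℝ (CG1_C G B v) x u =
      star (fderiv ℝ G x u) * fderiv ℝ G x v + star (G x) * fderiv ℝ (fderiv ℝ G) x u v +
      (star (fderiv ℝ G x u) * B x v * G x + star (G x) * fderiv ℝ B x u v * G x +
        star (G x) * B x v * fderiv ℝ G x u) := by
  have h1 : HasFDerivAt G (fderiv ℝ G x) x := (hG.differentiable (by simp) x).hasFDerivAt
  have h2 : HasFDerivAt (fun y => star (G y)) _ x := h1.star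
  have hdG : ContDiff ℝ ∞ (fderiv ℝ G) := hG.fderiv_right (by simp)
  have h3 : HasFDerivAt (fderiv ℝ G) (fderiv ℝ (fderiv ℝ G) x) x :=
    (hdG.differentiable (by simp) x).hasFDerivAt
  have h4 : HasFDerivAt (fun y => fderiv ℝ G y v) _ x :=
    (ContinuousLinearMap.apply ℝ 𝔐 v).hasFDerivAt.comp x h3
  have h5 : HasFDerivAt B (fderiv ℝ B x) x := (hB.differentiable (by simp) x).hasFDerivAt
  have h6 : HasFDerivAt (fun y => B y v) _ x :=
    (ContinuousLinearMap.apply ℝ 𝔐 v).hasFDerivAt.comp x h5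
  have h7 := (h2.mul' h4).add ((h2.mul' h6).mul' h1)
  have h8 : fderiv ℝ (CG1_C G B v) x = _ := h7.fderiv
  rw [h8]
  simp only [add_apply, smul_apply, Pi.mul_apply, ContinuousLinearMap.comp_apply, ContinuousLinearMap.apply_apply,
    ContinuousLinearEquiv.coe_coe, starL'_apply, MulOpposite.smul_eq_mul_unop,
    MulOpposite.unop_op, smul_eq_mul]
  noncomm_ring

theorem CG1_id (G : E → 𝔐) (B : E → E →L[ℝ] 𝔐) (hG : ContDiff ℝ ∞ G) (hB : ContDiff ℝ ∞ B)
    (u v x : E) :
    star (G x) * (cur B x u v - (B x u * B x v - B x v * B x u)) * G x +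
      star (fderiv ℝ G x u) * (fderiv ℝ G x v + B x v * G x) -
      star (fderiv ℝ G x v) * (fderiv ℝ G x u + B x u * G x) +
      star (G x) * (B x v * fderiv ℝ G x u) - star (G x) * (B x u * fderiv ℝ G x v) =
    fderiv ℝ (CG1_C G B v) x u - fderiv ℝ (CG1_C G B u) x v := by
  have hsym : fderiv ℝ (fderiv ℝ G) x u v = fderiv ℝ (fderiv ℝ G) x v u := by
    have h : IsSymmSndFDerivAt ℝ G x :=
      (hG.contDiffAt (x := x)).isSymmSndFDerivAt
        (by
          rw [minSmoothness_of_isRCLikeNormedField]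
          exact WithTop.coe_le_coe.2 (le_top : (2 : ℕ∞) ≤ ⊤))
    exact h u v
  rw [CG1_fd G B hG hB v u x, CG1_fd G B hG hB u v x, hsym, cur]
  noncomm_ring

end smooth

theorem p_CG1 (hAPG : Pool.TIA.Stmt_APG) (hAPC : Pool.TIA.Stmt_APC) : Stmt_CG1 := by
  intro 𝔐 _ _ _ _ _ _ 𝒢 E _ _ _ _ _ _ W A F g dg hW hC hg hdg hwd hgb φ hφ u v
  have hKc : IsCompact (tsupport φ) := hφ.cpt
  obtain ⟨G', hG's, hG'b, hG'1, hG'2⟩ := hAPG E 𝔐 W g dg 1 hW hg hdg hwd hgb zero_le_one
    (tsupport φ) hKc hφ.sub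
  obtain ⟨B', hB's, -, -, hB'1, hB'2⟩ := hAPC 𝔐 𝒢 E W A F hW hC (tsupport φ) hKc hφ.sub
  set K := tsupport φ with hKdef
  set μ : Measure E := volume.restrict K with hμ
  have hfin : IsFiniteMeasure μ := ⟨by rw [hμ]; simpa using hKc.measure_lt_top⟩
  have hφc : Continuous φ := hφ.smooth.continuous
  have hdφ : Continuous (fderiv ℝ φ) := hφ.smooth.continuous_fderiv (by simp)
  have h0 : ∀ x, x ∉ K → φ x = 0 := fun x hx => image_eq_zero_of_notMem_tsupport hx
  have h0' : ∀ x, x ∉ K → fderiv ℝ φ x = 0 := fun x hx => by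
    have := support_fderiv_subset ℝ (f := φ)
    by_contra h
    exact hx (this h)
  obtain ⟨C0, hC0⟩ := hφ.cpt.exists_bound_of_continuous hφc
  obtain ⟨C1, hC1⟩ := (hφ.cpt.fderiv ℝ).exists_bound_of_continuous hdφ
  have hC1' : ∀ w x, ‖fderiv ℝ φ x w‖ ≤ C1 * ‖w‖ := fun w x =>
    ((fderiv ℝ φ x).le_opNorm w).trans (mul_le_mul_of_nonneg_right (hC1 x) (norm_nonneg _))
  have hgK : MemLp g 2 μ := hg K hKc hφ.sub
  have hdgK : MemLp dg 2 μ := hdg K hKc hφ.sub
  have hAK : MemLp A 2 μ := hC.A2 K hKc hφ.sub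
  have hFK : MemLp F 2 μ := hC.F2 K hKc hφ.sub
  have hgb' : ∀ᵐ x ∂μ, ‖g x‖ ≤ 1 := ae_restrict_of_ae_restrict_of_subset hφ.sub hgb
  -- a subsequence
  obtain ⟨ns, hns, hae⟩ := (tendstoInMeasure_of_tendsto_eLpNorm (by norm_num)
    (fun j => (hG's j).continuous.aestronglyMeasurable) hgK.1 hG'1).exists_seq_tendsto_ae
  obtain ⟨G, hGdef⟩ : ∃ G : ℕ → E → 𝔐, G = fun j => G' (ns j) := ⟨_, rfl⟩
  obtain ⟨B, hBdef⟩ : ∃ B : ℕ → E → E →L[ℝ] 𝔐, B = fun j => B' (ns j) := ⟨_, rfl⟩
  have hGs : ∀ j, ContDiff ℝ ∞ (G j) := fun j => by rw [hGdef]; exact hG's _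
  have hBs : ∀ j, ContDiff ℝ ∞ (B j) := fun j => by rw [hBdef]; exact hB's _
  have hGb : ∀ j x, ‖G j x‖ ≤ 1 := fun j x => by rw [hGdef]; exact hG'b _ _
  have hG2 : Tendsto (fun j => eLpNorm (fun x => fderiv ℝ (G j) x - dg x) 2 μ) atTop (𝓝 0) := by
    rw [hGdef]; exact hG'2.comp hns.tendsto_atTop
  have hB1 : Tendsto (fun j => eLpNorm (fun x => B j x - A x) 2 μ) atTop (𝓝 0) := by
    rw [hBdef]; exact hB'1.comp hns.tendsto_atTop
  have hB2 : ∀ u v, Tendsto (fun j => eLpNorm (fun x => cur (B j) x u v - F x ![u, v]) 1 μ)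
      atTop (𝓝 0) := fun u v => by
    rw [hBdef]; exact (hB'2 u v).comp hns.tendsto_atTop
  have hGt : ∀ᵐ x ∂μ, Tendsto (fun j => G j x) atTop (𝓝 (g x)) := by
    rw [hGdef]; exact hae
  clear hGdef hBdef hae hG'1 hG'2 hB'1 hB'2 hG's hB's hG'b
  -- the factors
  have mem : ∀ f : E → 𝔐, Continuous f → MemLp f 2 μ := fun f hf => by
    obtain ⟨C, hC⟩ := hKc.exists_bound_of_continuousOn hf.continuousOn
    exact MemLp.of_bound hf.aestronglyMeasurable C ((ae_restrict_mem hKc.measurableSet).mono hC)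
  have bG : CG1_b μ G g := ⟨fun j => (hGs j).continuous.aestronglyMeasurable, hgK.1, hGb, hgb', hGt⟩
  have bGs := CG1_bstar bG
  have lin : ∀ (T : ℕ → E → E →L[ℝ] 𝔐) (T0 : E → E →L[ℝ] 𝔐), (∀ j, Continuous (T j)) →
      MemLp T0 2 μ → Tendsto (fun j => eLpNorm (fun x => T j x - T0 x) 2 μ) atTop (𝓝 0) →
      ∀ w, CG1_w μ (fun j x => T j x w) (fun x => T0 x w) := by
    intro T T0 hT hT0 ht w
    refine ⟨fun j => mem _ ((hT j).clm_apply continuous_const),
      (ContinuousLinearMap.apply ℝ 𝔐 w).comp_memLp' hT0, ?_⟩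
    have h1 : ∀ j, eLpNorm (fun x => T j x w - T0 x w) 2 μ ≤
        ENNReal.ofReal ‖w‖ * eLpNorm (fun x => T j x - T0 x) 2 μ := by
      intro j
      refine eLpNorm_le_mul_eLpNorm_of_ae_le_mul (Eventually.of_forall fun x => ?_) 2
      have := (T j x - T0 x).le_opNorm w
      rw [mul_comm] at this
      exact this
    have h2 := ENNReal.Tendsto.const_mul ht (a := ENNReal.ofReal ‖w‖)
      (Or.inr ENNReal.ofReal_ne_top)
    rw [mul_zero] at h2
    exact tendsto_of_tendsto_of_tendsto_of_le_of_le tendsto_const_nhds h2 (fun _ => zero_le) h1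
  have wA := lin B A (fun j => (hBs j).continuous) hAK hB1
  have wD := lin (fun j => fderiv ℝ (G j)) dg (fun j => (hGs j).continuous_fderiv (by simp)) hdgK
    hG2
  have hcurc : ∀ j, Continuous (fun x => cur (B j) x u v) := by
    intro j
    have hBc := (hBs j).continuous
    have hBd : Continuous (fderiv ℝ (B j)) := (hBs j).continuous_fderiv (by simp)
    have hBw' : ∀ w, Continuous (fun x => B j x w) := fun w => hBc.clm_apply continuous_const
    have hBd' : ∀ z w, Continuous (fun x => fderiv ℝ (B j) x z w) := fun z w =>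
      (hBd.clm_apply continuous_const).clm_apply continuous_const
    exact (((hBd' u v).sub (hBd' v u)).add ((hBw' u).mul (hBw' v))).sub ((hBw' v).mul (hBw' u))
  have vF : CG1_v μ (fun j x => cur (B j) x u v) (fun x => F x ![u, v]) :=
    ⟨fun j => (mem _ (hcurc j)).integrable (by norm_num),
      ((ContinuousAlternatingMap.apply ℝ E 𝔐 ![u, v]).comp_memLp' hFK).integrable (by norm_num),
      hB2 u v⟩
  -- the left side
  have t1 := CG1_right bG (CG1_left bGs (CG1_sub vF (CG1_sub (CG1_mul (wA u) (wA v))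
    (CG1_mul (wA v) (wA u)))))
  have cr : ∀ a b : E, CG1_v μ (fun j x => star (fderiv ℝ (G j) x a) *
      (fderiv ℝ (G j) x b + B j x b * G j x)) (fun x => star (dg x a) *
      (dg x b + A x b * g x)) := by
    intro a b
    have s1 := CG1_add (CG1_mul (CG1_wstar (wD a)) (wD b))
      (CG1_right bG (CG1_mul (CG1_wstar (wD a)) (wA b)))
    have e1 : (fun (j : ℕ) x => star (fderiv ℝ (G j) x a) * fderiv ℝ (G j) x b +
        star (fderiv ℝ (G j) x a) * B j x b * G j x) = fun j x => star (fderiv ℝ (G j) x a) *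
        (fderiv ℝ (G j) x b + B j x b * G j x) := by
      funext j x
      noncomm_ring
    have e2 : (fun x => star (dg x a) * dg x b + star (dg x a) * A x b * g x) =
        fun x => star (dg x a) * (dg x b + A x b * g x) := by
      funext x
      noncomm_ring
    rw [← e1, ← e2]
    exact s1
  have t4 : ∀ a b : E, CG1_v μ (fun j x => star (G j x) * (B j x a * fderiv ℝ (G j) x b))
      (fun x => star (g x) * (A x a * dg x b)) := fun a b =>
    CG1_left bGs (CG1_mul (wA a) (wD b))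
  have tL := CG1_sub (CG1_add (CG1_sub (CG1_add t1 (cr u v)) (cr v u)) (t4 v u)) (t4 u v)
  -- the right side
  have tR : ∀ w : E, CG1_v μ (fun j x => CG1_C (G j) (B j) w x)
      (fun x => star (g x) * dg x w + star (g x) * A x w * g x) := fun w =>
    CG1_add (CG1_left bGs (CG1_one (wD w))) (CG1_right bG (CG1_left bGs (CG1_one (wA w))))
  have L1 := CLC_lim μ φ C0 hφc.aestronglyMeasurable hC0 _ _ tL.i tL.i0 tL.t
  have L2 : ∀ a w : E, Tendsto (fun j => ∫ x, fderiv ℝ φ x a • CG1_C (G j) (B j) w x ∂μ) atTop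
      (𝓝 (∫ x, fderiv ℝ φ x a • (star (g x) * dg x w + star (g x) * A x w * g x) ∂μ)) :=
    fun a w => CLC_lim μ (fun x => fderiv ℝ φ x a) (C1 * ‖a‖)
      (hdφ.clm_apply continuous_const).aestronglyMeasurable (hC1' a) _ _ (tR w).i (tR w).i0
      (tR w).t
  have jR : ∀ a w : E, Integrable (fun x => fderiv ℝ φ x a •
      (star (g x) * dg x w + star (g x) * A x w * g x)) μ := fun a w =>
    (tR w).i0.bdd_smul (C1 * ‖a‖) (hdφ.clm_apply continuous_const).aestronglyMeasurable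
      (Eventually.of_forall (hC1' a))
  -- the identity for the approximations
  have hid : ∀ j, ∫ x, φ x • (star (G j x) * (cur (B j) x u v -
      (B j x u * B j x v - B j x v * B j x u)) * G j x +
      star (fderiv ℝ (G j) x u) * (fderiv ℝ (G j) x v + B j x v * G j x) -
      star (fderiv ℝ (G j) x v) * (fderiv ℝ (G j) x u + B j x u * G j x) +
      star (G j x) * (B j x v * fderiv ℝ (G j) x u) -
      star (G j x) * (B j x u * fderiv ℝ (G j) x v)) ∂μ =
      -(∫ x, fderiv ℝ φ x u • CG1_C (G j) (B j) v x ∂μ -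
        ∫ x, fderiv ℝ φ x v • CG1_C (G j) (B j) u x ∂μ) := by
    intro j
    have hs : ∀ w, ContDiff ℝ ∞ (CG1_C (G j) (B j) w) := fun w =>
      CG1_Cs (G j) (B j) (hGs j) (hBs j) w
    have e1 : ∀ a w, ∫ x, φ x • fderiv ℝ (CG1_C (G j) (B j) w) x a ∂μ =
        -∫ x, fderiv ℝ φ x a • CG1_C (G j) (B j) w x ∂μ := fun a w =>
      CLC_ibp φ hφ.smooth hφ.cpt univ isOpen_univ (subset_univ _) (CG1_C (G j) (B j) w)
        (((hs w).of_le (by exact_mod_cast le_top)).contDiffOn) a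
    have i1 : ∀ a w, Integrable (fun x => φ x • fderiv ℝ (CG1_C (G j) (B j) w) x a) μ :=
      fun a w => (mem _ (hφc.smul (((hs w).continuous_fderiv (by simp)).clm_apply
        continuous_const))).integrable (by norm_num)
    have e2 : (fun x => φ x • (star (G j x) * (cur (B j) x u v -
      (B j x u * B j x v - B j x v * B j x u)) * G j x +
      star (fderiv ℝ (G j) x u) * (fderiv ℝ (G j) x v + B j x v * G j x) -
      star (fderiv ℝ (G j) x v) * (fderiv ℝ (G j) x u + B j x u * G j x) +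
      star (G j x) * (B j x v * fderiv ℝ (G j) x u) -
      star (G j x) * (B j x u * fderiv ℝ (G j) x v))) = fun x =>
        φ x • fderiv ℝ (CG1_C (G j) (B j) v) x u - φ x • fderiv ℝ (CG1_C (G j) (B j) u) x v := by
      funext x
      rw [CG1_id (G j) (B j) (hGs j) (hBs j) u v x, smul_sub]
    rw [e2, integral_sub (i1 u v) (i1 v u), e1, e1]
    abel
  have L3 := ((L2 u v).sub (L2 v u)).neg
  have L4 := tendsto_nhds_unique L1 (L3.congr fun j => (hid j).symm)
  rw [← integral_sub (jR u v) (jR v u)] at L4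
  rw [hμ, setIntegral_eq_integral_of_forall_compl_eq_zero
      (fun x hx => by rw [h0 x hx, zero_smul]),
    setIntegral_eq_integral_of_forall_compl_eq_zero
      (fun x hx => by rw [h0' x hx]; simp)] at L4
  exact L4

end Pool.TIW
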