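import Pool.Agent.Work.MP_a1f430_wb.Interface

/-! # Block CG2 -/

set_option autoImplicit false

namespace Pool.TIW

open Pool.TIA
open MeasureTheory Set Filter Topology
open scoped ContDiff ENNReal

/-- a test function times a locally integrable function is integrable -/
theorem CG2_int {E X : Type} [NormedAddCommGroup E] [NormedSpace ℝ E] [FiniteDimensional ℝ E]
    [MeasureSpace E] [BorelSpace E] [(volume : Measure E).IsAddHaarMeasure]
    [NormedAddCommGroup X] [NormedSpace ℝ X] {W : Set E} {φ : E → ℝ} (hφ : Test W φ)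
    {h : E → X} (hh : L1loc W h) : Integrable (fun x => φ x • h x) := by
  have hK : IsCompact (tsupport φ) := hφ.cpt
  have h1 : IntegrableOn (fun x => φ x • h x) (tsupport φ) volume :=
    (hh _ hK hφ.sub).continuousOn_smul hφ.smooth.continuous.continuousOn hK
  refine (integrableOn_iff_integrable_of_support_subset ?_).1 h1
  intro x hx
  by_contra hn
  apply hx
  change φ x • h x = 0
  rw [image_eq_zero_of_notMem_tsupport hn, zero_smul]

/-- almost everywhere equal functions on `W` have the same integral against test functions -/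
theorem CG2_congr {E X : Type} [NormedAddCommGroup E] [NormedSpace ℝ E]
    [MeasureSpace E] [BorelSpace E]
    [NormedAddCommGroup X] [NormedSpace ℝ X] {W : Set E} (hW : IsOpen W) {φ : E → ℝ}
    (hφ : Test W φ) {f h : E → X} (hf : ∀ x, x ∉ tsupport φ → f x = 0)
    (hh : ∀ x, x ∉ tsupport φ → h x = 0) (he : ∀ᵐ x ∂(volume.restrict W), f x = h x) :
    ∫ x, f x = ∫ x, h x := by
  refine integral_congr_ae ?_
  have h1 := (ae_restrict_iff' hW.measurableSet).1 he
  filter_upwards [h1] with x hx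
  by_cases hxK : x ∈ tsupport φ
  · exact hx (hφ.sub hxK)
  · rw [hf x hxK, hh x hxK]

theorem CG2_adL_norm {𝔐 : Type} [NormedRing 𝔐] [NormedAlgebra ℝ 𝔐] [StarRing 𝔐] [CStarRing 𝔐]
    (g : 𝔐) (hg : ‖g‖ ≤ 1) : ‖adL g‖ ≤ 1 := by
  refine ContinuousLinearMap.opNorm_le_bound _ zero_le_one fun X => ?_
  rw [adL_apply, one_mul]
  calc ‖star g * (X * g)‖ ≤ ‖star g‖ * (‖X‖ * ‖g‖) :=
        (norm_mul_le _ _).trans (mul_le_mul_of_nonneg_left (norm_mul_le _ _) (norm_nonneg _))
    _ ≤ 1 * (‖X‖ * 1) := by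
        rw [norm_star]
        gcongr
    _ = ‖X‖ := by rw [one_mul, mul_one]

theorem CG2_adL_cont {𝔐 : Type} [NormedRing 𝔐] [NormedAlgebra ℝ 𝔐] [StarRing 𝔐] [CStarRing 𝔐]
    [StarModule ℝ 𝔐] : Continuous (adL : 𝔐 → 𝔐 →L[ℝ] 𝔐) := by
  unfold adL
  exact (((ContinuousLinearMap.mul ℝ 𝔐).continuous.comp continuous_star)).clm_comp
    (ContinuousLinearMap.mul ℝ 𝔐).flip.continuous

/-- `adF g F` is locally square integrable -/
theorem CG2_F2 {𝔐 : Type} [NormedRing 𝔐] [NormedAlgebra ℝ 𝔐] [StarRing 𝔐] [CStarRing 𝔐]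
    [StarModule ℝ 𝔐] {E : Type} [NormedAddCommGroup E] [NormedSpace ℝ E]
    [MeasureSpace E] {W : Set E} {g : E → 𝔐} {F : E → E [⋀^Fin 2]→L[ℝ] 𝔐}
    (hF : L2loc W F) (hg : L2loc W g) (hb : ∀ᵐ x ∂(volume.restrict W), ‖g x‖ ≤ 1) :
    L2loc W (adF g F) := by
  intro K hK hKW
  have hF' := hF K hK hKW
  have hg' := hg K hK hKW
  refine hF'.mono ?_ ?_
  · let Φ := ContinuousLinearMap.compContinuousAlternatingMapCLM ℝ E 𝔐 𝔐 (Fin 2)
    have h1 : AEStronglyMeasurable (fun x => Φ (adL (g x))) (volume.restrict K) :=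
      (Φ.continuous.comp CG2_adL_cont).comp_aestronglyMeasurable hg'.1
    have h2 : Continuous fun p : ((E [⋀^Fin 2]→L[ℝ] 𝔐) →L[ℝ] (E [⋀^Fin 2]→L[ℝ] 𝔐)) ×
        (E [⋀^Fin 2]→L[ℝ] 𝔐) => p.1 p.2 := isBoundedBilinearMap_apply.continuous
    exact h2.comp_aestronglyMeasurable (h1.prodMk hF'.1)
  · filter_upwards [ae_restrict_of_ae_restrict_of_subset hKW hb] with x hx
    calc ‖adF g F x‖ ≤ ‖adL (g x)‖ * ‖F x‖ :=
          ContinuousLinearMap.norm_compContinuousAlternatingMap_le _ _
      _ ≤ 1 * ‖F x‖ := mul_le_mul_of_nonneg_right (CG2_adL_norm _ hx) (norm_nonneg _)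
      _ = ‖F x‖ := one_mul _

theorem CG2_L1 {X : Type} [NormedAddCommGroup X] {E : Type} [NormedAddCommGroup E]
    [NormedSpace ℝ E] [FiniteDimensional ℝ E] [MeasureSpace E] [BorelSpace E]
    [(volume : Measure E).IsAddHaarMeasure] {W : Set E} {f : E → X}
    (hf : L2loc W f) : L1loc W f := by
  intro K hK hKW
  have : IsFiniteMeasure (volume.restrict K) := ⟨by
    rw [Measure.restrict_apply_univ]
    exact hK.measure_lt_top⟩
  exact (hf K hK hKW).integrable one_le_two

theorem CG2_mul {𝔐 : Type} [NormedRing 𝔐] {E : Type} [NormedAddCommGroup E]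
    [NormedSpace ℝ E] [MeasureSpace E] {W : Set E} {f h : E → 𝔐}
    (hf : L2loc W f) (hh : L2loc W h) : L1loc W (fun x => f x * h x) := by
  intro K hK hKW
  exact MemLp.integrable_mul (hf K hK hKW) (hh K hK hKW)

theorem CG2_apply {𝔐 : Type} [NormedRing 𝔐] [NormedAlgebra ℝ 𝔐] {E : Type}
    [NormedAddCommGroup E] [NormedSpace ℝ E] [MeasureSpace E] {W : Set E} {A : E → E →L[ℝ] 𝔐}
    (hA : L2loc W A) (u : E) : L2loc W (fun x => A x u) := by
  intro K hK hKW
  exact (ContinuousLinearMap.apply ℝ 𝔐 u).comp_memLp' (hA K hK hKW)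

theorem CG2_applyF {𝔐 : Type} [NormedRing 𝔐] [NormedAlgebra ℝ 𝔐] {E : Type}
    [NormedAddCommGroup E] [NormedSpace ℝ E] [MeasureSpace E] {W : Set E}
    {F : E → E [⋀^Fin 2]→L[ℝ] 𝔐} (hF : L2loc W F) (v : Fin 2 → E) :
    L2loc W (fun x => F x v) := by
  intro K hK hKW
  exact (ContinuousAlternatingMap.apply ℝ E 𝔐 v).comp_memLp' (hF K hK hKW)

theorem p_CG2 (h1 : Pool.TIA.Stmt_LIE) (_ : Stmt_LBR) (h3 : Stmt_CG1) : Stmt_CG2 := by
  intro 𝔐 _ _ _ _ _ _ 𝒢 E _ _ _ _ _ _ W A A' F g dg hW hC hG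
  obtain ⟨hstar, hle, -⟩ := h1 𝔐 𝒢
  have hb : ∀ᵐ x ∂(volume.restrict W), ‖g x‖ ≤ 1 := by
    filter_upwards [hG.inG] with x hx
    exact hle _ hx
  have hF2 : L2loc W (adF g F) := CG2_F2 hC.F2 hG.g2 hb
  refine ⟨hG.A2', hF2, hG.lie', fun φ hφ u v => ?_⟩
  have key := h3 𝔐 𝒢 E W A F g dg hW hC hG.g2 hG.dg2 hG.wd hb φ hφ u v
  have hae : ∀ᵐ x ∂(volume.restrict W), (∀ w, star (g x) * dg x w + star (g x) * A x w * g x =
      A' x w) ∧ star (g x) * (F x ![u, v] - (A x u * A x v - A x v * A x u)) * g x +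
        star (dg x u) * (dg x v + A x v * g x) - star (dg x v) * (dg x u + A x u * g x) +
        star (g x) * (A x v * dg x u) - star (g x) * (A x u * dg x v) =
      adF g F x ![u, v] - (A' x u * A' x v - A' x v * A' x u) := by
    filter_upwards [hG.inG, hG.eq, hC.lie, hG.lie'] with x hx hex hlx hlx'
    obtain ⟨hu1, hu2⟩ := 𝒢.unitary _ hx
    have hk : ∀ w, star (g x) * (g x * w) = w := fun w => by rw [← mul_assoc, hu1, one_mul]
    refine ⟨fun w => ?_, ?_⟩
    · rw [hex w, mul_sub, hk, mul_assoc]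
      abel
    · rw [adF_apply, hex u, hex v, star_sub, star_sub, star_mul, star_mul, star_mul, star_mul,
        hstar _ (hlx u), hstar _ (hlx v), hstar _ (hlx' u), hstar _ (hlx' v)]
      have e1 : g x * A' x v - A x v * g x + A x v * g x = g x * A' x v := by abel
      have e2 : g x * A' x u - A x u * g x + A x u * g x = g x * A' x u := by abel
      rw [e1, e2]
      have e3 : (-A' x u * star (g x) - star (g x) * -A x u) * (g x * A' x v) =
          -(A' x u * A' x v) + star (g x) * (A x u * (g x * A' x v)) := by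
        have := hk (A' x v)
        simp only [sub_mul, neg_mul, mul_neg, mul_assoc, this]
        abel
      have e4 : (-A' x v * star (g x) - star (g x) * -A x v) * (g x * A' x u) =
          -(A' x v * A' x u) + star (g x) * (A x v * (g x * A' x u)) := by
        have := hk (A' x u)
        simp only [sub_mul, neg_mul, mul_neg, mul_assoc, this]
        abel
      rw [e3, e4]
      noncomm_ring
  -- the right-hand side
  have hR : ∫ x, (fderiv ℝ φ x u • (star (g x) * dg x v + star (g x) * A x v * g x) -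
        fderiv ℝ φ x v • (star (g x) * dg x u + star (g x) * A x u * g x)) =
      ∫ x, (fderiv ℝ φ x u • A' x v - fderiv ℝ φ x v • A' x u) := by
    have hz : ∀ x, x ∉ tsupport φ → fderiv ℝ φ x = 0 := fun x hx =>
      image_eq_zero_of_notMem_tsupport fun hmem => hx (tsupport_fderiv_subset ℝ hmem)
    refine CG2_congr hW hφ (fun x hx => ?_) (fun x hx => ?_) ?_
    · simp only [hz x hx, ContinuousLinearMap.zero_apply, zero_smul, sub_self]
    · simp only [hz x hx, ContinuousLinearMap.zero_apply, zero_smul, sub_self]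
    · filter_upwards [hae] with x hx
      rw [hx.1 u, hx.1 v]
  -- the left-hand side
  have hL : ∫ x, φ x • (star (g x) * (F x ![u, v] - (A x u * A x v - A x v * A x u)) * g x +
        star (dg x u) * (dg x v + A x v * g x) - star (dg x v) * (dg x u + A x u * g x) +
        star (g x) * (A x v * dg x u) - star (g x) * (A x u * dg x v)) =
      ∫ x, φ x • (adF g F x ![u, v] - (A' x u * A' x v - A' x v * A' x u)) := by
    refine CG2_congr hW hφ (fun x hx => ?_) (fun x hx => ?_) ?_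
    · rw [image_eq_zero_of_notMem_tsupport hx, zero_smul]
    · rw [image_eq_zero_of_notMem_tsupport hx, zero_smul]
    · filter_upwards [hae] with x hx
      rw [hx.2]
  rw [hL, hR] at key
  have i1 : Integrable (fun x => φ x • adF g F x ![u, v]) :=
    CG2_int hφ (CG2_L1 (CG2_applyF hF2 _))
  have i2 : Integrable (fun x => φ x • (A' x u * A' x v - A' x v * A' x u)) := by
    refine CG2_int hφ fun K hK hKW => ?_
    exact ((CG2_mul (CG2_apply hG.A2' u) (CG2_apply hG.A2' v)) K hK hKW).sub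
      ((CG2_mul (CG2_apply hG.A2' v) (CG2_apply hG.A2' u)) K hK hKW)
  simp only [smul_sub] at key i2 ⊢
  rw [integral_sub i1 i2] at key
  rw [← key]
  abel

end Pool.TIW
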