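import Pool.Agent.Work.MP_a1f430_wb.Interface

/-! # Block CTE: from scalar test functions to products (helper37) -/

set_option autoImplicit false

namespace Pool.TIW

open Pool.TIA
open MeasureTheory Set Filter Topology
open scoped ContDiff ENNReal

section

variable {𝔐 : Type} [NormedRing 𝔐] [NormedAlgebra ℝ 𝔐]
variable {E : Type} [NormedAddCommGroup E] [NormedSpace ℝ E] [FiniteDimensional ℝ E]
  [MeasureSpace E] [BorelSpace E] [(volume : Measure E).IsAddHaarMeasure]

omit [NormedSpace ℝ E] [FiniteDimensional ℝ E] [(volume : Measure E).IsAddHaarMeasure] in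
/-- A continuous function with support in a compact set times a function integrable on it. -/
theorem CTE_int {K : Set E} (hK : IsCompact K) (Z : E → 𝔐) (hZ : IntegrableOn Z K volume)
    (a : E → ℝ) (ha : Continuous a) (hs : ∀ x, x ∉ K → a x = 0) :
    Integrable (fun x => a x • Z x) volume := by
  have h1 : IntegrableOn (fun x => a x • Z x) K volume :=
    hZ.continuousOn_smul ha.continuousOn hK
  refine (integrableOn_iff_integrable_of_support_subset ?_).1 h1
  intro x hx
  by_contra hxK
  refine hx ?_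
  show a x • Z x = 0
  rw [hs x hxK, zero_smul]

omit [NormedAddCommGroup E] [NormedSpace ℝ E] [FiniteDimensional ℝ E]
  [MeasureSpace E] [BorelSpace E] [(volume : Measure E).IsAddHaarMeasure] in
/-- The product of three factors in coordinates. -/
theorem CTE_mul {n : ℕ} (b : Fin n → 𝔐) (p q : Fin n → ℝ) (z : 𝔐) :
    (∑ i, p i • b i) * z * (∑ j, q j • b j) = ∑ i, ∑ j, b i * ((p i * q j) • z) * b j := by
  rw [Finset.sum_mul, Finset.sum_mul]
  refine Finset.sum_congr rfl fun i _ => ?_
  rw [Finset.mul_sum]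
  refine Finset.sum_congr rfl fun j _ => ?_
  rw [smul_mul_assoc, smul_mul_assoc, mul_smul_comm, smul_smul, mul_smul_comm, smul_mul_assoc]

/-- The bilinear map `x ↦ a x c`. -/
noncomputable def CTE_lr (a c : 𝔐) : 𝔐 →L[ℝ] 𝔐 :=
  (ContinuousLinearMap.mul ℝ 𝔐 a).comp ((ContinuousLinearMap.mul ℝ 𝔐).flip c)

theorem CTE_lr_apply (a c x : 𝔐) : CTE_lr a c x = a * x * c := by
  show a * (x * c) = a * x * c
  rw [mul_assoc]

end

theorem p_CTE : Stmt_CTE := by
  intro 𝔐 _ _ _ E _ _ _ _ _ _ W m v Z R hW hZ hR hdiv P Q hP hPc hPW hQ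
  have _ : CompleteSpace 𝔐 := FiniteDimensional.complete ℝ 𝔐
  set n := Module.finrank ℝ 𝔐
  let b : Module.Basis (Fin n) ℝ 𝔐 := Module.finBasis ℝ 𝔐
  let c : Fin n → 𝔐 →L[ℝ] ℝ := fun i => LinearMap.toContinuousLinearMap (b.coord i)
  have hc : ∀ (i : Fin n) (x : 𝔐), c i x = b.repr x i := fun i x => rfl
  have hb : ∀ x : 𝔐, ∑ i, c i x • b i = x := fun x => b.sum_repr x
  set K := tsupport P with hKdef
  have hK : IsCompact K := hPc
  have hout : ∀ x, x ∉ K → P x = 0 := fun x hx => image_eq_zero_of_notMem_tsupport hx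
  have hout' : ∀ x, x ∉ K → fderiv ℝ P x = 0 := by
    intro x hx
    have h1 := support_fderiv_subset ℝ (f := P)
    by_contra hne
    exact hx (h1 hne)
  have hPd : ∀ x, DifferentiableAt ℝ P x := fun x => (hP.differentiable (by simp)) x
  have hQd : ∀ x, DifferentiableAt ℝ Q x := fun x => (hQ.differentiable (by simp)) x
  have hp' : ∀ (i : Fin n) (x w : E), fderiv ℝ (fun y => c i (P y)) x w = c i (fderiv ℝ P x w) := by
    intro i x w
    have h1 : HasFDerivAt (fun y => c i (P y)) ((c i).comp (fderiv ℝ P x)) x :=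
      (c i).hasFDerivAt.comp x (hPd x).hasFDerivAt
    rw [h1.fderiv]
    rfl
  have hq' : ∀ (i : Fin n) (x w : E), fderiv ℝ (fun y => c i (Q y)) x w = c i (fderiv ℝ Q x w) := by
    intro i x w
    have h1 : HasFDerivAt (fun y => c i (Q y)) ((c i).comp (fderiv ℝ Q x)) x :=
      (c i).hasFDerivAt.comp x (hQd x).hasFDerivAt
    rw [h1.fderiv]
    rfl
  let φ : Fin n → Fin n → E → ℝ := fun i j x => c i (P x) * c j (Q x)
  have hφs : ∀ i j, ContDiff ℝ ∞ (φ i j) := fun i j =>
    ((c i).contDiff.comp hP).mul ((c j).contDiff.comp hQ)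
  have hφsub : ∀ i j, tsupport (φ i j) ⊆ K := by
    intro i j
    refine closure_mono ?_
    intro x hx hPx
    refine hx ?_
    show c i (P x) * c j (Q x) = 0
    rw [hPx, map_zero, zero_mul]
  have hT : ∀ i j, Test W (φ i j) := fun i j =>
    ⟨hφs i j, hK.of_isClosed_subset (isClosed_tsupport _) (hφsub i j),
      (hφsub i j).trans hPW⟩
  have hφ' : ∀ i j x w, fderiv ℝ (φ i j) x w =
      c i (P x) * c j (fderiv ℝ Q x w) + c i (fderiv ℝ P x w) * c j (Q x) := by
    intro i j x w
    have h1 : HasFDerivAt (fun y => c i (P y)) ((c i).comp (fderiv ℝ P x)) x :=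
      (c i).hasFDerivAt.comp x (hPd x).hasFDerivAt
    have h2 : HasFDerivAt (fun y => c j (Q y)) ((c j).comp (fderiv ℝ Q x)) x :=
      (c j).hasFDerivAt.comp x (hQd x).hasFDerivAt
    have h3 := h1.mul h2
    have h4 : fderiv ℝ (φ i j) x = c i (P x) • (c j).comp (fderiv ℝ Q x) +
      c j (Q x) • (c i).comp (fderiv ℝ P x) := h3.fderiv
    rw [h4]
    show c i (P x) * c j (fderiv ℝ Q x w) + c j (Q x) * c i (fderiv ℝ P x w) = _
    ring
  have hI1 : ∀ i j, Integrable (fun x => ∑ k, fderiv ℝ (φ i j) x (v k) • Z k x) volume := by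
    intro i j
    refine integrable_finsetSum _ fun k _ => ?_
    refine CTE_int hK (Z k) (hZ k K hK hPW) (fun x => fderiv ℝ (φ i j) x (v k)) ?_ ?_
    · exact ((hφs i j).continuous_fderiv (by simp)).clm_apply continuous_const
    · intro x hx
      rw [hφ', hout x hx, hout' x hx]
      simp
  have hI2 : ∀ i j, Integrable (fun x => φ i j x • R x) volume := by
    intro i j
    refine CTE_int hK R (hR K hK hPW) (φ i j) (hφs i j).continuous ?_
    intro x hx
    show c i (P x) * c j (Q x) = 0
    rw [hout x hx, map_zero, zero_mul]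
  have hL : ∀ x, ∑ k, (fderiv ℝ P x (v k) * Z k x * Q x + P x * Z k x * fderiv ℝ Q x (v k)) =
      ∑ i, ∑ j, CTE_lr (b i) (b j) (∑ k, fderiv ℝ (φ i j) x (v k) • Z k x) := by
    intro x
    have h1 : ∀ k, fderiv ℝ P x (v k) * Z k x * Q x + P x * Z k x * fderiv ℝ Q x (v k) =
        ∑ i, ∑ j, CTE_lr (b i) (b j) (fderiv ℝ (φ i j) x (v k) • Z k x) := by
      intro k
      have e1 := CTE_mul (fun i => b i) (fun i => c i (fderiv ℝ P x (v k)))
        (fun j => c j (Q x)) (Z k x)
      have e2 := CTE_mul (fun i => b i) (fun i => c i (P x))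
        (fun j => c j (fderiv ℝ Q x (v k))) (Z k x)
      rw [hb, hb] at e1 e2
      rw [e1, e2, ← Finset.sum_add_distrib]
      refine Finset.sum_congr rfl fun i _ => ?_
      rw [← Finset.sum_add_distrib]
      refine Finset.sum_congr rfl fun j _ => ?_
      rw [CTE_lr_apply, hφ', add_smul, mul_add, add_mul, add_comm]
    rw [Finset.sum_congr rfl fun k _ => h1 k, Finset.sum_comm]
    refine Finset.sum_congr rfl fun i _ => ?_
    rw [Finset.sum_comm]
    refine Finset.sum_congr rfl fun j _ => ?_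
    rw [map_sum]
  have hRR : ∀ x, P x * R x * Q x = ∑ i, ∑ j, CTE_lr (b i) (b j) (φ i j x • R x) := by
    intro x
    have e1 := CTE_mul (fun i => b i) (fun i => c i (P x)) (fun j => c j (Q x)) (R x)
    rw [hb, hb] at e1
    rw [e1]
    refine Finset.sum_congr rfl fun i _ => Finset.sum_congr rfl fun j _ => ?_
    rw [CTE_lr_apply]
  rw [integral_congr_ae (Eventually.of_forall hL), integral_congr_ae (Eventually.of_forall hRR)]
  rw [integral_finsetSum _ fun i _ => integrable_finsetSum _ fun j _ =>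
      (CTE_lr (b i) (b j)).integrable_comp (hI1 i j),
    integral_finsetSum _ fun i _ => integrable_finsetSum _ fun j _ =>
      (CTE_lr (b i) (b j)).integrable_comp (hI2 i j)]
  refine Finset.sum_congr rfl fun i _ => ?_
  rw [integral_finsetSum _ fun j _ => (CTE_lr (b i) (b j)).integrable_comp (hI1 i j),
    integral_finsetSum _ fun j _ => (CTE_lr (b i) (b j)).integrable_comp (hI2 i j)]
  refine Finset.sum_congr rfl fun j _ => ?_
  rw [ContinuousLinearMap.integral_comp_comm _ (hI1 i j),
    ContinuousLinearMap.integral_comp_comm _ (hI2 i j), hdiv (φ i j) (hT i j)]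

end Pool.TIW
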