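import Pool.Agent.Work.MP_a1f430_wb.Interface
import Pool.Agent.Work.MP_a1f430_ti.B_PRD

set_option autoImplicit false

namespace Pool.TIW

open Pool.TIA
open MeasureTheory Set Filter Topology
open scoped ContDiff ENNReal

/-- Integrability of `b • (u w)` for `u, w ∈ L²(K)` and `b` continuous with support in `K`. -/
theorem DPR_int {E 𝔐 : Type} [NormedAddCommGroup E] [NormedSpace ℝ E] [FiniteDimensional ℝ E]
    [MeasureSpace E] [BorelSpace E] [NormedRing 𝔐] [NormedAlgebra ℝ 𝔐] {K : Set E}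
    (hK : IsCompact K) {b : E → ℝ} (hb : Continuous b) (hbK : ∀ x, x ∉ K → b x = 0)
    {u w : E → 𝔐} (hu : MemLp u 2 (volume.restrict K)) (hw : MemLp w 2 (volume.restrict K)) :
    Integrable (fun x => b x • (u x * w x)) := by
  have h1 : IntegrableOn (fun x => u x * w x) K volume := hu.integrable_mul hw
  have h2 : IntegrableOn (fun x => b x • (u x * w x)) K volume :=
    h1.continuousOn_smul hb.continuousOn hK
  refine (integrableOn_iff_integrable_of_support_subset ?_).mp h2
  intro x hx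
  by_contra hxK
  exact hx (by simp [hbK x hxK])

/-- The limit of `∫ b • (u wⱼ)` for `wⱼ → w` in `L²(K)`. -/
theorem DPR_lim {E 𝔐 : Type} [NormedAddCommGroup E] [NormedSpace ℝ E] [FiniteDimensional ℝ E]
    [MeasureSpace E] [BorelSpace E] [NormedRing 𝔐] [NormedAlgebra ℝ 𝔐] {K : Set E}
    (hK : IsCompact K) {b : E → ℝ} (hb : Continuous b) (hbK : ∀ x, x ∉ K → b x = 0)
    {u w : E → 𝔐} (hu : MemLp u 2 (volume.restrict K)) (hw : MemLp w 2 (volume.restrict K))
    {v : ℕ → E → 𝔐} (hv : ∀ j, MemLp (v j) 2 (volume.restrict K))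
    (hlim : Tendsto (fun j => eLpNorm (fun x => v j x - w x) 2 (volume.restrict K)) atTop (𝓝 0)) :
    Tendsto (fun j => ∫ x, b x • (u x * v j x)) atTop (𝓝 (∫ x, b x • (u x * w x))) := by
  obtain ⟨C, hC⟩ := hK.exists_bound_of_continuousOn hb.continuousOn
  have e1 : ∀ z : E → 𝔐, ∫ x, b x • (u x * z x) = ∫ x in K, b x • (u x * z x) := fun z =>
    (setIntegral_eq_integral_of_forall_compl_eq_zero fun x hx => by simp [hbK x hx]).symm
  simp_rw [e1]
  refine tendsto_integral_of_L1' _ (DPR_int hK hb hbK hu hw).integrableOn.1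
    (Eventually.of_forall fun j => (DPR_int hK hb hbK hu (hv j)).integrableOn) ?_
  refine PRD_mono _ C _ (fun j x => ‖u x‖ * ‖v j x - w x‖) (fun j => ?_)
    (PRD_hol _ u _ hu (fun j => (hv j).1.sub hw.1) hlim)
  refine (ae_restrict_iff' hK.measurableSet).mpr (Eventually.of_forall fun x hx => ?_)
  have e2 : ((fun x => b x • (u x * v j x)) - fun x => b x • (u x * w x)) x =
      b x • (u x * (v j x - w x)) := by
    simp only [Pi.sub_apply]
    rw [mul_sub, smul_sub]
  rw [e2, norm_smul]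
  have h3 := hC x hx
  have h4 := norm_mul_le (u x) (v j x - w x)
  have h5 : 0 ≤ C := (norm_nonneg _).trans h3
  exact mul_le_mul h3 h4 (norm_nonneg _) h5

theorem p_DPR (hCTE : Stmt_CTE) (hAPD : Stmt_APD) : Stmt_DPR := by
  intro 𝔐 _ _ _ E _ _ _ _ _ _ W e f f1 h h1 hW hf hf1 hh hh1 hwf hwh φ hφ
  have hK : IsCompact (tsupport φ) := hφ.cpt
  have hKW := hφ.sub
  obtain ⟨H, hHs, hH0, hH1⟩ := hAPD E 𝔐 W e h h1 hW hh hh1 hwh (tsupport φ) hK hKW
  have hL1 : ∀ {z : E → 𝔐}, L2loc W z → L1loc W z := by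
    intro z hz K hK' hKW'
    have hfin : IsFiniteMeasure (volume.restrict K : Measure E) :=
      ⟨by simpa using hK'.measure_lt_top⟩
    exact (hz K hK' hKW').integrable (by norm_num)
  have c0 : Continuous φ := hφ.smooth.continuous
  have c1 : Continuous (fun x => fderiv ℝ φ x e) :=
    (hφ.smooth.continuous_fderiv (by simp)).clm_apply continuous_const
  have z0 : ∀ x, x ∉ tsupport φ → φ x = 0 := fun x hx => image_eq_zero_of_notMem_tsupport hx
  have z1 : ∀ x, x ∉ tsupport φ → fderiv ℝ φ x e = 0 := by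
    intro x hx
    have : fderiv ℝ φ x = 0 :=
      image_eq_zero_of_notMem_tsupport (fun h => hx (tsupport_fderiv_subset ℝ h))
    rw [this]
    rfl
  have hfin : IsFiniteMeasure (volume.restrict (tsupport φ) : Measure E) :=
    ⟨by simpa using hK.measure_lt_top⟩
  have mf := hf _ hK hKW
  have mf1 := hf1 _ hK hKW
  have mh := hh _ hK hKW
  have mh1 := hh1 _ hK hKW
  have mcont : ∀ {z : E → 𝔐}, Continuous z → MemLp z 2 (volume.restrict (tsupport φ)) := by
    intro z hz
    obtain ⟨C, hC⟩ := hK.exists_bound_of_continuousOn hz.continuousOn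
    refine MemLp.of_bound hz.aestronglyMeasurable C ?_
    exact (ae_restrict_iff' hK.measurableSet).mpr (Eventually.of_forall hC)
  have mH : ∀ j, MemLp (H j) 2 (volume.restrict (tsupport φ)) := fun j =>
    mcont (hHs j).continuous
  have mdH : ∀ j, MemLp (fun x => fderiv ℝ (H j) x e) 2 (volume.restrict (tsupport φ)) := fun j =>
    mcont (((hHs j).continuous_fderiv (by simp)).clm_apply continuous_const)
  -- smooth H
  have key : ∀ j, (∫ x, fderiv ℝ φ x e • (f x * H j x)) +
      (∫ x, φ x • (f x * fderiv ℝ (H j) x e)) = -∫ x, φ x • (f1 x * H j x) := by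
    intro j
    have hw : ∀ ψ : E → ℝ, Test W ψ → ∫ x, ∑ k : Fin 1, fderiv ℝ ψ x ((fun _ => e) k) •
        (fun _ : Fin 1 => f) k x = ∫ x, ψ x • (fun x => -f1 x) x := by
      intro ψ hψ
      have := hwf ψ hψ
      simp only [Finset.univ_unique, Finset.sum_singleton, smul_neg, integral_neg]
      exact this
    have hR : L1loc W (fun x => -f1 x) := fun K hK' hKW' => (hL1 hf1 K hK' hKW').neg
    have hPs : tsupport (fun x => φ x • (1 : 𝔐)) ⊆ tsupport φ :=
      closure_mono fun x hx => by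
        intro h0
        exact hx (by simp [h0])
    have hPc : HasCompactSupport (fun x => φ x • (1 : 𝔐)) :=
      hK.of_isClosed_subset (isClosed_tsupport _) hPs
    have := hCTE 𝔐 E W 1 (fun _ => e) (fun _ => f) (fun x => -f1 x) hW (fun _ => hL1 hf) hR hw
      (fun x => φ x • (1 : 𝔐)) (H j) (hφ.smooth.smul contDiff_const) hPc (hPs.trans hKW) (hHs j)
    simp only [Finset.univ_unique, Finset.sum_singleton] at this
    have hd : ∀ x, fderiv ℝ (fun x => φ x • (1 : 𝔐)) x e = fderiv ℝ φ x e • (1 : 𝔐) := by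
      intro x
      rw [fderiv_smul_const (hφ.smooth.differentiable (by simp) x)]
      rfl
    simp only [hd, smul_mul_assoc, one_mul, neg_mul, smul_neg, integral_neg] at this
    rw [← this, integral_add (DPR_int hK c1 z1 mf (mH j)) (DPR_int hK c0 z0 mf (mdH j))]
  have l1 := DPR_lim hK c1 z1 mf mh mH hH0
  have l2 := DPR_lim hK c0 z0 mf mh1 mdH hH1
  have l3 := DPR_lim hK c0 z0 mf1 mh mH hH0
  have l4 := l1.add l2
  simp_rw [key] at l4
  have l5 := tendsto_nhds_unique l4 l3.neg
  have e3 : ∫ x, φ x • (f1 x * h x + f x * h1 x) =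
      (∫ x, φ x • (f1 x * h x)) + ∫ x, φ x • (f x * h1 x) := by
    rw [← integral_add (DPR_int hK c0 z0 mf1 mh) (DPR_int hK c0 z0 mf mh1)]
    simp_rw [smul_add]
  rw [e3, neg_add, ← l5]
  abel

end Pool.TIW
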