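import Pool.Agent.Work.MP_a1f430_wb.Interface

/-! # Block GIN (helper71), adapted from `MP_a1f430_ti/B_GSM.lean` (helper12) -/

set_option autoImplicit false

namespace Pool.TIW

open Pool.TIA
open MeasureTheory Set Filter Topology
open scoped ContDiff ENNReal

theorem p_GIN (h1 : Pool.TIA.Stmt_LIE) (h2 : Pool.TIA.Stmt_WCL) : Stmt_GIN := by
  intro 𝔐 _ _ _ _ _ _ 𝒢 E _ _ _ _ _ _ W A A' g dg hW hA2 hA hg
  obtain ⟨hl, -, -⟩ := h1 𝔐 𝒢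
  let T : 𝔐 →L[ℝ] 𝔐 := ((starL' ℝ : 𝔐 ≃L[ℝ] 𝔐) : 𝔐 →L[ℝ] 𝔐)
  have hT : ∀ a : 𝔐, T a = star a := fun _ => rfl
  obtain ⟨k1, k2, k3⟩ := h2 E 𝔐 𝔐 T W g dg hW hg.g2 hg.dg2 hg.wd
  refine ⟨fun x => T.comp (dg x), k1, k2, k3, ?_, hA2, hA, ?_⟩
  · filter_upwards [hg.inG] with x hx
    exact 𝒢.star_mem _ hx
  · filter_upwards [hg.eq, hA, hg.lie'] with x hx hAx hAx' v
    show T (dg x v) = star (g x) * A x v - A' x v * star (g x)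
    rw [hT, hx v, star_sub, star_mul, star_mul, hl _ (hAx v), hl _ (hAx' v)]
    noncomm_ring

end Pool.TIW
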