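import Pool.Agent.Work.MP_a1f430_wb.Interface
import Pool.Agent.Work.MP_a1f430_ti.B_KA

/-! # Block KA4 (typed by helper55; adapted from the block KA of helper57) -/

set_option autoImplicit false

namespace Pool.TIW

open Pool.TIA
open MeasureTheory Set Filter Topology
open scoped ContDiff ENNReal

theorem p_KA4 (hAPC : Pool.TIA.Stmt_APC) (_hSUB : Pool.TIA.Stmt_SUB) : Stmt_KA4 := by
  intro 𝔐 _ _ _ _ _ _ 𝒢 V _ _ _ _ _ _ W A F K a b hW hC hK hab hKW
  have hKc : IsCompact (K ×ˢ Icc a b) := hK.prod isCompact_Icc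
  obtain ⟨B, hBs, hBc, hBl, hB2, hBF⟩ := hAPC 𝔐 𝒢 (V × ℝ) W A F hW hC (K ×ˢ Icc a b) hKc hKW
  have hB2' := hB2
  have hAm := hC.A2 _ hKc hKW
  have hFm := hC.F2 _ hKc hKW
  have hBm : ∀ j, MemLp (B j) 2 (volume.restrict (K ×ˢ Icc a b)) := fun j =>
    KA_cont (B j) (hBs j).continuous hKc 2
  have hcm : ∀ (u v : V × ℝ) (j : ℕ), MemLp (fun x => cur (B j) x u v) 1
      (volume.restrict (K ×ˢ Icc a b)) := fun u v j =>
    KA_cont _ (PBC_cur_cont (hBs j) u v) hKc 1
  have hfK : IsFiniteMeasure ((volume : Measure V).restrict K) :=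
    ⟨by simpa using hK.measure_lt_top⟩
  have hfI : IsFiniteMeasure ((volume : Measure ℝ).restrict (Icc a b)) := ⟨by simp⟩
  have hfKI : IsFiniteMeasure ((volume : Measure (V × ℝ)).restrict (K ×ˢ Icc a b)) :=
    ⟨by simpa using hKc.measure_lt_top⟩
  have hFm1 : ∀ u v : V × ℝ, MemLp (fun x => F x ![u, v]) 1
      (volume.restrict (K ×ˢ Icc a b)) := fun u v =>
    MemLp.mono_exponent ((ContinuousAlternatingMap.apply ℝ (V × ℝ) 𝔐 ![u, v]).comp_memLp' hFm)
      (by norm_num)
  have hlie : ∀ᵐ x ∂(volume.restrict (K ×ˢ Icc a b)), ∀ v, A x v ∈ 𝒢.lie :=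
    ae_mono (Measure.restrict_mono hKW le_rfl) hC.lie
  have hprod : (volume : Measure (V × ℝ)).restrict (K ×ˢ Icc a b) =
      ((volume : Measure V).restrict K).prod ((volume : Measure ℝ).restrict (Icc a b)) := by
    rw [Measure.prod_restrict, ← Measure.volume_eq_prod]
  -- the last line but one
  have hcur : ∀ v : V, Tendsto (fun j => ∫ y in K, ∫ s in Icc a b,
      ‖cur (B j) (y, s) (0, 1) (v, 0) - F (y, s) ![(0, 1), (v, 0)]‖) atTop (𝓝 0) := by
    intro v
    have h1 := hBF (0, 1) (v, 0)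
    have hm : ∀ j, MemLp (fun x => cur (B j) x (0, 1) (v, 0) - F x ![(0, 1), (v, 0)]) 1
        (volume.restrict (K ×ˢ Icc a b)) := fun j => (hcm (0, 1) (v, 0) j).sub (hFm1 _ _)
    have h3 := KA_toReal _ _ (fun j => (hm j).1) h1
    refine h3.congr fun j => ?_
    have h4 : Integrable (fun x => ‖cur (B j) x (0, 1) (v, 0) - F x ![(0, 1), (v, 0)]‖)
        (volume.restrict (K ×ˢ Icc a b)) :=
      ((memLp_one_iff_integrable.1 (hm j))).norm
    rw [hprod] at h4 ⊢
    exact integral_prod _ h4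
  rw [hprod] at hAm hFm hB2 hlie
  simp only [hprod] at hBm hcm hFm1 hBF
  obtain ⟨ns₁, hns₁, hA1, hA2⟩ := SUB_main _ _ (by norm_num) (by norm_num) B A hBm hAm hB2
  have hF4 : ∀ᵐ y ∂((volume : Measure V).restrict K),
      MemLp (fun s => F (y, s)) 2 ((volume : Measure ℝ).restrict (Icc a b)) :=
    SUB_mem ((volume : Measure V).restrict K) ((volume : Measure ℝ).restrict (Icc a b))
      (by norm_num) (by norm_num) F hFm
  have hl2 : ∀ᵐ t ∂((volume : Measure ℝ).restrict (Icc a b)),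
      ∀ᵐ y ∂((volume : Measure V).restrict K), ∀ v, A (y, t) v ∈ 𝒢.lie := by
    have h1 := (Measure.measurePreserving_swap (μ := (volume : Measure ℝ).restrict (Icc a b))
      (ν := (volume : Measure V).restrict K)).quasiMeasurePreserving.ae hlie
    exact Measure.ae_ae_of_ae_prod h1
  have hI : ∀ᵐ t ∂((volume : Measure ℝ).restrict (Icc a b)), t ∈ Icc a b :=
    ae_restrict_mem measurableSet_Icc
  have hne : NeBot (ae ((volume : Measure ℝ).restrict (Icc a b))) := by
    rw [ae_neBot, Ne, Measure.restrict_eq_zero, Real.volume_Icc]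
    simp [hab]
  obtain ⟨t₀, ht₀, ⟨hAt, hBt⟩, hlt⟩ := (hI.and (hA1.and hl2)).exists
  refine ⟨fun j => B (ns₁ j), t₀, ht₀, fun j => hBs _, fun j => hBc _,
    fun j x v => hBl _ x v, ?_, hAt, hlt, ?_, ?_, ?_, ?_⟩
  · exact hB2'.comp hns₁.tendsto_atTop
  · exact hBt
  · filter_upwards [hA2] with y hy
    obtain ⟨hy1, hy2⟩ := hy
    have hBy : ∀ j, Continuous fun s : ℝ => B j (y, s) := fun j =>
      (hBs j).continuous.comp (by fun_prop)
    have hm1 : ∀ j, AEStronglyMeasurable (fun s => B j (y, s) - A (y, s))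
        ((volume : Measure ℝ).restrict (Icc a b)) := fun j =>
      (hBy j).aestronglyMeasurable.sub hy1.1
    have h2 := KA_toReal _ _ (fun j => hm1 (ns₁ j)) (KA_21 _ _ (fun j => hm1 (ns₁ j)) hy2)
    have h3 : Tendsto (fun q : ℕ × ℕ =>
        (∫ s in Icc a b, ‖B (ns₁ q.1) (y, s) - A (y, s)‖) +
        ∫ s in Icc a b, ‖B (ns₁ q.2) (y, s) - A (y, s)‖) atTop (𝓝 0) := by
      have h4 : Tendsto (fun q : ℕ × ℕ => q.1) atTop atTop := by
        rw [← prod_atTop_atTop_eq]
        exact tendsto_fst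
      have h5 : Tendsto (fun q : ℕ × ℕ => q.2) atTop atTop := by
        rw [← prod_atTop_atTop_eq]
        exact tendsto_snd
      have h6 := (h2.comp h4).add (h2.comp h5)
      rw [add_zero] at h6
      exact h6
    have hi : ∀ j, Integrable (fun s => B j (y, s) - A (y, s))
        ((volume : Measure ℝ).restrict (Icc a b)) := by
      intro j
      have h7 : MemLp (fun s => B j (y, s)) 2 ((volume : Measure ℝ).restrict (Icc a b)) :=
        KA_cont _ (hBy j) isCompact_Icc 2
      exact (h7.sub hy1).integrable (by norm_num)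
    refine squeeze_zero (fun q => integral_nonneg fun s => norm_nonneg _) (fun q => ?_) h3
    rw [← integral_add (hi _).norm (hi _).norm]
    refine integral_mono_of_nonneg (Eventually.of_forall fun s => norm_nonneg _)
      ((hi _).norm.add (hi _).norm) (Eventually.of_forall fun s => ?_)
    have h8 : B (ns₁ q.1) (y, s) - B (ns₁ q.2) (y, s) =
        (B (ns₁ q.1) (y, s) - A (y, s)) - (B (ns₁ q.2) (y, s) - A (y, s)) := by
      abel
    show ‖B (ns₁ q.1) (y, s) - B (ns₁ q.2) (y, s)‖ ≤ _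
    rw [h8]
    exact norm_sub_le _ _
  · intro v
    exact (hcur v).comp hns₁.tendsto_atTop
  · filter_upwards [hF4] with y hy v
    exact (ContinuousAlternatingMap.apply ℝ (V × ℝ) 𝔐 ![(0, 1), (v, 0)]).comp_memLp' hy

end Pool.TIW
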