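import Pool.Agent.Work.MP_a1f430_wb.Interface
import Pool.Agent.Work.MP_a1f430_ti.B_KB

/-! # Block KB4: the derivative of the temporal gauge in the parameter, exact formula -/

set_option autoImplicit false

namespace Pool.TIW

open Pool.TIA
open MeasureTheory Set Filter Topology
open scoped ContDiff ENNReal

theorem p_KB4 (h1 : Pool.TIA.Stmt_LIE) : Stmt_KB4 := by
  intro 𝔐 _ _ _ _ _ _ 𝒢 V _ _ _ A g t₀ hA hlie hg hG hg0 hode y v t
  obtain ⟨hL1, hL2, hL3⟩ := h1 𝔐 𝒢
  have hgd : Differentiable ℝ g := hg.differentiable (by simp)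
  have hAd : Differentiable ℝ A := hA.differentiable (by simp)
  have hd2 : Differentiable ℝ (fderiv ℝ g) :=
    (hg.fderiv_right (m := 1) (by norm_cast)).differentiable (by simp)
  -- the function `w`
  set w : ℝ → 𝔐 := fun s => fderiv ℝ g (y, s) (v, 0) -
      (g (y, s) * A (y, t₀) (v, 0) - A (y, s) (v, 0) * g (y, s)) with hw
  have hAt : ∀ s, HasDerivAt (fun s => A (y, s) (v, 0)) (fderiv ℝ A (y, s) (0, 1) (v, 0)) s := by
    intro s
    have h2 : HasDerivAt (fun s => A (y, s)) (fderiv ℝ A (y, s) (0, 1)) s :=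
      (hAd (y, s)).hasFDerivAt.comp_hasDerivAt s (KB_path y s)
    have h3 := h2.clm_apply (hasDerivAt_const s ((v, 0) : V × ℝ))
    simpa using h3
  have hDt : ∀ s, HasDerivAt (fun s => fderiv ℝ g (y, s) (v, 0))
      (-(fderiv ℝ A (y, s) (v, 0) (0, 1) * g (y, s) +
        A (y, s) (0, 1) * fderiv ℝ g (y, s) (v, 0))) s := by
    intro s
    have h2 : HasDerivAt (fun s => fderiv ℝ g (y, s)) (fderiv ℝ (fderiv ℝ g) (y, s) (0, 1)) s :=
      (hd2 (y, s)).hasFDerivAt.comp_hasDerivAt s (KB_path y s)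
    have h3 := h2.clm_apply (hasDerivAt_const s ((v, 0) : V × ℝ))
    rw [← KB_mix A g hA hg hode (y, s) (v, 0)]
    simpa using h3
  have hwt : ∀ s, HasDerivAt w (cur A (y, s) (0, 1) (v, 0) * g (y, s) -
      A (y, s) (0, 1) * w s) s := by
    intro s
    have h2 := (hDt s).sub (((hode y s).mul_const (A (y, t₀) (v, 0))).sub
      ((hAt s).mul (hode y s)))
    refine h2.congr_deriv ?_
    simp only [hw, cur]
    noncomm_ring
  have hgs : ∀ s, HasDerivAt (fun s => star (g (y, s))) (star (g (y, s)) * A (y, s) (0, 1)) s := by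
    intro s
    have h2 := (hode y s).star
    refine h2.congr_deriv ?_
    rw [star_neg, star_mul, hL1 _ (hlie _ _)]
    noncomm_ring
  have hprod : ∀ s, HasDerivAt (fun s => star (g (y, s)) * w s)
      (star (g (y, s)) * cur A (y, s) (0, 1) (v, 0) * g (y, s)) s := by
    intro s
    refine ((hgs s).mul (hwt s)).congr_deriv ?_
    noncomm_ring
  have hw0 : w t₀ = 0 := by
    have h2 : fderiv ℝ g (y, t₀) (v, 0) = 0 := by
      have h3 : HasDerivAt (fun r : ℝ => g (y + r • v, t₀)) (fderiv ℝ g (y, t₀) (v, 0)) 0 := by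
        have h4 : HasFDerivAt g (fderiv ℝ g (y, t₀)) (y + (0 : ℝ) • v, t₀) := by
          simpa using (hgd (y, t₀)).hasFDerivAt
        exact h4.comp_hasDerivAt (0 : ℝ) (KB_path2 y v t₀)
      have h5 : (fun r : ℝ => g (y + r • v, t₀)) = fun _ => (1 : 𝔐) := by
        funext r
        exact hg0 _
      rw [h5] at h3
      exact h3.unique (hasDerivAt_const 0 (1 : 𝔐))
    simp only [hw, h2, hg0]
    simp
  have hcc : Continuous fun s : ℝ => cur A (y, s) (0, 1) (v, 0) := by
    have h2 : Continuous (fun s : ℝ => ((y, s) : V × ℝ)) := by fun_prop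
    have h3 : Continuous (fderiv ℝ A) := hA.continuous_fderiv (by simp)
    have h4 : Continuous fun s : ℝ => fderiv ℝ A (y, s) := h3.comp h2
    have h5 : Continuous fun s : ℝ => A (y, s) := hA.continuous.comp h2
    unfold cur
    fun_prop
  have hgc : Continuous fun s : ℝ => g (y, s) := by
    have h2 : Continuous (fun s : ℝ => ((y, s) : V × ℝ)) := by fun_prop
    exact hg.continuous.comp h2
  have hint : IntervalIntegrable
      (fun s => star (g (y, s)) * cur A (y, s) (0, 1) (v, 0) * g (y, s)) volume t₀ t := by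
    apply Continuous.intervalIntegrable
    exact ((continuous_star.comp hgc).mul hcc).mul hgc
  have hftc := intervalIntegral.integral_eq_sub_of_hasDerivAt (fun s _ => hprod s) hint
  have hwt2 : star (g (y, t)) * w t =
      ∫ s in t₀..t, star (g (y, s)) * cur A (y, s) (0, 1) (v, 0) * g (y, s) := by
    rw [hftc, hw0]
    simp
  have h9 : w t = g (y, t) * (star (g (y, t)) * w t) := by
    rw [← mul_assoc, (𝒢.unitary _ (hG _)).2, one_mul]
  have h10 : fderiv ℝ g (y, t) (v, 0) =
      (g (y, t) * A (y, t₀) (v, 0) - A (y, t) (v, 0) * g (y, t)) + w t := by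
    simp only [hw]
    abel
  rw [h10, h9, hwt2]

end Pool.TIW
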