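import Pool.Agent.Work.MP_a1f430_wb.Interface
import Pool.Agent.Work.MP_a1f430_ti.B_KT

/-! # Block KT4: the temporal gauge for every weak connection -/

set_option autoImplicit false

namespace Pool.TIW

open Pool.TIA
open MeasureTheory Set Filter Topology
open scoped ContDiff ENNReal

section aux

variable {V : Type} [NormedAddCommGroup V] [NormedSpace ℝ V]
variable {𝔐 : Type} [NormedRing 𝔐] [NormedAlgebra ℝ 𝔐]

/-- `T ↦ T(∂_t, ·)` -/
noncomputable def KT4_L0 (T : (V × ℝ) [⋀^Fin 2]→L[ℝ] 𝔐) : V →L[ℝ] 𝔐 :=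
  LinearMap.mkContinuous
    { toFun := fun v => T ![(0, 1), (v, 0)]
      map_add' := by
        intro v w
        have h := T.toContinuousMultilinearMap.map_update_add ![((0 : V), (1 : ℝ)), (v, 0)] 1
          (v, 0) (w, 0)
        have e : ∀ x : V × ℝ, Function.update ![((0 : V), (1 : ℝ)), (v, 0)] 1 x =
            ![((0 : V), (1 : ℝ)), x] := by
          intro x
          funext i
          fin_cases i <;> simp
        rw [e, e, e] at h
        simpa using h
      map_smul' := by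
        intro c v
        have h := T.toContinuousMultilinearMap.map_update_smul ![((0 : V), (1 : ℝ)), (v, 0)] 1
          c (v, 0)
        have e : ∀ x : V × ℝ, Function.update ![((0 : V), (1 : ℝ)), (v, 0)] 1 x =
            ![((0 : V), (1 : ℝ)), x] := by
          intro x
          funext i
          fin_cases i <;> simp
        rw [e, e] at h
        simpa using h } ‖T‖ (by
      intro v
      have h := T.toContinuousMultilinearMap.le_opNorm ![((0 : V), (1 : ℝ)), (v, 0)]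
      rw [Fin.prod_univ_two] at h
      have h1 : ‖((0 : V), (1 : ℝ))‖ = 1 := by
        rw [Prod.norm_def]
        simp
      have h2 : ‖((v, 0) : V × ℝ)‖ = ‖v‖ := by
        rw [Prod.norm_def]
        simp
      simp only [Matrix.cons_val_zero, Matrix.cons_val_one] at h
      rw [h1, h2, one_mul] at h
      exact h)

theorem KT4_L0_apply (T : (V × ℝ) [⋀^Fin 2]→L[ℝ] 𝔐) (v : V) :
    KT4_L0 T v = T ![(0, 1), (v, 0)] := rfl

theorem KT4_L0_norm (T : (V × ℝ) [⋀^Fin 2]→L[ℝ] 𝔐) : ‖KT4_L0 T‖ ≤ ‖T‖ :=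
  LinearMap.mkContinuous_norm_le _ (norm_nonneg _) _

theorem KT4_L0_cont : Continuous (KT4_L0 (V := V) (𝔐 := 𝔐)) := by
  have h : LipschitzWith 1 (KT4_L0 (V := V) (𝔐 := 𝔐)) := by
    refine LipschitzWith.of_dist_le_mul fun S T => ?_
    rw [dist_eq_norm, dist_eq_norm, NNReal.coe_one, one_mul]
    have e : KT4_L0 S - KT4_L0 T = KT4_L0 (S - T) := by
      ext v
      rfl
    rw [e]
    exact KT4_L0_norm _
  exact h.continuous

end aux

/-- The Cauchy-Schwarz inequality. -/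
theorem KT4_cs (ν : Measure ℝ) (f : ℝ → ℝ≥0∞) (hf : AEMeasurable f ν) :
    (∫⁻ s, f s ∂ν) ^ 2 ≤ ν univ * ∫⁻ s, f s ^ 2 ∂ν := by
  have h := ENNReal.lintegral_mul_le_Lp_mul_Lq ν (p := 2) (q := 2)
    (Real.HolderConjugate.two_two) hf (aemeasurable_const (b := (1 : ℝ≥0∞)))
  have e1 : ∫⁻ s, (f * (fun _ => (1 : ℝ≥0∞) : ℝ → ℝ≥0∞)) s ∂ν = ∫⁻ s, f s ∂ν := by
    refine lintegral_congr fun s => ?_
    rw [Pi.mul_apply, mul_one]
  rw [e1] at h
  have e2 : ∫⁻ _s : ℝ, (1 : ℝ≥0∞) ^ (2 : ℝ) ∂ν = ν univ := by simp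
  rw [e2] at h
  have e3 : ∫⁻ s, f s ^ (2 : ℝ) ∂ν = ∫⁻ s, f s ^ 2 ∂ν := by
    refine lintegral_congr fun s => ?_
    exact_mod_cast ENNReal.rpow_natCast (f s) 2
  rw [e3] at h
  have h2 := pow_le_pow_left' h 2
  refine h2.trans (le_of_eq ?_)
  rw [mul_pow]
  have e4 : ∀ x : ℝ≥0∞, (x ^ (1 / (2 : ℝ))) ^ 2 = x := by
    intro x
    rw [← ENNReal.rpow_natCast, ← ENNReal.rpow_mul]
    norm_num
  rw [e4, e4, mul_comm]

/-- measurability and the bound of the primitive -/
theorem KT4_prim {V X : Type} [MeasurableSpace V] [NormedAddCommGroup X] [NormedSpace ℝ X]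
    (μK : Measure V) [SFinite μK] (a b t₀ : ℝ) (ht₀ : t₀ ∈ Icc a b)
    (ψ : V × ℝ → X) (hψ : StronglyMeasurable ψ)
    (h2 : MemLp ψ 2 (μK.prod (volume.restrict (Icc a b)))) :
    MemLp (fun p : V × ℝ => ∫ s in t₀..p.2, ψ (p.1, s)) 2
      (μK.prod (volume.restrict (Icc a b))) := by
  have hq : StronglyMeasurable fun q : (V × ℝ) × ℝ => ψ (q.1.1, q.2) :=
    hψ.comp_measurable (by fun_prop)
  have h1 : StronglyMeasurable fun p : V × ℝ => ∫ s in Ioc t₀ p.2, ψ (p.1, s) := by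
    have hs : MeasurableSet {q : (V × ℝ) × ℝ | t₀ < q.2 ∧ q.2 ≤ q.1.2} :=
      (measurableSet_lt measurable_const measurable_snd).inter
        (measurableSet_le measurable_snd (measurable_snd.comp measurable_fst))
    have h3 := (hq.indicator hs).integral_prod_right' (ν := (volume : Measure ℝ))
    have e : (fun p : V × ℝ => ∫ s in Ioc t₀ p.2, ψ (p.1, s)) = fun p => ∫ s,
        {q : (V × ℝ) × ℝ | t₀ < q.2 ∧ q.2 ≤ q.1.2}.indicator (fun q => ψ (q.1.1, q.2)) (p, s) := by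
      funext p
      rw [← integral_indicator measurableSet_Ioc]
      refine integral_congr_ae (Eventually.of_forall fun s => ?_)
      by_cases h : t₀ < s ∧ s ≤ p.2
      · simp [indicator, h]
      · simp [indicator, h]
    rw [e]
    exact h3
  have h1' : StronglyMeasurable fun p : V × ℝ => ∫ s in Ioc p.2 t₀, ψ (p.1, s) := by
    have hs : MeasurableSet {q : (V × ℝ) × ℝ | q.1.2 < q.2 ∧ q.2 ≤ t₀} :=
      (measurableSet_lt (measurable_snd.comp measurable_fst) measurable_snd).inter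
        (measurableSet_le measurable_snd measurable_const)
    have h3 := (hq.indicator hs).integral_prod_right' (ν := (volume : Measure ℝ))
    have e : (fun p : V × ℝ => ∫ s in Ioc p.2 t₀, ψ (p.1, s)) = fun p => ∫ s,
        {q : (V × ℝ) × ℝ | q.1.2 < q.2 ∧ q.2 ≤ t₀}.indicator (fun q => ψ (q.1.1, q.2)) (p, s) := by
      funext p
      rw [← integral_indicator measurableSet_Ioc]
      refine integral_congr_ae (Eventually.of_forall fun s => ?_)
      by_cases h : p.2 < s ∧ s ≤ t₀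
      · simp [indicator, h]
      · simp [indicator, h]
    rw [e]
    exact h3
  have hm : StronglyMeasurable (fun p : V × ℝ => ∫ s in t₀..p.2, ψ (p.1, s)) := h1.sub h1'
  refine ⟨hm.aestronglyMeasurable, ?_⟩
  obtain ⟨μI, hμI⟩ : ∃ μI : Measure ℝ, μI = volume.restrict (Icc a b) := ⟨_, rfl⟩
  rw [← hμI] at h2 ⊢
  have hfI : IsFiniteMeasure μI := ⟨by rw [hμI]; simp⟩
  rw [eLpNorm_lt_top_iff_lintegral_rpow_enorm_lt_top (by norm_num) (by norm_num)]
  have hψ2 : ∫⁻ p, ‖ψ p‖ₑ ^ 2 ∂(μK.prod μI) < ⊤ := by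
    have h3 := (eLpNorm_lt_top_iff_lintegral_rpow_enorm_lt_top (p := 2) (by norm_num)
      (by norm_num)).1 h2.2
    refine lt_of_le_of_lt (le_of_eq ?_) h3
    refine lintegral_congr fun p => ?_
    rw [ENNReal.toReal_ofNat]
    exact_mod_cast (ENNReal.rpow_natCast _ 2).symm
  have hmeas : Measurable fun p : V × ℝ => ‖ψ p‖ₑ := hψ.enorm
  have hle : ∀ᵐ p ∂(μK.prod μI), ‖∫ s in t₀..p.2, ψ (p.1, s)‖ₑ ^ (2 : ℝ≥0∞).toReal ≤
      μI univ * ∫⁻ s, ‖ψ (p.1, s)‖ₑ ^ 2 ∂μI := by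
    have hp2 : ∀ᵐ p ∂(μK.prod μI), p.2 ∈ Icc a b := by
      have h3 : ∀ᵐ s ∂μI, s ∈ Icc a b := by
        rw [hμI]
        exact ae_restrict_mem measurableSet_Icc
      exact Measure.quasiMeasurePreserving_snd.ae h3
    filter_upwards [hp2] with p hp
    have h4 : ‖∫ s in t₀..p.2, ψ (p.1, s)‖ₑ ≤ ∫⁻ s, ‖ψ (p.1, s)‖ₑ ∂μI := by
      have h5 : ‖∫ s in t₀..p.2, ψ (p.1, s)‖ₑ = ‖∫ s in uIoc t₀ p.2, ψ (p.1, s)‖ₑ := by
        have := intervalIntegral.norm_intervalIntegral_eq (fun s => ψ (p.1, s)) t₀ p.2 volume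
        rw [← ofReal_norm, ← ofReal_norm, this]
      rw [h5]
      refine (enorm_integral_le_lintegral_enorm _).trans ?_
      rw [hμI]
      refine lintegral_mono_set ?_
      exact uIoc_subset_uIcc.trans (uIcc_subset_Icc ht₀ hp)
    have h6 : AEMeasurable (fun s : ℝ => ‖ψ (p.1, s)‖ₑ) μI :=
      (hmeas.comp (measurable_const.prodMk measurable_id)).aemeasurable
    refine le_trans ?_ (KT4_cs μI _ h6)
    rw [ENNReal.toReal_ofNat]
    have h7 := pow_le_pow_left' h4 2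
    refine le_trans (le_of_eq ?_) h7
    exact_mod_cast ENNReal.rpow_natCast _ 2
  refine (lintegral_mono_ae hle).trans_lt ?_
  have hG : Measurable fun y : V => ∫⁻ s, ‖ψ (y, s)‖ₑ ^ 2 ∂μI :=
    (hmeas.pow_const 2).lintegral_prod_right'
  have e1 : ∫⁻ p, μI univ * ∫⁻ s, ‖ψ (p.1, s)‖ₑ ^ 2 ∂μI ∂(μK.prod μI) =
      μI univ * (μI univ * ∫⁻ p, ‖ψ p‖ₑ ^ 2 ∂(μK.prod μI)) := by
    have hG1 : Measurable fun p : V × ℝ => ∫⁻ s, ‖ψ (p.1, s)‖ₑ ^ 2 ∂μI :=
      hG.comp measurable_fst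
    rw [lintegral_const_mul _ hG1]
    congr 1
    rw [lintegral_prod _ hG1.aemeasurable, lintegral_prod _ (hmeas.pow_const 2).aemeasurable]
    simp only [lintegral_const]
    rw [lintegral_mul_const _ hG, mul_comm]
  rw [e1]
  exact ENNReal.mul_lt_top (measure_lt_top _ _) (ENNReal.mul_lt_top (measure_lt_top _ _) hψ2)

/-- integrals of functions with values in a submodule -/
theorem KT4_mem {𝔐 : Type} [NormedAddCommGroup 𝔐] [NormedSpace ℝ 𝔐] [FiniteDimensional ℝ 𝔐]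
    (L : Submodule ℝ 𝔐) (f : ℝ → 𝔐) (ν : Measure ℝ) (h : ∀ᵐ s ∂ν, f s ∈ L) :
    ∫ s, f s ∂ν ∈ L := by
  by_contra hne
  obtain ⟨l, hl, hL⟩ := Submodule.exists_le_ker_of_notMem hne
  by_cases hi : Integrable f ν
  · have h1 := (LinearMap.toContinuousLinearMap l).integral_comp_comm hi
    have h2 : ∫ s, (LinearMap.toContinuousLinearMap l) (f s) ∂ν = 0 := by
      rw [integral_eq_zero_of_ae]
      filter_upwards [h] with s hs
      exact hL hs
    rw [h2] at h1
    exact hl h1.symm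
  · rw [integral_undef hi] at hne
    exact hne L.zero_mem

theorem KT4_add {E X : Type} [MeasurableSpace E] [NormedAddCommGroup X] (μ : Measure E)
    (f g : E → X) (hf : MemLp f 2 μ) (hg : MemLp g 2 μ) : MemLp (fun p => f p + g p) 2 μ :=
  hf.add hg

theorem KT4_sub {E X : Type} [MeasurableSpace E] [NormedAddCommGroup X] (μ : Measure E)
    (f g : E → X) (hf : MemLp f 2 μ) (hg : MemLp g 2 μ) : MemLp (fun p => f p - g p) 2 μ :=
  hf.sub hg

section aux2

variable {V : Type} [NormedAddCommGroup V] [NormedSpace ℝ V] [MeasurableSpace V]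
variable {𝔐 : Type} [NormedRing 𝔐] [NormedAlgebra ℝ 𝔐]

theorem KT4_fst {V 𝔐 : Type} [NormedAddCommGroup V] [NormedSpace ℝ V] [MeasurableSpace V]
    [NormedRing 𝔐] [NormedAlgebra ℝ 𝔐] (μ : Measure (V × ℝ)) (f : V × ℝ → V →L[ℝ] 𝔐)
    (hf : MemLp f 2 μ) :
    MemLp (fun p : V × ℝ => (f p).comp (ContinuousLinearMap.fst ℝ V ℝ)) 2 μ := by
  have hc : Continuous fun T : V →L[ℝ] 𝔐 => T.comp (ContinuousLinearMap.fst ℝ V ℝ) :=
    ((ContinuousLinearMap.compL ℝ (V × ℝ) V 𝔐).flip (ContinuousLinearMap.fst ℝ V ℝ)).continuous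
  have hb : ∀ T : V →L[ℝ] 𝔐, ‖T.comp (ContinuousLinearMap.fst ℝ V ℝ)‖ ≤
      ‖ContinuousLinearMap.fst ℝ V ℝ‖ * ‖T‖ := by
    intro T
    rw [mul_comm]
    exact ContinuousLinearMap.opNorm_comp_le _ _
  exact MemLp.of_le_mul (c := ‖ContinuousLinearMap.fst ℝ V ℝ‖) hf
    (hc.comp_aestronglyMeasurable hf.1) (Eventually.of_forall fun p => hb (f p))

theorem KT4_mulL {E 𝔐 : Type} [NormedAddCommGroup E] [NormedSpace ℝ E] [MeasurableSpace E]
    [NormedRing 𝔐] [NormedAlgebra ℝ 𝔐] (μ : Measure E) (f : E → E →L[ℝ] 𝔐) (g : E → 𝔐)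
    (hf : MemLp f 2 μ) (hg : AEStronglyMeasurable g μ) (hg1 : ∀ᵐ p ∂μ, ‖g p‖ ≤ 1) :
    MemLp (fun p => (ContinuousLinearMap.mul ℝ 𝔐 (g p)).comp (f p)) 2 μ := by
  have hc : Continuous fun q : 𝔐 × (E →L[ℝ] 𝔐) =>
      (ContinuousLinearMap.mul ℝ 𝔐 q.1).comp q.2 := by fun_prop
  refine MemLp.of_le_mul (c := ‖ContinuousLinearMap.mul ℝ 𝔐‖) hf
    (hc.comp_aestronglyMeasurable (hg.prodMk hf.1)) ?_
  filter_upwards [hg1] with p hp
  refine (ContinuousLinearMap.opNorm_comp_le _ _).trans ?_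
  refine mul_le_mul_of_nonneg_right ?_ (norm_nonneg _)
  refine ((ContinuousLinearMap.mul ℝ 𝔐).le_opNorm _).trans ?_
  exact mul_le_of_le_one_right (norm_nonneg _) hp

theorem KT4_mulR {E 𝔐 : Type} [NormedAddCommGroup E] [NormedSpace ℝ E] [MeasurableSpace E]
    [NormedRing 𝔐] [NormedAlgebra ℝ 𝔐] (μ : Measure E) (f : E → E →L[ℝ] 𝔐) (g : E → 𝔐)
    (hf : MemLp f 2 μ) (hg : AEStronglyMeasurable g μ) (hg1 : ∀ᵐ p ∂μ, ‖g p‖ ≤ 1) :
    MemLp (fun p => ((ContinuousLinearMap.mul ℝ 𝔐).flip (g p)).comp (f p)) 2 μ := by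
  have hc : Continuous fun q : 𝔐 × (E →L[ℝ] 𝔐) =>
      ((ContinuousLinearMap.mul ℝ 𝔐).flip q.1).comp q.2 := by fun_prop
  refine MemLp.of_le_mul (c := ‖(ContinuousLinearMap.mul ℝ 𝔐).flip‖) hf
    (hc.comp_aestronglyMeasurable (hg.prodMk hf.1)) ?_
  filter_upwards [hg1] with p hp
  refine (ContinuousLinearMap.opNorm_comp_le _ _).trans ?_
  refine mul_le_mul_of_nonneg_right ?_ (norm_nonneg _)
  refine ((ContinuousLinearMap.mul ℝ 𝔐).flip.le_opNorm _).trans ?_
  exact mul_le_of_le_one_right (norm_nonneg _) hp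

/-- conjugation by elements of norm at most one -/
theorem KT4_conj {𝔐 : Type} [NormedRing 𝔐] [StarRing 𝔐] [CStarRing 𝔐] (x F : 𝔐) (hx : ‖x‖ ≤ 1) :
    ‖star x * (F * x)‖ ≤ ‖F‖ := by
  have h1 : ‖star x‖ ≤ 1 := by rw [norm_star]; exact hx
  calc ‖star x * (F * x)‖ ≤ ‖star x‖ * ‖F * x‖ := norm_mul_le _ _
    _ ≤ 1 * (‖F‖ * ‖x‖) := mul_le_mul h1 (norm_mul_le _ _) (norm_nonneg _) zero_le_one
    _ ≤ 1 * (‖F‖ * 1) := by
        refine mul_le_mul_of_nonneg_left ?_ zero_le_one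
        exact mul_le_mul_of_nonneg_left hx (norm_nonneg _)
    _ = ‖F‖ := by rw [one_mul, mul_one]

theorem KT4_adL {V 𝔐 : Type} [NormedAddCommGroup V] [NormedSpace ℝ V] [MeasurableSpace V]
    [NormedRing 𝔐] [NormedAlgebra ℝ 𝔐] [StarRing 𝔐] [CStarRing 𝔐]
    (μ : Measure (V × ℝ)) (f : V × ℝ → V →L[ℝ] 𝔐) (g : V × ℝ → 𝔐)
    (hf : MemLp f 2 μ) (hg : AEStronglyMeasurable g μ) (hg1 : ∀ᵐ p ∂μ, ‖g p‖ ≤ 1) :
    MemLp (fun p => (adL (g p)).comp (f p)) 2 μ := by
  have hc : Continuous fun q : 𝔐 × (V →L[ℝ] 𝔐) => (adL q.1).comp q.2 := by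
    have h1 : Continuous fun x : 𝔐 => adL x := by
      unfold adL
      fun_prop
    fun_prop
  refine MemLp.of_le hf (hc.comp_aestronglyMeasurable (hg.prodMk hf.1)) ?_
  filter_upwards [hg1] with p hp
  refine ContinuousLinearMap.opNorm_le_bound _ (norm_nonneg _) fun v => ?_
  rw [ContinuousLinearMap.comp_apply, adL_apply]
  exact (KT4_conj (g p) (f p v) hp).trans ((f p).le_opNorm v)

end aux2

theorem p_KT4 (hLIE : Pool.TIA.Stmt_LIE) (hLOD : Pool.TIA.Stmt_LOD) (hCLG : Pool.TIA.Stmt_CLG)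
    (hKC : Pool.TIA.Stmt_KC) (hLCF : Stmt_LCF) (hLBR : Stmt_LBR) (hKA4 : Stmt_KA4)
    (hKB4 : Stmt_KB4) : Stmt_KT4 := by
  intro 𝔐 _ _ _ _ _ _ 𝒢 V _ _ _ _ _ _ W A F K a b hW hC hK hab hKW
  obtain ⟨-, hG1, hGn⟩ := hLIE 𝔐 𝒢
  obtain ⟨B, t₀, ht₀, hBs, hBc, hBl, hB2, hAm, hAl, hBt, hBC, hBF, -⟩ :=
    hKA4 𝔐 𝒢 V W A F K a b hW hC hK hab hKW
  -- the solutions
  have hsol : ∀ j, ∃ g : V × ℝ → 𝔐, ContDiff ℝ ∞ g ∧ (∀ y, g (y, t₀) = 1) ∧
      (∀ y t, HasDerivAt (fun s => g (y, s)) (-(B j (y, t) (0, 1) * g (y, t))) t) ∧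
      ∀ p, g p ∈ 𝒢.G := by
    intro j
    refine hLOD 𝔐 𝒢 V (fun p => B j p (0, 1)) t₀ ?_ ?_ (fun p => hBl j p _)
    · exact (hBs j).clm_apply contDiff_const
    · exact (hBc j).comp_left (g := fun T : V × ℝ →L[ℝ] 𝔐 => T (0, 1)) rfl
  choose g hgs hg1 hgd hgG using hsol
  set Q : Set (V × ℝ) := K ×ˢ Icc a b with hQ
  set μ : Measure (V × ℝ) := volume.restrict Q with hμ
  set μK : Measure V := volume.restrict K with hμK
  set μI : Measure ℝ := volume.restrict (Icc a b) with hμI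
  have hQc : IsCompact Q := hK.prod isCompact_Icc
  have hKm : MeasurableSet K := hK.measurableSet
  have hprod : μ = μK.prod μI := by
    rw [hμ, hμK, hμI, hQ, Measure.volume_eq_prod, Measure.prod_restrict]
  have hfK : IsFiniteMeasure μK := ⟨by rw [hμK]; simpa using hK.measure_lt_top⟩
  have hfI : IsFiniteMeasure μI := ⟨by rw [hμI]; simp⟩
  have hfQ : IsFiniteMeasure μ := by rw [hprod]; infer_instance
  have hae : ∀ P : V → Prop, (∀ᵐ y ∂μK, P y) → ∀ᵐ p ∂μ, P p.1 := by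
    intro P hP
    rw [hprod]
    exact Measure.quasiMeasurePreserving_fst.ae hP
  have hmemQ : ∀ᵐ p ∂μ, p ∈ Q := ae_restrict_mem hQc.measurableSet
  have hn01 : ‖((0 : V), (1 : ℝ))‖ = 1 := by
    rw [Prod.norm_def]
    simp
  -- convergence of the solutions
  have hcv : ∀ᵐ p ∂μ, ∃ l, Tendsto (fun j => g j p) atTop (𝓝 l) := by
    filter_upwards [hae _ hBC, hmemQ] with p hp hpQ
    apply cauchySeq_tendsto_of_complete
    rw [cauchySeq_iff_tendsto_dist_atTop_0]
    refine squeeze_zero (fun _ => dist_nonneg) (fun q => ?_) hp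
    rw [dist_eq_norm]
    have hcont : ∀ j, Continuous fun s : ℝ => B j (p.1, s) := fun j =>
      (hBs j).continuous.comp (by fun_prop)
    have h1 := hKC 𝔐 𝒢 (fun s => B q.1 (p.1, s) (0, 1)) (fun s => B q.2 (p.1, s) (0, 1))
      (fun s => g q.1 (p.1, s)) (fun s => g q.2 (p.1, s)) a b t₀
      ((hcont q.1).clm_apply continuous_const) ((hcont q.2).clm_apply continuous_const)
      (fun t => ⟨hBl q.1 _ _, hBl q.2 _ _⟩) (fun t => ⟨hgG q.1 _, hgG q.2 _⟩) (hg1 q.1 _)
      (hg1 q.2 _) (fun t => hgd q.1 _ t) (fun t => hgd q.2 _ t) ht₀ p.2 hpQ.2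
    refine h1.trans ?_
    refine integral_mono_of_nonneg (Eventually.of_forall fun _ => norm_nonneg _) ?_
      (Eventually.of_forall fun s => ?_)
    · exact (((hcont q.1).sub (hcont q.2)).norm.continuousOn).integrableOn_compact isCompact_Icc
    · have := (B q.1 (p.1, s) - B q.2 (p.1, s)).le_opNorm (0, 1)
      rw [hn01, mul_one] at this
      simpa using this
  set gl : V × ℝ → 𝔐 := fun p => limUnder atTop fun j => g j p with hgl
  have hlim : ∀ᵐ p ∂μ, Tendsto (fun j => g j p) atTop (𝓝 (gl p)) := by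
    filter_upwards [hcv] with p hp
    exact tendsto_nhds_limUnder hp
  have hgm : ∀ j, AEStronglyMeasurable (g j) μ := fun j =>
    (hgs j).continuous.aestronglyMeasurable
  have hglm : AEStronglyMeasurable gl μ := aestronglyMeasurable_of_tendsto_ae atTop hgm hlim
  have hglG : ∀ᵐ p ∂μ, gl p ∈ 𝒢.G := by
    filter_upwards [hlim] with p hp
    exact 𝒢.closed.mem_of_tendsto hp (Eventually.of_forall fun j => hgG j p)
  have hgn : ∀ j p, ‖g j p‖ ≤ 1 := fun j p => hG1 _ (hgG j p)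
  have hgln : ∀ᵐ p ∂μ, ‖gl p‖ ≤ 1 := by
    filter_upwards [hglG] with p hp
    exact hG1 _ hp
  -- the limit forms
  have hA2 : MemLp A 2 μ := hC.A2 Q hQc hKW
  have hF2 : MemLp F 2 μ := hC.F2 Q hQc hKW
  have hAt2 : MemLp (fun p : V × ℝ => A (p.1, t₀)) 2 μ := by
    rw [hprod]
    exact hAm.comp_fst μI
  set B₀ : V → V →L[ℝ] 𝔐 := fun y => (A (y, t₀)).comp (ContinuousLinearMap.inl ℝ V ℝ) with hB₀
  have hB₀2 : MemLp B₀ 2 μK := by
    refine MemLp.of_le_mul (c := ‖ContinuousLinearMap.inl ℝ V ℝ‖) hAm ?_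
      (Eventually.of_forall fun y => ?_)
    · exact ((ContinuousLinearMap.compL ℝ V (V × ℝ) 𝔐).flip
        (ContinuousLinearMap.inl ℝ V ℝ)).continuous.comp_aestronglyMeasurable hAm.1
    · rw [mul_comm]
      exact ContinuousLinearMap.opNorm_comp_le _ _
  -- the density of the correction
  have hFL2 : MemLp (fun p => KT4_L0 (F p)) 2 μ :=
    MemLp.of_le hF2 (KT4_L0_cont.comp_aestronglyMeasurable hF2.1)
      (Eventually.of_forall fun p => KT4_L0_norm _)
  obtain ⟨ψ, hψd⟩ : ∃ ψ : V × ℝ → V →L[ℝ] 𝔐, ∀ p v, ψ p v =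
      star (gl p) * (F p ![(0, 1), (v, 0)] * gl p) :=
    ⟨fun p => (adL (gl p)).comp (KT4_L0 (F p)), fun p v => rfl⟩
  have hψ2 : MemLp ψ 2 μ := by
    have h1 := KT4_adL μ (fun p => KT4_L0 (F p)) gl hFL2 hglm hgln
    have e : ψ = fun p => (adL (gl p)).comp (KT4_L0 (F p)) := by
      funext p
      ext v
      rw [hψd]
      rfl
    rw [e]
    exact h1
  have hψm : AEStronglyMeasurable ψ μ := hψ2.1
  obtain ⟨ψ', hψ's, hψψ'⟩ : ∃ ψ' : V × ℝ → V →L[ℝ] 𝔐, StronglyMeasurable ψ' ∧ ψ =ᵐ[μ] ψ' :=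
    ⟨hψm.mk ψ, hψm.stronglyMeasurable_mk, hψm.ae_eq_mk⟩
  have hψ'2 : MemLp ψ' 2 μ := hψ2.ae_eq hψψ'
  obtain ⟨C, hCdef⟩ : ∃ C : V × ℝ → V →L[ℝ] 𝔐, C = fun p => ∫ s in t₀..p.2, ψ' (p.1, s) :=
    ⟨_, rfl⟩
  have hC2 : MemLp C 2 μ := by
    rw [hCdef, hprod]
    exact KT4_prim μK a b t₀ ht₀ ψ' hψ's (by rw [← hμI, ← hprod]; exact hψ'2)
  obtain ⟨A', hA'⟩ : ∃ A' : V × ℝ → V × ℝ →L[ℝ] 𝔐, A' = fun p =>
      (B₀ p.1).comp (ContinuousLinearMap.fst ℝ V ℝ) +
        (C p).comp (ContinuousLinearMap.fst ℝ V ℝ) := ⟨_, rfl⟩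
  have hA'v : ∀ p v, A' p v = A (p.1, t₀) (v.1, 0) + C p v.1 := by
    intro p v
    rw [hA']
    simp [hB₀]
  have hA'2 : MemLp A' 2 μ := by
    have h2 : MemLp (fun p : V × ℝ => B₀ p.1) 2 μ := by
      rw [hprod]
      exact hB₀2.comp_fst μI
    have h3 := KT4_fst μ (fun p => B₀ p.1) h2
    have h4 := KT4_fst μ C hC2
    rw [hA']
    exact KT4_add μ _ _ h3 h4
  obtain ⟨dg, hdg⟩ : ∃ dg : V × ℝ → V × ℝ →L[ℝ] 𝔐, dg = fun p =>
    (ContinuousLinearMap.mul ℝ 𝔐 (gl p)).comp (A' p) -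
      ((ContinuousLinearMap.mul ℝ 𝔐).flip (gl p)).comp (A p) := ⟨_, rfl⟩
  have hdgv : ∀ p v, dg p v = gl p * A' p v - A p v * gl p := by
    intro p v
    rw [hdg]
    rfl
  have hdg2 : MemLp dg 2 μ := by
    have h3 := KT4_mulL μ A' gl hA'2 hglm hgln
    have h4 := KT4_mulR μ A gl hA2 hglm hgln
    rw [hdg]
    exact KT4_sub μ _ _ h3 h4
  have hsub : ∀ K' : Set (V × ℝ), K' ⊆ interior K ×ˢ Ioo a b → volume.restrict K' ≤ μ := by
    intro K' hK'
    refine Measure.restrict_mono (hK'.trans ?_) le_rfl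
    exact prod_mono interior_subset Ioo_subset_Icc_self
  have hgb : MemLp gl 2 μ := MemLp.of_bound hglm 1 hgln
  -- L¹ convergence
  have hL1g : Tendsto (fun j => eLpNorm (fun p => g j p - gl p) 1 μ) atTop (𝓝 0) := by
    refine KT_dct μ g gl (fun _ => 2) hgm hglm (integrable_const _) ?_ hlim
    intro j
    filter_upwards [hgln] with p hp
    calc ‖g j p - gl p‖ ≤ ‖g j p‖ + ‖gl p‖ := norm_sub_le _ _
      _ ≤ 2 := by linarith [hgn j p]
  have hL1d : ∀ v, Tendsto (fun j => eLpNorm (fun p => fderiv ℝ (g j) p v - dg p v) 1 μ)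
      atTop (𝓝 0) := by
    intro v
    have hcc : ∀ j, Continuous fun p : V × ℝ => cur (B j) p (0, 1) (v.1, 0) := by
      intro j
      have h1 : Continuous (B j) := (hBs j).continuous
      have h2 : Continuous (fderiv ℝ (B j)) := (hBs j).continuous_fderiv (by simp)
      unfold cur
      fun_prop
    obtain ⟨Fv, hFv⟩ : ∃ Fv : V × ℝ → 𝔐, ∀ p, Fv p = F p ![(0, 1), (v.1, 0)] :=
      ⟨_, fun _ => rfl⟩
    have hFvi : Integrable Fv μ := by
      have h1 : Integrable (fun p => KT4_L0 (F p)) μ := hFL2.integrable (by norm_num)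
      have h2 := (ContinuousLinearMap.apply ℝ 𝔐 v.1).integrable_comp h1
      refine h2.congr (Eventually.of_forall fun p => ?_)
      show (ContinuousLinearMap.apply ℝ 𝔐 v.1) (KT4_L0 (F p)) = Fv p
      rw [ContinuousLinearMap.apply_apply, KT4_L0_apply, hFv]
    obtain ⟨D, hD⟩ : ∃ D : ℕ → V × ℝ → 𝔐, ∀ j p, D j p =
        star (g j p) * (Fv p * g j p) - star (gl p) * (Fv p * gl p) := ⟨_, fun _ _ => rfl⟩
    have hDm : ∀ j, AEStronglyMeasurable (D j) μ := by
      intro j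
      have e : D j = fun p => star (g j p) * (Fv p * g j p) - star (gl p) * (Fv p * gl p) :=
        funext fun p => hD j p
      rw [e]
      exact ((continuous_star.comp_aestronglyMeasurable (hgm j)).mul (hFvi.1.mul (hgm j))).sub
        ((continuous_star.comp_aestronglyMeasurable hglm).mul (hFvi.1.mul hglm))
    have hDb : ∀ j, ∀ᵐ p ∂μ, ‖D j p‖ ≤ 2 * ‖Fv p‖ := by
      intro j
      filter_upwards [hgln] with p hp
      rw [hD]
      have hb : ∀ x : 𝔐, ‖x‖ ≤ 1 → ‖star x * (Fv p * x)‖ ≤ ‖Fv p‖ := fun x hx =>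
        KT4_conj x (Fv p) hx
      have h1 := norm_sub_le (star (g j p) * (Fv p * g j p)) (star (gl p) * (Fv p * gl p))
      have h2 := hb _ (hgn j p)
      have h3 := hb _ hp
      linarith
    have hDi : ∀ j, Integrable (D j) μ := fun j =>
      Integrable.mono' (hFvi.norm.const_mul 2) (hDm j) (hDb j)
    have hDt : Tendsto (fun j => ∫ p, ‖D j p‖ ∂μ) atTop (𝓝 0) := by
      have h1 := tendsto_integral_of_dominated_convergence (F := fun j p => ‖D j p‖)
        (f := fun _ : V × ℝ => (0 : ℝ)) (μ := μ) (fun p => 2 * ‖Fv p‖)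
        (fun j => (hDm j).norm) (hFvi.norm.const_mul 2) (fun j => by
          filter_upwards [hDb j] with p hp
          rwa [norm_norm]) (by
          filter_upwards [hlim] with p hp
          have h2 : Tendsto (fun j => D j p) atTop (𝓝 (star (gl p) * (Fv p * gl p) -
              star (gl p) * (Fv p * gl p))) := by
            simp only [hD]
            exact (((continuous_star.tendsto _).comp hp).mul (hp.const_mul (Fv p))).sub_const _
          rw [sub_self] at h2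
          have h3 := h2.norm
          rwa [norm_zero] at h3)
      rw [integral_zero] at h1
      exact h1
    obtain ⟨E1, hE1⟩ : ∃ E1 : ℕ → V × ℝ → 𝔐, ∀ j p, E1 j p =
        cur (B j) p (0, 1) (v.1, 0) - Fv p := ⟨_, fun _ _ => rfl⟩
    have hE1i : ∀ j, Integrable (E1 j) μ := by
      intro j
      have e : E1 j = fun p => cur (B j) p (0, 1) (v.1, 0) - Fv p := funext fun p => hE1 j p
      rw [e]
      exact ((hcc j).continuousOn.integrableOn_compact hQc).sub hFvi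
    obtain ⟨R, hR⟩ : ∃ R : ℕ → V → ℝ, ∀ j y, R j y =
        (∫ s, ‖E1 j (y, s)‖ ∂μI) + ∫ s, ‖D j (y, s)‖ ∂μI := ⟨_, fun _ _ => rfl⟩
    have hR1i : ∀ j, Integrable (fun y => ∫ s, ‖E1 j (y, s)‖ ∂μI) μK := by
      intro j
      have h1 : Integrable (fun p : V × ℝ => ‖E1 j p‖) (μK.prod μI) := by
        rw [← hprod]
        exact (hE1i j).norm
      exact h1.integral_prod_left
    have hR2i : ∀ j, Integrable (fun y => ∫ s, ‖D j (y, s)‖ ∂μI) μK := by
      intro j
      have h1 : Integrable (fun p : V × ℝ => ‖D j p‖) (μK.prod μI) := by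
        rw [← hprod]
        exact (hDi j).norm
      exact h1.integral_prod_left
    have hRi : ∀ j, Integrable (R j) μK := by
      intro j
      have e : R j = fun y => (∫ s, ‖E1 j (y, s)‖ ∂μI) + ∫ s, ‖D j (y, s)‖ ∂μI :=
        funext fun y => hR j y
      rw [e]
      exact (hR1i j).add (hR2i j)
    have hR0 : ∀ j y, 0 ≤ R j y := by
      intro j y
      rw [hR]
      exact add_nonneg (integral_nonneg fun _ => norm_nonneg _)
        (integral_nonneg fun _ => norm_nonneg _)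
    have hRint : Tendsto (fun j => ∫ y, R j y ∂μK) atTop (𝓝 0) := by
      have h1 : ∀ j, ∫ y, R j y ∂μK = (∫ y, ∫ s, ‖E1 j (y, s)‖ ∂μI ∂μK) +
          ∫ p, ‖D j p‖ ∂μ := by
        intro j
        have e : R j = fun y => (∫ s, ‖E1 j (y, s)‖ ∂μI) + ∫ s, ‖D j (y, s)‖ ∂μI :=
          funext fun y => hR j y
        rw [e, integral_add (hR1i j) (hR2i j)]
        congr 1
        have h2 : Integrable (fun p : V × ℝ => ‖D j p‖) (μK.prod μI) := by
          rw [← hprod]
          exact (hDi j).norm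
        rw [hprod, integral_prod _ h2]
      have h3 : Tendsto (fun j => ∫ y, ∫ s, ‖E1 j (y, s)‖ ∂μI ∂μK) atTop (𝓝 0) := by
        refine (hBF v.1).congr fun j => ?_
        simp only [hE1, hFv]
      have h4 := h3.add hDt
      rw [add_zero] at h4
      exact h4.congr fun j => (h1 j).symm
    have hRt : Tendsto (fun j => eLpNorm (fun p : V × ℝ => R j p.1) 1 μ) atTop (𝓝 0) := by
      have h1 : ∀ j, eLpNorm (fun p : V × ℝ => R j p.1) 1 μ =
          μI univ * ENNReal.ofReal (∫ y, R j y ∂μK) := by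
        intro j
        rw [hprod, KT_fst μK μI (R j) (hRi j).1, eLpNorm_one_eq_lintegral_enorm,
          ← ofReal_integral_norm_eq_lintegral_enorm (hRi j)]
        congr 3
        funext y
        rw [Real.norm_eq_abs, abs_of_nonneg (hR0 j y)]
      simp only [h1]
      have h2 := ENNReal.tendsto_ofReal hRint
      rw [ENNReal.ofReal_zero] at h2
      have h3 := ENNReal.Tendsto.const_mul h2 (a := μI univ) (Or.inr (measure_ne_top _ _))
      simpa using h3
    -- the slices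
    have hsl : ∀ j, ∀ᵐ y ∂μK, Integrable (fun s => E1 j (y, s)) μI ∧
        Integrable (fun s => D j (y, s)) μI ∧ Integrable (fun s => Fv (y, s)) μI ∧
        Integrable (fun s => ψ' (y, s)) μI ∧ (∀ᵐ s ∂μI, ψ (y, s) = ψ' (y, s)) := by
      intro j
      have h1 : Integrable (E1 j) (μK.prod μI) := by rw [← hprod]; exact hE1i j
      have h2 : Integrable (D j) (μK.prod μI) := by rw [← hprod]; exact hDi j
      have h3 : Integrable Fv (μK.prod μI) := by rw [← hprod]; exact hFvi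
      have h4 : Integrable ψ' (μK.prod μI) := by
        rw [← hprod]
        exact hψ'2.integrable (by norm_num)
      have h5 : ∀ᵐ y ∂μK, ∀ᵐ s ∂μI, ψ (y, s) = ψ' (y, s) := by
        rw [hprod] at hψψ'
        exact Measure.ae_ae_of_ae_prod hψψ'
      filter_upwards [h1.prod_right_ae, h2.prod_right_ae, h3.prod_right_ae, h4.prod_right_ae, h5]
        with y a1 a2 a3 a4 a5
      exact ⟨a1, a2, a3, a4, a5⟩
    -- the terms
    have hAtm : AEStronglyMeasurable (fun p : V × ℝ => A (p.1, t₀)) μ := hAt2.1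
    have hT1 : Tendsto (fun j => eLpNorm (fun p : V × ℝ =>
        ‖v‖ * ‖B j (p.1, t₀) - A (p.1, t₀)‖) 1 μ) atTop (𝓝 0) := by
      refine KT_cn μ ‖v‖ (fun j p => B j (p.1, t₀) - A (p.1, t₀)) ?_
      have hmm : ∀ j, AEStronglyMeasurable (fun y => B j (y, t₀) - A (y, t₀)) μK := fun j =>
        ((hBs j).continuous.comp (by fun_prop : Continuous fun y : V =>
          (y, t₀))).aestronglyMeasurable.sub hAm.1
      have h1 : ∀ j, eLpNorm (fun p : V × ℝ => B j (p.1, t₀) - A (p.1, t₀)) 1 μ =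
          μI univ * eLpNorm (fun y => B j (y, t₀) - A (y, t₀)) 1 μK := by
        intro j
        rw [hprod]
        exact KT_fst μK μI (fun y => B j (y, t₀) - A (y, t₀)) (hmm j)
      simp only [h1]
      have h2 := KT_21 μK (fun j y => B j (y, t₀) - A (y, t₀)) hmm hBt
      have h3 := ENNReal.Tendsto.const_mul h2 (a := μI univ) (Or.inr (measure_ne_top _ _))
      simpa using h3
    have hT3 : Tendsto (fun j => eLpNorm (fun p : V × ℝ => ‖v‖ * ‖B j p - A p‖) 1 μ)
        atTop (𝓝 0) := by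
      refine KT_cn μ ‖v‖ (fun j p => B j p - A p) ?_
      exact KT_21 μ (fun j p => B j p - A p)
        (fun j => (hBs j).continuous.aestronglyMeasurable.sub hA2.1) hB2
    have hT2 : Tendsto (fun j => eLpNorm (fun p : V × ℝ =>
        (‖v‖ * (‖A (p.1, t₀)‖ + ‖A p‖ + ‖C p‖)) * ‖g j p - gl p‖) 1 μ) atTop (𝓝 0) := by
      have hi1 : Integrable (fun p : V × ℝ => ‖A (p.1, t₀)‖) μ :=
        (hAt2.integrable (by norm_num)).norm
      have hi2 : Integrable (fun p : V × ℝ => ‖A p‖) μ := (hA2.integrable (by norm_num)).norm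
      have hi3 : Integrable (fun p : V × ℝ => ‖C p‖) μ := (hC2.integrable (by norm_num)).norm
      have h0 := KT_dct μ (fun j p => (‖v‖ * (‖A (p.1, t₀)‖ + ‖A p‖ + ‖C p‖)) * ‖g j p - gl p‖)
        (fun _ => 0) (fun p => (‖v‖ * (‖A (p.1, t₀)‖ + ‖A p‖ + ‖C p‖)) * 2)
        (fun j => (((hi1.add hi2).add hi3).const_mul ‖v‖).1.mul ((hgm j).sub hglm).norm)
        aestronglyMeasurable_const ((((hi1.add hi2).add hi3).const_mul ‖v‖).mul_const 2) ?_ ?_
      · simpa only [sub_zero] using h0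
      · intro j
        filter_upwards [hgln] with p hp
        rw [sub_zero, Real.norm_eq_abs, abs_of_nonneg (by positivity)]
        refine mul_le_mul_of_nonneg_left ?_ (by positivity)
        calc ‖g j p - gl p‖ ≤ ‖g j p‖ + ‖gl p‖ := norm_sub_le _ _
          _ ≤ 2 := by linarith [hgn j p]
      · filter_upwards [hlim] with p hp
        have h1 : Tendsto (fun j => g j p - gl p) atTop (𝓝 0) := by
          have := hp.sub_const (gl p)
          simpa using this
        have h2 := h1.norm.const_mul (‖v‖ * (‖A (p.1, t₀)‖ + ‖A p‖ + ‖C p‖))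
        simpa using h2
    have hm1 : ∀ j, AEStronglyMeasurable (fun p : V × ℝ =>
        ‖v‖ * ‖B j (p.1, t₀) - A (p.1, t₀)‖) μ := fun j =>
      ((((hBs j).continuous.comp (by fun_prop : Continuous fun p : V × ℝ =>
        (p.1, t₀))).aestronglyMeasurable.sub hAtm).norm).const_mul _
    have hm3 : ∀ j, AEStronglyMeasurable (fun p : V × ℝ => ‖v‖ * ‖B j p - A p‖) μ := fun j =>
      (((hBs j).continuous.aestronglyMeasurable.sub hA2.1).norm).const_mul _
    have hm2 : ∀ j, AEStronglyMeasurable (fun p : V × ℝ =>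
        (‖v‖ * (‖A (p.1, t₀)‖ + ‖A p‖ + ‖C p‖)) * ‖g j p - gl p‖) μ := fun j =>
      (((hAtm.norm.add hA2.1.norm).add hC2.1.norm).const_mul ‖v‖).mul ((hgm j).sub hglm).norm
    have hm4 : ∀ j, AEStronglyMeasurable (fun p : V × ℝ => R j p.1) μ := by
      intro j
      rw [hprod]
      exact (hRi j).1.comp_fst
    have hS12 := KT_add μ _ _ hm1 hm2 hT1 hT2
    have hS123 := KT_add μ _ _ (fun j => (hm1 j).add (hm2 j)) hm3 hS12 hT3
    have hS := KT_add μ _ _ (fun j => ((hm1 j).add (hm2 j)).add (hm3 j)) hm4 hS123 hRt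
    refine tendsto_of_tendsto_of_tendsto_of_le_of_le tendsto_const_nhds hS
      (fun _ => zero_le) fun j => ?_
    refine eLpNorm_mono_ae ?_
    filter_upwards [hmemQ, hae _ (hsl j), hgln] with p hp hps hgp
    obtain ⟨s1, s2, s3, s4, s5⟩ := hps
    have hv1 : ‖((v.1, 0) : V × ℝ)‖ ≤ ‖v‖ := by
      rw [Prod.norm_def, Prod.norm_def]
      simp
    have hkb := hKB4 𝔐 𝒢 V (B j) (g j) t₀ (hBs j) (hBl j) (hgs j) (hgG j) (hg1 j) (hgd j)
      p.1 v.1 p.2
    have hdt : fderiv ℝ (g j) p (0, 1) = -(B j p (0, 1) * g j p) := by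
      have h1 : HasFDerivAt (g j) (fderiv ℝ (g j) p) p :=
        ((hgs j).differentiable (by simp)).differentiableAt.hasFDerivAt
      have h2 : HasDerivAt (fun s : ℝ => ((p.1, s) : V × ℝ)) (0, 1) p.2 :=
        (hasDerivAt_const p.2 p.1).prodMk (hasDerivAt_id p.2)
      have h3 := h1.comp_hasDerivAt p.2 h2
      exact h3.unique (hgd j p.1 p.2)
    have hvv : v = (v.1, 0) + v.2 • ((0 : V), (1 : ℝ)) := by
      ext <;> simp
    have hfd : fderiv ℝ (g j) p v = fderiv ℝ (g j) p (v.1, 0) -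
        v.2 • (B j p (0, 1) * g j p) := by
      conv_lhs => rw [hvv]
      rw [map_add, map_smul, hdt, smul_neg, sub_eq_add_neg]
    have hBv : B j p v = B j p (v.1, 0) + v.2 • B j p (0, 1) := by
      conv_lhs => rw [hvv]
      rw [map_add, map_smul]
    obtain ⟨I, hI⟩ : ∃ I : 𝔐, I = ∫ s in t₀..p.2, star (g j (p.1, s)) *
      cur (B j) (p.1, s) (0, 1) (v.1, 0) * g j (p.1, s) := ⟨_, rfl⟩
    rw [← hI] at hkb
    have hkb' : fderiv ℝ (g j) p (v.1, 0) = g j p * B j (p.1, t₀) (v.1, 0) -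
        B j p (v.1, 0) * g j p + g j p * I := hkb
    have hsubI : uIoc t₀ p.2 ⊆ Icc a b :=
      uIoc_subset_uIcc.trans (uIcc_subset_Icc ht₀ hp.2)
    have hIC : ‖I - C p v.1‖ ≤ R j p.1 := by
      have hψi : IntervalIntegrable (fun s => ψ' (p.1, s)) volume t₀ p.2 := by
        rw [intervalIntegrable_iff]
        exact IntegrableOn.mono_set (by rw [hμI] at s4; exact s4) hsubI
      have e1 : C p v.1 = ∫ s in t₀..p.2, star (gl (p.1, s)) * (Fv (p.1, s) * gl (p.1, s)) := by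
        rw [hCdef]
        show (∫ s in t₀..p.2, ψ' (p.1, s)) v.1 = _
        rw [ContinuousLinearMap.intervalIntegral_apply hψi]
        refine intervalIntegral.integral_congr_ae ?_
        have h1 : ∀ᵐ s ∂(volume.restrict (Icc a b)), ψ (p.1, s) = ψ' (p.1, s) := by
          rw [hμI] at s5
          exact s5
        rw [ae_restrict_iff' measurableSet_Icc] at h1
        filter_upwards [h1] with s hs hsI
        rw [← hs (hsubI hsI), hψd, hFv]
      have hi1 : IntervalIntegrable (fun s => star (g j (p.1, s)) *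
          cur (B j) (p.1, s) (0, 1) (v.1, 0) * g j (p.1, s)) volume t₀ p.2 := by
        refine Continuous.intervalIntegrable ?_ _ _
        have c1 : Continuous fun s : ℝ => g j (p.1, s) :=
          (hgs j).continuous.comp (by fun_prop)
        have c2 : Continuous fun s : ℝ => cur (B j) (p.1, s) (0, 1) (v.1, 0) :=
          (hcc j).comp (by fun_prop : Continuous fun s : ℝ => (p.1, s))
        exact ((continuous_star.comp c1).mul c2).mul c1
      have hi2 : IntervalIntegrable (fun s => star (gl (p.1, s)) *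
          (Fv (p.1, s) * gl (p.1, s))) volume t₀ p.2 := by
        have h2 : IntervalIntegrable (fun s => ψ' (p.1, s) v.1) volume t₀ p.2 := by
          rw [intervalIntegrable_iff] at hψi ⊢
          exact (ContinuousLinearMap.apply ℝ 𝔐 v.1).integrable_comp hψi
        rw [intervalIntegrable_iff] at h2 ⊢
        refine h2.congr ?_
        have h1 : ∀ᵐ s ∂(volume.restrict (Icc a b)), ψ (p.1, s) = ψ' (p.1, s) := by
          rw [hμI] at s5
          exact s5
        have h3 := ae_mono (Measure.restrict_mono hsubI (le_refl (volume : Measure ℝ))) h1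
        filter_upwards [h3] with s hs
        rw [← hs, hψd, hFv]
      rw [hI, e1, ← intervalIntegral.integral_sub hi1 hi2]
      refine intervalIntegral.norm_integral_le_integral_norm_uIoc.trans ?_
      have hbound : IntegrableOn (fun s => ‖E1 j (p.1, s)‖ + ‖D j (p.1, s)‖) (Icc a b) volume := by
        rw [hμI] at s1 s2
        exact s1.norm.add s2.norm
      have e2 : R j p.1 = ∫ s in Icc a b, (‖E1 j (p.1, s)‖ + ‖D j (p.1, s)‖) := by
        rw [hR, ← integral_add s1.norm s2.norm]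
      rw [e2]
      refine le_trans ?_ (setIntegral_mono_set hbound
        (Eventually.of_forall fun s => add_nonneg (norm_nonneg _) (norm_nonneg _))
        (Eventually.of_forall hsubI))
      refine integral_mono_of_nonneg (Eventually.of_forall fun _ => norm_nonneg _)
        (hbound.mono_set hsubI) (Eventually.of_forall fun s => ?_)
      show ‖star (g j (p.1, s)) * cur (B j) (p.1, s) (0, 1) (v.1, 0) * g j (p.1, s) -
        star (gl (p.1, s)) * (Fv (p.1, s) * gl (p.1, s))‖ ≤ ‖E1 j (p.1, s)‖ + ‖D j (p.1, s)‖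
      have e3 : star (g j (p.1, s)) * cur (B j) (p.1, s) (0, 1) (v.1, 0) * g j (p.1, s) -
          star (gl (p.1, s)) * (Fv (p.1, s) * gl (p.1, s)) =
          star (g j (p.1, s)) * E1 j (p.1, s) * g j (p.1, s) + D j (p.1, s) := by
        rw [hE1, hD]
        noncomm_ring
      rw [e3]
      refine (norm_add_le _ _).trans (add_le_add ?_ le_rfl)
      have h1 : ‖star (g j (p.1, s))‖ ≤ 1 := by rw [norm_star]; exact hgn j _
      calc ‖star (g j (p.1, s)) * E1 j (p.1, s) * g j (p.1, s)‖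
          ≤ ‖star (g j (p.1, s)) * E1 j (p.1, s)‖ * ‖g j (p.1, s)‖ := norm_mul_le _ _
        _ ≤ ‖star (g j (p.1, s)) * E1 j (p.1, s)‖ * 1 :=
            mul_le_mul_of_nonneg_left (hgn j _) (norm_nonneg _)
        _ ≤ ‖star (g j (p.1, s))‖ * ‖E1 j (p.1, s)‖ := by
            rw [mul_one]
            exact norm_mul_le _ _
        _ ≤ 1 * ‖E1 j (p.1, s)‖ := mul_le_mul_of_nonneg_right h1 (norm_nonneg _)
        _ = ‖E1 j (p.1, s)‖ := one_mul _
    obtain ⟨w, hwdef⟩ : ∃ w : 𝔐, w = g j p * I - gl p * C p v.1 := ⟨_, rfl⟩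
    have hwn : ‖w‖ ≤ R j p.1 + ‖v‖ * ‖C p‖ * ‖g j p - gl p‖ := by
      have e : w = g j p * (I - C p v.1) + (g j p - gl p) * C p v.1 := by
        rw [hwdef]
        noncomm_ring
      rw [e]
      refine (norm_add_le _ _).trans (add_le_add ?_ ?_)
      · rw [(hGn _ (hgG j p) _).1]
        exact hIC
      · refine (norm_mul_le _ _).trans ?_
        rw [mul_comm]
        refine mul_le_mul_of_nonneg_right ?_ (norm_nonneg _)
        rw [mul_comm ‖v‖]
        refine ((C p).le_opNorm _).trans (mul_le_mul_of_nonneg_left ?_ (norm_nonneg _))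
        rw [Prod.norm_def]
        exact le_max_left _ _
    have hid : fderiv ℝ (g j) p v - dg p v =
        g j p * ((B j (p.1, t₀) - A (p.1, t₀)) (v.1, 0)) +
        ((g j p - gl p) * A (p.1, t₀) (v.1, 0)) - ((B j p - A p) v * g j p) -
        (A p v * (g j p - gl p)) + w := by
      rw [hfd, hdgv, hwdef, hkb', hA'v]
      simp only [sub_apply]
      rw [hBv]
      simp only [mul_sub, sub_mul, add_mul, mul_add, smul_mul_assoc]
      abel
    rw [hid]
    have n1 : ‖g j p * ((B j (p.1, t₀) - A (p.1, t₀)) (v.1, 0))‖ ≤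
        ‖v‖ * ‖B j (p.1, t₀) - A (p.1, t₀)‖ := by
      rw [(hGn _ (hgG j p) _).1, mul_comm ‖v‖]
      exact (ContinuousLinearMap.le_opNorm _ _).trans
        (mul_le_mul_of_nonneg_left hv1 (norm_nonneg _))
    have n2 : ‖(g j p - gl p) * A (p.1, t₀) (v.1, 0)‖ ≤
        (‖v‖ * ‖A (p.1, t₀)‖) * ‖g j p - gl p‖ := by
      refine (norm_mul_le _ _).trans ?_
      rw [mul_comm]
      refine mul_le_mul_of_nonneg_right ?_ (norm_nonneg _)
      rw [mul_comm ‖v‖]
      exact (ContinuousLinearMap.le_opNorm _ _).trans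
        (mul_le_mul_of_nonneg_left hv1 (norm_nonneg _))
    have n3 : ‖(B j p - A p) v * g j p‖ ≤ ‖v‖ * ‖B j p - A p‖ := by
      rw [(hGn _ (hgG j p) _).2, mul_comm ‖v‖]
      exact ContinuousLinearMap.le_opNorm _ _
    have n4 : ‖A p v * (g j p - gl p)‖ ≤ (‖v‖ * ‖A p‖) * ‖g j p - gl p‖ := by
      refine (norm_mul_le _ _).trans ?_
      refine mul_le_mul_of_nonneg_right ?_ (norm_nonneg _)
      rw [mul_comm ‖v‖]
      exact ContinuousLinearMap.le_opNorm _ _
    have n5 := hwn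
    have hpos : 0 ≤ ‖v‖ * ‖B j (p.1, t₀) - A (p.1, t₀)‖ +
        (‖v‖ * (‖A (p.1, t₀)‖ + ‖A p‖ + ‖C p‖)) * ‖g j p - gl p‖ + ‖v‖ * ‖B j p - A p‖ + R j p.1 := by
      have := hR0 j p.1
      positivity
    simp only [Pi.add_apply]
    rw [Real.norm_eq_abs, abs_of_nonneg hpos]
    refine (KT_tri _ _ _ _ _).trans ?_
    have e : (‖v‖ * (‖A (p.1, t₀)‖ + ‖A p‖ + ‖C p‖)) * ‖g j p - gl p‖ =
      (‖v‖ * ‖A (p.1, t₀)‖) * ‖g j p - gl p‖ + (‖v‖ * ‖A p‖) * ‖g j p - gl p‖ +
      ‖v‖ * ‖C p‖ * ‖g j p - gl p‖ := by ring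
    rw [e]
    linarith
  have hmono : volume.restrict (interior K ×ˢ Ioo a b) ≤ μ := hsub _ le_rfl
  refine ⟨A', gl, dg, ⟨?_, ?_, ?_, ?_, ?_, ?_, ?_⟩, ?_⟩
  · intro K' _ hK'K
    exact hgb.mono_measure (hsub K' hK'K)
  · intro K' _ hK'K
    exact hdg2.mono_measure (hsub K' hK'K)
  · refine hCLG (V × ℝ) 𝔐 _ gl dg (isOpen_interior.prod isOpen_Ioo) ?_ ?_ ?_
    · intro K' _ hK'K
      exact hgb.mono_measure (hsub K' hK'K)
    · intro K' _ hK'K
      exact hdg2.mono_measure (hsub K' hK'K)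
    · intro K' _ hK'K
      refine ⟨univ, g, isOpen_univ, subset_univ _,
        fun j => ((hgs j).of_le (by norm_cast)).contDiffOn, ?_, fun v => ?_⟩
      · exact tendsto_of_tendsto_of_tendsto_of_le_of_le tendsto_const_nhds hL1g
          (fun _ => zero_le) fun j => eLpNorm_mono_measure _ (hsub K' hK'K)
      · exact tendsto_of_tendsto_of_tendsto_of_le_of_le tendsto_const_nhds (hL1d v)
          (fun _ => zero_le) fun j => eLpNorm_mono_measure _ (hsub K' hK'K)
  · exact ae_mono hmono hglG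
  · intro K' _ hK'K
    exact hA'2.mono_measure (hsub K' hK'K)
  · refine ae_mono hmono ?_
    -- the values of `ψ'`
    have hFlie : ∀ᵐ p ∂μ, ∀ u v, F p ![u, v] ∈ 𝒢.lie :=
      ae_mono (Measure.restrict_mono hKW le_rfl) (hLCF 𝔐 𝒢 (V × ℝ) W A F hW hC)
    have hψlie : ∀ᵐ p ∂μ, ∀ v, ψ' p v ∈ 𝒢.lie := by
      filter_upwards [hFlie, hglG, hψψ'] with p h1 h2 h3 v
      rw [← h3, hψd, ← mul_assoc]
      exact (hLBR 𝔐 𝒢).1 _ h2 _ (h1 _ _)
    have hy : ∀ᵐ y ∂μK, (∀ᵐ s ∂μI, ∀ v, ψ' (y, s) v ∈ 𝒢.lie) ∧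
        Integrable (fun s => ψ' (y, s)) μI := by
      have h4 : Integrable ψ' (μK.prod μI) := by
        rw [← hprod]
        exact hψ'2.integrable (by norm_num)
      rw [hprod] at hψlie
      filter_upwards [Measure.ae_ae_of_ae_prod hψlie, h4.prod_right_ae] with y a1 a2
      exact ⟨a1, a2⟩
    filter_upwards [hae _ hy, hae _ hAl, hmemQ] with p h1 h2 hp v
    rw [hA'v]
    refine 𝒢.lie.add_mem (h2 _) ?_
    have hsubI : uIoc t₀ p.2 ⊆ Icc a b :=
      uIoc_subset_uIcc.trans (uIcc_subset_Icc ht₀ hp.2)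
    have hψi : IntervalIntegrable (fun s => ψ' (p.1, s)) volume t₀ p.2 := by
      rw [intervalIntegrable_iff]
      exact IntegrableOn.mono_set (by have := h1.2; rw [hμI] at this; exact this) hsubI
    have e1 : C p v.1 = ∫ s in t₀..p.2, ψ' (p.1, s) v.1 := by
      rw [hCdef]
      show (∫ s in t₀..p.2, ψ' (p.1, s)) v.1 = _
      rw [ContinuousLinearMap.intervalIntegral_apply hψi]
    rw [e1]
    have h3 : ∀ᵐ s ∂(volume.restrict (Icc a b)), ψ' (p.1, s) v.1 ∈ 𝒢.lie := by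
      have h4 := h1.1
      rw [hμI] at h4
      filter_upwards [h4] with s hs
      exact hs _
    have h5 : ∀ᵐ s ∂(volume.restrict (uIoc t₀ p.2)), ψ' (p.1, s) v.1 ∈ 𝒢.lie :=
      ae_mono (Measure.restrict_mono hsubI (le_refl (volume : Measure ℝ))) h3
    rcases le_total t₀ p.2 with hle | hle
    · rw [intervalIntegral.integral_of_le hle]
      rw [uIoc_of_le hle] at h5
      exact KT4_mem _ _ _ h5
    · rw [intervalIntegral.integral_of_ge hle]
      rw [uIoc_of_ge hle] at h5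
      exact 𝒢.lie.neg_mem (KT4_mem _ _ _ h5)
  · exact Eventually.of_forall fun p v => hdgv p v
  · refine Eventually.of_forall fun p => ?_
    rw [hA'v]
    show A (p.1, t₀) ((0 : V), (0 : ℝ)) + C p (0 : V) = 0
    rw [map_zero, add_zero, Prod.mk_zero_zero, map_zero]

end Pool.TIW
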