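import Pool.Agent.Work.MP_a1f430_wb.Interface

/-! # Block LBR -/

set_option autoImplicit false

namespace Pool.TIW

open Pool.TIA
open MeasureTheory Set Filter Topology
open scoped ContDiff ENNReal

theorem p_LBR (_ : Pool.TIA.Stmt_LIE) : Stmt_LBR := by
  intro 𝔐 _ _ _ _ _ _ 𝒢
  have : CompleteSpace 𝔐 := FiniteDimensional.complete ℝ 𝔐
  have h1 : ∀ g ∈ 𝒢.G, ∀ X ∈ 𝒢.lie, star g * X * g ∈ 𝒢.lie := by
    intro g hg X hX
    obtain ⟨hu1, hu2⟩ := 𝒢.unitary g hg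
    let := NormedAlgebra.restrictScalars ℚ ℝ 𝔐
    let u : 𝔐ˣ := ⟨g, star g, hu2, hu1⟩
    rw [𝒢.mem_lie]
    intro t
    have h2 : t • (star g * X * g) = (↑u⁻¹ : 𝔐) * (t • X) * (u : 𝔐) := by
      change t • (star g * X * g) = star g * (t • X) * g
      rw [mul_smul_comm, smul_mul_assoc]
    rw [h2, NormedSpace.exp_units_conj']
    exact 𝒢.mul_mem _ (𝒢.mul_mem _ (𝒢.star_mem g hg) _ ((𝒢.mem_lie X).1 hX t)) _ hg
  refine ⟨h1, fun X hX Y hY => ?_⟩
  have hG := (𝒢.mem_lie X).1 hX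
  have hd : HasDerivAt (fun t : ℝ => NormedSpace.exp (t • X)) X 0 := by
    have := hasDerivAt_exp_smul_const (𝕂 := ℝ) X (0 : ℝ)
    rwa [zero_smul, NormedSpace.exp_zero, one_mul] at this
  have hs : HasDerivAt (fun t : ℝ => star (NormedSpace.exp (t • X))) (star X) 0 := hd.star
  have hc : HasDerivAt (fun t : ℝ => star (NormedSpace.exp (t • X)) * Y *
      NormedSpace.exp (t • X)) (star X * Y + Y * X) 0 := by
    have h2 := (hs.mul_const Y).mul hd
    rwa [zero_smul, NormedSpace.exp_zero, star_one, one_mul, mul_one] at h2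
  have hX' : star X = -X := (‹Pool.TIA.Stmt_LIE› 𝔐 𝒢).1 X hX
  rw [hX'] at hc
  have hcl : IsClosed (𝒢.lie : Set 𝔐) := Submodule.closed_of_finiteDimensional 𝒢.lie
  have hmem : ∀ t : ℝ, star (NormedSpace.exp (t • X)) * Y * NormedSpace.exp (t • X) ∈ 𝒢.lie :=
    fun t => h1 _ (hG t) Y hY
  have hlim : -X * Y + Y * X ∈ 𝒢.lie := by
    refine hcl.mem_of_tendsto (hasDerivAt_iff_tendsto_slope.1 hc) (Eventually.of_forall ?_)
    intro t
    rw [slope_def_module]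
    exact 𝒢.lie.smul_mem _ (𝒢.lie.sub_mem (hmem t) (hmem 0))
  have h3 : X * Y - Y * X = -(-X * Y + Y * X) := by noncomm_ring
  rw [h3]
  exact 𝒢.lie.neg_mem hlim

end Pool.TIW
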