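import Pool.Agent.Work.MP_a1f430_wb.Interface

/-! # Block LCF: the curvature is Lie algebra valued -/

set_option autoImplicit false

namespace Pool.TIW

open Pool.TIA
open MeasureTheory Set Filter Topology
open scoped ContDiff ENNReal

/-- an integral of a function with values in the kernel of `P` is in the kernel -/
theorem LCF_int {X Y : Type} [NormedAddCommGroup X] [NormedSpace ℝ X] [CompleteSpace X]
    [NormedAddCommGroup Y] [NormedSpace ℝ Y] [CompleteSpace Y] {α : Type} [MeasurableSpace α]
    (μ : Measure α) (P : X →L[ℝ] Y) (f : α → X) (h : ∀ᵐ x ∂μ, P (f x) = 0) :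
    P (∫ x, f x ∂μ) = 0 := by
  by_cases hf : Integrable f μ
  · rw [← P.integral_comp_comm hf, integral_congr_ae h, integral_zero]
  · rw [integral_undef hf, map_zero]

theorem p_LCF (hLBR : Stmt_LBR) : Stmt_LCF := by
  intro 𝔐 _ _ _ _ _ _ 𝒢 E _ _ _ _ _ _ W A F hW hC
  obtain ⟨N, hN⟩ := 𝒢.lie.exists_isCompl
  have : CompleteSpace 𝔐 := FiniteDimensional.complete ℝ 𝔐
  have : CompleteSpace N := FiniteDimensional.complete ℝ N
  have : ProperSpace E := FiniteDimensional.proper ℝ E
  set P₀ : 𝔐 →ₗ[ℝ] N := N.projectionOnto 𝒢.lie hN.symm with hP₀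
  set P : 𝔐 →L[ℝ] N := LinearMap.toContinuousLinearMap P₀ with hP
  have hker : ∀ X : 𝔐, P X = 0 ↔ X ∈ 𝒢.lie := by
    intro X
    rw [hP, LinearMap.coe_toContinuousLinearMap', ← LinearMap.mem_ker, hP₀,
      Submodule.ker_projectionOnto]
  -- integrability
  have hFK : ∀ u v : E, ∀ K : Set E, IsCompact K → K ⊆ W →
      IntegrableOn (fun x => F x ![u, v]) K := by
    intro u v K hK hKW
    have : IsFiniteMeasure (volume.restrict K) :=
      isFiniteMeasure_restrict.2 hK.measure_lt_top.ne
    exact ((ContinuousAlternatingMap.apply ℝ E 𝔐 ![u, v]).comp_memLp' (hC.F2 K hK hKW)).integrable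
      (by norm_num)
  -- the integrals are in the Lie algebra
  have hlieW : ∀ᵐ x ∂(volume : Measure E), x ∈ W → ∀ v, A x v ∈ 𝒢.lie :=
    (ae_restrict_iff' hW.measurableSet).1 hC.lie
  have hint : ∀ u v : E, ∀ φ : E → ℝ, Test W φ → P (∫ x, φ x • F x ![u, v]) = 0 := by
    intro u v φ hφ
    rw [hC.curv φ hφ u v, map_add, map_neg, LCF_int _ P, LCF_int _ P, neg_zero, add_zero]
    · filter_upwards [hlieW] with x hx
      by_cases hxW : x ∈ W
      · have h1 := hx hxW
        rw [map_smul, (hker _).2 ((hLBR 𝔐 𝒢).2 _ (h1 u) _ (h1 v)), smul_zero]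
      · have h0 : φ x = 0 := image_eq_zero_of_notMem_tsupport fun h => hxW (hφ.sub h)
        rw [h0, zero_smul, map_zero]
    · filter_upwards [hlieW] with x hx
      by_cases hxW : x ∈ W
      · have h1 := hx hxW
        rw [map_sub, map_smul, map_smul, (hker _).2 (h1 u), (hker _).2 (h1 v), smul_zero,
          smul_zero, sub_zero]
      · have h0 : fderiv ℝ φ x = 0 := by
          have h1 : x ∉ tsupport (fderiv ℝ φ) := fun h =>
            hxW (hφ.sub (tsupport_fderiv_subset ℝ h))
          exact image_eq_zero_of_notMem_tsupport h1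
        rw [h0]
        simp
  -- almost everywhere
  have hae : ∀ u v : E, ∀ᵐ x ∂(volume : Measure E), x ∈ W → P (F x ![u, v]) = 0 := by
    intro u v
    refine hW.ae_eq_zero_of_integral_contDiff_smul_eq_zero ?_ fun φ h1 h2 h3 => ?_
    · rw [locallyIntegrableOn_iff hW.isLocallyClosed]
      intro K hKW hK
      exact P.integrable_comp (hFK u v K hK hKW)
    · have hφ : Test W φ := ⟨h1, h2, h3⟩
      have hI : Integrable fun x => φ x • F x ![u, v] := by
        rw [← integrableOn_iff_integrable_of_support_subset (s := tsupport φ)]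
        · exact (hFK u v _ h2 h3).continuousOn_smul h1.continuous.continuousOn h2
        · intro x hx
          apply subset_tsupport
          intro h0
          apply hx
          show φ x • F x ![u, v] = 0
          rw [h0, zero_smul]
      have h4 := hint u v φ hφ
      rw [← P.integral_comp_comm hI] at h4
      simpa only [map_smul] using h4
  -- all directions
  set b := Module.finBasis ℝ E with hb
  have hall : ∀ᵐ x ∂(volume : Measure E), ∀ c : Fin 2 → Fin (Module.finrank ℝ E),
      x ∈ W → P (F x fun i => b (c i)) = 0 := by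
    rw [ae_all_iff]
    intro c
    have h1 : (fun i => b (c i)) = ![b (c 0), b (c 1)] := by
      funext i
      fin_cases i <;> rfl
    rw [h1]
    exact hae _ _
  rw [ae_restrict_iff' hW.measurableSet]
  filter_upwards [hall] with x hx hxW u v
  rw [← hker]
  have h1 : (P.compContinuousAlternatingMap (F x)).toAlternatingMap = 0 :=
    Module.Basis.ext_alternating b fun c _ => hx c hxW
  have h2 := congrArg (fun f : E [⋀^Fin 2]→ₗ[ℝ] N => f ![u, v]) h1
  exact h2

end Pool.TIW
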