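import Pool.Agent.Work.MP_a1f430_ti.All
import Pool.Agent.Work.MP_a1f430_wb.B_LBR
import Pool.Agent.Work.MP_a1f430_wb.B_LCF
import Pool.Agent.Work.MP_a1f430_wb.B_KA4
import Pool.Agent.Work.MP_a1f430_wb.B_KB4
import Pool.Agent.Work.MP_a1f430_wb.B_KT4
import Pool.Agent.Work.MP_a1f430_wb.B_CG1
import Pool.Agent.Work.MP_a1f430_wb.B_CG2
import Pool.Agent.Work.MP_a1f430_wb.B_GIN
import Pool.Agent.Work.MP_a1f430_wb.B_CTE
import Pool.Agent.Work.MP_a1f430_wb.B_DCV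
import Pool.Agent.Work.MP_a1f430_wb.B_APD
import Pool.Agent.Work.MP_a1f430_wb.B_DPR
import Pool.Agent.Work.MP_a1f430_wb.B_BIT
import Pool.Agent.Work.MP_a1f430_wb.B_BLB
import Pool.Agent.Work.MP_a1f430_wb.B_DLO
import Pool.Agent.Work.MP_a1f430_wb.B_DLI
import Pool.Agent.Work.MP_a1f430_wb.B_BIA

/-! # The Bianchi identity for weak connections: assembly (MP_a1f430, THEOREM WB) -/

set_option autoImplicit false

namespace Pool.TIW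

open Pool.TIA (a_LIE a_LOD a_CLG a_KC a_APC a_SUB a_APG a_WCL a_MOA a_MOT a_PBC)

theorem a_LBR : Stmt_LBR := p_LBR a_LIE
theorem a_LCF : Stmt_LCF := p_LCF a_LBR
theorem a_KA4 : Stmt_KA4 := p_KA4 a_APC a_SUB
theorem a_KB4 : Stmt_KB4 := p_KB4 a_LIE
theorem a_KT4 : Stmt_KT4 := p_KT4 a_LIE a_LOD a_CLG a_KC a_LCF a_LBR a_KA4 a_KB4
theorem a_CG1 : Stmt_CG1 := p_CG1 a_APG a_APC
theorem a_CG2 : Stmt_CG2 := p_CG2 a_LIE a_LBR a_CG1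
theorem a_GIN : Stmt_GIN := p_GIN a_LIE a_WCL
theorem a_CTE : Stmt_CTE := p_CTE
theorem a_DCV : Stmt_DCV := p_DCV a_LIE a_APG a_CTE
theorem a_APD : Stmt_APD := p_APD a_MOA a_MOT
theorem a_DPR : Stmt_DPR := p_DPR a_CTE a_APD
theorem a_BIT : Stmt_BIT := p_BIT a_DPR
theorem a_BLB : Stmt_BLB := p_BLB a_KT4 a_CG2 a_GIN a_DCV a_BIT
theorem a_DLO : Stmt_DLO := p_DLO
theorem a_DLI : Stmt_DLI := p_DLI
theorem a_BIA : Stmt_BIA := p_BIA a_PBC a_BLB a_DLO a_DLI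

end Pool.TIW
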