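import Pool.Agent.Work.MP_a1f430_wb.B_PRI

/-! # Block DBR: a function with vanishing weak derivative in `t` (helper37) -/

set_option autoImplicit false

namespace Pool.TIW

open Pool.TIA
open MeasureTheory Set Filter Topology
open scoped ContDiff ENNReal

/-- A continuous function with support in a compact set times a function integrable on it. -/
theorem DBR_int {E X : Type} [NormedAddCommGroup E] [MeasureSpace E] [BorelSpace E]
    [SecondCountableTopology E] [NormedAddCommGroup X] [NormedSpace ℝ X] {K : Set E}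
    (hK : IsCompact K) (Z : E → X)
    (hZ : IntegrableOn Z K volume) (a : E → ℝ) (ha : Continuous a) (hs : ∀ x, x ∉ K → a x = 0) :
    Integrable (fun x => a x • Z x) volume := by
  have h1 : IntegrableOn (fun x => a x • Z x) K volume :=
    hZ.continuousOn_smul ha.continuousOn hK
  refine (integrableOn_iff_integrable_of_support_subset ?_).1 h1
  intro x hx
  by_contra hxK
  refine hx ?_
  show a x • Z x = 0
  rw [hs x hxK, zero_smul]

theorem p_DBR : Stmt_DBR := by
  intro V X _ _ _ _ _ _ _ _ _ W₁ a b f hW hab hf hd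
  have _ : CompleteSpace X := FiniteDimensional.complete ℝ X
  have _ : ProperSpace V := FiniteDimensional.proper ℝ V
  -- the bump function in time
  let η : ContDiffBump ((a + b) / 2) := ⟨(b - a) / 8, (b - a) / 4, by linarith, by linarith⟩
  let e : ℝ → ℝ := η.normed volume
  have he : ContDiff ℝ ∞ e := η.contDiff_normed
  have heint : ∫ s, e s = 1 := η.integral_normed
  set J₀ : Set ℝ := Metric.closedBall ((a + b) / 2) ((b - a) / 4) with hJ₀
  have hJ₀c : IsCompact J₀ := isCompact_closedBall _ _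
  have he0 : ∀ s, s ∉ J₀ → e s = 0 := by
    intro s hs
    by_contra hne
    have h1 : s ∈ Function.support (η.normed volume) := hne
    rw [ContDiffBump.support_normed_eq] at h1
    exact hs (Metric.ball_subset_closedBall h1)
  have hJ₀s : J₀ ⊆ Ioo a b := by
    intro s hs
    rw [hJ₀, Real.closedBall_eq_Icc] at hs
    exact ⟨by linarith [hs.1], by linarith [hs.2]⟩
  have hmJ : (a + b) / 2 ∈ J₀ := Metric.mem_closedBall_self (by linarith)
  have hU : IsOpen (W₁ ×ˢ Ioo a b) := hW.prod isOpen_Ioo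
  -- integrability
  have hfL : ∀ (K : Set V) (J : Set ℝ), IsCompact K → IsCompact J → K ⊆ W₁ → J ⊆ Ioo a b →
      IntegrableOn f (K ×ˢ J) volume := by
    intro K J hK hJ hKW hJI
    have h1 := hf (K ×ˢ J) (hK.prod hJ) (prod_mono hKW hJI)
    have _ : IsFiniteMeasure (volume.restrict (K ×ˢ J)) :=
      ⟨by rw [Measure.restrict_apply_univ]; exact (hK.prod hJ).measure_lt_top⟩
    exact h1.integrable one_le_two
  set f₀ : V → X := fun y => ∫ s, e s • f (y, s) with hf₀
  have hf₀L : ∀ K : Set V, IsCompact K → K ⊆ W₁ → IntegrableOn f₀ K volume := by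
    intro K hK hKW
    have h1 : IntegrableOn (fun p : V × ℝ => e p.2 • f p) (K ×ˢ J₀) volume :=
      (hfL K J₀ hK hJ₀c hKW hJ₀s).continuousOn_smul
        (he.continuous.comp continuous_snd).continuousOn (hK.prod hJ₀c)
    have h2 : Integrable (fun p : V × ℝ => e p.2 • f p) ((volume.restrict K).prod volume) := by
      refine (integrableOn_iff_integrable_of_support_subset (s := univ ×ˢ J₀) ?_).1 ?_
      · intro p hp
        refine ⟨mem_univ _, ?_⟩
        by_contra hpJ
        refine hp ?_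
        show e p.2 • f p = 0
        rw [he0 _ hpJ, zero_smul]
      · rw [IntegrableOn, ← Measure.prod_restrict, Measure.restrict_univ, Measure.prod_restrict]
        exact h1
    exact h2.integral_prod_left
  have hf₀P : ∀ (K : Set V) (J : Set ℝ), IsCompact K → IsCompact J → K ⊆ W₁ →
      IntegrableOn (fun p : V × ℝ => f₀ p.1) (K ×ˢ J) volume := by
    intro K J hK hJ hKW
    have _ : IsFiniteMeasure (volume.restrict J) :=
      ⟨by rw [Measure.restrict_apply_univ]; exact hJ.measure_lt_top⟩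
    have h1 := (hf₀L K hK hKW).comp_fst (volume.restrict J)
    rw [Measure.prod_restrict] at h1
    exact h1
  -- the main identity
  have key : ∀ ψ : V × ℝ → ℝ, Test (W₁ ×ˢ Ioo a b) ψ → ∫ p, ψ p • (f p - f₀ p.1) = 0 := by
    intro ψ hψ
    set K₁ : Set V := Prod.fst '' tsupport ψ with hK₁
    set J₁ : Set ℝ := Prod.snd '' tsupport ψ ∪ J₀ with hJ₁
    have hTc : IsCompact (tsupport ψ) := hψ.cpt
    have hK₁c : IsCompact K₁ := hTc.image continuous_fst
    have hJ₁c : IsCompact J₁ := (hTc.image continuous_snd).union hJ₀c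
    have hK₁s : K₁ ⊆ W₁ := by
      rintro _ ⟨p, hp, rfl⟩
      exact (hψ.sub hp).1
    have hJ₁s : J₁ ⊆ Ioo a b := by
      refine union_subset ?_ hJ₀s
      rintro _ ⟨p, hp, rfl⟩
      exact (hψ.sub hp).2
    have hJ₁n : J₁.Nonempty := ⟨_, Or.inr hmJ⟩
    obtain ⟨a', ha'⟩ := hJ₁c.exists_isLeast hJ₁n
    obtain ⟨b', hb'⟩ := hJ₁c.exists_isGreatest hJ₁n
    have hII : Icc a' b' ⊆ Ioo a b := fun s hs =>
      ⟨(hJ₁s ha'.1).1.trans_le hs.1, hs.2.trans_lt (hJ₁s hb'.1).2⟩
    have hJI : J₁ ⊆ Icc a' b' := fun s hs => ⟨ha'.2 hs, hb'.2 hs⟩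
    have hψ1 : ∀ y s, y ∉ K₁ → ψ (y, s) = 0 := fun y s hy =>
      image_eq_zero_of_notMem_tsupport fun h => hy ⟨_, h, rfl⟩
    have hψ2 : ∀ y s, s ∉ Icc a' b' → ψ (y, s) = 0 := fun y s hs =>
      image_eq_zero_of_notMem_tsupport fun h => hs (hJI (Or.inl ⟨_, h, rfl⟩))
    have he2 : ∀ s, s ∉ Icc a' b' → e s = 0 := fun s hs => he0 s fun h => hs (hJI (Or.inr h))
    have hψc := hψ.smooth.continuous
    set c : V → ℝ := fun y => ∫ s in Iic b, ψ (y, s) with hc
    have hc' : ∀ y, c y = ∫ s, ψ (y, s) := by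
      intro y
      refine setIntegral_eq_integral_of_forall_compl_eq_zero fun s hs => hψ2 y s fun h => hs ?_
      exact (hII h).2.le
    have hcs : ContDiff ℝ ∞ c :=
      (PRI_prim ψ (Icc a' b') isCompact_Icc hψ.smooth hψ2).1.comp
        (contDiff_id.prodMk (contDiff_const (c := b)))
    have hc1 : ∀ y, y ∉ K₁ → c y = 0 := by
      intro y hy
      rw [hc' y]
      simp only [hψ1 y _ hy, integral_zero]
    set σ : V × ℝ → ℝ := fun p => ψ p - e p.2 * c p.1 with hσ
    have hσs : ContDiff ℝ ∞ σ :=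
      hψ.smooth.sub ((he.comp contDiff_snd).mul (hcs.comp contDiff_fst))
    have hσ2 : ∀ y s, s ∉ Icc a' b' → σ (y, s) = 0 := by
      intro y s hs
      show ψ (y, s) - e s * c y = 0
      rw [hψ2 y s hs, he2 s hs, zero_mul, sub_zero]
    have hσ1 : ∀ y s, y ∉ K₁ → σ (y, s) = 0 := by
      intro y s hs
      show ψ (y, s) - e s * c y = 0
      rw [hψ1 y s hs, hc1 y hs, mul_zero, sub_zero]
    obtain ⟨hΦs, hΦd⟩ := PRI_prim σ (Icc a' b') isCompact_Icc hσs hσ2
    set Φ : V × ℝ → ℝ := fun p => ∫ s in Iic p.2, σ (p.1, s) with hΦ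
    have hΦ1 : ∀ p : V × ℝ, p.1 ∉ K₁ → Φ p = 0 := by
      intro p hp
      show ∫ s in Iic p.2, σ (p.1, s) = 0
      simp only [hσ1 p.1 _ hp, integral_zero]
    have hsec : ∀ y, Integrable (fun s => ψ (y, s)) volume := by
      intro y
      refine Continuous.integrable_of_hasCompactSupport (hψc.comp (by fun_prop)) ?_
      exact HasCompactSupport.intro isCompact_Icc fun s hs => hψ2 y s hs
    have hei : Integrable e volume := η.integrable_normed
    have hΦ2 : ∀ p : V × ℝ, p.2 ∉ Icc a' b' → Φ p = 0 := by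
      intro p hp
      show ∫ s in Iic p.2, σ (p.1, s) = 0
      rcases lt_or_ge p.2 a' with h | h
      · refine setIntegral_eq_zero_of_forall_eq_zero fun s hs => hσ2 _ s fun hs' => ?_
        have h3 : s ≤ p.2 := hs
        exact absurd hs'.1 (by linarith [h3])
      · have hb : b' < p.2 := by
          by_contra hcon
          exact hp ⟨h, not_lt.1 hcon⟩
        rw [setIntegral_eq_integral_of_forall_compl_eq_zero fun s hs => hσ2 _ s fun hs' => hs ?_]
        · have h4 : ∫ s, σ (p.1, s) = (∫ s, ψ (p.1, s)) - ∫ s, e s * c p.1 :=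
            integral_sub (hsec p.1) (hei.mul_const (c p.1))
          rw [h4, integral_mul_const, heint, one_mul, hc' p.1, sub_self]
        · exact hs'.2.trans hb.le
    have hΦT : Test (W₁ ×ˢ Ioo a b) Φ := by
      have h1 : tsupport Φ ⊆ K₁ ×ˢ Icc a' b' := by
        refine closure_minimal ?_ (hK₁c.isClosed.prod isClosed_Icc)
        intro p hp
        constructor
        · by_contra h
          exact hp (hΦ1 p h)
        · by_contra h
          exact hp (hΦ2 p h)
      exact ⟨hΦs, (hK₁c.prod isCompact_Icc).of_isClosed_subset (isClosed_tsupport _) h1,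
        h1.trans (prod_mono hK₁s hII)⟩
    have hΦ' : ∀ p : V × ℝ, fderiv ℝ Φ p (0, 1) = σ p := by
      rintro ⟨y, t⟩
      have h1 : HasFDerivAt Φ (fderiv ℝ Φ (y, t)) (y, t) :=
        ((hΦs.differentiable (by simp)) (y, t)).hasFDerivAt
      have h2 : HasDerivAt (fun t : ℝ => (y, t)) ((0 : V), (1 : ℝ)) t :=
        (hasDerivAt_const t y).prodMk (hasDerivAt_id t)
      have h3 : HasDerivAt (fun t : ℝ => Φ (y, t)) (fderiv ℝ Φ (y, t) (0, 1)) t :=
        h1.comp_hasDerivAt t h2
      exact h3.unique (hΦd y t)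
    have hd0 := hd Φ hΦT
    simp only [hΦ'] at hd0
    have hKJ : IsCompact (K₁ ×ˢ Icc a' b') := hK₁c.prod isCompact_Icc
    have hfK : IntegrableOn f (K₁ ×ˢ Icc a' b') volume :=
      hfL K₁ _ hK₁c isCompact_Icc hK₁s hII
    have hz : ∀ (g : V × ℝ → ℝ), (∀ y s, y ∉ K₁ → g (y, s) = 0) →
        (∀ y s, s ∉ Icc a' b' → g (y, s) = 0) → ∀ p, p ∉ K₁ ×ˢ Icc a' b' → g p = 0 := by
      rintro g h1 h2 ⟨y, s⟩ hp
      by_cases hy : y ∈ K₁
      · exact h2 y s fun hs => hp ⟨hy, hs⟩
      · exact h1 y s hy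
    have hec : Continuous fun p : V × ℝ => e p.2 * c p.1 :=
      (he.continuous.comp continuous_snd).mul (hcs.continuous.comp continuous_fst)
    have hI1 : Integrable (fun p => ψ p • f p) volume :=
      DBR_int hKJ f hfK ψ hψc (hz ψ hψ1 hψ2)
    have hI2 : Integrable (fun p : V × ℝ => (e p.2 * c p.1) • f p) volume := by
      refine DBR_int hKJ f hfK _ hec (hz (fun p => e p.2 * c p.1) ?_ ?_)
      · intro y s hy
        show e s * c y = 0
        rw [hc1 y hy, mul_zero]
      · intro y s hs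
        show e s * c y = 0
        rw [he2 s hs, zero_mul]
    have hI3 : Integrable (fun p : V × ℝ => ψ p • f₀ p.1) volume :=
      DBR_int hKJ _ (hf₀P K₁ _ hK₁c isCompact_Icc hK₁s) ψ hψc (hz ψ hψ1 hψ2)
    have h5 : ∫ p, ψ p • f p = ∫ p : V × ℝ, (e p.2 * c p.1) • f p := by
      rw [← sub_eq_zero, ← integral_sub hI1 hI2, ← hd0]
      refine integral_congr_ae (Eventually.of_forall fun p => ?_)
      show ψ p • f p - (e p.2 * c p.1) • f p = (ψ p - e p.2 * c p.1) • f p
      rw [sub_smul]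
    have h6 : ∫ p : V × ℝ, (e p.2 * c p.1) • f p = ∫ y, c y • f₀ y := by
      rw [Measure.volume_eq_prod] at hI2 ⊢
      rw [integral_prod _ hI2]
      refine integral_congr_ae (Eventually.of_forall fun y => ?_)
      show ∫ s, (e s * c y) • f (y, s) = c y • ∫ s, e s • f (y, s)
      rw [← integral_smul]
      refine integral_congr_ae (Eventually.of_forall fun s => ?_)
      show (e s * c y) • f (y, s) = c y • e s • f (y, s)
      rw [smul_smul, mul_comm]
    have h7 : ∫ p : V × ℝ, ψ p • f₀ p.1 = ∫ y, c y • f₀ y := by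
      rw [Measure.volume_eq_prod] at hI3 ⊢
      rw [integral_prod _ hI3]
      refine integral_congr_ae (Eventually.of_forall fun y => ?_)
      show ∫ s, ψ (y, s) • f₀ y = c y • f₀ y
      rw [integral_smul_const, hc' y]
    have h8 : (fun p : V × ℝ => ψ p • (f p - f₀ p.1)) = fun p => ψ p • f p - ψ p • f₀ p.1 := by
      funext p
      rw [smul_sub]
    rw [h8, integral_sub hI1 hI3, h5, h6, h7, sub_self]
  have hloc : LocallyIntegrableOn (fun p : V × ℝ => f p - f₀ p.1) (W₁ ×ˢ Ioo a b) volume := by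
    rw [locallyIntegrableOn_iff hU.isLocallyClosed]
    intro k hk hkc
    have h1 : k ⊆ (Prod.fst '' k) ×ˢ (Prod.snd '' k) := fun p hp => ⟨⟨p, hp, rfl⟩, ⟨p, hp, rfl⟩⟩
    have h2 : Prod.fst '' k ⊆ W₁ := by
      rintro _ ⟨p, hp, rfl⟩
      exact (hk hp).1
    have h3 : Prod.snd '' k ⊆ Ioo a b := by
      rintro _ ⟨p, hp, rfl⟩
      exact (hk hp).2
    have h4 := hkc.image continuous_fst
    have h5 := hkc.image continuous_snd
    exact ((hfL _ _ h4 h5 h2 h3).sub (hf₀P _ _ h4 h5 h2)).mono_set h1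
  have hae := hU.ae_eq_zero_of_integral_contDiff_smul_eq_zero hloc
    fun g h1 h2 h3 => key g ⟨h1, h2, h3⟩
  have hae' : ∀ᵐ p ∂(volume.restrict (W₁ ×ˢ Ioo a b)), f p = f₀ p.1 := by
    rw [ae_restrict_iff' hU.measurableSet]
    filter_upwards [hae] with p hp hpU
    exact sub_eq_zero.1 (hp hpU)
  refine ⟨f₀, ?_, hae'⟩
  intro K hK hKW
  have h1 : MemLp f 2 ((volume.restrict K).prod (volume.restrict J₀)) := by
    rw [Measure.prod_restrict]
    exact hf (K ×ˢ J₀) (hK.prod hJ₀c) (prod_mono hKW hJ₀s)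
  have h2 : ∀ᵐ p ∂((volume.restrict K).prod (volume.restrict J₀)), f p = f₀ p.1 := by
    rw [Measure.prod_restrict]
    exact ae_restrict_of_ae_restrict_of_subset (prod_mono hKW hJ₀s) hae'
  have h3 : MemLp (f₀ ∘ Prod.fst) 2 ((volume.restrict K).prod (volume.restrict J₀)) :=
    h1.ae_eq h2
  have _ : IsFiniteMeasure (volume.restrict J₀) :=
    ⟨by rw [Measure.restrict_apply_univ]; exact hJ₀c.measure_lt_top⟩
  have hpos : volume J₀ ≠ 0 := by
    rw [hJ₀, Real.volume_closedBall]
    simp only [ne_eq, ENNReal.ofReal_eq_zero, not_le]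
    linarith
  have hne : (volume.restrict J₀) ≠ 0 := by
    intro h
    exact hpos (by rw [← Measure.restrict_apply_univ J₀, h]; rfl)
  have h4 : AEStronglyMeasurable f₀ (volume.restrict K) :=
    AEStronglyMeasurable.of_comp_fst (ν := volume.restrict J₀) h3.1 hne
  have h5 : MemLp f₀ 2 (Measure.map Prod.fst ((volume.restrict K).prod (volume.restrict J₀))) := by
    rw [memLp_map_measure_iff _ (by fun_prop)]
    · exact h3
    · rw [Measure.map_fst_prod]
      exact h4.smul_measure _
  rw [Measure.map_fst_prod] at h5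
  have hν0 : (volume.restrict J₀) univ ≠ 0 := by rwa [Measure.restrict_apply_univ]
  have hνt : (volume.restrict J₀) univ ≠ ⊤ := measure_ne_top _ _
  have h6 := h5.smul_measure (c := ((volume.restrict J₀) univ)⁻¹) (ENNReal.inv_ne_top.2 hν0)
  rwa [smul_smul, ENNReal.inv_mul_cancel hν0 hνt, one_smul] at h6

end Pool.TIW
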