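import Pool.Agent.Work.MP_a1f430_wb.Interface2
import Pool.Agent.Work.MP_a1f430_ti.B_AL1
import Pool.Agent.Work.MP_a1f430_ti.Final

/-!
# Block DM1: finite type if all solutions are multiples of one form
-/

set_option autoImplicit false

namespace Pool.TIW

open Pool.TIA
open MeasureTheory Set Filter Topology
open scoped ContDiff ENNReal

/-- The wedge product vanishes on vectors on which the second form vanishes. -/
theorem DM1_wdg {𝔐 : Type} [NormedRing 𝔐] [NormedAlgebra ℝ 𝔐] {m : ℕ} {E : Type}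
    [NormedAddCommGroup E] [NormedSpace ℝ E] (Ω : E [⋀^Fin m]→L[ℝ] ℝ)
    (F : E [⋀^Fin 2]→L[ℝ] 𝔐) (v : Fin m ⊕ Fin 2 → E)
    (h : ∀ f : Fin 2 → Fin m ⊕ Fin 2, F (fun i => v (f i)) = 0) : wdg Ω F v = 0 := by
  unfold wdg
  have h1 : Ω.toAlternatingMap.domCoprod F.toAlternatingMap v = 0 := by
    show (⇑(∑ σ : Equiv.Perm.ModSumCongr (Fin m) (Fin 2),
      AlternatingMap.domCoprod.summand Ω.toAlternatingMap F.toAlternatingMap σ)) v = 0
    rw [_root_.sum_apply]
    apply Finset.sum_eq_zero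
    intro σ _
    induction σ using Quotient.inductionOn' with | _ σ
    rw [AlternatingMap.domCoprod.summand_mk'', _root_.smul_apply,
      MultilinearMap.domDomCongr_apply, MultilinearMap.domCoprod_apply]
    have h2 : (F.toAlternatingMap : MultilinearMap ℝ (fun _ : Fin 2 => E) 𝔐)
        (fun i => v (σ (Sum.inr i))) = 0 := h fun i => σ (Sum.inr i)
    rw [h2, TensorProduct.tmul_zero, smul_zero]
  rw [h1, map_zero]

theorem DM1_add0 {𝔐 E : Type} [NormedRing 𝔐] [NormedAlgebra ℝ 𝔐] [NormedAddCommGroup E]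
    [NormedSpace ℝ E] (F : E [⋀^Fin 2]→L[ℝ] 𝔐) (a b c : E) :
    F ![b + c, a] = F ![b, a] + F ![c, a] := by
  have h := F.toAlternatingMap.map_update_add ![b, a] 0 b c
  rw [AL1_upd0, AL1_upd0, AL1_upd0] at h
  exact h

theorem DM1_swap {𝔐 E : Type} [NormedRing 𝔐] [NormedAlgebra ℝ 𝔐] [NormedAddCommGroup E]
    [NormedSpace ℝ E] (F : E [⋀^Fin 2]→L[ℝ] 𝔐) (a b : E) (h : F ![a, b] = 0) :
    F ![b, a] = 0 := by
  have h1 := AL1_self F (a + b)
  rw [AL1_add, DM1_add0, DM1_add0, AL1_self, AL1_self, h, zero_add, zero_add, add_zero] at h1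
  exact h1

/-- Riesz representation for the scalar product `h`. -/
theorem DM1_riesz {n : ℕ} (h : Eu n →L[ℝ] Eu n →L[ℝ] ℝ) (hpos : ∀ v, v ≠ 0 → 0 < h v v)
    (ξ : Eu n →L[ℝ] ℝ) : ∃ v, h v = ξ := by
  have hinj : Function.Injective (h : Eu n →ₗ[ℝ] (Eu n →L[ℝ] ℝ)) := by
    rw [injective_iff_map_eq_zero]
    intro v hv
    by_contra hne
    have h1 := hpos v hne
    have h2 : h v = 0 := hv
    rw [h2, _root_.zero_apply] at h1
    exact lt_irrefl _ h1
  have hfr : Module.finrank ℝ (Eu n) = Module.finrank ℝ (Eu n →L[ℝ] ℝ) := by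
    rw [← (LinearMap.toContinuousLinearMap (𝕜 := ℝ) (E := Eu n) (F' := ℝ)).finrank_eq]
    exact (Subspace.dual_finrank_eq (K := ℝ) (V := Eu n)).symm
  have hsur := (LinearMap.injective_iff_surjective_of_finrank_eq_finrank hfr).1 hinj
  exact hsur ξ

/-- A solution which vanishes on a hyperplane is zero. -/
theorem DM1_key (hFRM : Pool.TIA.Stmt_FRM) (m : ℕ) (h : Bil (Eu (m + 4))) (Ω : Frm m (Eu (m + 4)))
    (F : Frm 2 (Eu (m + 4))) (hsym : ∀ v w, h v w = h w v) (hpos : ∀ v, v ≠ 0 → 0 < h v v)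
    (hstar : StarEq h Ω F) (ξ : Eu (m + 4) →L[ℝ] ℝ) (u : Eu (m + 4)) (hu : ξ u ≠ 0)
    (hF : ∀ v w, ξ v = 0 → ξ w = 0 → F ![v, w] = 0) : F = 0 := by
  obtain ⟨n, hn⟩ := DM1_riesz h hpos ξ
  have hn0 : n ≠ 0 := by
    intro h0
    rw [h0, map_zero] at hn
    rw [← hn] at hu
    exact hu rfl
  have hnn := hpos n hn0
  -- the value on `n` and a vector of the hyperplane
  have key : ∀ w, ξ w = 0 → F ![n, w] = 0 := by
    intro w hw
    by_cases hw0 : w = 0
    · have h1 := AL1_smul F n w 0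
      rw [zero_smul, zero_smul] at h1
      rw [hw0]
      exact h1
    have hww := hpos w hw0
    have horth : h n w = 0 := by
      rw [hn]
      exact hw
    obtain ⟨a, ha⟩ : ∃ a, a = Real.sqrt (h n n) := ⟨_, rfl⟩
    obtain ⟨b, hb⟩ : ∃ b, b = Real.sqrt (h w w) := ⟨_, rfl⟩
    have ha0 : 0 < a := by
      rw [ha]
      exact Real.sqrt_pos.2 hnn
    have hb0 : 0 < b := by
      rw [hb]
      exact Real.sqrt_pos.2 hww
    have haa : a * a = h n n := by
      rw [ha]
      exact Real.mul_self_sqrt hnn.le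
    have hbb : b * b = h w w := by
      rw [hb]
      exact Real.mul_self_sqrt hww.le
    have hv1 : h (a⁻¹ • n) (a⁻¹ • n) = 1 := by
      rw [map_smul, map_smul, _root_.smul_apply, smul_eq_mul, smul_eq_mul, ← haa]
      field_simp
    have hv2 : h (b⁻¹ • w) (b⁻¹ • w) = 1 := by
      rw [map_smul, map_smul, _root_.smul_apply, smul_eq_mul, smul_eq_mul, ← hbb]
      field_simp
    have hv3 : h (a⁻¹ • n) (b⁻¹ • w) = 0 := by
      rw [map_smul, map_smul, _root_.smul_apply, smul_eq_mul, smul_eq_mul, horth, mul_zero,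
        mul_zero]
    obtain ⟨e, he, he0, he1⟩ := hFRM m h hsym hpos _ _ hv1 hv2 hv3
    have h1 := hstar e he
    rw [he0, he1, AL1_smul0, AL1_smul] at h1
    have hker : ∀ i, ξ (e (Sum.inl i)) = 0 := by
      intro i
      have h3 := he.orth (Sum.inr 0) (Sum.inl i)
      rw [he0, map_smul, _root_.smul_apply, smul_eq_mul, if_neg (by simp), hn] at h3
      rcases mul_eq_zero.1 h3 with h4 | h4
      · exact absurd h4 (inv_ne_zero ha0.ne')
      · exact h4
    have h2 : wdg Ω F (fun i => e (Sum.inl i)) = 0 := by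
      apply DM1_wdg
      intro f
      have h5 : (fun i => e (Sum.inl (f i))) = ![e (Sum.inl (f 0)), e (Sum.inl (f 1))] := by
        funext i
        fin_cases i <;> rfl
      rw [h5]
      exact hF _ _ (hker _) (hker _)
    rw [h2] at h1
    rcases smul_eq_zero.1 h1.symm with h3 | h3
    · exact absurd h3 (inv_ne_zero ha0.ne')
    · rcases smul_eq_zero.1 h3 with h4 | h4
      · exact absurd h4 (inv_ne_zero hb0.ne')
      · exact h4
  have hdec : ∀ w, ∃ (c : ℝ) (w' : Eu (m + 4)), ξ w' = 0 ∧ w = w' + c • n := by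
    intro w
    have hξn : ξ n = h n n := by
      rw [hn]
    refine ⟨ξ w / ξ n, w - (ξ w / ξ n) • n, ?_, by rw [sub_add_cancel]⟩
    rw [map_sub, map_smul, smul_eq_mul, div_mul_cancel₀ _ (by rw [hξn]; exact hnn.ne'), sub_self]
  have hall : ∀ v w, F ![v, w] = 0 := by
    intro v w
    obtain ⟨a, v', hv', rfl⟩ := hdec v
    obtain ⟨b, w', hw', rfl⟩ := hdec w
    rw [AL1_add, AL1_smul, DM1_add0, DM1_add0, AL1_smul0, AL1_smul0, AL1_self, key w' hw',
      DM1_swap F n v' (key v' hv'), hF v' w' hv' hw']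
    simp
  ext v
  have h5 : v = ![v 0, v 1] := by
    funext i
    fin_cases i <;> rfl
  rw [h5, hall]
  rfl

theorem p_DM1 (hFRM : Pool.TIA.Stmt_FRM) : Stmt_DM1 := by
  intro m h Ω w₀ hsym hpos hone T hT hcyc
  by_contra hne
  obtain ⟨v₁, hv₁⟩ : ∃ v₁, T v₁ ≠ 0 := by
    by_contra hh
    push Not at hh
    exact hne (ContinuousLinearMap.ext fun v => hh v)
  obtain ⟨c, hc⟩ : ∃ c : Eu (m + 4) → ℝ, ∀ v, T v = c v • w₀ :=
    ⟨fun v => (hone (T v) (hT v)).choose, fun v => (hone (T v) (hT v)).choose_spec⟩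
  have hw₀ : w₀ ≠ 0 := by
    intro h0
    apply hv₁
    rw [hc v₁, h0, smul_zero]
  obtain ⟨u, hu⟩ : ∃ u : Fin 2 → Eu (m + 4), w₀ u ≠ 0 := by
    by_contra hh
    push Not at hh
    apply hw₀
    ext v
    exact hh v
  -- the linear form
  obtain ⟨ξ, hξ⟩ : ∃ ξ : Eu (m + 4) →L[ℝ] ℝ, ∀ v, T v = ξ v • w₀ := by
    let ξ₀ : Eu (m + 4) →ₗ[ℝ] ℝ :=
      { toFun := fun v => T v u / w₀ u
        map_add' := by
          intro a b
          rw [map_add]
          show (T a u + T b u) / w₀ u = _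
          ring
        map_smul' := by
          intro a b
          rw [map_smul]
          show (a * T b u) / w₀ u = a * (T b u / w₀ u)
          ring }
    refine ⟨LinearMap.toContinuousLinearMap ξ₀, fun v => ?_⟩
    have h1 : LinearMap.toContinuousLinearMap ξ₀ v = T v u / w₀ u := rfl
    have h2 : T v u = c v * w₀ u := by
      rw [hc v]
      rfl
    rw [h1, h2, mul_div_assoc, div_self hu, mul_one]
    exact hc v
  have hξ₁ : ξ v₁ ≠ 0 := by
    intro h0
    apply hv₁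
    rw [hξ v₁, h0, zero_smul]
  have hker : ∀ v w, ξ v = 0 → ξ w = 0 → (T v₁) ![v, w] = 0 := by
    intro v w hv hw
    have h1 := hcyc v₁ v w
    have h2 : T v = 0 := by rw [hξ v, hv, zero_smul]
    have h3 : T w = 0 := by rw [hξ w, hw, zero_smul]
    rw [h2, h3] at h1
    simpa using h1
  exact hv₁ (DM1_key hFRM m h Ω (T v₁) hsym hpos ((StEq_iff _ _ _).mp (hT v₁)) ξ v₁ hξ₁ hker)

end Pool.TIW
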