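import Pool.Agent.Work.MP_a1f430_wb.Interface2

/-!
# Block FRF: finitely many smooth equations which give `Ω ∧ F = * F`
-/

set_option autoImplicit false

namespace Pool.TIW

open Pool.TIA
open MeasureTheory Set Filter Topology
open scoped ContDiff ENNReal TensorProduct

/-- The wedge product is a sum over representatives. -/
theorem FRF_wdg {𝔐 : Type} [NormedRing 𝔐] [NormedAlgebra ℝ 𝔐] {m : ℕ} {E : Type}
    [NormedAddCommGroup E] [NormedSpace ℝ E] (Ω : E [⋀^Fin m]→L[ℝ] ℝ) (F : E [⋀^Fin 2]→L[ℝ] 𝔐)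
    (v : Fin m ⊕ Fin 2 → E) :
    wdg Ω F v = ∑ σ : Equiv.Perm.ModSumCongr (Fin m) (Fin 2),
      (((Equiv.Perm.sign (Quotient.out σ) : ℤ) : ℝ) *
        Ω (fun i => v ((Quotient.out σ) (Sum.inl i)))) •
        F ![v ((Quotient.out σ) (Sum.inr 0)), v ((Quotient.out σ) (Sum.inr 1))] := by
  have h1 : wdg Ω F v = ∑ σ : Equiv.Perm.ModSumCongr (Fin m) (Fin 2), TensorProduct.lid ℝ 𝔐
      (AlternatingMap.domCoprod.summand Ω.toAlternatingMap F.toAlternatingMap σ v) := by
    unfold wdg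
    rw [AlternatingMap.domCoprod_apply, sum_apply, map_sum]
  rw [h1]
  refine Finset.sum_congr rfl fun σ _ => ?_
  have h3 : ∀ τ : Equiv.Perm (Fin m ⊕ Fin 2), TensorProduct.lid ℝ 𝔐
      (AlternatingMap.domCoprod.summand Ω.toAlternatingMap F.toAlternatingMap
        (Quotient.mk'' τ) v) = (((Equiv.Perm.sign τ : ℤ) : ℝ) *
        Ω (fun i => v (τ (Sum.inl i)))) • F ![v (τ (Sum.inr 0)), v (τ (Sum.inr 1))] := by
    intro τ
    have h5 : (fun i : Fin 2 => v (τ (Sum.inr i))) = ![v (τ (Sum.inr 0)), v (τ (Sum.inr 1))] := by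
      funext i
      fin_cases i <;> rfl
    rw [AlternatingMap.domCoprod.summand_mk'']
    have h4 : (Equiv.Perm.sign τ • (MultilinearMap.domCoprod
        (Ω.toAlternatingMap : MultilinearMap ℝ (fun _ : Fin m => E) ℝ)
        (F.toAlternatingMap : MultilinearMap ℝ (fun _ : Fin 2 => E) 𝔐)).domDomCongr τ) v =
        Equiv.Perm.sign τ • (Ω (fun i => v (τ (Sum.inl i))) ⊗ₜ[ℝ]
          F (fun i => v (τ (Sum.inr i)))) := rfl
    rw [h4, ← h5]
    rcases Int.units_eq_one_or (Equiv.Perm.sign τ) with h | h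
    · rw [h]
      simp
    · rw [h]
      simp
  have h6 := h3 (Quotient.out σ)
  have h7 : (Quotient.mk'' (Quotient.out σ) : Equiv.Perm.ModSumCongr (Fin m) (Fin 2)) = σ :=
    Quotient.out_eq' σ
  rw [h7] at h6
  exact h6

/-- The expansion of a two-form. -/
theorem FRF_two {𝔐 : Type} [NormedRing 𝔐] [NormedAlgebra ℝ 𝔐] {n : ℕ}
    (F : Eu n [⋀^Fin 2]→L[ℝ] 𝔐) (u v : Eu n) :
    F ![u, v] = ∑ a, ∑ c, (u a * v c) • F ![stb n a, stb n c] := by
  have hexp : ∀ x : Eu n, x = ∑ a, x a • stb n a := by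
    intro x
    have h := (stb n).sum_repr x
    conv_lhs => rw [← h]
    refine Finset.sum_congr rfl fun a _ => ?_
    simp [stb]
  have h1 : ∀ x : Eu n, F ![u, x] = ∑ c, x c • F ![u, stb n c] := by
    intro x
    have h2 : F.toAlternatingMap (Function.update ![u, (0 : Eu n)] 1 (∑ c, x c • stb n c)) =
        ∑ c, F.toAlternatingMap (Function.update ![u, (0 : Eu n)] 1 (x c • stb n c)) :=
      AlternatingMap.map_update_sum _ _ _ _ _
    rw [← hexp x] at h2
    have h3 : ∀ z : Eu n, Function.update ![u, (0 : Eu n)] 1 z = ![u, z] := by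
      intro z
      funext i
      fin_cases i <;> rfl
    rw [h3] at h2
    refine h2.trans ?_
    refine Finset.sum_congr rfl fun c _ => ?_
    rw [AlternatingMap.map_update_smul, h3]
    rfl
  have h4 : ∀ (x z : Eu n), F ![x, z] = ∑ a, x a • F ![stb n a, z] := by
    intro x z
    have h2 : F.toAlternatingMap (Function.update ![(0 : Eu n), z] 0 (∑ c, x c • stb n c)) =
        ∑ c, F.toAlternatingMap (Function.update ![(0 : Eu n), z] 0 (x c • stb n c)) :=
      AlternatingMap.map_update_sum _ _ _ _ _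
    rw [← hexp x] at h2
    have h3 : ∀ t : Eu n, Function.update ![(0 : Eu n), z] 0 t = ![t, z] := by
      intro z
      funext i
      fin_cases i <;> rfl
    rw [h3] at h2
    refine h2.trans ?_
    refine Finset.sum_congr rfl fun c _ => ?_
    rw [AlternatingMap.map_update_smul, h3]
    rfl
  rw [h1 v, Finset.sum_comm]
  refine Finset.sum_congr rfl fun c _ => ?_
  rw [h4 u, Finset.smul_sum]
  refine Finset.sum_congr rfl fun a _ => ?_
  rw [smul_smul, mul_comm]

/-- The coefficients of the equation of a frame. -/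
noncomputable def FRF_P {m : ℕ} (Ω : Frm m (Eu (m + 4))) (e : FI m → Eu (m + 4))
    (a c : Fin (m + 4)) : ℝ :=
  (∑ σ : Equiv.Perm.ModSumCongr (Fin m) (Fin 2),
      (((Equiv.Perm.sign (Quotient.out σ) : ℤ) : ℝ) *
        Ω (fun i => e (Sum.inl ((Quotient.out σ) (Sum.inl i))))) *
        ((e (Sum.inl ((Quotient.out σ) (Sum.inr 0)))) a *
          (e (Sum.inl ((Quotient.out σ) (Sum.inr 1)))) c)) -
    (e (Sum.inr 0)) a * (e (Sum.inr 1)) c

theorem FRF_ell {𝔐 : Type} [NormedRing 𝔐] [NormedAlgebra ℝ 𝔐] {m : ℕ}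
    (Ω : Frm m (Eu (m + 4))) (F : Eu (m + 4) [⋀^Fin 2]→L[ℝ] 𝔐) (e : FI m → Eu (m + 4)) :
    ∑ a, ∑ c, FRF_P Ω e a c • F ![stb (m + 4) a, stb (m + 4) c] =
      wdg Ω F (fun i => e (Sum.inl i)) - F ![e (Sum.inr 0), e (Sum.inr 1)] := by
  rw [FRF_wdg, FRF_two F (e (Sum.inr 0)) (e (Sum.inr 1))]
  have h1 : ∀ σ : Equiv.Perm.ModSumCongr (Fin m) (Fin 2),
      (((Equiv.Perm.sign (Quotient.out σ) : ℤ) : ℝ) *
        Ω (fun i => e (Sum.inl ((Quotient.out σ) (Sum.inl i))))) •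
        F ![e (Sum.inl ((Quotient.out σ) (Sum.inr 0))),
          e (Sum.inl ((Quotient.out σ) (Sum.inr 1)))] =
      ∑ a, ∑ c, ((((Equiv.Perm.sign (Quotient.out σ) : ℤ) : ℝ) *
        Ω (fun i => e (Sum.inl ((Quotient.out σ) (Sum.inl i))))) *
        ((e (Sum.inl ((Quotient.out σ) (Sum.inr 0)))) a *
          (e (Sum.inl ((Quotient.out σ) (Sum.inr 1)))) c)) •
        F ![stb (m + 4) a, stb (m + 4) c] := by
    intro σ
    rw [FRF_two F (e (Sum.inl ((Quotient.out σ) (Sum.inr 0))))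
      (e (Sum.inl ((Quotient.out σ) (Sum.inr 1)))), Finset.smul_sum]
    refine Finset.sum_congr rfl fun a _ => ?_
    rw [Finset.smul_sum]
    refine Finset.sum_congr rfl fun c _ => ?_
    rw [smul_smul]
  have h2 : ∀ X : Equiv.Perm.ModSumCongr (Fin m) (Fin 2) → Fin (m + 4) → Fin (m + 4) → 𝔐,
      ∑ σ, ∑ a, ∑ c, X σ a c = ∑ a, ∑ c, ∑ σ, X σ a c := by
    intro X
    rw [Finset.sum_comm]
    refine Finset.sum_congr rfl fun a _ => ?_
    rw [Finset.sum_comm]
  rw [Finset.sum_congr rfl fun σ _ => h1 σ, h2, ← Finset.sum_sub_distrib]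
  refine Finset.sum_congr rfl fun a _ => ?_
  rw [← Finset.sum_sub_distrib]
  refine Finset.sum_congr rfl fun c _ => ?_
  rw [← Finset.sum_smul, ← sub_smul]
  rfl

theorem FRF_coord {n : ℕ} {N : Set (Eu n)} {v : Eu n → Eu n} (hv : ContDiffOn ℝ ∞ v N)
    (a : Fin n) : ContDiffOn ℝ ∞ (fun y => (v y) a) N :=
  (contDiffOn_euclidean.1 hv) a

/-- Smoothness of the evaluation of a form on vector fields. -/
theorem FRF_eval {m n : ℕ} (N : Set (Eu n)) (Ω : Eu n → Frm m (Eu n)) (v : Eu n → Fin m → Eu n)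
    (hΩ : ContDiffOn ℝ ∞ Ω N) (hv : ∀ i, ContDiffOn ℝ ∞ (fun y => v y i) N) :
    ContDiffOn ℝ ∞ (fun y => Ω y (v y)) N := by
  have hexp : ∀ x : Eu n, x = ∑ a, x a • stb n a := by
    intro x
    have h := (stb n).sum_repr x
    conv_lhs => rw [← h]
    refine Finset.sum_congr rfl fun a _ => ?_
    simp [stb]
  have h1 : ∀ y, Ω y (v y) = ∑ r : Fin m → Fin n, (∏ i, (v y i) (r i)) *
      Ω y (fun i => stb n (r i)) := by
    intro y
    have h2 : v y = fun i => ∑ a, (v y i) a • stb n a := by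
      funext i
      exact hexp _
    conv_lhs => rw [h2]
    have h3 := (Ω y).toMultilinearMap.map_sum (fun i a => (v y i) a • stb n a)
    refine h3.trans ?_
    refine Finset.sum_congr rfl fun r _ => ?_
    exact (Ω y).toMultilinearMap.map_smul_univ (fun i => (v y i) (r i)) (fun i => stb n (r i))
  have h4 : (fun y => Ω y (v y)) = fun y => ∑ r : Fin m → Fin n, (∏ i, (v y i) (r i)) *
      Ω y (fun i => stb n (r i)) := funext h1
  rw [h4]
  refine ContDiffOn.sum fun r _ => ?_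
  refine ContDiffOn.mul ?_ ?_
  · refine contDiffOn_prod fun i _ => ?_
    exact FRF_coord (hv i) (r i)
  · exact (ContinuousAlternatingMap.apply ℝ (Eu n) ℝ (fun i => stb n (r i))).contDiff.comp_contDiffOn
      hΩ

theorem FRF_smooth {m : ℕ} (N : Set (Eu (m + 4))) (Ω : Eu (m + 4) → Frm m (Eu (m + 4)))
    (e : Eu (m + 4) → FI m → Eu (m + 4)) (hΩ : ContDiffOn ℝ ∞ Ω N)
    (he : ∀ i, ContDiffOn ℝ ∞ (fun y => e y i) N) (a c : Fin (m + 4)) :
    ContDiffOn ℝ ∞ (fun y => FRF_P (Ω y) (e y) a c) N := by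
  unfold FRF_P
  refine ContDiffOn.sub ?_ ?_
  · refine ContDiffOn.sum fun σ _ => ?_
    refine ContDiffOn.mul (ContDiffOn.mul contDiffOn_const ?_) (ContDiffOn.mul ?_ ?_)
    · exact FRF_eval N Ω (fun y i => e y (Sum.inl ((Quotient.out σ) (Sum.inl i)))) hΩ
        fun i => he _
    · exact FRF_coord (he _) _
    · exact FRF_coord (he _) _
  · exact (FRF_coord (he _) _).mul (FRF_coord (he _) _)

theorem p_FRF (hS : Stmt_SMF) : Stmt_FRF := by
  intro m U h Ω x₀ hU hR hΩ hx₀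
  classical
  -- the coefficient arrays of the frames at `x₀`
  set A : Set (Fin (m + 4) → Fin (m + 4) → ℝ) :=
    {P | ∃ e : FI m → Eu (m + 4), OFr (stb (m + 4)) (h x₀) e ∧ P = FRF_P (Ω x₀) e} with hA
  obtain ⟨s, hsA, hspan⟩ : ∃ s : Finset (Fin (m + 4) → Fin (m + 4) → ℝ), ↑s ⊆ A ∧
      Submodule.span ℝ A = Submodule.span ℝ (s : Set (Fin (m + 4) → Fin (m + 4) → ℝ)) :=
    (Submodule.fg_span_iff_fg_span_finset_subset A).1 (IsNoetherian.noetherian _)
  have hch : ∀ P : s, ∃ (e₀ : FI m → Eu (m + 4)) (N : Set (Eu (m + 4)))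
      (e : Eu (m + 4) → FI m → Eu (m + 4)), FRF_P (Ω x₀) e₀ = P ∧ IsOpen N ∧ x₀ ∈ N ∧ N ⊆ U ∧
      (∀ i, ContDiffOn ℝ ∞ (fun y => e y i) N) ∧ e x₀ = e₀ ∧
      ∀ y ∈ N, OFr (stb (m + 4)) (h y) (e y) := by
    intro P
    obtain ⟨e₀, he₀, hP⟩ := hsA P.2
    obtain ⟨N, e, h1, h2, h3, h4, h5, h6⟩ := hS m U h x₀ e₀ hU hR hx₀ he₀
    exact ⟨e₀, N, e, hP.symm, h1, h2, h3, h4, h5, h6⟩
  choose e₀ N e hP hNo hxN hNU hes hex hefr using hch
  have hsub : ∀ i, (U ∩ ⋂ P, N P) ⊆ N i := fun i y hy => mem_iInter.1 hy.2 i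
  refine ⟨U ∩ ⋂ P, N P, s.card, fun i a c y => FRF_P (Ω y) (e (s.equivFin.symm i) y) a c,
    hU.inter (isOpen_iInter_of_finite hNo), ⟨hx₀, mem_iInter.2 hxN⟩, inter_subset_left, ?_, ?_, ?_⟩
  · intro i a c
    exact FRF_smooth _ Ω _ (hΩ.mono inter_subset_left)
      (fun j => (hes (s.equivFin.symm i) j).mono (hsub _)) a c
  · intro 𝔐 _ _ _ y hy F hF i
    rw [FRF_ell, hF _ (hefr (s.equivFin.symm i) y (hsub _ hy)), sub_self]
  · intro w hw e' he'
    set L : (Fin (m + 4) → Fin (m + 4) → ℝ) →ₗ[ℝ] ℝ :=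
      { toFun := fun P => ∑ a, ∑ c, P a c * w ![stb (m + 4) a, stb (m + 4) c]
        map_add' := by
          intro P Q
          rw [← Finset.sum_add_distrib]
          refine Finset.sum_congr rfl fun a _ => ?_
          rw [← Finset.sum_add_distrib]
          refine Finset.sum_congr rfl fun c _ => ?_
          rw [Pi.add_apply, Pi.add_apply, add_mul]
        map_smul' := by
          intro r P
          rw [RingHom.id_apply, smul_eq_mul, Finset.mul_sum]
          refine Finset.sum_congr rfl fun a _ => ?_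
          rw [Finset.mul_sum]
          refine Finset.sum_congr rfl fun c _ => ?_
          rw [Pi.smul_apply, Pi.smul_apply, smul_eq_mul, mul_assoc] } with hL
    have hker : Submodule.span ℝ (s : Set (Fin (m + 4) → Fin (m + 4) → ℝ)) ≤ LinearMap.ker L := by
      rw [Submodule.span_le]
      intro P hPs
      have h1 := hw (s.equivFin ⟨P, hPs⟩)
      show P ∈ LinearMap.ker L
      rw [LinearMap.mem_ker]
      have h2 : FRF_P (Ω x₀) (e (s.equivFin.symm (s.equivFin ⟨P, hPs⟩)) x₀) = P := by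
        rw [Equiv.symm_apply_apply, hex, hP]
      show ∑ a, ∑ c, P a c * w ![stb (m + 4) a, stb (m + 4) c] = 0
      simp only [h2] at h1
      exact h1
    have h1 : FRF_P (Ω x₀) e' ∈ Submodule.span ℝ A := Submodule.subset_span ⟨e', he', rfl⟩
    rw [hspan] at h1
    have h2 : L (FRF_P (Ω x₀) e') = 0 := hker h1
    have h3 := FRF_ell (Ω x₀) w e'
    have h4 : wdg (Ω x₀) w (fun i => e' (Sum.inl i)) - w ![e' (Sum.inr 0), e' (Sum.inr 1)] = 0 := by
      rw [← h3]
      exact h2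
    exact sub_eq_zero.1 h4

end Pool.TIW
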