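import Pool.Agent.Work.MP_a1f430_wb.Interface2
import Pool.Agent.Work.MP_a1f430_wb.B_FRF

/-!
# Block FTA: the algebra of equations of finite type
-/

set_option autoImplicit false

namespace Pool.TIW

open Pool.TIA
open MeasureTheory Set Filter Topology
open scoped ContDiff ENNReal

/-- half of the wedge product of two linear forms -/
noncomputable def FTA_rho {E : Type} [NormedAddCommGroup E] [NormedSpace ℝ E]
    (α β : E →L[ℝ] ℝ) : E [⋀^Fin 2]→L[ℝ] ℝ where
  toFun v := (1 / 2) * (α (v 0) * β (v 1) - α (v 1) * β (v 0))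
  map_update_add' := by
    intro _ v i x y
    fin_cases i
    · simp
      ring
    · simp
      ring
  map_update_smul' := by
    intro _ v i c x
    fin_cases i
    · simp
      ring
    · simp
      ring
  cont := by fun_prop
  map_eq_zero_of_eq' := by
    intro v i j hij hne
    fin_cases i <;> fin_cases j
    · exact absurd rfl hne
    · have h : v 0 = v 1 := hij
      show (1 / 2) * (α (v 0) * β (v 1) - α (v 1) * β (v 0)) = 0
      rw [h]
      ring
    · have h : v 1 = v 0 := hij
      show (1 / 2) * (α (v 0) * β (v 1) - α (v 1) * β (v 0)) = 0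
      rw [h]
      ring
    · exact absurd rfl hne

/-- the two-form with the coefficients `B` -/
noncomputable def FTA_w {n : ℕ} (B : Fin n → Fin n → ℝ) : Frm 2 (Eu n) :=
  ∑ a, ∑ b, B a b • FTA_rho (EuclideanSpace.proj a : Eu n →L[ℝ] ℝ)
    (EuclideanSpace.proj b : Eu n →L[ℝ] ℝ)

theorem FTA_w_apply {n : ℕ} (B : Fin n → Fin n → ℝ) (hB : ∀ a b, B a b = -B b a) (u v : Eu n) :
    FTA_w B ![u, v] = ∑ a, ∑ b, B a b * (u a * v b) := by
  have h1 : FTA_w B ![u, v] = ∑ a, ∑ b, B a b * ((1 / 2) * (u a * v b - v a * u b)) := by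
    unfold FTA_w
    rw [ContinuousAlternatingMap.sum_apply]
    refine Finset.sum_congr rfl fun a _ => ?_
    rw [ContinuousAlternatingMap.sum_apply]
    refine Finset.sum_congr rfl fun b _ => ?_
    rfl
  have h2 : ∑ a, ∑ b, B a b * (v a * u b) = -∑ a, ∑ b, B a b * (u a * v b) := by
    rw [Finset.sum_comm, ← Finset.sum_neg_distrib]
    refine Finset.sum_congr rfl fun a _ => ?_
    rw [← Finset.sum_neg_distrib]
    refine Finset.sum_congr rfl fun b _ => ?_
    rw [hB b a]
    ring
  have h3 : ∑ a, ∑ b, B a b * ((1 / 2) * (u a * v b - v a * u b)) =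
      (1 / 2) * (∑ a, ∑ b, B a b * (u a * v b) - ∑ a, ∑ b, B a b * (v a * u b)) := by
    rw [← Finset.sum_sub_distrib, Finset.mul_sum]
    refine Finset.sum_congr rfl fun a _ => ?_
    rw [← Finset.sum_sub_distrib, Finset.mul_sum]
    refine Finset.sum_congr rfl fun b _ => ?_
    ring
  rw [h1, h3, h2]
  ring

theorem FTA_stb {n : ℕ} (c a : Fin n) : (stb n c) a = if a = c then 1 else 0 := by
  simp [stb]

theorem FTA_rot {n : ℕ} (f : Fin n → Fin n → Fin n → ℝ) :
    ∑ c, ∑ a, ∑ b, f a b c = ∑ c, ∑ a, ∑ b, f c a b := by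
  rw [Finset.sum_comm]
  refine Finset.sum_congr rfl fun a _ => ?_
  rw [Finset.sum_comm]

/-- the linear map `T` with the coefficients `B` -/
noncomputable def FTA_T {n : ℕ} (B : Fin n → Fin n → Fin n → ℝ) : Eu n →L[ℝ] Frm 2 (Eu n) :=
  ∑ c, (EuclideanSpace.proj c : Eu n →L[ℝ] ℝ).smulRight (FTA_w (B c))

theorem FTA_T_apply {n : ℕ} (B : Fin n → Fin n → Fin n → ℝ)
    (hB : ∀ c a b, B c a b = -B c b a) (u v w : Eu n) :
    FTA_T B u ![v, w] = ∑ c, ∑ a, ∑ b, u c * (B c a b * (v a * w b)) := by
  have h1 : FTA_T B u ![v, w] = ∑ c, u c * FTA_w (B c) ![v, w] := by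
    unfold FTA_T
    rw [sum_apply, ContinuousAlternatingMap.sum_apply]
    refine Finset.sum_congr rfl fun c _ => ?_
    rfl
  rw [h1]
  refine Finset.sum_congr rfl fun c _ => ?_
  rw [FTA_w_apply (B c) (hB c), Finset.mul_sum]
  refine Finset.sum_congr rfl fun a _ => ?_
  rw [Finset.mul_sum]

theorem FTA_T_cyc {n : ℕ} (B : Fin n → Fin n → Fin n → ℝ)
    (hB : ∀ c a b, B c a b = -B c b a)
    (hC : ∀ d e f, B d e f + B e f d + B f d e = 0) (u v w : Eu n) :
    FTA_T B u ![v, w] + FTA_T B v ![w, u] + FTA_T B w ![u, v] = 0 := by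
  rw [FTA_T_apply B hB, FTA_T_apply B hB, FTA_T_apply B hB]
  have e2 : ∑ c, ∑ a, ∑ b, v c * (B c a b * (w a * u b)) =
      ∑ c, ∑ a, ∑ b, v a * (B a b c * (w b * u c)) :=
    (FTA_rot fun c a b => v c * (B c a b * (w a * u b))).symm
  have e3 : ∑ c, ∑ a, ∑ b, w c * (B c a b * (u a * v b)) =
      ∑ c, ∑ a, ∑ b, w b * (B b c a * (u c * v a)) :=
    (FTA_rot fun c a b => w c * (B c a b * (u a * v b))).symm.trans
      (FTA_rot fun c a b => w a * (B a b c * (u b * v c))).symm
  rw [e2, e3, ← Finset.sum_add_distrib, ← Finset.sum_add_distrib]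
  refine Finset.sum_eq_zero fun c _ => ?_
  rw [← Finset.sum_add_distrib, ← Finset.sum_add_distrib]
  refine Finset.sum_eq_zero fun a _ => ?_
  rw [← Finset.sum_add_distrib, ← Finset.sum_add_distrib]
  refine Finset.sum_eq_zero fun b _ => ?_
  have := hC c a b
  linear_combination (u c * v a * w b) * this

theorem FTA_T_basis {n : ℕ} (B : Fin n → Fin n → Fin n → ℝ)
    (hB : ∀ c a b, B c a b = -B c b a) (c a b : Fin n) :
    FTA_T B (stb n c) ![stb n a, stb n b] = B c a b := by
  rw [FTA_T_apply B hB]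
  simp only [FTA_stb]
  simp

/-- the linear equations -/
noncomputable def FTA_L {n q : ℕ} (P : Fin q → Fin n → Fin n → ℝ) :
    (Fin n → Fin n → Fin n → ℝ) →ₗ[ℝ]
      (Fin q → Fin n → ℝ) × (Fin n → Fin n → Fin n → ℝ) × (Fin n → Fin n → Fin n → ℝ) where
  toFun T := (fun i d => ∑ a', ∑ b', P i a' b' * T d a' b',
    (fun d e f => T d e f + T e f d + T f d e), fun c a b => T c a b + T c b a)
  map_add' T S := by
    refine Prod.ext ?_ (Prod.ext ?_ ?_)
    · funext i d
      change ∑ a', ∑ b', P i a' b' * (T d a' b' + S d a' b') =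
        (∑ a', ∑ b', P i a' b' * T d a' b') + ∑ a', ∑ b', P i a' b' * S d a' b'
      rw [← Finset.sum_add_distrib]
      refine Finset.sum_congr rfl fun a _ => ?_
      rw [← Finset.sum_add_distrib]
      refine Finset.sum_congr rfl fun b _ => ?_
      ring
    · funext d e f
      change (T d e f + S d e f) + (T e f d + S e f d) + (T f d e + S f d e) =
        (T d e f + T e f d + T f d e) + (S d e f + S e f d + S f d e)
      ring
    · funext c a b
      change (T c a b + S c a b) + (T c b a + S c b a) = (T c a b + T c b a) + (S c a b + S c b a)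
      ring
  map_smul' r T := by
    refine Prod.ext ?_ (Prod.ext ?_ ?_)
    · funext i d
      change ∑ a', ∑ b', P i a' b' * (r * T d a' b') = r * ∑ a', ∑ b', P i a' b' * T d a' b'
      rw [Finset.mul_sum]
      refine Finset.sum_congr rfl fun a _ => ?_
      rw [Finset.mul_sum]
      refine Finset.sum_congr rfl fun b _ => ?_
      ring
    · funext d e f
      change r * T d e f + r * T e f d + r * T f d e = r * (T d e f + T e f d + T f d e)
      ring
    · funext c a b
      change r * T c a b + r * T c b a = r * (T c a b + T c b a)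
      ring

theorem FTA_single2 {n q : ℕ} (P : Fin q → Fin n → ℝ) :
    P = ∑ i, ∑ d, P i d • (Pi.single i (Pi.single d 1) : Fin q → Fin n → ℝ) := by
  funext i' d'
  rw [Finset.sum_apply, Finset.sum_apply]
  rw [Finset.sum_eq_single i']
  · rw [Finset.sum_apply, Finset.sum_apply, Finset.sum_eq_single d']
    · simp
    · intro d _ hd
      simp [Pi.single_eq_of_ne (Ne.symm hd)]
    · intro h
      exact absurd (Finset.mem_univ _) h
  · intro i _ hi
    rw [Finset.sum_apply, Finset.sum_apply]
    refine Finset.sum_eq_zero fun d _ => ?_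
    simp [Pi.single_eq_of_ne (Ne.symm hi)]
  · intro h
    exact absurd (Finset.mem_univ _) h

theorem FTA_single3 {n : ℕ} (C : Fin n → Fin n → Fin n → ℝ) :
    C = ∑ d, ∑ e, ∑ f, C d e f •
      (Pi.single d (Pi.single e (Pi.single f 1)) : Fin n → Fin n → Fin n → ℝ) := by
  funext d' e' f'
  rw [Finset.sum_apply, Finset.sum_apply, Finset.sum_apply]
  rw [Finset.sum_eq_single d']
  · rw [Finset.sum_apply, Finset.sum_apply, Finset.sum_apply, Finset.sum_eq_single e']
    · rw [Finset.sum_apply, Finset.sum_apply, Finset.sum_apply, Finset.sum_eq_single f']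
      · simp
      · intro f _ hf
        simp [Pi.single_eq_of_ne (Ne.symm hf)]
      · intro h
        exact absurd (Finset.mem_univ _) h
    · intro e _ he
      rw [Finset.sum_apply, Finset.sum_apply, Finset.sum_apply]
      refine Finset.sum_eq_zero fun f _ => ?_
      simp [Pi.single_eq_of_ne (Ne.symm he)]
    · intro h
      exact absurd (Finset.mem_univ _) h
  · intro d _ hd
    rw [Finset.sum_apply, Finset.sum_apply, Finset.sum_apply]
    refine Finset.sum_eq_zero fun e _ => ?_
    rw [Finset.sum_apply, Finset.sum_apply, Finset.sum_apply]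
    refine Finset.sum_eq_zero fun f _ => ?_
    simp [Pi.single_eq_of_ne (Ne.symm hd)]
  · intro h
    exact absurd (Finset.mem_univ _) h

theorem p_FTA (hFRF : Stmt_FRF) (hLIV : Stmt_LIV) : Stmt_FTA := by
  intro m U h Ω x₀ hU hR hΩ hx₀ hFT
  obtain ⟨N, q, p, hNo, hxN, hNU, hp, hpF, hpw⟩ := hFRF m U h Ω x₀ hU hR hΩ hx₀
  set Λ : Eu (m + 4) → (Fin (m + 4) → Fin (m + 4) → Fin (m + 4) → ℝ) →L[ℝ]
      (Fin q → Fin (m + 4) → ℝ) × (Fin (m + 4) → Fin (m + 4) → Fin (m + 4) → ℝ) ×
        (Fin (m + 4) → Fin (m + 4) → Fin (m + 4) → ℝ) :=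
    fun y => LinearMap.toContinuousLinearMap (FTA_L fun i a b => p i a b y) with hΛ
  have hΛa : ∀ y T, Λ y T = (fun i d => ∑ a', ∑ b', p i a' b' y * T d a' b',
      (fun d e f => T d e f + T e f d + T f d e), fun c a b => T c a b + T c b a) :=
    fun y T => rfl
  have hΛs : ContDiffOn ℝ ∞ Λ N := by
    rw [contDiffOn_clm_apply]
    intro T
    have e : (fun y => Λ y T) = fun y => (fun i d => ∑ a', ∑ b', p i a' b' y * T d a' b',
      (fun d e f => T d e f + T e f d + T f d e), fun c a b => T c a b + T c b a) :=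
      funext fun y => hΛa y T
    rw [e]
    refine ContDiffOn.prodMk ?_ contDiffOn_const
    rw [contDiffOn_pi]
    intro i
    rw [contDiffOn_pi]
    intro d
    refine ContDiffOn.sum fun a _ => ContDiffOn.sum fun b _ => ?_
    exact (hp i a b).mul contDiffOn_const
  have hinj : Function.Injective (Λ x₀) := by
    rw [injective_iff_map_eq_zero]
    intro T hT
    rw [hΛa] at hT
    have t1 : ∀ i d, ∑ a', ∑ b', p i a' b' x₀ * T d a' b' = 0 := fun i d =>
      congrFun (congrFun (congrArg Prod.fst hT) i) d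
    have t2 : ∀ d e f, T d e f + T e f d + T f d e = 0 := fun d e f =>
      congrFun (congrFun (congrFun (congrArg (fun z => z.2.1) hT) d) e) f
    have t3 : ∀ c a b, T c a b + T c b a = 0 := fun c a b =>
      congrFun (congrFun (congrFun (congrArg (fun z => z.2.2) hT) c) a) b
    have hanti : ∀ c a b, T c a b = -T c b a := fun c a b => by linarith [t3 c a b]
    have h0 : FTA_T T = 0 := by
      refine hFT (FTA_T T) (fun v => hpw _ fun i => ?_) (FTA_T_cyc T hanti t2)
      have e1 : ∀ a c, FTA_T T v ![stb (m + 4) a, stb (m + 4) c] = ∑ d, v d * T d a c := by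
        intro a c
        rw [FTA_T_apply T hanti]
        refine Finset.sum_congr rfl fun d _ => ?_
        simp only [FTA_stb]
        simp
      simp only [e1]
      have e2 : ∑ a, ∑ c, p i a c x₀ * ∑ d, v d * T d a c =
          ∑ d, v d * ∑ a, ∑ c, p i a c x₀ * T d a c := by
        have s1 : ∀ d, v d * ∑ a, ∑ c, p i a c x₀ * T d a c =
            ∑ a, ∑ c, v d * (p i a c x₀ * T d a c) := by
          intro d
          rw [Finset.mul_sum]
          exact Finset.sum_congr rfl fun a _ => Finset.mul_sum _ _ _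
        rw [Finset.sum_congr rfl fun d _ => s1 d]
        conv_rhs => rw [Finset.sum_comm]
        refine Finset.sum_congr rfl fun a _ => ?_
        conv_rhs => rw [Finset.sum_comm]
        refine Finset.sum_congr rfl fun c _ => ?_
        rw [Finset.mul_sum]
        refine Finset.sum_congr rfl fun d _ => ?_
        ring
      rw [e2]
      exact Finset.sum_eq_zero fun d _ => by rw [t1 i d, mul_zero]
    funext c a b
    rw [← FTA_T_basis T hanti c a b, h0]
    rfl
  obtain ⟨N', K, hN'o, hxN', hN'N, hK, hKΛ⟩ := hLIV (Eu (m + 4)) _ _ N x₀ Λ hNo hxN hΛs hinj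
  have hKs : ∀ z c a b, ContDiffOn ℝ ∞ (fun y => K y z c a b) N' := by
    intro z c a b
    have h1 : ContDiffOn ℝ ∞ (fun y => K y z) N' := hK.clm_apply contDiffOn_const
    have h2 := (contDiffOn_pi.1 h1) c
    have h3 := (contDiffOn_pi.1 h2) a
    exact (contDiffOn_pi.1 h3) b
  refine ⟨N', q, p,
    fun c a b i d y => K y (Pi.single i (Pi.single d 1), 0, 0) c a b,
    fun c a b d e f y => K y (0, Pi.single d (Pi.single e (Pi.single f 1)), 0) c a b,
    hN'o, hxN', hN'N.trans hNU, fun i a c => (hp i a c).mono hN'N,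
    fun c a b i d => hKs _ c a b, fun c a b d e f => hKs _ c a b, ?_, ?_⟩
  · intro 𝔐 _ _ _ y hy F hF i
    exact hpF 𝔐 y (hN'N hy) F hF i
  · intro y hy T hT c a b
    have hTK := hKΛ y hy T
    rw [hΛa] at hTK
    have t3 : (fun c a b => T c a b + T c b a) =
        (0 : Fin (m + 4) → Fin (m + 4) → Fin (m + 4) → ℝ) := by
      funext c a b
      change T c a b + T c b a = 0
      rw [hT c a b]
      ring
    rw [t3] at hTK
    set P : Fin q → Fin (m + 4) → ℝ := fun i d => ∑ a', ∑ b', p i a' b' y * T d a' b' with hP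
    set C : Fin (m + 4) → Fin (m + 4) → Fin (m + 4) → ℝ :=
      fun d e f => T d e f + T e f d + T f d e with hC
    have hdec : ((P, C, 0) : (Fin q → Fin (m + 4) → ℝ) ×
        (Fin (m + 4) → Fin (m + 4) → Fin (m + 4) → ℝ) ×
        (Fin (m + 4) → Fin (m + 4) → Fin (m + 4) → ℝ)) =
        (∑ i, ∑ d, P i d • (Pi.single i (Pi.single d 1), 0, 0)) +
          ∑ d, ∑ e, ∑ f, C d e f • (0, Pi.single d (Pi.single e (Pi.single f 1)), 0) := by
      refine Prod.ext ?_ (Prod.ext ?_ ?_)
      · simp only [Prod.fst_add, Prod.fst_sum, Prod.smul_fst, smul_zero, Finset.sum_const_zero,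
          add_zero]
        exact FTA_single2 P
      · simp only [Prod.snd_add, Prod.snd_sum, Prod.smul_snd, Prod.fst_add, Prod.fst_sum,
          Prod.smul_fst, smul_zero, Finset.sum_const_zero, zero_add]
        exact FTA_single3 C
      · simp only [Prod.snd_add, Prod.snd_sum, Prod.smul_snd, smul_zero, Finset.sum_const_zero,
          zero_add]
    rw [hdec, map_add, map_sum, map_sum] at hTK
    simp only [map_sum, map_smul] at hTK
    have h1 := congrFun (congrFun (congrFun hTK c) a) b
    rw [← h1]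
    simp only [Pi.add_apply, Finset.sum_apply, Pi.smul_apply, smul_eq_mul]
    congr 1
    · refine Finset.sum_congr rfl fun i _ => Finset.sum_congr rfl fun d _ => ?_
      rw [mul_comm]
    · refine Finset.sum_congr rfl fun d _ => Finset.sum_congr rfl fun e _ =>
        Finset.sum_congr rfl fun f _ => ?_
      rw [mul_comm]

end Pool.TIW
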