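import Pool.Agent.Work.MP_a1f430_wb.Interface2
import Pool.Agent.Work.MP_a1f430_wb.B_BIT

/-! # Block FTS: the weak system (MP_a1f430, THEOREM FT) -/

set_option autoImplicit false

namespace Pool.TIW

open Pool.TIA
open MeasureTheory Set Filter Topology
open scoped ContDiff ENNReal

section prod

variable {E : Type} [NormedAddCommGroup E] [NormedSpace ℝ E]

theorem FTS_test {W : Set E} (hW : IsOpen W) {φ p : E → ℝ} (hφ : Test W φ)
    (hp : ContDiffOn ℝ ∞ p W) : Test W (fun x => φ x * p x) where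
  smooth := by
    rw [contDiff_iff_contDiffAt]
    intro x
    by_cases hx : x ∈ W
    · exact hφ.smooth.contDiffAt.mul ((hp x hx).contDiffAt (hW.mem_nhds hx))
    · have h0 : x ∉ tsupport φ := fun h => hx (hφ.sub h)
      have h1 := notMem_tsupport_iff_eventuallyEq.1 h0
      have h2 : (fun x => φ x * p x) =ᶠ[𝓝 x] fun _ => (0 : ℝ) := by
        filter_upwards [h1] with y hy
        simp [hy]
      exact contDiffAt_const.congr_of_eventuallyEq h2
  cpt := hφ.cpt.mul_right
  sub := (tsupport_mul_subset_left).trans hφ.sub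

theorem FTS_zero {W : Set E} {φ : E → ℝ} (hφ : Test W φ) {x : E} (hx : x ∉ W) : φ x = 0 := by
  by_contra h0
  exact hx (hφ.sub (subset_tsupport _ h0))

theorem FTS_dzero {W : Set E} {φ : E → ℝ} (hφ : Test W φ) {x : E} (hx : x ∉ W) (v : E) :
    fderiv ℝ φ x v = 0 := by
  have h0 : x ∉ tsupport φ := fun h => hx (hφ.sub h)
  have h1 := notMem_tsupport_iff_eventuallyEq.1 h0
  rw [h1.fderiv_eq]
  simp

theorem FTS_fd {W : Set E} (hW : IsOpen W) {φ p : E → ℝ} (hφ : Test W φ)
    (hp : ContDiffOn ℝ ∞ p W) (x v : E) :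
    fderiv ℝ (fun y => φ y * p y) x v = φ x * fderiv ℝ p x v + p x * fderiv ℝ φ x v := by
  by_cases hx : x ∈ W
  · have h1 : DifferentiableAt ℝ φ x := (hφ.smooth.differentiable (by simp)) x
    have h2 : DifferentiableAt ℝ p x :=
      ((hp x hx).contDiffAt (hW.mem_nhds hx)).differentiableAt (by simp)
    rw [fderiv_fun_mul h1 h2]
    simp
  · rw [FTS_dzero (FTS_test hW hφ hp) hx v, FTS_dzero hφ hx v, FTS_zero hφ hx]
    simp

end prod

section functional

variable {E : Type} [NormedAddCommGroup E] [NormedSpace ℝ E] [FiniteDimensional ℝ E]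
  [MeasureSpace E] [BorelSpace E] [(volume : Measure E).IsAddHaarMeasure]
variable {X : Type} [NormedAddCommGroup X] [NormedSpace ℝ X]

/-- The pairing of a test function with `w + ∂_v f`. -/
noncomputable def FTS_I (v : E) (w f : E → X) (ψ : E → ℝ) : X :=
  ∫ x, (ψ x • w x - fderiv ℝ ψ x v • f x)

/-- Locally integrable. -/
def FTS_L (W : Set E) (f : E → X) : Prop :=
  ∀ K : Set E, IsCompact K → K ⊆ W → IntegrableOn f K volume

omit [FiniteDimensional ℝ E] [(volume : Measure E).IsAddHaarMeasure] in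
theorem FTS_int {W : Set E} {v : E} {w f : E → X} (hw : FTS_L W w) (hf : FTS_L W f)
    {ψ : E → ℝ} (hψ : Test W ψ) : Integrable (fun x => ψ x • w x - fderiv ℝ ψ x v • f x) :=
  (BIT_int hψ hw).sub (BIT_int (BIT_test hψ v) hf)

variable {W : Set E} (hW : IsOpen W) {v : E} {w f : E → X} (hw : FTS_L W w) (hf : FTS_L W f)
  {φ : E → ℝ} (hφ : Test W φ)

include hW hw hf hφ

omit [FiniteDimensional ℝ E] [(volume : Measure E).IsAddHaarMeasure] in
theorem FTS_add {p q : E → ℝ} (hp : ContDiffOn ℝ ∞ p W) (hq : ContDiffOn ℝ ∞ q W) :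
    FTS_I v w f (fun x => φ x * (p x + q x)) =
      FTS_I v w f (fun x => φ x * p x) + FTS_I v w f (fun x => φ x * q x) := by
  unfold FTS_I
  rw [← integral_add (FTS_int hw hf (FTS_test hW hφ hp)) (FTS_int hw hf (FTS_test hW hφ hq))]
  refine integral_congr_ae (Eventually.of_forall fun x => ?_)
  show (φ x * (p x + q x)) • w x - fderiv ℝ (fun y => φ y * (p y + q y)) x v • f x =
    ((φ x * p x) • w x - fderiv ℝ (fun y => φ y * p y) x v • f x) +
      ((φ x * q x) • w x - fderiv ℝ (fun y => φ y * q y) x v • f x)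
  have h1 : fderiv ℝ (fun y => φ y * (p y + q y)) x v =
      fderiv ℝ (fun y => φ y * p y) x v + fderiv ℝ (fun y => φ y * q y) x v := by
    have h2 : (fun y => φ y * (p y + q y)) = fun y => φ y * p y + φ y * q y := by
      funext y
      ring
    rw [h2, fderiv_fun_add]
    · rfl
    · exact ((FTS_test hW hφ hp).smooth.differentiable (by simp)) x
    · exact ((FTS_test hW hφ hq).smooth.differentiable (by simp)) x
  rw [h1, mul_add, add_smul, add_smul]
  abel

omit [FiniteDimensional ℝ E] [(volume : Measure E).IsAddHaarMeasure] in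
theorem FTS_const (c : ℝ) {p : E → ℝ} (hp : ContDiffOn ℝ ∞ p W) :
    FTS_I v w f (fun x => φ x * (c * p x)) = c • FTS_I v w f (fun x => φ x * p x) := by
  unfold FTS_I
  rw [← integral_smul]
  refine integral_congr_ae (Eventually.of_forall fun x => ?_)
  show (φ x * (c * p x)) • w x - fderiv ℝ (fun y => φ y * (c * p y)) x v • f x =
    c • ((φ x * p x) • w x - fderiv ℝ (fun y => φ y * p y) x v • f x)
  have h1 : fderiv ℝ (fun y => φ y * (c * p y)) x v = c * fderiv ℝ (fun y => φ y * p y) x v := by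
    have h2 : (fun y => φ y * (c * p y)) = fun y => c * (φ y * p y) := by
      funext y
      ring
    rw [h2, fderiv_const_mul (((FTS_test hW hφ hp).smooth.differentiable (by simp)) x)]
    simp
  rw [h1, smul_sub, smul_smul, smul_smul]
  congr 2
  ring

omit [FiniteDimensional ℝ E] [(volume : Measure E).IsAddHaarMeasure] in
theorem FTS_sum {κ : Type} (s : Finset κ) {p : κ → E → ℝ} (hp : ∀ k ∈ s, ContDiffOn ℝ ∞ (p k) W) :
    FTS_I v w f (fun x => φ x * ∑ k ∈ s, p k x) =
      ∑ k ∈ s, FTS_I v w f (fun x => φ x * p k x) := by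
  classical
  induction s using Finset.induction_on with
  | empty =>
    simp only [Finset.sum_empty, mul_zero]
    unfold FTS_I
    simp
  | insert a s ha ih =>
    have h1 : (fun x => φ x * ∑ k ∈ insert a s, p k x) =
        fun x => φ x * (p a x + ∑ k ∈ s, p k x) := by
      funext x
      rw [Finset.sum_insert ha]
    rw [h1, FTS_add hW hw hf hφ (hp a (Finset.mem_insert_self a s))
      (ContDiffOn.sum fun k hk => hp k (Finset.mem_insert_of_mem hk)),
      ih fun k hk => hp k (Finset.mem_insert_of_mem hk), Finset.sum_insert ha]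

end functional

theorem FTS_add3 {α X : Type} [MeasurableSpace α] {μ : Measure α} [NormedAddCommGroup X]
    [NormedSpace ℝ X] {f g h : α → X} (hf : Integrable f μ) (hg : Integrable g μ)
    (hh : Integrable h μ) :
    ∫ x, (f x + g x + h x) ∂μ = (∫ x, f x ∂μ) + (∫ x, g x ∂μ) + ∫ x, h x ∂μ := by
  have h1 : ∫ x, (f x + g x + h x) ∂μ = (∫ x, (f x + g x) ∂μ) + ∫ x, h x ∂μ :=
    integral_add (hf.add hg) hh
  rw [h1, integral_add hf hg]

/-- Cyclic renaming of a triple sum. -/
theorem FTS_rot {X : Type} [AddCommMonoid X] {n : ℕ} (G : Fin n → Fin n → Fin n → X) :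
    ∑ x, ∑ y, ∑ z, G x y z = ∑ x, ∑ y, ∑ z, G z x y := by
  calc ∑ z, ∑ x, ∑ y, G z x y = ∑ x, ∑ z, ∑ y, G z x y := Finset.sum_comm
    _ = ∑ x, ∑ y, ∑ z, G z x y := Finset.sum_congr rfl fun x _ => Finset.sum_comm

/-- The identity for the arrays in terms of coefficients. -/
theorem FTS_coef {n q : ℕ} (K : Fin q → Fin n → ℝ) (P : Fin q → Fin n → Fin n → ℝ)
    (L T : Fin n → Fin n → Fin n → ℝ) :
    (∑ i, ∑ d, K i d * ∑ a', ∑ b', P i a' b' * T d a' b') +
      ∑ d, ∑ e, ∑ f, L d e f * (T d e f + T e f d + T f d e) =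
    ∑ d, ∑ a', ∑ b', ((∑ i, K i d * P i a' b') + (L d a' b' + (L b' d a' + L a' b' d))) *
      T d a' b' := by
  have h1 : ∑ i, ∑ d, K i d * ∑ a', ∑ b', P i a' b' * T d a' b' =
      ∑ d, ∑ a', ∑ b', (∑ i, K i d * P i a' b') * T d a' b' := by
    rw [Finset.sum_comm]
    refine Finset.sum_congr rfl fun d _ => ?_
    simp only [Finset.mul_sum, Finset.sum_mul]
    rw [Finset.sum_comm]
    refine Finset.sum_congr rfl fun a' _ => ?_
    rw [Finset.sum_comm]
    refine Finset.sum_congr rfl fun b' _ => Finset.sum_congr rfl fun i _ => ?_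
    ring
  have h2 : ∑ d, ∑ e, ∑ f, L d e f * (T d e f + T e f d + T f d e) =
      (∑ d, ∑ e, ∑ f, L d e f * T d e f) + ((∑ d, ∑ e, ∑ f, L d e f * T e f d) +
        ∑ d, ∑ e, ∑ f, L d e f * T f d e) := by
    simp only [← Finset.sum_add_distrib]
    refine Finset.sum_congr rfl fun d _ => Finset.sum_congr rfl fun e _ =>
      Finset.sum_congr rfl fun f _ => ?_
    ring
  have h3 : ∑ d, ∑ e, ∑ f, L d e f * T e f d = ∑ d, ∑ e, ∑ f, L f d e * T d e f :=
    FTS_rot fun d e f => L d e f * T e f d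
  have h4 : ∑ d, ∑ e, ∑ f, L d e f * T f d e = ∑ d, ∑ e, ∑ f, L e f d * T d e f :=
    (FTS_rot fun d e f => L e f d * T d e f).symm
  rw [h1, h2, h3, h4]
  simp only [← Finset.sum_add_distrib]
  refine Finset.sum_congr rfl fun d _ => Finset.sum_congr rfl fun e _ =>
    Finset.sum_congr rfl fun f _ => ?_
  ring

/-- Evaluation of coefficients on elementary arrays. -/
theorem FTS_elem {n : ℕ} (C : Fin n → Fin n → Fin n → ℝ) (c a b : Fin n)
    (h : ∀ T : Fin n → Fin n → Fin n → ℝ, (∀ c a b, T c a b = -T c b a) →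
      T c a b = ∑ d, ∑ a', ∑ b', C d a' b' * T d a' b') (d₀ a₀ b₀ : Fin n) :
    (if d₀ = c ∧ a₀ = a ∧ b₀ = b then (1 : ℝ) else 0) - C d₀ a₀ b₀ =
      (if d₀ = c ∧ b₀ = a ∧ a₀ = b then (1 : ℝ) else 0) - C d₀ b₀ a₀ := by
  classical
  let S : Fin n → Fin n → Fin n → Fin n → Fin n → Fin n → ℝ := fun x y z d a' b' =>
    if d = x ∧ a' = y ∧ b' = z then 1 else 0
  have hS : ∀ x y z, ∑ d, ∑ a', ∑ b', C d a' b' * S x y z d a' b' = C x y z := by
    intro x y z
    rw [Finset.sum_eq_single x, Finset.sum_eq_single y, Finset.sum_eq_single z]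
    · simp [S]
    · intro b' _ hb'
      simp [S, hb']
    · simp
    · intro a' _ ha'
      exact Finset.sum_eq_zero fun b' _ => by simp [S, ha']
    · simp
    · intro d _ hd
      exact Finset.sum_eq_zero fun a' _ => Finset.sum_eq_zero fun b' _ => by simp [S, hd]
    · simp
  have h1 := h (fun d a' b' => S d₀ a₀ b₀ d a' b' - S d₀ b₀ a₀ d a' b') (by
    intro d a' b'
    have h2 : ∀ y z : Fin n, S d₀ y z d b' a' = S d₀ z y d a' b' := by
      intro y z
      simp only [S]
      refine if_congr ?_ rfl rfl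
      constructor
      · rintro ⟨h1, h2, h3⟩
        exact ⟨h1, h3, h2⟩
      · rintro ⟨h1, h2, h3⟩
        exact ⟨h1, h3, h2⟩
    rw [h2, h2]
    ring)
  simp only [mul_sub, Finset.sum_sub_distrib, hS] at h1
  have h2 : ∀ y z : Fin n, S d₀ y z c a b = if d₀ = c ∧ y = a ∧ z = b then (1 : ℝ) else 0 := by
    intro y z
    simp only [S]
    refine if_congr ?_ rfl rfl
    constructor
    · rintro ⟨h1, h2, h3⟩
      exact ⟨h1.symm, h2.symm, h3.symm⟩
    · rintro ⟨h1, h2, h3⟩
      exact ⟨h1.symm, h2.symm, h3.symm⟩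
  rw [h2, h2] at h1
  linarith

theorem p_FTS : Stmt_FTS := by
  intro 𝔐 _ _ _ _ _ _ 𝒢 n q N A F p K1 K2 hN hC hB hp hK1 hK2 hE hI c a b φ hφ
  classical
  let e : Fin n → Eu n := fun i => stb n i
  let f : Fin n → Fin n → Eu n → 𝔐 := fun a b x => F x ![e a, e b]
  let w : Fin n → Fin n → Fin n → Eu n → 𝔐 := fun d a b x =>
    A x (e d) * f a b x - f a b x * A x (e d)
  have hf : ∀ a b, FTS_L N (f a b) := fun a b => BIT_L1 (BIT_evF hC.F2 _)
  have hw : ∀ d a b, FTS_L N (w d a b) := fun d a b K hK hKN =>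
    (BIT_mul (BIT_evA hC.A2 (e d)) (BIT_evF hC.F2 ![e a, e b]) K hK hKN).sub
      (BIT_mul (BIT_evF hC.F2 ![e a, e b]) (BIT_evA hC.A2 (e d)) K hK hKN)
  let B : Fin n → Fin n → Fin n → (Eu n → ℝ) → 𝔐 := fun d a b ψ =>
    FTS_I (e d) (w d a b) (f a b) ψ
  have hfa : ∀ a b x, f b a x = -f a b x := fun a b x => BIT_swap (F x) (e a) (e b)
  -- antisymmetry
  have hanti : ∀ d a b ψ, B d b a ψ = -B d a b ψ := by
    intro d a b ψ
    simp only [B]
    unfold FTS_I
    rw [← integral_neg]
    refine integral_congr_ae (Eventually.of_forall fun x => ?_)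
    show ψ x • (A x (e d) * f b a x - f b a x * A x (e d)) - fderiv ℝ ψ x (e d) • f b a x =
      -(ψ x • (A x (e d) * f a b x - f a b x * A x (e d)) - fderiv ℝ ψ x (e d) • f a b x)
    rw [hfa a b x, smul_neg, mul_neg, neg_mul, ← neg_sub', smul_neg]
    abel
  -- the Bianchi identity
  have hbian : ∀ d a b ψ, Test N ψ → B d a b ψ + B a b d ψ + B b d a ψ = 0 := by
    intro d a b ψ hψ
    have h1 := hB (e d) (e a) (e b) ψ hψ
    simp only [Fin.sum_univ_three, cyc, Matrix.cons_val_zero, Matrix.cons_val_one,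
      Matrix.cons_val_two, Matrix.head_cons, Matrix.tail_cons, sub_zero] at h1
    have i1 := BIT_int (BIT_test hψ (e d)) (hf a b)
    have i2 := BIT_int (BIT_test hψ (e a)) (hf b d)
    have i3 := BIT_int (BIT_test hψ (e b)) (hf d a)
    have j1 := BIT_int hψ (hw d a b)
    have j2 := BIT_int hψ (hw a b d)
    have j3 := BIT_int hψ (hw b d a)
    have h2 : ∫ x, (fderiv ℝ ψ x (e d) • f a b x + fderiv ℝ ψ x (e a) • f b d x +
        fderiv ℝ ψ x (e b) • f d a x) = ∫ x, (ψ x • w d a b x + ψ x • w a b d x +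
          ψ x • w b d a x) := by
      refine h1.trans (integral_congr_ae (Eventually.of_forall fun x => ?_))
      show ψ x • (w d a b x + w a b d x + w b d a x) = _
      rw [smul_add, smul_add]
    rw [FTS_add3 i1 i2 i3, FTS_add3 j1 j2 j3] at h2
    simp only [B]
    unfold FTS_I
    rw [integral_sub j1 i1, integral_sub j2 i2, integral_sub j3 i3]
    have h3 : ∀ a1 a2 a3 b1 b2 b3 : 𝔐, a1 + a2 + a3 = b1 + b2 + b3 →
        (b1 - a1) + (b2 - a2) + (b3 - a3) = 0 := by
      intro a1 a2 a3 b1 b2 b3 h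
      have : (b1 - a1) + (b2 - a2) + (b3 - a3) = (b1 + b2 + b3) - (a1 + a2 + a3) := by abel
      rw [this, h, sub_self]
    exact h3 _ _ _ _ _ _ h2
  -- the equations `∑ p F = 0`
  have hEq : ∀ i d ψ, Test N ψ → ∑ a', ∑ b', B d a' b' (fun x => ψ x * p i a' b' x) =
      -∫ x, ψ x • ∑ a', ∑ b', fderiv ℝ (p i a' b') x (e d) • f a' b' x := by
    intro i d ψ hψ
    have hint : ∀ a' b', Integrable (fun x => (ψ x * p i a' b' x) • w d a' b' x -
        fderiv ℝ (fun x => ψ x * p i a' b' x) x (e d) • f a' b' x) := fun a' b' =>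
      FTS_int (hw d a' b') (hf a' b') (FTS_test hN hψ (hp i a' b'))
    have h1 : ∑ a', ∑ b', B d a' b' (fun x => ψ x * p i a' b' x) =
        ∫ x, ∑ a', ∑ b', ((ψ x * p i a' b' x) • w d a' b' x -
          fderiv ℝ (fun x => ψ x * p i a' b' x) x (e d) • f a' b' x) := by
      rw [integral_finsetSum _ fun a' _ => integrable_finsetSum _ fun b' _ => hint a' b']
      refine Finset.sum_congr rfl fun a' _ => ?_
      rw [integral_finsetSum _ fun b' _ => hint a' b']
      rfl
    rw [h1, ← integral_neg]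
    refine integral_congr_ae ?_
    filter_upwards [(ae_restrict_iff' hN.measurableSet).1 hE] with x hx
    have h2 : ∀ a' b', (ψ x * p i a' b' x) • w d a' b' x -
        fderiv ℝ (fun x => ψ x * p i a' b' x) x (e d) • f a' b' x =
        (ψ x • (A x (e d) * (p i a' b' x • f a' b' x)) -
          ψ x • ((p i a' b' x • f a' b' x) * A x (e d)) -
          fderiv ℝ ψ x (e d) • (p i a' b' x • f a' b' x)) -
          ψ x • (fderiv ℝ (p i a' b') x (e d) • f a' b' x) := by
      intro a' b'
      rw [FTS_fd hN hψ (hp i a' b')]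
      simp only [w, mul_smul_comm, smul_mul_assoc, smul_sub, add_smul, mul_smul]
      rw [smul_comm (p i a' b' x) (fderiv ℝ ψ x (e d))]
      abel
    simp only [h2, Finset.sum_sub_distrib, ← Finset.smul_sum, ← Finset.mul_sum, ← Finset.sum_mul]
    by_cases hxN : x ∈ N
    · have h3 : ∑ a', ∑ b', p i a' b' x • f a' b' x = 0 := hx hxN i
      rw [h3]
      simp
    · rw [FTS_zero hψ hxN, FTS_dzero hψ hxN]
      simp
  -- the coefficients
  let C : Fin n → Fin n → Fin n → Eu n → ℝ := fun d a' b' x =>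
    (∑ i, K1 c a b i d x * p i a' b' x) +
      (K2 c a b d a' b' x + (K2 c a b b' d a' x + K2 c a b a' b' d x))
  let δ : Fin n → Fin n → Fin n → ℝ := fun d a' b' =>
    if d = c ∧ a' = a ∧ b' = b then (1 : ℝ) else 0
  have hC' : ∀ y ∈ N, ∀ d a' b', δ d a' b' - C d a' b' y = δ d b' a' - C d b' a' y := by
    intro y hy d a' b'
    refine FTS_elem (fun d a' b' => C d a' b' y) c a b (fun T hT => ?_) d a' b'
    rw [hI y hy T hT c a b]
    exact FTS_coef (fun i d => K1 c a b i d y) (fun i a' b' => p i a' b' y)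
      (fun d e f => K2 c a b d e f y) T
  have hu : ∀ i d a' b', ContDiffOn ℝ ∞ (fun x => K1 c a b i d x * p i a' b' x) N :=
    fun i d a' b' => (hK1 c a b i d).mul (hp i a' b')
  have hus : ∀ d a' b', ContDiffOn ℝ ∞ (fun x => ∑ i, K1 c a b i d x * p i a' b' x) N :=
    fun d a' b' => ContDiffOn.sum fun i _ => hu i d a' b'
  have hCs : ∀ d a' b', ContDiffOn ℝ ∞ (C d a' b') N := fun d a' b' =>
    (hus d a' b').add ((hK2 c a b d a' b').add ((hK2 c a b b' d a').add (hK2 c a b a' b' d)))
  have hone : ContDiffOn ℝ ∞ (fun _ : Eu n => (1 : ℝ)) N := contDiffOn_const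
  have hone' : ∀ d a' b', B d a' b' (fun x => φ x * 1) = B d a' b' φ := fun d a' b' => by
    simp only [mul_one]
  -- the symmetric part gives zero
  let Δ : Fin n → Fin n → Fin n → Eu n → ℝ := fun d a' b' x => φ x * (δ d a' b' - C d a' b' x)
  have hΔ : ∀ d a' b', Δ d b' a' = Δ d a' b' := by
    intro d a' b'
    funext x
    by_cases hx : x ∈ N
    · show φ x * (δ d b' a' - C d b' a' x) = φ x * (δ d a' b' - C d a' b' x)
      rw [hC' x hx d a' b']
    · show φ x * (δ d b' a' - C d b' a' x) = φ x * (δ d a' b' - C d a' b' x)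
      rw [FTS_zero hφ hx, zero_mul, zero_mul]
  have hzero : ∑ d, ∑ a', ∑ b', B d a' b' (Δ d a' b') = 0 := by
    refine Finset.sum_eq_zero fun d _ => ?_
    have h1 : ∑ a', ∑ b', B d a' b' (Δ d a' b') = -∑ a', ∑ b', B d a' b' (Δ d a' b') := by
      conv_lhs => rw [Finset.sum_comm]
      rw [← Finset.sum_neg_distrib]
      refine Finset.sum_congr rfl fun a' _ => ?_
      rw [← Finset.sum_neg_distrib]
      refine Finset.sum_congr rfl fun b' _ => ?_
      rw [hanti d a' b', hΔ]
    have h2 : (2 : ℝ) • ∑ a', ∑ b', B d a' b' (Δ d a' b') = 0 := by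
      rw [two_smul]
      exact add_eq_zero_iff_eq_neg.2 h1
    exact (smul_eq_zero.1 h2).resolve_left two_ne_zero
  -- expansion of the zero sum
  have hexp : ∀ d a' b', B d a' b' (Δ d a' b') = δ d a' b' • B d a' b' φ -
      ((∑ i, B d a' b' (fun x => φ x * (K1 c a b i d x * p i a' b' x))) +
        (B d a' b' (fun x => φ x * K2 c a b d a' b' x) +
          (B d a' b' (fun x => φ x * K2 c a b b' d a' x) +
            B d a' b' (fun x => φ x * K2 c a b a' b' d x)))) := by
    intro d a' b'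
    have h1 : Δ d a' b' = fun x => φ x * (δ d a' b' * 1 + (-1) * C d a' b' x) := by
      funext x
      show φ x * (δ d a' b' - C d a' b' x) = _
      ring
    have h2 : B d a' b' (Δ d a' b') =
        B d a' b' (fun x => φ x * (δ d a' b' * 1)) + B d a' b' (fun x => φ x * ((-1) * C d a' b' x)) := by
      rw [h1]
      exact FTS_add hN (hw d a' b') (hf a' b') hφ (contDiffOn_const) (contDiffOn_const.mul (hCs d a' b'))
    have h3 : B d a' b' (fun x => φ x * (δ d a' b' * 1)) = δ d a' b' • B d a' b' φ := by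
      rw [← hone' d a' b']
      exact FTS_const hN (hw d a' b') (hf a' b') hφ (δ d a' b') hone
    have h4 : B d a' b' (fun x => φ x * ((-1) * C d a' b' x)) =
        (-1 : ℝ) • B d a' b' (fun x => φ x * C d a' b' x) :=
      FTS_const hN (hw d a' b') (hf a' b') hφ (-1) (hCs d a' b')
    have h5 : B d a' b' (fun x => φ x * C d a' b' x) =
        B d a' b' (fun x => φ x * ∑ i, K1 c a b i d x * p i a' b' x) +
        (B d a' b' (fun x => φ x * K2 c a b d a' b' x) +
          (B d a' b' (fun x => φ x * K2 c a b b' d a' x) +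
            B d a' b' (fun x => φ x * K2 c a b a' b' d x))) := by
      have t1 := FTS_add (v := e d) hN (hw d a' b') (hf a' b') hφ (hus d a' b')
        ((hK2 c a b d a' b').add ((hK2 c a b b' d a').add (hK2 c a b a' b' d)))
      have t2 := FTS_add (v := e d) hN (hw d a' b') (hf a' b') hφ (hK2 c a b d a' b')
        ((hK2 c a b b' d a').add (hK2 c a b a' b' d))
      have t3 := FTS_add (v := e d) hN (hw d a' b') (hf a' b') hφ (hK2 c a b b' d a') (hK2 c a b a' b' d)
      exact t1.trans (congrArg₂ (· + ·) rfl (t2.trans (congrArg₂ (· + ·) rfl t3)))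
    have h6 : B d a' b' (fun x => φ x * ∑ i, K1 c a b i d x * p i a' b' x) =
        ∑ i, B d a' b' (fun x => φ x * (K1 c a b i d x * p i a' b' x)) :=
      FTS_sum hN (hw d a' b') (hf a' b') hφ Finset.univ fun i _ => hu i d a' b'
    rw [h2, h3, h4, h5, h6, neg_smul, one_smul, sub_eq_add_neg]
  have hδ : ∑ d, ∑ a', ∑ b', δ d a' b' • B d a' b' φ = B c a b φ := by
    rw [Finset.sum_eq_single c, Finset.sum_eq_single a, Finset.sum_eq_single b]
    · simp [δ]
    · intro b' _ hb'
      simp [δ, hb']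
    · simp
    · intro a' _ ha'
      exact Finset.sum_eq_zero fun b' _ => by simp [δ, ha']
    · simp
    · intro d _ hd
      exact Finset.sum_eq_zero fun a' _ => Finset.sum_eq_zero fun b' _ => by simp [δ, hd]
    · simp
  -- the part of `K2`
  have hK2z : (∑ d, ∑ a', ∑ b', B d a' b' (fun x => φ x * K2 c a b d a' b' x)) +
      ((∑ d, ∑ a', ∑ b', B d a' b' (fun x => φ x * K2 c a b b' d a' x)) +
        ∑ d, ∑ a', ∑ b', B d a' b' (fun x => φ x * K2 c a b a' b' d x)) = 0 := by
    have h1 : ∑ d, ∑ a', ∑ b', B d a' b' (fun x => φ x * K2 c a b b' d a' x) =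
        ∑ d, ∑ a', ∑ b', B a' b' d (fun x => φ x * K2 c a b d a' b' x) :=
      (FTS_rot fun d a' b' => B a' b' d (fun x => φ x * K2 c a b d a' b' x)).symm
    have h2 : ∑ d, ∑ a', ∑ b', B d a' b' (fun x => φ x * K2 c a b a' b' d x) =
        ∑ d, ∑ a', ∑ b', B b' d a' (fun x => φ x * K2 c a b d a' b' x) :=
      FTS_rot fun d a' b' => B d a' b' (fun x => φ x * K2 c a b a' b' d x)
    rw [h1, h2]
    simp only [← Finset.sum_add_distrib]
    refine Finset.sum_eq_zero fun d _ => Finset.sum_eq_zero fun a' _ =>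
      Finset.sum_eq_zero fun b' _ => ?_
    rw [← add_assoc]
    exact hbian d a' b' _ (FTS_test hN hφ (hK2 c a b d a' b'))
  -- the part of `K1`
  let G : Fin q → Fin n → Eu n → 𝔐 := fun i d x =>
    ∑ a', ∑ b', fderiv ℝ (p i a' b') x (e d) • f a' b' x
  have hGL : ∀ i d, FTS_L N (G i d) := by
    intro i d K hK hKN
    refine integrable_finsetSum _ fun a' _ => integrable_finsetSum _ fun b' _ => ?_
    have h1 : ContinuousOn (fun x => fderiv ℝ (p i a' b') x (e d)) K := by
      have h2 : ContDiffOn ℝ ∞ (fderiv ℝ (p i a' b')) N :=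
        (hp i a' b').fderiv_of_isOpen hN (by simp)
      exact (h2.continuousOn.mono hKN).clm_apply continuousOn_const
    exact (hf a' b' K hK hKN).continuousOn_smul h1 hK
  have hK1s : ∑ d, ∑ a', ∑ b', ∑ i, B d a' b' (fun x => φ x * (K1 c a b i d x * p i a' b' x)) =
      -∫ x, ∑ d, ∑ i, (φ x * K1 c a b i d x) • G i d x := by
    have h1 : ∀ d, ∑ a', ∑ b', ∑ i, B d a' b' (fun x => φ x * (K1 c a b i d x * p i a' b' x)) =
        -∫ x, ∑ i, (φ x * K1 c a b i d x) • G i d x := by
      intro d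
      have h2 : ∑ a', ∑ b', ∑ i, B d a' b' (fun x => φ x * (K1 c a b i d x * p i a' b' x)) =
          ∑ i, ∑ a', ∑ b', B d a' b' (fun x => φ x * (K1 c a b i d x * p i a' b' x)) := by
        have h3 : ∀ a', ∑ b', ∑ i, B d a' b' (fun x => φ x * (K1 c a b i d x * p i a' b' x)) =
            ∑ i, ∑ b', B d a' b' (fun x => φ x * (K1 c a b i d x * p i a' b' x)) := fun a' =>
          Finset.sum_comm
        simp only [h3]
        exact Finset.sum_comm
      rw [h2, integral_finsetSum _ fun i _ => BIT_int (FTS_test hN hφ (hK1 c a b i d)) (hGL i d),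
        ← Finset.sum_neg_distrib]
      refine Finset.sum_congr rfl fun i _ => ?_
      have h4 := hEq i d (fun x => φ x * K1 c a b i d x) (FTS_test hN hφ (hK1 c a b i d))
      have h5 : ∀ a' b', (fun x => φ x * (K1 c a b i d x * p i a' b' x)) =
          fun x => (φ x * K1 c a b i d x) * p i a' b' x := by
        intro a' b'
        funext x
        ring
      simp only [h5]
      exact h4
    simp only [h1]
    rw [integral_finsetSum _ fun d _ => integrable_finsetSum _ fun i _ =>
      BIT_int (FTS_test hN hφ (hK1 c a b i d)) (hGL i d), ← Finset.sum_neg_distrib]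
  -- the formula for `B c a b φ`
  let R : Eu n → 𝔐 := fun x => ∑ a', ∑ b',
    (-∑ i, ∑ d, K1 c a b i d x * fderiv ℝ (p i a' b') x (e d)) • f a' b' x
  have hR : ∀ x, φ x • R x = -∑ d, ∑ i, (φ x * K1 c a b i d x) • G i d x := by
    intro x
    have h1 : ∑ d, ∑ i, (φ x * K1 c a b i d x) • G i d x = ∑ a', ∑ b', ∑ i, ∑ d,
        (φ x * (K1 c a b i d x * fderiv ℝ (p i a' b') x (e d))) • f a' b' x := by
      have h2 : ∀ d i, (φ x * K1 c a b i d x) • G i d x = ∑ a', ∑ b',
          (φ x * (K1 c a b i d x * fderiv ℝ (p i a' b') x (e d))) • f a' b' x := by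
        intro d i
        simp only [G, Finset.smul_sum, smul_smul, mul_assoc]
      simp only [h2]
      rw [Finset.sum_comm]
      have h3 : ∀ i, ∑ d, ∑ a', ∑ b',
          (φ x * (K1 c a b i d x * fderiv ℝ (p i a' b') x (e d))) • f a' b' x =
          ∑ a', ∑ b', ∑ d,
          (φ x * (K1 c a b i d x * fderiv ℝ (p i a' b') x (e d))) • f a' b' x := by
        intro i
        rw [Finset.sum_comm]
        exact Finset.sum_congr rfl fun a' _ => Finset.sum_comm
      simp only [h3]
      rw [Finset.sum_comm]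
      exact Finset.sum_congr rfl fun a' _ => Finset.sum_comm
    rw [h1]
    simp only [R, Finset.smul_sum]
    rw [← Finset.sum_neg_distrib]
    refine Finset.sum_congr rfl fun a' _ => ?_
    rw [← Finset.sum_neg_distrib]
    refine Finset.sum_congr rfl fun b' _ => ?_
    simp only [neg_smul, smul_neg, Finset.sum_smul, Finset.smul_sum, smul_smul]
  have hmain : B c a b φ = ∫ x, φ x • R x := by
    have h1 := hzero
    simp only [hexp, Finset.sum_sub_distrib, Finset.sum_add_distrib] at h1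
    rw [hδ, hK1s, hK2z, add_zero] at h1
    have h2 : ∫ x, φ x • R x = -∫ x, ∑ d, ∑ i, (φ x * K1 c a b i d x) • G i d x := by
      rw [← integral_neg]
      exact integral_congr_ae (Eventually.of_forall hR)
    rw [h2]
    exact sub_eq_zero.1 h1
  -- conclusion
  have hRL : FTS_L N R := by
    intro K hK hKN
    refine integrable_finsetSum _ fun a' _ => integrable_finsetSum _ fun b' _ => ?_
    have h1 : ContinuousOn
        (fun x => -∑ i, ∑ d, K1 c a b i d x * fderiv ℝ (p i a' b') x (e d)) K := by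
      refine (continuousOn_finsetSum _ fun i _ => continuousOn_finsetSum _ fun d _ => ?_).neg
      have h2 : ContDiffOn ℝ ∞ (fderiv ℝ (p i a' b')) N :=
        (hp i a' b').fderiv_of_isOpen hN (by simp)
      exact ((hK1 c a b i d).continuousOn.mono hKN).mul
        ((h2.continuousOn.mono hKN).clm_apply continuousOn_const)
    exact (hf a' b' K hK hKN).continuousOn_smul h1 hK
  simp only [Finset.univ_unique, Finset.sum_singleton, Fin.default_eq_zero,
    Matrix.cons_val_fin_one]
  show ∫ x, fderiv ℝ φ x (e c) • f a b x = ∫ x, φ x • (w c a b x - R x)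
  have j1 := BIT_int hφ (hw c a b)
  have j2 := BIT_int hφ hRL
  have j3 := BIT_int (BIT_test hφ (e c)) (hf a b)
  have h1 : ∫ x, φ x • (w c a b x - R x) = (∫ x, φ x • w c a b x) - ∫ x, φ x • R x := by
    rw [← integral_sub j1 j2]
    exact integral_congr_ae (Eventually.of_forall fun x => smul_sub _ _ _)
  have h2 : B c a b φ = (∫ x, φ x • w c a b x) - ∫ x, fderiv ℝ φ x (e c) • f a b x :=
    integral_sub j1 j3
  rw [h1, ← hmain, h2]
  abel

end Pool.TIW
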