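import Pool.Agent.Work.MP_a1f430_wb.Interface2

set_option autoImplicit false

namespace Pool.TIW

open Pool.TIA
open MeasureTheory Set Filter Topology
open scoped ContDiff ENNReal

theorem GD0_sub : Subsingleton (Eu 0) := ⟨fun a b => by
  ext i
  exact i.elim0⟩

theorem p_GD0 : Stmt_GD0 := by
  intro 𝔐 _ _ _ _ _ _ 𝒢 W A F ι _ Z Γ ρ hS x hx
  have : Subsingleton (Eu 0) := GD0_sub
  have hv : ∀ v : Eu 0, v = 0 := fun v => Subsingleton.elim v 0
  refine ⟨W, A, fun _ => 1, fun _ => 0, Z, hS.op, hx, subset_rfl, ?_, ?_, ?_, ?_, ?_⟩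
  · refine ⟨?_, ?_, ?_, ?_, hS.conn.A2, hS.conn.lie, ?_⟩
    · intro K hK _
      have : IsFiniteMeasure (volume.restrict K) := ⟨by
        rw [Measure.restrict_apply_univ]
        exact hK.measure_lt_top⟩
      exact memLp_const _
    · intro K _ _
      exact MemLp.zero'
    · intro φ _ v
      rw [hv v]
      simp
    · exact Eventually.of_forall fun _ => 𝒢.one_mem
    · exact Eventually.of_forall fun y v => by simp
  · exact contDiff_of_subsingleton.contDiffOn
  · intro y _ v
    rw [hv v, map_zero]
    exact 𝒢.lie.zero_mem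
  · intro i
    have h : Z i = fun _ => Z i 0 := funext fun y => congrArg (Z i) (hv y)
    rw [h]
    exact contDiffOn_const
  · intro i
    exact Eventually.of_forall fun y => by simp

end Pool.TIW
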