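import Pool.Agent.Work.MP_a1f430_wb.Interface2

/-!
# Block GPB: the pullback of a gauge change
-/

set_option autoImplicit false

namespace Pool.TIW

open Pool.TIA
open MeasureTheory Set Filter Topology
open scoped ContDiff ENNReal

/-- Continuous functions on a set are locally square integrable. -/
theorem GPB_L2 {E X : Type} [NormedAddCommGroup E] [NormedSpace ℝ E] [FiniteDimensional ℝ E]
    [MeasureSpace E] [BorelSpace E] [(volume : Measure E).IsAddHaarMeasure]
    [NormedAddCommGroup X] [NormedSpace ℝ X] [FiniteDimensional ℝ X] {W : Set E} {f : E → X}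
    (hf : ContinuousOn f W) : L2loc W f := by
  intro K hK hKW
  have h1 : ContinuousOn f K := hf.mono hKW
  obtain ⟨C, hC⟩ := hK.exists_bound_of_continuousOn h1
  have h2 : AEStronglyMeasurable f (volume.restrict K) :=
    h1.aestronglyMeasurable_of_isCompact hK hK.measurableSet
  have : IsFiniteMeasure ((volume : Measure E).restrict K) :=
    ⟨by rw [Measure.restrict_apply_univ]; exact hK.measure_lt_top⟩
  refine MemLp.of_bound h2 C ?_
  filter_upwards [ae_restrict_mem hK.measurableSet] with x hx using hC x hx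

theorem p_GPB (hEXT : Pool.TIA.Stmt_EXT) (hLBR : Stmt_LBR) : Stmt_GPB := by
  intro 𝔐 _ _ _ _ _ _ 𝒢 V _ _ _ _ _ _ W₁ a b B S k dk ι _ c Z₀ Y A hW₁ hab hG hB hA hS hc hY hZ
    hAeq S' hS'
  obtain ⟨h1, h2, h3⟩ := hEXT V 𝔐 W₁ (Ioo a b) k dk hW₁ isOpen_Ioo hG.g2 hG.dg2 hG.wd
  have hae : ∀ P : V → Prop, (∀ᵐ x ∂(volume.restrict W₁), P x) →
      ∀ᵐ p ∂((volume : Measure (V × ℝ)).restrict (W₁ ×ˢ Ioo a b)), P p.1 := by
    intro P hP
    rw [Measure.volume_eq_prod, ← Measure.prod_restrict]
    exact Measure.quasiMeasurePreserving_fst.ae hP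
  have hZ' : ∀ᵐ y ∂(volume.restrict W₁), ∀ j, star (k y) * Z₀ j y * k y = Y j y :=
    ae_all_iff.2 hZ
  refine ⟨h1, h2, h3, hae _ hG.inG, ?_, ?_, ?_⟩
  · -- `S'` is continuous
    apply GPB_L2
    have h4 : S' = fun p => (S p.1).comp (ContinuousLinearMap.fst ℝ V ℝ) +
        ∑ j, ((c j p).comp (ContinuousLinearMap.fst ℝ V ℝ)).smulRight (Y j p.1) := by
      funext p
      ext v
      · have h5 := hS' p v 0
        simp only [ContinuousLinearMap.comp_apply, ContinuousLinearMap.inl_apply,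
          ContinuousLinearMap.inr_apply]
        rw [h5]
        simp [_root_.sum_apply]
      · have h5 := hS' p 0 1
        simp only [ContinuousLinearMap.comp_apply, ContinuousLinearMap.inl_apply,
          ContinuousLinearMap.inr_apply]
        rw [h5]
        simp [_root_.sum_apply]
    rw [h4]
    have h6 : ContinuousOn (fun p : V × ℝ => S p.1) (W₁ ×ˢ Ioo a b) :=
      hS.continuousOn.comp continuous_fst.continuousOn (fun p hp => hp.1)
    refine (h6.clm_comp continuousOn_const).add ?_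
    refine continuousOn_finsetSum _ fun j _ => ?_
    have h7 : ContinuousOn (fun p : V × ℝ => Y j p.1) (W₁ ×ˢ Ioo a b) :=
      (hY j).continuousOn.comp continuous_fst.continuousOn (fun p hp => hp.1)
    have h8 : ContinuousOn (fun p : V × ℝ => (c j p).comp (ContinuousLinearMap.fst ℝ V ℝ))
        (W₁ ×ˢ Ioo a b) := (hc j).continuousOn.clm_comp continuousOn_const
    exact (ContinuousLinearMap.smulRightL ℝ (V × ℝ) 𝔐).continuous₂.comp_continuousOn
      (h8.prodMk h7)
  · filter_upwards [hae _ hG.inG, hae _ hB, hA, hae _ hG.lie', hae _ hZ', hAeq] with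
      p hpG hpB hpA hpS hpZ hpE
    rintro ⟨v, s⟩
    have h5 : S' p (v, s) = S p.1 v + star (k p.1) * (A p (v, s) - B p.1 v) * k p.1 := by
      rw [hS', hpE, add_sub_cancel_left, Finset.mul_sum, Finset.sum_mul]
      congr 1
      refine Finset.sum_congr rfl fun j _ => ?_
      rw [← hpZ j, mul_smul_comm, smul_mul_assoc]
    rw [h5]
    exact 𝒢.lie.add_mem (hpS v)
      ((hLBR 𝔐 𝒢).1 _ hpG _ (𝒢.lie.sub_mem (hpA (v, s)) (hpB v)))
  · filter_upwards [hae _ hG.inG, hae _ hG.eq, hae _ hZ', hAeq] with p hpG hpe hpZ hpE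
    rintro ⟨v, s⟩
    show dk p.1 v = _
    have h5 := (𝒢.unitary _ hpG).2
    rw [hpe v, hS', hpE, mul_add, add_mul, Finset.mul_sum, Finset.sum_mul]
    have h6 : ∀ j, k p.1 * (c j p v • Y j p.1) = c j p v • Z₀ j p.1 * k p.1 := by
      intro j
      rw [← hpZ j, mul_smul_comm, smul_mul_assoc, ← mul_assoc, ← mul_assoc, h5, one_mul]
    rw [Finset.sum_congr rfl fun j _ => h6 j]
    abel

end Pool.TIW
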