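import Pool.Agent.Work.MP_a1f430_wb.Interface2

/-! Block IND: all systems on `Eu n` are regular. -/

set_option autoImplicit false

namespace Pool.TIW

open Pool.TIA
open MeasureTheory Set Filter Topology
open scoped ContDiff ENNReal

theorem p_IND (hST4 : Stmt_ST4) (hTRP : Stmt_TRP) (hGD0 : Stmt_GD0) : Stmt_IND := by
  intro 𝔐 _ _ _ _ _ _ 𝒢 n
  induction n with
  | zero => exact hGD0 𝔐 𝒢
  | succ n ih =>
    have h := hST4 𝔐 𝒢 (Eu n) ih
    have : (volume : Measure (Eu n × ℝ)).IsAddHaarMeasure :=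
      Measure.prod.instIsAddHaarMeasure (volume : Measure (Eu n)) (volume : Measure ℝ)
    refine hTRP 𝔐 𝒢 (Eu n × ℝ) (Eu (n + 1)) (ContinuousLinearEquiv.ofFinrankEq ?_) h
    simp [Eu]

end Pool.TIW
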