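import Pool.Agent.Work.MP_a1f430_wb.Interface2

/-! # Block LIV: a smooth left inverse (MP_a1f430) -/

set_option autoImplicit false

namespace Pool.TIW

open Pool.TIA
open MeasureTheory Set Filter Topology
open scoped ContDiff ENNReal

theorem p_LIV : Stmt_LIV := by
  intro E X Y _ _ _ _ _ _ _ _ N x₀ Λ hN hx₀ hΛ hinj
  haveI : CompleteSpace X := FiniteDimensional.complete ℝ X
  obtain ⟨g, hg⟩ := LinearMap.exists_leftInverse_of_injective (Λ x₀ : X →ₗ[ℝ] Y)
    (LinearMap.ker_eq_bot.2 hinj)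
  let K₀ : Y →L[ℝ] X := LinearMap.toContinuousLinearMap g
  let G : E → X →L[ℝ] X := fun y => K₀.comp (Λ y)
  have hGs : ContDiffOn ℝ ∞ G N :=
    (contDiff_const (c := K₀)).contDiffOn.clm_comp hΛ
  have hG0 : G x₀ = 1 := by
    ext x
    have h := LinearMap.congr_fun hg x
    simpa [G, K₀] using h
  let N' : Set E := N ∩ G ⁻¹' {u | IsUnit u}
  have hN' : IsOpen N' := hGs.continuousOn.isOpen_inter_preimage hN Units.isOpen
  refine ⟨N', fun y => (Ring.inverse (G y)).comp K₀, hN', ⟨hx₀, ?_⟩, inter_subset_left, ?_, ?_⟩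
  · show IsUnit (G x₀)
    rw [hG0]
    exact isUnit_one
  · intro y hy
    have hu : IsUnit (G y) := hy.2
    obtain ⟨u, hu'⟩ := hu
    have h1 : ContDiffAt ℝ ∞ (Ring.inverse : (X →L[ℝ] X) → (X →L[ℝ] X)) (G y) := by
      rw [← hu']
      exact contDiffAt_ringInverse ℝ u
    have h2 : ContDiffWithinAt ℝ ∞ (fun z => Ring.inverse (G z)) N' y :=
      h1.comp_contDiffWithinAt y ((hGs y hy.1).mono inter_subset_left)
    exact h2.clm_comp contDiffWithinAt_const
  · intro y hy T
    have hu : IsUnit (G y) := hy.2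
    have h1 : Ring.inverse (G y) * G y = 1 := Ring.inverse_mul_cancel _ hu
    have h2 := congrArg (fun L : X →L[ℝ] X => L T) h1
    exact h2

end Pool.TIW
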