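import Pool.Agent.Work.MP_a1f430_wb.Interface2
import Pool.Agent.Work.MP_a1f430_ti.B_LOD

/-! # Block LOP: linear differential equations with a smooth parameter (helper38) -/

set_option autoImplicit false

namespace Pool.TIW

open Pool.TIA
open MeasureTheory Set Filter Topology
open scoped ContDiff ENNReal

theorem LOP_flow (hFLW : Stmt_FLW) (hCUT : Stmt_CUT) (V X : Type) [NormedAddCommGroup V]
    [NormedSpace ℝ V] [FiniteDimensional ℝ V] [NormedAddCommGroup X] [NormedSpace ℝ X]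
    [FiniteDimensional ℝ X] (W : Set (V × ℝ)) (S : (V × ℝ) × X → X) (x₀ : X) (y₀ : V) (t₀ : ℝ)
    (hW : IsOpen W) (h0 : (y₀, t₀) ∈ W) (hS : ContDiffOn ℝ ∞ S (W ×ˢ univ)) :
    ∃ (r : ℝ) (m : V × ℝ → X), 0 < r ∧ Bx y₀ t₀ r ⊆ W ∧ ContDiffOn ℝ ∞ m (Bx y₀ t₀ r) ∧
      (∀ y, m (y, t₀) = x₀) ∧
      ∀ p ∈ Bx y₀ t₀ r, HasDerivAt (fun s => m (p.1, s)) (S (p, m p)) p.2 := by
  obtain ⟨T', L, r₁, hr₁, hsub, hT', -, hTL, hTeq⟩ := hCUT ((V × ℝ) × X) X S (W ×ˢ univ)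
    ((y₀, t₀), x₀) (hW.prod isOpen_univ) ⟨h0, mem_univ _⟩ hS
  let F : (V × ℝ) × X → (V × ℝ) × X := fun q => (((0 : V), (1 : ℝ)), T' q)
  have hF : ContDiff ℝ ∞ F := contDiff_const.prodMk hT'
  have hFL : LipschitzWith (max 0 L) F := (LipschitzWith.const _).prodMk hTL
  obtain ⟨φ, hφ, hφ0, hφd⟩ := hFLW ((V × ℝ) × X) F _ hF hFL
  have e1 : ∀ (y : V) (s : ℝ), (φ s ((y, t₀), x₀)).1 = (y, t₀ + s) := by
    intro y s
    have d1 : ∀ s, HasDerivAt (fun s => (φ s ((y, t₀), x₀)).1) ((0 : V), (1 : ℝ)) s := fun s =>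
      LOD_fst (hφd ((y, t₀), x₀) s)
    rw [LOD_line _ _ d1 s, hφ0]
    simp
  have d2 : ∀ (y : V) (s : ℝ), HasDerivAt (fun s => (φ s ((y, t₀), x₀)).2)
      (T' (φ s ((y, t₀), x₀))) s := fun y s => LOD_snd (hφd ((y, t₀), x₀) s)
  let Ψ : V × ℝ → (V × ℝ) × X := fun p => φ (p.2 - t₀) ((p.1, t₀), x₀)
  have hΨ : ContDiff ℝ ∞ Ψ := by
    have h5 : ContDiff ℝ ∞ fun p : V × ℝ => (p.2 - t₀, ((p.1, t₀), x₀)) :=
      (contDiff_snd.sub contDiff_const).prodMk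
        ((contDiff_fst.prodMk contDiff_const).prodMk contDiff_const)
    exact hφ.comp h5
  have hΨt : ∀ y, Ψ (y, t₀) = ((y, t₀), x₀) := by
    intro y
    show φ (t₀ - t₀) ((y, t₀), x₀) = _
    rw [sub_self, hφ0]
  have hΨ1 : ∀ p, (Ψ p).1 = p := by
    intro p
    show (φ (p.2 - t₀) ((p.1, t₀), x₀)).1 = p
    rw [e1]
    exact Prod.ext rfl (by show t₀ + (p.2 - t₀) = p.2; ring)
  have hev : Ψ ⁻¹' Metric.ball ((y₀, t₀), x₀) r₁ ∈ 𝓝 (y₀, t₀) :=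
    hΨ.continuous.continuousAt.preimage_mem_nhds
      (by rw [hΨt]; exact Metric.ball_mem_nhds _ hr₁)
  obtain ⟨r, hr, hball⟩ := Metric.mem_nhds_iff.1 hev
  have hBx : Bx y₀ t₀ r = Metric.ball (y₀, t₀) r := by
    rw [Bx, ← Real.ball_eq_Ioo, ball_prod_same]
  refine ⟨r, fun p => (Ψ p).2, hr, ?_, ?_, ?_, ?_⟩
  · intro p hp
    rw [hBx] at hp
    have h1 := (hsub (hball hp)).1
    rwa [hΨ1] at h1
  · exact (contDiff_snd.comp hΨ).contDiffOn
  · intro y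
    show (Ψ (y, t₀)).2 = x₀
    rw [hΨt]
  · intro p hp
    rw [hBx] at hp
    have h1 := hTeq _ (hball hp)
    have h2 : Ψ p = (p, (Ψ p).2) := Prod.ext (hΨ1 p) rfl
    have h6 := (d2 p.1 (p.2 - t₀)).comp_sub_const p.2 t₀
    have h7 : T' (φ (p.2 - t₀) ((p.1, t₀), x₀)) = S (p, (Ψ p).2) := by
      rw [← h2]
      exact h1
    rw [h7] at h6
    exact h6

open Classical in
theorem p_LOP (hFLW : Pool.TIA.Stmt_FLW) (hCUT : Pool.TIA.Stmt_CUT) : Stmt_LOP := by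
  intro V _ _ _ W ι _ a y₀ t₀ hW h0 ha
  let S : (V × ℝ) × ((ι → ι → ℝ) × (ι → ι → ℝ)) → (ι → ι → ℝ) × (ι → ι → ℝ) := fun q =>
    ((fun i j => ∑ k, a i k q.1 * q.2.1 k j), (fun i j => -∑ k, q.2.2 i k * a k j q.1))
  have hac : ∀ i j, ContDiffOn ℝ ∞ (fun q : (V × ℝ) × ((ι → ι → ℝ) × (ι → ι → ℝ)) => a i j q.1)
      (W ×ˢ univ) := fun i j => (ha i j).comp contDiffOn_fst (fun q hq => hq.1)
  have h1c : ∀ i j, ContDiff ℝ ∞ (fun q : (V × ℝ) × ((ι → ι → ℝ) × (ι → ι → ℝ)) => q.2.1 i j) :=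
    fun i j => (contDiff_pi.1 (contDiff_pi.1 (contDiff_fst.comp contDiff_snd) i) j)
  have h2c : ∀ i j, ContDiff ℝ ∞ (fun q : (V × ℝ) × ((ι → ι → ℝ) × (ι → ι → ℝ)) => q.2.2 i j) :=
    fun i j => (contDiff_pi.1 (contDiff_pi.1 (contDiff_snd.comp contDiff_snd) i) j)
  have hS : ContDiffOn ℝ ∞ S (W ×ˢ univ) := by
    refine ContDiffOn.prodMk ?_ ?_
    · refine contDiffOn_pi.2 (fun i => contDiffOn_pi.2 (fun j => ?_))
      exact ContDiffOn.sum (fun k _ => (hac i k).mul (h1c k j).contDiffOn)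
    · refine contDiffOn_pi.2 (fun i => contDiffOn_pi.2 (fun j => ?_))
      exact (ContDiffOn.sum (fun k _ => (h2c i k).contDiffOn.mul (hac k j))).neg
  obtain ⟨r, m, hr, hsub, hm, hm0, hmd⟩ := LOP_flow hFLW hCUT V _ W S
    ((fun i j => if i = j then 1 else 0), (fun i j => if i = j then 1 else 0)) y₀ t₀ hW h0 hS
  have hd : ∀ p ∈ Bx y₀ t₀ r, ∀ i j,
      HasDerivAt (fun s => (m (p.1, s)).1 i j) (∑ k, a i k p * (m p).1 k j) p.2 ∧
      HasDerivAt (fun s => (m (p.1, s)).2 i j) (-∑ k, (m p).2 i k * a k j p) p.2 := by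
    intro p hp i j
    have h1 := hmd p hp
    have h2 : HasDerivAt (fun s => (m (p.1, s)).1) (S (p, m p)).1 p.2 := LOD_fst h1
    have h3 : HasDerivAt (fun s => (m (p.1, s)).2) (S (p, m p)).2 p.2 := LOD_snd h1
    exact ⟨hasDerivAt_pi.1 (hasDerivAt_pi.1 h2 i) j, hasDerivAt_pi.1 (hasDerivAt_pi.1 h3 i) j⟩
  have hinv : ∀ p ∈ Bx y₀ t₀ r,
      (Matrix.of (m p).2 : Matrix ι ι ℝ) * Matrix.of (m p).1 = 1 := by
    intro p hp
    have hmem : ∀ s ∈ Ioo (t₀ - r) (t₀ + r), (p.1, s) ∈ Bx y₀ t₀ r := fun s hs => ⟨hp.1, hs⟩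
    have ht₀ : t₀ ∈ Ioo (t₀ - r) (t₀ + r) := ⟨by linarith, by linarith⟩
    ext i j
    rw [Matrix.mul_apply]
    have hder : ∀ s ∈ Ioo (t₀ - r) (t₀ + r),
        HasDerivAt (fun s => ∑ k, (m (p.1, s)).2 i k * (m (p.1, s)).1 k j) 0 s := by
      intro s hs
      have h1 : HasDerivAt (fun s => ∑ k, (m (p.1, s)).2 i k * (m (p.1, s)).1 k j)
          (∑ k, ((-∑ l, (m (p.1, s)).2 i l * a l k (p.1, s)) * (m (p.1, s)).1 k j
            + (m (p.1, s)).2 i k * ∑ l, a k l (p.1, s) * (m (p.1, s)).1 l j)) s := by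
        exact HasDerivAt.fun_sum
          (fun k _ => (hd _ (hmem s hs) i k).2.mul (hd _ (hmem s hs) k j).1)
      have h3 : (∑ k, ((-∑ l, (m (p.1, s)).2 i l * a l k (p.1, s)) * (m (p.1, s)).1 k j
            + (m (p.1, s)).2 i k * ∑ l, a k l (p.1, s) * (m (p.1, s)).1 l j)) = 0 := by
        rw [Finset.sum_add_distrib]
        simp only [neg_mul, Finset.sum_neg_distrib, Finset.sum_mul, Finset.mul_sum]
        rw [Finset.sum_comm, neg_add_eq_zero]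
        refine Finset.sum_congr rfl (fun k _ => Finset.sum_congr rfl (fun l _ => ?_))
        ring
      rw [h3] at h1
      exact h1
    have hconst := isOpen_Ioo.is_const_of_deriv_eq_zero isPreconnected_Ioo
      (f := fun s => ∑ k, (m (p.1, s)).2 i k * (m (p.1, s)).1 k j)
      (fun s hs => (hder s hs).differentiableAt.differentiableWithinAt)
      (fun s hs => (hder s hs).deriv) hp.2 ht₀
    have e1 : (p.1, p.2) = p := rfl
    simp only [hm0, e1] at hconst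
    simp only [Matrix.of_apply]
    rw [hconst, Matrix.one_apply]
    simp
  have hinv' : ∀ p ∈ Bx y₀ t₀ r,
      (Matrix.of (m p).1 : Matrix ι ι ℝ) * Matrix.of (m p).2 = 1 := fun p hp =>
    mul_eq_one_comm.1 (hinv p hp)
  refine ⟨r, fun i j p => (m p).1 i j, fun i j p => (m p).2 i j, hr, hsub, ?_, hd, ?_⟩
  · intro i j
    have h1 : ContDiffOn ℝ ∞ (fun p => (m p).1) (Bx y₀ t₀ r) := contDiff_fst.comp_contDiffOn hm
    have h2 : ContDiffOn ℝ ∞ (fun p => (m p).2) (Bx y₀ t₀ r) := contDiff_snd.comp_contDiffOn hm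
    exact ⟨contDiffOn_pi.1 (contDiffOn_pi.1 h1 i) j, contDiffOn_pi.1 (contDiffOn_pi.1 h2 i) j⟩
  · intro p hp z
    constructor
    · intro i
      have h1 := congrFun (Matrix.mulVec_mulVec z (Matrix.of (m p).2) (Matrix.of (m p).1)) i
      rw [hinv p hp, Matrix.one_mulVec] at h1
      exact h1
    · intro i
      have h1 := congrFun (Matrix.mulVec_mulVec z (Matrix.of (m p).1) (Matrix.of (m p).2)) i
      rw [hinv' p hp, Matrix.one_mulVec] at h1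
      exact h1

end Pool.TIW
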