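import Pool.Agent.Work.MP_a1f430_wb.Interface2

/-! # Block PRI: a smooth primitive (helper37) -/

set_option autoImplicit false

namespace Pool.TIW

open Pool.TIA
open MeasureTheory Set Filter Topology
open scoped ContDiff ENNReal Convolution

/-- A smooth function times a smooth function with support in the open set. -/
theorem PRI_ext {E X : Type} [NormedAddCommGroup E] [NormedSpace ℝ E] [NormedAddCommGroup X]
    [NormedSpace ℝ X] (χ : E → ℝ) (hχ : ContDiff ℝ ∞ χ) (U : Set E) (hU : IsOpen U)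
    (hsub : tsupport χ ⊆ U) (σ : E → X) (hσ : ContDiffOn ℝ ∞ σ U) :
    ContDiff ℝ ∞ (fun p => χ p • σ p) := by
  rw [contDiff_iff_contDiffAt]
  intro p
  by_cases hp : p ∈ U
  · exact hχ.contDiffAt.smul (hσ.contDiffAt (hU.mem_nhds hp))
  · have h1 : p ∉ tsupport χ := fun h => hp (hsub h)
    have h2 := notMem_tsupport_iff_eventuallyEq.1 h1
    refine (contDiffAt_const (c := (0 : X))).congr_of_eventuallyEq ?_
    filter_upwards [h2] with q hq
    rw [hq, Pi.zero_apply, zero_smul]

/-- The derivative of the primitive. -/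
theorem PRI_deriv {X : Type} [NormedAddCommGroup X] [NormedSpace ℝ X] [CompleteSpace X]
    (h : ℝ → X) (hc : Continuous h) (hs : HasCompactSupport h) (t : ℝ) :
    HasDerivAt (fun t => ∫ s in Iic t, h s) (h t) t := by
  have hi : Integrable h volume := hc.integrable_of_hasCompactSupport hs
  have h1 : (fun t => ∫ s in Iic t, h s) = fun t => (∫ s in (0 : ℝ)..t, h s) + ∫ s in Iic 0, h s := by
    funext t
    rw [← intervalIntegral.integral_Iic_sub_Iic hi.integrableOn hi.integrableOn, sub_add_cancel]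
  rw [h1]
  exact (hc.integral_hasStrictDerivAt 0 t).hasDerivAt.add_const _

/-- The primitive of a smooth function depending on a parameter, with support in a compact set of
times. -/
theorem PRI_prim {V X : Type} [NormedAddCommGroup V] [NormedSpace ℝ V]
    [NormedAddCommGroup X] [NormedSpace ℝ X] [CompleteSpace X] (σ : V × ℝ → X) (k : Set ℝ)
    (hk : IsCompact k) (hσ : ContDiff ℝ ∞ σ) (h0 : ∀ y t, t ∉ k → σ (y, t) = 0) :
    ContDiff ℝ ∞ (fun p : V × ℝ => ∫ s in Iic p.2, σ (p.1, s)) ∧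
      ∀ y t, HasDerivAt (fun t => ∫ s in Iic t, σ (y, s)) (σ (y, t)) t := by
  constructor
  · have hf : LocallyIntegrable ((Ici (0 : ℝ)).indicator fun _ => (1 : ℝ)) volume :=
      (locallyIntegrable_const (1 : ℝ)).indicator measurableSet_Ici
    have hg : ContDiffOn ℝ ∞ (↿fun (y : V) (s : ℝ) => σ (y, s)) (univ ×ˢ univ) := by
      have : ContDiff ℝ ∞ (↿fun (y : V) (s : ℝ) => σ (y, s)) := hσ
      exact this.contDiffOn
    have h1 := contDiffOn_convolution_right_with_param (μ := volume)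
      (ContinuousLinearMap.lsmul ℝ ℝ : ℝ →L[ℝ] X →L[ℝ] X) (s := (univ : Set V)) (k := k)
      isOpen_univ hk (fun y t _ ht => h0 y t ht) hf hg
    rw [univ_prod_univ, contDiffOn_univ] at h1
    refine (congrArg (ContDiff ℝ ∞) (funext fun p => ?_)).mp h1
    rw [convolution_eq_swap, ← integral_indicator measurableSet_Iic]
    refine integral_congr_ae (Eventually.of_forall fun s => ?_)
    simp only [ContinuousLinearMap.lsmul_apply, indicator, mem_Iic, mem_Ici, sub_nonneg]
    split_ifs with h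
    · rw [one_smul]
    · rw [zero_smul]
  · intro y t
    refine PRI_deriv (fun s => σ (y, s)) ?_ ?_ t
    · exact hσ.continuous.comp (by fun_prop)
    · exact HasCompactSupport.intro hk fun s hs => h0 y s hs

theorem p_PRI : Stmt_PRI := by
  intro V X _ _ _ _ _ _ r σ y₀ t₀ hr hσ
  have _ : CompleteSpace X := FiniteDimensional.complete ℝ X
  let χ₁ : ContDiffBump y₀ := ⟨r / 4, r / 2, by positivity, by linarith⟩
  let χ₂ : ContDiffBump t₀ := ⟨r / 4, r / 2, by positivity, by linarith⟩
  have hopen : IsOpen (Bx y₀ t₀ r) := Metric.isOpen_ball.prod isOpen_Ioo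
  have hχ : ContDiff ℝ ∞ (fun p : V × ℝ => χ₁ p.1 * χ₂ p.2) :=
    (χ₁.contDiff.comp contDiff_fst).mul (χ₂.contDiff.comp contDiff_snd)
  have hsub : tsupport (fun p : V × ℝ => χ₁ p.1 * χ₂ p.2) ⊆ Bx y₀ t₀ r := by
    have h1 : tsupport (fun p : V × ℝ => χ₁ p.1 * χ₂ p.2) ⊆
        Metric.closedBall y₀ (r / 2) ×ˢ Metric.closedBall t₀ (r / 2) := by
      refine closure_minimal ?_ (Metric.isClosed_closedBall.prod Metric.isClosed_closedBall)
      intro p hp
      rw [Function.mem_support] at hp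
      have hp1 : χ₁ p.1 ≠ 0 := fun h => hp (by rw [h, zero_mul])
      have hp2 : χ₂ p.2 ≠ 0 := fun h => hp (by rw [h, mul_zero])
      have e1 : p.1 ∈ Function.support χ₁ := hp1
      have e2 : p.2 ∈ Function.support χ₂ := hp2
      rw [ContDiffBump.support_eq] at e1 e2
      exact ⟨Metric.ball_subset_closedBall e1, Metric.ball_subset_closedBall e2⟩
    refine h1.trans ?_
    rintro ⟨y, t⟩ ⟨hy, ht⟩
    refine ⟨Metric.closedBall_subset_ball (by linarith) hy, ?_⟩
    have ht' := Metric.closedBall_subset_ball (show r / 2 < r by linarith) ht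
    rwa [Real.ball_eq_Ioo] at ht'
  have hs := PRI_ext _ hχ _ hopen hsub σ hσ
  have h0 : ∀ (y : V) (t : ℝ), t ∉ Metric.closedBall t₀ (r / 2) →
      (χ₁ y * χ₂ t) • σ (y, t) = 0 := by
    intro y t ht
    have h1 : χ₂ t = 0 := by
      by_contra hne
      have e2 : t ∈ Function.support χ₂ := hne
      rw [ContDiffBump.support_eq] at e2
      exact ht (Metric.ball_subset_closedBall e2)
    rw [h1, mul_zero, zero_smul]
  obtain ⟨h1, h2⟩ := PRI_prim (fun p : V × ℝ => (χ₁ p.1 * χ₂ p.2) • σ p)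
    (Metric.closedBall t₀ (r / 2)) (isCompact_closedBall _ _) hs h0
  refine ⟨r / 4, _, by positivity, by linarith, h1.contDiffOn, ?_⟩
  rintro ⟨y, t⟩ ⟨hy, ht⟩
  have h3 : HasDerivAt (fun t => ∫ s in Iic t, (χ₁ y * χ₂ s) • σ (y, s))
    ((χ₁ y * χ₂ t) • σ (y, t)) t := h2 y t
  have e1 : χ₁ y = 1 := χ₁.one_of_mem_closedBall (Metric.ball_subset_closedBall hy)
  have e2 : χ₂ t = 1 := by
    refine χ₂.one_of_mem_closedBall (Metric.ball_subset_closedBall ?_)
    rw [Real.ball_eq_Ioo]
    exact ht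
  have e3 : (χ₁ y * χ₂ t) • σ (y, t) = σ (y, t) := by rw [e1, e2, mul_one, one_smul]
  rw [e3] at h3
  exact h3

end Pool.TIW
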