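import Pool.Agent.Work.MP_a1f430_wb.Interface2

/-! # Block SMF: smooth extension of a frame (MP_a1f430) -/

set_option autoImplicit false

namespace Pool.TIW

open Pool.TIA
open MeasureTheory Set Filter Topology
open scoped ContDiff ENNReal

theorem SMF_gs {E : Type} [NormedAddCommGroup E] [NormedSpace ℝ E] {ι : Type} [Fintype ι]
    [DecidableEq ι] (U : Set E) (hU : IsOpen U) (h : E → Bil E) (hs : ContDiffOn ℝ ∞ h U)
    (hsy : ∀ x ∈ U, ∀ v w, h x v w = h x w v) (x₀ : E) (hx : x₀ ∈ U) (e₀ : ι → E)
    (he : ∀ i j, h x₀ (e₀ i) (e₀ j) = if i = j then 1 else 0) (s : Finset ι) :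
    ∃ (N : Set E) (e : E → ι → E), IsOpen N ∧ x₀ ∈ N ∧ N ⊆ U ∧
      (∀ i, ContDiffOn ℝ ∞ (fun y => e y i) N) ∧ e x₀ = e₀ ∧
      ∀ y ∈ N, ∀ i ∈ s, ∀ j ∈ s, h y (e y i) (e y j) = if i = j then 1 else 0 := by
  induction s using Finset.induction_on with
  | empty =>
    exact ⟨U, fun _ => e₀, hU, hx, Subset.rfl, fun i => contDiffOn_const, rfl, by simp⟩
  | insert a s ha ih =>
    obtain ⟨N, e, hN, hxN, hNU, hes, he0, heo⟩ := ih
    have hpair : ∀ u v : E → E, ContDiffOn ℝ ∞ u N → ContDiffOn ℝ ∞ v N →
        ContDiffOn ℝ ∞ (fun y => h y (u y) (v y)) N := fun u v hu hv =>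
      ((hs.mono hNU).clm_apply hu).clm_apply hv
    set g : E → E := fun y => e y a - ∑ i ∈ s, h y (e y i) (e y a) • e y i with hg
    have hgs : ContDiffOn ℝ ∞ g N :=
      (hes a).sub (ContDiffOn.sum fun i _ => (hpair _ _ (hes i) (hes a)).smul (hes i))
    set q : E → ℝ := fun y => h y (g y) (g y) with hq
    have hqs : ContDiffOn ℝ ∞ q N := hpair _ _ hgs hgs
    have hg0 : g x₀ = e₀ a := by
      simp only [hg, he0, he]
      rw [Finset.sum_eq_zero, sub_zero]
      intro i hi
      have hne : i ≠ a := fun h => ha (h ▸ hi)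
      rw [if_neg hne, zero_smul]
    have hq0 : q x₀ = 1 := by
      simp only [hq, hg0, he, if_true]
    have horth : ∀ y ∈ N, ∀ i ∈ s, h y (e y i) (g y) = 0 := by
      intro y hy i hi
      simp only [hg, map_sub, map_sum, map_smul, smul_eq_mul]
      rw [Finset.sum_eq_single i]
      · rw [heo y hy i hi i hi, if_pos rfl, mul_one, sub_self]
      · intro j hj hji
        rw [heo y hy i hi j hj, if_neg (Ne.symm hji), mul_zero]
      · intro hi'
        exact absurd hi hi'
    have hN' : IsOpen (N ∩ q ⁻¹' Ioi 0) := hqs.continuousOn.isOpen_inter_preimage hN isOpen_Ioi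
    refine ⟨N ∩ q ⁻¹' Ioi 0, fun y => Function.update (e y) a ((√(q y))⁻¹ • g y), hN',
      ⟨hxN, ?_⟩, fun y hy => hNU hy.1, ?_, ?_, ?_⟩
    · show 0 < q x₀
      rw [hq0]
      exact one_pos
    · intro i
      by_cases hia : i = a
      · subst hia
        simp only [Function.update_self]
        have h1 : ContDiffOn ℝ ∞ (fun y => √(q y)) (N ∩ q ⁻¹' Ioi 0) :=
          (hqs.mono inter_subset_left).sqrt fun y hy => ne_of_gt hy.2
        have h2 : ContDiffOn ℝ ∞ (fun y => (√(q y))⁻¹) (N ∩ q ⁻¹' Ioi 0) :=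
          h1.inv fun y hy => ne_of_gt (Real.sqrt_pos.2 hy.2)
        exact h2.smul (hgs.mono inter_subset_left)
      · simp only [Function.update_of_ne hia]
        exact (hes i).mono inter_subset_left
    · show Function.update (e x₀) a ((√(q x₀))⁻¹ • g x₀) = e₀
      rw [hq0, hg0, he0, Real.sqrt_one, inv_one, one_smul, Function.update_eq_self]
    · intro y hy i hi j hj
      have hyN : y ∈ N := hy.1
      have hyU : y ∈ U := hNU hyN
      have hqy : 0 < q y := hy.2
      have haa : h y ((√(q y))⁻¹ • g y) ((√(q y))⁻¹ • g y) = 1 := by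
        have h1 : h y ((√(q y))⁻¹ • g y) ((√(q y))⁻¹ • g y) =
            (√(q y))⁻¹ * ((√(q y))⁻¹ * q y) := by
          simp only [map_smul, ContinuousLinearMap.smul_apply, smul_eq_mul, hq]
        rw [h1]
        have h2 : √(q y) * √(q y) = q y := Real.mul_self_sqrt hqy.le
        have h3 : √(q y) ≠ 0 := ne_of_gt (Real.sqrt_pos.2 hqy)
        field_simp
        nlinarith [h2]
      have hia' : ∀ i ∈ s, h y (e y i) ((√(q y))⁻¹ • g y) = 0 := by
        intro i hi
        rw [map_smul, horth y hyN i hi, smul_zero]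
      show h y (Function.update (e y) a ((√(q y))⁻¹ • g y) i)
        (Function.update (e y) a ((√(q y))⁻¹ • g y) j) = _
      rcases Finset.mem_insert.1 hi with rfl | his
      · rcases Finset.mem_insert.1 hj with rfl | hjs
        · rw [Function.update_self, haa, if_pos rfl]
        · have hne : j ≠ i := fun h => ha (h ▸ hjs)
          rw [Function.update_self, Function.update_of_ne hne, if_neg (Ne.symm hne), hsy y hyU]
          exact hia' j hjs
      · have hne : i ≠ a := fun h => ha (h ▸ his)
        rcases Finset.mem_insert.1 hj with rfl | hjs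
        · rw [Function.update_self, Function.update_of_ne hne, if_neg hne]
          exact hia' i his
        · have hne' : j ≠ a := fun h => ha (h ▸ hjs)
          rw [Function.update_of_ne hne, Function.update_of_ne hne']
          exact heo y hyN i his j hjs

theorem p_SMF : Stmt_SMF := by
  intro m U h x₀ e₀ hU hM hx₀ hfr
  classical
  obtain ⟨N, e, hN, hxN, hNU, hes, he0, heo⟩ := SMF_gs U hU h hM.smooth hM.symm x₀ hx₀ e₀
    hfr.orth Finset.univ
  let d : Eu (m + 4) → ℝ := fun y => (stb (m + 4)).det fun i => e y ((ix m).symm i)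
  have hd : ContinuousOn d N := by
    have h1 : d = fun y => Matrix.det (Matrix.of fun (i j : Fin (m + 4)) =>
        (stb (m + 4)).repr (e y ((ix m).symm j)) i) := by
      funext y
      simp only [d, Module.Basis.det_apply]
      rfl
    rw [h1]
    have hc : ∀ i j : Fin (m + 4), ContinuousOn
        (fun y => (stb (m + 4)).repr (e y ((ix m).symm j)) i) N := by
      intro i j
      have h2 : Continuous fun v : Eu (m + 4) => (stb (m + 4)).repr v i :=
        LinearMap.continuous_of_finiteDimensional ((stb (m + 4)).coord i)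
      exact h2.comp_continuousOn (hes _).continuousOn
    intro y hy
    have h3 : ContinuousWithinAt (fun y => (Matrix.of fun (i j : Fin (m + 4)) =>
        (stb (m + 4)).repr (e y ((ix m).symm j)) i : Matrix (Fin (m + 4)) (Fin (m + 4)) ℝ)) N y :=
      continuousWithinAt_pi.2 fun i => continuousWithinAt_pi.2 fun j => hc i j y hy
    exact (Continuous.matrix_det continuous_id).continuousAt.comp_continuousWithinAt h3
  refine ⟨N ∩ d ⁻¹' Ioi 0, e, hd.isOpen_inter_preimage hN isOpen_Ioi, ⟨hxN, ?_⟩,
    fun y hy => hNU hy.1, fun i => (hes i).mono inter_subset_left, he0, ?_⟩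
  · show 0 < (stb (m + 4)).det fun i => e x₀ ((ix m).symm i)
    rw [he0]
    exact hfr.pos
  · intro y hy
    exact ⟨fun i j => heo y hy.1 i (Finset.mem_univ _) j (Finset.mem_univ _), hy.2⟩

end Pool.TIW
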