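import Pool.Agent.Work.MP_a1f430_wb.Interface2

/-! # Block ST1: systems in the temporal gauge -/

set_option autoImplicit false

namespace Pool.TIW

open Pool.TIA
open MeasureTheory Set Filter Topology
open scoped ContDiff ENNReal

section

variable {E : Type} [NormedAddCommGroup E] [NormedSpace ℝ E] [MeasureSpace E]

theorem ST1_test {W W' : Set E} (h : W' ⊆ W) {φ : E → ℝ} (hφ : Test W' φ) : Test W φ :=
  ⟨hφ.smooth, hφ.cpt, hφ.sub.trans h⟩

theorem ST1_L2 {X : Type} [NormedAddCommGroup X] {W W' : Set E} (h : W' ⊆ W) {f : E → X}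
    (hf : L2loc W f) : L2loc W' f := fun K hK hKW => hf K hK (hKW.trans h)

theorem ST1_ae {W W' : Set E} (h : W' ⊆ W) {P : E → Prop}
    (hP : ∀ᵐ x ∂(volume.restrict W), P x) : ∀ᵐ x ∂(volume.restrict W'), P x :=
  ae_mono (Measure.restrict_mono h le_rfl) hP

variable {𝔐 : Type} [NormedRing 𝔐] [NormedAlgebra ℝ 𝔐] [StarRing 𝔐]

theorem ST1_conn (𝒢 : LieG 𝔐) {W W' : Set E} (h : W' ⊆ W) {A : E → E →L[ℝ] 𝔐}
    {F : E → E [⋀^Fin 2]→L[ℝ] 𝔐} (hC : Conn 𝒢 W A F) : Conn 𝒢 W' A F :=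
  ⟨ST1_L2 h hC.A2, ST1_L2 h hC.F2, ST1_ae h hC.lie, fun φ hφ u v => hC.curv φ (ST1_test h hφ) u v⟩

/-- unitaries have norm at most one -/
theorem ST1_norm [CStarRing 𝔐] (g : 𝔐) (hg : star g * g = 1) (hg' : g * star g = 1) (z : 𝔐) :
    ‖star g * z * g‖ ≤ ‖z‖ := by
  rcases subsingleton_or_nontrivial 𝔐 with h | h
  · have : star g * z * g = z := Subsingleton.elim _ _
    rw [this]
  · have h1 : ‖g‖ = 1 := CStarRing.norm_of_mem_unitary (Unitary.mem_iff.2 ⟨hg, hg'⟩)
    have h2 : ‖star g‖ = 1 := by rw [norm_star, h1]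
    calc ‖star g * z * g‖ ≤ ‖star g * z‖ * ‖g‖ := norm_mul_le _ _
      _ ≤ ‖star g‖ * ‖z‖ * ‖g‖ := mul_le_mul_of_nonneg_right (norm_mul_le _ _) (norm_nonneg _)
      _ = ‖z‖ := by rw [h1, h2]; ring

end

theorem p_ST1 (h1 : Stmt_KT4) (h2 : Stmt_CG2) (h3 : Stmt_DCV) : Stmt_ST1 := by
  intro 𝔐 _ _ _ _ _ _ 𝒢 V _ _ _ _ _ _ W A F ι _ Z Γ ρ y₀ t₀ hS hx
  haveI : ProperSpace V := FiniteDimensional.proper ℝ V
  obtain ⟨r, hr, hrW⟩ := Metric.nhds_basis_closedBall.mem_iff.1 (hS.op.mem_nhds hx)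
  have hbox : Metric.closedBall y₀ r ×ˢ Icc (t₀ - r) (t₀ + r) ⊆ W := by
    refine subset_trans ?_ hrW
    rw [← Real.closedBall_eq_Icc, closedBall_prod_same]
  obtain ⟨A', g, dg, hG, hA'⟩ := h1 𝔐 𝒢 V W A F (Metric.closedBall y₀ r) (t₀ - r) (t₀ + r) hS.op
    hS.conn (isCompact_closedBall y₀ r) (by linarith) hbox
  have hint : interior (Metric.closedBall y₀ r) ×ˢ Ioo (t₀ - r) (t₀ + r) = Bx y₀ t₀ r := by
    rw [interior_closedBall y₀ hr.ne']
    rfl
  rw [hint] at hG hA'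
  have hsub : Bx y₀ t₀ r ⊆ W :=
    (Set.prod_mono Metric.ball_subset_closedBall Ioo_subset_Icc_self).trans hbox
  have hop : IsOpen (Bx y₀ t₀ r) := Metric.isOpen_ball.prod isOpen_Ioo
  have hconn := ST1_conn 𝒢 hsub hS.conn
  -- measurability and local square integrability
  have hZ : ∀ i, L2loc (Bx y₀ t₀ r) (fun p => star (g p) * Z i p * g p) := by
    intro i K hK hKW
    have hz := hS.Z2 i K hK (hKW.trans hsub)
    have hg := hG.g2 K hK hKW
    have hae := ae_mono (Measure.restrict_mono hKW le_rfl) hG.inG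
    refine hz.mono ?_ ?_
    · exact ((continuous_star.comp_aestronglyMeasurable hg.1).mul hz.1).mul hg.1
    · filter_upwards [hae] with x hx
      exact ST1_norm (g x) (𝒢.unitary _ hx).1 (𝒢.unitary _ hx).2 _
  refine ⟨r, A', g, dg, hr, hsub, hG, hA', ⟨hop, ?_, hZ, fun i j => (hS.sΓ i j).mono hsub,
    fun j => (hS.sρ j).mono hsub, ?_, ?_⟩⟩
  · exact h2 𝔐 𝒢 (V × ℝ) _ A A' F g dg hop hconn hG
  · intro i v
    -- the right hand side is locally integrable
    have hR : L1loc (Bx y₀ t₀ r) (fun x => ∑ j, Γ i j x v • Z j x) := by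
      intro K hK hKW
      refine integrable_finset_sum _ fun j _ => ?_
      haveI : IsFiniteMeasure (volume.restrict K) :=
        ⟨by rw [Measure.restrict_apply_univ]; exact hK.measure_lt_top⟩
      have hz : Integrable (Z j) (volume.restrict K) :=
        (hS.Z2 j K hK (hKW.trans hsub)).integrable (by norm_num)
      have hc : ContinuousOn (fun x => Γ i j x v) K := by
        have := ((hS.sΓ i j).continuousOn).mono (hKW.trans hsub)
        exact this.clm_apply continuousOn_const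
      obtain ⟨C, hC⟩ := hK.exists_bound_of_continuousOn hc
      refine hz.bdd_smul C (hc.aestronglyMeasurable hK.measurableSet) ?_
      filter_upwards [ae_restrict_mem hK.measurableSet] with x hx
      exact hC x hx
    have hD : Div (Bx y₀ t₀ r) A ![v] ![Z i] (fun x => ∑ j, Γ i j x v • Z j x) :=
      fun φ hφ => hS.eq i v φ (ST1_test hsub hφ)
    have hZ' : ∀ k, L2loc (Bx y₀ t₀ r) ((![Z i] : Fin 1 → V × ℝ → 𝔐) k) := by
      intro k
      fin_cases k
      exact ST1_L2 hsub (hS.Z2 i)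
    have hE := h3 𝔐 𝒢 (V × ℝ) (Bx y₀ t₀ r) A A' g dg 1 ![v] ![Z i]
      (fun x => ∑ j, Γ i j x v • Z j x) hop hconn.A2 hconn.lie hG hZ' hR hD
    have e1 : (fun k x => star (g x) * (![Z i] : Fin 1 → V × ℝ → 𝔐) k x * g x) =
        ![fun p => star (g p) * Z i p * g p] := by
      funext k
      fin_cases k
      rfl
    have e2 : (fun x => star (g x) * (∑ j, Γ i j x v • Z j x) * g x) =
        fun x => ∑ j, Γ i j x v • (star (g x) * Z j x * g x) := by
      funext x
      rw [Finset.mul_sum, Finset.sum_mul]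
      refine Finset.sum_congr rfl fun j _ => ?_
      rw [mul_smul_comm, smul_mul_assoc]
    rw [e1, e2] at hE
    exact hE
  · filter_upwards [ST1_ae hsub hS.cur] with x hx
    intro u v
    rw [adF_apply, hx u v, Finset.sum_mul, Finset.mul_sum]
    refine Finset.sum_congr rfl fun j _ => ?_
    rw [smul_mul_assoc, mul_smul_comm, mul_assoc]

end Pool.TIW
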