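import Pool.Agent.Work.MP_a1f430_wb.Interface2

set_option autoImplicit false

namespace Pool.TIW

open Pool.TIA
open MeasureTheory Set Filter Topology
open scoped ContDiff ENNReal

theorem ST2_open {V : Type} [NormedAddCommGroup V] (y₀ : V) (t₀ r : ℝ) :
    IsOpen (Bx y₀ t₀ r) := Metric.isOpen_ball.prod isOpen_Ioo

theorem ST2_mono {V : Type} [NormedAddCommGroup V] (y₀ : V) (t₀ : ℝ) {r r' : ℝ} (h : r' ≤ r) :
    Bx y₀ t₀ r' ⊆ Bx y₀ t₀ r :=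
  Set.prod_mono (Metric.ball_subset_ball h) (Ioo_subset_Ioo (by linarith) (by linarith))

theorem ST2_test {E : Type} [NormedAddCommGroup E] [NormedSpace ℝ E] {W W' : Set E} {φ : E → ℝ}
    (h : Test W' φ) (hW : W' ⊆ W) : Test W φ := ⟨h.smooth, h.cpt, h.sub.trans hW⟩

theorem ST2_off {E : Type} [NormedAddCommGroup E] [NormedSpace ℝ E] {W : Set E} {φ : E → ℝ}
    (h : Test W φ) (p : E) (hp : p ∉ W) : φ p = 0 ∧ fderiv ℝ φ p = 0 := by
  have h1 : p ∉ tsupport φ := fun h2 => hp (h.sub h2)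
  refine ⟨image_eq_zero_of_notMem_tsupport h1, ?_⟩
  by_contra h3
  exact h1 (tsupport_fderiv_subset ℝ (subset_tsupport _ h3))

/-- The contraction of a two-form with `(0, 1)` as a linear form on `V`. -/
noncomputable def ST2_c {V : Type} [NormedAddCommGroup V] [NormedSpace ℝ V]
    (w : (V × ℝ) [⋀^Fin 2]→L[ℝ] ℝ) : V →L[ℝ] ℝ :=
  (w.toContinuousMultilinearMap.toContinuousLinearMap ![((0 : V), (1 : ℝ)), 0] 1).comp
    (ContinuousLinearMap.inl ℝ V ℝ)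

theorem ST2_c_apply {V : Type} [NormedAddCommGroup V] [NormedSpace ℝ V]
    (w : (V × ℝ) [⋀^Fin 2]→L[ℝ] ℝ) (v : V) : ST2_c w v = w ![(0, 1), (v, 0)] := by
  show w (Function.update ![((0 : V), (1 : ℝ)), 0] 1 (v, 0)) = w ![(0, 1), (v, 0)]
  congr 1
  funext i
  fin_cases i
  · simp
  · simp

theorem ST2_lin {V 𝔐 ι : Type} [NormedAddCommGroup V] [NormedSpace ℝ V] [FiniteDimensional ℝ V]
    [NormedRing 𝔐] [NormedAlgebra ℝ 𝔐] [Fintype ι] {d : Type} [Fintype d]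
    (b : Module.Basis d ℝ V) (A : V × ℝ →L[ℝ] 𝔐) (f : d → 𝔐) (ν : ι → V →L[ℝ] ℝ) (z : ι → 𝔐)
    (h0 : A (0, 1) = 0) (h : ∀ i, A (b i, 0) = f i + ∑ j, ν j (b i) • z j) (v : V) (s : ℝ) :
    A (v, s) = (∑ i, b.repr v i • f i) + ∑ j, ν j v • z j := by
  have h1 : (v, s) = (∑ i, b.repr v i • ((b i, 0) : V × ℝ)) + s • ((0, 1) : V × ℝ) := by
    refine Prod.ext ?_ ?_
    · simp [Prod.fst_sum, b.sum_repr]
    · simp [Prod.snd_sum]
  have h2 : A (v, s) = ∑ i, b.repr v i • A (b i, 0) := by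
    conv_lhs => rw [h1]
    rw [map_add, map_sum, map_smul, h0, smul_zero, add_zero]
    exact Finset.sum_congr rfl (fun i _ => map_smul _ _ _)
  rw [h2]
  simp only [h, smul_add, Finset.sum_add_distrib]
  congr 1
  simp only [Finset.smul_sum, smul_smul]
  rw [Finset.sum_comm]
  refine Finset.sum_congr rfl (fun j _ => ?_)
  rw [← Finset.sum_smul]
  congr 1
  conv_rhs => rw [← b.sum_repr v, map_sum]
  refine Finset.sum_congr rfl (fun i _ => ?_)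
  rw [map_smul, smul_eq_mul]

theorem p_ST2 (hLOP : Stmt_LOP) (hPRI : Stmt_PRI) (hWOD : Stmt_WOD) (hWIN : Stmt_WIN) :
    Stmt_ST2 := by
  intro 𝔐 _ _ _ _ _ _ 𝒢 V _ _ _ _ _ _ A F ι _ Z Γ ρ y₀ t₀ r hr hS hA0
  have hmem : (y₀, t₀) ∈ Bx y₀ t₀ r :=
    ⟨Metric.mem_ball_self hr, by constructor <;> linarith⟩
  have hA0' : ∀ᵐ p ∂(volume : Measure (V × ℝ)), p ∈ Bx y₀ t₀ r → A p (0, 1) = 0 :=
    (ae_restrict_iff' (ST2_open y₀ t₀ r).measurableSet).1 hA0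
  obtain ⟨r₁, M, M', hr₁, -, hMs, hMd, hMM⟩ := hLOP V (Bx y₀ t₀ r) ι
    (fun i j p => Γ i j p (0, 1)) y₀ t₀ (ST2_open _ _ _) hmem
    (fun i j => (hS.sΓ i j).clm_apply contDiffOn_const)
  -- the common box
  obtain ⟨r₂, hr₂, hr₂1, hr₂r⟩ : ∃ r₂ : ℝ, 0 < r₂ ∧ r₂ ≤ r₁ ∧ r₂ ≤ r :=
    ⟨min r₁ r, lt_min hr₁ hr, min_le_left _ _, min_le_right _ _⟩
  let σ : V × ℝ → ι → (V →L[ℝ] ℝ) := fun p k => ∑ j, M j k p • ST2_c (ρ j p)
  have hσv : ∀ p k v, σ p k v = ∑ j, M j k p * ρ j p ![(0, 1), (v, 0)] := by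
    intro p k v
    simp only [σ, ContinuousLinearMap.sum_apply, ContinuousLinearMap.smul_apply, ST2_c_apply,
      smul_eq_mul]
  have hσs : ContDiffOn ℝ ∞ σ (Bx y₀ t₀ r₂) := by
    rw [contDiffOn_pi]
    intro k
    rw [contDiffOn_clm_apply]
    intro v
    have h1 : (fun p => σ p k v) = fun p => ∑ j, M j k p * ρ j p ![(0, 1), (v, 0)] :=
      funext (fun p => hσv p k v)
    rw [h1]
    refine ContDiffOn.sum (fun j _ => ?_)
    refine ((hMs j k).1.mono (ST2_mono y₀ t₀ hr₂1)).mul ?_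
    exact (ContinuousAlternatingMap.apply ℝ (V × ℝ) ℝ ![(0, 1), (v, 0)]).contDiff.comp_contDiffOn
      ((hS.sρ j).mono (ST2_mono y₀ t₀ hr₂r))
  obtain ⟨r₃, ν, hr₃, hr₃2, hνs, hνd⟩ := hPRI V (ι → (V →L[ℝ] ℝ)) r₂ σ y₀ t₀ hr₂ hσs
  have hr₃1 : r₃ ≤ r₁ := hr₃2.trans hr₂1
  have hr₃r : r₃ ≤ r := hr₃2.trans hr₂r
  have hsub1 : Bx y₀ t₀ r₃ ⊆ Bx y₀ t₀ r₁ := ST2_mono y₀ t₀ hr₃1
  have hsub : Bx y₀ t₀ r₃ ⊆ Bx y₀ t₀ r := ST2_mono y₀ t₀ hr₃r
  have hZ2 : ∀ i, L2loc (Bx y₀ t₀ r₃) (Z i) := fun i K hK hKs => hS.Z2 i K hK (hKs.trans hsub)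
  -- the equation in the direction of `t`
  have hZeq : ∀ i, ∀ φ : V × ℝ → ℝ, Test (Bx y₀ t₀ r₃) φ →
      ∫ p, fderiv ℝ φ p (0, 1) • Z i p = -∫ p, φ p • ∑ j, Γ i j p (0, 1) • Z j p := by
    intro i φ hφ
    have h := hS.eq i (0, 1) φ (ST2_test hφ hsub)
    simp only [Finset.univ_unique, Fin.default_eq_zero, Matrix.cons_val_zero,
      Finset.sum_singleton, Matrix.cons_val_fin_one] at h
    rw [h, ← integral_neg]
    refine integral_congr_ae ?_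
    filter_upwards [hA0'] with p hp
    by_cases hpm : p ∈ Bx y₀ t₀ r
    · rw [hp hpm]
      simp
    · rw [(ST2_off (ST2_test hφ hsub) p hpm).1]
      simp
  obtain ⟨Z₀, hZ₀2, hZ₀⟩ := hWOD 𝔐 V ι y₀ t₀ r₃ (fun i j p => Γ i j p (0, 1)) M M' Z hr₃
    (fun i j => ⟨((hS.sΓ i j).mono hsub).clm_apply contDiffOn_const, (hMs i j).1.mono hsub1,
      (hMs i j).2.mono hsub1⟩)
    (fun p hp i j => (hMd p (hsub1 hp) i j).2) (fun p hp z i => (hMM p (hsub1 hp) z).2 i) hZ2 hZeq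
  have hcur : ∀ᵐ p ∂(volume.restrict (Bx y₀ t₀ r₃)), ∀ v : V,
      F p ![(0, 1), (v, 0)] = ∑ k, σ p k v • Z₀ k p.1 := by
    have h1 : ∀ᵐ p ∂(volume.restrict (Bx y₀ t₀ r₃)), ∀ u v, F p ![u, v] =
        ∑ j, ρ j p ![u, v] • Z j p := ae_restrict_of_ae_restrict_of_subset hsub hS.cur
    filter_upwards [h1, hZ₀] with p h1 h2 v
    rw [h1]
    simp only [h2, hσv, Finset.smul_sum, Finset.sum_smul, smul_smul]
    rw [Finset.sum_comm]
    refine Finset.sum_congr rfl (fun k _ => Finset.sum_congr rfl (fun j _ => ?_))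
    rw [mul_comm]
  have hcur' : ∀ᵐ p ∂(volume : Measure (V × ℝ)), p ∈ Bx y₀ t₀ r₃ → ∀ v : V,
      F p ![(0, 1), (v, 0)] = ∑ k, σ p k v • Z₀ k p.1 :=
    (ae_restrict_iff' (ST2_open y₀ t₀ r₃).measurableSet).1 hcur
  have hAeq : ∀ (v : V) (φ : V × ℝ → ℝ), Test (Bx y₀ t₀ r₃) φ →
      ∫ p, fderiv ℝ φ p (0, 1) • A p (v, 0) = -∫ p, φ p • ∑ k, σ p k v • Z₀ k p.1 := by
    intro v φ hφ
    have h := hS.conn.curv φ (ST2_test hφ hsub) (0, 1) (v, 0)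
    have e1 : ∫ p, φ p • F p ![(0, 1), (v, 0)] = ∫ p, φ p • ∑ k, σ p k v • Z₀ k p.1 := by
      refine integral_congr_ae ?_
      filter_upwards [hcur'] with p hp
      by_cases hpm : p ∈ Bx y₀ t₀ r₃
      · rw [hp hpm]
      · rw [(ST2_off hφ p hpm).1, zero_smul, zero_smul]
    have e2 : ∫ p, (fderiv ℝ φ p (0, 1) • A p (v, 0) - fderiv ℝ φ p (v, 0) • A p (0, 1))
        = ∫ p, fderiv ℝ φ p (0, 1) • A p (v, 0) := by
      refine integral_congr_ae ?_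
      filter_upwards [hA0'] with p hp
      by_cases hpm : p ∈ Bx y₀ t₀ r
      · rw [hp hpm]
        simp
      · rw [(ST2_off (ST2_test hφ hsub) p hpm).2]
        simp
    have e3 : ∫ p, φ p • (A p (0, 1) * A p (v, 0) - A p (v, 0) * A p (0, 1)) = 0 := by
      rw [← integral_zero (V × ℝ) 𝔐]
      refine integral_congr_ae ?_
      filter_upwards [hA0'] with p hp
      by_cases hpm : p ∈ Bx y₀ t₀ r
      · rw [hp hpm]
        simp
      · rw [(ST2_off (ST2_test hφ hsub) p hpm).1]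
        simp
    rw [e1, e2, e3, add_zero] at h
    rw [h, neg_neg]
  have hA2 : ∀ v : V, L2loc (Bx y₀ t₀ r₃) (fun p => A p (v, 0)) := fun v K hK hKs =>
    (ContinuousLinearMap.apply ℝ 𝔐 ((v, 0) : V × ℝ)).comp_memLp'
      (hS.conn.A2 K hK (hKs.trans hsub))
  have hWv : ∀ v : V, ∃ f₀ : V → 𝔐, L2loc (Metric.ball y₀ r₃) f₀ ∧
      ∀ᵐ p ∂(volume.restrict (Bx y₀ t₀ r₃)),
        A p (v, 0) = f₀ p.1 + ∑ j, ν p j v • Z₀ j p.1 := by
    intro v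
    refine hWIN 𝔐 V ι y₀ t₀ r₃ (fun j p => σ p j v) (fun j p => ν p j v) Z₀
      (fun p => A p (v, 0)) hr₃ (fun j => ⟨?_, ?_⟩) (fun p hp j => ?_) hZ₀2 (hA2 v) (hAeq v)
    · exact ((contDiffOn_pi.1 (hσs.mono (ST2_mono y₀ t₀ hr₃2))) j).clm_apply contDiffOn_const
    · exact ((contDiffOn_pi.1 hνs) j).clm_apply contDiffOn_const
    · have h1 := (hasDerivAt_pi.1 (hνd p hp)) j
      have h2 := (ContinuousLinearMap.apply ℝ ℝ v).hasFDerivAt.comp_hasDerivAt p.2 h1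
      exact h2
  choose f₀ hf₀2 hf₀ using hWv
  let b := Module.finBasis ℝ V
  let B : V → V →L[ℝ] 𝔐 := fun y =>
    ∑ i, ContinuousLinearMap.smulRight (LinearMap.toContinuousLinearMap (b.coord i)) (f₀ (b i) y)
  refine ⟨r₃, M, M', fun j p => ν p j, Z₀, B, hr₃, hr₃r,
    fun i j => ⟨(hMs i j).1.mono hsub1, (hMs i j).2.mono hsub1⟩, contDiffOn_pi.1 hνs,
    fun p hp z i => (hMM p (hsub1 hp) z).1 i, hZ₀2, ?_, ?_⟩
  · intro K hK hKs
    have h1 : ∀ i, MemLp (fun y => ContinuousLinearMap.smulRight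
        (LinearMap.toContinuousLinearMap (b.coord i)) (f₀ (b i) y)) 2 (volume.restrict K) := by
      intro i
      exact (ContinuousLinearMap.smulRightL ℝ V 𝔐
        (LinearMap.toContinuousLinearMap (b.coord i))).comp_memLp' (hf₀2 (b i) K hK hKs)
    exact memLp_finset_sum _ (fun i _ => h1 i)
  · have h1 : ∀ᵐ p ∂(volume.restrict (Bx y₀ t₀ r₃)), ∀ i,
        A p (b i, 0) = f₀ (b i) p.1 + ∑ j, ν p j (b i) • Z₀ j p.1 :=
      ae_all_iff.2 (fun i => hf₀ (b i))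
    have h2 : ∀ᵐ p ∂(volume.restrict (Bx y₀ t₀ r₃)), A p (0, 1) = 0 :=
      ae_restrict_of_ae_restrict_of_subset hsub hA0
    filter_upwards [h1, h2, hZ₀] with p h1 h2 h3
    refine ⟨h3, fun v s => ?_⟩
    rw [ST2_lin b (A p) (fun i => f₀ (b i) p.1) (fun j => ν p j) (fun j => Z₀ j p.1) h2 h1 v s]
    congr 1
    simp only [B, ContinuousLinearMap.sum_apply, ContinuousLinearMap.smulRight_apply,
      LinearMap.coe_toContinuousLinearMap', Module.Basis.coord_apply]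

end Pool.TIW
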