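import Pool.Agent.Work.MP_a1f430_wb.Interface2
import Pool.Agent.Work.MP_a1f430_ti.B_EXT

/-! # Block WIN: functions with a given weak derivative in the direction of time -/

set_option autoImplicit false

namespace Pool.TIW

open Pool.TIA
open MeasureTheory Set Filter Topology
open scoped ContDiff ENNReal

theorem WIN_test {E : Type} [NormedAddCommGroup E] [NormedSpace ℝ E] {W : Set E} {φ : E → ℝ}
    (hφ : Test W φ) (v : E) : Test W (fun x => fderiv ℝ φ x v) where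
  smooth := (hφ.smooth.fderiv_right (m := ∞) (by simp)).clm_apply contDiff_const
  cpt := hφ.cpt.fderiv_apply (𝕜 := ℝ) v
  sub := (tsupport_fderiv_apply_subset ℝ v).trans hφ.sub

theorem WIN_cont {E : Type} [TopologicalSpace E] {W : Set E} (hW : IsOpen W) {φ ν : E → ℝ}
    (hφ : Continuous φ) (hs : tsupport φ ⊆ W) (hν : ContinuousOn ν W) :
    Continuous (fun p => φ p * ν p) := by
  rw [continuous_iff_continuousAt]
  intro p
  by_cases hp : p ∈ W
  · exact hφ.continuousAt.mul (hν.continuousAt (hW.mem_nhds hp))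
  · have h1 : φ =ᶠ[𝓝 p] 0 := notMem_tsupport_iff_eventuallyEq.1 (fun h => hp (hs h))
    have h2 : (fun q => φ q * ν q) =ᶠ[𝓝 p] fun _ => (0 : ℝ) := by
      filter_upwards [h1] with q hq
      rw [hq]
      exact zero_mul _
    exact (continuousAt_const (y := (0 : ℝ))).congr h2.symm

theorem WIN_smul {E X : Type} [NormedAddCommGroup E] [MeasureSpace E] [BorelSpace E]
    [NormedAddCommGroup X] [NormedSpace ℝ X] {W : Set E} {f : E → X} (hf : L2loc W f)
    {ν : E → ℝ} (hν : ContinuousOn ν W) : L2loc W (fun p => ν p • f p) := by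
  intro K hK hKW
  have h1 := hf K hK hKW
  obtain ⟨C, hC⟩ := hK.exists_bound_of_continuousOn (hν.mono hKW)
  refine MemLp.of_le_mul (c := C) h1 ?_ ?_
  · exact ((hν.mono hKW).aestronglyMeasurable hK.measurableSet).smul h1.1
  · refine (ae_restrict_mem hK.measurableSet).mono fun x hx => ?_
    rw [norm_smul]
    exact mul_le_mul_of_nonneg_right (hC x hx) (norm_nonneg _)

section

variable {V : Type} [NormedAddCommGroup V] [NormedSpace ℝ V]

theorem WIN_der {W : Set (V × ℝ)} {φ σ ν : V × ℝ → ℝ} (hφ : Test W φ)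
    (hd : ∀ p ∈ W, HasDerivAt (fun s => ν (p.1, s)) (σ p) p.2) (y : V) (s : ℝ) :
    HasDerivAt (fun t => φ (y, t) * ν (y, t))
      (fderiv ℝ φ (y, s) (0, 1) * ν (y, s) + φ (y, s) * σ (y, s)) s := by
  by_cases hp : (y, s) ∈ W
  · have h1 : HasFDerivAt φ (fderiv ℝ φ (y, s)) (y, s) :=
      ((hφ.smooth.differentiable (by simp)) (y, s)).hasFDerivAt
    have h2 : HasDerivAt (fun t : ℝ => ((y, t) : V × ℝ)) ((0 : V), (1 : ℝ)) s :=
      (hasDerivAt_const s y).prodMk (hasDerivAt_id s)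
    have h3 : HasDerivAt (fun t : ℝ => φ (y, t)) (fderiv ℝ φ (y, s) (0, 1)) s :=
      h1.comp_hasDerivAt s h2
    exact h3.mul (hd (y, s) hp)
  · have h1 : φ =ᶠ[𝓝 (y, s)] 0 := notMem_tsupport_iff_eventuallyEq.1 (fun h => hp (hφ.sub h))
    have h2 : fderiv ℝ φ (y, s) = 0 := by
      rw [h1.fderiv_eq]
      simp
    have h3 : φ (y, s) = 0 := h1.eq_of_nhds
    rw [h2, h3]
    have h4 : (fun t => φ (y, t) * ν (y, t)) =ᶠ[𝓝 s] fun _ => (0 : ℝ) := by
      have h5 : Tendsto (fun t : ℝ => ((y, t) : V × ℝ)) (𝓝 s) (𝓝 (y, s)) :=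
        (Continuous.prodMk_right y).tendsto s
      filter_upwards [h5.eventually h1] with t ht
      rw [ht]
      exact zero_mul _
    simpa using (hasDerivAt_const s (0 : ℝ)).congr_of_eventuallyEq h4

/-- the function of the time has integral zero -/
theorem WIN_int {W : Set (V × ℝ)} (hW : IsOpen W) {φ σ ν : V × ℝ → ℝ} (hφ : Test W φ)
    (hσ : ContinuousOn σ W) (hν : ContinuousOn ν W)
    (hd : ∀ p ∈ W, HasDerivAt (fun s => ν (p.1, s)) (σ p) p.2) (y : V) :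
    ∫ s : ℝ, (fderiv ℝ φ (y, s) (0, 1) * ν (y, s) + φ (y, s) * σ (y, s)) = 0 := by
  have hφ' := WIN_test hφ ((0 : V), (1 : ℝ))
  have c1 := WIN_cont hW hφ'.smooth.continuous hφ'.sub hν
  have c2 := WIN_cont hW hφ.smooth.continuous hφ.sub hσ
  have c3 := WIN_cont hW hφ.smooth.continuous hφ.sub hν
  have hK : IsCompact (Prod.snd '' tsupport φ) := hφ.cpt.isCompact.image continuous_snd
  have hz : ∀ s : ℝ, s ∉ Prod.snd '' tsupport φ → (y, s) ∉ tsupport φ :=
    fun s hs h => hs ⟨(y, s), h, rfl⟩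
  have hz1 : ∀ s : ℝ, s ∉ Prod.snd '' tsupport φ → φ (y, s) = 0 :=
    fun s hs => image_eq_zero_of_notMem_tsupport (hz s hs)
  have hz2 : ∀ s : ℝ, s ∉ Prod.snd '' tsupport φ → fderiv ℝ φ (y, s) (0, 1) = 0 := by
    intro s hs
    have h1 : φ =ᶠ[𝓝 (y, s)] 0 := notMem_tsupport_iff_eventuallyEq.1 (hz s hs)
    rw [h1.fderiv_eq]
    simp
  refine integral_eq_zero_of_hasDerivAt_of_integrable (f := fun s => φ (y, s) * ν (y, s))
    (fun s => WIN_der hφ hd y s) ?_ ?_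
  · refine Continuous.integrable_of_hasCompactSupport ?_ ?_
    · exact (c1.comp (Continuous.prodMk_right y)).add (c2.comp (Continuous.prodMk_right y))
    · refine HasCompactSupport.intro hK fun s hs => ?_
      rw [hz1 s hs, hz2 s hs]
      simp
  · refine Continuous.integrable_of_hasCompactSupport ?_ ?_
    · exact c3.comp (Continuous.prodMk_right y)
    · refine HasCompactSupport.intro hK fun s hs => ?_
      rw [hz1 s hs, zero_mul]

variable [FiniteDimensional ℝ V] [MeasureSpace V] [BorelSpace V]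
  [(volume : Measure V).IsAddHaarMeasure] {X : Type} [NormedAddCommGroup X] [NormedSpace ℝ X]
  [FiniteDimensional ℝ X]

theorem WIN_one {W₁ : Set V} {I : Set ℝ} (hW₁ : IsOpen W₁) (hI : IsOpen I) {φ σ ν : V × ℝ → ℝ}
    (hφ : Test (W₁ ×ˢ I) φ) (hσ : ContinuousOn σ (W₁ ×ˢ I)) (hν : ContinuousOn ν (W₁ ×ˢ I))
    (hd : ∀ p ∈ W₁ ×ˢ I, HasDerivAt (fun s => ν (p.1, s)) (σ p) p.2) {Z : V → X}
    (hZ : L2loc W₁ Z) :
    Integrable (fun p : V × ℝ => fderiv ℝ φ p (0, 1) • (ν p • Z p.1)) ∧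
    Integrable (fun p : V × ℝ => φ p • (σ p • Z p.1)) ∧
    ∫ p : V × ℝ, fderiv ℝ φ p (0, 1) • (ν p • Z p.1) =
      -∫ p : V × ℝ, φ p • (σ p • Z p.1) := by
  have hW : IsOpen (W₁ ×ˢ I) := hW₁.prod hI
  have hφ' := WIN_test hφ ((0 : V), (1 : ℝ))
  have c1 := WIN_cont hW hφ'.smooth.continuous hφ'.sub hν
  have c2 := WIN_cont hW hφ.smooth.continuous hφ.sub hσ
  have hL := EXT_L2 W₁ I Z hZ
  have i1 : Integrable (fun p : V × ℝ => (fderiv ℝ φ p (0, 1) * ν p) • Z p.1) := by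
    refine EXT_int (W₁ ×ˢ I) _ hL _ c1 (tsupport fun p => fderiv ℝ φ p (0, 1))
      hφ'.cpt.isCompact hφ'.sub fun p hp => ?_
    rw [show fderiv ℝ φ p (0, 1) = 0 from image_eq_zero_of_notMem_tsupport
      (f := fun p => fderiv ℝ φ p (0, 1)) hp, zero_mul]
  have i2 : Integrable (fun p : V × ℝ => (φ p * σ p) • Z p.1) := by
    refine EXT_int (W₁ ×ˢ I) _ hL _ c2 (tsupport φ) hφ.cpt.isCompact hφ.sub fun p hp => ?_
    rw [image_eq_zero_of_notMem_tsupport hp, zero_mul]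
  have e1 : (fun p : V × ℝ => fderiv ℝ φ p (0, 1) • (ν p • Z p.1)) =
      fun p : V × ℝ => (fderiv ℝ φ p (0, 1) * ν p) • Z p.1 := by
    funext p
    rw [smul_smul]
  have e2 : (fun p : V × ℝ => φ p • (σ p • Z p.1)) = fun p : V × ℝ => (φ p * σ p) • Z p.1 := by
    funext p
    rw [smul_smul]
  rw [e1, e2]
  refine ⟨i1, i2, ?_⟩
  rw [eq_neg_iff_add_eq_zero, ← integral_add i1 i2]
  have i3 := i1.add i2
  have e3 : ((fun p : V × ℝ => (fderiv ℝ φ p (0, 1) * ν p) • Z p.1) +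
      fun p : V × ℝ => (φ p * σ p) • Z p.1) =
      fun p : V × ℝ => (fderiv ℝ φ p (0, 1) * ν p + φ p * σ p) • Z p.1 := by
    funext p
    show (fderiv ℝ φ p (0, 1) * ν p) • Z p.1 + (φ p * σ p) • Z p.1 = _
    rw [← add_smul]
  have e4 : (fun p : V × ℝ => (fderiv ℝ φ p (0, 1) * ν p) • Z p.1 + (φ p * σ p) • Z p.1) =
      fun p : V × ℝ => (fderiv ℝ φ p (0, 1) * ν p + φ p * σ p) • Z p.1 := by
    funext p
    rw [← add_smul]
  rw [e3, Measure.volume_eq_prod] at i3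
  rw [e4, Measure.volume_eq_prod, integral_prod _ i3]
  have e5 : ∀ y : V, ∫ s : ℝ, (fderiv ℝ φ (y, s) (0, 1) * ν (y, s) + φ (y, s) * σ (y, s)) •
      Z y = 0 := by
    intro y
    rw [integral_smul_const, WIN_int hW hφ hσ hν hd y, zero_smul]
  simp only [e5, integral_zero]

end

theorem p_WIN (hDBR : Stmt_DBR) : Stmt_WIN := by
  intro 𝔐 _ _ _ V _ _ _ _ _ _ ι _ y₀ t₀ r σ ν Z₀ f hr hsm hd hZ hf hw
  have hW₁ : IsOpen (Metric.ball y₀ r) := Metric.isOpen_ball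
  have hI : IsOpen (Ioo (t₀ - r) (t₀ + r)) := isOpen_Ioo
  have hab : t₀ - r < t₀ + r := by linarith
  have hσ : ∀ j, ContinuousOn (σ j) (Metric.ball y₀ r ×ˢ Ioo (t₀ - r) (t₀ + r)) :=
    fun j => (hsm j).1.continuousOn
  have hν : ∀ j, ContinuousOn (ν j) (Metric.ball y₀ r ×ˢ Ioo (t₀ - r) (t₀ + r)) :=
    fun j => (hsm j).2.continuousOn
  have hL : L2loc (Metric.ball y₀ r ×ˢ Ioo (t₀ - r) (t₀ + r))
      (fun p : V × ℝ => f p - ∑ j, ν j p • Z₀ j p.1) := by
    intro K hK hKW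
    refine (hf K hK hKW).sub ?_
    refine memLp_finset_sum _ fun j _ => ?_
    exact WIN_smul (EXT_L2 _ _ (Z₀ j) (hZ j)) (hν j) K hK hKW
  have hmain : ∀ φ : V × ℝ → ℝ, Test (Metric.ball y₀ r ×ˢ Ioo (t₀ - r) (t₀ + r)) φ →
      ∫ p, fderiv ℝ φ p (0, 1) • (f p - ∑ j, ν j p • Z₀ j p.1) = 0 := by
    intro φ hφ
    have hone := fun j => WIN_one hW₁ hI hφ (hσ j) (hν j) (fun p hp => hd p hp j) (hZ j)
    have hφ' := WIN_test hφ ((0 : V), (1 : ℝ))
    have i0 : Integrable (fun p : V × ℝ => fderiv ℝ φ p (0, 1) • f p) := by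
      refine EXT_int _ _ hf _ hφ'.smooth.continuous (tsupport fun p => fderiv ℝ φ p (0, 1))
        hφ'.cpt.isCompact hφ'.sub fun p hp => ?_
      exact image_eq_zero_of_notMem_tsupport (f := fun p => fderiv ℝ φ p (0, 1)) hp
    have e1 : ∀ p : V × ℝ, fderiv ℝ φ p (0, 1) • (f p - ∑ j, ν j p • Z₀ j p.1) =
        fderiv ℝ φ p (0, 1) • f p - ∑ j, fderiv ℝ φ p (0, 1) • (ν j p • Z₀ j p.1) := by
      intro p
      rw [smul_sub, Finset.smul_sum]
    have e2 : ∀ p : V × ℝ, φ p • ∑ j, σ j p • Z₀ j p.1 =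
        ∑ j, φ p • (σ j p • Z₀ j p.1) := by
      intro p
      rw [Finset.smul_sum]
    simp only [e1]
    rw [integral_sub i0 (integrable_finset_sum _ fun j _ => (hone j).1),
      integral_finset_sum _ fun j _ => (hone j).1, hw φ hφ]
    simp only [e2]
    rw [integral_finset_sum _ fun j _ => (hone j).2.1]
    rw [Finset.sum_congr rfl fun j _ => (hone j).2.2, Finset.sum_neg_distrib]
    exact sub_self _
  obtain ⟨f₀, h1, h2⟩ := hDBR V 𝔐 (Metric.ball y₀ r) (t₀ - r) (t₀ + r) _ hW₁ hab hL hmain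
  refine ⟨f₀, h1, ?_⟩
  filter_upwards [h2] with p hp
  rw [← hp, sub_add_cancel]

end Pool.TIW
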