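import Pool.Agent.Work.MP_a1f430_wb.Interface2

/-! # Block WOD (typed by helper55): a linear system of weak differential equations in `t` -/

set_option autoImplicit false

namespace Pool.TIW

open Pool.TIA
open MeasureTheory Set Filter Topology
open scoped ContDiff ENNReal

section

variable {E : Type} [NormedAddCommGroup E] [NormedSpace ℝ E] [MeasureSpace E] [BorelSpace E]

omit [MeasureSpace E] [BorelSpace E] in
theorem WOD_test [MeasureSpace E] {W : Set E} (hW : IsOpen W) {φ c : E → ℝ} (hφ : Test W φ)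
    (hc : ContDiffOn ℝ ∞ c W) : Test W (fun p => φ p * c p) := by
  refine ⟨?_, ?_, ?_⟩
  · rw [contDiff_iff_contDiffAt]
    intro p
    by_cases hp : p ∈ W
    · exact hφ.smooth.contDiffAt.mul (hc.contDiffAt (hW.mem_nhds hp))
    · have h1 : p ∉ tsupport φ := fun h => hp (hφ.sub h)
      have h2 : φ =ᶠ[𝓝 p] 0 := notMem_tsupport_iff_eventuallyEq.1 h1
      have h3 : (fun p => φ p * c p) =ᶠ[𝓝 p] fun _ => 0 := by
        filter_upwards [h2] with q hq
        rw [hq]
        exact zero_mul _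
      exact (contDiffAt_const (c := (0 : ℝ))).congr_of_eventuallyEq h3
  · exact hφ.cpt.mul_right
  · exact (tsupport_mul_subset_left).trans hφ.sub

variable {X : Type} [NormedAddCommGroup X] [NormedSpace ℝ X]

theorem WOD_mem {K : Set E} (hK : IsCompact K) {c : E → ℝ} (hc : ContinuousOn c K) {Z : E → X}
    {p : ℝ≥0∞} (hZ : MemLp Z p (volume.restrict K)) :
    MemLp (fun x => c x • Z x) p (volume.restrict K) := by
  obtain ⟨C, hC⟩ := hK.exists_bound_of_continuousOn hc
  refine MemLp.of_le_mul (c := C) hZ ((hc.aestronglyMeasurable hK.measurableSet).smul hZ.1) ?_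
  filter_upwards [ae_restrict_mem hK.measurableSet] with x hx
  rw [norm_smul]
  exact mul_le_mul_of_nonneg_right (hC x hx) (norm_nonneg _)

theorem WOD_L2 {W : Set E} {c : E → ℝ} (hc : ContinuousOn c W) {Z : E → X} (hZ : L2loc W Z) :
    L2loc W (fun x => c x • Z x) := fun K hK hKW => WOD_mem hK (hc.mono hKW) (hZ K hK hKW)

theorem WOD_int [IsFiniteMeasureOnCompacts (volume : Measure E)] {W : Set E} {ψ : E → ℝ}
    (hψ : Continuous ψ) (hs : HasCompactSupport ψ) (hsW : tsupport ψ ⊆ W) {Z : E → X}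
    (hZ : L2loc W Z) : Integrable (fun x => ψ x • Z x) := by
  have hfin : IsFiniteMeasure ((volume : Measure E).restrict (tsupport ψ)) :=
    ⟨by simpa using hs.isCompact.measure_lt_top⟩
  have h1 : MemLp (fun x => ψ x • Z x) 2 (volume.restrict (tsupport ψ)) :=
    WOD_mem hs.isCompact hψ.continuousOn (hZ _ hs.isCompact hsW)
  have h2 : IntegrableOn (fun x => ψ x • Z x) (tsupport ψ) := h1.integrable (by norm_num)
  refine (integrableOn_iff_integrable_of_support_subset ?_).1 h2
  intro x hx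
  by_contra hcon
  apply hx
  show ψ x • Z x = 0
  rw [image_eq_zero_of_notMem_tsupport hcon, zero_smul]

end

section

variable {V : Type} [NormedAddCommGroup V] [NormedSpace ℝ V]

theorem WOD_fderiv {W : Set (V × ℝ)} (hW : IsOpen W) {c : V × ℝ → ℝ} (hc : ContDiffOn ℝ ∞ c W)
    {p : V × ℝ} (hp : p ∈ W) {d : ℝ} (h : HasDerivAt (fun s => c (p.1, s)) d p.2) :
    fderiv ℝ c p (0, 1) = d := by
  have h1 : DifferentiableAt ℝ c p :=
    (hc.contDiffAt (hW.mem_nhds hp)).differentiableAt (by norm_num)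
  have h2 : HasDerivAt (fun s : ℝ => (p.1, s)) ((0 : V), (1 : ℝ)) p.2 :=
    (hasDerivAt_const p.2 p.1).prodMk (hasDerivAt_id p.2)
  have h3 : HasDerivAt (fun s => c (p.1, s)) (fderiv ℝ c p (0, 1)) p.2 :=
    HasFDerivAt.comp_hasDerivAt (f := fun s : ℝ => (p.1, s)) p.2 h1.hasFDerivAt h2
  exact h3.unique h

end

theorem p_WOD (hDBR : Stmt_DBR) : Stmt_WOD := by
  classical
  intro 𝔐 _ _ _ V _ _ _ _ _ _ ι _ y₀ t₀ r a M M' Z hr hs hM' hMM hZ hw
  have hW : IsOpen (Bx y₀ t₀ r) := Metric.isOpen_ball.prod isOpen_Ioo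
  have hY2 : ∀ i, L2loc (Bx y₀ t₀ r) (fun p => ∑ j, M' i j p • Z j p) := by
    intro i K hK hKW
    exact memLp_finsetSum _ fun j _ => WOD_L2 (hs i j).2.2.continuousOn (hZ j) K hK hKW
  have ha2 : ∀ j, L2loc (Bx y₀ t₀ r) (fun p => ∑ k, a j k p • Z k p) := by
    intro j K hK hKW
    exact memLp_finsetSum _ fun k _ => WOD_L2 (hs j k).1.continuousOn (hZ k) K hK hKW
  have hder : ∀ φ : V × ℝ → ℝ, Test (Bx y₀ t₀ r) φ → ∀ i j p,
      fderiv ℝ (fun q => φ q * M' i j q) p (0, 1) =
        fderiv ℝ φ p (0, 1) * M' i j p - φ p * ∑ k, M' i k p * a k j p := by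
    intro φ hφ i j p
    by_cases hp : p ∈ Bx y₀ t₀ r
    · have h1 : DifferentiableAt ℝ φ p := hφ.smooth.differentiable (by norm_num) p
      have h2 : DifferentiableAt ℝ (M' i j) p :=
        ((hs i j).2.2.contDiffAt (hW.mem_nhds hp)).differentiableAt (by norm_num)
      have h3 : fderiv ℝ (fun q => φ q * M' i j q) p =
          φ p • fderiv ℝ (M' i j) p + M' i j p • fderiv ℝ φ p := fderiv_fun_mul h1 h2
      have h4 := WOD_fderiv hW (hs i j).2.2 hp (hM' p hp i j)
      rw [h3]
      show φ p * fderiv ℝ (M' i j) p (0, 1) + M' i j p * fderiv ℝ φ p (0, 1) = _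
      rw [h4]
      ring
    · have h1 : p ∉ tsupport φ := fun h => hp (hφ.sub h)
      have h2 : φ =ᶠ[𝓝 p] 0 := notMem_tsupport_iff_eventuallyEq.1 h1
      have h3 : (fun q => φ q * M' i j q) =ᶠ[𝓝 p] fun _ => 0 := by
        filter_upwards [h2] with q hq
        rw [hq]
        exact zero_mul _
      have h4 : fderiv ℝ φ p = 0 := by
        rw [h2.fderiv_eq]
        exact fderiv_const_apply (0 : ℝ)
      have h5 : φ p = 0 := h2.eq_of_nhds
      rw [h3.fderiv_eq, h4, h5]
      simp
  have hweak : ∀ i, ∀ φ : V × ℝ → ℝ, Test (Bx y₀ t₀ r) φ →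
      ∫ p, fderiv ℝ φ p (0, 1) • (∑ j, M' i j p • Z j p) = 0 := by
    intro i φ hφ
    have hT : ∀ j, Test (Bx y₀ t₀ r) (fun p => φ p * M' i j p) := fun j =>
      WOD_test hW hφ (hs i j).2.2
    have hf : ∀ j, Integrable (fun p => fderiv ℝ (fun q => φ q * M' i j q) p (0, 1) • Z j p) := by
      intro j
      refine WOD_int ?_ ?_ ?_ (hZ j)
      · exact ((hT j).smooth.continuous_fderiv (by norm_num)).clm_apply continuous_const
      · exact ((hT j).cpt.fderiv (𝕜 := ℝ)).comp_left (g := fun L : V × ℝ →L[ℝ] ℝ => L (0, 1)) rfl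
      · refine subset_trans ?_ (hT j).sub
        refine closure_minimal ?_ (isClosed_tsupport _)
        intro p hp
        by_contra hcon
        apply hp
        have h2 : (fun q => φ q * M' i j q) =ᶠ[𝓝 p] 0 :=
          notMem_tsupport_iff_eventuallyEq.1 hcon
        show fderiv ℝ (fun q => φ q * M' i j q) p (0, 1) = 0
        have h4 : fderiv ℝ (fun q => φ q * M' i j q) p = 0 := by
          rw [h2.fderiv_eq]
          exact fderiv_const_apply (0 : ℝ)
        rw [h4]
        rfl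
    have hg : ∀ j, Integrable (fun p => (φ p * M' i j p) • ∑ k, a j k p • Z k p) := fun j =>
      WOD_int (hT j).smooth.continuous (hT j).cpt (hT j).sub (ha2 j)
    have h1 : ∀ j, ∫ p, (fderiv ℝ (fun q => φ q * M' i j q) p (0, 1) • Z j p +
        (φ p * M' i j p) • ∑ k, a j k p • Z k p) = 0 := by
      intro j
      rw [integral_add (hf j) (hg j), hw j _ (hT j), neg_add_cancel]
    have h2 : ∫ p, ∑ j, (fderiv ℝ (fun q => φ q * M' i j q) p (0, 1) • Z j p +
        (φ p * M' i j p) • ∑ k, a j k p • Z k p) = 0 := by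
      have hfg : ∀ j ∈ (Finset.univ : Finset ι), Integrable
          (fun p => fderiv ℝ (fun q => φ q * M' i j q) p (0, 1) • Z j p +
            (φ p * M' i j p) • ∑ k, a j k p • Z k p) := fun j _ => (hf j).add (hg j)
      rw [integral_finsetSum _ hfg]
      exact Finset.sum_eq_zero fun j _ => h1 j
    rw [← h2]
    congr 1
    funext p
    have e1 : ∀ j, fderiv ℝ (fun q => φ q * M' i j q) p (0, 1) • Z j p =
        fderiv ℝ φ p (0, 1) • (M' i j p • Z j p) -
          ∑ k, (φ p * (M' i k p * a k j p)) • Z j p := by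
      intro j
      rw [hder φ hφ i j p, sub_smul, mul_smul, Finset.mul_sum, Finset.sum_smul]
    have e2 : ∀ j, (φ p * M' i j p) • ∑ k, a j k p • Z k p =
        ∑ k, (φ p * (M' i j p * a j k p)) • Z k p := by
      intro j
      rw [Finset.smul_sum]
      refine Finset.sum_congr rfl fun k _ => ?_
      rw [smul_smul, mul_assoc]
    simp only [e1, e2]
    rw [Finset.sum_add_distrib, Finset.sum_sub_distrib, Finset.smul_sum]
    have e3 : ∑ j, ∑ k, (φ p * (M' i k p * a k j p)) • Z j p =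
        ∑ j, ∑ k, (φ p * (M' i j p * a j k p)) • Z k p := Finset.sum_comm
    rw [e3]
    abel
  have hD : ∀ i, ∃ f₀ : V → 𝔐, L2loc (Metric.ball y₀ r) f₀ ∧
      ∀ᵐ p ∂(volume.restrict (Bx y₀ t₀ r)), (∑ j, M' i j p • Z j p) = f₀ p.1 := fun i =>
    hDBR V 𝔐 (Metric.ball y₀ r) (t₀ - r) (t₀ + r) (fun p => ∑ j, M' i j p • Z j p)
      Metric.isOpen_ball (by linarith) (hY2 i) (hweak i)
  choose Z₀ hZ₀ hYZ using hD
  refine ⟨Z₀, hZ₀, ?_⟩
  filter_upwards [ae_all_iff.2 hYZ, ae_restrict_mem hW.measurableSet] with p hp hpW i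
  have h1 : ∀ l, ∑ j, M i j p * M' j l p = if i = l then 1 else 0 := by
    intro l
    have h2 := hMM p hpW (fun k => if k = l then 1 else 0) i
    simp only [mul_ite, mul_one, mul_zero, Finset.sum_ite_eq', Finset.mem_univ, if_true] at h2
    exact h2
  have h3 : ∑ j, M i j p • Z₀ j p.1 = ∑ j, ∑ l, (M i j p * M' j l p) • Z l p := by
    refine Finset.sum_congr rfl fun j _ => ?_
    rw [← hp j, Finset.smul_sum]
    refine Finset.sum_congr rfl fun l _ => ?_
    rw [smul_smul]
  rw [h3, Finset.sum_comm]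
  simp only [← Finset.sum_smul, h1, ite_smul, one_smul, zero_smul, Finset.sum_ite_eq,
    Finset.mem_univ, if_true]

end Pool.TIW
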