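import Pool.Agent.Work.MP_a1f430_wb.All
import Pool.Agent.Work.MP_a1f430_wb.B_ST1
import Pool.Agent.Work.MP_a1f430_wb.B_LOP
import Pool.Agent.Work.MP_a1f430_wb.B_PRI
import Pool.Agent.Work.MP_a1f430_wb.B_DBR
import Pool.Agent.Work.MP_a1f430_wb.B_WOD
import Pool.Agent.Work.MP_a1f430_wb.B_WIN
import Pool.Agent.Work.MP_a1f430_wb.B_ST2
import Pool.Agent.Work.MP_a1f430_wb.B_GSL
import Pool.Agent.Work.MP_a1f430_wb.B_SSL
import Pool.Agent.Work.MP_a1f430_wb.B_GCO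
import Pool.Agent.Work.MP_a1f430_wb.B_GPB
import Pool.Agent.Work.MP_a1f430_wb.B_ST4
import Pool.Agent.Work.MP_a1f430_wb.B_TRP
import Pool.Agent.Work.MP_a1f430_wb.B_GD0
import Pool.Agent.Work.MP_a1f430_wb.B_IND
import Pool.Agent.Work.MP_a1f430_wb.B_SMF
import Pool.Agent.Work.MP_a1f430_wb.B_FRF
import Pool.Agent.Work.MP_a1f430_wb.B_LIV
import Pool.Agent.Work.MP_a1f430_wb.B_FTA
import Pool.Agent.Work.MP_a1f430_wb.B_FTS
import Pool.Agent.Work.MP_a1f430_wb.B_FTR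
import Pool.Agent.Work.MP_a1f430_wb.B_DM1

/-! # Regularity where the equation is of finite type: assembly (MP_a1f430, THEOREM FT) -/

set_option autoImplicit false

namespace Pool.TIW

open Pool.TIA (a_LIE a_FLW a_CUT a_MOA a_MOT a_PRD a_EXT a_PBC a_PBW a_FRM)

theorem a_ST1 : Stmt_ST1 := p_ST1 a_KT4 a_CG2 a_DCV
theorem a_LOP : Stmt_LOP := p_LOP a_FLW a_CUT
theorem a_PRI : Stmt_PRI := p_PRI
theorem a_DBR : Stmt_DBR := p_DBR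
theorem a_WOD : Stmt_WOD := p_WOD a_DBR
theorem a_WIN : Stmt_WIN := p_WIN a_DBR
theorem a_ST2 : Stmt_ST2 := p_ST2 a_LOP a_PRI a_WOD a_WIN
theorem a_GSL : Stmt_GSL := p_GSL a_MOA a_MOT
theorem a_SSL : Stmt_SSL := p_SSL a_GSL
theorem a_GCO : Stmt_GCO := p_GCO a_LIE a_PRD
theorem a_GPB : Stmt_GPB := p_GPB a_EXT a_LBR
theorem a_ST4 : Stmt_ST4 := p_ST4 a_LBR a_ST1 a_ST2 a_SSL a_GCO a_GPB
theorem a_TRP : Stmt_TRP := p_TRP a_PBC a_PBW a_DLI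
theorem a_GD0 : Stmt_GD0 := p_GD0
theorem a_IND : Stmt_IND := p_IND a_ST4 a_TRP a_GD0
theorem a_SMF : Stmt_SMF := p_SMF
theorem a_FRF : Stmt_FRF := p_FRF a_SMF
theorem a_LIV : Stmt_LIV := p_LIV
theorem a_FTA : Stmt_FTA := p_FTA a_FRF a_LIV
theorem a_FTS : Stmt_FTS := p_FTS
theorem a_FTR : Stmt_FTR := p_FTR a_BIA a_FTA a_FTS a_IND
theorem a_DM1 : Stmt_DM1 := p_DM1 a_FRM

end Pool.TIW
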