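import Pool.Agent.Work.MP_a1f430_wb.Interface3
import Pool.Agent.Work.MP_a1f430_wb.B_TRP

/-! # Block BIG: the Bianchi identity on every space (MP_a1f430, helper90) -/

set_option autoImplicit false

namespace Pool.TIW

open Pool.TIA
open MeasureTheory Set Filter Topology
open scoped ContDiff ENNReal

theorem p_BIG (hPBC : Pool.TIA.Stmt_PBC) (hBIA : Stmt_BIA) (hDLI : Stmt_DLI) : Stmt_BIG := by
  intro 𝔐 _ _ _ _ _ _ 𝒢 E _ _ _ _ _ _ W A F hW hA u v w
  have hd : Module.finrank ℝ (Eu (Module.finrank ℝ E)) = Module.finrank ℝ E := by simp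
  obtain ⟨L⟩ : Nonempty (Eu (Module.finrank ℝ E) ≃L[ℝ] E) :=
    ⟨ContinuousLinearEquiv.ofFinrankEq hd⟩
  have hDif : Dif (L : Eu (Module.finrank ℝ E) → E) (L.symm : E → Eu (Module.finrank ℝ E))
      (L ⁻¹' W) W :=
    { open' := hW.preimage L.continuous
      open_ := hW
      maps := fun x hx => hx
      maps' := fun y hy => by
        show L (L.symm y) ∈ W
        rwa [L.apply_symm_apply]
      left := fun x _ => L.symm_apply_apply x
      right := fun y _ => L.apply_symm_apply y
      smooth := L.contDiff.contDiffOn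
      smooth' := L.symm.contDiff.contDiffOn }
  have hA' : Conn 𝒢 (L ⁻¹' W) (pb1 L A) (pb2 L F) :=
    hPBC 𝔐 𝒢 (Eu (Module.finrank ℝ E)) E L L.symm (L ⁻¹' W) W A F hd hDif hA
  have hB := hBIA 𝔐 𝒢 (Module.finrank ℝ E) (L ⁻¹' W) (pb1 L A) (pb2 L F) hDif.open' hA'
    (L.symm u) (L.symm v) (L.symm w)
  have e1 : cyc (pb2 L F) (L.symm u) (L.symm v) (L.symm w) = fun k x => cyc F u v w k (L x) := by
    funext k x
    fin_cases k
    · show pb2 L F x ![L.symm v, L.symm w] = F (L x) ![v, w]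
      rw [TRP_pb2, L.apply_symm_apply, L.apply_symm_apply]
    · show pb2 L F x ![L.symm w, L.symm u] = F (L x) ![w, u]
      rw [TRP_pb2, L.apply_symm_apply, L.apply_symm_apply]
    · show pb2 L F x ![L.symm u, L.symm v] = F (L x) ![u, v]
      rw [TRP_pb2, L.apply_symm_apply, L.apply_symm_apply]
  have e2 : (fun k => L ((![L.symm u, L.symm v, L.symm w] :
      Fin 3 → Eu (Module.finrank ℝ E)) k)) = ![u, v, w] := by
    funext k
    fin_cases k
    · exact L.apply_symm_apply u
    · exact L.apply_symm_apply v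
    · exact L.apply_symm_apply w
  rw [e1] at hB
  have h := (hDLI 𝔐 (Eu (Module.finrank ℝ E)) E L W A 3 ![L.symm u, L.symm v, L.symm w]
    (cyc F u v w) (fun _ => 0)).1 hB
  rw [e2] at h
  exact h

end Pool.TIW
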