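import Pool.Agent.Work.MP_a1f430_wb.Interface3

set_option autoImplicit false

namespace Pool.TIW

open Pool.TIA
open MeasureTheory Set Filter Topology
open scoped ContDiff ENNReal

theorem DCJ_one (J : Eu 1 →L[ℝ] Eu 1) : ¬ Cpx J := by
  intro h
  set e : Eu 1 := EuclideanSpace.single 0 (1 : ℝ) with he
  have hall : ∀ v : Eu 1, v = (v 0) • e := by
    intro v
    ext i
    have hi : i = 0 := Subsingleton.elim _ _
    subst hi
    simp [he]
  have h1 := h e
  have h2 : J e = (J e 0) • e := hall _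
  have h3 : J (J e) = ((J e 0) * (J e 0)) • e := by
    have h6 : J (J e) = J ((J e 0) • e) := congrArg J h2
    rw [h6, map_smul]
    nth_rewrite 2 [h2]
    rw [smul_smul]
  rw [h3] at h1
  have h4 := congrArg (fun v : Eu 1 => v 0) h1
  simp [he] at h4
  have h5 : 0 ≤ (J e 0) * (J e 0) := mul_self_nonneg _
  simp only [he] at h5
  linarith

theorem DCJ_two (n : ℕ) (J : Eu (n + 2) →L[ℝ] Eu (n + 2)) (hJ : Cpx J) :
    ∃ (J' : Eu n →L[ℝ] Eu n) (L : (Eu n × ℂ) ≃L[ℝ] Eu (n + 2)), Cpx J' ∧
      ∀ p, L (JC J' p) = J (L p) := by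
  classical
  set u : Eu (n + 2) := EuclideanSpace.single 0 (1 : ℝ) with hu
  have huu : inner ℝ u u = (1 : ℝ) := by simp [hu]
  set c : ℂ := (1 : ℂ) - Complex.I * ((inner ℝ u (J u) : ℝ) : ℂ) with hc
  have hc0 : c ≠ 0 := by
    intro h0
    have := congrArg Complex.re h0
    simp [hc] at this
  -- the complex linear functional
  let φ : Eu (n + 2) →ₗ[ℝ] ℂ :=
    { toFun := fun v => c⁻¹ * (((inner ℝ u v : ℝ) : ℂ) - Complex.I * ((inner ℝ u (J v) : ℝ) : ℂ))
      map_add' := fun v w => by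
        simp only [map_add, inner_add_right, Complex.ofReal_add]
        ring
      map_smul' := fun r v => by
        simp only [map_smul, inner_smul_right, Complex.ofReal_mul, RingHom.id_apply,
          Complex.real_smul]
        ring }
  have hφ : ∀ v, φ v = c⁻¹ * (((inner ℝ u v : ℝ) : ℂ) -
      Complex.I * ((inner ℝ u (J v) : ℝ) : ℂ)) := fun v => rfl
  have hφu : φ u = 1 := by
    rw [hφ, huu, Complex.ofReal_one]
    exact inv_mul_cancel₀ hc0
  have hφJ : ∀ v, φ (J v) = Complex.I * φ v := by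
    intro v
    rw [hφ, hφ, hJ v, inner_neg_right, Complex.ofReal_neg]
    have hI : Complex.I * Complex.I = -1 := Complex.I_mul_I
    linear_combination (c⁻¹ * ((inner ℝ u (J v) : ℝ) : ℂ)) * hI
  have hφz : ∀ z : ℂ, φ (z.re • u + z.im • J u) = z := by
    intro z
    rw [map_add, map_smul, map_smul, hφJ, hφu, mul_one, Complex.real_smul, Complex.real_smul,
      mul_one]
    exact Complex.re_add_im z
  have hsurj : LinearMap.range φ = ⊤ := by
    rw [LinearMap.range_eq_top]
    exact fun z => ⟨_, hφz z⟩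
  have hdim : Module.finrank ℝ (LinearMap.ker φ) = n := by
    have h1 := LinearMap.finrank_range_add_finrank_ker φ
    rw [hsurj, finrank_top, Complex.finrank_real_complex, finrank_euclideanSpace_fin] at h1
    omega
  have hdim' : Module.finrank ℝ (Eu n) = Module.finrank ℝ (LinearMap.ker φ) := by
    rw [hdim, finrank_euclideanSpace_fin]
  let e : Eu n ≃ₗ[ℝ] LinearMap.ker φ := LinearEquiv.ofFinrankEq _ _ hdim'
  have hK : ∀ x ∈ LinearMap.ker φ, (J : Eu (n + 2) →ₗ[ℝ] Eu (n + 2)) x ∈ LinearMap.ker φ := by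
    intro x hx
    rw [LinearMap.mem_ker] at hx ⊢
    change φ (J x) = 0
    rw [hφJ, hx, mul_zero]
  let JK : LinearMap.ker φ →ₗ[ℝ] LinearMap.ker φ :=
    (J : Eu (n + 2) →ₗ[ℝ] Eu (n + 2)).restrict hK
  have hJK : ∀ x : LinearMap.ker φ, ((JK x : LinearMap.ker φ) : Eu (n + 2)) = J (x : Eu (n + 2)) :=
    fun x => rfl
  let J0 : Eu n →ₗ[ℝ] Eu n := e.symm.toLinearMap ∘ₗ JK ∘ₗ e.toLinearMap
  have hJ0 : ∀ v, e (J0 v) = JK (e v) := by
    intro v
    change e (e.symm (JK (e v))) = JK (e v)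
    exact e.apply_symm_apply _
  let L1 : (Eu n × ℂ) →ₗ[ℝ] Eu (n + 2) :=
    { toFun := fun p => ((e p.1 : LinearMap.ker φ) : Eu (n + 2)) + (p.2.re • u + p.2.im • J u)
      map_add' := fun p q => by
        simp only [Prod.fst_add, Prod.snd_add, map_add, Submodule.coe_add, Complex.add_re,
          Complex.add_im, add_smul]
        abel
      map_smul' := fun r p => by
        simp only [Prod.smul_fst, Prod.smul_snd, map_smul, Submodule.coe_smul, RingHom.id_apply,
          Complex.smul_re, Complex.smul_im, smul_eq_mul, smul_add, mul_smul] }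
  have hL1 : ∀ p, L1 p = ((e p.1 : LinearMap.ker φ) : Eu (n + 2)) +
      (p.2.re • u + p.2.im • J u) := fun p => rfl
  have hφL : ∀ p, φ (L1 p) = p.2 := by
    intro p
    rw [hL1, map_add, hφz, LinearMap.mem_ker.mp (e p.1).2, zero_add]
  have hinj : Function.Injective L1 := by
    rw [injective_iff_map_eq_zero]
    intro p hp
    have h2 : p.2 = 0 := by rw [← hφL p, hp, map_zero]
    rw [hL1, h2] at hp
    simp only [Complex.zero_re, Complex.zero_im, zero_smul, add_zero] at hp
    have h1 : e p.1 = 0 := Subtype.ext hp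
    have h3 : p.1 = 0 := e.map_eq_zero_iff.mp h1
    exact Prod.ext h3 h2
  have hd2 : Module.finrank ℝ (Eu n × ℂ) = Module.finrank ℝ (Eu (n + 2)) := by
    rw [Module.finrank_prod, finrank_euclideanSpace_fin, finrank_euclideanSpace_fin,
      Complex.finrank_real_complex]
  let L2 : (Eu n × ℂ) ≃ₗ[ℝ] Eu (n + 2) := LinearMap.linearEquivOfInjective L1 hinj hd2
  have hL2 : ∀ p, L2 p = L1 p := fun p => rfl
  refine ⟨LinearMap.toContinuousLinearMap J0, L2.toContinuousLinearEquiv, ?_, ?_⟩
  · intro v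
    change J0 (J0 v) = -v
    apply e.injective
    rw [hJ0, hJ0, map_neg]
    apply Subtype.ext
    rw [hJK, hJK, hJ]
    rfl
  · intro p
    obtain ⟨v, z⟩ := p
    rw [JC_apply]
    change L2 (J0 v, Complex.I * z) = J (L2 (v, z))
    rw [hL2, hL2, hL1, hL1]
    simp only
    rw [hJ0, hJK, map_add, map_add, map_smul, map_smul, hJ u]
    simp only [Complex.mul_re, Complex.mul_im, Complex.I_re, Complex.I_im, zero_mul, one_mul,
      zero_sub, zero_add, neg_smul, smul_neg]
    abel

theorem p_DCJ : Stmt_DCJ := ⟨DCJ_one, DCJ_two⟩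

end Pool.TIW
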