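import Pool.Agent.Work.MP_a1f430_wb.Interface
import Pool.Agent.Work.MP_a1f430_ti.B_KT
import Pool.Agent.Work.MP_a1f430_ti.B_APC
import Pool.Agent.Work.MP_a1f430_ti.B_PRD

/-! # Block DCV: covariance of identities in divergence form -/

set_option autoImplicit false

namespace Pool.TIW

open Pool.TIA
open MeasureTheory Set Filter Topology
open scoped ContDiff ENNReal

/-- Convergence in `L¹`. -/
structure DCV_cv {α 𝔐 : Type} [MeasurableSpace α] [NormedAddCommGroup 𝔐] (μ : Measure α)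
    (f : ℕ → α → 𝔐) (f0 : α → 𝔐) : Prop where
  m : ∀ j, Integrable (f j) μ
  m0 : Integrable f0 μ
  lim : Tendsto (fun j => eLpNorm (fun x => f j x - f0 x) 1 μ) atTop (𝓝 0)

theorem DCV_const {α 𝔐 : Type} [MeasurableSpace α] [NormedAddCommGroup 𝔐] (μ : Measure α)
    (f0 : α → 𝔐) (h : Integrable f0 μ) : DCV_cv μ (fun _ => f0) f0 := by
  refine ⟨fun _ => h, h, ?_⟩
  have : (fun _ : ℕ => eLpNorm (fun x => f0 x - f0 x) 1 μ) = fun _ => 0 := by
    funext j
    simp
  rw [this]
  exact tendsto_const_nhds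

theorem DCV_intR {α 𝔐 : Type} [MeasurableSpace α] [NormedRing 𝔐] (μ : Measure α)
    (f h : α → 𝔐) (hf : Integrable f μ) (hm : AEStronglyMeasurable h μ)
    (hb : ∀ᵐ x ∂μ, ‖h x‖ ≤ 1) : Integrable (fun x => f x * h x) μ := by
  refine hf.norm.mono' (hf.1.mul hm) ?_
  filter_upwards [hb] with x hx
  calc ‖f x * h x‖ ≤ ‖f x‖ * ‖h x‖ := norm_mul_le _ _
    _ ≤ ‖f x‖ * 1 := mul_le_mul_of_nonneg_left hx (norm_nonneg _)
    _ = ‖f x‖ := mul_one _

theorem DCV_intL {α 𝔐 : Type} [MeasurableSpace α] [NormedRing 𝔐] (μ : Measure α)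
    (f h : α → 𝔐) (hf : Integrable f μ) (hm : AEStronglyMeasurable h μ)
    (hb : ∀ᵐ x ∂μ, ‖h x‖ ≤ 1) : Integrable (fun x => h x * f x) μ := by
  refine hf.norm.mono' (hm.mul hf.1) ?_
  filter_upwards [hb] with x hx
  calc ‖h x * f x‖ ≤ ‖h x‖ * ‖f x‖ := norm_mul_le _ _
    _ ≤ 1 * ‖f x‖ := mul_le_mul_of_nonneg_right hx (norm_nonneg _)
    _ = ‖f x‖ := one_mul _

theorem DCV_mulR {α 𝔐 : Type} [MeasurableSpace α] [NormedRing 𝔐] (μ : Measure α)
    (f : ℕ → α → 𝔐) (f0 : α → 𝔐) (H : ℕ → α → 𝔐) (h : α → 𝔐) (hf : DCV_cv μ f f0)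
    (hH : ∀ j, AEStronglyMeasurable (H j) μ) (hh : AEStronglyMeasurable h μ)
    (hb : ∀ j x, ‖H j x‖ ≤ 1) (hb0 : ∀ᵐ x ∂μ, ‖h x‖ ≤ 1)
    (hlim : ∀ᵐ x ∂μ, Tendsto (fun j => H j x) atTop (𝓝 (h x))) :
    DCV_cv μ (fun j x => f j x * H j x) (fun x => f0 x * h x) := by
  refine ⟨fun j => DCV_intR μ _ _ (hf.m j) (hH j) (Eventually.of_forall (hb j)),
    DCV_intR μ _ _ hf.m0 hh hb0, ?_⟩
  have h1 : Tendsto (fun j => eLpNorm (fun x => f0 x * H j x - f0 x * h x) 1 μ) atTop (𝓝 0) := by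
    refine KT_dct μ (fun j x => f0 x * H j x) (fun x => f0 x * h x) (fun x => 2 * ‖f0 x‖)
      (fun j => hf.m0.1.mul (hH j)) (hf.m0.1.mul hh) (hf.m0.norm.const_mul 2) ?_ ?_
    · intro j
      filter_upwards [hb0] with x hx
      have e1 := norm_sub_le (f0 x * H j x) (f0 x * h x)
      have e2 := norm_mul_le (f0 x) (H j x)
      have e3 := norm_mul_le (f0 x) (h x)
      have e4 := mul_le_mul_of_nonneg_left (hb j x) (norm_nonneg (f0 x))
      have e5 := mul_le_mul_of_nonneg_left hx (norm_nonneg (f0 x))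
      linarith
    · filter_upwards [hlim] with x hx
      exact hx.const_mul (f0 x)
  have h2 : Tendsto (fun j => eLpNorm (fun x => f j x - f0 x) 1 μ +
      eLpNorm (fun x => f0 x * H j x - f0 x * h x) 1 μ) atTop (𝓝 0) := by
    have := hf.lim.add h1
    simpa using this
  refine tendsto_of_tendsto_of_tendsto_of_le_of_le tendsto_const_nhds h2 (fun _ => zero_le)
    fun j => ?_
  have h3 : (fun x => f j x * H j x - f0 x * h x) = fun x =>
      (f j x - f0 x) * H j x + (f0 x * H j x - f0 x * h x) := by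
    funext x
    noncomm_ring
  show eLpNorm (fun x => f j x * H j x - f0 x * h x) 1 μ ≤ _
  rw [h3]
  refine (eLpNorm_add_le (((hf.m j).1.sub hf.m0.1).mul (hH j))
    ((hf.m0.1.mul (hH j)).sub (hf.m0.1.mul hh)) le_rfl).trans ?_
  refine add_le_add ?_ le_rfl
  refine eLpNorm_mono fun x => ?_
  calc ‖(f j x - f0 x) * H j x‖ ≤ ‖f j x - f0 x‖ * ‖H j x‖ := norm_mul_le _ _
    _ ≤ ‖f j x - f0 x‖ * 1 := mul_le_mul_of_nonneg_left (hb j x) (norm_nonneg _)
    _ = ‖f j x - f0 x‖ := mul_one _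

theorem DCV_mulL {α 𝔐 : Type} [MeasurableSpace α] [NormedRing 𝔐] (μ : Measure α)
    (f : ℕ → α → 𝔐) (f0 : α → 𝔐) (H : ℕ → α → 𝔐) (h : α → 𝔐) (hf : DCV_cv μ f f0)
    (hH : ∀ j, AEStronglyMeasurable (H j) μ) (hh : AEStronglyMeasurable h μ)
    (hb : ∀ j x, ‖H j x‖ ≤ 1) (hb0 : ∀ᵐ x ∂μ, ‖h x‖ ≤ 1)
    (hlim : ∀ᵐ x ∂μ, Tendsto (fun j => H j x) atTop (𝓝 (h x))) :
    DCV_cv μ (fun j x => H j x * f j x) (fun x => h x * f0 x) := by
  refine ⟨fun j => DCV_intL μ _ _ (hf.m j) (hH j) (Eventually.of_forall (hb j)),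
    DCV_intL μ _ _ hf.m0 hh hb0, ?_⟩
  have h1 : Tendsto (fun j => eLpNorm (fun x => H j x * f0 x - h x * f0 x) 1 μ) atTop (𝓝 0) := by
    refine KT_dct μ (fun j x => H j x * f0 x) (fun x => h x * f0 x) (fun x => 2 * ‖f0 x‖)
      (fun j => (hH j).mul hf.m0.1) (hh.mul hf.m0.1) (hf.m0.norm.const_mul 2) ?_ ?_
    · intro j
      filter_upwards [hb0] with x hx
      have e1 := norm_sub_le (H j x * f0 x) (h x * f0 x)
      have e2 := norm_mul_le (H j x) (f0 x)
      have e3 := norm_mul_le (h x) (f0 x)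
      have e4 := mul_le_mul_of_nonneg_right (hb j x) (norm_nonneg (f0 x))
      have e5 := mul_le_mul_of_nonneg_right hx (norm_nonneg (f0 x))
      linarith
    · filter_upwards [hlim] with x hx
      exact hx.mul_const (f0 x)
  have h2 : Tendsto (fun j => eLpNorm (fun x => f j x - f0 x) 1 μ +
      eLpNorm (fun x => H j x * f0 x - h x * f0 x) 1 μ) atTop (𝓝 0) := by
    have := hf.lim.add h1
    simpa using this
  refine tendsto_of_tendsto_of_tendsto_of_le_of_le tendsto_const_nhds h2 (fun _ => zero_le)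
    fun j => ?_
  have h3 : (fun x => H j x * f j x - h x * f0 x) = fun x =>
      H j x * (f j x - f0 x) + (H j x * f0 x - h x * f0 x) := by
    funext x
    noncomm_ring
  show eLpNorm (fun x => H j x * f j x - h x * f0 x) 1 μ ≤ _
  rw [h3]
  refine (eLpNorm_add_le ((hH j).mul ((hf.m j).1.sub hf.m0.1))
    (((hH j).mul hf.m0.1).sub (hh.mul hf.m0.1)) le_rfl).trans ?_
  refine add_le_add ?_ le_rfl
  refine eLpNorm_mono fun x => ?_
  calc ‖H j x * (f j x - f0 x)‖ ≤ ‖H j x‖ * ‖f j x - f0 x‖ := norm_mul_le _ _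
    _ ≤ 1 * ‖f j x - f0 x‖ := mul_le_mul_of_nonneg_right (hb j x) (norm_nonneg _)
    _ = ‖f j x - f0 x‖ := one_mul _

/-- Integrability of `b • f` for `b` continuous with support in `K`. -/
theorem DCV_smul {E 𝔐 : Type} [NormedAddCommGroup E] [NormedSpace ℝ E] [FiniteDimensional ℝ E]
    [MeasureSpace E] [BorelSpace E] [NormedAddCommGroup 𝔐] [NormedSpace ℝ 𝔐] {K : Set E}
    (hK : IsCompact K) {b : E → ℝ} (hb : Continuous b) (hbK : ∀ x, x ∉ K → b x = 0)
    {f : E → 𝔐} (hf : Integrable f (volume.restrict K)) : Integrable (fun x => b x • f x) := by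
  have h2 : IntegrableOn (fun x => b x • f x) K volume :=
    IntegrableOn.continuousOn_smul hf hb.continuousOn hK
  refine (integrableOn_iff_integrable_of_support_subset ?_).mp h2
  intro x hx
  by_contra hxK
  exact hx (by simp [hbK x hxK])

theorem DCV_lim {E 𝔐 : Type} [NormedAddCommGroup E] [NormedSpace ℝ E] [FiniteDimensional ℝ E]
    [MeasureSpace E] [BorelSpace E] [NormedRing 𝔐] [NormedAlgebra ℝ 𝔐] {K : Set E}
    (hK : IsCompact K) {b : E → ℝ} (hb : Continuous b) (hbK : ∀ x, x ∉ K → b x = 0)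
    {f : ℕ → E → 𝔐} {f0 : E → 𝔐} (hf : DCV_cv (volume.restrict K) f f0) :
    Tendsto (fun j => ∫ x, b x • f j x) atTop (𝓝 (∫ x, b x • f0 x)) := by
  obtain ⟨C, hC⟩ := hK.exists_bound_of_continuousOn hb.continuousOn
  have e1 : ∀ z : E → 𝔐, ∫ x, b x • z x = ∫ x in K, b x • z x := fun z =>
    (setIntegral_eq_integral_of_forall_compl_eq_zero fun x hx => by simp [hbK x hx]).symm
  simp_rw [e1]
  refine tendsto_integral_of_L1' _ (DCV_smul hK hb hbK hf.m0).integrableOn.1
    (Eventually.of_forall fun j => (DCV_smul hK hb hbK (hf.m j)).integrableOn) ?_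
  refine PRD_mono _ C _ (fun j x => ‖f j x - f0 x‖) (fun j => ?_) ?_
  · refine (ae_restrict_iff' hK.measurableSet).mpr (Eventually.of_forall fun x hx => ?_)
    have e2 : ((fun x => b x • f j x) - fun x => b x • f0 x) x = b x • (f j x - f0 x) := by
      simp only [Pi.sub_apply]
      rw [smul_sub]
    rw [e2, norm_smul]
    exact mul_le_mul_of_nonneg_right (hC x hx) (norm_nonneg _)
  · simp only [eLpNorm_norm]
    exact hf.lim

theorem DCV_mul {α 𝔐 : Type} [NormedRing 𝔐] [MeasurableSpace α] (μ : Measure α)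
    (f g : α → 𝔐) (fj gj : ℕ → α → 𝔐) (hf : MemLp f 2 μ) (hg : MemLp g 2 μ)
    (hfj : ∀ j, MemLp (fj j) 2 μ) (hgj : ∀ j, MemLp (gj j) 2 μ)
    (h1 : Tendsto (fun j => eLpNorm (fun x => fj j x - f x) 2 μ) atTop (𝓝 0))
    (h2 : Tendsto (fun j => eLpNorm (fun x => gj j x - g x) 2 μ) atTop (𝓝 0)) :
    DCV_cv μ (fun j x => fj j x * gj j x) (fun x => f x * g x) :=
  ⟨fun j => (hfj j).integrable_mul (hgj j), hf.integrable_mul hg,
    APC_mul μ f g fj gj hf hg (fun j => (hfj j).1) (fun j => (hgj j).1) h1 h2⟩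

theorem DCV_self {α 𝔐 : Type} [NormedRing 𝔐] [MeasurableSpace α] (μ : Measure α)
    (f : α → 𝔐) : Tendsto (fun _ : ℕ => eLpNorm (fun x => f x - f x) 2 μ) atTop (𝓝 0) := by
  have : (fun _ : ℕ => eLpNorm (fun x => f x - f x) 2 μ) = fun _ => 0 := by
    funext j
    simp
  rw [this]
  exact tendsto_const_nhds

/-- the pointwise identity -/
theorem DCV_alg {𝔐 : Type} [NormedRing 𝔐] [StarRing 𝔐] (g Z a a' d : 𝔐)
    (h : d = g * a' - a * g) (ha : star a = -a) (ha' : star a' = -a') :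
    star g * (a * Z - Z * a) * g - (star d * Z * g + star g * (Z * d)) =
      a' * (star g * Z * g) - star g * Z * g * a' := by
  have h1 : star d = star g * a - a' * star g := by
    rw [h, star_sub, star_mul, star_mul, ha, ha']
    noncomm_ring
  rw [h1, h]
  noncomm_ring

theorem p_DCV (hLIE : Pool.TIA.Stmt_LIE) (hAPG : Pool.TIA.Stmt_APG) (hCTE : Stmt_CTE) :
    Stmt_DCV := by
  intro 𝔐 _ _ _ _ _ _ 𝒢 E _ _ _ _ _ _ W A A' g dg m v Z R hW hA hAl hG hZ hR hdiv φ hφ
  obtain ⟨hL1, hL2, -⟩ := hLIE 𝔐 𝒢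
  have hK : IsCompact (tsupport φ) := hφ.cpt
  have hKW := hφ.sub
  have hKm : MeasurableSet (tsupport φ) := hK.measurableSet
  have hfin : IsFiniteMeasure (volume.restrict (tsupport φ) : Measure E) :=
    ⟨by simpa using hK.measure_lt_top⟩
  have hgb : ∀ᵐ x ∂(volume.restrict W), ‖g x‖ ≤ 1 := by
    filter_upwards [hG.inG] with x hx
    exact hL2 _ hx
  obtain ⟨G, hGs, hGb, hG0, hG1⟩ := hAPG E 𝔐 W g dg 1 hW hG.g2 hG.dg2 hG.wd hgb zero_le_one
    (tsupport φ) hK hKW
  have mg : MemLp g 2 (volume.restrict (tsupport φ)) := hG.g2 _ hK hKW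
  have mcont : ∀ {z : E → 𝔐}, Continuous z → MemLp z 2 (volume.restrict (tsupport φ)) := by
    intro z hz
    obtain ⟨C, hC⟩ := hK.exists_bound_of_continuousOn hz.continuousOn
    refine MemLp.of_bound hz.aestronglyMeasurable C ?_
    exact (ae_restrict_iff' hKm).mpr (Eventually.of_forall hC)
  have hGm : ∀ j, AEStronglyMeasurable (G j) (volume.restrict (tsupport φ)) := fun j =>
    (hGs j).continuous.aestronglyMeasurable
  obtain ⟨ns, hns, hae⟩ := (tendstoInMeasure_of_tendsto_eLpNorm (p := 2) (by norm_num)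
    hGm mg.1 hG0).exists_seq_tendsto_ae
  obtain ⟨H, hH⟩ : ∃ H : ℕ → E → 𝔐, H = fun j => G (ns j) := ⟨_, rfl⟩
  have hHs : ∀ j, ContDiff ℝ ∞ (H j) := fun j => by rw [hH]; exact hGs _
  have hHb : ∀ j x, ‖H j x‖ ≤ 1 := fun j x => by rw [hH]; exact hGb _ _
  have hHc : ∀ j, Continuous (H j) := fun j => (hHs j).continuous
  have hH1 : Tendsto (fun j => eLpNorm (fun x => fderiv ℝ (H j) x - dg x) 2
      (volume.restrict (tsupport φ))) atTop (𝓝 0) := by
    rw [hH]
    exact hG1.comp hns.tendsto_atTop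
  have hHae : ∀ᵐ x ∂(volume.restrict (tsupport φ)), Tendsto (fun j => H j x) atTop (𝓝 (g x)) := by
    rw [hH]
    exact hae
  have hHsae : ∀ᵐ x ∂(volume.restrict (tsupport φ)),
      Tendsto (fun j => star (H j x)) atTop (𝓝 (star (g x))) := by
    filter_upwards [hHae] with x hx
    exact (continuous_star.tendsto _).comp hx
  have hgbK : ∀ᵐ x ∂(volume.restrict (tsupport φ)), ‖g x‖ ≤ 1 :=
    ae_restrict_of_ae_restrict_of_subset hKW hgb
  have hgbKs : ∀ᵐ x ∂(volume.restrict (tsupport φ)), ‖star (g x)‖ ≤ 1 := by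
    filter_upwards [hgbK] with x hx
    rw [norm_star]
    exact hx
  have hHm : ∀ j, AEStronglyMeasurable (H j) (volume.restrict (tsupport φ)) := fun j =>
    (hHc j).aestronglyMeasurable
  have hHms : ∀ j, AEStronglyMeasurable (fun x => star (H j x))
      (volume.restrict (tsupport φ)) := fun j =>
    (continuous_star.comp (hHc j)).aestronglyMeasurable
  have mgs : AEStronglyMeasurable (fun x => star (g x)) (volume.restrict (tsupport φ)) :=
    continuous_star.comp_aestronglyMeasurable mg.1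
  have hHbs : ∀ j x, ‖star (H j x)‖ ≤ 1 := fun j x => by rw [norm_star]; exact hHb j x
  -- the derivative in a direction
  have mdg : ∀ u : E, MemLp (fun x => dg x u) 2 (volume.restrict (tsupport φ)) := fun u =>
    (ContinuousLinearMap.apply ℝ 𝔐 u).comp_memLp' (hG.dg2 _ hK hKW)
  have mdgs : ∀ u : E, MemLp (fun x => star (dg x u)) 2 (volume.restrict (tsupport φ)) := fun u =>
    MemLp.of_le (mdg u) (continuous_star.comp_aestronglyMeasurable (mdg u).1)
      (Eventually.of_forall fun x => by rw [norm_star])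
  have cd : ∀ (j : ℕ) (u : E), Continuous (fun x => fderiv ℝ (H j) x u) := fun j u =>
    ((hHs j).continuous_fderiv (by simp)).clm_apply continuous_const
  have hdir : ∀ u : E, Tendsto (fun j => eLpNorm (fun x => fderiv ℝ (H j) x u - dg x u) 2
      (volume.restrict (tsupport φ))) atTop (𝓝 0) := by
    intro u
    have h1 : ∀ j, eLpNorm (fun x => fderiv ℝ (H j) x u - dg x u) 2
        (volume.restrict (tsupport φ)) ≤ ‖u‖₊ * eLpNorm (fun x => fderiv ℝ (H j) x - dg x) 2
        (volume.restrict (tsupport φ)) := by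
      intro j
      have h2 := eLpNorm_le_nnreal_smul_eLpNorm_of_ae_le_mul (c := ‖u‖₊)
        (f := fun x => fderiv ℝ (H j) x u - dg x u) (g := fun x => fderiv ℝ (H j) x - dg x)
        (μ := volume.restrict (tsupport φ)) (Eventually.of_forall fun x => by
          have h3 := (fderiv ℝ (H j) x - dg x).le_opNNNorm u
          rw [mul_comm]
          exact h3) 2
      exact h2
    have h4 : Tendsto (fun j => (‖u‖₊ : ℝ≥0∞) * eLpNorm (fun x => fderiv ℝ (H j) x - dg x) 2
        (volume.restrict (tsupport φ))) atTop (𝓝 0) := by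
      have := ENNReal.Tendsto.const_mul hH1 (a := (‖u‖₊ : ℝ≥0∞)) (Or.inr ENNReal.coe_ne_top)
      simpa using this
    exact tendsto_of_tendsto_of_tendsto_of_le_of_le tendsto_const_nhds h4 (fun _ => zero_le) h1
  have hdirs : ∀ u : E, Tendsto (fun j => eLpNorm (fun x => star (fderiv ℝ (H j) x u) -
      star (dg x u)) 2 (volume.restrict (tsupport φ))) atTop (𝓝 0) := by
    intro u
    refine (hdir u).congr fun j => ?_
    refine eLpNorm_congr_norm_ae (Eventually.of_forall fun x => ?_)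
    rw [← star_sub, norm_star]
  have mZ : ∀ k, MemLp (Z k) 2 (volume.restrict (tsupport φ)) := fun k => hZ k _ hK hKW
  -- the right-hand side
  obtain ⟨R₀, hR₀⟩ : ∃ R₀ : E → 𝔐, R₀ = fun x =>
      (∑ k, (A x (v k) * Z k x - Z k x * A x (v k))) - R x := ⟨_, rfl⟩
  have hAv : ∀ u : E, L2loc W (fun x => A x u) := by
    intro u K hK hKW
    exact (ContinuousLinearMap.apply ℝ 𝔐 u).comp_memLp' (hA K hK hKW)
  have hR₀1 : L1loc W R₀ := by
    intro K hK hKW
    rw [hR₀]
    refine Integrable.sub ?_ (hR K hK hKW)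
    refine integrable_finsetSum _ fun k _ => ?_
    exact Integrable.sub ((hAv (v k) K hK hKW).integrable_mul (hZ k K hK hKW))
      ((hZ k K hK hKW).integrable_mul (hAv (v k) K hK hKW))
  have hZ1 : ∀ k, L1loc W (Z k) := by
    intro k K hK hKW
    have : IsFiniteMeasure (volume.restrict K : Measure E) :=
      ⟨by simpa using hK.measure_lt_top⟩
    exact (hZ k K hK hKW).integrable one_le_two
  have hZ1K : ∀ k, Integrable (Z k) (volume.restrict (tsupport φ)) := fun k => hZ1 k _ hK hKW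
  have hR₀K : Integrable R₀ (volume.restrict (tsupport φ)) := hR₀1 _ hK hKW
  -- convergences
  have cvA : ∀ k, DCV_cv (volume.restrict (tsupport φ))
      (fun j x => star (H j x) * Z k x * H j x) (fun x => star (g x) * Z k x * g x) := fun k =>
    DCV_mulR _ _ _ H g (DCV_mulL _ _ _ _ _ (DCV_const _ _ (hZ1K k)) hHms mgs hHbs hgbKs hHsae)
      hHm mg.1 hHb hgbK hHae
  have cvD : DCV_cv (volume.restrict (tsupport φ))
      (fun j x => star (H j x) * R₀ x * H j x) (fun x => star (g x) * R₀ x * g x) :=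
    DCV_mulR _ _ _ H g (DCV_mulL _ _ _ _ _ (DCV_const _ _ hR₀K) hHms mgs hHbs hgbKs hHsae)
      hHm mg.1 hHb hgbK hHae
  have cvB : ∀ k, DCV_cv (volume.restrict (tsupport φ))
      (fun j x => star (fderiv ℝ (H j) x (v k)) * Z k x * H j x)
      (fun x => star (dg x (v k)) * Z k x * g x) := fun k =>
    DCV_mulR _ _ _ H g (DCV_mul _ _ _ (fun j x => star (fderiv ℝ (H j) x (v k)))
      (fun _ => Z k) (mdgs (v k)) (mZ k)
      (fun j => mcont (continuous_star.comp (cd j (v k)))) (fun _ => mZ k) (hdirs (v k))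
      (DCV_self _ _)) hHm mg.1 hHb hgbK hHae
  have cvC : ∀ k, DCV_cv (volume.restrict (tsupport φ))
      (fun j x => star (H j x) * (Z k x * fderiv ℝ (H j) x (v k)))
      (fun x => star (g x) * (Z k x * dg x (v k))) := fun k =>
    DCV_mulL _ _ _ _ _ (DCV_mul _ _ _ (fun _ => Z k) (fun j x => fderiv ℝ (H j) x (v k))
      (mZ k) (mdg (v k)) (fun _ => mZ k)
      (fun j => mcont (cd j (v k))) (DCV_self _ _) (hdir (v k))) hHms mgs hHbs hgbKs hHsae
  -- the weights
  have c0 : Continuous φ := hφ.smooth.continuous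
  have c1 : ∀ u : E, Continuous (fun x => fderiv ℝ φ x u) := fun u =>
    (hφ.smooth.continuous_fderiv (by simp)).clm_apply continuous_const
  have z0 : ∀ x, x ∉ tsupport φ → φ x = 0 := fun x hx => image_eq_zero_of_notMem_tsupport hx
  have z1 : ∀ u x, x ∉ tsupport φ → fderiv ℝ φ x u = 0 := by
    intro u x hx
    have : fderiv ℝ φ x = 0 :=
      image_eq_zero_of_notMem_tsupport (fun h => hx (tsupport_fderiv_subset ℝ h))
    rw [this]
    rfl
  -- the identity for smooth functions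
  have key : ∀ j, (∑ k, ((∫ x, fderiv ℝ φ x (v k) • (star (H j x) * Z k x * H j x)) +
      (∫ x, φ x • (star (fderiv ℝ (H j) x (v k)) * Z k x * H j x)) +
      ∫ x, φ x • (star (H j x) * (Z k x * fderiv ℝ (H j) x (v k))))) =
      ∫ x, φ x • (star (H j x) * R₀ x * H j x) := by
    intro j
    have hPs : tsupport (fun x => φ x • star (H j x)) ⊆ tsupport φ :=
      closure_mono fun x hx => by
        intro h0
        exact hx (by simp [h0])
    have hPc : HasCompactSupport (fun x => φ x • star (H j x)) :=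
      hK.of_isClosed_subset (isClosed_tsupport _) hPs
    have hst : ContDiff ℝ ∞ (fun x => star (H j x)) :=
      (starL' ℝ : 𝔐 ≃L[ℝ] 𝔐).contDiff.comp (hHs j)
    have := hCTE 𝔐 E W m v Z R₀ hW hZ1 hR₀1 (by rw [hR₀]; exact hdiv)
      (fun x => φ x • star (H j x)) (H j) (hφ.smooth.smul hst) hPc (hPs.trans hKW) (hHs j)
    have hd : ∀ x u, fderiv ℝ (fun x => φ x • star (H j x)) x u =
        φ x • star (fderiv ℝ (H j) x u) + fderiv ℝ φ x u • star (H j x) := by
      intro x u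
      have hda : DifferentiableAt ℝ φ x := hφ.smooth.differentiable (by simp) x
      have hdb : DifferentiableAt ℝ (H j) x := (hHs j).differentiable (by simp) x
      have hdc : HasFDerivAt (fun x => star (H j x))
          (((starL' ℝ : 𝔐 ≃L[ℝ] 𝔐) : 𝔐 →L[ℝ] 𝔐) ∘L fderiv ℝ (H j) x) x :=
        ((starL' ℝ : 𝔐 ≃L[ℝ] 𝔐) : 𝔐 →L[ℝ] 𝔐).hasFDerivAt.comp x hdb.hasFDerivAt
      have hdd := hda.hasFDerivAt.smul hdc
      have hde : fderiv ℝ (fun x => φ x • star (H j x)) x = _ := hdd.fderiv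
      rw [hde]
      rfl
    have e1 : ∀ x, (∑ k, (fderiv ℝ (fun x => φ x • star (H j x)) x (v k) * Z k x * H j x +
        (φ x • star (H j x)) * Z k x * fderiv ℝ (H j) x (v k))) =
        ∑ k, (fderiv ℝ φ x (v k) • (star (H j x) * Z k x * H j x) +
          φ x • (star (fderiv ℝ (H j) x (v k)) * Z k x * H j x) +
          φ x • (star (H j x) * (Z k x * fderiv ℝ (H j) x (v k)))) := by
      intro x
      refine Finset.sum_congr rfl fun k _ => ?_
      rw [hd]
      simp only [add_mul, smul_mul_assoc, mul_assoc]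
      abel
    have e2 : ∀ x, (φ x • star (H j x)) * R₀ x * H j x =
        φ x • (star (H j x) * R₀ x * H j x) := by
      intro x
      simp only [smul_mul_assoc]
    simp only [e1, e2] at this
    rw [← this, integral_finsetSum]
    · refine Finset.sum_congr rfl fun k _ => ?_
      rw [integral_add, integral_add]
      · exact DCV_smul hK (c1 _) (z1 _) ((cvA k).m j)
      · exact DCV_smul hK c0 z0 ((cvB k).m j)
      · exact (DCV_smul hK (c1 _) (z1 _) ((cvA k).m j)).add (DCV_smul hK c0 z0 ((cvB k).m j))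
      · exact DCV_smul hK c0 z0 ((cvC k).m j)
    · intro k _
      exact ((DCV_smul hK (c1 _) (z1 _) ((cvA k).m j)).add
        (DCV_smul hK c0 z0 ((cvB k).m j))).add (DCV_smul hK c0 z0 ((cvC k).m j))
  -- the limit
  have l1 := tendsto_finsetSum (Finset.univ : Finset (Fin m)) fun k _ =>
    ((DCV_lim hK (c1 (v k)) (z1 (v k)) (cvA k)).add (DCV_lim hK c0 z0 (cvB k))).add
      (DCV_lim hK c0 z0 (cvC k))
  simp_rw [key] at l1
  have l2 := tendsto_nhds_unique l1 (DCV_lim hK c0 z0 cvD)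
  -- conclusion
  have hae1 := (ae_restrict_iff' hW.measurableSet).1 hG.eq
  have hae2 := (ae_restrict_iff' hW.measurableSet).1 hAl
  have hae3 := (ae_restrict_iff' hW.measurableSet).1 hG.lie'
  have e3 : ∫ x, φ x • ((∑ k, (A' x (v k) * (star (g x) * Z k x * g x) -
      star (g x) * Z k x * g x * A' x (v k))) - star (g x) * R x * g x) =
      ∫ x, (φ x • (star (g x) * R₀ x * g x) - ∑ k, (φ x • (star (dg x (v k)) * Z k x * g x) +
        φ x • (star (g x) * (Z k x * dg x (v k))))) := by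
    refine integral_congr_ae ?_
    filter_upwards [hae1, hae2, hae3] with x h1 h2 h3
    by_cases hx : x ∈ tsupport φ
    · have hxW := hKW hx
      have h4 : ∀ k, star (g x) * (A x (v k) * Z k x - Z k x * A x (v k)) * g x -
          (star (dg x (v k)) * Z k x * g x + star (g x) * (Z k x * dg x (v k))) =
          A' x (v k) * (star (g x) * Z k x * g x) - star (g x) * Z k x * g x * A' x (v k) :=
        fun k => DCV_alg _ _ _ _ _ (h1 hxW (v k)) (hL1 _ (h2 hxW (v k))) (hL1 _ (h3 hxW (v k)))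
      simp only [← h4]
      rw [hR₀]
      simp only [← smul_add, ← Finset.smul_sum, ← smul_sub]
      congr 1
      rw [Finset.sum_sub_distrib, mul_sub, sub_mul, Finset.mul_sum, Finset.sum_mul]
      abel
    · simp [z0 x hx]
  show ∫ x, ∑ k, fderiv ℝ φ x (v k) • (star (g x) * Z k x * g x) = _
  rw [e3, integral_sub, integral_finsetSum, integral_finsetSum, ← l2, ← Finset.sum_sub_distrib]
  · refine Finset.sum_congr rfl fun k _ => ?_
    rw [integral_add (DCV_smul hK c0 z0 (cvB k).m0) (DCV_smul hK c0 z0 (cvC k).m0)]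
    abel
  · intro k _
    exact (DCV_smul hK c0 z0 (cvB k).m0).add (DCV_smul hK c0 z0 (cvC k).m0)
  · intro k _
    exact DCV_smul hK (c1 _) (z1 _) (cvA k).m0
  · exact DCV_smul hK c0 z0 cvD.m0
  · exact integrable_finsetSum _ fun k _ =>
      (DCV_smul hK c0 z0 (cvB k).m0).add (DCV_smul hK c0 z0 (cvC k).m0)

end Pool.TIW
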