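import Pool.Agent.Work.MP_a1f430_wb.Interface2
import Pool.Agent.Work.MP_a1f430_wb.B_BIT
import Pool.Agent.Work.MP_a1f430_wb.B_BLB

/-! # Block FTR: regularity where the equation is of finite type (MP_a1f430, THEOREM FT) -/

set_option autoImplicit false

namespace Pool.TIW

open Pool.TIA
open MeasureTheory Set Filter Topology
open scoped ContDiff ENNReal

/-- half of the wedge product of two linear forms -/
noncomputable def FTR_rho {E : Type} [NormedAddCommGroup E] [NormedSpace ℝ E]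
    (α β : E →L[ℝ] ℝ) : E [⋀^Fin 2]→L[ℝ] ℝ where
  toFun v := (1 / 2) * (α (v 0) * β (v 1) - α (v 1) * β (v 0))
  map_update_add' := by
    intro _ v i x y
    fin_cases i
    · simp
      ring
    · simp
      ring
  map_update_smul' := by
    intro _ v i c x
    fin_cases i
    · simp
      ring
    · simp
      ring
  cont := by fun_prop
  map_eq_zero_of_eq' := by
    intro v i j hij hne
    fin_cases i <;> fin_cases j
    · exact absurd rfl hne
    · have h : v 0 = v 1 := hij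
      show (1 / 2) * (α (v 0) * β (v 1) - α (v 1) * β (v 0)) = 0
      rw [h]
      ring
    · have h : v 1 = v 0 := hij
      show (1 / 2) * (α (v 0) * β (v 1) - α (v 1) * β (v 0)) = 0
      rw [h]
      ring
    · exact absurd rfl hne

theorem FTR_rho_apply {E : Type} [NormedAddCommGroup E] [NormedSpace ℝ E]
    (α β : E →L[ℝ] ℝ) (u v : E) :
    FTR_rho α β ![u, v] = (1 / 2) * (α u * β v - α v * β u) := rfl

/-- a two-form is linear in the first variable -/
noncomputable def FTR_lm {E 𝔐 : Type} [NormedAddCommGroup E] [NormedSpace ℝ E] [NormedRing 𝔐]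
    [NormedAlgebra ℝ 𝔐] (F : E [⋀^Fin 2]→L[ℝ] 𝔐) (v : E) : E →ₗ[ℝ] 𝔐 where
  toFun u := F ![u, v]
  map_add' u u' := F.toAlternatingMap.map_vecCons_add ![v] u u'
  map_smul' c u := F.toAlternatingMap.map_vecCons_smul ![v] c u

theorem FTR_exp {E 𝔐 κ : Type} [NormedAddCommGroup E] [NormedSpace ℝ E] [NormedRing 𝔐]
    [NormedAlgebra ℝ 𝔐] [Fintype κ] (e : κ → E) (ξ : κ → E →L[ℝ] ℝ)
    (hξ : ∀ v, ∑ c, ξ c v • e c = v) (F : E [⋀^Fin 2]→L[ℝ] 𝔐) (u v : E) :
    F ![u, v] = ∑ j : κ × κ, FTR_rho (ξ j.1) (ξ j.2) ![u, v] • F ![e j.1, e j.2] := by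
  have h1 : ∀ a b : E, F ![a, b] = ∑ c, ξ c a • F ![e c, b] := by
    intro a b
    have h := congrArg (FTR_lm F b) (hξ a)
    rw [map_sum] at h
    rw [show F ![a, b] = FTR_lm F b a from rfl, ← h]
    refine Finset.sum_congr rfl fun c _ => ?_
    rw [map_smul]
    rfl
  have h2 : ∀ a b : E, F ![a, b] = ∑ j : κ × κ, (ξ j.1 a * ξ j.2 b) • F ![e j.1, e j.2] := by
    intro a b
    rw [h1, Fintype.sum_prod_type]
    refine Finset.sum_congr rfl fun c _ => ?_
    rw [BIT_swap F b (e c), h1 b (e c), ← Finset.sum_neg_distrib, Finset.smul_sum]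
    refine Finset.sum_congr rfl fun d _ => ?_
    rw [← smul_neg, ← BIT_swap F (e d) (e c), smul_smul]
  have h3 : F ![u, v] = (1 / 2 : ℝ) • (F ![u, v] - F ![v, u]) := by
    rw [BIT_swap F u v, sub_neg_eq_add, ← two_smul ℝ, smul_smul]
    norm_num
  rw [h3, h2 u v, h2 v u, ← Finset.sum_sub_distrib, Finset.smul_sum]
  refine Finset.sum_congr rfl fun j _ => ?_
  rw [FTR_rho_apply, ← sub_smul, smul_smul]

section

variable {E : Type} [NormedAddCommGroup E] [NormedSpace ℝ E] [FiniteDimensional ℝ E]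
  [MeasureSpace E] [BorelSpace E] [(volume : Measure E).IsAddHaarMeasure]
variable {𝔐 : Type} [NormedRing 𝔐] [NormedAlgebra ℝ 𝔐] [StarRing 𝔐]

omit [FiniteDimensional ℝ E] [BorelSpace E] [(volume : Measure E).IsAddHaarMeasure]
  [StarRing 𝔐] in
theorem FTR_div (W : Set E) (A : E → E →L[ℝ] 𝔐) (v : E) (Z R : E → 𝔐) :
    Div W A ![v] ![Z] R ↔ ∀ φ : E → ℝ, Test W φ →
      ∫ x, fderiv ℝ φ x v • Z x = ∫ x, φ x • ((A x v * Z x - Z x * A x v) - R x) := by
  unfold Div
  simp only [Fin.sum_univ_one, Matrix.cons_val_zero]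

omit [FiniteDimensional ℝ E] [StarRing 𝔐] in
/-- linear combinations of the equations -/
theorem FTR_lin {κ : Type} [Fintype κ] (W : Set E) (A : E → E →L[ℝ] 𝔐) (Z : E → 𝔐)
    (e : κ → E) (R : κ → E → 𝔐) (t : κ → ℝ) (hA : L2loc W A) (hZ : L2loc W Z)
    (hR : ∀ c, ∀ K : Set E, IsCompact K → K ⊆ W → IntegrableOn (R c) K volume)
    (hd : ∀ c, Div W A ![e c] ![Z] (R c)) :
    Div W A ![∑ c, t c • e c] ![Z] (fun x => ∑ c, t c • R c x) := by
  rw [FTR_div]
  intro φ hφ
  have hL : ∀ c, Integrable (fun x => fderiv ℝ φ x (e c) • Z x) := fun c =>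
    BIT_int (BIT_test hφ (e c)) (BIT_L1 hZ)
  have hRi : ∀ c, Integrable
      (fun x => φ x • ((A x (e c) * Z x - Z x * A x (e c)) - R c x)) := fun c =>
    BIT_int hφ fun K hK hKW =>
      ((BIT_mul (BIT_evA hA (e c)) hZ K hK hKW).sub
        (BIT_mul hZ (BIT_evA hA (e c)) K hK hKW)).sub (hR c K hK hKW)
  have h1 : (fun x => fderiv ℝ φ x (∑ c, t c • e c) • Z x)
      = fun x => ∑ c, t c • (fderiv ℝ φ x (e c) • Z x) := by
    funext x
    rw [map_sum, Finset.sum_smul]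
    refine Finset.sum_congr rfl fun c _ => ?_
    rw [map_smul, smul_assoc]
  have h2 : (fun x => φ x • ((A x (∑ c, t c • e c) * Z x - Z x * A x (∑ c, t c • e c))
        - ∑ c, t c • R c x))
      = fun x => ∑ c, t c • (φ x • ((A x (e c) * Z x - Z x * A x (e c)) - R c x)) := by
    funext x
    rw [map_sum, Finset.sum_mul, Finset.mul_sum, ← Finset.sum_sub_distrib,
      ← Finset.sum_sub_distrib, Finset.smul_sum]
    refine Finset.sum_congr rfl fun c _ => ?_
    rw [map_smul, smul_mul_assoc, mul_smul_comm, ← smul_sub, ← smul_sub, smul_comm]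
  have hL' : ∀ c, Integrable (fun x => t c • (fderiv ℝ φ x (e c) • Z x)) := fun c =>
    (hL c).smul (t c)
  have hRi' : ∀ c, Integrable
      (fun x => t c • (φ x • ((A x (e c) * Z x - Z x * A x (e c)) - R c x))) := fun c =>
    (hRi c).smul (t c)
  rw [h1, h2, integral_finsetSum _ fun c _ => hL' c, integral_finsetSum _ fun c _ => hRi' c]
  refine Finset.sum_congr rfl fun c _ => ?_
  rw [integral_smul, integral_smul, (FTR_div W A (e c) Z (R c)).1 (hd c) φ hφ]

end

theorem p_FTR (hBIA : Stmt_BIA) (hFTA : Stmt_FTA) (hFTS : Stmt_FTS) (hIND : Stmt_IND) :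
    Stmt_FTR := by
  intro 𝔐 _ _ _ _ _ _ 𝒢 m U h Ω A F hW x hx hFT
  obtain ⟨N, q, p, K1, K2, hN, hxN, hNU, hp, hK1, hK2, hst, hid⟩ :=
    hFTA m U h Ω x hW.op hW.metric hW.smooth hx hFT
  have hc : Conn 𝒢 N A F := BLB_conn_mono hNU hW.conn
  have hbi : ∀ u v w : Eu (m + 4), Div N A ![u, v, w] (cyc F u v w) (fun _ => 0) :=
    hBIA 𝔐 𝒢 (m + 4) N A F hN hc
  have hae : ∀ᵐ y ∂(volume.restrict N), ∀ i,
      ∑ a, ∑ c, p i a c y • F y ![stb (m + 4) a, stb (m + 4) c] = 0 := by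
    have h1 := ae_mono (Measure.restrict_mono hNU le_rfl) hW.star
    filter_upwards [h1, ae_restrict_mem hN.measurableSet] with y hy hyN i
    exact hst 𝔐 y hyN (F y) hy i
  have hdiv := hFTS 𝔐 𝒢 (m + 4) q N A F p K1 K2 hN hc hbi hp hK1 hK2 hae hid
  -- coordinates
  let ξ : Fin (m + 4) → Eu (m + 4) →L[ℝ] ℝ := fun c =>
    LinearMap.toContinuousLinearMap ((stb (m + 4)).coord c)
  have hξ : ∀ v : Eu (m + 4), ∑ c, ξ c v • stb (m + 4) c = v := fun v =>
    (stb (m + 4)).sum_repr v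
  let G : Fin (m + 4) → Fin (m + 4) → Fin (m + 4) → Fin (m + 4) → Fin (m + 4) →
      Eu (m + 4) → ℝ := fun c a b a' b' y =>
    -∑ i, ∑ d, K1 c a b i d y * fderiv ℝ (p i a' b') y (stb (m + 4) d)
  have hG : ∀ c a b a' b', ContDiffOn ℝ ∞ (G c a b a' b') N := by
    intro c a b a' b'
    refine ContDiffOn.neg (ContDiffOn.sum fun i _ => ContDiffOn.sum fun d _ => ?_)
    refine (hK1 c a b i d).mul ?_
    have h1 : ContDiffOn ℝ ∞ (fderiv ℝ (p i a' b')) N :=
      (hp i a' b').fderiv_of_isOpen hN (by simp)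
    exact h1.clm_apply contDiffOn_const
  let Z : Fin (m + 4) × Fin (m + 4) → Eu (m + 4) → 𝔐 := fun j y =>
    F y ![stb (m + 4) j.1, stb (m + 4) j.2]
  have hZ : ∀ j, L2loc N (Z j) := fun j =>
    BIT_evF hc.F2 ![stb (m + 4) j.1, stb (m + 4) j.2]
  let Γ : Fin (m + 4) × Fin (m + 4) → Fin (m + 4) × Fin (m + 4) → Eu (m + 4) →
      Eu (m + 4) →L[ℝ] ℝ := fun j j' y => ∑ c, G c j.1 j.2 j'.1 j'.2 y • ξ c
  let ρ : Fin (m + 4) × Fin (m + 4) → Eu (m + 4) → Eu (m + 4) [⋀^Fin 2]→L[ℝ] ℝ :=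
    fun j _ => FTR_rho (ξ j.1) (ξ j.2)
  have hRint : ∀ (c : Fin (m + 4)) (j : Fin (m + 4) × Fin (m + 4)), ∀ K : Set (Eu (m + 4)),
      IsCompact K → K ⊆ N → IntegrableOn (fun y => ∑ j' : Fin (m + 4) × Fin (m + 4),
        G c j.1 j.2 j'.1 j'.2 y • Z j' y) K volume := by
    intro c j K hK hKN
    refine integrable_finsetSum _ fun j' _ => ?_
    exact (BIT_L1 (hZ j') K hK hKN).continuousOn_smul
      ((hG c j.1 j.2 j'.1 j'.2).continuousOn.mono hKN) hK
  have hsys : Sys 𝒢 N A F Z Γ ρ := by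
    refine ⟨hN, hc, hZ, ?_, ?_, ?_, ?_⟩
    · intro j j'
      exact ContDiffOn.sum fun c _ => (hG c j.1 j.2 j'.1 j'.2).smul contDiffOn_const
    · intro j
      exact contDiffOn_const
    · intro j v
      have h1 := FTR_lin N A (Z j) (fun c => stb (m + 4) c)
        (fun c y => ∑ j' : Fin (m + 4) × Fin (m + 4), G c j.1 j.2 j'.1 j'.2 y • Z j' y)
        (fun c => ξ c v) hc.A2 (hZ j) (fun c => hRint c j) (fun c => by
          have h2 := hdiv c j.1 j.2
          have h3 : (fun y => ∑ j' : Fin (m + 4) × Fin (m + 4),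
              G c j.1 j.2 j'.1 j'.2 y • Z j' y) = fun y => ∑ a', ∑ b',
              G c j.1 j.2 a' b' y • F y ![stb (m + 4) a', stb (m + 4) b'] := by
            funext y
            rw [Fintype.sum_prod_type]
          show Div N A ![stb (m + 4) c] ![Z j] (fun y => ∑ j' : Fin (m + 4) × Fin (m + 4),
              G c j.1 j.2 j'.1 j'.2 y • Z j' y)
          rw [h3]
          exact h2)
      have h4 : (fun y => ∑ j', Γ j j' y v • Z j' y)
          = fun y => ∑ c, ξ c v • ∑ j' : Fin (m + 4) × Fin (m + 4),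
            G c j.1 j.2 j'.1 j'.2 y • Z j' y := by
        funext y
        have h5 : ∀ j', Γ j j' y v • Z j' y
            = ∑ c, ξ c v • (G c j.1 j.2 j'.1 j'.2 y • Z j' y) := by
          intro j'
          have h6 : Γ j j' y v = ∑ c, G c j.1 j.2 j'.1 j'.2 y * ξ c v := by
            show (∑ c, G c j.1 j.2 j'.1 j'.2 y • ξ c) v = _
            rw [sum_apply]
            rfl
          rw [h6, Finset.sum_smul]
          refine Finset.sum_congr rfl fun c _ => ?_
          rw [smul_smul, mul_comm]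
        rw [Finset.sum_congr rfl fun j' _ => h5 j', Finset.sum_comm]
        refine Finset.sum_congr rfl fun c _ => ?_
        rw [Finset.smul_sum]
      rw [h4]
      rw [hξ v] at h1
      exact h1
    · refine Filter.Eventually.of_forall fun y u v => ?_
      exact FTR_exp (fun c => stb (m + 4) c) ξ hξ (F y) u v
  obtain ⟨W₁, S, g, dg, Y, hW₁, hxW₁, -, hGau, hS, hSl, -, -⟩ :=
    hIND 𝔐 𝒢 (m + 4) N A F (Fin (m + 4) × Fin (m + 4)) Z Γ ρ hsys x hxN
  refine ⟨W₁, S, hW₁, hxW₁, hS, hSl, g, dg, hGau.g2, hGau.dg2, hGau.wd, hGau.inG, ?_⟩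
  filter_upwards [hGau.inG, hGau.eq] with y hy1 hy2 v
  have h3 := (𝒢.unitary _ hy1).1
  rw [hy2 v, mul_sub, ← mul_assoc, h3, one_mul, ← mul_assoc, sub_add_cancel]

end Pool.TIW
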