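import Pool.Agent.Work.MP_a1f430_wb.Interface2

set_option autoImplicit false

namespace Pool.TIW

open Pool.TIA
open MeasureTheory Set Filter Topology
open scoped ContDiff ENNReal

theorem GCO_alg {𝔐 : Type} [Ring 𝔐] (g h a a' a'' : 𝔐) :
    (g * a' - a * g) * h + g * (h * a'' - a' * h) = g * h * a'' - a * (g * h) := by
  noncomm_ring

theorem p_GCO (h1 : Pool.TIA.Stmt_LIE) (h2 : Pool.TIA.Stmt_PRD) : Stmt_GCO := by
  intro 𝔐 _ _ _ _ _ _ 𝒢 E _ _ _ _ _ _ W A A' A'' g h dg dh hW hA hA'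
  obtain ⟨-, hn, -⟩ := h1 𝔐 𝒢
  obtain ⟨dk, hdk'⟩ : ∃ dk : E → E →L[ℝ] 𝔐, dk = fun x =>
    ((ContinuousLinearMap.mul ℝ 𝔐).flip (h x)).comp (dg x) +
      ((ContinuousLinearMap.mul ℝ 𝔐) (g x)).comp (dh x) := ⟨_, rfl⟩
  have hdk : ∀ x v, dk x v = dg x v * h x + g x * dh x v := by
    intro x v
    simp [hdk']
  obtain ⟨k1, k2, k3⟩ := h2 𝔐 E W g h dg dh dk hW hA.g2 hA.dg2 hA.wd hA'.g2 hA'.dg2 hA'.wd
    (by
      filter_upwards [hA.inG, hA'.inG] with x a b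
      exact ⟨hn _ a, hn _ b⟩)
    (Eventually.of_forall fun x v => hdk x v)
  refine ⟨dk, k1, k2, k3, ?_, hA'.A2', hA'.lie', ?_⟩
  · filter_upwards [hA.inG, hA'.inG] with x a b
    exact 𝒢.mul_mem _ a _ b
  · filter_upwards [hA.eq, hA'.eq] with x b c
    intro v
    rw [hdk, b v, c v]
    exact GCO_alg _ _ _ _ _

end Pool.TIW
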