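import Pool.Agent.Work.MP_a1f430_wb.Interface3

/-! # Block RPG (MP_a1f430): almost all values are values of the continuous representative -/

set_option autoImplicit false

namespace Pool.TIW

open Pool.TIA
open MeasureTheory Set Filter Topology
open scoped ContDiff ENNReal

theorem RPG_aesm {E X : Type} [NormedAddCommGroup E] [NormedSpace ℝ E] [FiniteDimensional ℝ E]
    [MeasureSpace E] [BorelSpace E] [(volume : Measure E).IsAddHaarMeasure]
    [NormedAddCommGroup X] {U : Set E} {f : E → X} (hU : IsOpen U) (h : L2loc U f) :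
    AEStronglyMeasurable f (volume.restrict U) := by
  have : ProperSpace E := FiniteDimensional.proper_real E
  have h2 : LocallyIntegrableOn f U volume := by
    rw [locallyIntegrableOn_iff hU.isLocallyClosed]
    intro K hK hKc
    have : IsFiniteMeasure (volume.restrict K) := ⟨by
      rw [Measure.restrict_apply_univ]
      exact hKc.measure_lt_top⟩
    exact (h K hKc hK).integrable (by norm_num)
  exact h2.aestronglyMeasurable

/-- The averages converge to the value of the continuous representative. -/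
theorem RPG_avg {X : Type} [NormedAddCommGroup X] [NormedSpace ℝ X] [CompleteSpace X]
    {D : Set ℂ} (hD : IsOpen D) {u c : ℂ → X} (hc : ContinuousOn c D)
    (hu : ∀ᵐ z ∂(volume.restrict D), u z = c z) {z : ℂ} (hz : z ∈ D) :
    Tendsto (fun n : ℕ => (volume.real (Metric.ball (0 : ℂ) (1 / ((n : ℝ) + 1))))⁻¹ •
      ∫ ζ, (Metric.ball z (1 / ((n : ℝ) + 1))).indicator u ζ) atTop (𝓝 (c z)) := by
  rw [Metric.tendsto_atTop]
  intro ε hε
  have hcz : ContinuousAt c z := hc.continuousAt (hD.mem_nhds hz)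
  obtain ⟨δ₁, hδ₁, h1⟩ := Metric.continuousAt_iff.1 hcz (ε / 2) (by positivity)
  obtain ⟨δ₂, hδ₂, h2⟩ := Metric.isOpen_iff.1 hD z hz
  obtain ⟨N, hN⟩ := exists_nat_one_div_lt (lt_min hδ₁ hδ₂)
  refine ⟨N, fun n hn => ?_⟩
  set ρ : ℝ := 1 / ((n : ℝ) + 1) with hρ
  have hρ0 : 0 < ρ := by positivity
  have hρN : ρ < min δ₁ δ₂ := by
    refine lt_of_le_of_lt ?_ hN
    rw [hρ]
    apply one_div_le_one_div_of_le (by positivity)
    have : (N : ℝ) ≤ n := by exact_mod_cast hn
    linarith
  have hρ1 : ρ < δ₁ := lt_of_lt_of_le hρN (min_le_left _ _)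
  have hρ2 : ρ < δ₂ := lt_of_lt_of_le hρN (min_le_right _ _)
  have hBD : Metric.ball z ρ ⊆ D := (Metric.ball_subset_ball hρ2.le).trans h2
  have hvol : volume.real (Metric.ball (0 : ℂ) ρ) = volume.real (Metric.ball z ρ) := by
    rw [measureReal_def, measureReal_def, Measure.addHaar_ball_center volume z ρ]
  have hvpos : 0 < volume.real (Metric.ball z ρ) := by
    rw [measureReal_def]
    exact ENNReal.toReal_pos (Metric.measure_ball_pos volume z hρ0).ne' measure_ball_lt_top.ne
  have hint : ∫ ζ, (Metric.ball z ρ).indicator u ζ = ∫ ζ in Metric.ball z ρ, c ζ := by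
    rw [integral_indicator measurableSet_ball]
    exact integral_congr_ae (ae_mono (Measure.restrict_mono hBD le_rfl) hu)
  have hci : IntegrableOn c (Metric.ball z ρ) volume := by
    refine IntegrableOn.of_bound measure_ball_lt_top ?_ (‖c z‖ + ε / 2) ?_
    · exact (hc.mono hBD).aestronglyMeasurable measurableSet_ball
    · filter_upwards [ae_restrict_mem measurableSet_ball] with ζ hζ
      have h3 : dist (c ζ) (c z) < ε / 2 := h1 (lt_trans (Metric.mem_ball.1 hζ) hρ1)
      rw [dist_eq_norm] at h3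
      calc ‖c ζ‖ = ‖c z + (c ζ - c z)‖ := by rw [add_sub_cancel]
        _ ≤ ‖c z‖ + ‖c ζ - c z‖ := norm_add_le _ _
        _ ≤ ‖c z‖ + ε / 2 := by linarith
  have hsub : ∫ ζ in Metric.ball z ρ, (c ζ - c z) =
      (∫ ζ in Metric.ball z ρ, c ζ) - volume.real (Metric.ball z ρ) • c z := by
    rw [integral_sub hci (integrableOn_const measure_ball_lt_top.ne), setIntegral_const]
  have hb : ‖∫ ζ in Metric.ball z ρ, (c ζ - c z)‖ ≤ ε / 2 * volume.real (Metric.ball z ρ) := by
    apply norm_setIntegral_le_of_norm_le_const measure_ball_lt_top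
    intro ζ hζ
    have h3 : dist (c ζ) (c z) < ε / 2 := h1 (lt_trans (Metric.mem_ball.1 hζ) hρ1)
    rw [dist_eq_norm] at h3
    exact h3.le
  rw [dist_eq_norm, hvol, hint]
  have hfin : (volume.real (Metric.ball z ρ))⁻¹ • (∫ ζ in Metric.ball z ρ, c ζ) - c z =
      (volume.real (Metric.ball z ρ))⁻¹ • ∫ ζ in Metric.ball z ρ, (c ζ - c z) := by
    rw [hsub, smul_sub, smul_smul, inv_mul_cancel₀ hvpos.ne', one_smul]
  rw [hfin, norm_smul, norm_inv, Real.norm_eq_abs, abs_of_pos hvpos]
  calc (volume.real (Metric.ball z ρ))⁻¹ * ‖∫ ζ in Metric.ball z ρ, (c ζ - c z)‖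
      ≤ (volume.real (Metric.ball z ρ))⁻¹ * (ε / 2 * volume.real (Metric.ball z ρ)) := by gcongr
    _ = ε / 2 := by field_simp
    _ < ε := by linarith

/-- The averages are jointly measurable. -/
theorem RPG_meas {V X : Type} [NormedAddCommGroup V] [MeasurableSpace V] [BorelSpace V]
    [SecondCountableTopology V]
    [NormedAddCommGroup X] [NormedSpace ℝ X] {g : V × ℂ → X} (hg : StronglyMeasurable g) (ρ : ℝ) :
    StronglyMeasurable (fun p : V × ℂ =>
      ∫ ζ, (Metric.ball p.2 ρ).indicator (fun ζ => g (p.1, ζ)) ζ) := by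
  have h1 : StronglyMeasurable (fun q : (V × ℂ) × ℂ =>
      ({q : (V × ℂ) × ℂ | dist q.2 q.1.2 < ρ}.indicator (fun q => g (q.1.1, q.2))) q) := by
    apply StronglyMeasurable.indicator
    · exact hg.comp_measurable (by fun_prop)
    · exact measurableSet_lt (by fun_prop) measurable_const
  exact h1.integral_prod_right' (ν := (volume : Measure ℂ))

theorem p_RPG (hFUB : Stmt_FUB) (_hSL2 : Stmt_SL2) : Stmt_RPG := by
  intro V X _ _ _ _ _ _ _ _ _ W₁ z₀ r f hW hf hc
  have : CompleteSpace X := FiniteDimensional.complete ℝ X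
  have : ProperSpace V := FiniteDimensional.proper_real V
  have hD : IsOpen (Metric.ball z₀ r) := Metric.isOpen_ball
  have hfm := RPG_aesm (hW.prod hD) hf
  set g : V × ℂ → X := hfm.mk f with hg
  have hgm : StronglyMeasurable g := hfm.stronglyMeasurable_mk
  have hfg : ∀ᵐ p ∂(volume.restrict (W₁ ×ˢ Metric.ball z₀ r)), (f - g) p = 0 := by
    filter_upwards [hfm.ae_eq_mk] with p hp
    simp only [Pi.sub_apply, sub_eq_zero]
    exact hp
  obtain ⟨hA, hB⟩ := hFUB V ℂ X W₁ (Metric.ball z₀ r) (f - g) hW hD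
    (hfm.sub hgm.aestronglyMeasurable)
  have hA := hA.1 hfg
  have hB := hB.1 hfg
  let m : ℕ → V × ℂ → X := fun n p => (volume.real (Metric.ball (0 : ℂ) (1 / ((n : ℝ) + 1))))⁻¹ •
      ∫ ζ, (Metric.ball p.2 (1 / ((n : ℝ) + 1))).indicator (fun ζ => g (p.1, ζ)) ζ
  have hm : ∀ n, StronglyMeasurable (m n) := fun n => (RPG_meas hgm _).const_smul _
  let M : V × ℂ → X := fun p => limUnder atTop (fun n => m n p)
  have hM : StronglyMeasurable M := StronglyMeasurable.limUnder hm
  have key : ∀ (w : V) (c : ℂ → X), ContinuousOn c (Metric.ball z₀ r) →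
      (∀ᵐ z ∂(volume.restrict (Metric.ball z₀ r)), g (w, z) = c z) →
      ∀ z ∈ Metric.ball z₀ r, M (w, z) = c z := by
    intro w c hc1 hc2 z hz
    exact (RPG_avg hD hc1 hc2 hz).limUnder_eq
  obtain ⟨hC, hE⟩ := hFUB V ℂ X W₁ (Metric.ball z₀ r) (g - M) hW hD
    (hgm.sub hM).aestronglyMeasurable
  have hC := hE.1 (hC.2 (by
    filter_upwards [hc, hA] with w hw hwA
    obtain ⟨c, hc1, hc2⟩ := hw
    have hc3 : ∀ᵐ z ∂(volume.restrict (Metric.ball z₀ r)), g (w, z) = c z := by
      filter_upwards [hc2, hwA] with z h1 h2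
      rw [← h1]
      exact (sub_eq_zero.1 h2).symm
    filter_upwards [hc3, ae_restrict_mem measurableSet_ball] with z h1 h2
    simp only [Pi.sub_apply, sub_eq_zero]
    rw [key w c hc1 hc3 z h2, h1]))
  filter_upwards [hC, hB, ae_restrict_mem measurableSet_ball] with z₁ h1 h2 h3
  filter_upwards [h1, h2, hc, hA] with w h4 h5 h6 h7
  obtain ⟨c, hc1, hc2⟩ := h6
  have hc3 : ∀ᵐ z ∂(volume.restrict (Metric.ball z₀ r)), g (w, z) = c z := by
    filter_upwards [hc2, h7] with z h1 h2
    rw [← h1]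
    exact (sub_eq_zero.1 h2).symm
  refine ⟨c, hc1, hc2, ?_⟩
  have h8 : f (w, z₁) = g (w, z₁) := sub_eq_zero.1 h5
  have h9 : g (w, z₁) = M (w, z₁) := sub_eq_zero.1 h4
  show f (w, z₁) = c z₁
  rw [h8, h9, key w c hc1 hc3 z₁ h3]

end Pool.TIW
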