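import Pool.Agent.Work.MP_a1f430_ti.Interface

/-! # The Bianchi identity for all weak connections, blocks (MP_a1f430, THEOREM WB, helper24)

Block `X` lives in `Pool/Agent/Work/MP_a1f430_wb/B_X.lean` (import this file, namespace `Pool.TIW`, the
`open` lines of this file) and proves `theorem p_X : Stmt_X` or
`theorem p_X (h1 : Stmt_Y) ... : Stmt_X` with the statements of the column `uses` as hypotheses in
that order (`TI.Y` = `Pool.TIA.Stmt_Y`).  Auxiliary lemmas have the prefix `X_`.  Finished files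
`MP_a1f430_ti/B_Y.lean` may be imported for their auxiliary lemmas.

`𝔐` is a finite-dimensional real `C^*`-algebra, `𝒢` a closed group of unitaries with its Lie algebra.
THE THEOREM: for every `A ∈ L²_loc` with curvature `F = dA + A ∧ A ∈ L²_loc` (distributions) the Bianchi
identity holds in the sense of distributions.  PROOF: (1) for every direction `∂_t` there is a gauge
`g ∈ W^{1,2}_loc` in which `A'(∂_t) = 0` (KT4); the curvature of `A'` is `star g F g` (CG2).  (2) In this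
gauge `∂_t A'_v = F'(∂_t, v)`, and the `(∂_t, u, v)` component of the identity is the product rule in
the direction `∂_t` (BIT).  (3) The identity is covariant under gauge changes in `W^{1,2}` (DCV), and
`∂_t` can be every direction (DLI, DLO, BIA). -/

set_option autoImplicit false

namespace Pool.TIW

open Pool.TIA
open MeasureTheory Set Filter Topology
open scoped ContDiff ENNReal

section defs

variable {E : Type} [NormedAddCommGroup E] [NormedSpace ℝ E] [MeasureSpace E]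
variable {𝔐 : Type} [NormedRing 𝔐] [NormedAlgebra ℝ 𝔐] [StarRing 𝔐]

/-- Locally integrable on `W`. -/
def L1loc {X : Type} [NormedAddCommGroup X] (W : Set E) (f : E → X) : Prop :=
  ∀ K : Set E, IsCompact K → K ⊆ W → IntegrableOn f K volume

/-- The gauge change `g ∈ W^{1,2}_loc(W, G)` transforms `A` into `A'` : `dg = g A' - A g`. -/
structure Gau (𝒢 : LieG 𝔐) (W : Set E) (A A' : E → E →L[ℝ] 𝔐) (g : E → 𝔐)
    (dg : E → E →L[ℝ] 𝔐) : Prop where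
  g2 : L2loc W g
  dg2 : L2loc W dg
  wd : WD W g dg
  inG : ∀ᵐ x ∂(volume.restrict W), g x ∈ 𝒢.G
  A2' : L2loc W A'
  lie' : ∀ᵐ x ∂(volume.restrict W), ∀ v, A' x v ∈ 𝒢.lie
  eq : ∀ᵐ x ∂(volume.restrict W), ∀ v, dg x v = g x * A' x v - A x v * g x

/-- `∑ₖ D_{v k} (Z k) = R` on `W` in the sense of distributions, `D_v Z = ∂_v Z + [A v, Z]`. -/
def Div (W : Set E) (A : E → E →L[ℝ] 𝔐) {m : ℕ} (v : Fin m → E) (Z : Fin m → E → 𝔐)
    (R : E → 𝔐) : Prop :=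
  ∀ φ : E → ℝ, Test W φ →
    ∫ x, ∑ k, fderiv ℝ φ x (v k) • Z k x =
      ∫ x, φ x • ((∑ k, (A x (v k) * Z k x - Z k x * A x (v k))) - R x)

/-- `X ↦ star g * (X * g)`. -/
noncomputable def adL (g : 𝔐) : 𝔐 →L[ℝ] 𝔐 :=
  (ContinuousLinearMap.mul ℝ 𝔐 (star g)).comp ((ContinuousLinearMap.mul ℝ 𝔐).flip g)

/-- `star g F g` for a two-form `F`. -/
noncomputable def adF (g : E → 𝔐) (F : E → E [⋀^Fin 2]→L[ℝ] 𝔐) (x : E) : E [⋀^Fin 2]→L[ℝ] 𝔐 :=
  (adL (g x)).compContinuousAlternatingMap (F x)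

/-- The three components `F(v, w), F(w, u), F(u, v)`. -/
noncomputable def cyc (F : E → E [⋀^Fin 2]→L[ℝ] 𝔐) (u v w : E) : Fin 3 → E → 𝔐 :=
  ![fun x => F x ![v, w], fun x => F x ![w, u], fun x => F x ![u, v]]

theorem adL_apply (g X : 𝔐) : adL g X = star g * (X * g) := rfl

omit [MeasureSpace E] in
theorem adF_apply (g : E → 𝔐) (F : E → E [⋀^Fin 2]→L[ℝ] 𝔐) (x : E) (v : Fin 2 → E) :
    adF g F x v = star (g x) * (F x v * g x) := rfl

end defs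

/-! ## Part A: the Lie algebra -/

/-- LBR (120 lines; uses TI.LIE).  `star g = g⁻¹`, `exp (t star g X g) = star g exp (t X) g ∈ G`
(`NormedSpace.exp_units_conj` or similar).  Bracket: `c(t) = exp(-t X) Y exp(t X)` is in `lie` for all
`t` by the first part (`star (exp (t X)) = exp (-t X)` by LIE), `c'(0) = Y X - X Y` is a limit of
elements of the closed subspace `lie`. -/
def Stmt_LBR : Prop :=
  ∀ (𝔐 : Type) [NormedRing 𝔐] [NormedAlgebra ℝ 𝔐] [StarRing 𝔐] [CStarRing 𝔐] [StarModule ℝ 𝔐]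
    [FiniteDimensional ℝ 𝔐] (𝒢 : LieG 𝔐),
    (∀ g ∈ 𝒢.G, ∀ X ∈ 𝒢.lie, star g * X * g ∈ 𝒢.lie) ∧
    ∀ X ∈ 𝒢.lie, ∀ Y ∈ 𝒢.lie, X * Y - Y * X ∈ 𝒢.lie

/-- LCF (120 lines; uses LBR).  Let `l : 𝔐 →L ℝ` vanish on `lie`.  By `IsCurv` and LBR
`∫ φ l(F(u, v)) = 0` for all test functions on `W`, so `l(F x ![u, v]) = 0` for almost all `x ∈ W`
(`IsOpen.ae_eq_zero_of_integral_contDiff_smul_eq_zero`).  Finitely many `l` cut out `lie`, and it is
enough to treat `u, v` in a basis. -/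
def Stmt_LCF : Prop :=
  ∀ (𝔐 : Type) [NormedRing 𝔐] [NormedAlgebra ℝ 𝔐] [StarRing 𝔐] [CStarRing 𝔐] [StarModule ℝ 𝔐]
    [FiniteDimensional ℝ 𝔐] (𝒢 : LieG 𝔐) (E : Type) [NormedAddCommGroup E] [NormedSpace ℝ E]
    [FiniteDimensional ℝ E] [MeasureSpace E] [BorelSpace E]
    [(volume : Measure E).IsAddHaarMeasure] (W : Set E) (A : E → E →L[ℝ] 𝔐)
    (F : E → E [⋀^Fin 2]→L[ℝ] 𝔐), IsOpen W → Conn 𝒢 W A F →
    ∀ᵐ x ∂(volume.restrict W), ∀ u v, F x ![u, v] ∈ 𝒢.lie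

/-! ## Part B: the temporal gauge -/

/-- KA4 (250 lines; uses TI.APC TI.SUB).  As `KA` (adapt `MP_a1f430_ti/B_KA.lean`), without the
hypothesis on `F(∂_t, ·)`: in the last line the difference to `F` tends to `0`. -/
def Stmt_KA4 : Prop :=
  ∀ (𝔐 : Type) [NormedRing 𝔐] [NormedAlgebra ℝ 𝔐] [StarRing 𝔐] [CStarRing 𝔐] [StarModule ℝ 𝔐]
    [FiniteDimensional ℝ 𝔐] (𝒢 : LieG 𝔐) (V : Type) [NormedAddCommGroup V] [NormedSpace ℝ V]
    [FiniteDimensional ℝ V] [MeasureSpace V] [BorelSpace V]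
    [(volume : Measure V).IsAddHaarMeasure] (W : Set (V × ℝ)) (A : V × ℝ → V × ℝ →L[ℝ] 𝔐)
    (F : V × ℝ → (V × ℝ) [⋀^Fin 2]→L[ℝ] 𝔐) (K : Set V) (a b : ℝ), IsOpen W → Conn 𝒢 W A F →
    IsCompact K → a < b → K ×ˢ Icc a b ⊆ W →
    ∃ (B : ℕ → V × ℝ → V × ℝ →L[ℝ] 𝔐) (t₀ : ℝ), t₀ ∈ Icc a b ∧
    (∀ j, ContDiff ℝ ∞ (B j)) ∧ (∀ j, HasCompactSupport (B j)) ∧ (∀ j x v, B j x v ∈ 𝒢.lie) ∧
    Tendsto (fun j => eLpNorm (fun x => B j x - A x) 2 (volume.restrict (K ×ˢ Icc a b)))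
      atTop (𝓝 0) ∧
    MemLp (fun y => A (y, t₀)) 2 (volume.restrict K) ∧
    (∀ᵐ y ∂(volume.restrict K), ∀ v, A (y, t₀) v ∈ 𝒢.lie) ∧
    Tendsto (fun j => eLpNorm (fun y => B j (y, t₀) - A (y, t₀)) 2 (volume.restrict K))
      atTop (𝓝 0) ∧
    (∀ᵐ y ∂(volume.restrict K), Tendsto (fun q : ℕ × ℕ =>
      ∫ s in Icc a b, ‖B q.1 (y, s) - B q.2 (y, s)‖) atTop (𝓝 0)) ∧
    (∀ v : V, Tendsto (fun j => ∫ y in K, ∫ s in Icc a b,
      ‖cur (B j) (y, s) (0, 1) (v, 0) - F (y, s) ![(0, 1), (v, 0)]‖) atTop (𝓝 0)) ∧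
    (∀ᵐ y ∂(volume.restrict K), ∀ v : V,
      MemLp (fun s => F (y, s) ![(0, 1), (v, 0)]) 2 (volume.restrict (Icc a b)))

/-- KB4 (150 lines; uses TI.LIE).  As `KB` (adapt `MP_a1f430_ti/B_KB.lean`): with
`w = D_v g - g A(y, t₀) v + A(y, t) v g` one has `w = 0` for `t = t₀`,
`∂_t w = F(∂_t, v) g - A(∂_t) w`, so `∂_t (star g w) = star g F(∂_t, v) g`. -/
def Stmt_KB4 : Prop :=
  ∀ (𝔐 : Type) [NormedRing 𝔐] [NormedAlgebra ℝ 𝔐] [StarRing 𝔐] [CStarRing 𝔐] [StarModule ℝ 𝔐]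
    [FiniteDimensional ℝ 𝔐] (𝒢 : LieG 𝔐) (V : Type) [NormedAddCommGroup V] [NormedSpace ℝ V]
    [FiniteDimensional ℝ V] (A : V × ℝ → V × ℝ →L[ℝ] 𝔐) (g : V × ℝ → 𝔐) (t₀ : ℝ),
    ContDiff ℝ ∞ A → (∀ p u, A p u ∈ 𝒢.lie) → ContDiff ℝ ∞ g → (∀ p, g p ∈ 𝒢.G) →
    (∀ y, g (y, t₀) = 1) →
    (∀ y t, HasDerivAt (fun s => g (y, s)) (-(A (y, t) (0, 1) * g (y, t))) t) →
    ∀ y v t, fderiv ℝ g (y, t) (v, 0) =
      g (y, t) * A (y, t₀) (v, 0) - A (y, t) (v, 0) * g (y, t) +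
      g (y, t) * ∫ s in t₀..t, star (g (y, s)) * cur A (y, s) (0, 1) (v, 0) * g (y, s)

/-- KT4 (400 lines; uses TI.LIE TI.LOD TI.CLG TI.KC LCF LBR KA4 KB4).  The temporal gauge for every
weak connection; adapt `MP_a1f430_ti/B_KT.lean` (or `B_KT3.lean`; the lemmas `KT_...` there can be
used).  `g_j` = the solutions of LOD for `a = B_j(∂_t)`, `g` their limit (almost everywhere on
`K × [a, b]`, KC).  The derivative of `g_j` in the direction `(v, 0)` (KB4) tends in `L¹` to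
`g A(y, t₀) v - A v g + g c`, `c(y, t) v = ∫_{t₀}^t star g F(∂_t, v) g ds` (the difference of the last
terms: `|∫ star g_j (F_j - F) g_j| ≤ ∫ |F_j - F|` tends to `0` in `L¹` by KA4, and
`∫ |star g_j F g_j - star g F g| ds → 0` in `L¹(K × [a,b])` by dominated convergence, as
`|F(∂_t, v)|` is integrable).  Put `A'(y, t)(v, s) = A(y, t₀)(v, 0) + c(y, t) v` (linear in `v`; choose
`0` on the null set where the integrals do not exist; `|c v|² ≤ (b - a) ∫ |F(∂_t, v)|²` by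
Cauchy-Schwarz gives `A' ∈ L²`; `F` is Lie algebra valued by LCF, so `A'` is by LBR),
`dg v = g A' v - A v g`. -/
def Stmt_KT4 : Prop :=
  ∀ (𝔐 : Type) [NormedRing 𝔐] [NormedAlgebra ℝ 𝔐] [StarRing 𝔐] [CStarRing 𝔐] [StarModule ℝ 𝔐]
    [FiniteDimensional ℝ 𝔐] (𝒢 : LieG 𝔐) (V : Type) [NormedAddCommGroup V] [NormedSpace ℝ V]
    [FiniteDimensional ℝ V] [MeasureSpace V] [BorelSpace V]
    [(volume : Measure V).IsAddHaarMeasure] (W : Set (V × ℝ)) (A : V × ℝ → V × ℝ →L[ℝ] 𝔐)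
    (F : V × ℝ → (V × ℝ) [⋀^Fin 2]→L[ℝ] 𝔐) (K : Set V) (a b : ℝ), IsOpen W → Conn 𝒢 W A F →
    IsCompact K → a < b → K ×ˢ Icc a b ⊆ W →
    ∃ (A' : V × ℝ → V × ℝ →L[ℝ] 𝔐) (g : V × ℝ → 𝔐) (dg : V × ℝ → V × ℝ →L[ℝ] 𝔐),
      Gau 𝒢 (interior K ×ˢ Ioo a b) A A' g dg ∧
      ∀ᵐ p ∂(volume.restrict (interior K ×ˢ Ioo a b)), A' p (0, 1) = 0

/-! ## Part C: covariance -/

/-- CG1 (200 lines; uses TI.APG TI.APC).  For smooth `G`, `B` and `C_v = star G ∂_v G + star G B_v G`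
the expression in the first line is `∂_u C_v - ∂_v C_u` (with
`∂_u B_v - ∂_v B_u = cur B u v - (B_u B_v - B_v B_u)`; the second derivatives of `G` cancel).  Approximate
on a compact neighbourhood of `tsupport φ`: `G_j → g` (APG, `|G_j| ≤ 1`, a subsequence converges
almost everywhere), `B_j → A` (APC); all terms converge in `L¹`. -/
def Stmt_CG1 : Prop :=
  ∀ (𝔐 : Type) [NormedRing 𝔐] [NormedAlgebra ℝ 𝔐] [StarRing 𝔐] [CStarRing 𝔐] [StarModule ℝ 𝔐]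
    [FiniteDimensional ℝ 𝔐] (𝒢 : LieG 𝔐) (E : Type) [NormedAddCommGroup E] [NormedSpace ℝ E]
    [FiniteDimensional ℝ E] [MeasureSpace E] [BorelSpace E]
    [(volume : Measure E).IsAddHaarMeasure] (W : Set E) (A : E → E →L[ℝ] 𝔐)
    (F : E → E [⋀^Fin 2]→L[ℝ] 𝔐) (g : E → 𝔐) (dg : E → E →L[ℝ] 𝔐), IsOpen W → Conn 𝒢 W A F →
    L2loc W g → L2loc W dg → WD W g dg → (∀ᵐ x ∂(volume.restrict W), ‖g x‖ ≤ 1) →
    ∀ φ : E → ℝ, Test W φ → ∀ u v : E,
      ∫ x, φ x • (star (g x) * (F x ![u, v] - (A x u * A x v - A x v * A x u)) * g x +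
        star (dg x u) * (dg x v + A x v * g x) - star (dg x v) * (dg x u + A x u * g x) +
        star (g x) * (A x v * dg x u) - star (g x) * (A x u * dg x v)) =
      -∫ x, (fderiv ℝ φ x u • (star (g x) * dg x v + star (g x) * A x v * g x) -
        fderiv ℝ φ x v • (star (g x) * dg x u + star (g x) * A x u * g x))

/-- CG2 (150 lines; uses TI.LIE LBR CG1).  By `Gau.eq` and `star A = -A`, `star A' = -A'`:
`star (dg v) = -A'_v star g + star g A_v`, `dg v + A_v g = g A'_v`, so the expression of CG1 is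
`star g F g - (A'_u A'_v - A'_v A'_u)` and `star g dg v + star g A_v g = A'_v`. -/
def Stmt_CG2 : Prop :=
  ∀ (𝔐 : Type) [NormedRing 𝔐] [NormedAlgebra ℝ 𝔐] [StarRing 𝔐] [CStarRing 𝔐] [StarModule ℝ 𝔐]
    [FiniteDimensional ℝ 𝔐] (𝒢 : LieG 𝔐) (E : Type) [NormedAddCommGroup E] [NormedSpace ℝ E]
    [FiniteDimensional ℝ E] [MeasureSpace E] [BorelSpace E]
    [(volume : Measure E).IsAddHaarMeasure] (W : Set E) (A A' : E → E →L[ℝ] 𝔐)
    (F : E → E [⋀^Fin 2]→L[ℝ] 𝔐) (g : E → 𝔐) (dg : E → E →L[ℝ] 𝔐), IsOpen W → Conn 𝒢 W A F →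
    Gau 𝒢 W A A' g dg → Conn 𝒢 W A' (adF g F)

/-- GIN (60 lines; uses TI.LIE TI.WCL).  The inverse gauge change, as `GSM`. -/
def Stmt_GIN : Prop :=
  ∀ (𝔐 : Type) [NormedRing 𝔐] [NormedAlgebra ℝ 𝔐] [StarRing 𝔐] [CStarRing 𝔐] [StarModule ℝ 𝔐]
    [FiniteDimensional ℝ 𝔐] (𝒢 : LieG 𝔐) (E : Type) [NormedAddCommGroup E] [NormedSpace ℝ E]
    [FiniteDimensional ℝ E] [MeasureSpace E] [BorelSpace E]
    [(volume : Measure E).IsAddHaarMeasure] (W : Set E) (A A' : E → E →L[ℝ] 𝔐)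
    (g : E → 𝔐) (dg : E → E →L[ℝ] 𝔐), IsOpen W → L2loc W A →
    (∀ᵐ x ∂(volume.restrict W), ∀ v, A x v ∈ 𝒢.lie) → Gau 𝒢 W A A' g dg →
    ∃ dg', Gau 𝒢 W A' A (fun x => star (g x)) dg'

/-- CTE (120 lines; uses nothing).  From scalar test functions to products: with a basis `b_i` of
`𝔐` write `P = ∑ p_i b_i`, `Q = ∑ q_j b_j` (`p_i`, `q_j` smooth); apply the hypothesis to `φ = p_i q_j`,
multiply by `b_i` from the left and by `b_j` from the right and add. -/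
def Stmt_CTE : Prop :=
  ∀ (𝔐 : Type) [NormedRing 𝔐] [NormedAlgebra ℝ 𝔐] [FiniteDimensional ℝ 𝔐] (E : Type)
    [NormedAddCommGroup E] [NormedSpace ℝ E] [FiniteDimensional ℝ E] [MeasureSpace E]
    [BorelSpace E] [(volume : Measure E).IsAddHaarMeasure] (W : Set E) (m : ℕ) (v : Fin m → E)
    (Z : Fin m → E → 𝔐) (R : E → 𝔐), IsOpen W → (∀ k, L1loc W (Z k)) → L1loc W R →
    (∀ φ : E → ℝ, Test W φ → ∫ x, ∑ k, fderiv ℝ φ x (v k) • Z k x = ∫ x, φ x • R x) →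
    ∀ P Q : E → 𝔐, ContDiff ℝ ∞ P → HasCompactSupport P → tsupport P ⊆ W → ContDiff ℝ ∞ Q →
      ∫ x, ∑ k, (fderiv ℝ P x (v k) * Z k x * Q x + P x * Z k x * fderiv ℝ Q x (v k)) =
        ∫ x, P x * R x * Q x

/-- DCV (250 lines; uses TI.LIE TI.APG CTE).  Covariance.  CTE with `R` replaced by
`(∑ [A_{v k}, Z k]) - R`, `P = φ star G_j`, `Q = G_j`, `G_j → g` by APG on a compact neighbourhood of
`tsupport φ` (`|G_j| ≤ 1`, a subsequence converges almost everywhere); `j → ∞` (products of two `L²`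
functions with bounded factors):
`∫ ∑ (∂_k φ star g Z_k g + φ star (dg_k) Z_k g + φ star g Z_k dg_k) = ∫ φ star g (∑ [A_k, Z_k] - R) g`.
Insert `dg_k = g A'_k - A_k g`, `star (dg_k) = -A'_k star g + star g A_k` (`star A = -A`). -/
def Stmt_DCV : Prop :=
  ∀ (𝔐 : Type) [NormedRing 𝔐] [NormedAlgebra ℝ 𝔐] [StarRing 𝔐] [CStarRing 𝔐] [StarModule ℝ 𝔐]
    [FiniteDimensional ℝ 𝔐] (𝒢 : LieG 𝔐) (E : Type) [NormedAddCommGroup E] [NormedSpace ℝ E]
    [FiniteDimensional ℝ E] [MeasureSpace E] [BorelSpace E]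
    [(volume : Measure E).IsAddHaarMeasure] (W : Set E) (A A' : E → E →L[ℝ] 𝔐)
    (g : E → 𝔐) (dg : E → E →L[ℝ] 𝔐) (m : ℕ) (v : Fin m → E) (Z : Fin m → E → 𝔐) (R : E → 𝔐),
    IsOpen W → L2loc W A → (∀ᵐ x ∂(volume.restrict W), ∀ v, A x v ∈ 𝒢.lie) →
    Gau 𝒢 W A A' g dg → (∀ k, L2loc W (Z k)) → L1loc W R → Div W A v Z R →
    Div W A' v (fun k x => star (g x) * Z k x * g x) (fun x => star (g x) * R x * g x)

/-! ## Part D: the identity in the temporal gauge -/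

/-- APD (120 lines; uses TI.MOA TI.MOT).  Approximation of a function and its weak derivative in one
direction: mollify the functions cut off to a neighbourhood of `K` (adapt `B_APG.lean`). -/
def Stmt_APD : Prop :=
  ∀ (E X : Type) [NormedAddCommGroup E] [NormedSpace ℝ E] [FiniteDimensional ℝ E]
    [MeasureSpace E] [BorelSpace E] [(volume : Measure E).IsAddHaarMeasure]
    [NormedAddCommGroup X] [NormedSpace ℝ X] [FiniteDimensional ℝ X] (W : Set E) (e : E)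
    (f f1 : E → X), IsOpen W → L2loc W f → L2loc W f1 →
    (∀ φ : E → ℝ, Test W φ → ∫ x, fderiv ℝ φ x e • f x = -∫ x, φ x • f1 x) →
    ∀ K : Set E, IsCompact K → K ⊆ W → ∃ H : ℕ → E → X, (∀ j, ContDiff ℝ ∞ (H j)) ∧
    Tendsto (fun j => eLpNorm (fun x => H j x - f x) 2 (volume.restrict K)) atTop (𝓝 0) ∧
    Tendsto (fun j => eLpNorm (fun x => fderiv ℝ (H j) x e - f1 x) 2 (volume.restrict K))
      atTop (𝓝 0)

/-- DPR (150 lines; uses CTE APD).  The product rule in one direction.  For smooth `H` instead of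
`h`: `∫ ∂_e φ f H = -∫ φ (f1 H + f ∂_e H)` by CTE with `m = 1`, `R = -f1`, `P = φ • 1`, `Q = H`; then
`H = H_j` (APD for `h` on `tsupport φ`), `j → ∞`. -/
def Stmt_DPR : Prop :=
  ∀ (𝔐 : Type) [NormedRing 𝔐] [NormedAlgebra ℝ 𝔐] [FiniteDimensional ℝ 𝔐] (E : Type)
    [NormedAddCommGroup E] [NormedSpace ℝ E] [FiniteDimensional ℝ E] [MeasureSpace E]
    [BorelSpace E] [(volume : Measure E).IsAddHaarMeasure] (W : Set E) (e : E)
    (f f1 h h1 : E → 𝔐), IsOpen W → L2loc W f → L2loc W f1 → L2loc W h → L2loc W h1 →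
    (∀ φ : E → ℝ, Test W φ → ∫ x, fderiv ℝ φ x e • f x = -∫ x, φ x • f1 x) →
    (∀ φ : E → ℝ, Test W φ → ∫ x, fderiv ℝ φ x e • h x = -∫ x, φ x • h1 x) →
    ∀ φ : E → ℝ, Test W φ →
      ∫ x, fderiv ℝ φ x e • (f x * h x) = -∫ x, φ x • (f1 x * h x + f x * h1 x)

/-- BIT (150 lines; uses DPR).  `IsCurv` for `(e, v)`: `∫ ∂_e φ A_v = -∫ φ F(e, v)`, so `F(e, v)` is the
weak derivative of `A_v` in the direction `e`.  `IsCurv` for `(u, v)` and the test function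
`x ↦ fderiv φ x e` (symmetry of the second derivative):
`∫ ∂_e φ F(u, v) = ∫ ∂_u φ F(e, v) - ∫ ∂_v φ F(e, u) + ∫ ∂_e φ (A_u A_v - A_v A_u)`, and by DPR the last
term is `-∫ φ (F(e,u) A_v + A_u F(e,v) - F(e,v) A_u - A_v F(e,u))`. -/
def Stmt_BIT : Prop :=
  ∀ (𝔐 : Type) [NormedRing 𝔐] [NormedAlgebra ℝ 𝔐] [StarRing 𝔐] [CStarRing 𝔐] [StarModule ℝ 𝔐]
    [FiniteDimensional ℝ 𝔐] (𝒢 : LieG 𝔐) (E : Type) [NormedAddCommGroup E] [NormedSpace ℝ E]
    [FiniteDimensional ℝ E] [MeasureSpace E] [BorelSpace E]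
    [(volume : Measure E).IsAddHaarMeasure] (W : Set E) (A : E → E →L[ℝ] 𝔐)
    (F : E → E [⋀^Fin 2]→L[ℝ] 𝔐) (e : E), IsOpen W → Conn 𝒢 W A F →
    (∀ᵐ x ∂(volume.restrict W), A x e = 0) → ∀ u v : E,
    Div W A ![e, u, v] (cyc F e u v) (fun _ => 0)

/-- BLB (120 lines; uses KT4 CG2 GIN DCV BIT).  The identity on a box: gauge change by KT4, CG2 (the
curvature of `A'` is `adF g F`), BIT for `A'`, and back with GIN, DCV
(`g (star g F g) star g = F` almost everywhere). -/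
def Stmt_BLB : Prop :=
  ∀ (𝔐 : Type) [NormedRing 𝔐] [NormedAlgebra ℝ 𝔐] [StarRing 𝔐] [CStarRing 𝔐] [StarModule ℝ 𝔐]
    [FiniteDimensional ℝ 𝔐] (𝒢 : LieG 𝔐) (V : Type) [NormedAddCommGroup V] [NormedSpace ℝ V]
    [FiniteDimensional ℝ V] [MeasureSpace V] [BorelSpace V]
    [(volume : Measure V).IsAddHaarMeasure] (W : Set (V × ℝ)) (A : V × ℝ → V × ℝ →L[ℝ] 𝔐)
    (F : V × ℝ → (V × ℝ) [⋀^Fin 2]→L[ℝ] 𝔐) (K : Set V) (a b : ℝ), IsOpen W → Conn 𝒢 W A F →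
    IsCompact K → a < b → K ×ˢ Icc a b ⊆ W → ∀ u v : V × ℝ,
    Div (interior K ×ˢ Ioo a b) A ![(0, 1), u, v] (cyc F (0, 1) u v) (fun _ => 0)

/-! ## Part E: globalization -/

/-- DLO (120 lines; uses nothing).  Localization: a smooth partition of unity on the compact set
`tsupport φ` (`SmoothPartitionOfUnity` or finitely many bump functions) writes `φ` as a finite sum of
test functions on the sets `N`. -/
def Stmt_DLO : Prop :=
  ∀ (𝔐 : Type) [NormedRing 𝔐] [NormedAlgebra ℝ 𝔐] [StarRing 𝔐] [FiniteDimensional ℝ 𝔐] (E : Type)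
    [NormedAddCommGroup E] [NormedSpace ℝ E] [FiniteDimensional ℝ E] [MeasureSpace E]
    [BorelSpace E] [(volume : Measure E).IsAddHaarMeasure] (W : Set E) (A : E → E →L[ℝ] 𝔐)
    (m : ℕ) (v : Fin m → E) (Z : Fin m → E → 𝔐) (R : E → 𝔐), IsOpen W → L2loc W A →
    (∀ k, L2loc W (Z k)) → L1loc W R →
    (∀ x ∈ W, ∃ N : Set E, IsOpen N ∧ x ∈ N ∧ N ⊆ W ∧ Div N A v Z R) → Div W A v Z R

/-- DLI (150 lines; uses nothing).  A linear change of variables: `φ ∘ L` is a test function,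
`∂_v (φ ∘ L) = (∂_{L v} φ) ∘ L`, and `∫ f = c ∫ f ∘ L` with a constant `c ≠ 0`
(`MeasureTheory.Measure.isAddHaarMeasure_eq_smul` for the image of the volume). -/
def Stmt_DLI : Prop :=
  ∀ (𝔐 : Type) [NormedRing 𝔐] [NormedAlgebra ℝ 𝔐] [StarRing 𝔐] [FiniteDimensional ℝ 𝔐]
    (E' E : Type) [NormedAddCommGroup E'] [NormedSpace ℝ E'] [FiniteDimensional ℝ E']
    [MeasureSpace E'] [BorelSpace E'] [(volume : Measure E').IsAddHaarMeasure]
    [NormedAddCommGroup E] [NormedSpace ℝ E] [FiniteDimensional ℝ E]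
    [MeasureSpace E] [BorelSpace E] [(volume : Measure E).IsAddHaarMeasure] (L : E' ≃L[ℝ] E)
    (W : Set E) (A : E → E →L[ℝ] 𝔐) (m : ℕ) (v : Fin m → E') (Z : Fin m → E → 𝔐) (R : E → 𝔐),
    (Div (L ⁻¹' W) (pb1 L A) v (fun k x => Z k (L x)) (fun x => R (L x)) ↔
      Div W A (fun k => L (v k)) Z R)

/-- BIA (150 lines; uses TI.PBC BLB DLO DLI).  The Bianchi identity.  If `u = 0` all terms vanish or
cancel.  Let `u ≠ 0` (so `n = n' + 1`): choose a linear isomorphism `L : Eu n' × ℝ ≃L Eu n` with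
`L (0, 1) = u`, pull back with PBC (`Dif` of a linear map), BLB on small boxes around every point
(for the vectors `L⁻¹ v`, `L⁻¹ w`; `pb2 L F x ![u', v'] = F (L x) ![L u', L v']`), DLO, DLI. -/
def Stmt_BIA : Prop :=
  ∀ (𝔐 : Type) [NormedRing 𝔐] [NormedAlgebra ℝ 𝔐] [StarRing 𝔐] [CStarRing 𝔐] [StarModule ℝ 𝔐]
    [FiniteDimensional ℝ 𝔐] (𝒢 : LieG 𝔐) (n : ℕ) (U : Set (Eu n)) (A : Eu n → Eu n →L[ℝ] 𝔐)
    (F : Eu n → Eu n [⋀^Fin 2]→L[ℝ] 𝔐), IsOpen U → Conn 𝒢 U A F → ∀ u v w : Eu n,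
    Div U A ![u, v, w] (cyc F u v w) (fun _ => 0)

end Pool.TIW
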