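import Pool.Agent.Work.MP_a1f430_wb.Interface
import Pool.Agent.Work.MP_a1f430_ti.Interface4
import Pool.Agent.Work.MP_a1f430_ti.Gen

/-! # Regularity where the equation is of finite type, blocks (MP_a1f430, THEOREM FT, helper24)

Block `X` lives in `Pool/Agent/Work/MP_a1f430_wb/B_X.lean` (import this file, namespace `Pool.TIW`, the
`open` lines of this file) and proves `theorem p_X : Stmt_X` or
`theorem p_X (h1 : Stmt_Y) ... : Stmt_X` with the statements of the column `uses` as hypotheses in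
that order (`TI.Y` = `Pool.TIA.Stmt_Y`).  Auxiliary lemmas have the prefix `X_`.  Finished files
`MP_a1f430_ti/B_Y.lean`, `MP_a1f430_wb/B_Y.lean` may be imported for their auxiliary lemmas.

THE THEOREM: if `Ω ∧ F = * F` and `T ↦` (cyclic sum of `T`) is injective on the linear maps
`T : ℝ^n → E_x`, `E_x = {w | Ω(x) ∧ w = * w}`, then `x` is a regular point.
PROOF.  By the Bianchi identity and linear algebra near `x` the components of `F` satisfy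
`D_v F_{ab} = ∑ Γ F_{cd}` in the sense of distributions, `Γ` smooth (FRF, LIV, FTA, FTS).  Systems
`D_v Z_i = ∑ Γ_ij(v) Z_j`, `F = ∑ ρ_j Z_j` (structure `Sys`) are regular, by induction on the dimension:
temporal gauge (ST1); `Z(y, t) = M(y, t) Z⁰(y)`, `A_v(y, t) = B_v(y) + ν_v(y, t) Z⁰(y)` with smooth
`M`, `ν` (ST2); the slice at almost every time is a system in dimension `n - 1` (GSL, SSL); a gauge
`k(y)` which makes the slice smooth makes everything smooth (GPB, ST4). -/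

set_option autoImplicit false

namespace Pool.TIW

open Pool.TIA
open MeasureTheory Set Filter Topology
open scoped ContDiff ENNReal

section defs

variable {E : Type} [NormedAddCommGroup E] [NormedSpace ℝ E] [MeasureSpace E]
variable {𝔐 : Type} [NormedRing 𝔐] [NormedAlgebra ℝ 𝔐] [StarRing 𝔐]

/-- The system `D_v Z_i = ∑ⱼ Γ_ij(v) Z_j` on `W`, and the curvature is `F = ∑ⱼ ρ_j Z_j`. -/
structure Sys (𝒢 : LieG 𝔐) (W : Set E) (A : E → E →L[ℝ] 𝔐) (F : E → E [⋀^Fin 2]→L[ℝ] 𝔐)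
    {ι : Type} [Fintype ι] (Z : ι → E → 𝔐) (Γ : ι → ι → E → E →L[ℝ] ℝ)
    (ρ : ι → E → E [⋀^Fin 2]→L[ℝ] ℝ) : Prop where
  op : IsOpen W
  conn : Conn 𝒢 W A F
  Z2 : ∀ i, L2loc W (Z i)
  sΓ : ∀ i j, ContDiffOn ℝ ∞ (Γ i j) W
  sρ : ∀ j, ContDiffOn ℝ ∞ (ρ j) W
  eq : ∀ (i : ι) (v : E), Div W A ![v] ![Z i] (fun x => ∑ j, Γ i j x v • Z j x)
  cur : ∀ᵐ x ∂(volume.restrict W), ∀ u v, F x ![u, v] = ∑ j, ρ j x ![u, v] • Z j x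

/-- Near `x` there is a gauge in which `A` and the `Z_i` are smooth. -/
def Nice (𝒢 : LieG 𝔐) (W : Set E) (A : E → E →L[ℝ] 𝔐) {ι : Type} (Z : ι → E → 𝔐) (x : E) : Prop :=
  ∃ (W₁ : Set E) (S : E → E →L[ℝ] 𝔐) (g : E → 𝔐) (dg : E → E →L[ℝ] 𝔐) (Y : ι → E → 𝔐),
    IsOpen W₁ ∧ x ∈ W₁ ∧ W₁ ⊆ W ∧ Gau 𝒢 W₁ A S g dg ∧ ContDiffOn ℝ ∞ S W₁ ∧
    (∀ y ∈ W₁, ∀ v, S y v ∈ 𝒢.lie) ∧ (∀ i, ContDiffOn ℝ ∞ (Y i) W₁) ∧
    ∀ i, ∀ᵐ y ∂(volume.restrict W₁), star (g y) * Z i y * g y = Y i y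

/-- The box `|y - y₀| < r`, `|t - t₀| < r`. -/
def Bx {V : Type} [NormedAddCommGroup V] (y₀ : V) (t₀ r : ℝ) : Set (V × ℝ) :=
  Metric.ball y₀ r ×ˢ Ioo (t₀ - r) (t₀ + r)

end defs

/-- All systems on `E` are regular. -/
def Good (𝔐 : Type) [NormedRing 𝔐] [NormedAlgebra ℝ 𝔐] [StarRing 𝔐] (𝒢 : LieG 𝔐) (E : Type)
    [NormedAddCommGroup E] [NormedSpace ℝ E] [MeasureSpace E] : Prop :=
  ∀ (W : Set E) (A : E → E →L[ℝ] 𝔐) (F : E → E [⋀^Fin 2]→L[ℝ] 𝔐) (ι : Type) [Fintype ι]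
    (Z : ι → E → 𝔐) (Γ : ι → ι → E → E →L[ℝ] ℝ) (ρ : ι → E → E [⋀^Fin 2]→L[ℝ] ℝ),
    Sys 𝒢 W A F Z Γ ρ → ∀ x ∈ W, Nice 𝒢 W A Z x

/-! ## Part A: systems in the temporal gauge -/

/-- ST1 (150 lines; uses KT4 CG2 DCV).  Choose `r` with `closedBall y₀ r × [t₀ - r, t₀ + r] ⊆ W`;
KT4 with `K = closedBall y₀ r` (`interior_closedBall`); CG2 for the curvature, DCV for `eq`
(restriction to the box), `cur` is pointwise. -/
def Stmt_ST1 : Prop :=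
  ∀ (𝔐 : Type) [NormedRing 𝔐] [NormedAlgebra ℝ 𝔐] [StarRing 𝔐] [CStarRing 𝔐] [StarModule ℝ 𝔐]
    [FiniteDimensional ℝ 𝔐] (𝒢 : LieG 𝔐) (V : Type) [NormedAddCommGroup V] [NormedSpace ℝ V]
    [FiniteDimensional ℝ V] [MeasureSpace V] [BorelSpace V]
    [(volume : Measure V).IsAddHaarMeasure] (W : Set (V × ℝ)) (A : V × ℝ → V × ℝ →L[ℝ] 𝔐)
    (F : V × ℝ → (V × ℝ) [⋀^Fin 2]→L[ℝ] 𝔐) (ι : Type) [Fintype ι] (Z : ι → V × ℝ → 𝔐)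
    (Γ : ι → ι → V × ℝ → V × ℝ →L[ℝ] ℝ) (ρ : ι → V × ℝ → (V × ℝ) [⋀^Fin 2]→L[ℝ] ℝ) (y₀ : V)
    (t₀ : ℝ), Sys 𝒢 W A F Z Γ ρ → (y₀, t₀) ∈ W →
    ∃ (r : ℝ) (A' : V × ℝ → V × ℝ →L[ℝ] 𝔐) (g : V × ℝ → 𝔐) (dg : V × ℝ → V × ℝ →L[ℝ] 𝔐),
      0 < r ∧ Bx y₀ t₀ r ⊆ W ∧ Gau 𝒢 (Bx y₀ t₀ r) A A' g dg ∧
      (∀ᵐ p ∂(volume.restrict (Bx y₀ t₀ r)), A' p (0, 1) = 0) ∧
      Sys 𝒢 (Bx y₀ t₀ r) A' (adF g F) (fun i p => star (g p) * Z i p * g p) Γ ρ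

/-- LOP (250 lines; uses TI.FLW TI.CUT).  A linear differential equation with smooth coefficients
depending on a parameter.  Cut off the coefficients (CUT) to smooth functions `a` with compact
support on `V × ℝ` which agree with the given ones near `(y₀, t₀)`.  Let `X = ι → ι → ℝ` (matrices), `χ` a
smooth compactly supported function on `X` equal to `1` on a large ball; the field
`(y, t, m) ↦ (0, 1, χ(m) a(y, t) m)` is smooth and Lipschitz, its flow (FLW) starting at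
`(y, t₀, 1)` is `(y, t₀ + s, m)` with `m' = a m` as long as `m` stays in the ball, which is the
case for small `|s|` (`|m| ≤ e^{C|s|} |1|`).  The same for `m' = - m a`; then `(M' M)' = 0`, so
`M' M = 1` and `M M' = 1`.  (See `MP_a1f430_ti/B_LOD.lean`.) -/
def Stmt_LOP : Prop :=
  ∀ (V : Type) [NormedAddCommGroup V] [NormedSpace ℝ V] [FiniteDimensional ℝ V]
    (W : Set (V × ℝ)) (ι : Type) [Fintype ι] (a : ι → ι → V × ℝ → ℝ) (y₀ : V) (t₀ : ℝ),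
    IsOpen W → (y₀, t₀) ∈ W → (∀ i j, ContDiffOn ℝ ∞ (a i j) W) →
    ∃ (r : ℝ) (M M' : ι → ι → V × ℝ → ℝ), 0 < r ∧ Bx y₀ t₀ r ⊆ W ∧
    (∀ i j, ContDiffOn ℝ ∞ (M i j) (Bx y₀ t₀ r) ∧ ContDiffOn ℝ ∞ (M' i j) (Bx y₀ t₀ r)) ∧
    (∀ p ∈ Bx y₀ t₀ r, ∀ i j,
      HasDerivAt (fun s => M i j (p.1, s)) (∑ k, a i k p * M k j p) p.2 ∧
      HasDerivAt (fun s => M' i j (p.1, s)) (-∑ k, M' i k p * a k j p) p.2) ∧
    ∀ p ∈ Bx y₀ t₀ r, ∀ z : ι → ℝ, (∀ i, ∑ j, M' i j p * ∑ k, M j k p * z k = z i) ∧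
      ∀ i, ∑ j, M i j p * ∑ k, M' j k p * z k = z i

/-- PRI (120 lines; uses nothing).  A smooth primitive in `t`:
`ν(y, t) = ∫_{t₀}^t σ(y, s) ds = (t - t₀) ∫_0^1 σ(y, t₀ + τ (t - t₀)) dτ`; all derivatives of the
integrand are continuous (`ContDiffOn` of integrals with parameters: by induction on the order with
`hasFDerivAt_integral_of_dominated_of_fderiv_le`, or cut off and use `contDiff_of_...`); a smaller
box may be chosen. -/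
def Stmt_PRI : Prop :=
  ∀ (V X : Type) [NormedAddCommGroup V] [NormedSpace ℝ V] [FiniteDimensional ℝ V]
    [NormedAddCommGroup X] [NormedSpace ℝ X] [FiniteDimensional ℝ X] (r : ℝ) (σ : V × ℝ → X)
    (y₀ : V) (t₀ : ℝ), 0 < r → ContDiffOn ℝ ∞ σ (Bx y₀ t₀ r) →
    ∃ (r' : ℝ) (ν : V × ℝ → X), 0 < r' ∧ r' ≤ r ∧ ContDiffOn ℝ ∞ ν (Bx y₀ t₀ r') ∧
      ∀ p ∈ Bx y₀ t₀ r', HasDerivAt (fun s => ν (p.1, s)) (σ p) p.2

/-- DBR (150 lines; uses nothing).  A function whose weak derivative in `t` vanishes does not depend on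
`t`.  Let `η` be a test function on `(a, b)` with `∫ η = 1`, `f₀(y) = ∫ η(s) f(y, s) ds`.  For a test
function `ψ` the function `Φ(y, t) = ∫_{-∞}^t (ψ(y, s) - η(s) ∫ ψ(y, ·)) ds` is a test function with
`∂_t Φ = ψ - η ∫ ψ(y, ·)`, so `∫ ψ f = ∫ ψ(y, t) f₀(y)` (Fubini), and `f = f₀` almost everywhere
(`IsOpen.ae_eq_zero_of_integral_contDiff_smul_eq_zero`). -/
def Stmt_DBR : Prop :=
  ∀ (V X : Type) [NormedAddCommGroup V] [NormedSpace ℝ V] [FiniteDimensional ℝ V]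
    [MeasureSpace V] [BorelSpace V] [(volume : Measure V).IsAddHaarMeasure]
    [NormedAddCommGroup X] [NormedSpace ℝ X] [FiniteDimensional ℝ X] (W₁ : Set V) (a b : ℝ)
    (f : V × ℝ → X), IsOpen W₁ → a < b → L2loc (W₁ ×ˢ Ioo a b) f →
    (∀ φ : V × ℝ → ℝ, Test (W₁ ×ˢ Ioo a b) φ → ∫ p, fderiv ℝ φ p (0, 1) • f p = 0) →
    ∃ f₀ : V → X, L2loc W₁ f₀ ∧ ∀ᵐ p ∂(volume.restrict (W₁ ×ˢ Ioo a b)), f p = f₀ p.1

/-- WOD (150 lines; uses DBR).  `Y_i = ∑ M'_ij Z_j` has `∫ ∂_t φ Y_i = 0` (test functions `φ M'_ij`,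
extended by `0`; `∂_t M' = - M' a`), so `Y_i = Z⁰_i(y)` by DBR, and `Z = M Y`. -/
def Stmt_WOD : Prop :=
  ∀ (𝔐 : Type) [NormedRing 𝔐] [NormedAlgebra ℝ 𝔐] [FiniteDimensional ℝ 𝔐] (V : Type)
    [NormedAddCommGroup V] [NormedSpace ℝ V] [FiniteDimensional ℝ V] [MeasureSpace V]
    [BorelSpace V] [(volume : Measure V).IsAddHaarMeasure] (ι : Type) [Fintype ι] (y₀ : V)
    (t₀ r : ℝ) (a M M' : ι → ι → V × ℝ → ℝ) (Z : ι → V × ℝ → 𝔐), 0 < r →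
    (∀ i j, ContDiffOn ℝ ∞ (a i j) (Bx y₀ t₀ r) ∧ ContDiffOn ℝ ∞ (M i j) (Bx y₀ t₀ r) ∧
      ContDiffOn ℝ ∞ (M' i j) (Bx y₀ t₀ r)) →
    (∀ p ∈ Bx y₀ t₀ r, ∀ i j,
      HasDerivAt (fun s => M' i j (p.1, s)) (-∑ k, M' i k p * a k j p) p.2) →
    (∀ p ∈ Bx y₀ t₀ r, ∀ z : ι → ℝ, ∀ i, ∑ j, M i j p * ∑ k, M' j k p * z k = z i) →
    (∀ i, L2loc (Bx y₀ t₀ r) (Z i)) →
    (∀ i, ∀ φ : V × ℝ → ℝ, Test (Bx y₀ t₀ r) φ →
      ∫ p, fderiv ℝ φ p (0, 1) • Z i p = -∫ p, φ p • ∑ j, a i j p • Z j p) →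
    ∃ Z₀ : ι → V → 𝔐, (∀ i, L2loc (Metric.ball y₀ r) (Z₀ i)) ∧
      ∀ᵐ p ∂(volume.restrict (Bx y₀ t₀ r)), ∀ i, Z i p = ∑ j, M i j p • Z₀ j p.1

/-- WIN (120 lines; uses DBR).  `f - ∑ ν_j Z⁰_j` has vanishing weak derivative in `t`
(`∫ ∂_t φ ν_j Z⁰_j = -∫ φ σ_j Z⁰_j` by Fubini and integration by parts in `t`); DBR. -/
def Stmt_WIN : Prop :=
  ∀ (𝔐 : Type) [NormedRing 𝔐] [NormedAlgebra ℝ 𝔐] [FiniteDimensional ℝ 𝔐] (V : Type)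
    [NormedAddCommGroup V] [NormedSpace ℝ V] [FiniteDimensional ℝ V] [MeasureSpace V]
    [BorelSpace V] [(volume : Measure V).IsAddHaarMeasure] (ι : Type) [Fintype ι] (y₀ : V)
    (t₀ r : ℝ) (σ ν : ι → V × ℝ → ℝ) (Z₀ : ι → V → 𝔐) (f : V × ℝ → 𝔐), 0 < r →
    (∀ j, ContDiffOn ℝ ∞ (σ j) (Bx y₀ t₀ r) ∧ ContDiffOn ℝ ∞ (ν j) (Bx y₀ t₀ r)) →
    (∀ p ∈ Bx y₀ t₀ r, ∀ j, HasDerivAt (fun s => ν j (p.1, s)) (σ j p) p.2) →
    (∀ j, L2loc (Metric.ball y₀ r) (Z₀ j)) → L2loc (Bx y₀ t₀ r) f →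
    (∀ φ : V × ℝ → ℝ, Test (Bx y₀ t₀ r) φ →
      ∫ p, fderiv ℝ φ p (0, 1) • f p = -∫ p, φ p • ∑ j, σ j p • Z₀ j p.1) →
    ∃ f₀ : V → 𝔐, L2loc (Metric.ball y₀ r) f₀ ∧
      ∀ᵐ p ∂(volume.restrict (Bx y₀ t₀ r)), f p = f₀ p.1 + ∑ j, ν j p • Z₀ j p.1

/-- ST2 (250 lines; uses LOP PRI WOD WIN).  `eq` for `v = (0, 1)` and `A(0, 1) = 0`:
`∂_t Z_i = ∑ Γ_ij(0, 1) Z_j`, so LOP, WOD give `Z = M Z⁰`.  `IsCurv` for `((0, 1), (v, 0))`: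
`∂_t A(v, 0) = F(∂_t, (v, 0)) = ∑ ρ_j(∂_t, (v, 0)) Z_j = ∑_k σ_k(v) Z⁰_k` with
`σ_k(p)(v) = ∑_j ρ_j p ![(0, 1), (v, 0)] M_jk p`; `ν_k` = a primitive (PRI with `X = V →L ℝ`), WIN for
`v` in a basis of `V`, `B` = the linear extension of the functions `f₀`.  (All on a box on which
everything is defined.) -/
def Stmt_ST2 : Prop :=
  ∀ (𝔐 : Type) [NormedRing 𝔐] [NormedAlgebra ℝ 𝔐] [StarRing 𝔐] [CStarRing 𝔐] [StarModule ℝ 𝔐]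
    [FiniteDimensional ℝ 𝔐] (𝒢 : LieG 𝔐) (V : Type) [NormedAddCommGroup V] [NormedSpace ℝ V]
    [FiniteDimensional ℝ V] [MeasureSpace V] [BorelSpace V]
    [(volume : Measure V).IsAddHaarMeasure] (A : V × ℝ → V × ℝ →L[ℝ] 𝔐)
    (F : V × ℝ → (V × ℝ) [⋀^Fin 2]→L[ℝ] 𝔐) (ι : Type) [Fintype ι] (Z : ι → V × ℝ → 𝔐)
    (Γ : ι → ι → V × ℝ → V × ℝ →L[ℝ] ℝ) (ρ : ι → V × ℝ → (V × ℝ) [⋀^Fin 2]→L[ℝ] ℝ) (y₀ : V)
    (t₀ r : ℝ), 0 < r → Sys 𝒢 (Bx y₀ t₀ r) A F Z Γ ρ →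
    (∀ᵐ p ∂(volume.restrict (Bx y₀ t₀ r)), A p (0, 1) = 0) →
    ∃ (r' : ℝ) (M M' : ι → ι → V × ℝ → ℝ) (ν : ι → V × ℝ → V →L[ℝ] ℝ) (Z₀ : ι → V → 𝔐)
      (B : V → V →L[ℝ] 𝔐), 0 < r' ∧ r' ≤ r ∧
      (∀ i j, ContDiffOn ℝ ∞ (M i j) (Bx y₀ t₀ r') ∧ ContDiffOn ℝ ∞ (M' i j) (Bx y₀ t₀ r')) ∧
      (∀ j, ContDiffOn ℝ ∞ (ν j) (Bx y₀ t₀ r')) ∧
      (∀ p ∈ Bx y₀ t₀ r', ∀ z : ι → ℝ, ∀ i, ∑ j, M' i j p * ∑ k, M j k p * z k = z i) ∧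
      (∀ i, L2loc (Metric.ball y₀ r') (Z₀ i)) ∧ L2loc (Metric.ball y₀ r') B ∧
      ∀ᵐ p ∂(volume.restrict (Bx y₀ t₀ r')), (∀ i, Z i p = ∑ j, M i j p • Z₀ j p.1) ∧
        ∀ (v : V) (s : ℝ), A p (v, s) = B p.1 v + ∑ j, ν j p v • Z₀ j p.1

/-! ## Part B: slices -/

/-- GSL (250 lines; uses TI.MOA TI.MOT).  Slices of a first order equation.  For a fixed test function
`φ` on `W₁` the hypothesis for `φ(y) χ(t)` gives `∫ χ(t) G_φ(t) dt = 0` for all test functions `χ` on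
`(a, b)`, so `G_φ(t) = 0` for almost all `t`, where `G_φ(t)` is the difference of the two sides.  Use
this for the countably many `φ = (bmp V j).normed volume (q - ·)`, `q` in a countable dense set,
`closedBall q (1/(j+2)) ⊆ W₁` (MOA); by continuity in `q` it holds for all such `q`: the mollified
functions satisfy the equation at `q`.  For a general test function `φ` integrate against `φ(q)` and
let `j → ∞` (MOT on a compact neighbourhood of `tsupport φ`). -/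
def Stmt_GSL : Prop :=
  ∀ (V X : Type) [NormedAddCommGroup V] [NormedSpace ℝ V] [FiniteDimensional ℝ V]
    [MeasureSpace V] [BorelSpace V] [(volume : Measure V).IsAddHaarMeasure]
    [NormedAddCommGroup X] [NormedSpace ℝ X] [FiniteDimensional ℝ X] (W₁ : Set V) (a b : ℝ)
    (m : ℕ) (v : Fin m → V) (f : Fin m → V × ℝ → X) (R : V × ℝ → X), IsOpen W₁ → a < b →
    (∀ k, L1loc (W₁ ×ˢ Ioo a b) (f k)) → L1loc (W₁ ×ˢ Ioo a b) R →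
    (∀ φ : V × ℝ → ℝ, Test (W₁ ×ˢ Ioo a b) φ →
      ∫ p, ∑ k, fderiv ℝ φ p (v k, 0) • f k p = ∫ p, φ p • R p) →
    ∀ᵐ t ∂(volume.restrict (Ioo a b)), (∀ k, L1loc W₁ fun y => f k (y, t)) ∧
      (L1loc W₁ fun y => R (y, t)) ∧
      ∀ φ : V → ℝ, Test W₁ φ →
        ∫ y, ∑ k, fderiv ℝ φ y (v k) • f k (y, t) = ∫ y, φ y • R (y, t)

/-- SSL (250 lines; uses GSL).  Slices of a system.  The slices of `A`, `F`, `Z_i` are in `L²_loc` for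
almost all `t` (Fubini for an exhaustion of `W₁ × (a, b)` by compact sets `K × [a', b']`); the
conditions which hold almost everywhere hold almost everywhere on almost all slices.  `IsCurv` and
`eq` are equations as in GSL, for `u, v` in a basis of `V` (finitely many), and then for all `u, v`
by (bi)linearity. -/
def Stmt_SSL : Prop :=
  ∀ (𝔐 : Type) [NormedRing 𝔐] [NormedAlgebra ℝ 𝔐] [StarRing 𝔐] [CStarRing 𝔐] [StarModule ℝ 𝔐]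
    [FiniteDimensional ℝ 𝔐] (𝒢 : LieG 𝔐) (V : Type) [NormedAddCommGroup V] [NormedSpace ℝ V]
    [FiniteDimensional ℝ V] [MeasureSpace V] [BorelSpace V]
    [(volume : Measure V).IsAddHaarMeasure] (W₁ : Set V) (a b : ℝ) (A : V × ℝ → V × ℝ →L[ℝ] 𝔐)
    (F : V × ℝ → (V × ℝ) [⋀^Fin 2]→L[ℝ] 𝔐) (ι : Type) [Fintype ι] (Z : ι → V × ℝ → 𝔐)
    (Γ : ι → ι → V × ℝ → V × ℝ →L[ℝ] ℝ) (ρ : ι → V × ℝ → (V × ℝ) [⋀^Fin 2]→L[ℝ] ℝ),
    IsOpen W₁ → a < b → Sys 𝒢 (W₁ ×ˢ Ioo a b) A F Z Γ ρ →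
    ∀ᵐ t ∂(volume.restrict (Ioo a b)), Sys 𝒢 W₁ (rs1 A t) (rs2 F t) (fun i y => Z i (y, t))
      (fun i j y => (Γ i j (y, t)).comp (ContinuousLinearMap.inl ℝ V ℝ))
      (fun j y => (ρ j (y, t)).compContinuousLinearMap (ContinuousLinearMap.inl ℝ V ℝ))

/-! ## Part C: the induction -/

/-- GCO (120 lines; uses TI.LIE TI.PRD).  Composition of gauge changes, as `GTR`
(`d(g h) = dg h + g dh = g h A'' - A g h`). -/
def Stmt_GCO : Prop :=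
  ∀ (𝔐 : Type) [NormedRing 𝔐] [NormedAlgebra ℝ 𝔐] [StarRing 𝔐] [CStarRing 𝔐] [StarModule ℝ 𝔐]
    [FiniteDimensional ℝ 𝔐] (𝒢 : LieG 𝔐) (E : Type) [NormedAddCommGroup E] [NormedSpace ℝ E]
    [FiniteDimensional ℝ E] [MeasureSpace E] [BorelSpace E]
    [(volume : Measure E).IsAddHaarMeasure] (W : Set E) (A A' A'' : E → E →L[ℝ] 𝔐)
    (g h : E → 𝔐) (dg dh : E → E →L[ℝ] 𝔐), IsOpen W → Gau 𝒢 W A A' g dg →
    Gau 𝒢 W A' A'' h dh → ∃ dk, Gau 𝒢 W A A'' (fun x => g x * h x) dk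

/-- GPB (150 lines; uses TI.EXT LBR).  The pullback of a gauge change `k(y)`.
`d(k ∘ fst)(v, s) = dk v = k S_v - B_v k`, and with `k Y_j = Z⁰_j k`:
`k S'_v - A_v k = k S_v + ∑ c_j k Y_j - B_v k - ∑ c_j Z⁰_j k`.  `S'(v, s) = S_v + star k (A(v, s) - B_v) k`
is Lie algebra valued by LBR. -/
def Stmt_GPB : Prop :=
  ∀ (𝔐 : Type) [NormedRing 𝔐] [NormedAlgebra ℝ 𝔐] [StarRing 𝔐] [CStarRing 𝔐] [StarModule ℝ 𝔐]
    [FiniteDimensional ℝ 𝔐] (𝒢 : LieG 𝔐) (V : Type) [NormedAddCommGroup V] [NormedSpace ℝ V]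
    [FiniteDimensional ℝ V] [MeasureSpace V] [BorelSpace V]
    [(volume : Measure V).IsAddHaarMeasure] (W₁ : Set V) (a b : ℝ) (B S : V → V →L[ℝ] 𝔐)
    (k : V → 𝔐) (dk : V → V →L[ℝ] 𝔐) (ι : Type) [Fintype ι] (c : ι → V × ℝ → V →L[ℝ] ℝ)
    (Z₀ Y : ι → V → 𝔐) (A : V × ℝ → V × ℝ →L[ℝ] 𝔐), IsOpen W₁ → a < b →
    Gau 𝒢 W₁ B S k dk → (∀ᵐ y ∂(volume.restrict W₁), ∀ v, B y v ∈ 𝒢.lie) →
    (∀ᵐ p ∂(volume.restrict (W₁ ×ˢ Ioo a b)), ∀ v, A p v ∈ 𝒢.lie) →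
    ContDiffOn ℝ ∞ S W₁ → (∀ j, ContDiffOn ℝ ∞ (c j) (W₁ ×ˢ Ioo a b)) →
    (∀ j, ContDiffOn ℝ ∞ (Y j) W₁) →
    (∀ j, ∀ᵐ y ∂(volume.restrict W₁), star (k y) * Z₀ j y * k y = Y j y) →
    (∀ᵐ p ∂(volume.restrict (W₁ ×ˢ Ioo a b)), ∀ (v : V) (s : ℝ),
      A p (v, s) = B p.1 v + ∑ j, c j p v • Z₀ j p.1) →
    ∀ S' : V × ℝ → V × ℝ →L[ℝ] 𝔐,
    (∀ p (v : V) (s : ℝ), S' p (v, s) = S p.1 v + ∑ j, c j p v • Y j p.1) →
    Gau 𝒢 (W₁ ×ˢ Ioo a b) A S' (fun p => k p.1)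
      (fun p => (dk p.1).comp (ContinuousLinearMap.fst ℝ V ℝ))

/-- ST4 (350 lines; uses LBR ST1 ST2 SSL GCO GPB).  The induction step.  ST1 gives `g`, `A'`, `Z' = star g Z g`
on a box, ST2 `M, M', ν, Z⁰, B` on a smaller box.  Choose a time `t₁` in its interval such that the
slice is a system on `ball y₀ r'` (SSL) and the formulas of ST2 hold for almost all `y` at `t = t₁`
(Fubini).  `Good V` at `y₀`: `W₂`, `S`, `k`, `Y_i` smooth with `Y_i = star k Z'_i(·, t₁) k`.  Put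
`Y⁰_j(y) = ∑ M'_ji(y, t₁) Y_i(y)`, so `star k Z⁰_j k = Y⁰_j`; `c_j(y, t) = ν_j(y, t) - ν_j(y, t₁)`, so
`A'(y, t)(v, s) = rs1 A' t₁ y v + ∑ c_j v Z⁰_j`.  GPB on `W₂ × (t₀ - r', t₀ + r')`, then GCO:
`S'(y, t)(v, s) = S(y) v + ∑ c_j v Y⁰_j(y)`, `star (g k) Z (g k) = ∑ M_ij Y⁰_j`, all smooth; `S'` is Lie
algebra valued everywhere because it is continuous and Lie algebra valued almost everywhere. -/
def Stmt_ST4 : Prop :=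
  ∀ (𝔐 : Type) [NormedRing 𝔐] [NormedAlgebra ℝ 𝔐] [StarRing 𝔐] [CStarRing 𝔐] [StarModule ℝ 𝔐]
    [FiniteDimensional ℝ 𝔐] (𝒢 : LieG 𝔐) (V : Type) [NormedAddCommGroup V] [NormedSpace ℝ V]
    [FiniteDimensional ℝ V] [MeasureSpace V] [BorelSpace V]
    [(volume : Measure V).IsAddHaarMeasure], Good 𝔐 𝒢 V → Good 𝔐 𝒢 (V × ℝ)

/-- TRP (200 lines; uses TI.PBC TI.PBW DLI).  Transport by a linear isomorphism: pull back the system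
(`pb1 L A`, `pb2 L F`, `Z ∘ L`, `Γ_ij(L x) ∘ L`, `ρ_j(L x)` composed with `L`) by PBC, DLI; `Good E'`;
pull back the result by `L.symm` (PBW for `g`). -/
def Stmt_TRP : Prop :=
  ∀ (𝔐 : Type) [NormedRing 𝔐] [NormedAlgebra ℝ 𝔐] [StarRing 𝔐] [CStarRing 𝔐] [StarModule ℝ 𝔐]
    [FiniteDimensional ℝ 𝔐] (𝒢 : LieG 𝔐) (E' E : Type) [NormedAddCommGroup E']
    [NormedSpace ℝ E'] [FiniteDimensional ℝ E'] [MeasureSpace E'] [BorelSpace E']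
    [(volume : Measure E').IsAddHaarMeasure] [NormedAddCommGroup E] [NormedSpace ℝ E]
    [FiniteDimensional ℝ E] [MeasureSpace E] [BorelSpace E]
    [(volume : Measure E).IsAddHaarMeasure], (E' ≃L[ℝ] E) → Good 𝔐 𝒢 E' → Good 𝔐 𝒢 E

/-- GD0 (80 lines; uses nothing).  Dimension `0`: the space is a point, `g = 1`, `dg = 0`, `S = A`,
`Y = Z`; every function on it is smooth (`contDiff_of_subsingleton`), `A x v = A x 0 = 0`. -/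
def Stmt_GD0 : Prop :=
  ∀ (𝔐 : Type) [NormedRing 𝔐] [NormedAlgebra ℝ 𝔐] [StarRing 𝔐] [CStarRing 𝔐] [StarModule ℝ 𝔐]
    [FiniteDimensional ℝ 𝔐] (𝒢 : LieG 𝔐), Good 𝔐 𝒢 (Eu 0)

/-- IND (60 lines; uses ST4 TRP GD0).  Induction; `Eu n × ℝ ≃L Eu (n + 1)`
(`ContinuousLinearEquiv.ofFinrankEq`). -/
def Stmt_IND : Prop :=
  ∀ (𝔐 : Type) [NormedRing 𝔐] [NormedAlgebra ℝ 𝔐] [StarRing 𝔐] [CStarRing 𝔐] [StarModule ℝ 𝔐]
    [FiniteDimensional ℝ 𝔐] (𝒢 : LieG 𝔐) (n : ℕ), Good 𝔐 𝒢 (Eu n)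

/-! ## Part D: algebra -/

/-- The equation `Ω ∧ w = * w` is of finite type (of order one) at a point: a linear map `T` from
vectors to solutions `w` with vanishing cyclic sum is zero. -/
def FTy {E : Type} [NormedAddCommGroup E] [NormedSpace ℝ E] {m : ℕ}
    (b : Module.Basis (Fin (m + 4)) ℝ E) (h : Bil E) (Ω : Frm m E) : Prop :=
  ∀ T : E →L[ℝ] Frm 2 E, (∀ v, StEq b h Ω (T v)) →
    (∀ u v w, T u ![v, w] + T v ![w, u] + T w ![u, v] = 0) → T = 0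

/-- SMF (200 lines; uses nothing).  A positively oriented orthonormal frame extends smoothly:
Gram-Schmidt for the scalar product `h y`, applied to the vectors of `e₀` in the order `ix`; near
`x₀` the norms and the determinant stay positive. -/
def Stmt_SMF : Prop :=
  ∀ (m : ℕ) (U : Set (Eu (m + 4))) (h : Eu (m + 4) → Bil (Eu (m + 4))) (x₀ : Eu (m + 4))
    (e₀ : FI m → Eu (m + 4)), IsOpen U → RMet U h → x₀ ∈ U → OFr (stb (m + 4)) (h x₀) e₀ →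
    ∃ (N : Set (Eu (m + 4))) (e : Eu (m + 4) → FI m → Eu (m + 4)), IsOpen N ∧ x₀ ∈ N ∧ N ⊆ U ∧
      (∀ i, ContDiffOn ℝ ∞ (fun y => e y i) N) ∧ e x₀ = e₀ ∧
      ∀ y ∈ N, OFr (stb (m + 4)) (h y) (e y)

/-- FRF (250 lines; uses SMF).  For a frame `e` the equation `StEq` is `ℓ_e(w) = 0`,
`ℓ_e(w) = wdg Ω w (e ∘ inl) - w(e (inr 0), e (inr 1))`, linear in `w`.  At `x₀` finitely many frames
cut out the space of solutions (finite dimension); extend them by SMF; `p i a c y` =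
`½ ℓ_{e_i(y)}(e^a ∧ e^c)` with the standard basis.  For `𝔐`-valued `F` apply linear functionals of
`𝔐`, or expand `F` in the basis forms. -/
def Stmt_FRF : Prop :=
  ∀ (m : ℕ) (U : Set (Eu (m + 4))) (h : Eu (m + 4) → Bil (Eu (m + 4)))
    (Ω : Eu (m + 4) → Frm m (Eu (m + 4))) (x₀ : Eu (m + 4)), IsOpen U → RMet U h →
    ContDiffOn ℝ ∞ Ω U → x₀ ∈ U →
    ∃ (N : Set (Eu (m + 4))) (q : ℕ)
      (p : Fin q → Fin (m + 4) → Fin (m + 4) → Eu (m + 4) → ℝ), IsOpen N ∧ x₀ ∈ N ∧ N ⊆ U ∧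
      (∀ i a c, ContDiffOn ℝ ∞ (p i a c) N) ∧
      (∀ (𝔐 : Type) [NormedRing 𝔐] [NormedAlgebra ℝ 𝔐] [FiniteDimensional ℝ 𝔐], ∀ y ∈ N,
        ∀ F : Eu (m + 4) [⋀^Fin 2]→L[ℝ] 𝔐, StEq (stb (m + 4)) (h y) (Ω y) F →
        ∀ i, ∑ a, ∑ c, p i a c y • F ![stb (m + 4) a, stb (m + 4) c] = 0) ∧
      ∀ w : Frm 2 (Eu (m + 4)),
        (∀ i, ∑ a, ∑ c, p i a c x₀ * w ![stb (m + 4) a, stb (m + 4) c] = 0) →
        StEq (stb (m + 4)) (h x₀) (Ω x₀) w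

/-- LIV (80 lines; uses nothing).  A smooth left inverse: `K₀ Λ(x₀) = 1`,
`K(y) = (K₀ Λ(y))⁻¹ K₀` (`contDiffAt_ringInverse`). -/
def Stmt_LIV : Prop :=
  ∀ (E X Y : Type) [NormedAddCommGroup E] [NormedSpace ℝ E] [NormedAddCommGroup X]
    [NormedSpace ℝ X] [FiniteDimensional ℝ X] [NormedAddCommGroup Y] [NormedSpace ℝ Y]
    [FiniteDimensional ℝ Y] (N : Set E) (x₀ : E) (Λ : E → X →L[ℝ] Y), IsOpen N → x₀ ∈ N →
    ContDiffOn ℝ ∞ Λ N → Function.Injective (Λ x₀) →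
    ∃ (N' : Set E) (K : E → Y →L[ℝ] X), IsOpen N' ∧ x₀ ∈ N' ∧ N' ⊆ N ∧ ContDiffOn ℝ ∞ K N' ∧
      ∀ y ∈ N', ∀ T, K y (Λ y T) = T

/-- FTA (250 lines; uses FRF LIV).  `X` = the arrays `T c a b`, antisymmetric in `(a, b)` (or all
arrays, with `T c a b + T c b a` as additional target components, which vanish), `Λ(y) T` = the
family `(∑ p_i T_d)_{i, d}` and the cyclic sums.  At `x₀` it is injective by `FTy` (an array `T` is the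
linear map `e_c ↦ ∑ T c a b ½ e^a ∧ e^b`).  LIV; `K1`, `K2` are the components of `K`. -/
def Stmt_FTA : Prop :=
  ∀ (m : ℕ) (U : Set (Eu (m + 4))) (h : Eu (m + 4) → Bil (Eu (m + 4)))
    (Ω : Eu (m + 4) → Frm m (Eu (m + 4))) (x₀ : Eu (m + 4)), IsOpen U → RMet U h →
    ContDiffOn ℝ ∞ Ω U → x₀ ∈ U → FTy (stb (m + 4)) (h x₀) (Ω x₀) →
    ∃ (N : Set (Eu (m + 4))) (q : ℕ)
      (p : Fin q → Fin (m + 4) → Fin (m + 4) → Eu (m + 4) → ℝ)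
      (K1 : Fin (m + 4) → Fin (m + 4) → Fin (m + 4) → Fin q → Fin (m + 4) → Eu (m + 4) → ℝ)
      (K2 : Fin (m + 4) → Fin (m + 4) → Fin (m + 4) → Fin (m + 4) → Fin (m + 4) →
        Fin (m + 4) → Eu (m + 4) → ℝ), IsOpen N ∧ x₀ ∈ N ∧ N ⊆ U ∧
      (∀ i a c, ContDiffOn ℝ ∞ (p i a c) N) ∧
      (∀ c a b i d, ContDiffOn ℝ ∞ (K1 c a b i d) N) ∧
      (∀ c a b d e f, ContDiffOn ℝ ∞ (K2 c a b d e f) N) ∧
      (∀ (𝔐 : Type) [NormedRing 𝔐] [NormedAlgebra ℝ 𝔐] [FiniteDimensional ℝ 𝔐], ∀ y ∈ N,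
        ∀ F : Eu (m + 4) [⋀^Fin 2]→L[ℝ] 𝔐, StEq (stb (m + 4)) (h y) (Ω y) F →
        ∀ i, ∑ a, ∑ c, p i a c y • F ![stb (m + 4) a, stb (m + 4) c] = 0) ∧
      ∀ y ∈ N, ∀ T : Fin (m + 4) → Fin (m + 4) → Fin (m + 4) → ℝ,
        (∀ c a b, T c a b = -T c b a) → ∀ c a b,
        T c a b = (∑ i, ∑ d, K1 c a b i d y * ∑ a', ∑ b', p i a' b' y * T d a' b') +
          ∑ d, ∑ e, ∑ f, K2 c a b d e f y * (T d e f + T e f d + T f d e)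

/-- FTS (300 lines; uses nothing).  The weak system.  For a smooth function `ψ` with compact support
in `N` put `⟨d, a, b; ψ⟩ = ∫ (-∂_d ψ F_ab + ψ [A_d, F_ab])`.  (1) `⟨d,a,b; ψ⟩` is antisymmetric in
`(a, b)`; the Bianchi hypothesis is `⟨d,e,f; ψ⟩ + ⟨e,f,d; ψ⟩ + ⟨f,d,e; ψ⟩ = 0`; and
`∑_{a,b} ⟨d,a,b; ψ p_iab⟩ = -∫ ψ ∑ ∂_d p_iab F_ab` because `∑ p_iab F_ab = 0`.  (2) For fixed
`(c, a, b)` the coefficients of the identity for `T` (right side minus left side) are smooth functions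
`C_{d a' b'}(x)` with `C_{d a' b'} = C_{d b' a'}` (apply the identity to elementary antisymmetric arrays), so
`∑ ⟨d,a',b'; C φ⟩ = 0`.  (3) Hence `⟨c,a,b; φ⟩ = ∑_{i,d} ∑_{a',b'} ⟨d,a',b'; K1 p φ⟩ + 0 =
-∫ φ ∑ K1 ∂_d p F`. -/
def Stmt_FTS : Prop :=
  ∀ (𝔐 : Type) [NormedRing 𝔐] [NormedAlgebra ℝ 𝔐] [StarRing 𝔐] [CStarRing 𝔐] [StarModule ℝ 𝔐]
    [FiniteDimensional ℝ 𝔐] (𝒢 : LieG 𝔐) (n q : ℕ) (N : Set (Eu n)) (A : Eu n → Eu n →L[ℝ] 𝔐)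
    (F : Eu n → Eu n [⋀^Fin 2]→L[ℝ] 𝔐) (p : Fin q → Fin n → Fin n → Eu n → ℝ)
    (K1 : Fin n → Fin n → Fin n → Fin q → Fin n → Eu n → ℝ)
    (K2 : Fin n → Fin n → Fin n → Fin n → Fin n → Fin n → Eu n → ℝ), IsOpen N →
    Conn 𝒢 N A F → (∀ u v w : Eu n, Div N A ![u, v, w] (cyc F u v w) (fun _ => 0)) →
    (∀ i a c, ContDiffOn ℝ ∞ (p i a c) N) → (∀ c a b i d, ContDiffOn ℝ ∞ (K1 c a b i d) N) →
    (∀ c a b d e f, ContDiffOn ℝ ∞ (K2 c a b d e f) N) →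
    (∀ᵐ y ∂(volume.restrict N), ∀ i, ∑ a, ∑ c, p i a c y • F y ![stb n a, stb n c] = 0) →
    (∀ y ∈ N, ∀ T : Fin n → Fin n → Fin n → ℝ, (∀ c a b, T c a b = -T c b a) → ∀ c a b,
      T c a b = (∑ i, ∑ d, K1 c a b i d y * ∑ a', ∑ b', p i a' b' y * T d a' b') +
        ∑ d, ∑ e, ∑ f, K2 c a b d e f y * (T d e f + T e f d + T f d e)) →
    ∀ c a b, Div N A ![stb n c] ![fun x => F x ![stb n a, stb n b]]
      (fun x => ∑ a', ∑ b', (-∑ i, ∑ d, K1 c a b i d x * fderiv ℝ (p i a' b') x (stb n d)) •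
        F x ![stb n a', stb n b'])

/-- FTR (200 lines; uses BIA FTA FTS IND).  With `ι = Fin n × Fin n`, `Z (a, b) = F(e_a, e_b)`,
`Γ_{(a,b),(a',b')}(x)(v) = ∑_c v_c G_{c a b a' b'}(x)` (FTS, linear in `v`), `ρ_(a,b) ![u, v] =
½ (u_a v_b - u_b v_a)` the restriction to `N` is a system; BIA gives the Bianchi identity; IND;
`Nice` at `x₀` gives `Reg`. -/
def Stmt_FTR : Prop :=
  ∀ (𝔐 : Type) [NormedRing 𝔐] [NormedAlgebra ℝ 𝔐] [StarRing 𝔐] [CStarRing 𝔐] [StarModule ℝ 𝔐]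
    [FiniteDimensional ℝ 𝔐] (𝒢 : LieG 𝔐) (m : ℕ) (U : Set (Eu (m + 4)))
    (h : Eu (m + 4) → Bil (Eu (m + 4))) (Ω : Eu (m + 4) → Frm m (Eu (m + 4)))
    (A : OneF (Eu (m + 4)) 𝔐) (F : TwoF (Eu (m + 4)) 𝔐),
    WInst (stb (m + 4)) 𝒢 U h Ω A F → ∀ x ∈ U, FTy (stb (m + 4)) (h x) (Ω x) → Reg 𝒢 A x

/-- DM1 (200 lines; uses TI.FRM).  If all solutions are multiples of one form `w₀` then the equation is
of finite type.  `T v = ξ(v) w₀` with `ξ` linear (if `T ≠ 0` then `w₀ ≠ 0` is a solution); let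
`ξ ≠ 0`.  The cyclic sum for `u` with `ξ(u) = 1` and `v, w ∈ ker ξ` gives `w₀(v, w) = 0` on `ker ξ`.
Let `e` be a unit vector orthogonal to `ker ξ`, `f` a unit vector in `ker ξ`; FRM gives a positive
frame with `(e, f)` as the last two vectors; the others are in `ker ξ`, so every term of
`wdg Ω w₀` (a sum over permutations) contains `w₀` of two vectors of `ker ξ` and vanishes; so
`w₀(e, f) = 0` and `w₀ = 0`.  (`StEq_iff`, `OFr_iff` in `MP_a1f430_ti/Final.lean` may be used, as well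
as the expansion of `wdg` in `B_AL1.lean`.) -/
def Stmt_DM1 : Prop :=
  ∀ (m : ℕ) (h : Bil (Eu (m + 4))) (Ω : Frm m (Eu (m + 4))) (w₀ : Frm 2 (Eu (m + 4))),
    (∀ v w, h v w = h w v) → (∀ v, v ≠ 0 → 0 < h v v) →
    (∀ w : Frm 2 (Eu (m + 4)), StEq (stb (m + 4)) h Ω w → ∃ c : ℝ, w = c • w₀) →
    FTy (stb (m + 4)) h Ω

end Pool.TIW
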