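import Pool.Agent.Work.MP_a1f430_wb.Interface2

/-! # Curvatures of type (2,0)+(0,2), blocks (MP_a1f430, THEOREM J, helper24)

Block `X` lives in `Pool/Agent/Work/MP_a1f430_wb/B_X.lean` (import this file, namespace `Pool.TIW`, the
`open` lines of this file) and proves `theorem p_X : Stmt_X` or
`theorem p_X (h1 : Stmt_Y) ... : Stmt_X` with the statements of the column `uses` as hypotheses in
that order (`TI.Y` = `Pool.TIA.Stmt_Y`).  Auxiliary lemmas have the prefix `X_`.  Finished files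
`MP_a1f430_ti/B_Y.lean`, `MP_a1f430_wb/B_Y.lean` may be imported for their auxiliary lemmas
(`DLI_...`, `TRP_...`, `SSL_...`, `GSL_...` are useful).

THE THEOREM: let `J` be a constant complex structure and `F(Ju, Jv) = -F(u, v)` for the curvature `F` of
the weak connection `A`.  Then `A` is locally gauge equivalent to a smooth connection.
PROOF.  (1) By the Bianchi identity the pairs `P = F(u, v)`, `Q = -F(u, Jv)` are holomorphic: `D_w P =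
D_{Jw} Q` (`HolP`; think of `P + i Q`).  (2) Coordinates `(w, z) ∈ V × ℂ`: `F(∂_x, ∂_y) = 0`, so there is a
gauge with `A(∂_x) = A(∂_y) = 0` (KFT).  Now `A_v - i A_{Jv}` (CRA) and `P + i Q` for every holomorphic
pair are weakly holomorphic functions of `z`, and `[A_v + i A_{Jv}, P + i Q]` also is (GID).  A function
of one complex variable of the form `∑ β conj(c_j) h_k` (`c_j`, `h_k` holomorphic, `c_j(z₁) = 0`) with
`∑ β conj(c_j') h_k = 0` vanishes (HOZ).  So (KEY) `[conj(α_v(z) - α_v(z₁)), P + i Q] = 0`,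
`α_v = A_v - i A_{Jv}`, i.e. the slices `P(·, z) + i Q(·, z)` are holomorphic pairs for the ONE connection
`B = A(·, z₁)` on `V` (HPB).  (3) Induction on the dimension (`GoodJ`): a gauge `k(w)` makes `B` smooth
and all holomorphic pairs for `B` weakly holomorphic in the usual sense; so `star k P k`, `star k Q k`
are weakly holomorphic on `V × ℂ` (JWH), hence smooth (WHS); the connection in this gauge is
`S(w) + ∫_{z₁}^z Re(...)` and is smooth (SMA). -/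

set_option autoImplicit false

namespace Pool.TIW

open Pool.TIA
open MeasureTheory Set Filter Topology
open scoped ContDiff ENNReal

/-- The Lebesgue measure of a product is a Haar measure. -/
instance haarProdT (V T : Type) [NormedAddCommGroup V] [NormedSpace ℝ V] [FiniteDimensional ℝ V]
    [MeasureSpace V] [BorelSpace V] [(volume : Measure V).IsAddHaarMeasure]
    [NormedAddCommGroup T] [NormedSpace ℝ T] [FiniteDimensional ℝ T]
    [MeasureSpace T] [BorelSpace T] [(volume : Measure T).IsAddHaarMeasure] :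
    (volume : Measure (V × T)).IsAddHaarMeasure := by
  rw [Measure.volume_eq_prod]
  infer_instance

/-- The commutator. -/
def brk {𝔐 : Type} [NormedRing 𝔐] (X Y : 𝔐) : 𝔐 := X * Y - Y * X

/-- Multiplication by `i`. -/
noncomputable def mulI : ℂ →L[ℝ] ℂ := ContinuousLinearMap.mul ℝ ℂ Complex.I

theorem mulI_apply (z : ℂ) : mulI z = Complex.I * z := rfl

section defs

variable {E : Type} [NormedAddCommGroup E] [NormedSpace ℝ E]

/-- `J` is a complex structure. -/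
def Cpx (J : E →L[ℝ] E) : Prop := ∀ v, J (J v) = -v

/-- The complex structure `J × i` on `E × ℂ`. -/
noncomputable def JC (J : E →L[ℝ] E) : E × ℂ →L[ℝ] E × ℂ := J.prodMap mulI

theorem JC_apply (J : E →L[ℝ] E) (v : E) (z : ℂ) : JC J (v, z) = (J v, Complex.I * z) := rfl

theorem Cpx_mulI : Cpx mulI := fun v => by
  rw [mulI_apply, mulI_apply, ← mul_assoc, Complex.I_mul_I, neg_one_mul]

theorem Cpx_JC {J : E →L[ℝ] E} (h : Cpx J) : Cpx (JC J) := fun ⟨v, z⟩ => by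
  rw [JC_apply, JC_apply, h v, ← mul_assoc, Complex.I_mul_I, neg_one_mul]; rfl

variable [MeasureSpace E]

/-- `P + i Q` is weakly holomorphic on `W` for the complex structure `J`: `∂_v P = ∂_{Jv} Q`. -/
structure WHol {X : Type} [NormedAddCommGroup X] [NormedSpace ℝ X] (W : Set E) (J : E →L[ℝ] E)
    (P Q : E → X) : Prop where
  P2 : L2loc W P
  Q2 : L2loc W Q
  eq : ∀ φ : E → ℝ, Test W φ → ∀ v : E,
    ∫ x, (fderiv ℝ φ x v • P x - fderiv ℝ φ x (J v) • Q x) = 0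

variable {𝔐 : Type} [NormedRing 𝔐] [NormedAlgebra ℝ 𝔐] [StarRing 𝔐]

/-- `P + i Q` is holomorphic on `W` for the connection `A`: `D_v P - D_{Jv} Q = 0`. -/
structure HolP (W : Set E) (A : E → E →L[ℝ] 𝔐) (J : E →L[ℝ] E) (P Q : E → 𝔐) : Prop where
  P2 : L2loc W P
  Q2 : L2loc W Q
  eq : ∀ v : E, Div W A ![v, J v] ![P, fun x => -Q x] (fun _ => 0)

/-- `F` is of type (2,0)+(0,2). -/
def J20 (W : Set E) (J : E →L[ℝ] E) (F : E → E [⋀^Fin 2]→L[ℝ] 𝔐) : Prop :=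
  ∀ᵐ x ∂(volume.restrict W), ∀ u v, F x ![J u, J v] = -F x ![u, v]

/-- Near `x` there is a gauge in which `A` is smooth and all holomorphic pairs for `A` are weakly
holomorphic pairs in the usual sense. -/
def NiceJ (𝒢 : LieG 𝔐) (W : Set E) (A : E → E →L[ℝ] 𝔐) (J : E →L[ℝ] E) (x : E) : Prop :=
  ∃ (W₁ : Set E) (S : E → E →L[ℝ] 𝔐) (g : E → 𝔐) (dg : E → E →L[ℝ] 𝔐),
    IsOpen W₁ ∧ x ∈ W₁ ∧ W₁ ⊆ W ∧ Gau 𝒢 W₁ A S g dg ∧ ContDiffOn ℝ ∞ S W₁ ∧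
    (∀ y ∈ W₁, ∀ v, S y v ∈ 𝒢.lie) ∧
    ∀ P Q : E → 𝔐, HolP W A J P Q →
      WHol W₁ J (fun y => star (g y) * P y * g y) (fun y => star (g y) * Q y * g y)

end defs

/-- All weak connections with curvature of type (2,0)+(0,2) are regular. -/
def GoodJ (𝔐 : Type) [NormedRing 𝔐] [NormedAlgebra ℝ 𝔐] [StarRing 𝔐] (𝒢 : LieG 𝔐) (E : Type)
    [NormedAddCommGroup E] [NormedSpace ℝ E] [MeasureSpace E] (J : E →L[ℝ] E) : Prop :=
  ∀ (W : Set E) (A : E → E →L[ℝ] 𝔐) (F : E → E [⋀^Fin 2]→L[ℝ] 𝔐), IsOpen W →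
    Conn 𝒢 W A F → J20 W J F → ∀ x ∈ W, NiceJ 𝒢 W A J x

section prods

variable {V : Type} [NormedAddCommGroup V] [NormedSpace ℝ V] [MeasureSpace V]
variable {T : Type} [NormedAddCommGroup T] [NormedSpace ℝ T]
variable {X : Type} [NormedAddCommGroup X] [NormedSpace ℝ X]
variable {𝔐 : Type} [NormedRing 𝔐] [NormedAlgebra ℝ 𝔐] [StarRing 𝔐]

/-- The restriction to the slice `t` of a one-form on `V × T`. -/
noncomputable def rc1 (A : V × T → V × T →L[ℝ] 𝔐) (t : T) (y : V) : V →L[ℝ] 𝔐 :=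
  (A (y, t)).comp (ContinuousLinearMap.inl ℝ V T)

/-- The restriction to the slice `t` of a two-form on `V × T`. -/
noncomputable def rc2 (F : V × T → (V × T) [⋀^Fin 2]→L[ℝ] 𝔐) (t : T) (y : V) :
    V [⋀^Fin 2]→L[ℝ] 𝔐 :=
  (F (y, t)).compContinuousLinearMap (ContinuousLinearMap.inl ℝ V T)

omit [MeasureSpace V] [StarRing 𝔐] in
theorem rc1_apply (A : V × T → V × T →L[ℝ] 𝔐) (t : T) (y v : V) : rc1 A t y v = A (y, t) (v, 0) :=
  rfl

omit [MeasureSpace V] [StarRing 𝔐] in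
theorem rc2_apply (F : V × T → (V × T) [⋀^Fin 2]→L[ℝ] 𝔐) (t : T) (y u v : V) :
    rc2 F t y ![u, v] = F (y, t) ![(u, 0), (v, 0)] := by
  show F (y, t) _ = _
  congr 1
  funext i
  fin_cases i <;> rfl

/-- The value of `f` at `z₁` is the value of the continuous representative of `f` on `D`. -/
def Rp {X : Type} [NormedAddCommGroup X] (D : Set ℂ) (f : ℂ → X) (z₁ : ℂ) : Prop :=
  ∃ c : ℂ → X, ContinuousOn c D ∧ (∀ᵐ z ∂(volume.restrict D), f z = c z) ∧ f z₁ = c z₁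

/-- `P + i Q` is weakly holomorphic in `z`. -/
structure ZHol (W : Set (V × ℂ)) (P Q : V × ℂ → X) : Prop where
  P2 : L2loc W P
  Q2 : L2loc W Q
  eq : ∀ φ : V × ℂ → ℝ, Test W φ → ∀ ζ : ℂ,
    ∫ p, (fderiv ℝ φ p (0, ζ) • P p - fderiv ℝ φ p (0, Complex.I * ζ) • Q p) = 0

/-- A connection on `W₁ × ball z₀ r` with curvature of type (2,0)+(0,2) and `A(∂_x) = A(∂_y) = 0`. -/
structure Flat (𝒢 : LieG 𝔐) (J : V →L[ℝ] V) (W₁ : Set V) (z₀ : ℂ) (r : ℝ)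
    (A : V × ℂ → V × ℂ →L[ℝ] 𝔐) (F : V × ℂ → (V × ℂ) [⋀^Fin 2]→L[ℝ] 𝔐) : Prop where
  op : IsOpen W₁
  pos : 0 < r
  cpx : Cpx J
  conn : Conn 𝒢 (W₁ ×ˢ Metric.ball z₀ r) A F
  typ : J20 (W₁ ×ˢ Metric.ball z₀ r) (JC J) F
  flat : ∀ᵐ p ∂(volume.restrict (W₁ ×ˢ Metric.ball z₀ r)), ∀ ζ : ℂ, A p (0, ζ) = 0

/-- `z₁` is a good time for the slice. -/
structure GoodZ (𝒢 : LieG 𝔐) (J : V →L[ℝ] V) (W₁ : Set V) (z₀ : ℂ) (r : ℝ)
    (A : V × ℂ → V × ℂ →L[ℝ] 𝔐) (F : V × ℂ → (V × ℂ) [⋀^Fin 2]→L[ℝ] 𝔐) (z₁ : ℂ) : Prop where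
  mem : z₁ ∈ Metric.ball z₀ r
  conn : Conn 𝒢 W₁ (rc1 A z₁) (rc2 F z₁)
  typ : J20 W₁ J (rc2 F z₁)
  rp : ∀ᵐ w ∂(volume.restrict W₁), ∀ v : V,
    Rp (Metric.ball z₀ r) (fun z => A (w, z) (v, 0)) z₁

end prods

/-! ## Part A: products and slices -/

/-- FUB (100 lines; uses nothing).  Fubini for null sets, both orders, for the set `f ≠ 0` of an
almost everywhere strongly measurable `f` (`volume.restrict (W₁ ×ˢ T₁)` is the product of the restrictions,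
`Measure.prod_restrict`; `Measure.ae_ae_of_ae_prod`; for the converse replace `f` by a strongly
measurable function and use `Measure.measure_prod_null`, or `Measure.ae_prod_iff_ae_ae`-type lemmas;
the other order by `Prod.swap`). -/
def Stmt_FUB : Prop :=
  ∀ (V T X : Type) [NormedAddCommGroup V] [NormedSpace ℝ V] [FiniteDimensional ℝ V]
    [MeasureSpace V] [BorelSpace V] [(volume : Measure V).IsAddHaarMeasure]
    [NormedAddCommGroup T] [NormedSpace ℝ T] [FiniteDimensional ℝ T]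
    [MeasureSpace T] [BorelSpace T] [(volume : Measure T).IsAddHaarMeasure]
    [NormedAddCommGroup X] [NormedSpace ℝ X] [FiniteDimensional ℝ X] (W₁ : Set V) (T₁ : Set T)
    (f : V × T → X), IsOpen W₁ → IsOpen T₁ →
    AEStronglyMeasurable f (volume.restrict (W₁ ×ˢ T₁)) →
    ((∀ᵐ p ∂(volume.restrict (W₁ ×ˢ T₁)), f p = 0) ↔
      ∀ᵐ w ∂(volume.restrict W₁), ∀ᵐ t ∂(volume.restrict T₁), f (w, t) = 0) ∧
    ((∀ᵐ p ∂(volume.restrict (W₁ ×ˢ T₁)), f p = 0) ↔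
      ∀ᵐ t ∂(volume.restrict T₁), ∀ᵐ w ∂(volume.restrict W₁), f (w, t) = 0)

/-- SL2 (100 lines; uses nothing).  Slices of `L²_loc` functions (adapt `SSL_L2` in `B_SSL.lean`):
exhaust `W₁ × T₁` by the compact sets `K_j × T_j`. -/
def Stmt_SL2 : Prop :=
  ∀ (V T X : Type) [NormedAddCommGroup V] [NormedSpace ℝ V] [FiniteDimensional ℝ V]
    [MeasureSpace V] [BorelSpace V] [(volume : Measure V).IsAddHaarMeasure]
    [NormedAddCommGroup T] [NormedSpace ℝ T] [FiniteDimensional ℝ T]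
    [MeasureSpace T] [BorelSpace T] [(volume : Measure T).IsAddHaarMeasure]
    [NormedAddCommGroup X] [NormedSpace ℝ X] [FiniteDimensional ℝ X] (W₁ : Set V) (T₁ : Set T)
    (f : V × T → X), IsOpen W₁ → IsOpen T₁ → L2loc (W₁ ×ˢ T₁) f →
    (∀ᵐ t ∂(volume.restrict T₁), L2loc W₁ (fun w => f (w, t))) ∧
    ∀ᵐ w ∂(volume.restrict W₁), L2loc T₁ (fun t => f (w, t))

/-- GST (300 lines; uses TI.MOA).  Slices of a first order equation, as `GSL` with the parameter in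
the open set `T₁` instead of `(a, b)`: adapt `B_GSL.lean` (the hypotheses on `(a, b)` are only used
through the test functions `φ(y) χ(t)`). -/
def Stmt_GST : Prop :=
  ∀ (V T X : Type) [NormedAddCommGroup V] [NormedSpace ℝ V] [FiniteDimensional ℝ V]
    [MeasureSpace V] [BorelSpace V] [(volume : Measure V).IsAddHaarMeasure]
    [NormedAddCommGroup T] [NormedSpace ℝ T] [FiniteDimensional ℝ T]
    [MeasureSpace T] [BorelSpace T] [(volume : Measure T).IsAddHaarMeasure]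
    [NormedAddCommGroup X] [NormedSpace ℝ X] [FiniteDimensional ℝ X] (W₁ : Set V) (T₁ : Set T)
    (m : ℕ) (v : Fin m → V) (f : Fin m → V × T → X) (R : V × T → X), IsOpen W₁ → IsOpen T₁ →
    (∀ k, L1loc (W₁ ×ˢ T₁) (f k)) → L1loc (W₁ ×ˢ T₁) R →
    (∀ φ : V × T → ℝ, Test (W₁ ×ˢ T₁) φ →
      ∫ p, ∑ k, fderiv ℝ φ p (v k, 0) • f k p = ∫ p, φ p • R p) →
    ∀ᵐ t ∂(volume.restrict T₁), (∀ k, L1loc W₁ fun y => f k (y, t)) ∧
      (L1loc W₁ fun y => R (y, t)) ∧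
      ∀ φ : V → ℝ, Test W₁ φ →
        ∫ y, ∑ k, fderiv ℝ φ y (v k) • f k (y, t) = ∫ y, φ y • R (y, t)

/-- GSS (100 lines; uses GST).  The same for the other factor: apply GST to `T × V` and the functions
`f k ∘ Prod.swap` (`Prod.swap` preserves the volume, `Measure.measurePreserving_swap`, `integral_map` or
`MeasurePreserving.integral_comp'`; `φ ∘ Prod.swap` is a test function). -/
def Stmt_GSS : Prop :=
  ∀ (V T X : Type) [NormedAddCommGroup V] [NormedSpace ℝ V] [FiniteDimensional ℝ V]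
    [MeasureSpace V] [BorelSpace V] [(volume : Measure V).IsAddHaarMeasure]
    [NormedAddCommGroup T] [NormedSpace ℝ T] [FiniteDimensional ℝ T]
    [MeasureSpace T] [BorelSpace T] [(volume : Measure T).IsAddHaarMeasure]
    [NormedAddCommGroup X] [NormedSpace ℝ X] [FiniteDimensional ℝ X] (W₁ : Set V) (T₁ : Set T)
    (m : ℕ) (v : Fin m → T) (f : Fin m → V × T → X) (R : V × T → X), IsOpen W₁ → IsOpen T₁ →
    (∀ k, L1loc (W₁ ×ˢ T₁) (f k)) → L1loc (W₁ ×ˢ T₁) R →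
    (∀ φ : V × T → ℝ, Test (W₁ ×ˢ T₁) φ →
      ∫ p, ∑ k, fderiv ℝ φ p (0, v k) • f k p = ∫ p, φ p • R p) →
    ∀ᵐ w ∂(volume.restrict W₁), (∀ k, L1loc T₁ fun t => f k (w, t)) ∧
      (L1loc T₁ fun t => R (w, t)) ∧
      ∀ φ : T → ℝ, Test T₁ φ →
        ∫ t, ∑ k, fderiv ℝ φ t (v k) • f k (w, t) = ∫ t, φ t • R (w, t)

/-- CSL (200 lines; uses SL2 GST).  Slices of connections (as in `B_SSL.lean`, see `SSL_curv`). -/
def Stmt_CSL : Prop :=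
  ∀ (𝔐 : Type) [NormedRing 𝔐] [NormedAlgebra ℝ 𝔐] [StarRing 𝔐] [CStarRing 𝔐] [StarModule ℝ 𝔐]
    [FiniteDimensional ℝ 𝔐] (𝒢 : LieG 𝔐) (V T : Type) [NormedAddCommGroup V] [NormedSpace ℝ V]
    [FiniteDimensional ℝ V] [MeasureSpace V] [BorelSpace V]
    [(volume : Measure V).IsAddHaarMeasure] [NormedAddCommGroup T] [NormedSpace ℝ T]
    [FiniteDimensional ℝ T] [MeasureSpace T] [BorelSpace T]
    [(volume : Measure T).IsAddHaarMeasure] (W₁ : Set V) (T₁ : Set T)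
    (A : V × T → V × T →L[ℝ] 𝔐) (F : V × T → (V × T) [⋀^Fin 2]→L[ℝ] 𝔐), IsOpen W₁ →
    IsOpen T₁ → Conn 𝒢 (W₁ ×ˢ T₁) A F →
    ∀ᵐ t ∂(volume.restrict T₁), Conn 𝒢 W₁ (rc1 A t) (rc2 F t)

/-- GPC (200 lines; uses TI.LIE LBR).  The pullback of a gauge change `k(y)` of the connection `B` on `V`, for
any connection `A` on `V × T`: `d(k ∘ fst)(v, t) = dk v = k S_v - B_v k` and
`k S'(v, t) - A(v, t) k = k S_v + (A(v, t) - B_v) k - A(v, t) k`.  The weak derivative of `k ∘ fst` by Fubini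
as in `B_EXT.lean`; `S' ∈ L²` because `|star k X k| ≤ |X|`. -/
def Stmt_GPC : Prop :=
  ∀ (𝔐 : Type) [NormedRing 𝔐] [NormedAlgebra ℝ 𝔐] [StarRing 𝔐] [CStarRing 𝔐] [StarModule ℝ 𝔐]
    [FiniteDimensional ℝ 𝔐] (𝒢 : LieG 𝔐) (V T : Type) [NormedAddCommGroup V] [NormedSpace ℝ V]
    [FiniteDimensional ℝ V] [MeasureSpace V] [BorelSpace V]
    [(volume : Measure V).IsAddHaarMeasure] [NormedAddCommGroup T] [NormedSpace ℝ T]
    [FiniteDimensional ℝ T] [MeasureSpace T] [BorelSpace T]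
    [(volume : Measure T).IsAddHaarMeasure] (W₁ : Set V) (T₁ : Set T) (B S : V → V →L[ℝ] 𝔐)
    (k : V → 𝔐) (dk : V → V →L[ℝ] 𝔐) (A S' : V × T → V × T →L[ℝ] 𝔐), IsOpen W₁ → IsOpen T₁ →
    Gau 𝒢 W₁ B S k dk → L2loc W₁ B → (∀ᵐ y ∂(volume.restrict W₁), ∀ v, B y v ∈ 𝒢.lie) →
    L2loc (W₁ ×ˢ T₁) A → (∀ᵐ p ∂(volume.restrict (W₁ ×ˢ T₁)), ∀ v, A p v ∈ 𝒢.lie) →
    (∀ᵐ p ∂(volume.restrict (W₁ ×ˢ T₁)), ∀ (v : V) (t : T), S' p (v, t) =
      S p.1 v + star (k p.1) * (A p (v, t) - B p.1 v) * k p.1) →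
    Gau 𝒢 (W₁ ×ˢ T₁) A S' (fun p => k p.1)
      (fun p => (dk p.1).comp (ContinuousLinearMap.fst ℝ V T))

/-! ## Part B: the flat gauge -/

/-- KFR (300 lines; uses KT4 CG2 GCO DBR CSL GPC).  Write `∂_x = ((0, 1), 0)`, `∂_y = ((0, 0), 1)`.
KT4 with `V × ℝ` in place of `V` on a box around `p₀` gives `A₁` with `A₁(∂_y) = 0` and curvature
`F₁ = star g F g` (CG2), so `F₁(∂_x, ∂_y) = 0` and `IsCurv` for `(∂_y, ∂_x)` says that `A₁(∂_x)` has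
vanishing weak derivative in `y`; DBR: it is a function of `(w, x)`, almost everywhere equal to
`B(∂_x)` for almost every slice `B = rc1 A₁ y₁` (CSL with `T = ℝ`).  KT4 for `B` on a box in `V × ℝ` gives
`k(w, x)` and `S` with `S(∂_x) = 0`; GPC (`T = ℝ`) with `S'(v, t) = S_v + star k (A₁(v, t) - B_v) k`:
`S'(∂_x) = 0 + star k (A₁(∂_x) - B(∂_x)) k = 0`, `S'(∂_y) = 0`.  GCO composes the two gauges. -/
def Stmt_KFR : Prop :=
  ∀ (𝔐 : Type) [NormedRing 𝔐] [NormedAlgebra ℝ 𝔐] [StarRing 𝔐] [CStarRing 𝔐] [StarModule ℝ 𝔐]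
    [FiniteDimensional ℝ 𝔐] (𝒢 : LieG 𝔐) (V : Type) [NormedAddCommGroup V] [NormedSpace ℝ V]
    [FiniteDimensional ℝ V] [MeasureSpace V] [BorelSpace V]
    [(volume : Measure V).IsAddHaarMeasure] (W : Set ((V × ℝ) × ℝ))
    (A : (V × ℝ) × ℝ → (V × ℝ) × ℝ →L[ℝ] 𝔐)
    (F : (V × ℝ) × ℝ → ((V × ℝ) × ℝ) [⋀^Fin 2]→L[ℝ] 𝔐) (p₀ : (V × ℝ) × ℝ), IsOpen W →
    Conn 𝒢 W A F → (∀ᵐ p ∂(volume.restrict W), F p ![((0, 1), 0), ((0, 0), 1)] = 0) → p₀ ∈ W →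
    ∃ (r : ℝ) (A' : (V × ℝ) × ℝ → (V × ℝ) × ℝ →L[ℝ] 𝔐) (g : (V × ℝ) × ℝ → 𝔐)
      (dg : (V × ℝ) × ℝ → (V × ℝ) × ℝ →L[ℝ] 𝔐), 0 < r ∧ Metric.ball p₀ r ⊆ W ∧
      Gau 𝒢 (Metric.ball p₀ r) A A' g dg ∧
      ∀ᵐ p ∂(volume.restrict (Metric.ball p₀ r)),
        A' p ((0, 1), 0) = 0 ∧ A' p ((0, 0), 1) = 0

/-- KFT (200 lines; uses TI.PBC KFR).  Transport to `V × ℂ` by `((w, x), y) ↦ (w, x + i y)`: pull back the
connection (PBC, `F(∂_x, ∂_y) = 0` is the hypothesis), KFR, and push the gauge forward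
(`TRP_WD`, `TRP_L2`, `TRP_ae` in `B_TRP.lean`); the image of the ball contains a ball. -/
def Stmt_KFT : Prop :=
  ∀ (𝔐 : Type) [NormedRing 𝔐] [NormedAlgebra ℝ 𝔐] [StarRing 𝔐] [CStarRing 𝔐] [StarModule ℝ 𝔐]
    [FiniteDimensional ℝ 𝔐] (𝒢 : LieG 𝔐) (V : Type) [NormedAddCommGroup V] [NormedSpace ℝ V]
    [FiniteDimensional ℝ V] [MeasureSpace V] [BorelSpace V]
    [(volume : Measure V).IsAddHaarMeasure] (W : Set (V × ℂ)) (A : V × ℂ → V × ℂ →L[ℝ] 𝔐)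
    (F : V × ℂ → (V × ℂ) [⋀^Fin 2]→L[ℝ] 𝔐) (p₀ : V × ℂ), IsOpen W → Conn 𝒢 W A F →
    (∀ᵐ p ∂(volume.restrict W), F p ![(0, 1), (0, Complex.I)] = 0) → p₀ ∈ W →
    ∃ (r : ℝ) (A' : V × ℂ → V × ℂ →L[ℝ] 𝔐) (g : V × ℂ → 𝔐) (dg : V × ℂ → V × ℂ →L[ℝ] 𝔐),
      0 < r ∧ Metric.ball p₀ r ⊆ W ∧ Gau 𝒢 (Metric.ball p₀ r) A A' g dg ∧
      ∀ᵐ p ∂(volume.restrict (Metric.ball p₀ r)), ∀ ζ : ℂ, A' p (0, ζ) = 0

/-! ## Part C: the curvature is holomorphic -/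

/-- BIG (150 lines; uses TI.PBC BIA DLI).  The Bianchi identity on every space: transport BIA by a
linear isomorphism `Eu n ≃L E` (see the proof of BIA, `TRP_pb1`, `TRP_pb2`). -/
def Stmt_BIG : Prop :=
  ∀ (𝔐 : Type) [NormedRing 𝔐] [NormedAlgebra ℝ 𝔐] [StarRing 𝔐] [CStarRing 𝔐] [StarModule ℝ 𝔐]
    [FiniteDimensional ℝ 𝔐] (𝒢 : LieG 𝔐) (E : Type) [NormedAddCommGroup E] [NormedSpace ℝ E]
    [FiniteDimensional ℝ E] [MeasureSpace E] [BorelSpace E]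
    [(volume : Measure E).IsAddHaarMeasure] (W : Set E) (A : E → E →L[ℝ] 𝔐)
    (F : E → E [⋀^Fin 2]→L[ℝ] 𝔐), IsOpen W → Conn 𝒢 W A F → ∀ u v w : E,
    Div W A ![u, v, w] (cyc F u v w) (fun _ => 0)

/-- BHO (150 lines; uses BIG).  Write `⟨d, a, b⟩ = ∫ (∂_d φ F_ab - φ [A_d, F_ab])` for a fixed test
function (bilinear and antisymmetric in `(a, b)`, linear in `d`, and `F(Ja, Jb) = -F(a, b)`).  BIG says
that the cyclic sum vanishes.  `τ(w, u, v) = ⟨w, u, v⟩ + ⟨Jw, u, Jv⟩`; then `τ(w, v, u) = -τ(w, u, v)`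
(`F(Ju, v) = F(u, Jv)`), and the sum of BIG for `(w, u, v)` and for `(Jw, u, Jv)` is
`τ(w, u, v) + τ(v, w, u) = 0`; so `τ(w, u, v) = τ(v, u, w)`, and a function which is antisymmetric in the
last two and symmetric in the first and third variable vanishes.  `τ = 0` is the claim. -/
def Stmt_BHO : Prop :=
  ∀ (𝔐 : Type) [NormedRing 𝔐] [NormedAlgebra ℝ 𝔐] [StarRing 𝔐] [CStarRing 𝔐] [StarModule ℝ 𝔐]
    [FiniteDimensional ℝ 𝔐] (𝒢 : LieG 𝔐) (E : Type) [NormedAddCommGroup E] [NormedSpace ℝ E]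
    [FiniteDimensional ℝ E] [MeasureSpace E] [BorelSpace E]
    [(volume : Measure E).IsAddHaarMeasure] (J : E →L[ℝ] E) (W : Set E) (A : E → E →L[ℝ] 𝔐)
    (F : E → E [⋀^Fin 2]→L[ℝ] 𝔐), Cpx J → IsOpen W → Conn 𝒢 W A F → J20 W J F → ∀ u v : E,
    HolP W A J (fun x => F x ![u, v]) (fun x => -F x ![u, J v])

/-! ## Part D: one complex variable and Weyl's lemma -/

/-- KER (250 lines; uses nothing).  The mean value property of holomorphic functions.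
`R_θ = cos θ + sin θ J` is invertible (`R_θ R_{-θ} = 1`) and `|det R_θ| = 1` (`R_θ^n = R_{nθ}` is bounded for
`n ∈ ℤ`, so the powers of `|det R_θ|` are bounded), so it preserves the volume.  For a bump function
`ρ₀` with integral `1` supported in `ball 0 (ε / (2 (1 + ‖J‖)))` put `ρ(u) = (1 / 2π) ∫_0^{2π} ρ₀(R_θ u) dθ`
(smooth).  `∫ ρ(u) P(x + u) du = ∫ ρ₀(u) (1 / 2π) ∫ P(x + R_{-θ} u) dθ du`, and for fixed `u` the function
`ζ = a + i b ↦ l(P + i Q)(x + a u + b J u)` (`l` a linear functional) is holomorphic on a neighbourhood of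
the closed unit disk, so its circle average is its value at `0` (`circleAverage`, `circleIntegral`). -/
def Stmt_KER : Prop :=
  ∀ (E : Type) [NormedAddCommGroup E] [NormedSpace ℝ E] [FiniteDimensional ℝ E]
    [MeasureSpace E] [BorelSpace E] [(volume : Measure E).IsAddHaarMeasure] (J : E →L[ℝ] E)
    (ε : ℝ), Cpx J → 0 < ε → ∃ ρ : E → ℝ, ContDiff ℝ ∞ ρ ∧ HasCompactSupport ρ ∧
    tsupport ρ ⊆ Metric.ball 0 ε ∧
    ∀ (X : Type) [NormedAddCommGroup X] [NormedSpace ℝ X] [FiniteDimensional ℝ X]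
      (P Q : E → X) (x : E), ContDiffOn ℝ ∞ P (Metric.ball x ε) →
      ContDiffOn ℝ ∞ Q (Metric.ball x ε) →
      (∀ y ∈ Metric.ball x ε, ∀ v, fderiv ℝ P y v = fderiv ℝ Q y (J v)) →
      ∫ u, ρ u • P (x + u) = P x

/-- WHS (300 lines; uses TI.MOA TI.MOT KER).  Weyl's lemma: weakly holomorphic functions are smooth.
Let `closedBall x₀ (3 ε) ⊆ W`.  The mollifications `P_j = mol j (1_{closedBall x₀ (3 ε)} P)`, `Q_j` are smooth
and satisfy the Cauchy-Riemann equations on `ball x₀ (2 ε)` for large `j` (MOA: the derivative is an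
integral against the derivative of a test function; `WHol.eq`), so `P_j(x) = ∫ ρ(u) P_j(x + u) du` on
`ball x₀ ε` (KER); `j → ∞` (MOT): `P(x) = ∫ ρ(u) P(x + u) du` for almost all `x ∈ ball x₀ ε`, and the right
side is smooth.  The same for `Q` (the pair `(Q, -P)` is holomorphic).  The local representatives are
unique (`Measure.eqOn_open_of_ae_eq`), so they fit together (choose one for every point of `W`);
countably many balls cover `W`.  The Cauchy-Riemann equations hold by integration by parts. -/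
def Stmt_WHS : Prop :=
  ∀ (E X : Type) [NormedAddCommGroup E] [NormedSpace ℝ E] [FiniteDimensional ℝ E]
    [MeasureSpace E] [BorelSpace E] [(volume : Measure E).IsAddHaarMeasure]
    [NormedAddCommGroup X] [NormedSpace ℝ X] [FiniteDimensional ℝ X] (J : E →L[ℝ] E)
    (W : Set E) (P Q : E → X), Cpx J → IsOpen W → WHol W J P Q →
    ∃ P' Q' : E → X, ContDiffOn ℝ ∞ P' W ∧ ContDiffOn ℝ ∞ Q' W ∧
    (∀ᵐ x ∂(volume.restrict W), P x = P' x ∧ Q x = Q' x) ∧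
    ∀ x ∈ W, ∀ v, fderiv ℝ P' x v = fderiv ℝ Q' x (J v)

/-- HOZ (150 lines; uses nothing).  Put `G(z) = ∑ β_jk conj(c_j(z)) h_k(z)`.  The real derivative of `G` in
the direction `v` is `(∑ β conj(c_j') h_k) conj v + (∑ β conj(c_j) h_k') v`, the first term vanishes, so `G`
is holomorphic with `G' = ∑ β conj(c_j) h_k'`.  The real derivative of `0 = ∑ β conj(c_j') h_k` is
`X conj v + Y v` with `Y = ∑ β conj(c_j') h_k'`, for `v = 1, i` this gives `Y = 0`: the hypotheses hold for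
the family `h_k'`.  By induction the `n`-th derivative of `G` is `∑ β conj(c_j) h_k^{(n)}`, which vanishes
at `z₁`; so `G = 0` near `z₁` and on the disk (`AnalyticOnNhd.eqOn_zero_of_preconnected_of_eventuallyEq_zero`). -/
def Stmt_HOZ : Prop :=
  ∀ (ι : Type) [Fintype ι] (z₀ z₁ : ℂ) (r : ℝ) (c h : ι → ℂ → ℂ) (β : ι → ι → ℂ),
    z₁ ∈ Metric.ball z₀ r → (∀ j, DifferentiableOn ℂ (c j) (Metric.ball z₀ r)) →
    (∀ j, DifferentiableOn ℂ (h j) (Metric.ball z₀ r)) → (∀ j, c j z₁ = 0) →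
    (∀ z ∈ Metric.ball z₀ r,
      ∑ j, ∑ k, β j k * (starRingEnd ℂ) (deriv (c j) z) * h k z = 0) →
    ∀ z ∈ Metric.ball z₀ r, ∑ j, ∑ k, β j k * (starRingEnd ℂ) (c j z) * h k z = 0

/-- KW1 (250 lines; uses WHS HOZ).  WHS gives smooth representatives; with a basis `e_j` of `𝔐`,
`[e_j, e_k] = ∑_l β^l_jk e_l`, the functions `α_j = a_j + i b_j` and `h_k = P_k + i Q_k` are holomorphic on the
disk.  The two weak identities say (smooth functions, integration by parts) that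
`G = (brk a P + brk b Q) + i (brk a Q - brk b P)`, i.e. `G^l = ∑ β^l_jk conj(α_j) h_k`, satisfies the
Cauchy-Riemann equations: `∑ β^l_jk conj(α_j') h_k = 0`.  HOZ with `c_j = α_j - α_j(z₁)`; the values at `z₁`
are those of `a`, `b` by `Rp` (two continuous representatives on an open set are equal). -/
def Stmt_KW1 : Prop :=
  ∀ (𝔐 : Type) [NormedRing 𝔐] [NormedAlgebra ℝ 𝔐] [FiniteDimensional ℝ 𝔐] (z₀ z₁ : ℂ) (r : ℝ)
    (a b P Q : ℂ → 𝔐), z₁ ∈ Metric.ball z₀ r → WHol (Metric.ball z₀ r) mulI a b →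
    WHol (Metric.ball z₀ r) mulI P Q →
    (∀ φ : ℂ → ℝ, Test (Metric.ball z₀ r) φ →
      ∫ z, (fderiv ℝ φ z 1 • (brk (a z) (P z) + brk (b z) (Q z)) -
        fderiv ℝ φ z Complex.I • (brk (a z) (Q z) - brk (b z) (P z))) = 0) →
    (∀ φ : ℂ → ℝ, Test (Metric.ball z₀ r) φ →
      ∫ z, (fderiv ℝ φ z 1 • (brk (a z) (Q z) - brk (b z) (P z)) +
        fderiv ℝ φ z Complex.I • (brk (a z) (P z) + brk (b z) (Q z))) = 0) →
    Rp (Metric.ball z₀ r) a z₁ → Rp (Metric.ball z₀ r) b z₁ →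
    ∀ᵐ z ∂(volume.restrict (Metric.ball z₀ r)),
      brk (a z - a z₁) (P z) + brk (b z - b z₁) (Q z) = 0

/-- KW0 (100 lines; uses WHS).  `(f, 0)` is a weakly holomorphic pair; the smooth representative has
derivative `0` on the disk, so it is constant; by `Rp` the constant is `f(z₁) = 0`. -/
def Stmt_KW0 : Prop :=
  ∀ (X : Type) [NormedAddCommGroup X] [NormedSpace ℝ X] [FiniteDimensional ℝ X] (z₀ z₁ : ℂ)
    (r : ℝ) (f : ℂ → X), z₁ ∈ Metric.ball z₀ r → L2loc (Metric.ball z₀ r) f →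
    (∀ φ : ℂ → ℝ, Test (Metric.ball z₀ r) φ → ∀ ζ : ℂ, ∫ z, fderiv ℝ φ z ζ • f z = 0) →
    Rp (Metric.ball z₀ r) f z₁ → f z₁ = 0 →
    ∀ᵐ z ∂(volume.restrict (Metric.ball z₀ r)), f z = 0

/-- PRC (200 lines; uses nothing).  A smooth primitive in `z` (`D` = the ball is star shaped with
respect to `z₁`): with `z - z₁ = a + i b`,
`C(w, z) = ∫_0^1 (a P(w, z₁ + t (z - z₁)) - b Q(w, z₁ + t (z - z₁))) dt`; smooth (integral with parameter,
see `B_PRI.lean`, or cut off), `C(w, z₁) = 0`, and the derivative in `z` by the closedness of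
`P dx - Q dy` (`∂_y P = -∂_x Q`). -/
def Stmt_PRC : Prop :=
  ∀ (V X : Type) [NormedAddCommGroup V] [NormedSpace ℝ V] [FiniteDimensional ℝ V]
    [NormedAddCommGroup X] [NormedSpace ℝ X] [FiniteDimensional ℝ X] (W : Set V) (z₀ z₁ : ℂ)
    (r : ℝ) (P Q : V × ℂ → X), IsOpen W → z₁ ∈ Metric.ball z₀ r →
    ContDiffOn ℝ ∞ P (W ×ˢ Metric.ball z₀ r) → ContDiffOn ℝ ∞ Q (W ×ˢ Metric.ball z₀ r) →
    (∀ p ∈ W ×ˢ Metric.ball z₀ r,
      fderiv ℝ P p (0, Complex.I) = -fderiv ℝ Q p (0, 1)) →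
    ∃ C : V × ℂ → X, ContDiffOn ℝ ∞ C (W ×ˢ Metric.ball z₀ r) ∧ (∀ w ∈ W, C (w, z₁) = 0) ∧
      ∀ p ∈ W ×ˢ Metric.ball z₀ r,
        fderiv ℝ C p (0, 1) = P p ∧ fderiv ℝ C p (0, Complex.I) = -Q p

/-! ## Part E: the flat gauge and the slices -/

/-- CRA (120 lines; uses nothing).  `IsCurv` for `(0, ζ)`, `(v, 0)` and `A(0, ζ) = 0` give (1); (2)
follows from (1) and `F(J(0, ζ), J(v, 0)) = -F((0, ζ), (v, 0))`, `JC J (0, ζ) = (0, i ζ)`; (3) is `HolP.eq`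
for the vectors `(0, ζ)`. -/
def Stmt_CRA : Prop :=
  ∀ (𝔐 : Type) [NormedRing 𝔐] [NormedAlgebra ℝ 𝔐] [StarRing 𝔐] [CStarRing 𝔐] [StarModule ℝ 𝔐]
    [FiniteDimensional ℝ 𝔐] (𝒢 : LieG 𝔐) (V : Type) [NormedAddCommGroup V] [NormedSpace ℝ V]
    [FiniteDimensional ℝ V] [MeasureSpace V] [BorelSpace V]
    [(volume : Measure V).IsAddHaarMeasure] (J : V →L[ℝ] V) (W₁ : Set V) (z₀ : ℂ) (r : ℝ)
    (A : V × ℂ → V × ℂ →L[ℝ] 𝔐) (F : V × ℂ → (V × ℂ) [⋀^Fin 2]→L[ℝ] 𝔐),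
    Flat 𝒢 J W₁ z₀ r A F →
    (∀ φ : V × ℂ → ℝ, Test (W₁ ×ˢ Metric.ball z₀ r) φ → ∀ (v : V) (ζ : ℂ),
      ∫ p, fderiv ℝ φ p (0, ζ) • A p (v, 0) = -∫ p, φ p • F p ![(0, ζ), (v, 0)]) ∧
    (∀ v : V, ZHol (W₁ ×ˢ Metric.ball z₀ r) (fun p => A p (v, 0)) (fun p => -A p (J v, 0))) ∧
    ∀ P Q : V × ℂ → 𝔐, HolP (W₁ ×ˢ Metric.ball z₀ r) A (JC J) P Q →
      ZHol (W₁ ×ˢ Metric.ball z₀ r) P Q

/-- ZSL (120 lines; uses SL2 GSS).  Slices `{w} × ball` of a function which is weakly holomorphic in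
`z`: GSS with `m = 2`, `v = ![ζ, i ζ]`, `f = ![P, -Q]`, `R = 0` for `ζ = 1, i`; both sides are linear in `ζ`. -/
def Stmt_ZSL : Prop :=
  ∀ (V X : Type) [NormedAddCommGroup V] [NormedSpace ℝ V] [FiniteDimensional ℝ V]
    [MeasureSpace V] [BorelSpace V] [(volume : Measure V).IsAddHaarMeasure]
    [NormedAddCommGroup X] [NormedSpace ℝ X] [FiniteDimensional ℝ X] (W₁ : Set V) (z₀ : ℂ)
    (r : ℝ) (P Q : V × ℂ → X), IsOpen W₁ → ZHol (W₁ ×ˢ Metric.ball z₀ r) P Q →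
    ∀ᵐ w ∂(volume.restrict W₁),
      WHol (Metric.ball z₀ r) mulI (fun z => P (w, z)) (fun z => Q (w, z))

/-- RPG (250 lines; uses FUB SL2).  Almost all values are values of the continuous representative.
The averages `m_n(w, z) = ⨍ f(w, ·)` over `ball z (1 / n)` (for `closedBall z (1 / n) ⊆ ball z₀ r`) are jointly
measurable; for almost all `w` they converge to `c_w(z)` for every `z` of the disk (`c_w` continuous), and
`f(w, z) = c_w(z)` for almost all `z`.  So `f = lim m_n` almost everywhere on the product (a measurable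
statement: FUB for `f - lim m_n`), and for almost all `z₁` one has `f(w, z₁) = lim m_n(w, z₁) = c_w(z₁)` for
almost all `w`. -/
def Stmt_RPG : Prop :=
  ∀ (V X : Type) [NormedAddCommGroup V] [NormedSpace ℝ V] [FiniteDimensional ℝ V]
    [MeasureSpace V] [BorelSpace V] [(volume : Measure V).IsAddHaarMeasure]
    [NormedAddCommGroup X] [NormedSpace ℝ X] [FiniteDimensional ℝ X] (W₁ : Set V) (z₀ : ℂ)
    (r : ℝ) (f : V × ℂ → X), IsOpen W₁ → L2loc (W₁ ×ˢ Metric.ball z₀ r) f →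
    (∀ᵐ w ∂(volume.restrict W₁), ∃ c : ℂ → X, ContinuousOn c (Metric.ball z₀ r) ∧
      ∀ᵐ z ∂(volume.restrict (Metric.ball z₀ r)), f (w, z) = c z) →
    ∀ᵐ z₁ ∂(volume.restrict (Metric.ball z₀ r)), ∀ᵐ w ∂(volume.restrict W₁),
      Rp (Metric.ball z₀ r) (fun z => f (w, z)) z₁

/-- GNZ (150 lines; uses FUB CRA ZSL WHS RPG CSL).  Almost every `z₁` is good: CSL for the connection,
Fubini for the type, and for `v` in a basis of `V` the pair `(A(v, 0), -A(Jv, 0))` is weakly holomorphic in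
`z` (CRA, ZSL), so it has smooth representatives (WHS with `E = ℂ`), RPG; `Rp` is stable under linear
combinations. -/
def Stmt_GNZ : Prop :=
  ∀ (𝔐 : Type) [NormedRing 𝔐] [NormedAlgebra ℝ 𝔐] [StarRing 𝔐] [CStarRing 𝔐] [StarModule ℝ 𝔐]
    [FiniteDimensional ℝ 𝔐] (𝒢 : LieG 𝔐) (V : Type) [NormedAddCommGroup V] [NormedSpace ℝ V]
    [FiniteDimensional ℝ V] [MeasureSpace V] [BorelSpace V]
    [(volume : Measure V).IsAddHaarMeasure] (J : V →L[ℝ] V) (W₁ : Set V) (z₀ : ℂ) (r : ℝ)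
    (A : V × ℂ → V × ℂ →L[ℝ] 𝔐) (F : V × ℂ → (V × ℂ) [⋀^Fin 2]→L[ℝ] 𝔐),
    Flat 𝒢 J W₁ z₀ r A F → ∃ z₁, GoodZ 𝒢 J W₁ z₀ r A F z₁

/-- GID (120 lines; uses CRA).  `e(v, φ) : ∫ (∂_{(v,0)} φ P - ∂_{(Jv,0)} φ Q) = ∫ φ g1(v)` with
`g1(v) = brk A_v P - brk A_{Jv} Q`, `g1(Jv) = brk A_{Jv} P + brk A_v Q` (`HolP.eq` for `(v, 0)`, `A_v = A(v, 0)`).
`e(v, ∂_{(0,1)} φ) - e(Jv, ∂_{(0,i)} φ)`: the left side is
`∫ (∂_1 (∂_v φ) P - ∂_i (∂_v φ) Q) - ∫ (∂_1 (∂_{Jv} φ) Q + ∂_i (∂_{Jv} φ) P)`, and both integrals vanish because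
`(P, Q)` is weakly holomorphic in `z` (CRA, third part, `ζ = 1` and `ζ = i`).  This is (1); (2) is (1) for
`Jv` instead of `v`. -/
def Stmt_GID : Prop :=
  ∀ (𝔐 : Type) [NormedRing 𝔐] [NormedAlgebra ℝ 𝔐] [StarRing 𝔐] [CStarRing 𝔐] [StarModule ℝ 𝔐]
    [FiniteDimensional ℝ 𝔐] (𝒢 : LieG 𝔐) (V : Type) [NormedAddCommGroup V] [NormedSpace ℝ V]
    [FiniteDimensional ℝ V] [MeasureSpace V] [BorelSpace V]
    [(volume : Measure V).IsAddHaarMeasure] (J : V →L[ℝ] V) (W₁ : Set V) (z₀ : ℂ) (r : ℝ)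
    (A : V × ℂ → V × ℂ →L[ℝ] 𝔐) (F : V × ℂ → (V × ℂ) [⋀^Fin 2]→L[ℝ] 𝔐)
    (P Q : V × ℂ → 𝔐), Flat 𝒢 J W₁ z₀ r A F →
    HolP (W₁ ×ˢ Metric.ball z₀ r) A (JC J) P Q → ∀ v : V,
    (∀ φ : V × ℂ → ℝ, Test (W₁ ×ˢ Metric.ball z₀ r) φ →
      ∫ p, (fderiv ℝ φ p (0, 1) • (brk (A p (v, 0)) (P p) - brk (A p (J v, 0)) (Q p)) -
        fderiv ℝ φ p (0, Complex.I) •
          (brk (A p (J v, 0)) (P p) + brk (A p (v, 0)) (Q p))) = 0) ∧
    ∀ φ : V × ℂ → ℝ, Test (W₁ ×ˢ Metric.ball z₀ r) φ →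
      ∫ p, (fderiv ℝ φ p (0, 1) • (brk (A p (J v, 0)) (P p) + brk (A p (v, 0)) (Q p)) +
        fderiv ℝ φ p (0, Complex.I) •
          (brk (A p (v, 0)) (P p) - brk (A p (J v, 0)) (Q p))) = 0

/-- KEY (200 lines; uses FUB GSS CRA ZSL GID KW1).  For `v` in a basis of `V` and almost all `w`: KW1
with `a = A(w, ·)(v, 0)`, `b = -A(w, ·)(Jv, 0)`, `P(w, ·)`, `Q(w, ·)` (ZSL, CRA for the pairs, GSS for the two
weak identities of GID; the products are in `L¹_loc`; `Rp` by `GoodZ.rp`, `-` of a representative); FUB for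
the almost everywhere statement on the product; linear in `v`. -/
def Stmt_KEY : Prop :=
  ∀ (𝔐 : Type) [NormedRing 𝔐] [NormedAlgebra ℝ 𝔐] [StarRing 𝔐] [CStarRing 𝔐] [StarModule ℝ 𝔐]
    [FiniteDimensional ℝ 𝔐] (𝒢 : LieG 𝔐) (V : Type) [NormedAddCommGroup V] [NormedSpace ℝ V]
    [FiniteDimensional ℝ V] [MeasureSpace V] [BorelSpace V]
    [(volume : Measure V).IsAddHaarMeasure] (J : V →L[ℝ] V) (W₁ : Set V) (z₀ : ℂ) (r : ℝ)
    (A : V × ℂ → V × ℂ →L[ℝ] 𝔐) (F : V × ℂ → (V × ℂ) [⋀^Fin 2]→L[ℝ] 𝔐) (z₁ : ℂ)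
    (P Q : V × ℂ → 𝔐), Flat 𝒢 J W₁ z₀ r A F → GoodZ 𝒢 J W₁ z₀ r A F z₁ →
    HolP (W₁ ×ˢ Metric.ball z₀ r) A (JC J) P Q →
    ∀ᵐ p ∂(volume.restrict (W₁ ×ˢ Metric.ball z₀ r)), ∀ v : V,
      brk (A p (v, 0) - A (p.1, z₁) (v, 0)) (P p) -
        brk (A p (J v, 0) - A (p.1, z₁) (J v, 0)) (Q p) = 0

/-- HPB (200 lines; uses FUB SL2 GST KEY).  For almost all `z`: the slice `(P(·, z), Q(·, z))` is a
holomorphic pair for `rc1 A z` (GST with `m = 2`, `v = ![v, Jv]`, `f = ![P, -Q]`, for `v` in a basis; both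
sides are linear in `v`), and by KEY (`Measure.ae_ae_of_ae_prod` in the other order, for this order use
`Prod.swap` or FUB) the brackets with `rc1 A z` and with `rc1 A z₁` agree. -/
def Stmt_HPB : Prop :=
  ∀ (𝔐 : Type) [NormedRing 𝔐] [NormedAlgebra ℝ 𝔐] [StarRing 𝔐] [CStarRing 𝔐] [StarModule ℝ 𝔐]
    [FiniteDimensional ℝ 𝔐] (𝒢 : LieG 𝔐) (V : Type) [NormedAddCommGroup V] [NormedSpace ℝ V]
    [FiniteDimensional ℝ V] [MeasureSpace V] [BorelSpace V]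
    [(volume : Measure V).IsAddHaarMeasure] (J : V →L[ℝ] V) (W₁ : Set V) (z₀ : ℂ) (r : ℝ)
    (A : V × ℂ → V × ℂ →L[ℝ] 𝔐) (F : V × ℂ → (V × ℂ) [⋀^Fin 2]→L[ℝ] 𝔐) (z₁ : ℂ)
    (P Q : V × ℂ → 𝔐), Flat 𝒢 J W₁ z₀ r A F → GoodZ 𝒢 J W₁ z₀ r A F z₁ →
    HolP (W₁ ×ˢ Metric.ball z₀ r) A (JC J) P Q →
    ∀ᵐ z ∂(volume.restrict (Metric.ball z₀ r)),
      HolP W₁ (rc1 A z₁) J (fun w => P (w, z)) (fun w => Q (w, z))

/-! ## Part F: the induction step -/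

/-- JWH (200 lines; uses TI.LIE ZSL).  `WHol.eq` is linear in the vector, so it is enough to treat
`(v, 0)` and `(0, ζ)`.  `(v, 0)`: Fubini, for almost all `z` the inner integral vanishes
(`φ(·, z)` is a test function on `W₂`).  `(0, ζ)`: Fubini, for almost all `w` the pair
`(P(w, ·), Q(w, ·))` is weakly holomorphic on the disk (ZSL), and `star (k w)`, `k w` do not depend on `z`. -/
def Stmt_JWH : Prop :=
  ∀ (𝔐 : Type) [NormedRing 𝔐] [NormedAlgebra ℝ 𝔐] [StarRing 𝔐] [CStarRing 𝔐] [StarModule ℝ 𝔐]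
    [FiniteDimensional ℝ 𝔐] (𝒢 : LieG 𝔐) (V : Type) [NormedAddCommGroup V] [NormedSpace ℝ V]
    [FiniteDimensional ℝ V] [MeasureSpace V] [BorelSpace V]
    [(volume : Measure V).IsAddHaarMeasure] (J : V →L[ℝ] V) (W₂ : Set V) (z₀ : ℂ) (r : ℝ)
    (B S : V → V →L[ℝ] 𝔐) (k : V → 𝔐) (dk : V → V →L[ℝ] 𝔐) (P Q : V × ℂ → 𝔐), IsOpen W₂ →
    Gau 𝒢 W₂ B S k dk → ZHol (W₂ ×ˢ Metric.ball z₀ r) P Q →
    (∀ᵐ z ∂(volume.restrict (Metric.ball z₀ r)), WHol W₂ J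
      (fun w => star (k w) * P (w, z) * k w) (fun w => star (k w) * Q (w, z) * k w)) →
    WHol (W₂ ×ˢ Metric.ball z₀ r) (JC J) (fun p => star (k p.1) * P p * k p.1)
      (fun p => star (k p.1) * Q p * k p.1)

/-- SMA (300 lines; uses FUB SL2 GSS CRA WHS KW0 PRC).  For `v` in a basis of `V`: WHS gives smooth
`P_v`, `Q_v` equal almost everywhere to `star k F((0,1),(v,0)) k`, `-star k F((0,1),(Jv,0)) k` with the
Cauchy-Riemann equations; PRC gives `C_v`.  CRA (1) and GSS: for almost all `w` the weak derivatives of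
`A(w, ·)(v, 0)` are `F((0,1),(v,0))` and `F((0,i),(v,0)) = F((0,1),(Jv,0))` (type of `F`), so
`f = star k (A(w, ·)(v, 0) - A(w, z₁)(v, 0)) k - C_v(w, ·)` has vanishing weak derivatives, `Rp` at `z₁` (by
`GoodZ.rp`) and `f(z₁) = 0`; KW0: `f = 0` almost everywhere; FUB.  `S''(p)(v, ζ) = S(p.1) v + C_v(p)`, extended
linearly from the basis (`A(0, ζ) = 0`). -/
def Stmt_SMA : Prop :=
  ∀ (𝔐 : Type) [NormedRing 𝔐] [NormedAlgebra ℝ 𝔐] [StarRing 𝔐] [CStarRing 𝔐] [StarModule ℝ 𝔐]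
    [FiniteDimensional ℝ 𝔐] (𝒢 : LieG 𝔐) (V : Type) [NormedAddCommGroup V] [NormedSpace ℝ V]
    [FiniteDimensional ℝ V] [MeasureSpace V] [BorelSpace V]
    [(volume : Measure V).IsAddHaarMeasure] (J : V →L[ℝ] V) (W₂ : Set V) (z₀ : ℂ) (r : ℝ)
    (A : V × ℂ → V × ℂ →L[ℝ] 𝔐) (F : V × ℂ → (V × ℂ) [⋀^Fin 2]→L[ℝ] 𝔐) (z₁ : ℂ)
    (S : V → V →L[ℝ] 𝔐) (k : V → 𝔐) (dk : V → V →L[ℝ] 𝔐), Flat 𝒢 J W₂ z₀ r A F →
    GoodZ 𝒢 J W₂ z₀ r A F z₁ → Gau 𝒢 W₂ (rc1 A z₁) S k dk → ContDiffOn ℝ ∞ S W₂ →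
    (∀ v : V, WHol (W₂ ×ˢ Metric.ball z₀ r) (JC J)
      (fun p => star (k p.1) * F p ![(0, 1), (v, 0)] * k p.1)
      (fun p => star (k p.1) * (-F p ![(0, 1), (J v, 0)]) * k p.1)) →
    ∃ S'' : V × ℂ → V × ℂ →L[ℝ] 𝔐, ContDiffOn ℝ ∞ S'' (W₂ ×ˢ Metric.ball z₀ r) ∧
      ∀ᵐ p ∂(volume.restrict (W₂ ×ˢ Metric.ball z₀ r)), ∀ (v : V) (ζ : ℂ), S'' p (v, ζ) =
        S p.1 v + star (k p.1) * (A p (v, ζ) - A (p.1, z₁) (v, 0)) * k p.1

/-- STJ (350 lines; uses TI.LIE LBR CG2 DCV GCO GPC KFT BHO CRA GNZ HPB JWH SMA).  The induction step, at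
`p₀ = (w₀, z₀) ∈ W`.  `F(Ju, Jv) = -F(u, v)` gives `F((0,1),(0,i)) = 0`; KFT gives `r`, `A'`, `g`; on
`N₁ = ball w₀ r ×ˢ ball z₀ r` (`ball_prod_same`) `Flat` holds for `A'`, `F' = adF g F` (CG2).  GNZ: `z₁`.
`GoodJ V` for `B = rc1 A' z₁` at `w₀`: `W₂`, `S`, `k`, `dk`; `Flat`, `GoodZ` hold on `W₂` too (restriction).
(a) For a holomorphic pair `(P, Q)` for `A` on `W`, `P' = star g P g`, `Q' = star g Q g` is one for `A'` on
`N₁` (DCV), its slices are holomorphic pairs for `B` (HPB), so `star k P'(·, z) k`, ... are weakly holomorphic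
on `W₂` for almost all `z`, and JWH (with CRA (3)) gives the claim for `star (g k) P (g k)`.
(b) The same for the pair `F'((0,1),(v,0))`, `-F'((0,1),(Jv,0))` (BHO for `A'`), so SMA applies: `S''` smooth.
(c) GPC (`S' = S''`), GCO: `Gau 𝒢 N₂ A S'' (g k) _` on `N₂ = W₂ ×ˢ ball z₀ r`; `S''` is Lie algebra valued
almost everywhere (LBR), hence everywhere by continuity (`lie` is closed). -/
def Stmt_STJ : Prop :=
  ∀ (𝔐 : Type) [NormedRing 𝔐] [NormedAlgebra ℝ 𝔐] [StarRing 𝔐] [CStarRing 𝔐] [StarModule ℝ 𝔐]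
    [FiniteDimensional ℝ 𝔐] (𝒢 : LieG 𝔐) (V : Type) [NormedAddCommGroup V] [NormedSpace ℝ V]
    [FiniteDimensional ℝ V] [MeasureSpace V] [BorelSpace V]
    [(volume : Measure V).IsAddHaarMeasure] (J : V →L[ℝ] V), Cpx J → GoodJ 𝔐 𝒢 V J →
    GoodJ 𝔐 𝒢 (V × ℂ) (JC J)

/-- TRJ (200 lines; uses TI.PBC DLI).  Transport by a linear isomorphism (as TRP, see `B_TRP.lean`;
`J20` and `HolP` are transported by `L (J' v) = J (L v)`, `WHol` is the case `A = 0` of the same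
computation, `DLI_int`). -/
def Stmt_TRJ : Prop :=
  ∀ (𝔐 : Type) [NormedRing 𝔐] [NormedAlgebra ℝ 𝔐] [StarRing 𝔐] [CStarRing 𝔐] [StarModule ℝ 𝔐]
    [FiniteDimensional ℝ 𝔐] (𝒢 : LieG 𝔐) (E' E : Type) [NormedAddCommGroup E']
    [NormedSpace ℝ E'] [FiniteDimensional ℝ E'] [MeasureSpace E'] [BorelSpace E']
    [(volume : Measure E').IsAddHaarMeasure] [NormedAddCommGroup E] [NormedSpace ℝ E]
    [FiniteDimensional ℝ E] [MeasureSpace E] [BorelSpace E]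
    [(volume : Measure E).IsAddHaarMeasure] (L : E' ≃L[ℝ] E) (J' : E' →L[ℝ] E')
    (J : E →L[ℝ] E), (∀ v, L (J' v) = J (L v)) → GoodJ 𝔐 𝒢 E' J' → GoodJ 𝔐 𝒢 E J

/-- GJ0 (80 lines; uses nothing).  Dimension `0` (see `B_GD0.lean`): `g = 1`, `S = A`. -/
def Stmt_GJ0 : Prop :=
  ∀ (𝔐 : Type) [NormedRing 𝔐] [NormedAlgebra ℝ 𝔐] [StarRing 𝔐] [CStarRing 𝔐] [StarModule ℝ 𝔐]
    [FiniteDimensional ℝ 𝔐] (𝒢 : LieG 𝔐) (J : Eu 0 →L[ℝ] Eu 0), GoodJ 𝔐 𝒢 (Eu 0) J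

/-- DCJ (200 lines; uses nothing).  (1): `J = c` is a scalar on `Eu 1`, `c² = -1` is impossible.
(2) Let `u ≠ 0`, `P = span {u, Ju}` (two-dimensional, `J`-invariant), `pr` a projection onto `P`;
`π(v) = (1/2) (pr v - J pr (J v))` is a projection onto `P` which commutes with `J`, so `K = ker π` is
`J`-invariant of dimension `n`; choose a linear isomorphism `e : Eu n ≃L K` and put
`L(v, a + i b) = e v + a u + b J u`, `J' = e⁻¹ J e`. -/
def Stmt_DCJ : Prop :=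
  (∀ J : Eu 1 →L[ℝ] Eu 1, ¬ Cpx J) ∧
  ∀ (n : ℕ) (J : Eu (n + 2) →L[ℝ] Eu (n + 2)), Cpx J →
    ∃ (J' : Eu n →L[ℝ] Eu n) (L : (Eu n × ℂ) ≃L[ℝ] Eu (n + 2)), Cpx J' ∧
      ∀ p, L (JC J' p) = J (L p)

/-- INJ (60 lines; uses STJ TRJ GJ0 DCJ).  Induction on `n` in steps of two. -/
def Stmt_INJ : Prop :=
  ∀ (𝔐 : Type) [NormedRing 𝔐] [NormedAlgebra ℝ 𝔐] [StarRing 𝔐] [CStarRing 𝔐] [StarModule ℝ 𝔐]
    [FiniteDimensional ℝ 𝔐] (𝒢 : LieG 𝔐) (n : ℕ) (J : Eu n →L[ℝ] Eu n), Cpx J →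
    GoodJ 𝔐 𝒢 (Eu n) J

/-- FJR (120 lines; uses INJ).  For a linear functional `l` of `𝔐` the form `l ∘ F(x)` is a real
solution for almost all `x` (`wdg` is linear in the second argument), so `l(F(Ju, Jv) + F(u, v)) = 0`;
finitely many `l` separate points, so `J20 U J F`; INJ gives `NiceJ` at `x`, hence `Reg`
(`GaugeEq` from `Gau`: see `B_FTR.lean`). -/
def Stmt_FJR : Prop :=
  ∀ (𝔐 : Type) [NormedRing 𝔐] [NormedAlgebra ℝ 𝔐] [StarRing 𝔐] [CStarRing 𝔐] [StarModule ℝ 𝔐]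
    [FiniteDimensional ℝ 𝔐] (𝒢 : LieG 𝔐) (m : ℕ) (U : Set (Eu (m + 4)))
    (h : Eu (m + 4) → Bil (Eu (m + 4))) (Ω : Eu (m + 4) → Frm m (Eu (m + 4)))
    (A : OneF (Eu (m + 4)) 𝔐) (F : TwoF (Eu (m + 4)) 𝔐) (J : Eu (m + 4) →L[ℝ] Eu (m + 4)),
    WInst (stb (m + 4)) 𝒢 U h Ω A F → Cpx J →
    (∀ x ∈ U, ∀ w : Frm 2 (Eu (m + 4)), StEq (stb (m + 4)) (h x) (Ω x) w →
      ∀ u v, w ![J u, J v] = -w ![u, v]) →
    ∀ x ∈ U, Reg 𝒢 A x

end Pool.TIW
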