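import Pool.Agent.Work.MP_a1f430_wb.Interface3
import Pool.Agent.Work.MP_a1f430_ti.Final

/-! # Two-forms in dimension six, blocks (MP_a1f430, THEOREM D6, helper24)

Block `X` lives in `Pool/Agent/Work/MP_a1f430_wb/B_X.lean` (import this file, namespace `Pool.TIW`, the
`open` lines of this file) and proves `theorem p_X : Stmt_X` or
`theorem p_X (h1 : Stmt_Y) ... : Stmt_X` with the statements of the column `uses` as hypotheses in
that order.  Auxiliary lemmas have the prefix `X_`.  Finished files `MP_a1f430_ti/B_Y.lean`,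
`MP_a1f430_wb/B_Y.lean` may be imported for their auxiliary lemmas.

THE THEOREM (`n = 6`, constant metric, constant `Ω = a e⁰¹ + b e²³ + c e⁴⁵`): the singular set is empty or
has positive two-dimensional measure unless `Ω = - (e⁰¹ + e²³ + e⁴⁵)` in some frame.  PROOF.  The
solutions `w` satisfy the equations of EQ6.  No `a, b, c` of modulus one: at most one solution up to
multiples (C6A), regular by FTR, DM1.  Exactly one, say `c`: `f 4` is annihilated (C6B), `Fin_up` in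
`MP_a1f430_ti/Final.lean`.  Two, say `b`, `c`, and `a ≠ - b c`: all solutions are of type (2,0)+(0,2) for
a complex structure (C6C), regular by FJR.  The remaining case `a = - b c`, `|b| = |c| = 1` is the exception
(change signs, NFP). -/

set_option autoImplicit false

namespace Pool.TIW

open Pool.TIA
open MeasureTheory Set Filter Topology
open scoped ContDiff ENNReal

/-- The Euclidean space of dimension six. -/
abbrev E6 : Type := Eu (2 + 4)

/-- `f` is a positively oriented `h`-orthonormal frame in which `Ω = a f⁰¹ + b f²³ + c f⁴⁵`. -/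
structure NF6 (h : Bil E6) (Ω : Frm 2 E6) (f : Fin 6 → E6) (a b c : ℝ) : Prop where
  fr : OFr (stb (2 + 4)) h (fun i => f (ix 2 i))
  o01 : Ω ![f 0, f 1] = a
  o23 : Ω ![f 2, f 3] = b
  o45 : Ω ![f 4, f 5] = c
  off : ∀ i j : Fin 6, i.val / 2 ≠ j.val / 2 → Ω ![f i, f j] = 0

/-- WD2 (150 lines; uses nothing).  The wedge product of two two-forms.  `AlternatingMap.domCoprod` is
the sum over `Equiv.Perm.ModSumCongr (Fin 2) (Fin 2)` (six elements) of the signed summands (see `AL1_wdg`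
in `MP_a1f430_ti/B_AL1.lean`); list the six classes by explicit representatives (`decide` for the
enumeration), or use `AlternatingMap.domCoprod` in the form with all 24 permutations
(`MultilinearMap.domCoprod_alternization_coe`-type lemmas) and divide by `4`. -/
def Stmt_WD2 : Prop :=
  ∀ (𝔐 : Type) [NormedRing 𝔐] [NormedAlgebra ℝ 𝔐] (E : Type) [NormedAddCommGroup E]
    [NormedSpace ℝ E] (Ω : Frm 2 E) (F : E [⋀^Fin 2]→L[ℝ] 𝔐) (v : Fin 2 ⊕ Fin 2 → E)
    (v₁ v₂ v₃ v₄ : E), v (Sum.inl 0) = v₁ → v (Sum.inl 1) = v₂ → v (Sum.inr 0) = v₃ →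
    v (Sum.inr 1) = v₄ →
    wdg Ω F v = Ω ![v₁, v₂] • F ![v₃, v₄] - Ω ![v₁, v₃] • F ![v₂, v₄] +
      Ω ![v₁, v₄] • F ![v₂, v₃] + Ω ![v₂, v₃] • F ![v₁, v₄] - Ω ![v₂, v₄] • F ![v₁, v₃] +
      Ω ![v₃, v₄] • F ![v₁, v₂]

/-- EQ6 (250 lines; uses WD2).  For an even permutation `σ` of `Fin 6` the family `f ∘ σ` is again a
positively oriented orthonormal frame (`Module.Basis.det` is alternating), so
`wdg Ω w (f σ0, f σ1, f σ2, f σ3) = w(f σ4, f σ5)`.  Use WD2 for the permutations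
`012345 234501 014523`, `314502 124503 034512 204513`, `523104 123405 023514 423015`,
`015324 013425 012534 014235` (all even), and `w(y, x) = - w(x, y)`. -/
def Stmt_EQ6 : Prop :=
  ∀ (h : Bil E6) (Ω : Frm 2 E6) (f : Fin 6 → E6) (a b c : ℝ), NF6 h Ω f a b c →
    ∀ w : Frm 2 E6, StEq (stb (2 + 4)) h Ω w →
    (w ![f 0, f 1] = b * w ![f 4, f 5] + c * w ![f 2, f 3] ∧
      w ![f 2, f 3] = c * w ![f 0, f 1] + a * w ![f 4, f 5] ∧
      w ![f 4, f 5] = a * w ![f 2, f 3] + b * w ![f 0, f 1]) ∧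
    (w ![f 0, f 2] = -(c * w ![f 1, f 3]) ∧ w ![f 0, f 3] = c * w ![f 1, f 2] ∧
      w ![f 1, f 2] = c * w ![f 0, f 3] ∧ w ![f 1, f 3] = -(c * w ![f 0, f 2])) ∧
    (w ![f 0, f 4] = -(b * w ![f 1, f 5]) ∧ w ![f 0, f 5] = b * w ![f 1, f 4] ∧
      w ![f 1, f 4] = b * w ![f 0, f 5] ∧ w ![f 1, f 5] = -(b * w ![f 0, f 4])) ∧
    (w ![f 2, f 4] = -(a * w ![f 3, f 5]) ∧ w ![f 2, f 5] = a * w ![f 3, f 4] ∧
      w ![f 3, f 4] = a * w ![f 2, f 5] ∧ w ![f 3, f 5] = -(a * w ![f 2, f 4]))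

/-- NFE (300 lines; uses nothing).  The normal form of a two-form.  Let `S = {u | h u u = 1}` (compact,
`h` is equivalent to the Euclidean scalar product) and `a = Ω(u, v)` the maximum of `Ω` on `S × S`.  If
`a = 0` then `Ω = 0`.  If `a > 0`: for fixed `u` the functional `Ω(u, ·)` attains its maximum on `S` at `v`,
so `Ω(u, x) = a h(v, x)` for all `x`, and `Ω(x, v) = a h(u, x)`; in particular `0 = Ω(u, u) = a h(v, u)`.  So
`Ω' = Ω - a u♭ ∧ v♭` vanishes on `u`, `v`; maximize `Ω'` on `S × S`: its maximizers are orthogonal to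
`u, v` if `Ω' ≠ 0` (because `Ω'(u', x) = a' h(v', x)`); if `Ω' = 0` take any orthonormal vectors in the
orthogonal complement.  After three steps `(f 0, ..., f 5)` is an orthonormal frame (in the last step the
complement is two-dimensional: any orthonormal pair).  If the determinant is negative exchange `f 4`
and `f 5` (`c` becomes `- c`).  (Existence of orthonormal vectors: Gram-Schmidt as in `B_FRM.lean`.) -/
def Stmt_NFE : Prop :=
  ∀ (h : Bil E6) (Ω : Frm 2 E6), (∀ v w, h v w = h w v) → (∀ v, v ≠ 0 → 0 < h v v) →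
    ∃ (f : Fin 6 → E6) (a b c : ℝ), NF6 h Ω f a b c

/-- NFP (120 lines; uses nothing).  Even permutations of the frame:
`(f 2, f 3, f 4, f 5, f 0, f 1)`, `(f 2, f 3, f 0, f 1, f 4, f 5)`, `(f 0, f 1, f 3, f 2, f 5, f 4)`. -/
def Stmt_NFP : Prop :=
  ∀ (h : Bil E6) (Ω : Frm 2 E6) (f : Fin 6 → E6) (a b c : ℝ), NF6 h Ω f a b c →
    (∃ f', NF6 h Ω f' b c a) ∧ (∃ f', NF6 h Ω f' b a c) ∧ ∃ f', NF6 h Ω f' a (-b) (-c)

/-- C6A (150 lines; uses EQ6).  `(1 - c²) w(f 0, f 2) = 0` and so on: all mixed components of a solution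
vanish, and `(1 - c²) w(f 0, f 1) = (b + c a) w(f 4, f 5)`, `(1 - c²) w(f 2, f 3) = (a + b c) w(f 4, f 5)`.  If all
solutions vanish on `(f 4, f 5)` they are `0` (`w₀ = 0`); otherwise let `w₀` be a solution with
`w₀(f 4, f 5) ≠ 0`; `w` and `(w(f 4, f 5) / w₀(f 4, f 5)) w₀` agree on the frame, which is a basis. -/
def Stmt_C6A : Prop :=
  ∀ (h : Bil E6) (Ω : Frm 2 E6) (f : Fin 6 → E6) (a b c : ℝ), NF6 h Ω f a b c →
    a ^ 2 ≠ 1 → b ^ 2 ≠ 1 → c ^ 2 ≠ 1 →
    ∃ w₀ : Frm 2 E6, ∀ w : Frm 2 E6, StEq (stb (2 + 4)) h Ω w → ∃ t : ℝ, w = t • w₀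

/-- C6B (100 lines; uses EQ6).  The components `w(f 4, f j)`, `j < 4`, vanish as `a² ≠ 1`, `b² ≠ 1`.
`w01 - c w23 = b w45` and `c w23 - w01 = c a w45` (`c² = 1`) give `(b + c a) w45 = 0`; if `b = - c a` then
`w45 = a (w23 - c w01) = a² w45` by the equation for `w23`, and `a² ≠ 1`; if not, `w45 = 0` as well. -/
def Stmt_C6B : Prop :=
  ∀ (h : Bil E6) (Ω : Frm 2 E6) (f : Fin 6 → E6) (a b c : ℝ), NF6 h Ω f a b c →
    a ^ 2 ≠ 1 → b ^ 2 ≠ 1 → c ^ 2 = 1 →
    ∀ w : Frm 2 E6, StEq (stb (2 + 4)) h Ω w → ∀ v, w ![f 4, v] = 0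

/-- C6C (200 lines; uses EQ6).  `J f0 = f1`, `J f1 = - f0`, `J f2 = c f3`, `J f3 = - c f2`, `J f4 = b f5`,
`J f5 = - b f4` (extended linearly from the basis `f`).  The determinant of the system for
`(w01, w23, w45)` is `(a + b c)² ≠ 0`, so these vanish; check `w(J fi, J fj) = - w(fi, fj)` with EQ6 (for the
pairs `(2, 4), ...`: if `a² ≠ 1` these components vanish, otherwise `a = b c`: `a² = 1` and `a ≠ - b c`). -/
def Stmt_C6C : Prop :=
  ∀ (h : Bil E6) (Ω : Frm 2 E6) (f : Fin 6 → E6) (a b c : ℝ), NF6 h Ω f a b c →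
    b ^ 2 = 1 → c ^ 2 = 1 → a ≠ -(b * c) →
    ∃ J : E6 →L[ℝ] E6, Cpx J ∧ ∀ w : Frm 2 E6, StEq (stb (2 + 4)) h Ω w →
      ∀ u v, w ![J u, J v] = -w ![u, v]

/-- D6F (200 lines; uses FTR DM1 FJR NFE NFP C6A C6B C6C).  (1): C6A, DM1 (with `RMet`), FTR.
(2): `U` empty is trivial; otherwise `h₀` is symmetric and positive, NFE.  If no square is `1`: (1).  If
exactly one square is `1` permute (NFP) so that it is `c`: C6B, `AFl (stb (2 + 4)) 1 h Ω x` with `N = U` and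
the constant field `f 4`, `Fin_up` with `k = 1`.  If two squares are `1` permute so that they are `b`, `c`:
if `a ≠ - b c` C6C and FJR; if `a = - b c` then `a b c = -1`, permute so that `a = -1` (`b = c`), change the
signs if `b = c = 1` (NFP). -/
def Stmt_D6F : Prop :=
  ∀ (𝔐 : Type) [NormedRing 𝔐] [NormedAlgebra ℝ 𝔐] [StarRing 𝔐] [CStarRing 𝔐] [StarModule ℝ 𝔐]
    [FiniteDimensional ℝ 𝔐] (𝒢 : LieG 𝔐) (U : Set E6) (h : E6 → Bil E6) (Ω : E6 → Frm 2 E6)
    (A : OneF E6 𝔐) (F : TwoF E6 𝔐), WInst (stb (2 + 4)) 𝒢 U h Ω A F →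
    (∀ x ∈ U, ∀ (f : Fin 6 → E6) (a b c : ℝ), NF6 (h x) (Ω x) f a b c → a ^ 2 ≠ 1 →
      b ^ 2 ≠ 1 → c ^ 2 ≠ 1 → x ∉ Sing 𝒢 U A) ∧
    ∀ (h₀ : Bil E6) (Ω₀ : Frm 2 E6), (∀ x ∈ U, h x = h₀) → (∀ x ∈ U, Ω x = Ω₀) →
      (∃ f, NF6 h₀ Ω₀ f (-1) (-1) (-1)) ∨ Sing 𝒢 U A = ∅ ∨
        0 < Measure.hausdorffMeasure (2 : ℝ) (Sing 𝒢 U A)

end Pool.TIW
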